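import Pool.Agent.RUP.Soc
import Pool.Agent.RUP.Gen

/-! Project SOF (MP_66ba69_lc, fixed order theorem), definitions: structures with axioms on K5-free sets only, their
closure. -/

set_option autoImplicit false

namespace Pool.Agent.SOF

open Pool.Agent.SOC Pool.Agent.SOD Pool.Agent.RUP

variable {V : Type}

/-- five pairwise adjacent vertices -/
def K5 (G : SimpleGraph V) (a b c d e : V) : Prop :=
  G.Adj a b ∧ G.Adj a c ∧ G.Adj a d ∧ G.Adj a e ∧ G.Adj b c ∧ G.Adj b d ∧ G.Adj b e ∧ G.Adj c d ∧ G.Adj c e ∧ G.Adj d e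

/-- four pairwise adjacent vertices -/
def K4 (G : SimpleGraph V) (a b c d : V) : Prop :=
  G.Adj a b ∧ G.Adj a c ∧ G.Adj a d ∧ G.Adj b c ∧ G.Adj b d ∧ G.Adj c d

/-- `a`, `b` are adjacent to `c`, `d` -/
def Sq (G : SimpleGraph V) (a b c d : V) : Prop := G.Adj a c ∧ G.Adj a d ∧ G.Adj b c ∧ G.Adj b d

/-- the vertices of the list contain no complete graph on five vertices -/
def K5F (G : SimpleGraph V) (l : List V) : Prop :=
  ∀ a ∈ l, ∀ b ∈ l, ∀ c ∈ l, ∀ d ∈ l, ∀ e ∈ l, ¬ K5 G a b c d e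

/-- quartet structures, with the axioms on five and six vertices only for sets without a complete graph on five
vertices, and one condition for complete graphs on five vertices -/
structure QF (G : SimpleGraph V) (cr T : V → V → V → V → Prop) : Prop where
  swap₁ : ∀ {a b c d}, T a b c d → T b a c d
  swap₂ : ∀ {a b c d}, T a b c d → T c d a b
  ne : ∀ {a b c d}, T a b c d → a ≠ b
  adj : ∀ {a b c d}, T a b c d → G.Adj a c
  nocross : ∀ {a b c d}, T a b c d → ¬ cr a b c d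
  some : ∀ {a b c d}, G.Adj a c → G.Adj b d → a ≠ b → a ≠ d → b ≠ c → c ≠ d → cr a c b d →
    T a b c d ∨ T a d b c
  notboth : ∀ {a b c d}, T a b c d → ¬ T a d b c
  trans : ∀ {u w x y z}, K5F G [u, w, x, y, z] → T u w x y → T u w y z → x ≠ z → T u w x z
  ferrers : ∀ {a b x y x' y'}, K5F G [a, b, x, y, x', y'] → T a x b y → T a x' b y' → T a x b y' ∨ T a x' b y
  k5 : ∀ {a b c d x}, K5 G a b c d x → cr x a c d → cr x b c d → T a b c d → T a b c x

/-- forced to be false -/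
def RF (G : SimpleGraph V) (X R : V → V → V → V → Prop) (p q r s : V) : Prop :=
  ¬ Sq G p q r s ∨ X p q r s ∨ R p r q s ∨ R p s q r

/-- closed relations -/
structure Cl (G : SimpleGraph V) (X R : V → V → V → V → Prop) : Prop where
  sw1 : ∀ {a b c d}, R a b c d → R b a c d
  sw2 : ∀ {a b c d}, R a b c d → R c d a b
  const : ∀ {p q r s}, p ≠ q → r ≠ s → Sq G p q r s → ¬ X p q r s → ¬ G.Adj p q → R p q r s
  bf : ∀ {u w x y z}, K5F G [u, w, x, y, z] → x ≠ z → R u w x y → R u w y z → R u w x z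
  bb : ∀ {u w x y z}, K5F G [u, w, x, y, z] → x ≠ z → R u w x y → RF G X R u w x z → K4 G u w y z →
    ¬ X u w y z → ¬ X u y w z → R u y w z
  df : ∀ {a b x y x2}, K5F G [a, b, x, y, x2] → x2 ≠ y → R a x b y → R a x2 b x → R a x2 b y
  db1 : ∀ {a b x y x2}, K5F G [a, b, x, y, x2] → x2 ≠ y → R a x b y → RF G X R a x2 b y → K4 G a b x x2 →
    ¬ X a x2 b x → ¬ X a b x2 x → R a b x2 x
  db2 : ∀ {a b x y x2}, K5F G [a, b, x, y, x2] → x2 ≠ y → R a x b y → RF G X R a x2 b y → K4 G a b x x2 →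
    ¬ X a x2 b x → ¬ X a x b x2 → R a x b x2
  cf : ∀ {a b x y x2 y2}, K5F G [a, b, x, y, x2, y2] → x ≠ x2 → x ≠ y2 → y ≠ x2 → y ≠ y2 → R a x b y →
    R a x2 b y2 → RF G X R a x b y2 → R a x2 b y
  cb1 : ∀ {a b x y x2 y2}, K5F G [a, b, x, y, x2, y2] → x ≠ x2 → x ≠ y2 → y ≠ x2 → y ≠ y2 → R a x b y →
    RF G X R a x b y2 → RF G X R a x2 b y → K4 G a b x2 y2 → ¬ X a x2 b y2 → ¬ X a b x2 y2 → R a b x2 y2
  cb2 : ∀ {a b x y x2 y2}, K5F G [a, b, x, y, x2, y2] → x ≠ x2 → x ≠ y2 → y ≠ x2 → y ≠ y2 → R a x b y →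
    RF G X R a x b y2 → RF G X R a x2 b y → K4 G a b x2 y2 → ¬ X a x2 b y2 → ¬ X a y2 b x2 → R a y2 b x2
  k5 : ∀ {a b c d x}, K5 G a b c d x → X x a c d → X x b c d → R a b c d → R a b c x

/-- the smallest closed relation -/
def Wc (G : SimpleGraph V) (X : V → V → V → V → Prop) (a b c d : V) : Prop :=
  ∀ R : V → V → V → V → Prop, Cl G X R → R a b c d

/-- symmetric relations -/
def Sym4 (R : V → V → V → V → Prop) : Prop :=
  (∀ a b c d, R a b c d → R b a c d) ∧ (∀ a b c d, R a b c d → R c d a b)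

/-- the standing assumptions: a separation relation, a relation `T` which is a structure, the points `g 0, ..., g 15`
are isolated, `g 14` and `g 15` are the last two points -/
structure Setup (G : SimpleGraph V) (X T : V → V → V → V → Prop) (pos : V → Nat) (g : Nat → V) : Prop where
  sepr : Sepr X
  qf : QF G X T
  pinj : ∀ {a b}, pos a = pos b → a = b
  inj : ∀ {i j}, i < 16 → j < 16 → g i = g j → i = j
  iso : ∀ {i}, i < 16 → ∀ v, ¬ G.Adj (g i) v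
  lt : ∀ {a b}, X (g 14) a (g 15) b ↔ (a ≠ g 14 ∧ a ≠ g 15 ∧ b ≠ g 14 ∧ b ≠ g 15 ∧ pos a < pos b)
  gg : ∀ {a b}, ¬ X (g 14) (g 15) a b

/-! ### basic facts -/

section
variable {G : SimpleGraph V} {X T : V → V → V → V → Prop}

theorem RF.mono {R R' : V → V → V → V → Prop} (h : ∀ {a b c d}, R a b c d → R' a b c d) {p q r s : V}
    (hr : RF G X R p q r s) : RF G X R' p q r s := by
  rcases hr with h1 | h1 | h1 | h1
  · exact Or.inl h1
  · exact Or.inr (Or.inl h1)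
  · exact Or.inr (Or.inr (Or.inl (h h1)))
  · exact Or.inr (Or.inr (Or.inr (h h1)))

theorem Wc.le {R : V → V → V → V → Prop} (h : Cl G X R) {a b c d : V} (hw : Wc G X a b c d) : R a b c d := hw R h

/-- the smallest closed relation is closed -/
theorem Wc.cl : Cl G X (Wc G X) where
  sw1 h R hR := hR.sw1 (h R hR)
  sw2 h R hR := hR.sw2 (h R hR)
  const h1 h2 h3 h4 h5 R hR := hR.const h1 h2 h3 h4 h5
  bf h1 h2 h3 h4 R hR := hR.bf h1 h2 (h3 R hR) (h4 R hR)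
  bb h1 h2 h3 h4 h5 h6 h7 R hR := hR.bb h1 h2 (h3 R hR) (h4.mono (Wc.le hR)) h5 h6 h7
  df h1 h2 h3 h4 R hR := hR.df h1 h2 (h3 R hR) (h4 R hR)
  db1 h1 h2 h3 h4 h5 h6 h7 R hR := hR.db1 h1 h2 (h3 R hR) (h4.mono (Wc.le hR)) h5 h6 h7
  db2 h1 h2 h3 h4 h5 h6 h7 R hR := hR.db2 h1 h2 (h3 R hR) (h4.mono (Wc.le hR)) h5 h6 h7
  cf h1 h2 h3 h4 h5 h6 h7 h8 R hR := hR.cf h1 h2 h3 h4 h5 (h6 R hR) (h7 R hR) (h8.mono (Wc.le hR))
  cb1 h1 h2 h3 h4 h5 h6 h7 h8 h9 h10 h11 R hR :=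
    hR.cb1 h1 h2 h3 h4 h5 (h6 R hR) (h7.mono (Wc.le hR)) (h8.mono (Wc.le hR)) h9 h10 h11
  cb2 h1 h2 h3 h4 h5 h6 h7 h8 h9 h10 h11 R hR :=
    hR.cb2 h1 h2 h3 h4 h5 (h6 R hR) (h7.mono (Wc.le hR)) (h8.mono (Wc.le hR)) h9 h10 h11
  k5 h1 h2 h3 h4 R hR := hR.k5 h1 h2 h3 (h4 R hR)

theorem QF.adj4 (h : QF G X T) {a b c d : V} (ht : T a b c d) : Sq G a b c d :=
  ⟨h.adj ht, h.adj (h.swap₂ (h.swap₁ (h.swap₂ ht))), h.adj (h.swap₁ ht),
    h.adj (h.swap₁ (h.swap₂ (h.swap₁ (h.swap₂ ht))))⟩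

theorem QF.ne' (h : QF G X T) {a b c d : V} (ht : T a b c d) : c ≠ d := h.ne (h.swap₂ ht)

theorem QF.sw3 (h : QF G X T) {a b c d : V} (ht : T a b c d) : T a b d c := h.swap₂ (h.swap₁ (h.swap₂ ht))

/-- forced false means false -/
theorem QF.not (h : QF G X T) {a b c d : V} (hf : RF G X T a b c d) : ¬ T a b c d := by
  intro ht
  rcases hf with h1 | h1 | h1 | h1
  · exact h1 (h.adj4 ht)
  · exact h.nocross ht h1
  · exact h.notboth (h.sw3 ht) h1
  · exact h.notboth ht h1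

end

end Pool.Agent.SOF
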