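import Pool.Agent.SOF.TPd

/-! Project SOF, module Fill: witnesses and fillers. -/

set_option autoImplicit false

namespace Pool.Agent.SOF

open Pool.Agent.SOC Pool.Agent.SOD Pool.Agent.RUP

variable {V : Type} {G : SimpleGraph V} {X W : V → V → V → V → Prop} {pos : V → Nat} {i o : V}

/-- the sorted quadruple of four points is unique -/
theorem srt_uniq (H : WA G X W pos i o) {q0 q1 q2 q3 a b c d : V} (hq : Srt pos q0 q1 q2 q3)
    (ha : a ∈ [q0, q1, q2, q3]) (hb : b ∈ [q0, q1, q2, q3]) (hc : c ∈ [q0, q1, q2, q3]) (hd : d ∈ [q0, q1, q2, q3])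
    (hs : Srt pos a b c d) : a = q0 ∧ b = q1 ∧ c = q2 ∧ d = q3 := by
  have key : ∀ t, t ∈ [q0, q1, q2, q3] → pos t = pos q0 ∨ pos t = pos q1 ∨ pos t = pos q2 ∨ pos t = pos q3 := by
    intro t ht
    simp only [List.mem_cons, List.not_mem_nil, or_false] at ht
    rcases ht with h | h | h | h
    · exact Or.inl (congrArg pos h)
    · exact Or.inr (Or.inl (congrArg pos h))
    · exact Or.inr (Or.inr (Or.inl (congrArg pos h)))
    · exact Or.inr (Or.inr (Or.inr (congrArg pos h)))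
  have ka := key a ha
  have kb := key b hb
  have kc := key c hc
  have kd := key d hd
  obtain ⟨h1, h2, h3⟩ := hq
  obtain ⟨g1, g2, g3⟩ := hs
  have e0 : pos a = pos q0 := by omega
  have e1 : pos b = pos q1 := by omega
  have e2 : pos c = pos q2 := by omega
  have e3 : pos d = pos q3 := by omega
  exact ⟨H.pinj e0, H.pinj e1, H.pinj e2, H.pinj e3⟩

/-- a witness for the sorted quadruple of four points -/
theorem sel_ex (H : WA G X W pos i o) {g0 : V} (gi : g0 ≠ i) (go : g0 ≠ o) {q0 q1 q2 q3 : V} (h01 : q0 ≠ q1)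
    (h02 : q0 ≠ q2) (h03 : q0 ≠ q3) (h12 : q1 ≠ q2) (h13 : q1 ≠ q3) (h23 : q2 ≠ q3) :
    ∃ m, m ≠ i ∧ m ≠ o ∧ ∀ a b c d, a ∈ [q0, q1, q2, q3] → b ∈ [q0, q1, q2, q3] → c ∈ [q0, q1, q2, q3] →
      d ∈ [q0, q1, q2, q3] → Srt pos a b c d → D0 G W pos a b c d →
      Wit G W pos a b c d m ∧ m ∉ [q0, q1, q2, q3] := by
  have perm : ∀ {l l' : List V}, (∀ t, t ∈ l' ↔ t ∈ l) →
      (∃ m, m ≠ i ∧ m ≠ o ∧ ∀ a b c d, a ∈ l → b ∈ l → c ∈ l → d ∈ l → Srt pos a b c d → D0 G W pos a b c d →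
        Wit G W pos a b c d m ∧ m ∉ l) →
      (∃ m, m ≠ i ∧ m ≠ o ∧ ∀ a b c d, a ∈ l' → b ∈ l' → c ∈ l' → d ∈ l' → Srt pos a b c d → D0 G W pos a b c d →
        Wit G W pos a b c d m ∧ m ∉ l') := by
    rintro l l' hl ⟨m, h1, h2, h3⟩
    refine ⟨m, h1, h2, fun a b c d ha hb hc hd hs hD => ?_⟩
    obtain ⟨h4, h5⟩ := h3 a b c d ((hl _).1 ha) ((hl _).1 hb) ((hl _).1 hc) ((hl _).1 hd) hs hD
    exact ⟨h4, fun h6 => h5 ((hl _).1 h6)⟩
  refine sort4 pos (S := fun q0 q1 q2 q3 => ∃ m, m ≠ i ∧ m ≠ o ∧ ∀ a b c d, a ∈ [q0, q1, q2, q3] →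
    b ∈ [q0, q1, q2, q3] → c ∈ [q0, q1, q2, q3] → d ∈ [q0, q1, q2, q3] → Srt pos a b c d → D0 G W pos a b c d →
      Wit G W pos a b c d m ∧ m ∉ [q0, q1, q2, q3]) ?_ ?_ ?_ ?_ (H.pne h01) (H.pne h02) (H.pne h03) (H.pne h12)
      (H.pne h13) (H.pne h23)
  · intro p q r s h
    refine perm (fun t => ?_) h
    simp only [List.mem_cons, List.not_mem_nil, or_false]
    tauto
  · intro p q r s h
    refine perm (fun t => ?_) h
    simp only [List.mem_cons, List.not_mem_nil, or_false]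
    tauto
  · intro p q r s h
    refine perm (fun t => ?_) h
    simp only [List.mem_cons, List.not_mem_nil, or_false]
    tauto
  · intro p q r s hq
    by_cases hd0 : D0 G W pos p q r s
    · obtain ⟨z, hz⟩ := hd0
      refine ⟨z, ?_, ?_, ?_⟩
      · rintro rfl
        exact H.isoi _ hz.2.1
      · rintro rfl
        exact H.isoo _ hz.2.1
      · intro a b c d ha hb hc hd hs _
        obtain ⟨rfl, rfl, rfl, rfl⟩ := srt_uniq H hq ha hb hc hd hs
        refine ⟨hz, fun hm => ?_⟩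
        simp only [List.mem_cons, List.not_mem_nil, or_false] at hm
        have h1 := hz.1
        obtain ⟨g1, g2, g3⟩ := hs
        rcases hm with h | h | h | h <;> rw [h] at h1 <;> omega
    · refine ⟨g0, gi, go, ?_⟩
      intro a b c d ha hb hc hd hs hD
      obtain ⟨rfl, rfl, rfl, rfl⟩ := srt_uniq H hq ha hb hc hd hs
      exact absurd hD hd0

/-- a new point, which is `m` if `m` is new -/
theorem fill {g : Nat → V} (hg : ∀ {i j}, i < 16 → j < 16 → g i = g j → i = j) (l : List V) (hl : l.length ≤ 15)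
    (m : V) : ∃ y, y ∉ l ∧ m ∈ l ++ [y] := by
  classical
  by_cases hm : m ∈ l
  · by_contra hc
    push Not at hc
    have h1 : ∀ j, j < 16 → g j ∈ l := by
      intro j _
      by_contra h2
      exact hc _ h2 (List.mem_append_left _ hm)
    have h2 : ((Finset.range 16).image g) ⊆ l.toFinset := by
      intro x hx
      obtain ⟨j, hj, rfl⟩ := Finset.mem_image.1 hx
      exact List.mem_toFinset.2 (h1 j (Finset.mem_range.1 hj))
    have h3 := Finset.card_le_card h2
    rw [Finset.card_image_of_injOn, Finset.card_range] at h3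
    · have := l.toFinset_card_le
      omega
    · intro a ha b hb hab
      exact hg (by simpa using ha) (by simpa using hb) hab
  · exact ⟨m, hm, by simp⟩

theorem nodup_snoc {l : List V} {y : V} (h : l.Nodup) (hy : y ∉ l) : (l ++ [y]).Nodup :=
  List.nodup_append.2 ⟨h, List.nodup_singleton y, by
    intro a ha b hb
    rw [List.mem_singleton] at hb
    rintro rfl
    exact hy (hb ▸ ha)⟩

end Pool.Agent.SOF
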