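import Pool.Agent.SOF.Fill

/-! Project SOF, module Ghost: sixteen isolated points are added at the end of the order. -/

set_option autoImplicit false

namespace Pool.Agent.SOF

open Pool.Agent.SOC Pool.Agent.SOD Pool.Agent.RUP

variable {V : Type}

/-- the points with sixteen new points -/
inductive GV (V : Type) : Type
  | l (a : V) : GV V
  | r (j : Fin 16) : GV V

theorem GV.l_inj {a b : V} (h : GV.l a = GV.l b) : a = b := GV.l.inj h

theorem GV.r_inj {a b : Fin 16} (h : (GV.r a : GV V) = GV.r b) : a = b := GV.r.inj h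

instance [DecidableEq V] : DecidableEq (GV V)
  | .l a, .l b => if h : a = b then isTrue (congrArg _ h) else isFalse fun e => h (GV.l_inj e)
  | .l _, .r _ => isFalse (by simp)
  | .r _, .l _ => isFalse (by simp)
  | .r a, .r b => if h : a = b then isTrue (congrArg _ h) else isFalse fun e => h (GV.r_inj e)

/-- the graph with sixteen isolated vertices -/
def gG (G : SimpleGraph V) : SimpleGraph (GV V) where
  Adj
    | .l a, .l b => G.Adj a b
    | _, _ => False
  symm := ⟨by
    rintro (a | a) (b | b) h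
    · exact SimpleGraph.Adj.symm h
    · exact h.elim
    · exact h.elim
    · exact h.elim⟩
  loopless := ⟨by
    rintro (a | a) h
    · exact G.loopless.irrefl a h
    · exact h.elim⟩

/-- the structure, extended by `False` -/
def gT (T : V → V → V → V → Prop) : GV V → GV V → GV V → GV V → Prop
  | .l a, .l b, .l c, .l d => T a b c d
  | _, _, _, _ => False

/-- the order with the new points -/
def gS (s : List V) : List (GV V) := s.map GV.l ++ (List.finRange 16).map GV.r

theorem gG_adj {G : SimpleGraph V} {x y : GV V} (h : (gG G).Adj x y) :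
    ∃ a b, x = GV.l a ∧ y = GV.l b ∧ G.Adj a b := by
  rcases x with a | a <;> rcases y with b | b
  · exact ⟨a, b, rfl, rfl, h⟩
  · exact h.elim
  · exact h.elim
  · exact h.elim

theorem gT_iff {T : V → V → V → V → Prop} {x y z w : GV V} (h : gT T x y z w) :
    ∃ a b c d, x = GV.l a ∧ y = GV.l b ∧ z = GV.l c ∧ w = GV.l d ∧ T a b c d := by
  rcases x with a | a <;> rcases y with b | b <;> rcases z with c | c <;> rcases w with d | d <;>
    first
      | exact ⟨a, b, c, d, rfl, rfl, rfl, rfl, h⟩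
      | exact h.elim

theorem gK5F {G : SimpleGraph V} {l : List V} (h : K5F (gG G) (l.map GV.l)) : K5F G l := by
  intro a ha b hb c hc d hd e he hk
  exact h _ (List.mem_map_of_mem ha) _ (List.mem_map_of_mem hb) _ (List.mem_map_of_mem hc) _ (List.mem_map_of_mem hd) _
    (List.mem_map_of_mem he) hk

variable [DecidableEq V]

theorem idx_map : ∀ {s : List V} {t : List (GV V)} {a : V}, a ∈ s →
    (s.map GV.l ++ t).idxOf (GV.l a) = s.idxOf a
  | [], _, _, h => absurd h List.not_mem_nil
  | b :: s, t, a, h => by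
    rw [List.map_cons, List.cons_append]
    by_cases hb : b = a
    · subst hb
      rw [List.idxOf_cons_self, List.idxOf_cons_self]
    · rw [List.idxOf_cons_ne _ (fun h1 => hb (GV.l_inj h1)), List.idxOf_cons_ne _ hb,
        idx_map (by
          rcases List.mem_cons.1 h with h1 | h1
          · exact absurd h1.symm hb
          · exact h1)]

theorem idx_map2 : ∀ {s : List V} {t : List (GV V)} {j : Fin 16},
    (s.map GV.l ++ t).idxOf (GV.r j) = s.length + t.idxOf (GV.r j)
  | [], _, _ => by simp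
  | b :: s, t, j => by
    rw [List.map_cons, List.cons_append, List.idxOf_cons_ne _ (by simp), idx_map2, List.length_cons]
    omega

theorem idx_fin (j : Fin 16) : ((List.finRange 16).map (GV.r : Fin 16 → GV V)).idxOf (GV.r j) = j.val := by
  have h1 : ((List.finRange 16).map (GV.r : Fin 16 → GV V))[j.val]'(by simp) = GV.r j := by
    simp [Fin.ext_iff]
  have h2 : ((List.finRange 16).map (GV.r : Fin 16 → GV V)).Nodup :=
    (List.nodup_finRange 16).map (fun _ _ => GV.r_inj)
  conv_lhs => rw [← h1]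
  exact h2.idxOf_getElem _ _

theorem gS_inl {s : List V} (hs : IsEnum s) (a : V) : (gS s).idxOf (GV.l a) = s.idxOf a := idx_map (hs.2 a)

theorem gS_inr {s : List V} (j : Fin 16) : (gS s).idxOf (GV.r j) = s.length + j.val := by
  unfold gS
  rw [idx_map2, idx_fin]

theorem gS_enum {s : List V} (hs : IsEnum s) : IsEnum (gS s) := by
  refine ⟨?_, ?_⟩
  · unfold gS
    refine List.nodup_append.2 ⟨hs.1.map (fun _ _ => GV.l_inj), (List.nodup_finRange 16).map (fun _ _ => GV.r_inj), ?_⟩
    intro a ha b hb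
    obtain ⟨x, _, rfl⟩ := List.mem_map.1 ha
    obtain ⟨y, _, rfl⟩ := List.mem_map.1 hb
    simp
  · rintro (v | v)
    · exact List.mem_append_left _ (List.mem_map_of_mem (hs.2 v))
    · exact List.mem_append_right _ (List.mem_map_of_mem (List.mem_finRange v))

theorem cross_gS {s : List V} (hs : IsEnum s) (a b c d : V) :
    Cross (gS s) (GV.l a) (GV.l b) (GV.l c) (GV.l d) ↔ Cross s a b c d := by
  unfold Cross SOC.Btw
  rw [gS_inl hs, gS_inl hs, gS_inl hs, gS_inl hs]

/-- the extended structure -/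
theorem gQF {G : SimpleGraph V} {s : List V} (hs : IsEnum s) {T : V → V → V → V → Prop} (h : QF G (Cross s) T) :
    QF (gG G) (CrD (gS s)) (gT T) where
  swap₁ := by
    intro a b c d h1
    obtain ⟨a, b, c, d, rfl, rfl, rfl, rfl, h1⟩ := gT_iff h1
    exact h.swap₁ h1
  swap₂ := by
    intro a b c d h1
    obtain ⟨a, b, c, d, rfl, rfl, rfl, rfl, h1⟩ := gT_iff h1
    exact h.swap₂ h1
  ne := by
    intro a b c d h1
    obtain ⟨a, b, c, d, rfl, rfl, rfl, rfl, h1⟩ := gT_iff h1
    exact fun h2 => h.ne h1 (GV.l_inj h2)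
  adj := by
    intro a b c d h1
    obtain ⟨a, b, c, d, rfl, rfl, rfl, rfl, h1⟩ := gT_iff h1
    exact h.adj h1
  nocross := by
    intro a b c d h1
    obtain ⟨a, b, c, d, rfl, rfl, rfl, rfl, h1⟩ := gT_iff h1
    exact fun h2 => h.nocross h1 ((cross_gS hs _ _ _ _).1 h2.2)
  some := by
    intro a b c d h1 h2 h3 h4 h5 h6 h7
    obtain ⟨a, c, rfl, rfl, h1⟩ := gG_adj h1
    obtain ⟨b, d, rfl, rfl, h2⟩ := gG_adj h2
    exact h.some h1 h2 (fun e => h3 (congrArg _ e)) (fun e => h4 (congrArg _ e)) (fun e => h5 (congrArg _ e))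
      (fun e => h6 (congrArg _ e)) ((cross_gS hs _ _ _ _).1 h7.2)
  notboth := by
    intro a b c d h1
    obtain ⟨a, b, c, d, rfl, rfl, rfl, rfl, h1⟩ := gT_iff h1
    exact h.notboth h1
  trans := by
    intro u w x y z hk h1 h2 h3
    obtain ⟨u, w, x, y, rfl, rfl, rfl, rfl, h1⟩ := gT_iff h1
    obtain ⟨u', w', y', z, e1, e2, e3, rfl, h2⟩ := gT_iff h2
    obtain rfl := GV.l_inj e1
    obtain rfl := GV.l_inj e2
    obtain rfl := GV.l_inj e3
    exact h.trans (gK5F (l := [u, w, x, y, z]) hk) h1 h2 (fun e => h3 (congrArg _ e))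
  ferrers := by
    intro a b x y x' y' hk h1 h2
    obtain ⟨a, x, b, y, rfl, rfl, rfl, rfl, h1⟩ := gT_iff h1
    obtain ⟨a', x', b', y', e1, rfl, e3, rfl, h2⟩ := gT_iff h2
    obtain rfl := GV.l_inj e1
    obtain rfl := GV.l_inj e3
    exact h.ferrers (gK5F (l := [a, b, x, y, x', y']) hk) h1 h2
  k5 := by
    intro a b c d x hk h1 h2 h3
    obtain ⟨a, b, c, d, rfl, rfl, rfl, rfl, h3⟩ := gT_iff h3
    obtain ⟨e1, e2, e3, e4, e5, e6, e7, e8, e9, e10⟩ := hk
    obtain ⟨_, x, _, rfl, _⟩ := gG_adj e4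
    exact h.k5 ⟨e1, e2, e3, e4, e5, e6, e7, e8, e9, e10⟩ ((cross_gS hs _ _ _ _).1 h1.2) ((cross_gS hs _ _ _ _).1 h2.2) h3

/-- the standing assumptions hold -/
theorem gWA {G : SimpleGraph V} {s : List V} (hs : IsEnum s) {T : V → V → V → V → Prop} (h : QF G (Cross s) T) :
    WA (gG G) (CrD (gS s)) (Wc (gG G) (CrD (gS s))) (gS s).idxOf (GV.r 14) (GV.r 15) := by
  have hs' := gS_enum hs
  have hw := wf_of_qf (crD_sepr hs') (gQF hs h)
  have p14 : (gS s).idxOf (GV.r (14 : Fin 16)) = s.length + 14 := gS_inr 14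
  have p15 : (gS s).idxOf (GV.r (15 : Fin 16)) = s.length + 15 := gS_inr 15
  have low : ∀ v : GV V, v ≠ GV.r 14 → v ≠ GV.r 15 → (gS s).idxOf v < s.length + 14 := by
    rintro (v | v) h1 h2
    · rw [gS_inl hs]
      have := List.idxOf_lt_length_iff.2 (hs.2 v)
      omega
    · rw [gS_inr]
      have h3 : v.val ≠ 14 := fun e => h1 (congrArg _ (Fin.ext e))
      have h4 : v.val ≠ 15 := fun e => h2 (congrArg _ (Fin.ext e))
      have := v.2
      omega
  have inj : ∀ {a b : GV V}, (gS s).idxOf a = (gS s).idxOf b → a = b := by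
    intro a b he
    by_contra hn
    exact idx_ne hs' hn he
  refine ⟨hw, fun h1 => inv hw h1, inj, ?_, ?_, ?_, ?_, ?_⟩
  · intro v hv
    obtain ⟨a, b, e, _, _⟩ := gG_adj hv
    exact absurd e (by simp)
  · intro v hv
    obtain ⟨a, b, e, _, _⟩ := gG_adj hv
    exact absurd e (by simp)
  · intro a b
    unfold CrD Cross SOC.Btw
    rw [p14, p15]
    constructor
    · rintro ⟨⟨h1, h2, h3, h4, h5, h6⟩, h7⟩
      have la := low a h1.symm h4
      have lb := low b h3.symm h6.symm
      refine ⟨h1.symm, h4, h3.symm, h6.symm, ?_⟩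
      omega
    · rintro ⟨h1, h2, h3, h4, h5⟩
      have la := low a h1 h2
      have lb := low b h3 h4
      refine ⟨⟨h1.symm, by simp, h3.symm, h2, ?_, h4.symm⟩, ?_⟩
      · rintro rfl
        omega
      · omega
  · rintro a b ⟨⟨h1, h2, h3, h4, h5, h6⟩, h7⟩
    have la := low a h2.symm h4.symm
    have lb := low b h3.symm h5.symm
    unfold Cross SOC.Btw at h7
    rw [p14, p15] at h7
    omega
  · intro a b c d h1 h2 h3
    refine ⟨⟨?_, ?_, ?_, ?_, ?_, ?_⟩, ?_⟩
    · rintro rfl
      omega
    · rintro rfl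
      omega
    · rintro rfl
      omega
    · rintro rfl
      omega
    · rintro rfl
      omega
    · rintro rfl
      omega
    · unfold Cross SOC.Btw
      omega

end Pool.Agent.SOF
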