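import Pool.Agent.SOF.TH

/-! Project SOF, module I2: the invariant of the closure. -/

set_option autoImplicit false

namespace Pool.Agent.SOF

open Pool.Agent.SOC Pool.Agent.SOD Pool.Agent.RUP

variable {V : Type} (G : SimpleGraph V) (X W : V → V → V → V → Prop)

/-- the invariant of the quartet `ab|cd`: every vertex between `b` and `c` which is adjacent to all of `a, b, c, d`
(which are pairwise adjacent) is close to `d` or to `a` -/
def I2 (a b c d : V) : Prop := ∀ t, K5 G a b c d t → X t a b c → X t d b c → W a b t d ∨ W c d a t

/-- the invariant, all variants -/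
def I4 (a b c d : V) : Prop := I2 G X W a b c d ∧ I2 G X W a b d c ∧ I2 G X W b a c d ∧ I2 G X W b a d c

/-- the quartet is true and the invariant holds -/
def Pr (a b c d : V) : Prop := W a b c d ∧ I4 G X W a b c d

/-- the quartet is forced false, and the other pairings satisfy the invariant if they are true -/
def IF (a b c d : V) : Prop := RF G X W a b c d ∧ (W a c b d → ¬ X a b c d → I4 G X W a c b d) ∧
  (W a d b c → ¬ X a b c d → I4 G X W a d b c)

end Pool.Agent.SOF
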