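import Pool.Agent.SOF.I2

/-! Project SOF: refutations (generated). -/

set_option autoImplicit false
set_option maxRecDepth 100000
set_option linter.unusedVariables false

namespace Pool.Agent.SOF

open Pool.Agent.SOC Pool.Agent.SOD Pool.Agent.RUP

/-- templates -/
def bb0_x : List Tm := [
  ⟨0, [], [], [.q true 2 8 9 10 11]⟩,
  ⟨1, [], [(0, 8), (0, 9), (0, 10), (0, 11)], [.b false 0 8 9, .b false 0 8 10, .b false 0 8 11, .b false 0 8 0, .b false 0 9 10, .b false 0 9 11, .b false 0 9 0, .b false 0 10 11, .b false 0 10 0, .b false 0 11 0, .q false 0 0 8 9 10, .q false 0 0 11 9 10, .q true 2 8 9 0 11, .q true 2 10 11 8 0]⟩,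
  ⟨1, [], [(0, 8), (0, 9), (0, 10), (0, 11)], [.b false 0 8 9, .b false 0 8 11, .b false 0 8 10, .b false 0 8 0, .b false 0 9 11, .b false 0 9 10, .b false 0 9 0, .b false 0 11 10, .b false 0 11 0, .b false 0 10 0, .q false 0 0 8 9 11, .q false 0 0 10 9 11, .q true 2 8 9 0 10, .q true 2 11 10 8 0]⟩,
  ⟨1, [], [(0, 8), (0, 9), (0, 10), (0, 11)], [.b false 0 9 8, .b false 0 9 10, .b false 0 9 11, .b false 0 9 0, .b false 0 8 10, .b false 0 8 11, .b false 0 8 0, .b false 0 10 11, .b false 0 10 0, .b false 0 11 0, .q false 0 0 9 8 10, .q false 0 0 11 8 10, .q true 2 9 8 0 11, .q true 2 10 11 9 0]⟩,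
  ⟨1, [], [(0, 8), (0, 9), (0, 10), (0, 11)], [.b false 0 9 8, .b false 0 9 11, .b false 0 9 10, .b false 0 9 0, .b false 0 8 11, .b false 0 8 10, .b false 0 8 0, .b false 0 11 10, .b false 0 11 0, .b false 0 10 0, .q false 0 0 9 8 11, .q false 0 0 10 8 11, .q true 2 9 8 0 10, .q true 2 11 10 9 0]⟩,
  ⟨0, [], [], [.q true 3 8 9 10 12]⟩,
  ⟨1, [], [(0, 8), (0, 10), (0, 9), (0, 12)], [.b false 0 8 10, .b false 0 8 9, .b false 0 8 12, .b false 0 8 0, .b false 0 10 9, .b false 0 10 12, .b false 0 10 0, .b false 0 9 12, .b false 0 9 0, .b false 0 12 0, .q false 0 0 8 10 9, .q false 0 0 12 10 9, .q true 2 8 10 0 12, .q true 2 9 12 8 0, .q false 2 8 10 9 12, .q true 0 8 9 10 12]⟩,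
  ⟨1, [], [(0, 8), (0, 10), (0, 9), (0, 12)], [.b false 0 8 10, .b false 0 8 12, .b false 0 8 9, .b false 0 8 0, .b false 0 10 12, .b false 0 10 9, .b false 0 10 0, .b false 0 12 9, .b false 0 12 0, .b false 0 9 0, .q false 0 0 8 10 12, .q false 0 0 9 10 12, .q true 2 8 10 0 9, .q true 2 12 9 8 0, .q false 2 8 10 9 12, .q true 0 8 9 10 12]⟩,
  ⟨1, [], [(0, 8), (0, 10), (0, 9), (0, 12)], [.b false 0 10 8, .b false 0 10 9, .b false 0 10 12, .b false 0 10 0, .b false 0 8 9, .b false 0 8 12, .b false 0 8 0, .b false 0 9 12, .b false 0 9 0, .b false 0 12 0, .q false 0 0 10 8 9, .q false 0 0 12 8 9, .q true 2 10 8 0 12, .q true 2 9 12 10 0, .q false 2 8 10 9 12, .q true 0 8 9 10 12]⟩,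
  ⟨1, [], [(0, 8), (0, 10), (0, 9), (0, 12)], [.b false 0 10 8, .b false 0 10 12, .b false 0 10 9, .b false 0 10 0, .b false 0 8 12, .b false 0 8 9, .b false 0 8 0, .b false 0 12 9, .b false 0 12 0, .b false 0 9 0, .q false 0 0 10 8 12, .q false 0 0 9 8 12, .q true 2 10 8 0 9, .q true 2 12 9 10 0, .q false 2 8 10 9 12, .q true 0 8 9 10 12]⟩,
  ⟨1, [], [(0, 8), (0, 12), (0, 9), (0, 10)], [.b false 0 8 12, .b false 0 8 9, .b false 0 8 10, .b false 0 8 0, .b false 0 12 9, .b false 0 12 10, .b false 0 12 0, .b false 0 9 10, .b false 0 9 0, .b false 0 10 0, .q false 0 0 8 12 9, .q false 0 0 10 12 9, .q true 2 8 12 0 10, .q true 2 9 10 8 0, .q false 2 8 12 9 10, .q true 0 8 9 10 12]⟩,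
  ⟨1, [], [(0, 8), (0, 12), (0, 9), (0, 10)], [.b false 0 8 12, .b false 0 8 10, .b false 0 8 9, .b false 0 8 0, .b false 0 12 10, .b false 0 12 9, .b false 0 12 0, .b false 0 10 9, .b false 0 10 0, .b false 0 9 0, .q false 0 0 8 12 10, .q false 0 0 9 12 10, .q true 2 8 12 0 9, .q true 2 10 9 8 0, .q false 2 8 12 9 10, .q true 0 8 9 10 12]⟩,
  ⟨1, [], [(0, 8), (0, 12), (0, 9), (0, 10)], [.b false 0 12 8, .b false 0 12 9, .b false 0 12 10, .b false 0 12 0, .b false 0 8 9, .b false 0 8 10, .b false 0 8 0, .b false 0 9 10, .b false 0 9 0, .b false 0 10 0, .q false 0 0 12 8 9, .q false 0 0 10 8 9, .q true 2 12 8 0 10, .q true 2 9 10 12 0, .q false 2 8 12 9 10, .q true 0 8 9 10 12]⟩,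
  ⟨1, [], [(0, 8), (0, 12), (0, 9), (0, 10)], [.b false 0 12 8, .b false 0 12 10, .b false 0 12 9, .b false 0 12 0, .b false 0 8 10, .b false 0 8 9, .b false 0 8 0, .b false 0 10 9, .b false 0 10 0, .b false 0 9 0, .q false 0 0 12 8 10, .q false 0 0 9 8 10, .q true 2 12 8 0 9, .q true 2 10 9 12 0, .q false 2 8 12 9 10, .q true 0 8 9 10 12]⟩,
  ⟨0, [], [], [.q false 0 8 9 11 12]⟩,
  ⟨0, [], [], [.b false 0 8 9, .b false 0 8 10, .b false 0 8 11, .b false 0 8 12, .b false 0 9 10, .b false 0 9 11, .b false 0 9 12, .b false 0 10 11, .b false 0 10 12, .b false 0 11 12]⟩,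
  ⟨0, [], [], [.b true 0 8 11]⟩,
  ⟨0, [], [], [.b true 0 8 9]⟩,
  ⟨0, [], [], [.b true 0 8 12]⟩,
  ⟨0, [], [], [.b true 0 8 13]⟩,
  ⟨0, [], [], [.b true 0 11 9]⟩,
  ⟨0, [], [], [.b true 0 11 12]⟩,
  ⟨0, [], [], [.b true 0 11 13]⟩,
  ⟨0, [], [], [.b true 0 9 12]⟩,
  ⟨0, [], [], [.b true 0 9 13]⟩,
  ⟨0, [], [], [.b true 0 12 13]⟩,
  ⟨0, [], [], [.q true 2 8 11 9 12]⟩,
  ⟨0, [], [], [.q true 0 13 8 11 9]⟩,
  ⟨0, [], [], [.q true 0 13 12 11 9]⟩,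
  ⟨0, [], [], [.q false 2 8 11 13 12]⟩,
  ⟨0, [], [], [.q false 2 9 12 8 13]⟩]

def bb0_p0 : List Nat := [
0x82600b0000000b50556000201,
0x86200100000009d0000000020145000301,
0xa8062050000000040000000b7074a000301,
0xb9000000006000200]

def bb0_pf : List Nat := bb0_p0

theorem bb0_ref {V : Type} {S : SRel V} {p : Nat → V} (hp : ∀ i j, i < 6 → j < 6 → p i = p j → i = j)
    (hts : PHs S p 6 ((tO ++ (tB ++ (tR ++ (tF ++ tK)))) ++ bb0_x)) : False :=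
  refuteS (k := 6) (n2 := 1) (n3 := 1) (n4 := 4) (o3 := 21) (o4 := 77) (M := 1001) ((tO ++ (tB ++ (tR ++ (tF ++ tK)))) ++ bb0_x) bb0_pf (by decide +kernel)
    (by decide +kernel) (by decide +kernel) (by decide +kernel) hp hts

theorem bb0 {V : Type} {G : SimpleGraph V} {X W : V → V → V → V → Prop} (h : WF G X W) {u w x y z t : V}
    (nd : [u, w, x, y, z, t].Nodup) (a1 : Pr G X W u w x y) (a2 : IF G X W u w x z) (nx : ¬ X u w y z) (hk : K5F G [u, w, x, y, z])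
    (e : K5 G u y w z t) (hw : W u y w z) (g1 : X t u y w) (g2 : X t z y w)
    (m1 : ¬ W u y t z) (m2 : ¬ W w z u t) : False :=
  bb0_ref (S := (syW h).rel) (pt_inj (o := u) nd rfl) (PHs.app (UHs.phs ((tO_h h).app ((tB_h h).app ((tR_h h).app ((tF_h h).app (tK_h h))))) _ _) (
  .cons (fun d hd h0 => h0 a1.1) (
  .cons (fun d hd m0 m1 m2 m3 h0 h1 h2 h3 h4 h5 h6 h7 h8 h9 h10 h11 h12 h13 => ((a1.2).1 (d 0) ⟨h0, h1, h2, h3, h4, h5, h6, h7, h8, h9⟩ h10 h11).elim h12 h13) (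
  .cons (fun d hd m0 m1 m2 m3 h0 h1 h2 h3 h4 h5 h6 h7 h8 h9 h10 h11 h12 h13 => ((a1.2).2.1 (d 0) ⟨h0, h1, h2, h3, h4, h5, h6, h7, h8, h9⟩ h10 h11).elim h12 h13) (
  .cons (fun d hd m0 m1 m2 m3 h0 h1 h2 h3 h4 h5 h6 h7 h8 h9 h10 h11 h12 h13 => ((a1.2).2.2.1 (d 0) ⟨h0, h1, h2, h3, h4, h5, h6, h7, h8, h9⟩ h10 h11).elim h12 h13) (
  .cons (fun d hd m0 m1 m2 m3 h0 h1 h2 h3 h4 h5 h6 h7 h8 h9 h10 h11 h12 h13 => ((a1.2).2.2.2 (d 0) ⟨h0, h1, h2, h3, h4, h5, h6, h7, h8, h9⟩ h10 h11).elim h12 h13) (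
  .cons (fun d hd h0 => h0 a2.1) (
  .cons (fun d hd m0 m1 m2 m3 h0 h1 h2 h3 h4 h5 h6 h7 h8 h9 h10 h11 h12 h13 h14 h15 => ((a2.2.1 h14 h15).1 (d 0) ⟨h0, h1, h2, h3, h4, h5, h6, h7, h8, h9⟩ h10 h11).elim h12 h13) (
  .cons (fun d hd m0 m1 m2 m3 h0 h1 h2 h3 h4 h5 h6 h7 h8 h9 h10 h11 h12 h13 h14 h15 => ((a2.2.1 h14 h15).2.1 (d 0) ⟨h0, h1, h2, h3, h4, h5, h6, h7, h8, h9⟩ h10 h11).elim h12 h13) (
  .cons (fun d hd m0 m1 m2 m3 h0 h1 h2 h3 h4 h5 h6 h7 h8 h9 h10 h11 h12 h13 h14 h15 => ((a2.2.1 h14 h15).2.2.1 (d 0) ⟨h0, h1, h2, h3, h4, h5, h6, h7, h8, h9⟩ h10 h11).elim h12 h13) (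
  .cons (fun d hd m0 m1 m2 m3 h0 h1 h2 h3 h4 h5 h6 h7 h8 h9 h10 h11 h12 h13 h14 h15 => ((a2.2.1 h14 h15).2.2.2 (d 0) ⟨h0, h1, h2, h3, h4, h5, h6, h7, h8, h9⟩ h10 h11).elim h12 h13) (
  .cons (fun d hd m0 m1 m2 m3 h0 h1 h2 h3 h4 h5 h6 h7 h8 h9 h10 h11 h12 h13 h14 h15 => ((a2.2.2 h14 h15).1 (d 0) ⟨h0, h1, h2, h3, h4, h5, h6, h7, h8, h9⟩ h10 h11).elim h12 h13) (
  .cons (fun d hd m0 m1 m2 m3 h0 h1 h2 h3 h4 h5 h6 h7 h8 h9 h10 h11 h12 h13 h14 h15 => ((a2.2.2 h14 h15).2.1 (d 0) ⟨h0, h1, h2, h3, h4, h5, h6, h7, h8, h9⟩ h10 h11).elim h12 h13) (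
  .cons (fun d hd m0 m1 m2 m3 h0 h1 h2 h3 h4 h5 h6 h7 h8 h9 h10 h11 h12 h13 h14 h15 => ((a2.2.2 h14 h15).2.2.1 (d 0) ⟨h0, h1, h2, h3, h4, h5, h6, h7, h8, h9⟩ h10 h11).elim h12 h13) (
  .cons (fun d hd m0 m1 m2 m3 h0 h1 h2 h3 h4 h5 h6 h7 h8 h9 h10 h11 h12 h13 h14 h15 => ((a2.2.2 h14 h15).2.2.2 (d 0) ⟨h0, h1, h2, h3, h4, h5, h6, h7, h8, h9⟩ h10 h11).elim h12 h13) (
  .cons (fun d hd h0 => nx h0) (
  .cons (fun d hd h0 h1 h2 h3 h4 h5 h6 h7 h8 h9 => hk u (by simp) w (by simp) x (by simp) y (by simp) z (by simp) ⟨h0, h1, h2, h3, h4, h5, h6, h7, h8, h9⟩) (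
  .cons (fun d hd h0 => h0 e.1) (
  .cons (fun d hd h0 => h0 e.2.1) (
  .cons (fun d hd h0 => h0 e.2.2.1) (
  .cons (fun d hd h0 => h0 e.2.2.2.1) (
  .cons (fun d hd h0 => h0 e.2.2.2.2.1) (
  .cons (fun d hd h0 => h0 e.2.2.2.2.2.1) (
  .cons (fun d hd h0 => h0 e.2.2.2.2.2.2.1) (
  .cons (fun d hd h0 => h0 e.2.2.2.2.2.2.2.1) (
  .cons (fun d hd h0 => h0 e.2.2.2.2.2.2.2.2.1) (
  .cons (fun d hd h0 => h0 e.2.2.2.2.2.2.2.2.2) (
  .cons (fun d hd h0 => h0 hw) (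
  .cons (fun d hd h0 => h0 g1) (
  .cons (fun d hd h0 => h0 g2) (
  .cons (fun d hd h0 => m1 h0) (
  .cons (fun d hd h0 => m2 h0) (
  .nil)))))))))))))))))))))))))))))))))

/-- templates -/
def bb1_x : List Tm := [
  ⟨0, [], [], [.q true 2 8 9 10 11]⟩,
  ⟨1, [], [(0, 8), (0, 9), (0, 10), (0, 11)], [.b false 0 8 9, .b false 0 8 10, .b false 0 8 11, .b false 0 8 0, .b false 0 9 10, .b false 0 9 11, .b false 0 9 0, .b false 0 10 11, .b false 0 10 0, .b false 0 11 0, .q false 0 0 8 9 10, .q false 0 0 11 9 10, .q true 2 8 9 0 11, .q true 2 10 11 8 0]⟩,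
  ⟨1, [], [(0, 8), (0, 9), (0, 10), (0, 11)], [.b false 0 8 9, .b false 0 8 11, .b false 0 8 10, .b false 0 8 0, .b false 0 9 11, .b false 0 9 10, .b false 0 9 0, .b false 0 11 10, .b false 0 11 0, .b false 0 10 0, .q false 0 0 8 9 11, .q false 0 0 10 9 11, .q true 2 8 9 0 10, .q true 2 11 10 8 0]⟩,
  ⟨1, [], [(0, 8), (0, 9), (0, 10), (0, 11)], [.b false 0 9 8, .b false 0 9 10, .b false 0 9 11, .b false 0 9 0, .b false 0 8 10, .b false 0 8 11, .b false 0 8 0, .b false 0 10 11, .b false 0 10 0, .b false 0 11 0, .q false 0 0 9 8 10, .q false 0 0 11 8 10, .q true 2 9 8 0 11, .q true 2 10 11 9 0]⟩,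
  ⟨1, [], [(0, 8), (0, 9), (0, 10), (0, 11)], [.b false 0 9 8, .b false 0 9 11, .b false 0 9 10, .b false 0 9 0, .b false 0 8 11, .b false 0 8 10, .b false 0 8 0, .b false 0 11 10, .b false 0 11 0, .b false 0 10 0, .q false 0 0 9 8 11, .q false 0 0 10 8 11, .q true 2 9 8 0 10, .q true 2 11 10 9 0]⟩,
  ⟨0, [], [], [.q true 3 8 9 10 12]⟩,
  ⟨1, [], [(0, 8), (0, 10), (0, 9), (0, 12)], [.b false 0 8 10, .b false 0 8 9, .b false 0 8 12, .b false 0 8 0, .b false 0 10 9, .b false 0 10 12, .b false 0 10 0, .b false 0 9 12, .b false 0 9 0, .b false 0 12 0, .q false 0 0 8 10 9, .q false 0 0 12 10 9, .q true 2 8 10 0 12, .q true 2 9 12 8 0, .q false 2 8 10 9 12, .q true 0 8 9 10 12]⟩,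
  ⟨1, [], [(0, 8), (0, 10), (0, 9), (0, 12)], [.b false 0 8 10, .b false 0 8 12, .b false 0 8 9, .b false 0 8 0, .b false 0 10 12, .b false 0 10 9, .b false 0 10 0, .b false 0 12 9, .b false 0 12 0, .b false 0 9 0, .q false 0 0 8 10 12, .q false 0 0 9 10 12, .q true 2 8 10 0 9, .q true 2 12 9 8 0, .q false 2 8 10 9 12, .q true 0 8 9 10 12]⟩,
  ⟨1, [], [(0, 8), (0, 10), (0, 9), (0, 12)], [.b false 0 10 8, .b false 0 10 9, .b false 0 10 12, .b false 0 10 0, .b false 0 8 9, .b false 0 8 12, .b false 0 8 0, .b false 0 9 12, .b false 0 9 0, .b false 0 12 0, .q false 0 0 10 8 9, .q false 0 0 12 8 9, .q true 2 10 8 0 12, .q true 2 9 12 10 0, .q false 2 8 10 9 12, .q true 0 8 9 10 12]⟩,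
  ⟨1, [], [(0, 8), (0, 10), (0, 9), (0, 12)], [.b false 0 10 8, .b false 0 10 12, .b false 0 10 9, .b false 0 10 0, .b false 0 8 12, .b false 0 8 9, .b false 0 8 0, .b false 0 12 9, .b false 0 12 0, .b false 0 9 0, .q false 0 0 10 8 12, .q false 0 0 9 8 12, .q true 2 10 8 0 9, .q true 2 12 9 10 0, .q false 2 8 10 9 12, .q true 0 8 9 10 12]⟩,
  ⟨1, [], [(0, 8), (0, 12), (0, 9), (0, 10)], [.b false 0 8 12, .b false 0 8 9, .b false 0 8 10, .b false 0 8 0, .b false 0 12 9, .b false 0 12 10, .b false 0 12 0, .b false 0 9 10, .b false 0 9 0, .b false 0 10 0, .q false 0 0 8 12 9, .q false 0 0 10 12 9, .q true 2 8 12 0 10, .q true 2 9 10 8 0, .q false 2 8 12 9 10, .q true 0 8 9 10 12]⟩,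
  ⟨1, [], [(0, 8), (0, 12), (0, 9), (0, 10)], [.b false 0 8 12, .b false 0 8 10, .b false 0 8 9, .b false 0 8 0, .b false 0 12 10, .b false 0 12 9, .b false 0 12 0, .b false 0 10 9, .b false 0 10 0, .b false 0 9 0, .q false 0 0 8 12 10, .q false 0 0 9 12 10, .q true 2 8 12 0 9, .q true 2 10 9 8 0, .q false 2 8 12 9 10, .q true 0 8 9 10 12]⟩,
  ⟨1, [], [(0, 8), (0, 12), (0, 9), (0, 10)], [.b false 0 12 8, .b false 0 12 9, .b false 0 12 10, .b false 0 12 0, .b false 0 8 9, .b false 0 8 10, .b false 0 8 0, .b false 0 9 10, .b false 0 9 0, .b false 0 10 0, .q false 0 0 12 8 9, .q false 0 0 10 8 9, .q true 2 12 8 0 10, .q true 2 9 10 12 0, .q false 2 8 12 9 10, .q true 0 8 9 10 12]⟩,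
  ⟨1, [], [(0, 8), (0, 12), (0, 9), (0, 10)], [.b false 0 12 8, .b false 0 12 10, .b false 0 12 9, .b false 0 12 0, .b false 0 8 10, .b false 0 8 9, .b false 0 8 0, .b false 0 10 9, .b false 0 10 0, .b false 0 9 0, .q false 0 0 12 8 10, .q false 0 0 9 8 10, .q true 2 12 8 0 9, .q true 2 10 9 12 0, .q false 2 8 12 9 10, .q true 0 8 9 10 12]⟩,
  ⟨0, [], [], [.q false 0 8 9 11 12]⟩,
  ⟨0, [], [], [.b false 0 8 9, .b false 0 8 10, .b false 0 8 11, .b false 0 8 12, .b false 0 9 10, .b false 0 9 11, .b false 0 9 12, .b false 0 10 11, .b false 0 10 12, .b false 0 11 12]⟩,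
  ⟨0, [], [], [.b true 0 8 11]⟩,
  ⟨0, [], [], [.b true 0 8 9]⟩,
  ⟨0, [], [], [.b true 0 8 12]⟩,
  ⟨0, [], [], [.b true 0 8 13]⟩,
  ⟨0, [], [], [.b true 0 11 9]⟩,
  ⟨0, [], [], [.b true 0 11 12]⟩,
  ⟨0, [], [], [.b true 0 11 13]⟩,
  ⟨0, [], [], [.b true 0 9 12]⟩,
  ⟨0, [], [], [.b true 0 9 13]⟩,
  ⟨0, [], [], [.b true 0 12 13]⟩,
  ⟨0, [], [], [.q true 2 8 11 9 12]⟩,
  ⟨0, [], [], [.q true 0 13 8 11 12]⟩,
  ⟨0, [], [], [.q true 0 13 9 11 12]⟩,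
  ⟨0, [], [], [.q false 2 8 11 13 9]⟩,
  ⟨0, [], [], [.q false 2 12 9 8 13]⟩]

def bb1_p0 : List Nat := [
0x6420090000000810003000201,
0x4620090000000810006000201,
0x6402090000000810004000201,
0x4602090000000810007000201,
0x64200b00000008104ca000201,
0x42601500000008100b4000201,
0x42601900000000c049c000201,
0x84201900000008b0574000201,
0xa8f000000002000000006027b025b018903ea03f303f403f503f803f903fa03fc054c0646068600030e,
0x684200700000000a00000009d0572000301,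
0x9f00000000200000000600000000400000000803ea03f103f303f403f503f6000506,
0x20840d0000000100000000140000000a50000000020000000060000000af000c000701,
0x160000000a30000000af0000000a50000000ab00000001803f1000601,
0xa6240900000001a06f4000201,
0xa6840900000001a0714000201,
0x26a40900000001a06b8000201,
0x86a40900000001a06d0000201,
0xa6041100000001a0308000201,
0x82600b0000000b50556000201,
0x480263300000001a0000000810000000b50177000401,
0x648203b00000000e00000001a0000000b50524000401,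
0x86200100000009d0000000260145000301,
0x64820b000000028055e000201,
0x820642300000001a000000081000000028014b000401,
0x6482270000000b500000001a0000000280163000401,
0x4820170000000140000000180000000af0000000a30000000020000000060000000a500000008b00000002a0139000a01,
0x642800500000003400000002c0532000301,
0x8a60030000000b70746000201,
0x6a80030000000b7070a000201,
0x2a0860700000009d0000000b702a1000301,
0x8a26007000000026000000038066e000301,
0xa62800700000002c00000003a0295000301,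
0x6a820300000003c070e000201,
0xa820030000000400732000201,
0xa2800b0000000400680000201,
0x820a60700000003a00000004206e6000301,
0xa6201700000004800000003e0000000b10000000a30000000040000000080000000a70000000ad0000000bb06e9000a01,
0x6420a3d00000002400000001a00000004a0664000401,
0xa8200f0000000440000000460000000b10000000a50000000af0000000a70000000bd0735000801,
0xa40827f00064a20700064a80700064a20f000a8640f00a42083d00a60483900a2864250000000320000000b30000000b10000000a70000000180000000af0000000a50000000060000000020000000a30000000bd00000003e0000000380000000ad00000000800000002000000001c0000000ab00000002200000001e00000004e00000001a0000000300000000280751002001,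
0x8a64110000000500011000201,
0xa86413000000050074e000201,
0x8a2640700000002e0000000540676000301,
0x8a064070000000360000000540636000301,
0x486a20700000003c000000056029d000301,
0x486a0070000000b7000000058025d000301,
0x1200000004c0000000bd0000000140000000a30000000a50000000af0000000180000000a70000000b10000000520000000b300000003200000005c00000005a000f00]

def bb1_pf : List Nat := bb1_p0

theorem bb1_ref {V : Type} {S : SRel V} {p : Nat → V} (hp : ∀ i j, i < 6 → j < 6 → p i = p j → i = j)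
    (hts : PHs S p 6 ((tO ++ (tB ++ (tR ++ (tF ++ tK)))) ++ bb1_x)) : False :=
  refuteS (k := 6) (n2 := 1) (n3 := 1) (n4 := 4) (o3 := 21) (o4 := 77) (M := 1001) ((tO ++ (tB ++ (tR ++ (tF ++ tK)))) ++ bb1_x) bb1_pf (by decide +kernel)
    (by decide +kernel) (by decide +kernel) (by decide +kernel) hp hts

theorem bb1 {V : Type} {G : SimpleGraph V} {X W : V → V → V → V → Prop} (h : WF G X W) {u w x y z t : V}
    (nd : [u, w, x, y, z, t].Nodup) (a1 : Pr G X W u w x y) (a2 : IF G X W u w x z) (nx : ¬ X u w y z) (hk : K5F G [u, w, x, y, z])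
    (e : K5 G u y w z t) (hw : W u y w z) (g1 : X t u y z) (g2 : X t w y z)
    (m1 : ¬ W u y t w) (m2 : ¬ W z w u t) : False :=
  bb1_ref (S := (syW h).rel) (pt_inj (o := u) nd rfl) (PHs.app (UHs.phs ((tO_h h).app ((tB_h h).app ((tR_h h).app ((tF_h h).app (tK_h h))))) _ _) (
  .cons (fun d hd h0 => h0 a1.1) (
  .cons (fun d hd m0 m1 m2 m3 h0 h1 h2 h3 h4 h5 h6 h7 h8 h9 h10 h11 h12 h13 => ((a1.2).1 (d 0) ⟨h0, h1, h2, h3, h4, h5, h6, h7, h8, h9⟩ h10 h11).elim h12 h13) (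
  .cons (fun d hd m0 m1 m2 m3 h0 h1 h2 h3 h4 h5 h6 h7 h8 h9 h10 h11 h12 h13 => ((a1.2).2.1 (d 0) ⟨h0, h1, h2, h3, h4, h5, h6, h7, h8, h9⟩ h10 h11).elim h12 h13) (
  .cons (fun d hd m0 m1 m2 m3 h0 h1 h2 h3 h4 h5 h6 h7 h8 h9 h10 h11 h12 h13 => ((a1.2).2.2.1 (d 0) ⟨h0, h1, h2, h3, h4, h5, h6, h7, h8, h9⟩ h10 h11).elim h12 h13) (
  .cons (fun d hd m0 m1 m2 m3 h0 h1 h2 h3 h4 h5 h6 h7 h8 h9 h10 h11 h12 h13 => ((a1.2).2.2.2 (d 0) ⟨h0, h1, h2, h3, h4, h5, h6, h7, h8, h9⟩ h10 h11).elim h12 h13) (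
  .cons (fun d hd h0 => h0 a2.1) (
  .cons (fun d hd m0 m1 m2 m3 h0 h1 h2 h3 h4 h5 h6 h7 h8 h9 h10 h11 h12 h13 h14 h15 => ((a2.2.1 h14 h15).1 (d 0) ⟨h0, h1, h2, h3, h4, h5, h6, h7, h8, h9⟩ h10 h11).elim h12 h13) (
  .cons (fun d hd m0 m1 m2 m3 h0 h1 h2 h3 h4 h5 h6 h7 h8 h9 h10 h11 h12 h13 h14 h15 => ((a2.2.1 h14 h15).2.1 (d 0) ⟨h0, h1, h2, h3, h4, h5, h6, h7, h8, h9⟩ h10 h11).elim h12 h13) (
  .cons (fun d hd m0 m1 m2 m3 h0 h1 h2 h3 h4 h5 h6 h7 h8 h9 h10 h11 h12 h13 h14 h15 => ((a2.2.1 h14 h15).2.2.1 (d 0) ⟨h0, h1, h2, h3, h4, h5, h6, h7, h8, h9⟩ h10 h11).elim h12 h13) (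
  .cons (fun d hd m0 m1 m2 m3 h0 h1 h2 h3 h4 h5 h6 h7 h8 h9 h10 h11 h12 h13 h14 h15 => ((a2.2.1 h14 h15).2.2.2 (d 0) ⟨h0, h1, h2, h3, h4, h5, h6, h7, h8, h9⟩ h10 h11).elim h12 h13) (
  .cons (fun d hd m0 m1 m2 m3 h0 h1 h2 h3 h4 h5 h6 h7 h8 h9 h10 h11 h12 h13 h14 h15 => ((a2.2.2 h14 h15).1 (d 0) ⟨h0, h1, h2, h3, h4, h5, h6, h7, h8, h9⟩ h10 h11).elim h12 h13) (
  .cons (fun d hd m0 m1 m2 m3 h0 h1 h2 h3 h4 h5 h6 h7 h8 h9 h10 h11 h12 h13 h14 h15 => ((a2.2.2 h14 h15).2.1 (d 0) ⟨h0, h1, h2, h3, h4, h5, h6, h7, h8, h9⟩ h10 h11).elim h12 h13) (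
  .cons (fun d hd m0 m1 m2 m3 h0 h1 h2 h3 h4 h5 h6 h7 h8 h9 h10 h11 h12 h13 h14 h15 => ((a2.2.2 h14 h15).2.2.1 (d 0) ⟨h0, h1, h2, h3, h4, h5, h6, h7, h8, h9⟩ h10 h11).elim h12 h13) (
  .cons (fun d hd m0 m1 m2 m3 h0 h1 h2 h3 h4 h5 h6 h7 h8 h9 h10 h11 h12 h13 h14 h15 => ((a2.2.2 h14 h15).2.2.2 (d 0) ⟨h0, h1, h2, h3, h4, h5, h6, h7, h8, h9⟩ h10 h11).elim h12 h13) (
  .cons (fun d hd h0 => nx h0) (
  .cons (fun d hd h0 h1 h2 h3 h4 h5 h6 h7 h8 h9 => hk u (by simp) w (by simp) x (by simp) y (by simp) z (by simp) ⟨h0, h1, h2, h3, h4, h5, h6, h7, h8, h9⟩) (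
  .cons (fun d hd h0 => h0 e.1) (
  .cons (fun d hd h0 => h0 e.2.1) (
  .cons (fun d hd h0 => h0 e.2.2.1) (
  .cons (fun d hd h0 => h0 e.2.2.2.1) (
  .cons (fun d hd h0 => h0 e.2.2.2.2.1) (
  .cons (fun d hd h0 => h0 e.2.2.2.2.2.1) (
  .cons (fun d hd h0 => h0 e.2.2.2.2.2.2.1) (
  .cons (fun d hd h0 => h0 e.2.2.2.2.2.2.2.1) (
  .cons (fun d hd h0 => h0 e.2.2.2.2.2.2.2.2.1) (
  .cons (fun d hd h0 => h0 e.2.2.2.2.2.2.2.2.2) (
  .cons (fun d hd h0 => h0 hw) (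
  .cons (fun d hd h0 => h0 g1) (
  .cons (fun d hd h0 => h0 g2) (
  .cons (fun d hd h0 => m1 h0) (
  .cons (fun d hd h0 => m2 h0) (
  .nil)))))))))))))))))))))))))))))))))

/-- templates -/
def bb2_x : List Tm := [
  ⟨0, [], [], [.q true 2 8 9 10 11]⟩,
  ⟨1, [], [(0, 8), (0, 9), (0, 10), (0, 11)], [.b false 0 8 9, .b false 0 8 10, .b false 0 8 11, .b false 0 8 0, .b false 0 9 10, .b false 0 9 11, .b false 0 9 0, .b false 0 10 11, .b false 0 10 0, .b false 0 11 0, .q false 0 0 8 9 10, .q false 0 0 11 9 10, .q true 2 8 9 0 11, .q true 2 10 11 8 0]⟩,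
  ⟨1, [], [(0, 8), (0, 9), (0, 10), (0, 11)], [.b false 0 8 9, .b false 0 8 11, .b false 0 8 10, .b false 0 8 0, .b false 0 9 11, .b false 0 9 10, .b false 0 9 0, .b false 0 11 10, .b false 0 11 0, .b false 0 10 0, .q false 0 0 8 9 11, .q false 0 0 10 9 11, .q true 2 8 9 0 10, .q true 2 11 10 8 0]⟩,
  ⟨1, [], [(0, 8), (0, 9), (0, 10), (0, 11)], [.b false 0 9 8, .b false 0 9 10, .b false 0 9 11, .b false 0 9 0, .b false 0 8 10, .b false 0 8 11, .b false 0 8 0, .b false 0 10 11, .b false 0 10 0, .b false 0 11 0, .q false 0 0 9 8 10, .q false 0 0 11 8 10, .q true 2 9 8 0 11, .q true 2 10 11 9 0]⟩,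
  ⟨1, [], [(0, 8), (0, 9), (0, 10), (0, 11)], [.b false 0 9 8, .b false 0 9 11, .b false 0 9 10, .b false 0 9 0, .b false 0 8 11, .b false 0 8 10, .b false 0 8 0, .b false 0 11 10, .b false 0 11 0, .b false 0 10 0, .q false 0 0 9 8 11, .q false 0 0 10 8 11, .q true 2 9 8 0 10, .q true 2 11 10 9 0]⟩,
  ⟨0, [], [], [.q true 3 8 9 10 12]⟩,
  ⟨1, [], [(0, 8), (0, 10), (0, 9), (0, 12)], [.b false 0 8 10, .b false 0 8 9, .b false 0 8 12, .b false 0 8 0, .b false 0 10 9, .b false 0 10 12, .b false 0 10 0, .b false 0 9 12, .b false 0 9 0, .b false 0 12 0, .q false 0 0 8 10 9, .q false 0 0 12 10 9, .q true 2 8 10 0 12, .q true 2 9 12 8 0, .q false 2 8 10 9 12, .q true 0 8 9 10 12]⟩,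
  ⟨1, [], [(0, 8), (0, 10), (0, 9), (0, 12)], [.b false 0 8 10, .b false 0 8 12, .b false 0 8 9, .b false 0 8 0, .b false 0 10 12, .b false 0 10 9, .b false 0 10 0, .b false 0 12 9, .b false 0 12 0, .b false 0 9 0, .q false 0 0 8 10 12, .q false 0 0 9 10 12, .q true 2 8 10 0 9, .q true 2 12 9 8 0, .q false 2 8 10 9 12, .q true 0 8 9 10 12]⟩,
  ⟨1, [], [(0, 8), (0, 10), (0, 9), (0, 12)], [.b false 0 10 8, .b false 0 10 9, .b false 0 10 12, .b false 0 10 0, .b false 0 8 9, .b false 0 8 12, .b false 0 8 0, .b false 0 9 12, .b false 0 9 0, .b false 0 12 0, .q false 0 0 10 8 9, .q false 0 0 12 8 9, .q true 2 10 8 0 12, .q true 2 9 12 10 0, .q false 2 8 10 9 12, .q true 0 8 9 10 12]⟩,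
  ⟨1, [], [(0, 8), (0, 10), (0, 9), (0, 12)], [.b false 0 10 8, .b false 0 10 12, .b false 0 10 9, .b false 0 10 0, .b false 0 8 12, .b false 0 8 9, .b false 0 8 0, .b false 0 12 9, .b false 0 12 0, .b false 0 9 0, .q false 0 0 10 8 12, .q false 0 0 9 8 12, .q true 2 10 8 0 9, .q true 2 12 9 10 0, .q false 2 8 10 9 12, .q true 0 8 9 10 12]⟩,
  ⟨1, [], [(0, 8), (0, 12), (0, 9), (0, 10)], [.b false 0 8 12, .b false 0 8 9, .b false 0 8 10, .b false 0 8 0, .b false 0 12 9, .b false 0 12 10, .b false 0 12 0, .b false 0 9 10, .b false 0 9 0, .b false 0 10 0, .q false 0 0 8 12 9, .q false 0 0 10 12 9, .q true 2 8 12 0 10, .q true 2 9 10 8 0, .q false 2 8 12 9 10, .q true 0 8 9 10 12]⟩,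
  ⟨1, [], [(0, 8), (0, 12), (0, 9), (0, 10)], [.b false 0 8 12, .b false 0 8 10, .b false 0 8 9, .b false 0 8 0, .b false 0 12 10, .b false 0 12 9, .b false 0 12 0, .b false 0 10 9, .b false 0 10 0, .b false 0 9 0, .q false 0 0 8 12 10, .q false 0 0 9 12 10, .q true 2 8 12 0 9, .q true 2 10 9 8 0, .q false 2 8 12 9 10, .q true 0 8 9 10 12]⟩,
  ⟨1, [], [(0, 8), (0, 12), (0, 9), (0, 10)], [.b false 0 12 8, .b false 0 12 9, .b false 0 12 10, .b false 0 12 0, .b false 0 8 9, .b false 0 8 10, .b false 0 8 0, .b false 0 9 10, .b false 0 9 0, .b false 0 10 0, .q false 0 0 12 8 9, .q false 0 0 10 8 9, .q true 2 12 8 0 10, .q true 2 9 10 12 0, .q false 2 8 12 9 10, .q true 0 8 9 10 12]⟩,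
  ⟨1, [], [(0, 8), (0, 12), (0, 9), (0, 10)], [.b false 0 12 8, .b false 0 12 10, .b false 0 12 9, .b false 0 12 0, .b false 0 8 10, .b false 0 8 9, .b false 0 8 0, .b false 0 10 9, .b false 0 10 0, .b false 0 9 0, .q false 0 0 12 8 10, .q false 0 0 9 8 10, .q true 2 12 8 0 9, .q true 2 10 9 12 0, .q false 2 8 12 9 10, .q true 0 8 9 10 12]⟩,
  ⟨0, [], [], [.q false 0 8 9 11 12]⟩,
  ⟨0, [], [], [.b false 0 8 9, .b false 0 8 10, .b false 0 8 11, .b false 0 8 12, .b false 0 9 10, .b false 0 9 11, .b false 0 9 12, .b false 0 10 11, .b false 0 10 12, .b false 0 11 12]⟩,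
  ⟨0, [], [], [.b true 0 8 11]⟩,
  ⟨0, [], [], [.b true 0 8 9]⟩,
  ⟨0, [], [], [.b true 0 8 12]⟩,
  ⟨0, [], [], [.b true 0 8 13]⟩,
  ⟨0, [], [], [.b true 0 11 9]⟩,
  ⟨0, [], [], [.b true 0 11 12]⟩,
  ⟨0, [], [], [.b true 0 11 13]⟩,
  ⟨0, [], [], [.b true 0 9 12]⟩,
  ⟨0, [], [], [.b true 0 9 13]⟩,
  ⟨0, [], [], [.b true 0 12 13]⟩,
  ⟨0, [], [], [.q true 2 8 11 9 12]⟩,
  ⟨0, [], [], [.q true 0 13 11 8 9]⟩,
  ⟨0, [], [], [.q true 0 13 12 8 9]⟩,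
  ⟨0, [], [], [.q false 2 11 8 13 12]⟩,
  ⟨0, [], [], [.q false 2 9 12 11 13]⟩]

def bb2_p0 : List Nat := [
0x6420090000000810003000201,
0x4620090000000810006000201,
0x6402090000000810004000201,
0x4602090000000810007000201,
0x64200b00000008104ca000201,
0x84201900000008b0574000201,
0xa91000000002000000006035302df018903ea03f303f403f503f803f903fa03fc054c069e073200030e,
0x684200700000000a00000009d0572000301,
0x9f00000000200000000600000000400000000803ea03f103f303f403f503f6000506,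
0x20840d00000000c0000000100000000a50000000020000000060000000af000c000701,
0x120000000a30000000af0000000a50000000ab00000001403f1000601,
0x86041100000001601c8000201,
0x82600b0000000b50556000201,
0x48026330000000160000000810000000b50177000401,
0x86200100000009d00000001a0145000301,
0x820642300000001600000008100000001c014b000401,
0x6482270000000b500000001600000001c0163000401,
0x6a20030000000b70632000201,
0x4a6200700000000a0000000b702b5000301,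
0x8a6200700000009d0000000b70349000301,
0xa82003000000028067e000201,
0x8a20030000000280642000201,
0xa62800700000001e00000002a0321000301,
0x286a00700000002400000002c064a000301,
0xa6800b00000002e070c000201,
0x86a00f0000000300000000320000000b30000000040000000a50000000ad0000000bb064d000801,
0x64a083d000000018000000016000000034073c000401,
0xa4860390000000200000000160000000340639000401,
0xa64110000000380011000201,
0xe0000000360000000280000000100000000a30000000a50000000af0000000140000000a70000000b10000000260000000b300000002200000003a02df000e01,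
0xa46822700000001c00000001600000003c0327000401,
0xbd00000003e000200]

def bb2_pf : List Nat := bb2_p0

theorem bb2_ref {V : Type} {S : SRel V} {p : Nat → V} (hp : ∀ i j, i < 6 → j < 6 → p i = p j → i = j)
    (hts : PHs S p 6 ((tO ++ (tB ++ (tR ++ (tF ++ tK)))) ++ bb2_x)) : False :=
  refuteS (k := 6) (n2 := 1) (n3 := 1) (n4 := 4) (o3 := 21) (o4 := 77) (M := 1001) ((tO ++ (tB ++ (tR ++ (tF ++ tK)))) ++ bb2_x) bb2_pf (by decide +kernel)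
    (by decide +kernel) (by decide +kernel) (by decide +kernel) hp hts

theorem bb2 {V : Type} {G : SimpleGraph V} {X W : V → V → V → V → Prop} (h : WF G X W) {u w x y z t : V}
    (nd : [u, w, x, y, z, t].Nodup) (a1 : Pr G X W u w x y) (a2 : IF G X W u w x z) (nx : ¬ X u w y z) (hk : K5F G [u, w, x, y, z])
    (e : K5 G u y w z t) (hw : W u y w z) (g1 : X t y u w) (g2 : X t z u w)
    (m1 : ¬ W y u t z) (m2 : ¬ W w z y t) : False :=
  bb2_ref (S := (syW h).rel) (pt_inj (o := u) nd rfl) (PHs.app (UHs.phs ((tO_h h).app ((tB_h h).app ((tR_h h).app ((tF_h h).app (tK_h h))))) _ _) (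
  .cons (fun d hd h0 => h0 a1.1) (
  .cons (fun d hd m0 m1 m2 m3 h0 h1 h2 h3 h4 h5 h6 h7 h8 h9 h10 h11 h12 h13 => ((a1.2).1 (d 0) ⟨h0, h1, h2, h3, h4, h5, h6, h7, h8, h9⟩ h10 h11).elim h12 h13) (
  .cons (fun d hd m0 m1 m2 m3 h0 h1 h2 h3 h4 h5 h6 h7 h8 h9 h10 h11 h12 h13 => ((a1.2).2.1 (d 0) ⟨h0, h1, h2, h3, h4, h5, h6, h7, h8, h9⟩ h10 h11).elim h12 h13) (
  .cons (fun d hd m0 m1 m2 m3 h0 h1 h2 h3 h4 h5 h6 h7 h8 h9 h10 h11 h12 h13 => ((a1.2).2.2.1 (d 0) ⟨h0, h1, h2, h3, h4, h5, h6, h7, h8, h9⟩ h10 h11).elim h12 h13) (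
  .cons (fun d hd m0 m1 m2 m3 h0 h1 h2 h3 h4 h5 h6 h7 h8 h9 h10 h11 h12 h13 => ((a1.2).2.2.2 (d 0) ⟨h0, h1, h2, h3, h4, h5, h6, h7, h8, h9⟩ h10 h11).elim h12 h13) (
  .cons (fun d hd h0 => h0 a2.1) (
  .cons (fun d hd m0 m1 m2 m3 h0 h1 h2 h3 h4 h5 h6 h7 h8 h9 h10 h11 h12 h13 h14 h15 => ((a2.2.1 h14 h15).1 (d 0) ⟨h0, h1, h2, h3, h4, h5, h6, h7, h8, h9⟩ h10 h11).elim h12 h13) (
  .cons (fun d hd m0 m1 m2 m3 h0 h1 h2 h3 h4 h5 h6 h7 h8 h9 h10 h11 h12 h13 h14 h15 => ((a2.2.1 h14 h15).2.1 (d 0) ⟨h0, h1, h2, h3, h4, h5, h6, h7, h8, h9⟩ h10 h11).elim h12 h13) (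
  .cons (fun d hd m0 m1 m2 m3 h0 h1 h2 h3 h4 h5 h6 h7 h8 h9 h10 h11 h12 h13 h14 h15 => ((a2.2.1 h14 h15).2.2.1 (d 0) ⟨h0, h1, h2, h3, h4, h5, h6, h7, h8, h9⟩ h10 h11).elim h12 h13) (
  .cons (fun d hd m0 m1 m2 m3 h0 h1 h2 h3 h4 h5 h6 h7 h8 h9 h10 h11 h12 h13 h14 h15 => ((a2.2.1 h14 h15).2.2.2 (d 0) ⟨h0, h1, h2, h3, h4, h5, h6, h7, h8, h9⟩ h10 h11).elim h12 h13) (
  .cons (fun d hd m0 m1 m2 m3 h0 h1 h2 h3 h4 h5 h6 h7 h8 h9 h10 h11 h12 h13 h14 h15 => ((a2.2.2 h14 h15).1 (d 0) ⟨h0, h1, h2, h3, h4, h5, h6, h7, h8, h9⟩ h10 h11).elim h12 h13) (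
  .cons (fun d hd m0 m1 m2 m3 h0 h1 h2 h3 h4 h5 h6 h7 h8 h9 h10 h11 h12 h13 h14 h15 => ((a2.2.2 h14 h15).2.1 (d 0) ⟨h0, h1, h2, h3, h4, h5, h6, h7, h8, h9⟩ h10 h11).elim h12 h13) (
  .cons (fun d hd m0 m1 m2 m3 h0 h1 h2 h3 h4 h5 h6 h7 h8 h9 h10 h11 h12 h13 h14 h15 => ((a2.2.2 h14 h15).2.2.1 (d 0) ⟨h0, h1, h2, h3, h4, h5, h6, h7, h8, h9⟩ h10 h11).elim h12 h13) (
  .cons (fun d hd m0 m1 m2 m3 h0 h1 h2 h3 h4 h5 h6 h7 h8 h9 h10 h11 h12 h13 h14 h15 => ((a2.2.2 h14 h15).2.2.2 (d 0) ⟨h0, h1, h2, h3, h4, h5, h6, h7, h8, h9⟩ h10 h11).elim h12 h13) (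
  .cons (fun d hd h0 => nx h0) (
  .cons (fun d hd h0 h1 h2 h3 h4 h5 h6 h7 h8 h9 => hk u (by simp) w (by simp) x (by simp) y (by simp) z (by simp) ⟨h0, h1, h2, h3, h4, h5, h6, h7, h8, h9⟩) (
  .cons (fun d hd h0 => h0 e.1) (
  .cons (fun d hd h0 => h0 e.2.1) (
  .cons (fun d hd h0 => h0 e.2.2.1) (
  .cons (fun d hd h0 => h0 e.2.2.2.1) (
  .cons (fun d hd h0 => h0 e.2.2.2.2.1) (
  .cons (fun d hd h0 => h0 e.2.2.2.2.2.1) (
  .cons (fun d hd h0 => h0 e.2.2.2.2.2.2.1) (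
  .cons (fun d hd h0 => h0 e.2.2.2.2.2.2.2.1) (
  .cons (fun d hd h0 => h0 e.2.2.2.2.2.2.2.2.1) (
  .cons (fun d hd h0 => h0 e.2.2.2.2.2.2.2.2.2) (
  .cons (fun d hd h0 => h0 hw) (
  .cons (fun d hd h0 => h0 g1) (
  .cons (fun d hd h0 => h0 g2) (
  .cons (fun d hd h0 => m1 h0) (
  .cons (fun d hd h0 => m2 h0) (
  .nil)))))))))))))))))))))))))))))))))

/-- templates -/
def bb3_x : List Tm := [
  ⟨0, [], [], [.q true 2 8 9 10 11]⟩,
  ⟨1, [], [(0, 8), (0, 9), (0, 10), (0, 11)], [.b false 0 8 9, .b false 0 8 10, .b false 0 8 11, .b false 0 8 0, .b false 0 9 10, .b false 0 9 11, .b false 0 9 0, .b false 0 10 11, .b false 0 10 0, .b false 0 11 0, .q false 0 0 8 9 10, .q false 0 0 11 9 10, .q true 2 8 9 0 11, .q true 2 10 11 8 0]⟩,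
  ⟨1, [], [(0, 8), (0, 9), (0, 10), (0, 11)], [.b false 0 8 9, .b false 0 8 11, .b false 0 8 10, .b false 0 8 0, .b false 0 9 11, .b false 0 9 10, .b false 0 9 0, .b false 0 11 10, .b false 0 11 0, .b false 0 10 0, .q false 0 0 8 9 11, .q false 0 0 10 9 11, .q true 2 8 9 0 10, .q true 2 11 10 8 0]⟩,
  ⟨1, [], [(0, 8), (0, 9), (0, 10), (0, 11)], [.b false 0 9 8, .b false 0 9 10, .b false 0 9 11, .b false 0 9 0, .b false 0 8 10, .b false 0 8 11, .b false 0 8 0, .b false 0 10 11, .b false 0 10 0, .b false 0 11 0, .q false 0 0 9 8 10, .q false 0 0 11 8 10, .q true 2 9 8 0 11, .q true 2 10 11 9 0]⟩,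
  ⟨1, [], [(0, 8), (0, 9), (0, 10), (0, 11)], [.b false 0 9 8, .b false 0 9 11, .b false 0 9 10, .b false 0 9 0, .b false 0 8 11, .b false 0 8 10, .b false 0 8 0, .b false 0 11 10, .b false 0 11 0, .b false 0 10 0, .q false 0 0 9 8 11, .q false 0 0 10 8 11, .q true 2 9 8 0 10, .q true 2 11 10 9 0]⟩,
  ⟨0, [], [], [.q true 3 8 9 10 12]⟩,
  ⟨1, [], [(0, 8), (0, 10), (0, 9), (0, 12)], [.b false 0 8 10, .b false 0 8 9, .b false 0 8 12, .b false 0 8 0, .b false 0 10 9, .b false 0 10 12, .b false 0 10 0, .b false 0 9 12, .b false 0 9 0, .b false 0 12 0, .q false 0 0 8 10 9, .q false 0 0 12 10 9, .q true 2 8 10 0 12, .q true 2 9 12 8 0, .q false 2 8 10 9 12, .q true 0 8 9 10 12]⟩,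
  ⟨1, [], [(0, 8), (0, 10), (0, 9), (0, 12)], [.b false 0 8 10, .b false 0 8 12, .b false 0 8 9, .b false 0 8 0, .b false 0 10 12, .b false 0 10 9, .b false 0 10 0, .b false 0 12 9, .b false 0 12 0, .b false 0 9 0, .q false 0 0 8 10 12, .q false 0 0 9 10 12, .q true 2 8 10 0 9, .q true 2 12 9 8 0, .q false 2 8 10 9 12, .q true 0 8 9 10 12]⟩,
  ⟨1, [], [(0, 8), (0, 10), (0, 9), (0, 12)], [.b false 0 10 8, .b false 0 10 9, .b false 0 10 12, .b false 0 10 0, .b false 0 8 9, .b false 0 8 12, .b false 0 8 0, .b false 0 9 12, .b false 0 9 0, .b false 0 12 0, .q false 0 0 10 8 9, .q false 0 0 12 8 9, .q true 2 10 8 0 12, .q true 2 9 12 10 0, .q false 2 8 10 9 12, .q true 0 8 9 10 12]⟩,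
  ⟨1, [], [(0, 8), (0, 10), (0, 9), (0, 12)], [.b false 0 10 8, .b false 0 10 12, .b false 0 10 9, .b false 0 10 0, .b false 0 8 12, .b false 0 8 9, .b false 0 8 0, .b false 0 12 9, .b false 0 12 0, .b false 0 9 0, .q false 0 0 10 8 12, .q false 0 0 9 8 12, .q true 2 10 8 0 9, .q true 2 12 9 10 0, .q false 2 8 10 9 12, .q true 0 8 9 10 12]⟩,
  ⟨1, [], [(0, 8), (0, 12), (0, 9), (0, 10)], [.b false 0 8 12, .b false 0 8 9, .b false 0 8 10, .b false 0 8 0, .b false 0 12 9, .b false 0 12 10, .b false 0 12 0, .b false 0 9 10, .b false 0 9 0, .b false 0 10 0, .q false 0 0 8 12 9, .q false 0 0 10 12 9, .q true 2 8 12 0 10, .q true 2 9 10 8 0, .q false 2 8 12 9 10, .q true 0 8 9 10 12]⟩,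
  ⟨1, [], [(0, 8), (0, 12), (0, 9), (0, 10)], [.b false 0 8 12, .b false 0 8 10, .b false 0 8 9, .b false 0 8 0, .b false 0 12 10, .b false 0 12 9, .b false 0 12 0, .b false 0 10 9, .b false 0 10 0, .b false 0 9 0, .q false 0 0 8 12 10, .q false 0 0 9 12 10, .q true 2 8 12 0 9, .q true 2 10 9 8 0, .q false 2 8 12 9 10, .q true 0 8 9 10 12]⟩,
  ⟨1, [], [(0, 8), (0, 12), (0, 9), (0, 10)], [.b false 0 12 8, .b false 0 12 9, .b false 0 12 10, .b false 0 12 0, .b false 0 8 9, .b false 0 8 10, .b false 0 8 0, .b false 0 9 10, .b false 0 9 0, .b false 0 10 0, .q false 0 0 12 8 9, .q false 0 0 10 8 9, .q true 2 12 8 0 10, .q true 2 9 10 12 0, .q false 2 8 12 9 10, .q true 0 8 9 10 12]⟩,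
  ⟨1, [], [(0, 8), (0, 12), (0, 9), (0, 10)], [.b false 0 12 8, .b false 0 12 10, .b false 0 12 9, .b false 0 12 0, .b false 0 8 10, .b false 0 8 9, .b false 0 8 0, .b false 0 10 9, .b false 0 10 0, .b false 0 9 0, .q false 0 0 12 8 10, .q false 0 0 9 8 10, .q true 2 12 8 0 9, .q true 2 10 9 12 0, .q false 2 8 12 9 10, .q true 0 8 9 10 12]⟩,
  ⟨0, [], [], [.q false 0 8 9 11 12]⟩,
  ⟨0, [], [], [.b false 0 8 9, .b false 0 8 10, .b false 0 8 11, .b false 0 8 12, .b false 0 9 10, .b false 0 9 11, .b false 0 9 12, .b false 0 10 11, .b false 0 10 12, .b false 0 11 12]⟩,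
  ⟨0, [], [], [.b true 0 8 11]⟩,
  ⟨0, [], [], [.b true 0 8 9]⟩,
  ⟨0, [], [], [.b true 0 8 12]⟩,
  ⟨0, [], [], [.b true 0 8 13]⟩,
  ⟨0, [], [], [.b true 0 11 9]⟩,
  ⟨0, [], [], [.b true 0 11 12]⟩,
  ⟨0, [], [], [.b true 0 11 13]⟩,
  ⟨0, [], [], [.b true 0 9 12]⟩,
  ⟨0, [], [], [.b true 0 9 13]⟩,
  ⟨0, [], [], [.b true 0 12 13]⟩,
  ⟨0, [], [], [.q true 2 8 11 9 12]⟩,
  ⟨0, [], [], [.q true 0 13 11 8 12]⟩,
  ⟨0, [], [], [.q true 0 13 9 8 12]⟩,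
  ⟨0, [], [], [.q false 2 11 8 13 9]⟩,
  ⟨0, [], [], [.q false 2 12 9 11 13]⟩]

def bb3_p0 : List Nat := [
0x82600b0000000b50556000201,
0x86200100000009d0000000020145000301,
0xa6280050000000040000000b7067e000301,
0xb9000000006000200]

def bb3_pf : List Nat := bb3_p0

theorem bb3_ref {V : Type} {S : SRel V} {p : Nat → V} (hp : ∀ i j, i < 6 → j < 6 → p i = p j → i = j)
    (hts : PHs S p 6 ((tO ++ (tB ++ (tR ++ (tF ++ tK)))) ++ bb3_x)) : False :=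
  refuteS (k := 6) (n2 := 1) (n3 := 1) (n4 := 4) (o3 := 21) (o4 := 77) (M := 1001) ((tO ++ (tB ++ (tR ++ (tF ++ tK)))) ++ bb3_x) bb3_pf (by decide +kernel)
    (by decide +kernel) (by decide +kernel) (by decide +kernel) hp hts

theorem bb3 {V : Type} {G : SimpleGraph V} {X W : V → V → V → V → Prop} (h : WF G X W) {u w x y z t : V}
    (nd : [u, w, x, y, z, t].Nodup) (a1 : Pr G X W u w x y) (a2 : IF G X W u w x z) (nx : ¬ X u w y z) (hk : K5F G [u, w, x, y, z])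
    (e : K5 G u y w z t) (hw : W u y w z) (g1 : X t y u z) (g2 : X t w u z)
    (m1 : ¬ W y u t w) (m2 : ¬ W z w y t) : False :=
  bb3_ref (S := (syW h).rel) (pt_inj (o := u) nd rfl) (PHs.app (UHs.phs ((tO_h h).app ((tB_h h).app ((tR_h h).app ((tF_h h).app (tK_h h))))) _ _) (
  .cons (fun d hd h0 => h0 a1.1) (
  .cons (fun d hd m0 m1 m2 m3 h0 h1 h2 h3 h4 h5 h6 h7 h8 h9 h10 h11 h12 h13 => ((a1.2).1 (d 0) ⟨h0, h1, h2, h3, h4, h5, h6, h7, h8, h9⟩ h10 h11).elim h12 h13) (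
  .cons (fun d hd m0 m1 m2 m3 h0 h1 h2 h3 h4 h5 h6 h7 h8 h9 h10 h11 h12 h13 => ((a1.2).2.1 (d 0) ⟨h0, h1, h2, h3, h4, h5, h6, h7, h8, h9⟩ h10 h11).elim h12 h13) (
  .cons (fun d hd m0 m1 m2 m3 h0 h1 h2 h3 h4 h5 h6 h7 h8 h9 h10 h11 h12 h13 => ((a1.2).2.2.1 (d 0) ⟨h0, h1, h2, h3, h4, h5, h6, h7, h8, h9⟩ h10 h11).elim h12 h13) (
  .cons (fun d hd m0 m1 m2 m3 h0 h1 h2 h3 h4 h5 h6 h7 h8 h9 h10 h11 h12 h13 => ((a1.2).2.2.2 (d 0) ⟨h0, h1, h2, h3, h4, h5, h6, h7, h8, h9⟩ h10 h11).elim h12 h13) (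
  .cons (fun d hd h0 => h0 a2.1) (
  .cons (fun d hd m0 m1 m2 m3 h0 h1 h2 h3 h4 h5 h6 h7 h8 h9 h10 h11 h12 h13 h14 h15 => ((a2.2.1 h14 h15).1 (d 0) ⟨h0, h1, h2, h3, h4, h5, h6, h7, h8, h9⟩ h10 h11).elim h12 h13) (
  .cons (fun d hd m0 m1 m2 m3 h0 h1 h2 h3 h4 h5 h6 h7 h8 h9 h10 h11 h12 h13 h14 h15 => ((a2.2.1 h14 h15).2.1 (d 0) ⟨h0, h1, h2, h3, h4, h5, h6, h7, h8, h9⟩ h10 h11).elim h12 h13) (
  .cons (fun d hd m0 m1 m2 m3 h0 h1 h2 h3 h4 h5 h6 h7 h8 h9 h10 h11 h12 h13 h14 h15 => ((a2.2.1 h14 h15).2.2.1 (d 0) ⟨h0, h1, h2, h3, h4, h5, h6, h7, h8, h9⟩ h10 h11).elim h12 h13) (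
  .cons (fun d hd m0 m1 m2 m3 h0 h1 h2 h3 h4 h5 h6 h7 h8 h9 h10 h11 h12 h13 h14 h15 => ((a2.2.1 h14 h15).2.2.2 (d 0) ⟨h0, h1, h2, h3, h4, h5, h6, h7, h8, h9⟩ h10 h11).elim h12 h13) (
  .cons (fun d hd m0 m1 m2 m3 h0 h1 h2 h3 h4 h5 h6 h7 h8 h9 h10 h11 h12 h13 h14 h15 => ((a2.2.2 h14 h15).1 (d 0) ⟨h0, h1, h2, h3, h4, h5, h6, h7, h8, h9⟩ h10 h11).elim h12 h13) (
  .cons (fun d hd m0 m1 m2 m3 h0 h1 h2 h3 h4 h5 h6 h7 h8 h9 h10 h11 h12 h13 h14 h15 => ((a2.2.2 h14 h15).2.1 (d 0) ⟨h0, h1, h2, h3, h4, h5, h6, h7, h8, h9⟩ h10 h11).elim h12 h13) (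
  .cons (fun d hd m0 m1 m2 m3 h0 h1 h2 h3 h4 h5 h6 h7 h8 h9 h10 h11 h12 h13 h14 h15 => ((a2.2.2 h14 h15).2.2.1 (d 0) ⟨h0, h1, h2, h3, h4, h5, h6, h7, h8, h9⟩ h10 h11).elim h12 h13) (
  .cons (fun d hd m0 m1 m2 m3 h0 h1 h2 h3 h4 h5 h6 h7 h8 h9 h10 h11 h12 h13 h14 h15 => ((a2.2.2 h14 h15).2.2.2 (d 0) ⟨h0, h1, h2, h3, h4, h5, h6, h7, h8, h9⟩ h10 h11).elim h12 h13) (
  .cons (fun d hd h0 => nx h0) (
  .cons (fun d hd h0 h1 h2 h3 h4 h5 h6 h7 h8 h9 => hk u (by simp) w (by simp) x (by simp) y (by simp) z (by simp) ⟨h0, h1, h2, h3, h4, h5, h6, h7, h8, h9⟩) (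
  .cons (fun d hd h0 => h0 e.1) (
  .cons (fun d hd h0 => h0 e.2.1) (
  .cons (fun d hd h0 => h0 e.2.2.1) (
  .cons (fun d hd h0 => h0 e.2.2.2.1) (
  .cons (fun d hd h0 => h0 e.2.2.2.2.1) (
  .cons (fun d hd h0 => h0 e.2.2.2.2.2.1) (
  .cons (fun d hd h0 => h0 e.2.2.2.2.2.2.1) (
  .cons (fun d hd h0 => h0 e.2.2.2.2.2.2.2.1) (
  .cons (fun d hd h0 => h0 e.2.2.2.2.2.2.2.2.1) (
  .cons (fun d hd h0 => h0 e.2.2.2.2.2.2.2.2.2) (
  .cons (fun d hd h0 => h0 hw) (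
  .cons (fun d hd h0 => h0 g1) (
  .cons (fun d hd h0 => h0 g2) (
  .cons (fun d hd h0 => m1 h0) (
  .cons (fun d hd h0 => m2 h0) (
  .nil)))))))))))))))))))))))))))))))))

end Pool.Agent.SOF
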