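import Pool.Agent.SOF.I2

/-! Project SOF: refutations (generated). -/

set_option autoImplicit false
set_option maxRecDepth 100000
set_option linter.unusedVariables false

namespace Pool.Agent.SOF

open Pool.Agent.SOC Pool.Agent.SOD Pool.Agent.RUP

/-- templates -/
def cb00_x : List Tm := [
  ⟨0, [], [], [.q true 2 8 10 9 11]⟩,
  ⟨1, [], [(0, 8), (0, 10), (0, 9), (0, 11)], [.b false 0 8 10, .b false 0 8 9, .b false 0 8 11, .b false 0 8 0, .b false 0 10 9, .b false 0 10 11, .b false 0 10 0, .b false 0 9 11, .b false 0 9 0, .b false 0 11 0, .q false 0 0 8 10 9, .q false 0 0 11 10 9, .q true 2 8 10 0 11, .q true 2 9 11 8 0]⟩,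
  ⟨1, [], [(0, 8), (0, 10), (0, 9), (0, 11)], [.b false 0 8 10, .b false 0 8 11, .b false 0 8 9, .b false 0 8 0, .b false 0 10 11, .b false 0 10 9, .b false 0 10 0, .b false 0 11 9, .b false 0 11 0, .b false 0 9 0, .q false 0 0 8 10 11, .q false 0 0 9 10 11, .q true 2 8 10 0 9, .q true 2 11 9 8 0]⟩,
  ⟨1, [], [(0, 8), (0, 10), (0, 9), (0, 11)], [.b false 0 10 8, .b false 0 10 9, .b false 0 10 11, .b false 0 10 0, .b false 0 8 9, .b false 0 8 11, .b false 0 8 0, .b false 0 9 11, .b false 0 9 0, .b false 0 11 0, .q false 0 0 10 8 9, .q false 0 0 11 8 9, .q true 2 10 8 0 11, .q true 2 9 11 10 0]⟩,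
  ⟨1, [], [(0, 8), (0, 10), (0, 9), (0, 11)], [.b false 0 10 8, .b false 0 10 11, .b false 0 10 9, .b false 0 10 0, .b false 0 8 11, .b false 0 8 9, .b false 0 8 0, .b false 0 11 9, .b false 0 11 0, .b false 0 9 0, .q false 0 0 10 8 11, .q false 0 0 9 8 11, .q true 2 10 8 0 9, .q true 2 11 9 10 0]⟩,
  ⟨0, [], [], [.q true 3 8 10 9 13]⟩,
  ⟨1, [], [(0, 8), (0, 9), (0, 10), (0, 13)], [.b false 0 8 9, .b false 0 8 10, .b false 0 8 13, .b false 0 8 0, .b false 0 9 10, .b false 0 9 13, .b false 0 9 0, .b false 0 10 13, .b false 0 10 0, .b false 0 13 0, .q false 0 0 8 9 10, .q false 0 0 13 9 10, .q true 2 8 9 0 13, .q true 2 10 13 8 0, .q false 2 8 9 10 13, .q true 0 8 10 9 13]⟩,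
  ⟨1, [], [(0, 8), (0, 9), (0, 10), (0, 13)], [.b false 0 8 9, .b false 0 8 13, .b false 0 8 10, .b false 0 8 0, .b false 0 9 13, .b false 0 9 10, .b false 0 9 0, .b false 0 13 10, .b false 0 13 0, .b false 0 10 0, .q false 0 0 8 9 13, .q false 0 0 10 9 13, .q true 2 8 9 0 10, .q true 2 13 10 8 0, .q false 2 8 9 10 13, .q true 0 8 10 9 13]⟩,
  ⟨1, [], [(0, 8), (0, 9), (0, 10), (0, 13)], [.b false 0 9 8, .b false 0 9 10, .b false 0 9 13, .b false 0 9 0, .b false 0 8 10, .b false 0 8 13, .b false 0 8 0, .b false 0 10 13, .b false 0 10 0, .b false 0 13 0, .q false 0 0 9 8 10, .q false 0 0 13 8 10, .q true 2 9 8 0 13, .q true 2 10 13 9 0, .q false 2 8 9 10 13, .q true 0 8 10 9 13]⟩,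
  ⟨1, [], [(0, 8), (0, 9), (0, 10), (0, 13)], [.b false 0 9 8, .b false 0 9 13, .b false 0 9 10, .b false 0 9 0, .b false 0 8 13, .b false 0 8 10, .b false 0 8 0, .b false 0 13 10, .b false 0 13 0, .b false 0 10 0, .q false 0 0 9 8 13, .q false 0 0 10 8 13, .q true 2 9 8 0 10, .q true 2 13 10 9 0, .q false 2 8 9 10 13, .q true 0 8 10 9 13]⟩,
  ⟨1, [], [(0, 8), (0, 13), (0, 10), (0, 9)], [.b false 0 8 13, .b false 0 8 10, .b false 0 8 9, .b false 0 8 0, .b false 0 13 10, .b false 0 13 9, .b false 0 13 0, .b false 0 10 9, .b false 0 10 0, .b false 0 9 0, .q false 0 0 8 13 10, .q false 0 0 9 13 10, .q true 2 8 13 0 9, .q true 2 10 9 8 0, .q false 2 8 13 10 9, .q true 0 8 10 9 13]⟩,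
  ⟨1, [], [(0, 8), (0, 13), (0, 10), (0, 9)], [.b false 0 8 13, .b false 0 8 9, .b false 0 8 10, .b false 0 8 0, .b false 0 13 9, .b false 0 13 10, .b false 0 13 0, .b false 0 9 10, .b false 0 9 0, .b false 0 10 0, .q false 0 0 8 13 9, .q false 0 0 10 13 9, .q true 2 8 13 0 10, .q true 2 9 10 8 0, .q false 2 8 13 10 9, .q true 0 8 10 9 13]⟩,
  ⟨1, [], [(0, 8), (0, 13), (0, 10), (0, 9)], [.b false 0 13 8, .b false 0 13 10, .b false 0 13 9, .b false 0 13 0, .b false 0 8 10, .b false 0 8 9, .b false 0 8 0, .b false 0 10 9, .b false 0 10 0, .b false 0 9 0, .q false 0 0 13 8 10, .q false 0 0 9 8 10, .q true 2 13 8 0 9, .q true 2 10 9 13 0, .q false 2 8 13 10 9, .q true 0 8 10 9 13]⟩,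
  ⟨1, [], [(0, 8), (0, 13), (0, 10), (0, 9)], [.b false 0 13 8, .b false 0 13 9, .b false 0 13 10, .b false 0 13 0, .b false 0 8 9, .b false 0 8 10, .b false 0 8 0, .b false 0 9 10, .b false 0 9 0, .b false 0 10 0, .q false 0 0 13 8 9, .q false 0 0 10 8 9, .q true 2 13 8 0 10, .q true 2 9 10 13 0, .q false 2 8 13 10 9, .q true 0 8 10 9 13]⟩,
  ⟨0, [], [], [.q true 3 8 12 9 11]⟩,
  ⟨1, [], [(0, 8), (0, 9), (0, 12), (0, 11)], [.b false 0 8 9, .b false 0 8 12, .b false 0 8 11, .b false 0 8 0, .b false 0 9 12, .b false 0 9 11, .b false 0 9 0, .b false 0 12 11, .b false 0 12 0, .b false 0 11 0, .q false 0 0 8 9 12, .q false 0 0 11 9 12, .q true 2 8 9 0 11, .q true 2 12 11 8 0, .q false 2 8 9 12 11, .q true 0 8 12 9 11]⟩,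
  ⟨1, [], [(0, 8), (0, 9), (0, 12), (0, 11)], [.b false 0 8 9, .b false 0 8 11, .b false 0 8 12, .b false 0 8 0, .b false 0 9 11, .b false 0 9 12, .b false 0 9 0, .b false 0 11 12, .b false 0 11 0, .b false 0 12 0, .q false 0 0 8 9 11, .q false 0 0 12 9 11, .q true 2 8 9 0 12, .q true 2 11 12 8 0, .q false 2 8 9 12 11, .q true 0 8 12 9 11]⟩,
  ⟨1, [], [(0, 8), (0, 9), (0, 12), (0, 11)], [.b false 0 9 8, .b false 0 9 12, .b false 0 9 11, .b false 0 9 0, .b false 0 8 12, .b false 0 8 11, .b false 0 8 0, .b false 0 12 11, .b false 0 12 0, .b false 0 11 0, .q false 0 0 9 8 12, .q false 0 0 11 8 12, .q true 2 9 8 0 11, .q true 2 12 11 9 0, .q false 2 8 9 12 11, .q true 0 8 12 9 11]⟩,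
  ⟨1, [], [(0, 8), (0, 9), (0, 12), (0, 11)], [.b false 0 9 8, .b false 0 9 11, .b false 0 9 12, .b false 0 9 0, .b false 0 8 11, .b false 0 8 12, .b false 0 8 0, .b false 0 11 12, .b false 0 11 0, .b false 0 12 0, .q false 0 0 9 8 11, .q false 0 0 12 8 11, .q true 2 9 8 0 12, .q true 2 11 12 9 0, .q false 2 8 9 12 11, .q true 0 8 12 9 11]⟩,
  ⟨1, [], [(0, 8), (0, 11), (0, 12), (0, 9)], [.b false 0 8 11, .b false 0 8 12, .b false 0 8 9, .b false 0 8 0, .b false 0 11 12, .b false 0 11 9, .b false 0 11 0, .b false 0 12 9, .b false 0 12 0, .b false 0 9 0, .q false 0 0 8 11 12, .q false 0 0 9 11 12, .q true 2 8 11 0 9, .q true 2 12 9 8 0, .q false 2 8 11 12 9, .q true 0 8 12 9 11]⟩,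
  ⟨1, [], [(0, 8), (0, 11), (0, 12), (0, 9)], [.b false 0 8 11, .b false 0 8 9, .b false 0 8 12, .b false 0 8 0, .b false 0 11 9, .b false 0 11 12, .b false 0 11 0, .b false 0 9 12, .b false 0 9 0, .b false 0 12 0, .q false 0 0 8 11 9, .q false 0 0 12 11 9, .q true 2 8 11 0 12, .q true 2 9 12 8 0, .q false 2 8 11 12 9, .q true 0 8 12 9 11]⟩,
  ⟨1, [], [(0, 8), (0, 11), (0, 12), (0, 9)], [.b false 0 11 8, .b false 0 11 12, .b false 0 11 9, .b false 0 11 0, .b false 0 8 12, .b false 0 8 9, .b false 0 8 0, .b false 0 12 9, .b false 0 12 0, .b false 0 9 0, .q false 0 0 11 8 12, .q false 0 0 9 8 12, .q true 2 11 8 0 9, .q true 2 12 9 11 0, .q false 2 8 11 12 9, .q true 0 8 12 9 11]⟩,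
  ⟨1, [], [(0, 8), (0, 11), (0, 12), (0, 9)], [.b false 0 11 8, .b false 0 11 9, .b false 0 11 12, .b false 0 11 0, .b false 0 8 9, .b false 0 8 12, .b false 0 8 0, .b false 0 9 12, .b false 0 9 0, .b false 0 12 0, .q false 0 0 11 8 9, .q false 0 0 12 8 9, .q true 2 11 8 0 12, .q true 2 9 12 11 0, .q false 2 8 11 12 9, .q true 0 8 12 9 11]⟩,
  ⟨0, [], [], [.q false 0 8 12 9 13]⟩,
  ⟨0, [], [], [.b false 0 8 9, .b false 0 8 10, .b false 0 8 11, .b false 0 8 12, .b false 0 9 10, .b false 0 9 11, .b false 0 9 12, .b false 0 10 11, .b false 0 10 12, .b false 0 11 12]⟩,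
  ⟨0, [], [], [.b false 0 8 9, .b false 0 8 10, .b false 0 8 11, .b false 0 8 13, .b false 0 9 10, .b false 0 9 11, .b false 0 9 13, .b false 0 10 11, .b false 0 10 13, .b false 0 11 13]⟩,
  ⟨0, [], [], [.b false 0 8 9, .b false 0 8 10, .b false 0 8 12, .b false 0 8 13, .b false 0 9 10, .b false 0 9 12, .b false 0 9 13, .b false 0 10 12, .b false 0 10 13, .b false 0 12 13]⟩,
  ⟨0, [], [], [.b false 0 8 9, .b false 0 8 11, .b false 0 8 12, .b false 0 8 13, .b false 0 9 11, .b false 0 9 12, .b false 0 9 13, .b false 0 11 12, .b false 0 11 13, .b false 0 12 13]⟩,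
  ⟨0, [], [], [.b false 0 8 10, .b false 0 8 11, .b false 0 8 12, .b false 0 8 13, .b false 0 10 11, .b false 0 10 12, .b false 0 10 13, .b false 0 11 12, .b false 0 11 13, .b false 0 12 13]⟩,
  ⟨0, [], [], [.b false 0 9 10, .b false 0 9 11, .b false 0 9 12, .b false 0 9 13, .b false 0 10 11, .b false 0 10 12, .b false 0 10 13, .b false 0 11 12, .b false 0 11 13, .b false 0 12 13]⟩,
  ⟨0, [], [], [.b true 0 8 9]⟩,
  ⟨0, [], [], [.b true 0 8 12]⟩,
  ⟨0, [], [], [.b true 0 8 13]⟩,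
  ⟨0, [], [], [.b true 0 8 14]⟩,
  ⟨0, [], [], [.b true 0 9 12]⟩,
  ⟨0, [], [], [.b true 0 9 13]⟩,
  ⟨0, [], [], [.b true 0 9 14]⟩,
  ⟨0, [], [], [.b true 0 12 13]⟩,
  ⟨0, [], [], [.b true 0 12 14]⟩,
  ⟨0, [], [], [.b true 0 13 14]⟩,
  ⟨0, [], [], [.q true 2 8 9 12 13]⟩,
  ⟨0, [], [], [.q true 0 14 8 9 12]⟩,
  ⟨0, [], [], [.q true 0 14 13 9 12]⟩,
  ⟨0, [], [], [.q false 2 8 9 14 13]⟩,
  ⟨0, [], [], [.q false 2 12 13 8 14]⟩]

def cb00_p0 : List Nat := [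
0xa8200b0000000d10a34000201,
0xa820010000000af000000002027c000301,
0xca082050000000040000000d30ce0000301,
0xd5000000006000200]

def cb00_pf : List Nat := cb00_p0

theorem cb00_ref {V : Type} {S : SRel V} {p : Nat → V} (hp : ∀ i j, i < 7 → j < 7 → p i = p j → i = j)
    (hts : PHs S p 7 ((tO ++ (tB ++ (tR ++ (tF ++ tK)))) ++ cb00_x)) : False :=
  refuteS (k := 7) (n2 := 1) (n3 := 1) (n4 := 4) (o3 := 28) (o4 := 112) (M := 1736) ((tO ++ (tB ++ (tR ++ (tF ++ tK)))) ++ cb00_x) cb00_pf (by decide +kernel)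
    (by decide +kernel) (by decide +kernel) (by decide +kernel) hp hts

theorem cb00 {V : Type} {G : SimpleGraph V} {X W : V → V → V → V → Prop} (h : WF G X W) {a b x y x2 y2 t : V}
    (nd : [a, b, x, y, x2, y2, t].Nodup) (a1 : Pr G X W a x b y) (a2 : IF G X W a x b y2) (a3 : IF G X W a x2 b y) (nx : ¬ X a x2 b y2)
    (hk : K5F G [a, b, x, y, x2, y2]) (e : K5 G a b x2 y2 t) (hw : W a b x2 y2) (g1 : X t a b x2) (g2 : X t y2 b x2)
    (m1 : ¬ W a b t y2) (m2 : ¬ W x2 y2 a t) : False :=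
  cb00_ref (S := (syW h).rel) (pt_inj (o := a) nd rfl) (PHs.app (UHs.phs ((tO_h h).app ((tB_h h).app ((tR_h h).app ((tF_h h).app (tK_h h))))) _ _) (
  .cons (fun d hd h0 => h0 a1.1) (
  .cons (fun d hd m0 m1 m2 m3 h0 h1 h2 h3 h4 h5 h6 h7 h8 h9 h10 h11 h12 h13 => ((a1.2).1 (d 0) ⟨h0, h1, h2, h3, h4, h5, h6, h7, h8, h9⟩ h10 h11).elim h12 h13) (
  .cons (fun d hd m0 m1 m2 m3 h0 h1 h2 h3 h4 h5 h6 h7 h8 h9 h10 h11 h12 h13 => ((a1.2).2.1 (d 0) ⟨h0, h1, h2, h3, h4, h5, h6, h7, h8, h9⟩ h10 h11).elim h12 h13) (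
  .cons (fun d hd m0 m1 m2 m3 h0 h1 h2 h3 h4 h5 h6 h7 h8 h9 h10 h11 h12 h13 => ((a1.2).2.2.1 (d 0) ⟨h0, h1, h2, h3, h4, h5, h6, h7, h8, h9⟩ h10 h11).elim h12 h13) (
  .cons (fun d hd m0 m1 m2 m3 h0 h1 h2 h3 h4 h5 h6 h7 h8 h9 h10 h11 h12 h13 => ((a1.2).2.2.2 (d 0) ⟨h0, h1, h2, h3, h4, h5, h6, h7, h8, h9⟩ h10 h11).elim h12 h13) (
  .cons (fun d hd h0 => h0 a2.1) (
  .cons (fun d hd m0 m1 m2 m3 h0 h1 h2 h3 h4 h5 h6 h7 h8 h9 h10 h11 h12 h13 h14 h15 => ((a2.2.1 h14 h15).1 (d 0) ⟨h0, h1, h2, h3, h4, h5, h6, h7, h8, h9⟩ h10 h11).elim h12 h13) (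
  .cons (fun d hd m0 m1 m2 m3 h0 h1 h2 h3 h4 h5 h6 h7 h8 h9 h10 h11 h12 h13 h14 h15 => ((a2.2.1 h14 h15).2.1 (d 0) ⟨h0, h1, h2, h3, h4, h5, h6, h7, h8, h9⟩ h10 h11).elim h12 h13) (
  .cons (fun d hd m0 m1 m2 m3 h0 h1 h2 h3 h4 h5 h6 h7 h8 h9 h10 h11 h12 h13 h14 h15 => ((a2.2.1 h14 h15).2.2.1 (d 0) ⟨h0, h1, h2, h3, h4, h5, h6, h7, h8, h9⟩ h10 h11).elim h12 h13) (
  .cons (fun d hd m0 m1 m2 m3 h0 h1 h2 h3 h4 h5 h6 h7 h8 h9 h10 h11 h12 h13 h14 h15 => ((a2.2.1 h14 h15).2.2.2 (d 0) ⟨h0, h1, h2, h3, h4, h5, h6, h7, h8, h9⟩ h10 h11).elim h12 h13) (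
  .cons (fun d hd m0 m1 m2 m3 h0 h1 h2 h3 h4 h5 h6 h7 h8 h9 h10 h11 h12 h13 h14 h15 => ((a2.2.2 h14 h15).1 (d 0) ⟨h0, h1, h2, h3, h4, h5, h6, h7, h8, h9⟩ h10 h11).elim h12 h13) (
  .cons (fun d hd m0 m1 m2 m3 h0 h1 h2 h3 h4 h5 h6 h7 h8 h9 h10 h11 h12 h13 h14 h15 => ((a2.2.2 h14 h15).2.1 (d 0) ⟨h0, h1, h2, h3, h4, h5, h6, h7, h8, h9⟩ h10 h11).elim h12 h13) (
  .cons (fun d hd m0 m1 m2 m3 h0 h1 h2 h3 h4 h5 h6 h7 h8 h9 h10 h11 h12 h13 h14 h15 => ((a2.2.2 h14 h15).2.2.1 (d 0) ⟨h0, h1, h2, h3, h4, h5, h6, h7, h8, h9⟩ h10 h11).elim h12 h13) (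
  .cons (fun d hd m0 m1 m2 m3 h0 h1 h2 h3 h4 h5 h6 h7 h8 h9 h10 h11 h12 h13 h14 h15 => ((a2.2.2 h14 h15).2.2.2 (d 0) ⟨h0, h1, h2, h3, h4, h5, h6, h7, h8, h9⟩ h10 h11).elim h12 h13) (
  .cons (fun d hd h0 => h0 a3.1) (
  .cons (fun d hd m0 m1 m2 m3 h0 h1 h2 h3 h4 h5 h6 h7 h8 h9 h10 h11 h12 h13 h14 h15 => ((a3.2.1 h14 h15).1 (d 0) ⟨h0, h1, h2, h3, h4, h5, h6, h7, h8, h9⟩ h10 h11).elim h12 h13) (
  .cons (fun d hd m0 m1 m2 m3 h0 h1 h2 h3 h4 h5 h6 h7 h8 h9 h10 h11 h12 h13 h14 h15 => ((a3.2.1 h14 h15).2.1 (d 0) ⟨h0, h1, h2, h3, h4, h5, h6, h7, h8, h9⟩ h10 h11).elim h12 h13) (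
  .cons (fun d hd m0 m1 m2 m3 h0 h1 h2 h3 h4 h5 h6 h7 h8 h9 h10 h11 h12 h13 h14 h15 => ((a3.2.1 h14 h15).2.2.1 (d 0) ⟨h0, h1, h2, h3, h4, h5, h6, h7, h8, h9⟩ h10 h11).elim h12 h13) (
  .cons (fun d hd m0 m1 m2 m3 h0 h1 h2 h3 h4 h5 h6 h7 h8 h9 h10 h11 h12 h13 h14 h15 => ((a3.2.1 h14 h15).2.2.2 (d 0) ⟨h0, h1, h2, h3, h4, h5, h6, h7, h8, h9⟩ h10 h11).elim h12 h13) (
  .cons (fun d hd m0 m1 m2 m3 h0 h1 h2 h3 h4 h5 h6 h7 h8 h9 h10 h11 h12 h13 h14 h15 => ((a3.2.2 h14 h15).1 (d 0) ⟨h0, h1, h2, h3, h4, h5, h6, h7, h8, h9⟩ h10 h11).elim h12 h13) (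
  .cons (fun d hd m0 m1 m2 m3 h0 h1 h2 h3 h4 h5 h6 h7 h8 h9 h10 h11 h12 h13 h14 h15 => ((a3.2.2 h14 h15).2.1 (d 0) ⟨h0, h1, h2, h3, h4, h5, h6, h7, h8, h9⟩ h10 h11).elim h12 h13) (
  .cons (fun d hd m0 m1 m2 m3 h0 h1 h2 h3 h4 h5 h6 h7 h8 h9 h10 h11 h12 h13 h14 h15 => ((a3.2.2 h14 h15).2.2.1 (d 0) ⟨h0, h1, h2, h3, h4, h5, h6, h7, h8, h9⟩ h10 h11).elim h12 h13) (
  .cons (fun d hd m0 m1 m2 m3 h0 h1 h2 h3 h4 h5 h6 h7 h8 h9 h10 h11 h12 h13 h14 h15 => ((a3.2.2 h14 h15).2.2.2 (d 0) ⟨h0, h1, h2, h3, h4, h5, h6, h7, h8, h9⟩ h10 h11).elim h12 h13) (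
  .cons (fun d hd h0 => nx h0) (
  .cons (fun d hd h0 h1 h2 h3 h4 h5 h6 h7 h8 h9 => hk a (by simp) b (by simp) x (by simp) y (by simp) x2 (by simp) ⟨h0, h1, h2, h3, h4, h5, h6, h7, h8, h9⟩) (
  .cons (fun d hd h0 h1 h2 h3 h4 h5 h6 h7 h8 h9 => hk a (by simp) b (by simp) x (by simp) y (by simp) y2 (by simp) ⟨h0, h1, h2, h3, h4, h5, h6, h7, h8, h9⟩) (
  .cons (fun d hd h0 h1 h2 h3 h4 h5 h6 h7 h8 h9 => hk a (by simp) b (by simp) x (by simp) x2 (by simp) y2 (by simp) ⟨h0, h1, h2, h3, h4, h5, h6, h7, h8, h9⟩) (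
  .cons (fun d hd h0 h1 h2 h3 h4 h5 h6 h7 h8 h9 => hk a (by simp) b (by simp) y (by simp) x2 (by simp) y2 (by simp) ⟨h0, h1, h2, h3, h4, h5, h6, h7, h8, h9⟩) (
  .cons (fun d hd h0 h1 h2 h3 h4 h5 h6 h7 h8 h9 => hk a (by simp) x (by simp) y (by simp) x2 (by simp) y2 (by simp) ⟨h0, h1, h2, h3, h4, h5, h6, h7, h8, h9⟩) (
  .cons (fun d hd h0 h1 h2 h3 h4 h5 h6 h7 h8 h9 => hk b (by simp) x (by simp) y (by simp) x2 (by simp) y2 (by simp) ⟨h0, h1, h2, h3, h4, h5, h6, h7, h8, h9⟩) (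
  .cons (fun d hd h0 => h0 e.1) (
  .cons (fun d hd h0 => h0 e.2.1) (
  .cons (fun d hd h0 => h0 e.2.2.1) (
  .cons (fun d hd h0 => h0 e.2.2.2.1) (
  .cons (fun d hd h0 => h0 e.2.2.2.2.1) (
  .cons (fun d hd h0 => h0 e.2.2.2.2.2.1) (
  .cons (fun d hd h0 => h0 e.2.2.2.2.2.2.1) (
  .cons (fun d hd h0 => h0 e.2.2.2.2.2.2.2.1) (
  .cons (fun d hd h0 => h0 e.2.2.2.2.2.2.2.2.1) (
  .cons (fun d hd h0 => h0 e.2.2.2.2.2.2.2.2.2) (
  .cons (fun d hd h0 => h0 hw) (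
  .cons (fun d hd h0 => h0 g1) (
  .cons (fun d hd h0 => h0 g2) (
  .cons (fun d hd h0 => m1 h0) (
  .cons (fun d hd h0 => m2 h0) (
  .nil)))))))))))))))))))))))))))))))))))))))))))))))

/-- templates -/
def cb01_x : List Tm := [
  ⟨0, [], [], [.q true 2 8 10 9 11]⟩,
  ⟨1, [], [(0, 8), (0, 10), (0, 9), (0, 11)], [.b false 0 8 10, .b false 0 8 9, .b false 0 8 11, .b false 0 8 0, .b false 0 10 9, .b false 0 10 11, .b false 0 10 0, .b false 0 9 11, .b false 0 9 0, .b false 0 11 0, .q false 0 0 8 10 9, .q false 0 0 11 10 9, .q true 2 8 10 0 11, .q true 2 9 11 8 0]⟩,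
  ⟨1, [], [(0, 8), (0, 10), (0, 9), (0, 11)], [.b false 0 8 10, .b false 0 8 11, .b false 0 8 9, .b false 0 8 0, .b false 0 10 11, .b false 0 10 9, .b false 0 10 0, .b false 0 11 9, .b false 0 11 0, .b false 0 9 0, .q false 0 0 8 10 11, .q false 0 0 9 10 11, .q true 2 8 10 0 9, .q true 2 11 9 8 0]⟩,
  ⟨1, [], [(0, 8), (0, 10), (0, 9), (0, 11)], [.b false 0 10 8, .b false 0 10 9, .b false 0 10 11, .b false 0 10 0, .b false 0 8 9, .b false 0 8 11, .b false 0 8 0, .b false 0 9 11, .b false 0 9 0, .b false 0 11 0, .q false 0 0 10 8 9, .q false 0 0 11 8 9, .q true 2 10 8 0 11, .q true 2 9 11 10 0]⟩,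
  ⟨1, [], [(0, 8), (0, 10), (0, 9), (0, 11)], [.b false 0 10 8, .b false 0 10 11, .b false 0 10 9, .b false 0 10 0, .b false 0 8 11, .b false 0 8 9, .b false 0 8 0, .b false 0 11 9, .b false 0 11 0, .b false 0 9 0, .q false 0 0 10 8 11, .q false 0 0 9 8 11, .q true 2 10 8 0 9, .q true 2 11 9 10 0]⟩,
  ⟨0, [], [], [.q true 3 8 10 9 13]⟩,
  ⟨1, [], [(0, 8), (0, 9), (0, 10), (0, 13)], [.b false 0 8 9, .b false 0 8 10, .b false 0 8 13, .b false 0 8 0, .b false 0 9 10, .b false 0 9 13, .b false 0 9 0, .b false 0 10 13, .b false 0 10 0, .b false 0 13 0, .q false 0 0 8 9 10, .q false 0 0 13 9 10, .q true 2 8 9 0 13, .q true 2 10 13 8 0, .q false 2 8 9 10 13, .q true 0 8 10 9 13]⟩,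
  ⟨1, [], [(0, 8), (0, 9), (0, 10), (0, 13)], [.b false 0 8 9, .b false 0 8 13, .b false 0 8 10, .b false 0 8 0, .b false 0 9 13, .b false 0 9 10, .b false 0 9 0, .b false 0 13 10, .b false 0 13 0, .b false 0 10 0, .q false 0 0 8 9 13, .q false 0 0 10 9 13, .q true 2 8 9 0 10, .q true 2 13 10 8 0, .q false 2 8 9 10 13, .q true 0 8 10 9 13]⟩,
  ⟨1, [], [(0, 8), (0, 9), (0, 10), (0, 13)], [.b false 0 9 8, .b false 0 9 10, .b false 0 9 13, .b false 0 9 0, .b false 0 8 10, .b false 0 8 13, .b false 0 8 0, .b false 0 10 13, .b false 0 10 0, .b false 0 13 0, .q false 0 0 9 8 10, .q false 0 0 13 8 10, .q true 2 9 8 0 13, .q true 2 10 13 9 0, .q false 2 8 9 10 13, .q true 0 8 10 9 13]⟩,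
  ⟨1, [], [(0, 8), (0, 9), (0, 10), (0, 13)], [.b false 0 9 8, .b false 0 9 13, .b false 0 9 10, .b false 0 9 0, .b false 0 8 13, .b false 0 8 10, .b false 0 8 0, .b false 0 13 10, .b false 0 13 0, .b false 0 10 0, .q false 0 0 9 8 13, .q false 0 0 10 8 13, .q true 2 9 8 0 10, .q true 2 13 10 9 0, .q false 2 8 9 10 13, .q true 0 8 10 9 13]⟩,
  ⟨1, [], [(0, 8), (0, 13), (0, 10), (0, 9)], [.b false 0 8 13, .b false 0 8 10, .b false 0 8 9, .b false 0 8 0, .b false 0 13 10, .b false 0 13 9, .b false 0 13 0, .b false 0 10 9, .b false 0 10 0, .b false 0 9 0, .q false 0 0 8 13 10, .q false 0 0 9 13 10, .q true 2 8 13 0 9, .q true 2 10 9 8 0, .q false 2 8 13 10 9, .q true 0 8 10 9 13]⟩,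
  ⟨1, [], [(0, 8), (0, 13), (0, 10), (0, 9)], [.b false 0 8 13, .b false 0 8 9, .b false 0 8 10, .b false 0 8 0, .b false 0 13 9, .b false 0 13 10, .b false 0 13 0, .b false 0 9 10, .b false 0 9 0, .b false 0 10 0, .q false 0 0 8 13 9, .q false 0 0 10 13 9, .q true 2 8 13 0 10, .q true 2 9 10 8 0, .q false 2 8 13 10 9, .q true 0 8 10 9 13]⟩,
  ⟨1, [], [(0, 8), (0, 13), (0, 10), (0, 9)], [.b false 0 13 8, .b false 0 13 10, .b false 0 13 9, .b false 0 13 0, .b false 0 8 10, .b false 0 8 9, .b false 0 8 0, .b false 0 10 9, .b false 0 10 0, .b false 0 9 0, .q false 0 0 13 8 10, .q false 0 0 9 8 10, .q true 2 13 8 0 9, .q true 2 10 9 13 0, .q false 2 8 13 10 9, .q true 0 8 10 9 13]⟩,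
  ⟨1, [], [(0, 8), (0, 13), (0, 10), (0, 9)], [.b false 0 13 8, .b false 0 13 9, .b false 0 13 10, .b false 0 13 0, .b false 0 8 9, .b false 0 8 10, .b false 0 8 0, .b false 0 9 10, .b false 0 9 0, .b false 0 10 0, .q false 0 0 13 8 9, .q false 0 0 10 8 9, .q true 2 13 8 0 10, .q true 2 9 10 13 0, .q false 2 8 13 10 9, .q true 0 8 10 9 13]⟩,
  ⟨0, [], [], [.q true 3 8 12 9 11]⟩,
  ⟨1, [], [(0, 8), (0, 9), (0, 12), (0, 11)], [.b false 0 8 9, .b false 0 8 12, .b false 0 8 11, .b false 0 8 0, .b false 0 9 12, .b false 0 9 11, .b false 0 9 0, .b false 0 12 11, .b false 0 12 0, .b false 0 11 0, .q false 0 0 8 9 12, .q false 0 0 11 9 12, .q true 2 8 9 0 11, .q true 2 12 11 8 0, .q false 2 8 9 12 11, .q true 0 8 12 9 11]⟩,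
  ⟨1, [], [(0, 8), (0, 9), (0, 12), (0, 11)], [.b false 0 8 9, .b false 0 8 11, .b false 0 8 12, .b false 0 8 0, .b false 0 9 11, .b false 0 9 12, .b false 0 9 0, .b false 0 11 12, .b false 0 11 0, .b false 0 12 0, .q false 0 0 8 9 11, .q false 0 0 12 9 11, .q true 2 8 9 0 12, .q true 2 11 12 8 0, .q false 2 8 9 12 11, .q true 0 8 12 9 11]⟩,
  ⟨1, [], [(0, 8), (0, 9), (0, 12), (0, 11)], [.b false 0 9 8, .b false 0 9 12, .b false 0 9 11, .b false 0 9 0, .b false 0 8 12, .b false 0 8 11, .b false 0 8 0, .b false 0 12 11, .b false 0 12 0, .b false 0 11 0, .q false 0 0 9 8 12, .q false 0 0 11 8 12, .q true 2 9 8 0 11, .q true 2 12 11 9 0, .q false 2 8 9 12 11, .q true 0 8 12 9 11]⟩,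
  ⟨1, [], [(0, 8), (0, 9), (0, 12), (0, 11)], [.b false 0 9 8, .b false 0 9 11, .b false 0 9 12, .b false 0 9 0, .b false 0 8 11, .b false 0 8 12, .b false 0 8 0, .b false 0 11 12, .b false 0 11 0, .b false 0 12 0, .q false 0 0 9 8 11, .q false 0 0 12 8 11, .q true 2 9 8 0 12, .q true 2 11 12 9 0, .q false 2 8 9 12 11, .q true 0 8 12 9 11]⟩,
  ⟨1, [], [(0, 8), (0, 11), (0, 12), (0, 9)], [.b false 0 8 11, .b false 0 8 12, .b false 0 8 9, .b false 0 8 0, .b false 0 11 12, .b false 0 11 9, .b false 0 11 0, .b false 0 12 9, .b false 0 12 0, .b false 0 9 0, .q false 0 0 8 11 12, .q false 0 0 9 11 12, .q true 2 8 11 0 9, .q true 2 12 9 8 0, .q false 2 8 11 12 9, .q true 0 8 12 9 11]⟩,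
  ⟨1, [], [(0, 8), (0, 11), (0, 12), (0, 9)], [.b false 0 8 11, .b false 0 8 9, .b false 0 8 12, .b false 0 8 0, .b false 0 11 9, .b false 0 11 12, .b false 0 11 0, .b false 0 9 12, .b false 0 9 0, .b false 0 12 0, .q false 0 0 8 11 9, .q false 0 0 12 11 9, .q true 2 8 11 0 12, .q true 2 9 12 8 0, .q false 2 8 11 12 9, .q true 0 8 12 9 11]⟩,
  ⟨1, [], [(0, 8), (0, 11), (0, 12), (0, 9)], [.b false 0 11 8, .b false 0 11 12, .b false 0 11 9, .b false 0 11 0, .b false 0 8 12, .b false 0 8 9, .b false 0 8 0, .b false 0 12 9, .b false 0 12 0, .b false 0 9 0, .q false 0 0 11 8 12, .q false 0 0 9 8 12, .q true 2 11 8 0 9, .q true 2 12 9 11 0, .q false 2 8 11 12 9, .q true 0 8 12 9 11]⟩,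
  ⟨1, [], [(0, 8), (0, 11), (0, 12), (0, 9)], [.b false 0 11 8, .b false 0 11 9, .b false 0 11 12, .b false 0 11 0, .b false 0 8 9, .b false 0 8 12, .b false 0 8 0, .b false 0 9 12, .b false 0 9 0, .b false 0 12 0, .q false 0 0 11 8 9, .q false 0 0 12 8 9, .q true 2 11 8 0 12, .q true 2 9 12 11 0, .q false 2 8 11 12 9, .q true 0 8 12 9 11]⟩,
  ⟨0, [], [], [.q false 0 8 12 9 13]⟩,
  ⟨0, [], [], [.b false 0 8 9, .b false 0 8 10, .b false 0 8 11, .b false 0 8 12, .b false 0 9 10, .b false 0 9 11, .b false 0 9 12, .b false 0 10 11, .b false 0 10 12, .b false 0 11 12]⟩,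
  ⟨0, [], [], [.b false 0 8 9, .b false 0 8 10, .b false 0 8 11, .b false 0 8 13, .b false 0 9 10, .b false 0 9 11, .b false 0 9 13, .b false 0 10 11, .b false 0 10 13, .b false 0 11 13]⟩,
  ⟨0, [], [], [.b false 0 8 9, .b false 0 8 10, .b false 0 8 12, .b false 0 8 13, .b false 0 9 10, .b false 0 9 12, .b false 0 9 13, .b false 0 10 12, .b false 0 10 13, .b false 0 12 13]⟩,
  ⟨0, [], [], [.b false 0 8 9, .b false 0 8 11, .b false 0 8 12, .b false 0 8 13, .b false 0 9 11, .b false 0 9 12, .b false 0 9 13, .b false 0 11 12, .b false 0 11 13, .b false 0 12 13]⟩,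
  ⟨0, [], [], [.b false 0 8 10, .b false 0 8 11, .b false 0 8 12, .b false 0 8 13, .b false 0 10 11, .b false 0 10 12, .b false 0 10 13, .b false 0 11 12, .b false 0 11 13, .b false 0 12 13]⟩,
  ⟨0, [], [], [.b false 0 9 10, .b false 0 9 11, .b false 0 9 12, .b false 0 9 13, .b false 0 10 11, .b false 0 10 12, .b false 0 10 13, .b false 0 11 12, .b false 0 11 13, .b false 0 12 13]⟩,
  ⟨0, [], [], [.b true 0 8 9]⟩,
  ⟨0, [], [], [.b true 0 8 12]⟩,
  ⟨0, [], [], [.b true 0 8 13]⟩,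
  ⟨0, [], [], [.b true 0 8 14]⟩,
  ⟨0, [], [], [.b true 0 9 12]⟩,
  ⟨0, [], [], [.b true 0 9 13]⟩,
  ⟨0, [], [], [.b true 0 9 14]⟩,
  ⟨0, [], [], [.b true 0 12 13]⟩,
  ⟨0, [], [], [.b true 0 12 14]⟩,
  ⟨0, [], [], [.b true 0 13 14]⟩,
  ⟨0, [], [], [.q true 2 8 9 12 13]⟩,
  ⟨0, [], [], [.q true 0 14 8 9 13]⟩,
  ⟨0, [], [], [.q true 0 14 12 9 13]⟩,
  ⟨0, [], [], [.q false 2 8 9 14 12]⟩,
  ⟨0, [], [], [.q false 2 13 12 8 14]⟩]

def cb01_p0 : List Nat := [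
0x6240090000000810001000201,
0x2640090000000810006000201,
0x462090000000810004000201,
0x2604090000000810008000201,
0x62400b00000008107b4000201,
0xc87000000002000000006000000004000000008052e04de06cb06cf06dd06de06df06e00b8c0bec00050a,
0xa2401900000008b0966000201,
0x62801900000009d0832000201,
0xb300000000200000000600000000400000000806cb06cf06d706d806d906da000506,
0xb500000000200000000606cb06d206d306d406d706d806d906db000308,
0xb700000000200000000406cf06d206d306d506d706d806da06db000308,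
0xa8200b0000000d10a34000201,
0xa820010000000af000000018027c000301,
0xac20030000000d30cb8000201,
0x2ca0030000000d30b68000201,
0x8c0a2070000000af0000000d305c4000301,
0xac8200700000001800000001c0c50000301,
0xc82a00700000001a00000001e05c0000301,
0xca82030000000200ce0000201,
0x8ca2030000000200b78000201,
0xca80030000000240cdc000201,
0x8ca0030000000240b20000201,
0xc8a00b0000000240c8a000201,
0xca0820700000001a0000000260438000301,
0xa80c20700000001e0000000280b54000301,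
0xc280170000000320000000220000000cd0000000020000000bf0000000c50000000c30000000c90000000d70b57000a01,
0xca800f00000002a00000002e0000000cd0000000c10000000cb0000000c30000000d90cdf000801,
0x82061b00080620d006c08207000c86203006a2c80700c628007000c86003006a0c8070000000040000000c500000000200000001000000003200000002400000003000000002005cc0007001002,
0xc0860d000c8261b00a608c39006a2c8070008c6003006a0c8070000000380000000bf0000000040000000cd0000000360000000240000000200ceb05cc000d000d03,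
0x20a60d00a4206330026a402700000001600000003a00000003800c20a607000ac6203000ac600300286ca0700086ca07000ca86030000000c10000000040000000c700000008100000000e0000000cb0000000c50000000bf00000002600000002a0ceb0ce8001602,
0x6280a3300080a60d00a4206330026a4027000a86003000000016000c6a80700000003a000ca860100000003c0000000d10000000c10000000040000000cb00000008100000000e0000000c70000000c50000000bf00000002c0ceb06cf05cc001403,
0x28600300062800f00082600f006a2803d006a2803b00a86202f00a4206330026a40270008a06110008a06090000000160000000cb0000000c10000000c700000000e0000000810000000d10000000100000000bf0000000c500000000200000000400000009d06cf06d5001702,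
0x420a60500042a60d00040a60d00a02463300020a60d00a4206330026a40270000000080000000c70000000040000000c100000000e00000008106cf001206d9000d03,
0xc000c6400d00062c40d00a42c633000c2a60d00ca620070a864c079000ca041100008c611000000040000a2c407006c4a007000640a1b002c6a0070006a2003004c6a207000642a1b006c0a207000a6200300020a60d00a4206330026a40270006ac4090000000420000000c90000000c30000000080000000040000000060000000c70000000cf0000000d30000000c100000000e00000008100000001e00000003600000001c06cf001204ac04dc052c06e0002606,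
0x2c04110c864207700040c60d00000004400ac6400700082400f00420a60500640820700a826407000a6420100640ca07004a2803d000642a1b00064ca1b0a864c079000ca04110008a0411000000042000c46207000a6c207000a4620700ac0620700ac260070008620030006a2003000a6200300020860d00020a60d000a8461b00a86202f00a4206330026a402700862ca0700860ca0700008c61100864203b00680423b00048260900000004000000008100000009d0000000340000000080000000040000000c30000000bf0000000060000000020000000d10000000c70000000cf00000003600000000a00000001e0000000c50000000c10000000cb00000000e00000001000000002a000000026062006cf0012003d03,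
0xca860d000c8a61b00000004600000004000000003e000ca861900000003c0000000cb0000000cd0ceb06cf000902,
0xc8620d000ca860d000ca861900000003c0006c283900a62c8050000000380000000480000000c90000000c50000000cb0000000cd00000002000000003400000009d0ceb06da06e0000f03,
0xa8620d00026a827000c8a61b00c680a3d000ac061100000004a00c62a8070008ca6030000000380000000480000000c70000000c50000000d10000000cd0000000360000000280ceb06da001002,
0x6c2803100048c22708a460c6500c624027000c2840d00040c60d0002c041108c46026300082400f00a82400700640a807004a2803d000648a1b000ca04110008a041100ac6400700a84c20700240ca07000a2400f002a640070004ca203000ca4203000a2c61b00640a207004c6a207006c0a207000a2461b000a2061b006a0423b00a64203b0004a26090000a260900000004c00c60a8070008ca60300000003800680423300684023300840622300000004800000009d0000000360000000810000000c50000000060000000cd0000000080000000040000000c30000000340000000bf0000000020000000d10000000cb00000002800000001c00000008b0000000c100000000a0000000c70000000d300000002c0000000100ceb003f01,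
0xca861100000004e0012000201,
0xac861100000004e0018000201,
0xc0860d000c8620d00862c00500a62c805002608c3d000c0620d0000000380006c28390086c203900086c2110000000bf0000000040000000cd0000000520000000c90000000c500000003000000002000000003400000000200000009d0007001501,
0x4000000005406d5000201,
0xa806090000000560a4a000201,
0xa826090000000560a4e000201,
0xa806110000000560383000201,
0xa826110000000560387000201,
0x682a03b0000000580000000d10000000560972000401,
0x680a23b00000005a0000000d10000000560936000401,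
0x682a03d0000000560000000d100000005c02ab000401,
0x680a23d0000000560000000d100000005e026f000401,
0x14004a2603b004a26033000680409008420633008a6202f0000000c70000000c10000000cb0000000c50000000bf0000000810000000560000000d109ea032a000e02,
0x1200a6240230006a04090000000c70000000c100000005400000005000000008100000000e09f2000901,
0x6800000006a09ea000201,
0xa2600f0000000620000000640000000540000000020000000500000000c100000006c02a8000801,
0x62a00f0000000660000000600000000500000000020000000040000000c700000006c026c000801,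
0x2a600300000007000000006e000300]

def cb01_pf : List Nat := cb01_p0

theorem cb01_ref {V : Type} {S : SRel V} {p : Nat → V} (hp : ∀ i j, i < 7 → j < 7 → p i = p j → i = j)
    (hts : PHs S p 7 ((tO ++ (tB ++ (tR ++ (tF ++ tK)))) ++ cb01_x)) : False :=
  refuteS (k := 7) (n2 := 1) (n3 := 1) (n4 := 4) (o3 := 28) (o4 := 112) (M := 1736) ((tO ++ (tB ++ (tR ++ (tF ++ tK)))) ++ cb01_x) cb01_pf (by decide +kernel)
    (by decide +kernel) (by decide +kernel) (by decide +kernel) hp hts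

theorem cb01 {V : Type} {G : SimpleGraph V} {X W : V → V → V → V → Prop} (h : WF G X W) {a b x y x2 y2 t : V}
    (nd : [a, b, x, y, x2, y2, t].Nodup) (a1 : Pr G X W a x b y) (a2 : IF G X W a x b y2) (a3 : IF G X W a x2 b y) (nx : ¬ X a x2 b y2)
    (hk : K5F G [a, b, x, y, x2, y2]) (e : K5 G a b x2 y2 t) (hw : W a b x2 y2) (g1 : X t a b y2) (g2 : X t x2 b y2)
    (m1 : ¬ W a b t x2) (m2 : ¬ W y2 x2 a t) : False :=
  cb01_ref (S := (syW h).rel) (pt_inj (o := a) nd rfl) (PHs.app (UHs.phs ((tO_h h).app ((tB_h h).app ((tR_h h).app ((tF_h h).app (tK_h h))))) _ _) (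
  .cons (fun d hd h0 => h0 a1.1) (
  .cons (fun d hd m0 m1 m2 m3 h0 h1 h2 h3 h4 h5 h6 h7 h8 h9 h10 h11 h12 h13 => ((a1.2).1 (d 0) ⟨h0, h1, h2, h3, h4, h5, h6, h7, h8, h9⟩ h10 h11).elim h12 h13) (
  .cons (fun d hd m0 m1 m2 m3 h0 h1 h2 h3 h4 h5 h6 h7 h8 h9 h10 h11 h12 h13 => ((a1.2).2.1 (d 0) ⟨h0, h1, h2, h3, h4, h5, h6, h7, h8, h9⟩ h10 h11).elim h12 h13) (
  .cons (fun d hd m0 m1 m2 m3 h0 h1 h2 h3 h4 h5 h6 h7 h8 h9 h10 h11 h12 h13 => ((a1.2).2.2.1 (d 0) ⟨h0, h1, h2, h3, h4, h5, h6, h7, h8, h9⟩ h10 h11).elim h12 h13) (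
  .cons (fun d hd m0 m1 m2 m3 h0 h1 h2 h3 h4 h5 h6 h7 h8 h9 h10 h11 h12 h13 => ((a1.2).2.2.2 (d 0) ⟨h0, h1, h2, h3, h4, h5, h6, h7, h8, h9⟩ h10 h11).elim h12 h13) (
  .cons (fun d hd h0 => h0 a2.1) (
  .cons (fun d hd m0 m1 m2 m3 h0 h1 h2 h3 h4 h5 h6 h7 h8 h9 h10 h11 h12 h13 h14 h15 => ((a2.2.1 h14 h15).1 (d 0) ⟨h0, h1, h2, h3, h4, h5, h6, h7, h8, h9⟩ h10 h11).elim h12 h13) (
  .cons (fun d hd m0 m1 m2 m3 h0 h1 h2 h3 h4 h5 h6 h7 h8 h9 h10 h11 h12 h13 h14 h15 => ((a2.2.1 h14 h15).2.1 (d 0) ⟨h0, h1, h2, h3, h4, h5, h6, h7, h8, h9⟩ h10 h11).elim h12 h13) (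
  .cons (fun d hd m0 m1 m2 m3 h0 h1 h2 h3 h4 h5 h6 h7 h8 h9 h10 h11 h12 h13 h14 h15 => ((a2.2.1 h14 h15).2.2.1 (d 0) ⟨h0, h1, h2, h3, h4, h5, h6, h7, h8, h9⟩ h10 h11).elim h12 h13) (
  .cons (fun d hd m0 m1 m2 m3 h0 h1 h2 h3 h4 h5 h6 h7 h8 h9 h10 h11 h12 h13 h14 h15 => ((a2.2.1 h14 h15).2.2.2 (d 0) ⟨h0, h1, h2, h3, h4, h5, h6, h7, h8, h9⟩ h10 h11).elim h12 h13) (
  .cons (fun d hd m0 m1 m2 m3 h0 h1 h2 h3 h4 h5 h6 h7 h8 h9 h10 h11 h12 h13 h14 h15 => ((a2.2.2 h14 h15).1 (d 0) ⟨h0, h1, h2, h3, h4, h5, h6, h7, h8, h9⟩ h10 h11).elim h12 h13) (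
  .cons (fun d hd m0 m1 m2 m3 h0 h1 h2 h3 h4 h5 h6 h7 h8 h9 h10 h11 h12 h13 h14 h15 => ((a2.2.2 h14 h15).2.1 (d 0) ⟨h0, h1, h2, h3, h4, h5, h6, h7, h8, h9⟩ h10 h11).elim h12 h13) (
  .cons (fun d hd m0 m1 m2 m3 h0 h1 h2 h3 h4 h5 h6 h7 h8 h9 h10 h11 h12 h13 h14 h15 => ((a2.2.2 h14 h15).2.2.1 (d 0) ⟨h0, h1, h2, h3, h4, h5, h6, h7, h8, h9⟩ h10 h11).elim h12 h13) (
  .cons (fun d hd m0 m1 m2 m3 h0 h1 h2 h3 h4 h5 h6 h7 h8 h9 h10 h11 h12 h13 h14 h15 => ((a2.2.2 h14 h15).2.2.2 (d 0) ⟨h0, h1, h2, h3, h4, h5, h6, h7, h8, h9⟩ h10 h11).elim h12 h13) (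
  .cons (fun d hd h0 => h0 a3.1) (
  .cons (fun d hd m0 m1 m2 m3 h0 h1 h2 h3 h4 h5 h6 h7 h8 h9 h10 h11 h12 h13 h14 h15 => ((a3.2.1 h14 h15).1 (d 0) ⟨h0, h1, h2, h3, h4, h5, h6, h7, h8, h9⟩ h10 h11).elim h12 h13) (
  .cons (fun d hd m0 m1 m2 m3 h0 h1 h2 h3 h4 h5 h6 h7 h8 h9 h10 h11 h12 h13 h14 h15 => ((a3.2.1 h14 h15).2.1 (d 0) ⟨h0, h1, h2, h3, h4, h5, h6, h7, h8, h9⟩ h10 h11).elim h12 h13) (
  .cons (fun d hd m0 m1 m2 m3 h0 h1 h2 h3 h4 h5 h6 h7 h8 h9 h10 h11 h12 h13 h14 h15 => ((a3.2.1 h14 h15).2.2.1 (d 0) ⟨h0, h1, h2, h3, h4, h5, h6, h7, h8, h9⟩ h10 h11).elim h12 h13) (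
  .cons (fun d hd m0 m1 m2 m3 h0 h1 h2 h3 h4 h5 h6 h7 h8 h9 h10 h11 h12 h13 h14 h15 => ((a3.2.1 h14 h15).2.2.2 (d 0) ⟨h0, h1, h2, h3, h4, h5, h6, h7, h8, h9⟩ h10 h11).elim h12 h13) (
  .cons (fun d hd m0 m1 m2 m3 h0 h1 h2 h3 h4 h5 h6 h7 h8 h9 h10 h11 h12 h13 h14 h15 => ((a3.2.2 h14 h15).1 (d 0) ⟨h0, h1, h2, h3, h4, h5, h6, h7, h8, h9⟩ h10 h11).elim h12 h13) (
  .cons (fun d hd m0 m1 m2 m3 h0 h1 h2 h3 h4 h5 h6 h7 h8 h9 h10 h11 h12 h13 h14 h15 => ((a3.2.2 h14 h15).2.1 (d 0) ⟨h0, h1, h2, h3, h4, h5, h6, h7, h8, h9⟩ h10 h11).elim h12 h13) (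
  .cons (fun d hd m0 m1 m2 m3 h0 h1 h2 h3 h4 h5 h6 h7 h8 h9 h10 h11 h12 h13 h14 h15 => ((a3.2.2 h14 h15).2.2.1 (d 0) ⟨h0, h1, h2, h3, h4, h5, h6, h7, h8, h9⟩ h10 h11).elim h12 h13) (
  .cons (fun d hd m0 m1 m2 m3 h0 h1 h2 h3 h4 h5 h6 h7 h8 h9 h10 h11 h12 h13 h14 h15 => ((a3.2.2 h14 h15).2.2.2 (d 0) ⟨h0, h1, h2, h3, h4, h5, h6, h7, h8, h9⟩ h10 h11).elim h12 h13) (
  .cons (fun d hd h0 => nx h0) (
  .cons (fun d hd h0 h1 h2 h3 h4 h5 h6 h7 h8 h9 => hk a (by simp) b (by simp) x (by simp) y (by simp) x2 (by simp) ⟨h0, h1, h2, h3, h4, h5, h6, h7, h8, h9⟩) (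
  .cons (fun d hd h0 h1 h2 h3 h4 h5 h6 h7 h8 h9 => hk a (by simp) b (by simp) x (by simp) y (by simp) y2 (by simp) ⟨h0, h1, h2, h3, h4, h5, h6, h7, h8, h9⟩) (
  .cons (fun d hd h0 h1 h2 h3 h4 h5 h6 h7 h8 h9 => hk a (by simp) b (by simp) x (by simp) x2 (by simp) y2 (by simp) ⟨h0, h1, h2, h3, h4, h5, h6, h7, h8, h9⟩) (
  .cons (fun d hd h0 h1 h2 h3 h4 h5 h6 h7 h8 h9 => hk a (by simp) b (by simp) y (by simp) x2 (by simp) y2 (by simp) ⟨h0, h1, h2, h3, h4, h5, h6, h7, h8, h9⟩) (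
  .cons (fun d hd h0 h1 h2 h3 h4 h5 h6 h7 h8 h9 => hk a (by simp) x (by simp) y (by simp) x2 (by simp) y2 (by simp) ⟨h0, h1, h2, h3, h4, h5, h6, h7, h8, h9⟩) (
  .cons (fun d hd h0 h1 h2 h3 h4 h5 h6 h7 h8 h9 => hk b (by simp) x (by simp) y (by simp) x2 (by simp) y2 (by simp) ⟨h0, h1, h2, h3, h4, h5, h6, h7, h8, h9⟩) (
  .cons (fun d hd h0 => h0 e.1) (
  .cons (fun d hd h0 => h0 e.2.1) (
  .cons (fun d hd h0 => h0 e.2.2.1) (
  .cons (fun d hd h0 => h0 e.2.2.2.1) (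
  .cons (fun d hd h0 => h0 e.2.2.2.2.1) (
  .cons (fun d hd h0 => h0 e.2.2.2.2.2.1) (
  .cons (fun d hd h0 => h0 e.2.2.2.2.2.2.1) (
  .cons (fun d hd h0 => h0 e.2.2.2.2.2.2.2.1) (
  .cons (fun d hd h0 => h0 e.2.2.2.2.2.2.2.2.1) (
  .cons (fun d hd h0 => h0 e.2.2.2.2.2.2.2.2.2) (
  .cons (fun d hd h0 => h0 hw) (
  .cons (fun d hd h0 => h0 g1) (
  .cons (fun d hd h0 => h0 g2) (
  .cons (fun d hd h0 => m1 h0) (
  .cons (fun d hd h0 => m2 h0) (
  .nil)))))))))))))))))))))))))))))))))))))))))))))))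

/-- templates -/
def cb02_x : List Tm := [
  ⟨0, [], [], [.q true 2 8 10 9 11]⟩,
  ⟨1, [], [(0, 8), (0, 10), (0, 9), (0, 11)], [.b false 0 8 10, .b false 0 8 9, .b false 0 8 11, .b false 0 8 0, .b false 0 10 9, .b false 0 10 11, .b false 0 10 0, .b false 0 9 11, .b false 0 9 0, .b false 0 11 0, .q false 0 0 8 10 9, .q false 0 0 11 10 9, .q true 2 8 10 0 11, .q true 2 9 11 8 0]⟩,
  ⟨1, [], [(0, 8), (0, 10), (0, 9), (0, 11)], [.b false 0 8 10, .b false 0 8 11, .b false 0 8 9, .b false 0 8 0, .b false 0 10 11, .b false 0 10 9, .b false 0 10 0, .b false 0 11 9, .b false 0 11 0, .b false 0 9 0, .q false 0 0 8 10 11, .q false 0 0 9 10 11, .q true 2 8 10 0 9, .q true 2 11 9 8 0]⟩,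
  ⟨1, [], [(0, 8), (0, 10), (0, 9), (0, 11)], [.b false 0 10 8, .b false 0 10 9, .b false 0 10 11, .b false 0 10 0, .b false 0 8 9, .b false 0 8 11, .b false 0 8 0, .b false 0 9 11, .b false 0 9 0, .b false 0 11 0, .q false 0 0 10 8 9, .q false 0 0 11 8 9, .q true 2 10 8 0 11, .q true 2 9 11 10 0]⟩,
  ⟨1, [], [(0, 8), (0, 10), (0, 9), (0, 11)], [.b false 0 10 8, .b false 0 10 11, .b false 0 10 9, .b false 0 10 0, .b false 0 8 11, .b false 0 8 9, .b false 0 8 0, .b false 0 11 9, .b false 0 11 0, .b false 0 9 0, .q false 0 0 10 8 11, .q false 0 0 9 8 11, .q true 2 10 8 0 9, .q true 2 11 9 10 0]⟩,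
  ⟨0, [], [], [.q true 3 8 10 9 13]⟩,
  ⟨1, [], [(0, 8), (0, 9), (0, 10), (0, 13)], [.b false 0 8 9, .b false 0 8 10, .b false 0 8 13, .b false 0 8 0, .b false 0 9 10, .b false 0 9 13, .b false 0 9 0, .b false 0 10 13, .b false 0 10 0, .b false 0 13 0, .q false 0 0 8 9 10, .q false 0 0 13 9 10, .q true 2 8 9 0 13, .q true 2 10 13 8 0, .q false 2 8 9 10 13, .q true 0 8 10 9 13]⟩,
  ⟨1, [], [(0, 8), (0, 9), (0, 10), (0, 13)], [.b false 0 8 9, .b false 0 8 13, .b false 0 8 10, .b false 0 8 0, .b false 0 9 13, .b false 0 9 10, .b false 0 9 0, .b false 0 13 10, .b false 0 13 0, .b false 0 10 0, .q false 0 0 8 9 13, .q false 0 0 10 9 13, .q true 2 8 9 0 10, .q true 2 13 10 8 0, .q false 2 8 9 10 13, .q true 0 8 10 9 13]⟩,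
  ⟨1, [], [(0, 8), (0, 9), (0, 10), (0, 13)], [.b false 0 9 8, .b false 0 9 10, .b false 0 9 13, .b false 0 9 0, .b false 0 8 10, .b false 0 8 13, .b false 0 8 0, .b false 0 10 13, .b false 0 10 0, .b false 0 13 0, .q false 0 0 9 8 10, .q false 0 0 13 8 10, .q true 2 9 8 0 13, .q true 2 10 13 9 0, .q false 2 8 9 10 13, .q true 0 8 10 9 13]⟩,
  ⟨1, [], [(0, 8), (0, 9), (0, 10), (0, 13)], [.b false 0 9 8, .b false 0 9 13, .b false 0 9 10, .b false 0 9 0, .b false 0 8 13, .b false 0 8 10, .b false 0 8 0, .b false 0 13 10, .b false 0 13 0, .b false 0 10 0, .q false 0 0 9 8 13, .q false 0 0 10 8 13, .q true 2 9 8 0 10, .q true 2 13 10 9 0, .q false 2 8 9 10 13, .q true 0 8 10 9 13]⟩,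
  ⟨1, [], [(0, 8), (0, 13), (0, 10), (0, 9)], [.b false 0 8 13, .b false 0 8 10, .b false 0 8 9, .b false 0 8 0, .b false 0 13 10, .b false 0 13 9, .b false 0 13 0, .b false 0 10 9, .b false 0 10 0, .b false 0 9 0, .q false 0 0 8 13 10, .q false 0 0 9 13 10, .q true 2 8 13 0 9, .q true 2 10 9 8 0, .q false 2 8 13 10 9, .q true 0 8 10 9 13]⟩,
  ⟨1, [], [(0, 8), (0, 13), (0, 10), (0, 9)], [.b false 0 8 13, .b false 0 8 9, .b false 0 8 10, .b false 0 8 0, .b false 0 13 9, .b false 0 13 10, .b false 0 13 0, .b false 0 9 10, .b false 0 9 0, .b false 0 10 0, .q false 0 0 8 13 9, .q false 0 0 10 13 9, .q true 2 8 13 0 10, .q true 2 9 10 8 0, .q false 2 8 13 10 9, .q true 0 8 10 9 13]⟩,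
  ⟨1, [], [(0, 8), (0, 13), (0, 10), (0, 9)], [.b false 0 13 8, .b false 0 13 10, .b false 0 13 9, .b false 0 13 0, .b false 0 8 10, .b false 0 8 9, .b false 0 8 0, .b false 0 10 9, .b false 0 10 0, .b false 0 9 0, .q false 0 0 13 8 10, .q false 0 0 9 8 10, .q true 2 13 8 0 9, .q true 2 10 9 13 0, .q false 2 8 13 10 9, .q true 0 8 10 9 13]⟩,
  ⟨1, [], [(0, 8), (0, 13), (0, 10), (0, 9)], [.b false 0 13 8, .b false 0 13 9, .b false 0 13 10, .b false 0 13 0, .b false 0 8 9, .b false 0 8 10, .b false 0 8 0, .b false 0 9 10, .b false 0 9 0, .b false 0 10 0, .q false 0 0 13 8 9, .q false 0 0 10 8 9, .q true 2 13 8 0 10, .q true 2 9 10 13 0, .q false 2 8 13 10 9, .q true 0 8 10 9 13]⟩,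
  ⟨0, [], [], [.q true 3 8 12 9 11]⟩,
  ⟨1, [], [(0, 8), (0, 9), (0, 12), (0, 11)], [.b false 0 8 9, .b false 0 8 12, .b false 0 8 11, .b false 0 8 0, .b false 0 9 12, .b false 0 9 11, .b false 0 9 0, .b false 0 12 11, .b false 0 12 0, .b false 0 11 0, .q false 0 0 8 9 12, .q false 0 0 11 9 12, .q true 2 8 9 0 11, .q true 2 12 11 8 0, .q false 2 8 9 12 11, .q true 0 8 12 9 11]⟩,
  ⟨1, [], [(0, 8), (0, 9), (0, 12), (0, 11)], [.b false 0 8 9, .b false 0 8 11, .b false 0 8 12, .b false 0 8 0, .b false 0 9 11, .b false 0 9 12, .b false 0 9 0, .b false 0 11 12, .b false 0 11 0, .b false 0 12 0, .q false 0 0 8 9 11, .q false 0 0 12 9 11, .q true 2 8 9 0 12, .q true 2 11 12 8 0, .q false 2 8 9 12 11, .q true 0 8 12 9 11]⟩,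
  ⟨1, [], [(0, 8), (0, 9), (0, 12), (0, 11)], [.b false 0 9 8, .b false 0 9 12, .b false 0 9 11, .b false 0 9 0, .b false 0 8 12, .b false 0 8 11, .b false 0 8 0, .b false 0 12 11, .b false 0 12 0, .b false 0 11 0, .q false 0 0 9 8 12, .q false 0 0 11 8 12, .q true 2 9 8 0 11, .q true 2 12 11 9 0, .q false 2 8 9 12 11, .q true 0 8 12 9 11]⟩,
  ⟨1, [], [(0, 8), (0, 9), (0, 12), (0, 11)], [.b false 0 9 8, .b false 0 9 11, .b false 0 9 12, .b false 0 9 0, .b false 0 8 11, .b false 0 8 12, .b false 0 8 0, .b false 0 11 12, .b false 0 11 0, .b false 0 12 0, .q false 0 0 9 8 11, .q false 0 0 12 8 11, .q true 2 9 8 0 12, .q true 2 11 12 9 0, .q false 2 8 9 12 11, .q true 0 8 12 9 11]⟩,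
  ⟨1, [], [(0, 8), (0, 11), (0, 12), (0, 9)], [.b false 0 8 11, .b false 0 8 12, .b false 0 8 9, .b false 0 8 0, .b false 0 11 12, .b false 0 11 9, .b false 0 11 0, .b false 0 12 9, .b false 0 12 0, .b false 0 9 0, .q false 0 0 8 11 12, .q false 0 0 9 11 12, .q true 2 8 11 0 9, .q true 2 12 9 8 0, .q false 2 8 11 12 9, .q true 0 8 12 9 11]⟩,
  ⟨1, [], [(0, 8), (0, 11), (0, 12), (0, 9)], [.b false 0 8 11, .b false 0 8 9, .b false 0 8 12, .b false 0 8 0, .b false 0 11 9, .b false 0 11 12, .b false 0 11 0, .b false 0 9 12, .b false 0 9 0, .b false 0 12 0, .q false 0 0 8 11 9, .q false 0 0 12 11 9, .q true 2 8 11 0 12, .q true 2 9 12 8 0, .q false 2 8 11 12 9, .q true 0 8 12 9 11]⟩,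
  ⟨1, [], [(0, 8), (0, 11), (0, 12), (0, 9)], [.b false 0 11 8, .b false 0 11 12, .b false 0 11 9, .b false 0 11 0, .b false 0 8 12, .b false 0 8 9, .b false 0 8 0, .b false 0 12 9, .b false 0 12 0, .b false 0 9 0, .q false 0 0 11 8 12, .q false 0 0 9 8 12, .q true 2 11 8 0 9, .q true 2 12 9 11 0, .q false 2 8 11 12 9, .q true 0 8 12 9 11]⟩,
  ⟨1, [], [(0, 8), (0, 11), (0, 12), (0, 9)], [.b false 0 11 8, .b false 0 11 9, .b false 0 11 12, .b false 0 11 0, .b false 0 8 9, .b false 0 8 12, .b false 0 8 0, .b false 0 9 12, .b false 0 9 0, .b false 0 12 0, .q false 0 0 11 8 9, .q false 0 0 12 8 9, .q true 2 11 8 0 12, .q true 2 9 12 11 0, .q false 2 8 11 12 9, .q true 0 8 12 9 11]⟩,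
  ⟨0, [], [], [.q false 0 8 12 9 13]⟩,
  ⟨0, [], [], [.b false 0 8 9, .b false 0 8 10, .b false 0 8 11, .b false 0 8 12, .b false 0 9 10, .b false 0 9 11, .b false 0 9 12, .b false 0 10 11, .b false 0 10 12, .b false 0 11 12]⟩,
  ⟨0, [], [], [.b false 0 8 9, .b false 0 8 10, .b false 0 8 11, .b false 0 8 13, .b false 0 9 10, .b false 0 9 11, .b false 0 9 13, .b false 0 10 11, .b false 0 10 13, .b false 0 11 13]⟩,
  ⟨0, [], [], [.b false 0 8 9, .b false 0 8 10, .b false 0 8 12, .b false 0 8 13, .b false 0 9 10, .b false 0 9 12, .b false 0 9 13, .b false 0 10 12, .b false 0 10 13, .b false 0 12 13]⟩,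
  ⟨0, [], [], [.b false 0 8 9, .b false 0 8 11, .b false 0 8 12, .b false 0 8 13, .b false 0 9 11, .b false 0 9 12, .b false 0 9 13, .b false 0 11 12, .b false 0 11 13, .b false 0 12 13]⟩,
  ⟨0, [], [], [.b false 0 8 10, .b false 0 8 11, .b false 0 8 12, .b false 0 8 13, .b false 0 10 11, .b false 0 10 12, .b false 0 10 13, .b false 0 11 12, .b false 0 11 13, .b false 0 12 13]⟩,
  ⟨0, [], [], [.b false 0 9 10, .b false 0 9 11, .b false 0 9 12, .b false 0 9 13, .b false 0 10 11, .b false 0 10 12, .b false 0 10 13, .b false 0 11 12, .b false 0 11 13, .b false 0 12 13]⟩,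
  ⟨0, [], [], [.b true 0 8 9]⟩,
  ⟨0, [], [], [.b true 0 8 12]⟩,
  ⟨0, [], [], [.b true 0 8 13]⟩,
  ⟨0, [], [], [.b true 0 8 14]⟩,
  ⟨0, [], [], [.b true 0 9 12]⟩,
  ⟨0, [], [], [.b true 0 9 13]⟩,
  ⟨0, [], [], [.b true 0 9 14]⟩,
  ⟨0, [], [], [.b true 0 12 13]⟩,
  ⟨0, [], [], [.b true 0 12 14]⟩,
  ⟨0, [], [], [.b true 0 13 14]⟩,
  ⟨0, [], [], [.q true 2 8 9 12 13]⟩,
  ⟨0, [], [], [.q true 0 14 9 8 12]⟩,
  ⟨0, [], [], [.q true 0 14 13 8 12]⟩,
  ⟨0, [], [], [.q false 2 9 8 14 13]⟩,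
  ⟨0, [], [], [.q false 2 12 13 9 14]⟩]

def cb02_p0 : List Nat := [
0x6240090000000810001000201,
0x2640090000000810006000201,
0x462090000000810004000201,
0x2604090000000810008000201,
0x62400b00000008107b4000201,
0xc87000000002000000006000000004000000008052e04de06cb06cf06dd06de06df06e00b8c0bec00050a,
0xa2401900000008b0966000201,
0x62801900000009d0832000201,
0xb300000000200000000600000000400000000806cb06cf06d706d806d906da000506,
0xb500000000200000000606cb06d206d306d406d706d806d906db000308,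
0xb700000000200000000406cf06d206d306d506d706d806da06db000308,
0xa8200b0000000d10a34000201,
0xa820010000000af000000018027c000301,
0xc820030000000d30c50000201,
0x2c80030000000d30b00000201,
0xac280070000000af0000000d30614000301,
0x8ca200700000001800000001c0cb8000301,
0xca0820700000001a00000001e0618000301,
0xca80030000000200c88000201,
0xac80030000000200b20000201,
0xca800b0000000200cde000201,
0xca82030000000240c8c000201,
0xac82030000000240b78000201,
0xca820b0000000240ce2000201,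
0xc82a00700000001a00000002604a0000301,
0x8a2c00700000001e0000000280b14000301,
0xc2a00b0000000320b6a000201,
0xa2c00f0000000340000000360000000cf0000000020000000c10000000c90000000d70b17000801,
0xc8a20f00000003000000002c0000000cf0000000c50000000cb0000000c90000000d90c8f000801,
0x40a2833000a2840d008602433000486227000000014004c0a2310002ac4110000000d10000000c50000000060000000cb0000000810000000100000000c70000000c10000000bf00000008b0b1602c00503001103,
0xac6420590000c260900000008100000008b0b1600110018000403,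
0xac64204b000c6201700062c00b0006c200300460c207000c4620700ac24007002a6c40700c40a20700000003e00000008100000008b0000000c90000000c300000000400000000200000000a00000003405f80b160bd00011047e0bef04840500001208,
0xc84a20700000003c000c4a21300000002c0b160503000402,
0x6ca8233000a8620d0000000160008ac609000a8c6090000000c70000000c50000000c10000000cb0000000bf03840c8e05a20c36000a04,
0xca861b000a8c60d000c8a60f000ca8603000ac86030000000cf0000000cd0000000cb06220ce80c97056e06d5000805,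
0x4c6203000000040002a6c407000a2400f000c4a207000a42003000a4200f0ac642043006a02c3d00a60243d006a0423b00a64203b0002ac6110004a26110004a260900000008b0000000060000000020000000c10000000340000000c700000000e00000008105f80b16026e042a047e0bd00012001707,
0xc62a00500062a00f000a0c60d00c62a03b000ca620f0000000320000000c70000000040000000020000000c30000000cf0000000c906080cd30b1602aa04ae055e09370562045606da000c0a,
0xa42003002a64007000a4200f004c0a6070000000480ac642043000c0a60d00a26c02f00a64203b00a60243d0004a261100000000a0000000c10000000060000000c700000000e00000008100000008b0000000040000000cf05f80b16026e0012047e06e00456001407,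
0xc006c4200700c04622f00c04622300a206407000642a1b08a46c27900264a007000a2400f00ca420070004a2003000a42003000a4200f00a64203b00680a23b000a82609006a0423b0004a260900a60243d0004a26110000000c90000000c30000000810000000080000000c700000003a00000008b0000000060000000020000000c100000002200000000e0000000d10bcb0c6b000d001206e00af2052e026c06cb002109,
0xca400d08a46c2790a8642c6500c04622700000004e00ca0620700a62c00700a4c0633002a6c027000a6c00b00000004c00000004200680a23b000a826090026a402700a6c023d00682a03d000a806110000000c30000000c100000003a0000000810000000340000000380000000d100000000e060805f805fa0b160c6b000d001206e0001a08,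
0x4a200300042a00f000a4200f00000003e0ac6420450000c260900000005000a60243d00a64203d006a0423b00a64203b0004a26110004a260900680a23b000a8260900680a23d000a826110000000c700000000200000000e0000000c100000000600000008100000008b0000000d1060805f805fa0b160c6b000d0012001907,
0xca60900000004a000ca620f00000005200862ca3d00680a23d00860ca3d00862ac3d00682a03b000a8c611000a82611000a80609000a8c20f000a8c00f0020ac87f0000000c90000000c70000000d100000003a00000002a0000000280000000cf0000000bf0000000c10000000cd0000000320000000020000000c50000000cb0000000c300000001a00000003000000002e060805f80cd305fa0b160c9705c60c6b000d002109,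
0xc6a2839000a8620d0000000160008ac60900000004600000005400862ca0500c62a807000ac860300000003a0000000c70000000c50000000c10000000cb0000000bf00000002e00000002406220ce805f80cd305fa0b160c9705c60c6b001109,
0xca620d000000016000c8a60d0008c2611000c82611000ca860300862ca050000000c90000000c70000000c10000000cb0000000c50000000bf0000000cf0000000240ce8060a05ce05a3000f04,
0x6a0820700082061b00082a61b0000000c500000000400000001a000d06da0007000603,
0x20c60d006a02c33000c62003000c6a20b000a6c217006a0c20700c86a207008c2a607000a86201000ca860300862ca0500c62a807000ac86030000000c30000000040000000c90000000cf0000000c700000003200000002c00000002e0000000240ce8060a0b160b7706da06cf0348001607,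
0xc2a60700c6a207f0006a2003006c0a22d000a2600f0002a6017000c6a20f00860a207008c6a20700c82a6070006a820300000005c00000005a00682a03d00000005200682ca3d00862ac3d00680a23b000a80611000a82609000000046000000044000000056000c86219000000058000c8a619000ca860300862ca0500c62a807000ac8603000ca62190000000cf0000000c90000000c30000000c70000000c10000000040000000020000000d70000000af00000002c0000000d100000003a00000002e00000002406220ce805f80cd305fa0b160c97002d07,
0xca620d000000016000c8a6110008ca6110000000c90000000c70000000c10000000cb0000000c50000000bf0608060a05cf06da000a04,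
0x4c00a6c023d008c0a625006280a3500a42063500a62402d0002a06110000a26090000000600008ca61100000005e00862ca05000ca62190000000380000000d100000008100000008b00000002406220ce805f80cd305fa0b16001206,
0xa6400f00240a6070ca460265008a6420700062c01300086420300086200f008a6200700c8062070048062070006820030004a06090000a46090068a203100a42063500a62402d006a2803b0008a06090000000c100000000800000000400000008100000008b0000000380000000bf0000000c500000001000000001800000000a0000000d105a0037800120830001e04,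
0x4a200300042a00f000a4200f0ac6420790ac6420650000c2611000c0a60d008c0a607002a680070000000640026ca03900a60243d00a64203d006a0423b00a64203b00a42063500a62402d0004a26110000a26110004a26090000a260900a62c8070000000c700000000200000000e0000000c100000000600000008100000008b0000000380000000040000000cf0000000af00000002c05cc037805f30012002204,
0xc6a2839000a8620d00000005a00000003a0000000c70000000c5038406da0c6b0007000604,
0x640a20500064a20f000a2600f000a2400d08046a25900a06423900a460239000a26433004a26033000a42009000000012000a8261100680a23b000a826090000000160000000060000000c100000000200000000e0000000d100000008100000008b0000000c70000000bf0000000c50000000cb06da06cf032a06d9001a04,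
0x2a600300062a00f000a2600f00682a03b000a8060900680a23b000a8260900680a23d000a8261100682a03d000a806110000000160000000c70000000040000000020000000c10000000bf0000000c50000000cb0000000d106da06cf0322001403,
0x4a2603b0006a040900000008109ea0011000302,
0xa2400d00000001200000006e006a24007008a6400700086400b008420633008a6202f00000006c000000016000000068000000058000c8a61900000006000862ca0500c62a807000ac86030000000060000000020000000c100000000e0000000c700000000a0000000810000000d10000000cb0000000c50000000bf00000002e0000000240ce80374060a06da001e04,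
0x2a400300042a00f000a2400f0042ca033000ca0409000000062000ca200f00000006600a64203d006a0423b00a64203b0000a26110004a26090000a2609000000070000ca6219000ca860300840ca0500c40a80700c42a807000ac84030000000c700000000200000000e00000008b0000000060000000c10000000c30000000c900000003600000002200000008100000002e00000002800000002006220ce80ce40cd3002304,
0x842a00500042a00f00480a23d000a0840d0042a0833008a4202f008602433000486227000a824110000000140000000c50000000c10000000100000000810000000cb0000000bf0000000d100000000e0000000020000000c700000001a06d906cb001502,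
0xc862250ca460263000c8620d00000005a00000006a000ca400d0024c0a3900a62402300000007400000009d00000008100000008b0000000380000000c90000000c50000000c30000000c100000000e05a005f806da06e006d9001205,
0xc862250006a2c39000c8620d00000005a00000006c00000006e000000076000000070000ac2611000ca261100000007200c40a80700840ca05000ac840300a62c807000ca860300000009d0000000380000000c90000000c500000002800000002000000002c06220ce80ce4001703,
0x860243900840622500084200f00000006c004a2803b000a0241b00000006e00064ca1b004a0823b0008a24090008a040900000008100000009d0000000bf0000000060000000c50000000d10000000c10000000080000000cf0cd4092801ac0011001404,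
0xa2400d00000007400000007a00a20840700c40a20700c84a207004c2a00700c84a007000ca4203000ca400300486ca0700482ca0700480ca0700000007800000002000000002400000002600000003200000002c00000003400000000e0000000c100000000200000000606220ce8001802,
0xa2400d0000000740000000060000000020000000c100000000e029c06d9000602,
0x8a46c265008c46225000c4620d000c2061b008406225000a6200f00a42063d004a6203b0002ac4110006a041100000007e00640a2070004a6203000c4620700062a00b004a0620700c20a607006a0c20700c60a20700a62c007006c2a007000ac6203000ca6203000ac6003000ca600300682ca0700680ca0700000003a0000000080000000060000000c900000000400000008100000009d0000000c10000000c700000000e00000000a0000000320000000340000000240000000200620002a01,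
0xca860b0000000800cea000201,
0x7c000000082000000080000300]

def cb02_pf : List Nat := cb02_p0

theorem cb02_ref {V : Type} {S : SRel V} {p : Nat → V} (hp : ∀ i j, i < 7 → j < 7 → p i = p j → i = j)
    (hts : PHs S p 7 ((tO ++ (tB ++ (tR ++ (tF ++ tK)))) ++ cb02_x)) : False :=
  refuteS (k := 7) (n2 := 1) (n3 := 1) (n4 := 4) (o3 := 28) (o4 := 112) (M := 1736) ((tO ++ (tB ++ (tR ++ (tF ++ tK)))) ++ cb02_x) cb02_pf (by decide +kernel)
    (by decide +kernel) (by decide +kernel) (by decide +kernel) hp hts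

theorem cb02 {V : Type} {G : SimpleGraph V} {X W : V → V → V → V → Prop} (h : WF G X W) {a b x y x2 y2 t : V}
    (nd : [a, b, x, y, x2, y2, t].Nodup) (a1 : Pr G X W a x b y) (a2 : IF G X W a x b y2) (a3 : IF G X W a x2 b y) (nx : ¬ X a x2 b y2)
    (hk : K5F G [a, b, x, y, x2, y2]) (e : K5 G a b x2 y2 t) (hw : W a b x2 y2) (g1 : X t b a x2) (g2 : X t y2 a x2)
    (m1 : ¬ W b a t y2) (m2 : ¬ W x2 y2 b t) : False :=
  cb02_ref (S := (syW h).rel) (pt_inj (o := a) nd rfl) (PHs.app (UHs.phs ((tO_h h).app ((tB_h h).app ((tR_h h).app ((tF_h h).app (tK_h h))))) _ _) (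
  .cons (fun d hd h0 => h0 a1.1) (
  .cons (fun d hd m0 m1 m2 m3 h0 h1 h2 h3 h4 h5 h6 h7 h8 h9 h10 h11 h12 h13 => ((a1.2).1 (d 0) ⟨h0, h1, h2, h3, h4, h5, h6, h7, h8, h9⟩ h10 h11).elim h12 h13) (
  .cons (fun d hd m0 m1 m2 m3 h0 h1 h2 h3 h4 h5 h6 h7 h8 h9 h10 h11 h12 h13 => ((a1.2).2.1 (d 0) ⟨h0, h1, h2, h3, h4, h5, h6, h7, h8, h9⟩ h10 h11).elim h12 h13) (
  .cons (fun d hd m0 m1 m2 m3 h0 h1 h2 h3 h4 h5 h6 h7 h8 h9 h10 h11 h12 h13 => ((a1.2).2.2.1 (d 0) ⟨h0, h1, h2, h3, h4, h5, h6, h7, h8, h9⟩ h10 h11).elim h12 h13) (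
  .cons (fun d hd m0 m1 m2 m3 h0 h1 h2 h3 h4 h5 h6 h7 h8 h9 h10 h11 h12 h13 => ((a1.2).2.2.2 (d 0) ⟨h0, h1, h2, h3, h4, h5, h6, h7, h8, h9⟩ h10 h11).elim h12 h13) (
  .cons (fun d hd h0 => h0 a2.1) (
  .cons (fun d hd m0 m1 m2 m3 h0 h1 h2 h3 h4 h5 h6 h7 h8 h9 h10 h11 h12 h13 h14 h15 => ((a2.2.1 h14 h15).1 (d 0) ⟨h0, h1, h2, h3, h4, h5, h6, h7, h8, h9⟩ h10 h11).elim h12 h13) (
  .cons (fun d hd m0 m1 m2 m3 h0 h1 h2 h3 h4 h5 h6 h7 h8 h9 h10 h11 h12 h13 h14 h15 => ((a2.2.1 h14 h15).2.1 (d 0) ⟨h0, h1, h2, h3, h4, h5, h6, h7, h8, h9⟩ h10 h11).elim h12 h13) (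
  .cons (fun d hd m0 m1 m2 m3 h0 h1 h2 h3 h4 h5 h6 h7 h8 h9 h10 h11 h12 h13 h14 h15 => ((a2.2.1 h14 h15).2.2.1 (d 0) ⟨h0, h1, h2, h3, h4, h5, h6, h7, h8, h9⟩ h10 h11).elim h12 h13) (
  .cons (fun d hd m0 m1 m2 m3 h0 h1 h2 h3 h4 h5 h6 h7 h8 h9 h10 h11 h12 h13 h14 h15 => ((a2.2.1 h14 h15).2.2.2 (d 0) ⟨h0, h1, h2, h3, h4, h5, h6, h7, h8, h9⟩ h10 h11).elim h12 h13) (
  .cons (fun d hd m0 m1 m2 m3 h0 h1 h2 h3 h4 h5 h6 h7 h8 h9 h10 h11 h12 h13 h14 h15 => ((a2.2.2 h14 h15).1 (d 0) ⟨h0, h1, h2, h3, h4, h5, h6, h7, h8, h9⟩ h10 h11).elim h12 h13) (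
  .cons (fun d hd m0 m1 m2 m3 h0 h1 h2 h3 h4 h5 h6 h7 h8 h9 h10 h11 h12 h13 h14 h15 => ((a2.2.2 h14 h15).2.1 (d 0) ⟨h0, h1, h2, h3, h4, h5, h6, h7, h8, h9⟩ h10 h11).elim h12 h13) (
  .cons (fun d hd m0 m1 m2 m3 h0 h1 h2 h3 h4 h5 h6 h7 h8 h9 h10 h11 h12 h13 h14 h15 => ((a2.2.2 h14 h15).2.2.1 (d 0) ⟨h0, h1, h2, h3, h4, h5, h6, h7, h8, h9⟩ h10 h11).elim h12 h13) (
  .cons (fun d hd m0 m1 m2 m3 h0 h1 h2 h3 h4 h5 h6 h7 h8 h9 h10 h11 h12 h13 h14 h15 => ((a2.2.2 h14 h15).2.2.2 (d 0) ⟨h0, h1, h2, h3, h4, h5, h6, h7, h8, h9⟩ h10 h11).elim h12 h13) (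
  .cons (fun d hd h0 => h0 a3.1) (
  .cons (fun d hd m0 m1 m2 m3 h0 h1 h2 h3 h4 h5 h6 h7 h8 h9 h10 h11 h12 h13 h14 h15 => ((a3.2.1 h14 h15).1 (d 0) ⟨h0, h1, h2, h3, h4, h5, h6, h7, h8, h9⟩ h10 h11).elim h12 h13) (
  .cons (fun d hd m0 m1 m2 m3 h0 h1 h2 h3 h4 h5 h6 h7 h8 h9 h10 h11 h12 h13 h14 h15 => ((a3.2.1 h14 h15).2.1 (d 0) ⟨h0, h1, h2, h3, h4, h5, h6, h7, h8, h9⟩ h10 h11).elim h12 h13) (
  .cons (fun d hd m0 m1 m2 m3 h0 h1 h2 h3 h4 h5 h6 h7 h8 h9 h10 h11 h12 h13 h14 h15 => ((a3.2.1 h14 h15).2.2.1 (d 0) ⟨h0, h1, h2, h3, h4, h5, h6, h7, h8, h9⟩ h10 h11).elim h12 h13) (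
  .cons (fun d hd m0 m1 m2 m3 h0 h1 h2 h3 h4 h5 h6 h7 h8 h9 h10 h11 h12 h13 h14 h15 => ((a3.2.1 h14 h15).2.2.2 (d 0) ⟨h0, h1, h2, h3, h4, h5, h6, h7, h8, h9⟩ h10 h11).elim h12 h13) (
  .cons (fun d hd m0 m1 m2 m3 h0 h1 h2 h3 h4 h5 h6 h7 h8 h9 h10 h11 h12 h13 h14 h15 => ((a3.2.2 h14 h15).1 (d 0) ⟨h0, h1, h2, h3, h4, h5, h6, h7, h8, h9⟩ h10 h11).elim h12 h13) (
  .cons (fun d hd m0 m1 m2 m3 h0 h1 h2 h3 h4 h5 h6 h7 h8 h9 h10 h11 h12 h13 h14 h15 => ((a3.2.2 h14 h15).2.1 (d 0) ⟨h0, h1, h2, h3, h4, h5, h6, h7, h8, h9⟩ h10 h11).elim h12 h13) (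
  .cons (fun d hd m0 m1 m2 m3 h0 h1 h2 h3 h4 h5 h6 h7 h8 h9 h10 h11 h12 h13 h14 h15 => ((a3.2.2 h14 h15).2.2.1 (d 0) ⟨h0, h1, h2, h3, h4, h5, h6, h7, h8, h9⟩ h10 h11).elim h12 h13) (
  .cons (fun d hd m0 m1 m2 m3 h0 h1 h2 h3 h4 h5 h6 h7 h8 h9 h10 h11 h12 h13 h14 h15 => ((a3.2.2 h14 h15).2.2.2 (d 0) ⟨h0, h1, h2, h3, h4, h5, h6, h7, h8, h9⟩ h10 h11).elim h12 h13) (
  .cons (fun d hd h0 => nx h0) (
  .cons (fun d hd h0 h1 h2 h3 h4 h5 h6 h7 h8 h9 => hk a (by simp) b (by simp) x (by simp) y (by simp) x2 (by simp) ⟨h0, h1, h2, h3, h4, h5, h6, h7, h8, h9⟩) (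
  .cons (fun d hd h0 h1 h2 h3 h4 h5 h6 h7 h8 h9 => hk a (by simp) b (by simp) x (by simp) y (by simp) y2 (by simp) ⟨h0, h1, h2, h3, h4, h5, h6, h7, h8, h9⟩) (
  .cons (fun d hd h0 h1 h2 h3 h4 h5 h6 h7 h8 h9 => hk a (by simp) b (by simp) x (by simp) x2 (by simp) y2 (by simp) ⟨h0, h1, h2, h3, h4, h5, h6, h7, h8, h9⟩) (
  .cons (fun d hd h0 h1 h2 h3 h4 h5 h6 h7 h8 h9 => hk a (by simp) b (by simp) y (by simp) x2 (by simp) y2 (by simp) ⟨h0, h1, h2, h3, h4, h5, h6, h7, h8, h9⟩) (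
  .cons (fun d hd h0 h1 h2 h3 h4 h5 h6 h7 h8 h9 => hk a (by simp) x (by simp) y (by simp) x2 (by simp) y2 (by simp) ⟨h0, h1, h2, h3, h4, h5, h6, h7, h8, h9⟩) (
  .cons (fun d hd h0 h1 h2 h3 h4 h5 h6 h7 h8 h9 => hk b (by simp) x (by simp) y (by simp) x2 (by simp) y2 (by simp) ⟨h0, h1, h2, h3, h4, h5, h6, h7, h8, h9⟩) (
  .cons (fun d hd h0 => h0 e.1) (
  .cons (fun d hd h0 => h0 e.2.1) (
  .cons (fun d hd h0 => h0 e.2.2.1) (
  .cons (fun d hd h0 => h0 e.2.2.2.1) (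
  .cons (fun d hd h0 => h0 e.2.2.2.2.1) (
  .cons (fun d hd h0 => h0 e.2.2.2.2.2.1) (
  .cons (fun d hd h0 => h0 e.2.2.2.2.2.2.1) (
  .cons (fun d hd h0 => h0 e.2.2.2.2.2.2.2.1) (
  .cons (fun d hd h0 => h0 e.2.2.2.2.2.2.2.2.1) (
  .cons (fun d hd h0 => h0 e.2.2.2.2.2.2.2.2.2) (
  .cons (fun d hd h0 => h0 hw) (
  .cons (fun d hd h0 => h0 g1) (
  .cons (fun d hd h0 => h0 g2) (
  .cons (fun d hd h0 => m1 h0) (
  .cons (fun d hd h0 => m2 h0) (
  .nil)))))))))))))))))))))))))))))))))))))))))))))))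

/-- templates -/
def cb03_x : List Tm := [
  ⟨0, [], [], [.q true 2 8 10 9 11]⟩,
  ⟨1, [], [(0, 8), (0, 10), (0, 9), (0, 11)], [.b false 0 8 10, .b false 0 8 9, .b false 0 8 11, .b false 0 8 0, .b false 0 10 9, .b false 0 10 11, .b false 0 10 0, .b false 0 9 11, .b false 0 9 0, .b false 0 11 0, .q false 0 0 8 10 9, .q false 0 0 11 10 9, .q true 2 8 10 0 11, .q true 2 9 11 8 0]⟩,
  ⟨1, [], [(0, 8), (0, 10), (0, 9), (0, 11)], [.b false 0 8 10, .b false 0 8 11, .b false 0 8 9, .b false 0 8 0, .b false 0 10 11, .b false 0 10 9, .b false 0 10 0, .b false 0 11 9, .b false 0 11 0, .b false 0 9 0, .q false 0 0 8 10 11, .q false 0 0 9 10 11, .q true 2 8 10 0 9, .q true 2 11 9 8 0]⟩,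
  ⟨1, [], [(0, 8), (0, 10), (0, 9), (0, 11)], [.b false 0 10 8, .b false 0 10 9, .b false 0 10 11, .b false 0 10 0, .b false 0 8 9, .b false 0 8 11, .b false 0 8 0, .b false 0 9 11, .b false 0 9 0, .b false 0 11 0, .q false 0 0 10 8 9, .q false 0 0 11 8 9, .q true 2 10 8 0 11, .q true 2 9 11 10 0]⟩,
  ⟨1, [], [(0, 8), (0, 10), (0, 9), (0, 11)], [.b false 0 10 8, .b false 0 10 11, .b false 0 10 9, .b false 0 10 0, .b false 0 8 11, .b false 0 8 9, .b false 0 8 0, .b false 0 11 9, .b false 0 11 0, .b false 0 9 0, .q false 0 0 10 8 11, .q false 0 0 9 8 11, .q true 2 10 8 0 9, .q true 2 11 9 10 0]⟩,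
  ⟨0, [], [], [.q true 3 8 10 9 13]⟩,
  ⟨1, [], [(0, 8), (0, 9), (0, 10), (0, 13)], [.b false 0 8 9, .b false 0 8 10, .b false 0 8 13, .b false 0 8 0, .b false 0 9 10, .b false 0 9 13, .b false 0 9 0, .b false 0 10 13, .b false 0 10 0, .b false 0 13 0, .q false 0 0 8 9 10, .q false 0 0 13 9 10, .q true 2 8 9 0 13, .q true 2 10 13 8 0, .q false 2 8 9 10 13, .q true 0 8 10 9 13]⟩,
  ⟨1, [], [(0, 8), (0, 9), (0, 10), (0, 13)], [.b false 0 8 9, .b false 0 8 13, .b false 0 8 10, .b false 0 8 0, .b false 0 9 13, .b false 0 9 10, .b false 0 9 0, .b false 0 13 10, .b false 0 13 0, .b false 0 10 0, .q false 0 0 8 9 13, .q false 0 0 10 9 13, .q true 2 8 9 0 10, .q true 2 13 10 8 0, .q false 2 8 9 10 13, .q true 0 8 10 9 13]⟩,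
  ⟨1, [], [(0, 8), (0, 9), (0, 10), (0, 13)], [.b false 0 9 8, .b false 0 9 10, .b false 0 9 13, .b false 0 9 0, .b false 0 8 10, .b false 0 8 13, .b false 0 8 0, .b false 0 10 13, .b false 0 10 0, .b false 0 13 0, .q false 0 0 9 8 10, .q false 0 0 13 8 10, .q true 2 9 8 0 13, .q true 2 10 13 9 0, .q false 2 8 9 10 13, .q true 0 8 10 9 13]⟩,
  ⟨1, [], [(0, 8), (0, 9), (0, 10), (0, 13)], [.b false 0 9 8, .b false 0 9 13, .b false 0 9 10, .b false 0 9 0, .b false 0 8 13, .b false 0 8 10, .b false 0 8 0, .b false 0 13 10, .b false 0 13 0, .b false 0 10 0, .q false 0 0 9 8 13, .q false 0 0 10 8 13, .q true 2 9 8 0 10, .q true 2 13 10 9 0, .q false 2 8 9 10 13, .q true 0 8 10 9 13]⟩,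
  ⟨1, [], [(0, 8), (0, 13), (0, 10), (0, 9)], [.b false 0 8 13, .b false 0 8 10, .b false 0 8 9, .b false 0 8 0, .b false 0 13 10, .b false 0 13 9, .b false 0 13 0, .b false 0 10 9, .b false 0 10 0, .b false 0 9 0, .q false 0 0 8 13 10, .q false 0 0 9 13 10, .q true 2 8 13 0 9, .q true 2 10 9 8 0, .q false 2 8 13 10 9, .q true 0 8 10 9 13]⟩,
  ⟨1, [], [(0, 8), (0, 13), (0, 10), (0, 9)], [.b false 0 8 13, .b false 0 8 9, .b false 0 8 10, .b false 0 8 0, .b false 0 13 9, .b false 0 13 10, .b false 0 13 0, .b false 0 9 10, .b false 0 9 0, .b false 0 10 0, .q false 0 0 8 13 9, .q false 0 0 10 13 9, .q true 2 8 13 0 10, .q true 2 9 10 8 0, .q false 2 8 13 10 9, .q true 0 8 10 9 13]⟩,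
  ⟨1, [], [(0, 8), (0, 13), (0, 10), (0, 9)], [.b false 0 13 8, .b false 0 13 10, .b false 0 13 9, .b false 0 13 0, .b false 0 8 10, .b false 0 8 9, .b false 0 8 0, .b false 0 10 9, .b false 0 10 0, .b false 0 9 0, .q false 0 0 13 8 10, .q false 0 0 9 8 10, .q true 2 13 8 0 9, .q true 2 10 9 13 0, .q false 2 8 13 10 9, .q true 0 8 10 9 13]⟩,
  ⟨1, [], [(0, 8), (0, 13), (0, 10), (0, 9)], [.b false 0 13 8, .b false 0 13 9, .b false 0 13 10, .b false 0 13 0, .b false 0 8 9, .b false 0 8 10, .b false 0 8 0, .b false 0 9 10, .b false 0 9 0, .b false 0 10 0, .q false 0 0 13 8 9, .q false 0 0 10 8 9, .q true 2 13 8 0 10, .q true 2 9 10 13 0, .q false 2 8 13 10 9, .q true 0 8 10 9 13]⟩,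
  ⟨0, [], [], [.q true 3 8 12 9 11]⟩,
  ⟨1, [], [(0, 8), (0, 9), (0, 12), (0, 11)], [.b false 0 8 9, .b false 0 8 12, .b false 0 8 11, .b false 0 8 0, .b false 0 9 12, .b false 0 9 11, .b false 0 9 0, .b false 0 12 11, .b false 0 12 0, .b false 0 11 0, .q false 0 0 8 9 12, .q false 0 0 11 9 12, .q true 2 8 9 0 11, .q true 2 12 11 8 0, .q false 2 8 9 12 11, .q true 0 8 12 9 11]⟩,
  ⟨1, [], [(0, 8), (0, 9), (0, 12), (0, 11)], [.b false 0 8 9, .b false 0 8 11, .b false 0 8 12, .b false 0 8 0, .b false 0 9 11, .b false 0 9 12, .b false 0 9 0, .b false 0 11 12, .b false 0 11 0, .b false 0 12 0, .q false 0 0 8 9 11, .q false 0 0 12 9 11, .q true 2 8 9 0 12, .q true 2 11 12 8 0, .q false 2 8 9 12 11, .q true 0 8 12 9 11]⟩,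
  ⟨1, [], [(0, 8), (0, 9), (0, 12), (0, 11)], [.b false 0 9 8, .b false 0 9 12, .b false 0 9 11, .b false 0 9 0, .b false 0 8 12, .b false 0 8 11, .b false 0 8 0, .b false 0 12 11, .b false 0 12 0, .b false 0 11 0, .q false 0 0 9 8 12, .q false 0 0 11 8 12, .q true 2 9 8 0 11, .q true 2 12 11 9 0, .q false 2 8 9 12 11, .q true 0 8 12 9 11]⟩,
  ⟨1, [], [(0, 8), (0, 9), (0, 12), (0, 11)], [.b false 0 9 8, .b false 0 9 11, .b false 0 9 12, .b false 0 9 0, .b false 0 8 11, .b false 0 8 12, .b false 0 8 0, .b false 0 11 12, .b false 0 11 0, .b false 0 12 0, .q false 0 0 9 8 11, .q false 0 0 12 8 11, .q true 2 9 8 0 12, .q true 2 11 12 9 0, .q false 2 8 9 12 11, .q true 0 8 12 9 11]⟩,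
  ⟨1, [], [(0, 8), (0, 11), (0, 12), (0, 9)], [.b false 0 8 11, .b false 0 8 12, .b false 0 8 9, .b false 0 8 0, .b false 0 11 12, .b false 0 11 9, .b false 0 11 0, .b false 0 12 9, .b false 0 12 0, .b false 0 9 0, .q false 0 0 8 11 12, .q false 0 0 9 11 12, .q true 2 8 11 0 9, .q true 2 12 9 8 0, .q false 2 8 11 12 9, .q true 0 8 12 9 11]⟩,
  ⟨1, [], [(0, 8), (0, 11), (0, 12), (0, 9)], [.b false 0 8 11, .b false 0 8 9, .b false 0 8 12, .b false 0 8 0, .b false 0 11 9, .b false 0 11 12, .b false 0 11 0, .b false 0 9 12, .b false 0 9 0, .b false 0 12 0, .q false 0 0 8 11 9, .q false 0 0 12 11 9, .q true 2 8 11 0 12, .q true 2 9 12 8 0, .q false 2 8 11 12 9, .q true 0 8 12 9 11]⟩,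
  ⟨1, [], [(0, 8), (0, 11), (0, 12), (0, 9)], [.b false 0 11 8, .b false 0 11 12, .b false 0 11 9, .b false 0 11 0, .b false 0 8 12, .b false 0 8 9, .b false 0 8 0, .b false 0 12 9, .b false 0 12 0, .b false 0 9 0, .q false 0 0 11 8 12, .q false 0 0 9 8 12, .q true 2 11 8 0 9, .q true 2 12 9 11 0, .q false 2 8 11 12 9, .q true 0 8 12 9 11]⟩,
  ⟨1, [], [(0, 8), (0, 11), (0, 12), (0, 9)], [.b false 0 11 8, .b false 0 11 9, .b false 0 11 12, .b false 0 11 0, .b false 0 8 9, .b false 0 8 12, .b false 0 8 0, .b false 0 9 12, .b false 0 9 0, .b false 0 12 0, .q false 0 0 11 8 9, .q false 0 0 12 8 9, .q true 2 11 8 0 12, .q true 2 9 12 11 0, .q false 2 8 11 12 9, .q true 0 8 12 9 11]⟩,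
  ⟨0, [], [], [.q false 0 8 12 9 13]⟩,
  ⟨0, [], [], [.b false 0 8 9, .b false 0 8 10, .b false 0 8 11, .b false 0 8 12, .b false 0 9 10, .b false 0 9 11, .b false 0 9 12, .b false 0 10 11, .b false 0 10 12, .b false 0 11 12]⟩,
  ⟨0, [], [], [.b false 0 8 9, .b false 0 8 10, .b false 0 8 11, .b false 0 8 13, .b false 0 9 10, .b false 0 9 11, .b false 0 9 13, .b false 0 10 11, .b false 0 10 13, .b false 0 11 13]⟩,
  ⟨0, [], [], [.b false 0 8 9, .b false 0 8 10, .b false 0 8 12, .b false 0 8 13, .b false 0 9 10, .b false 0 9 12, .b false 0 9 13, .b false 0 10 12, .b false 0 10 13, .b false 0 12 13]⟩,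
  ⟨0, [], [], [.b false 0 8 9, .b false 0 8 11, .b false 0 8 12, .b false 0 8 13, .b false 0 9 11, .b false 0 9 12, .b false 0 9 13, .b false 0 11 12, .b false 0 11 13, .b false 0 12 13]⟩,
  ⟨0, [], [], [.b false 0 8 10, .b false 0 8 11, .b false 0 8 12, .b false 0 8 13, .b false 0 10 11, .b false 0 10 12, .b false 0 10 13, .b false 0 11 12, .b false 0 11 13, .b false 0 12 13]⟩,
  ⟨0, [], [], [.b false 0 9 10, .b false 0 9 11, .b false 0 9 12, .b false 0 9 13, .b false 0 10 11, .b false 0 10 12, .b false 0 10 13, .b false 0 11 12, .b false 0 11 13, .b false 0 12 13]⟩,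
  ⟨0, [], [], [.b true 0 8 9]⟩,
  ⟨0, [], [], [.b true 0 8 12]⟩,
  ⟨0, [], [], [.b true 0 8 13]⟩,
  ⟨0, [], [], [.b true 0 8 14]⟩,
  ⟨0, [], [], [.b true 0 9 12]⟩,
  ⟨0, [], [], [.b true 0 9 13]⟩,
  ⟨0, [], [], [.b true 0 9 14]⟩,
  ⟨0, [], [], [.b true 0 12 13]⟩,
  ⟨0, [], [], [.b true 0 12 14]⟩,
  ⟨0, [], [], [.b true 0 13 14]⟩,
  ⟨0, [], [], [.q true 2 8 9 12 13]⟩,
  ⟨0, [], [], [.q true 0 14 9 8 13]⟩,
  ⟨0, [], [], [.q true 0 14 12 8 13]⟩,
  ⟨0, [], [], [.q false 2 9 8 14 12]⟩,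
  ⟨0, [], [], [.q false 2 13 12 9 14]⟩]

def cb03_p0 : List Nat := [
0xa8200b0000000d10a34000201,
0xa820010000000af000000002027c000301,
0xc82a0050000000040000000d30c88000301,
0xd5000000006000200]

def cb03_pf : List Nat := cb03_p0

theorem cb03_ref {V : Type} {S : SRel V} {p : Nat → V} (hp : ∀ i j, i < 7 → j < 7 → p i = p j → i = j)
    (hts : PHs S p 7 ((tO ++ (tB ++ (tR ++ (tF ++ tK)))) ++ cb03_x)) : False :=
  refuteS (k := 7) (n2 := 1) (n3 := 1) (n4 := 4) (o3 := 28) (o4 := 112) (M := 1736) ((tO ++ (tB ++ (tR ++ (tF ++ tK)))) ++ cb03_x) cb03_pf (by decide +kernel)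
    (by decide +kernel) (by decide +kernel) (by decide +kernel) hp hts

theorem cb03 {V : Type} {G : SimpleGraph V} {X W : V → V → V → V → Prop} (h : WF G X W) {a b x y x2 y2 t : V}
    (nd : [a, b, x, y, x2, y2, t].Nodup) (a1 : Pr G X W a x b y) (a2 : IF G X W a x b y2) (a3 : IF G X W a x2 b y) (nx : ¬ X a x2 b y2)
    (hk : K5F G [a, b, x, y, x2, y2]) (e : K5 G a b x2 y2 t) (hw : W a b x2 y2) (g1 : X t b a y2) (g2 : X t x2 a y2)
    (m1 : ¬ W b a t x2) (m2 : ¬ W y2 x2 b t) : False :=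
  cb03_ref (S := (syW h).rel) (pt_inj (o := a) nd rfl) (PHs.app (UHs.phs ((tO_h h).app ((tB_h h).app ((tR_h h).app ((tF_h h).app (tK_h h))))) _ _) (
  .cons (fun d hd h0 => h0 a1.1) (
  .cons (fun d hd m0 m1 m2 m3 h0 h1 h2 h3 h4 h5 h6 h7 h8 h9 h10 h11 h12 h13 => ((a1.2).1 (d 0) ⟨h0, h1, h2, h3, h4, h5, h6, h7, h8, h9⟩ h10 h11).elim h12 h13) (
  .cons (fun d hd m0 m1 m2 m3 h0 h1 h2 h3 h4 h5 h6 h7 h8 h9 h10 h11 h12 h13 => ((a1.2).2.1 (d 0) ⟨h0, h1, h2, h3, h4, h5, h6, h7, h8, h9⟩ h10 h11).elim h12 h13) (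
  .cons (fun d hd m0 m1 m2 m3 h0 h1 h2 h3 h4 h5 h6 h7 h8 h9 h10 h11 h12 h13 => ((a1.2).2.2.1 (d 0) ⟨h0, h1, h2, h3, h4, h5, h6, h7, h8, h9⟩ h10 h11).elim h12 h13) (
  .cons (fun d hd m0 m1 m2 m3 h0 h1 h2 h3 h4 h5 h6 h7 h8 h9 h10 h11 h12 h13 => ((a1.2).2.2.2 (d 0) ⟨h0, h1, h2, h3, h4, h5, h6, h7, h8, h9⟩ h10 h11).elim h12 h13) (
  .cons (fun d hd h0 => h0 a2.1) (
  .cons (fun d hd m0 m1 m2 m3 h0 h1 h2 h3 h4 h5 h6 h7 h8 h9 h10 h11 h12 h13 h14 h15 => ((a2.2.1 h14 h15).1 (d 0) ⟨h0, h1, h2, h3, h4, h5, h6, h7, h8, h9⟩ h10 h11).elim h12 h13) (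
  .cons (fun d hd m0 m1 m2 m3 h0 h1 h2 h3 h4 h5 h6 h7 h8 h9 h10 h11 h12 h13 h14 h15 => ((a2.2.1 h14 h15).2.1 (d 0) ⟨h0, h1, h2, h3, h4, h5, h6, h7, h8, h9⟩ h10 h11).elim h12 h13) (
  .cons (fun d hd m0 m1 m2 m3 h0 h1 h2 h3 h4 h5 h6 h7 h8 h9 h10 h11 h12 h13 h14 h15 => ((a2.2.1 h14 h15).2.2.1 (d 0) ⟨h0, h1, h2, h3, h4, h5, h6, h7, h8, h9⟩ h10 h11).elim h12 h13) (
  .cons (fun d hd m0 m1 m2 m3 h0 h1 h2 h3 h4 h5 h6 h7 h8 h9 h10 h11 h12 h13 h14 h15 => ((a2.2.1 h14 h15).2.2.2 (d 0) ⟨h0, h1, h2, h3, h4, h5, h6, h7, h8, h9⟩ h10 h11).elim h12 h13) (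
  .cons (fun d hd m0 m1 m2 m3 h0 h1 h2 h3 h4 h5 h6 h7 h8 h9 h10 h11 h12 h13 h14 h15 => ((a2.2.2 h14 h15).1 (d 0) ⟨h0, h1, h2, h3, h4, h5, h6, h7, h8, h9⟩ h10 h11).elim h12 h13) (
  .cons (fun d hd m0 m1 m2 m3 h0 h1 h2 h3 h4 h5 h6 h7 h8 h9 h10 h11 h12 h13 h14 h15 => ((a2.2.2 h14 h15).2.1 (d 0) ⟨h0, h1, h2, h3, h4, h5, h6, h7, h8, h9⟩ h10 h11).elim h12 h13) (
  .cons (fun d hd m0 m1 m2 m3 h0 h1 h2 h3 h4 h5 h6 h7 h8 h9 h10 h11 h12 h13 h14 h15 => ((a2.2.2 h14 h15).2.2.1 (d 0) ⟨h0, h1, h2, h3, h4, h5, h6, h7, h8, h9⟩ h10 h11).elim h12 h13) (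
  .cons (fun d hd m0 m1 m2 m3 h0 h1 h2 h3 h4 h5 h6 h7 h8 h9 h10 h11 h12 h13 h14 h15 => ((a2.2.2 h14 h15).2.2.2 (d 0) ⟨h0, h1, h2, h3, h4, h5, h6, h7, h8, h9⟩ h10 h11).elim h12 h13) (
  .cons (fun d hd h0 => h0 a3.1) (
  .cons (fun d hd m0 m1 m2 m3 h0 h1 h2 h3 h4 h5 h6 h7 h8 h9 h10 h11 h12 h13 h14 h15 => ((a3.2.1 h14 h15).1 (d 0) ⟨h0, h1, h2, h3, h4, h5, h6, h7, h8, h9⟩ h10 h11).elim h12 h13) (
  .cons (fun d hd m0 m1 m2 m3 h0 h1 h2 h3 h4 h5 h6 h7 h8 h9 h10 h11 h12 h13 h14 h15 => ((a3.2.1 h14 h15).2.1 (d 0) ⟨h0, h1, h2, h3, h4, h5, h6, h7, h8, h9⟩ h10 h11).elim h12 h13) (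
  .cons (fun d hd m0 m1 m2 m3 h0 h1 h2 h3 h4 h5 h6 h7 h8 h9 h10 h11 h12 h13 h14 h15 => ((a3.2.1 h14 h15).2.2.1 (d 0) ⟨h0, h1, h2, h3, h4, h5, h6, h7, h8, h9⟩ h10 h11).elim h12 h13) (
  .cons (fun d hd m0 m1 m2 m3 h0 h1 h2 h3 h4 h5 h6 h7 h8 h9 h10 h11 h12 h13 h14 h15 => ((a3.2.1 h14 h15).2.2.2 (d 0) ⟨h0, h1, h2, h3, h4, h5, h6, h7, h8, h9⟩ h10 h11).elim h12 h13) (
  .cons (fun d hd m0 m1 m2 m3 h0 h1 h2 h3 h4 h5 h6 h7 h8 h9 h10 h11 h12 h13 h14 h15 => ((a3.2.2 h14 h15).1 (d 0) ⟨h0, h1, h2, h3, h4, h5, h6, h7, h8, h9⟩ h10 h11).elim h12 h13) (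
  .cons (fun d hd m0 m1 m2 m3 h0 h1 h2 h3 h4 h5 h6 h7 h8 h9 h10 h11 h12 h13 h14 h15 => ((a3.2.2 h14 h15).2.1 (d 0) ⟨h0, h1, h2, h3, h4, h5, h6, h7, h8, h9⟩ h10 h11).elim h12 h13) (
  .cons (fun d hd m0 m1 m2 m3 h0 h1 h2 h3 h4 h5 h6 h7 h8 h9 h10 h11 h12 h13 h14 h15 => ((a3.2.2 h14 h15).2.2.1 (d 0) ⟨h0, h1, h2, h3, h4, h5, h6, h7, h8, h9⟩ h10 h11).elim h12 h13) (
  .cons (fun d hd m0 m1 m2 m3 h0 h1 h2 h3 h4 h5 h6 h7 h8 h9 h10 h11 h12 h13 h14 h15 => ((a3.2.2 h14 h15).2.2.2 (d 0) ⟨h0, h1, h2, h3, h4, h5, h6, h7, h8, h9⟩ h10 h11).elim h12 h13) (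
  .cons (fun d hd h0 => nx h0) (
  .cons (fun d hd h0 h1 h2 h3 h4 h5 h6 h7 h8 h9 => hk a (by simp) b (by simp) x (by simp) y (by simp) x2 (by simp) ⟨h0, h1, h2, h3, h4, h5, h6, h7, h8, h9⟩) (
  .cons (fun d hd h0 h1 h2 h3 h4 h5 h6 h7 h8 h9 => hk a (by simp) b (by simp) x (by simp) y (by simp) y2 (by simp) ⟨h0, h1, h2, h3, h4, h5, h6, h7, h8, h9⟩) (
  .cons (fun d hd h0 h1 h2 h3 h4 h5 h6 h7 h8 h9 => hk a (by simp) b (by simp) x (by simp) x2 (by simp) y2 (by simp) ⟨h0, h1, h2, h3, h4, h5, h6, h7, h8, h9⟩) (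
  .cons (fun d hd h0 h1 h2 h3 h4 h5 h6 h7 h8 h9 => hk a (by simp) b (by simp) y (by simp) x2 (by simp) y2 (by simp) ⟨h0, h1, h2, h3, h4, h5, h6, h7, h8, h9⟩) (
  .cons (fun d hd h0 h1 h2 h3 h4 h5 h6 h7 h8 h9 => hk a (by simp) x (by simp) y (by simp) x2 (by simp) y2 (by simp) ⟨h0, h1, h2, h3, h4, h5, h6, h7, h8, h9⟩) (
  .cons (fun d hd h0 h1 h2 h3 h4 h5 h6 h7 h8 h9 => hk b (by simp) x (by simp) y (by simp) x2 (by simp) y2 (by simp) ⟨h0, h1, h2, h3, h4, h5, h6, h7, h8, h9⟩) (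
  .cons (fun d hd h0 => h0 e.1) (
  .cons (fun d hd h0 => h0 e.2.1) (
  .cons (fun d hd h0 => h0 e.2.2.1) (
  .cons (fun d hd h0 => h0 e.2.2.2.1) (
  .cons (fun d hd h0 => h0 e.2.2.2.2.1) (
  .cons (fun d hd h0 => h0 e.2.2.2.2.2.1) (
  .cons (fun d hd h0 => h0 e.2.2.2.2.2.2.1) (
  .cons (fun d hd h0 => h0 e.2.2.2.2.2.2.2.1) (
  .cons (fun d hd h0 => h0 e.2.2.2.2.2.2.2.2.1) (
  .cons (fun d hd h0 => h0 e.2.2.2.2.2.2.2.2.2) (
  .cons (fun d hd h0 => h0 hw) (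
  .cons (fun d hd h0 => h0 g1) (
  .cons (fun d hd h0 => h0 g2) (
  .cons (fun d hd h0 => m1 h0) (
  .cons (fun d hd h0 => m2 h0) (
  .nil)))))))))))))))))))))))))))))))))))))))))))))))

/-- templates -/
def cb10_x : List Tm := [
  ⟨0, [], [], [.q true 2 8 10 9 11]⟩,
  ⟨1, [], [(0, 8), (0, 10), (0, 9), (0, 11)], [.b false 0 8 10, .b false 0 8 9, .b false 0 8 11, .b false 0 8 0, .b false 0 10 9, .b false 0 10 11, .b false 0 10 0, .b false 0 9 11, .b false 0 9 0, .b false 0 11 0, .q false 0 0 8 10 9, .q false 0 0 11 10 9, .q true 2 8 10 0 11, .q true 2 9 11 8 0]⟩,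
  ⟨1, [], [(0, 8), (0, 10), (0, 9), (0, 11)], [.b false 0 8 10, .b false 0 8 11, .b false 0 8 9, .b false 0 8 0, .b false 0 10 11, .b false 0 10 9, .b false 0 10 0, .b false 0 11 9, .b false 0 11 0, .b false 0 9 0, .q false 0 0 8 10 11, .q false 0 0 9 10 11, .q true 2 8 10 0 9, .q true 2 11 9 8 0]⟩,
  ⟨1, [], [(0, 8), (0, 10), (0, 9), (0, 11)], [.b false 0 10 8, .b false 0 10 9, .b false 0 10 11, .b false 0 10 0, .b false 0 8 9, .b false 0 8 11, .b false 0 8 0, .b false 0 9 11, .b false 0 9 0, .b false 0 11 0, .q false 0 0 10 8 9, .q false 0 0 11 8 9, .q true 2 10 8 0 11, .q true 2 9 11 10 0]⟩,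
  ⟨1, [], [(0, 8), (0, 10), (0, 9), (0, 11)], [.b false 0 10 8, .b false 0 10 11, .b false 0 10 9, .b false 0 10 0, .b false 0 8 11, .b false 0 8 9, .b false 0 8 0, .b false 0 11 9, .b false 0 11 0, .b false 0 9 0, .q false 0 0 10 8 11, .q false 0 0 9 8 11, .q true 2 10 8 0 9, .q true 2 11 9 10 0]⟩,
  ⟨0, [], [], [.q true 3 8 10 9 13]⟩,
  ⟨1, [], [(0, 8), (0, 9), (0, 10), (0, 13)], [.b false 0 8 9, .b false 0 8 10, .b false 0 8 13, .b false 0 8 0, .b false 0 9 10, .b false 0 9 13, .b false 0 9 0, .b false 0 10 13, .b false 0 10 0, .b false 0 13 0, .q false 0 0 8 9 10, .q false 0 0 13 9 10, .q true 2 8 9 0 13, .q true 2 10 13 8 0, .q false 2 8 9 10 13, .q true 0 8 10 9 13]⟩,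
  ⟨1, [], [(0, 8), (0, 9), (0, 10), (0, 13)], [.b false 0 8 9, .b false 0 8 13, .b false 0 8 10, .b false 0 8 0, .b false 0 9 13, .b false 0 9 10, .b false 0 9 0, .b false 0 13 10, .b false 0 13 0, .b false 0 10 0, .q false 0 0 8 9 13, .q false 0 0 10 9 13, .q true 2 8 9 0 10, .q true 2 13 10 8 0, .q false 2 8 9 10 13, .q true 0 8 10 9 13]⟩,
  ⟨1, [], [(0, 8), (0, 9), (0, 10), (0, 13)], [.b false 0 9 8, .b false 0 9 10, .b false 0 9 13, .b false 0 9 0, .b false 0 8 10, .b false 0 8 13, .b false 0 8 0, .b false 0 10 13, .b false 0 10 0, .b false 0 13 0, .q false 0 0 9 8 10, .q false 0 0 13 8 10, .q true 2 9 8 0 13, .q true 2 10 13 9 0, .q false 2 8 9 10 13, .q true 0 8 10 9 13]⟩,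
  ⟨1, [], [(0, 8), (0, 9), (0, 10), (0, 13)], [.b false 0 9 8, .b false 0 9 13, .b false 0 9 10, .b false 0 9 0, .b false 0 8 13, .b false 0 8 10, .b false 0 8 0, .b false 0 13 10, .b false 0 13 0, .b false 0 10 0, .q false 0 0 9 8 13, .q false 0 0 10 8 13, .q true 2 9 8 0 10, .q true 2 13 10 9 0, .q false 2 8 9 10 13, .q true 0 8 10 9 13]⟩,
  ⟨1, [], [(0, 8), (0, 13), (0, 10), (0, 9)], [.b false 0 8 13, .b false 0 8 10, .b false 0 8 9, .b false 0 8 0, .b false 0 13 10, .b false 0 13 9, .b false 0 13 0, .b false 0 10 9, .b false 0 10 0, .b false 0 9 0, .q false 0 0 8 13 10, .q false 0 0 9 13 10, .q true 2 8 13 0 9, .q true 2 10 9 8 0, .q false 2 8 13 10 9, .q true 0 8 10 9 13]⟩,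
  ⟨1, [], [(0, 8), (0, 13), (0, 10), (0, 9)], [.b false 0 8 13, .b false 0 8 9, .b false 0 8 10, .b false 0 8 0, .b false 0 13 9, .b false 0 13 10, .b false 0 13 0, .b false 0 9 10, .b false 0 9 0, .b false 0 10 0, .q false 0 0 8 13 9, .q false 0 0 10 13 9, .q true 2 8 13 0 10, .q true 2 9 10 8 0, .q false 2 8 13 10 9, .q true 0 8 10 9 13]⟩,
  ⟨1, [], [(0, 8), (0, 13), (0, 10), (0, 9)], [.b false 0 13 8, .b false 0 13 10, .b false 0 13 9, .b false 0 13 0, .b false 0 8 10, .b false 0 8 9, .b false 0 8 0, .b false 0 10 9, .b false 0 10 0, .b false 0 9 0, .q false 0 0 13 8 10, .q false 0 0 9 8 10, .q true 2 13 8 0 9, .q true 2 10 9 13 0, .q false 2 8 13 10 9, .q true 0 8 10 9 13]⟩,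
  ⟨1, [], [(0, 8), (0, 13), (0, 10), (0, 9)], [.b false 0 13 8, .b false 0 13 9, .b false 0 13 10, .b false 0 13 0, .b false 0 8 9, .b false 0 8 10, .b false 0 8 0, .b false 0 9 10, .b false 0 9 0, .b false 0 10 0, .q false 0 0 13 8 9, .q false 0 0 10 8 9, .q true 2 13 8 0 10, .q true 2 9 10 13 0, .q false 2 8 13 10 9, .q true 0 8 10 9 13]⟩,
  ⟨0, [], [], [.q true 3 8 12 9 11]⟩,
  ⟨1, [], [(0, 8), (0, 9), (0, 12), (0, 11)], [.b false 0 8 9, .b false 0 8 12, .b false 0 8 11, .b false 0 8 0, .b false 0 9 12, .b false 0 9 11, .b false 0 9 0, .b false 0 12 11, .b false 0 12 0, .b false 0 11 0, .q false 0 0 8 9 12, .q false 0 0 11 9 12, .q true 2 8 9 0 11, .q true 2 12 11 8 0, .q false 2 8 9 12 11, .q true 0 8 12 9 11]⟩,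
  ⟨1, [], [(0, 8), (0, 9), (0, 12), (0, 11)], [.b false 0 8 9, .b false 0 8 11, .b false 0 8 12, .b false 0 8 0, .b false 0 9 11, .b false 0 9 12, .b false 0 9 0, .b false 0 11 12, .b false 0 11 0, .b false 0 12 0, .q false 0 0 8 9 11, .q false 0 0 12 9 11, .q true 2 8 9 0 12, .q true 2 11 12 8 0, .q false 2 8 9 12 11, .q true 0 8 12 9 11]⟩,
  ⟨1, [], [(0, 8), (0, 9), (0, 12), (0, 11)], [.b false 0 9 8, .b false 0 9 12, .b false 0 9 11, .b false 0 9 0, .b false 0 8 12, .b false 0 8 11, .b false 0 8 0, .b false 0 12 11, .b false 0 12 0, .b false 0 11 0, .q false 0 0 9 8 12, .q false 0 0 11 8 12, .q true 2 9 8 0 11, .q true 2 12 11 9 0, .q false 2 8 9 12 11, .q true 0 8 12 9 11]⟩,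
  ⟨1, [], [(0, 8), (0, 9), (0, 12), (0, 11)], [.b false 0 9 8, .b false 0 9 11, .b false 0 9 12, .b false 0 9 0, .b false 0 8 11, .b false 0 8 12, .b false 0 8 0, .b false 0 11 12, .b false 0 11 0, .b false 0 12 0, .q false 0 0 9 8 11, .q false 0 0 12 8 11, .q true 2 9 8 0 12, .q true 2 11 12 9 0, .q false 2 8 9 12 11, .q true 0 8 12 9 11]⟩,
  ⟨1, [], [(0, 8), (0, 11), (0, 12), (0, 9)], [.b false 0 8 11, .b false 0 8 12, .b false 0 8 9, .b false 0 8 0, .b false 0 11 12, .b false 0 11 9, .b false 0 11 0, .b false 0 12 9, .b false 0 12 0, .b false 0 9 0, .q false 0 0 8 11 12, .q false 0 0 9 11 12, .q true 2 8 11 0 9, .q true 2 12 9 8 0, .q false 2 8 11 12 9, .q true 0 8 12 9 11]⟩,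
  ⟨1, [], [(0, 8), (0, 11), (0, 12), (0, 9)], [.b false 0 8 11, .b false 0 8 9, .b false 0 8 12, .b false 0 8 0, .b false 0 11 9, .b false 0 11 12, .b false 0 11 0, .b false 0 9 12, .b false 0 9 0, .b false 0 12 0, .q false 0 0 8 11 9, .q false 0 0 12 11 9, .q true 2 8 11 0 12, .q true 2 9 12 8 0, .q false 2 8 11 12 9, .q true 0 8 12 9 11]⟩,
  ⟨1, [], [(0, 8), (0, 11), (0, 12), (0, 9)], [.b false 0 11 8, .b false 0 11 12, .b false 0 11 9, .b false 0 11 0, .b false 0 8 12, .b false 0 8 9, .b false 0 8 0, .b false 0 12 9, .b false 0 12 0, .b false 0 9 0, .q false 0 0 11 8 12, .q false 0 0 9 8 12, .q true 2 11 8 0 9, .q true 2 12 9 11 0, .q false 2 8 11 12 9, .q true 0 8 12 9 11]⟩,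
  ⟨1, [], [(0, 8), (0, 11), (0, 12), (0, 9)], [.b false 0 11 8, .b false 0 11 9, .b false 0 11 12, .b false 0 11 0, .b false 0 8 9, .b false 0 8 12, .b false 0 8 0, .b false 0 9 12, .b false 0 9 0, .b false 0 12 0, .q false 0 0 11 8 9, .q false 0 0 12 8 9, .q true 2 11 8 0 12, .q true 2 9 12 11 0, .q false 2 8 11 12 9, .q true 0 8 12 9 11]⟩,
  ⟨0, [], [], [.q false 0 8 12 9 13]⟩,
  ⟨0, [], [], [.b false 0 8 9, .b false 0 8 10, .b false 0 8 11, .b false 0 8 12, .b false 0 9 10, .b false 0 9 11, .b false 0 9 12, .b false 0 10 11, .b false 0 10 12, .b false 0 11 12]⟩,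
  ⟨0, [], [], [.b false 0 8 9, .b false 0 8 10, .b false 0 8 11, .b false 0 8 13, .b false 0 9 10, .b false 0 9 11, .b false 0 9 13, .b false 0 10 11, .b false 0 10 13, .b false 0 11 13]⟩,
  ⟨0, [], [], [.b false 0 8 9, .b false 0 8 10, .b false 0 8 12, .b false 0 8 13, .b false 0 9 10, .b false 0 9 12, .b false 0 9 13, .b false 0 10 12, .b false 0 10 13, .b false 0 12 13]⟩,
  ⟨0, [], [], [.b false 0 8 9, .b false 0 8 11, .b false 0 8 12, .b false 0 8 13, .b false 0 9 11, .b false 0 9 12, .b false 0 9 13, .b false 0 11 12, .b false 0 11 13, .b false 0 12 13]⟩,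
  ⟨0, [], [], [.b false 0 8 10, .b false 0 8 11, .b false 0 8 12, .b false 0 8 13, .b false 0 10 11, .b false 0 10 12, .b false 0 10 13, .b false 0 11 12, .b false 0 11 13, .b false 0 12 13]⟩,
  ⟨0, [], [], [.b false 0 9 10, .b false 0 9 11, .b false 0 9 12, .b false 0 9 13, .b false 0 10 11, .b false 0 10 12, .b false 0 10 13, .b false 0 11 12, .b false 0 11 13, .b false 0 12 13]⟩,
  ⟨0, [], [], [.b true 0 8 13]⟩,
  ⟨0, [], [], [.b true 0 8 9]⟩,
  ⟨0, [], [], [.b true 0 8 12]⟩,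
  ⟨0, [], [], [.b true 0 8 14]⟩,
  ⟨0, [], [], [.b true 0 13 9]⟩,
  ⟨0, [], [], [.b true 0 13 12]⟩,
  ⟨0, [], [], [.b true 0 13 14]⟩,
  ⟨0, [], [], [.b true 0 9 12]⟩,
  ⟨0, [], [], [.b true 0 9 14]⟩,
  ⟨0, [], [], [.b true 0 12 14]⟩,
  ⟨0, [], [], [.q true 2 8 13 9 12]⟩,
  ⟨0, [], [], [.q true 0 14 8 13 9]⟩,
  ⟨0, [], [], [.q true 0 14 12 13 9]⟩,
  ⟨0, [], [], [.q false 2 8 13 14 12]⟩,
  ⟨0, [], [], [.q false 2 9 12 8 14]⟩]

def cb10_p0 : List Nat := [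
0x6240090000000810001000201,
0x2640090000000810006000201,
0x462090000000810004000201,
0x2604090000000810008000201,
0x62400b00000008107b4000201,
0xc83000000002000000006000000004000000008052e042a06cb06cf06dd06de06df06e00ae40bf800050a,
0xc87000000002000000006000000004000000008052e04de06cb06cf06dd06de06df06e00b8c0bec00050a,
0xa2401900000008b0966000201,
0x62801900000009d0832000201,
0xca9000000002000000004059e043a016806cf06d206d306d506dd06de06e006e1085a0af00c6800030e,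
0xb300000000200000000600000000400000000806cb06cf06d706d806d906da000506,
0xb700000000200000000406cf06d206d306d506d706d806da06db000308,
0x82a00b0000000d10944000201,
0xa820010000000af00000001a036c000301,
0xac20030000000d30cb8000201,
0x2ca0030000000d30b68000201,
0x8c0a2070000000af0000000d305c4000301,
0xca8200700000001c00000001e0588000301,
0x2c8a00700000001a0000000200c88000301,
0xca82030000000220ce0000201,
0x8ca2030000000220b78000201,
0xc820030000000240b54000201,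
0x8c20030000000240b00000201,
0xc8200b0000000240c52000201,
0x280ca0700000001e0000000280cdc000301,
0xc20a80700000001c00000002a0458000301,
0xca80170000000320000000260000000cf0000000c10000000bd0000000c70000000c30000000c90000000d70cdf000a01,
0xc2800f00000003000000002c0000000cf0000000020000000cb0000000c30000000d90b57000801,
0xa60c87f00a680c3d0008c0609000c80609006c0a807000ac8603000ca601300086ca070000000c90000000cf0000000c30000000c70000000bd0000000c10000000040000000d70000000360000000320000000340ce80c66001302,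
0xa0860d00c608a39000a8061b0008a60030000000c10000000040000000c70000000360ceb0a48000d000803,
0x80c60d002c6802900000001400080620d00062800f00000003c00000003a00086200b002c0860700a628007006a8c007006a2c00700a80c607000a860030008c6203000ac6003000ca6003006c0a807006a2c80700086ca07000ac8603000ca86030000000c30000000040000000cf00000009d0000000380000000cd0000000cb0000000c10000000d90000000020000000120000000af0000000340000000d30000000220000000320ceb0ce8002602,
0x6208a3300280a6230000000d1001203220a0e000303,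
0x4000080a60d00a4206330026a402700000001800080620d00a62800700000003c000a860030000000bd0000000040000000c70000000810000000100000000c50000000cb0000000c10000000020000000120000000af0ceb0a48001402,
0x42c83900082c40d00c60843d00040c60d00826402708a460c65000a8241b0a8460243000ca041100420c605000a2400f008a64207000c6420100640a207000a64201000c2461b000a2461b00082c60d00062c8390004c8611006c48207000c8a60d00c846205000486203000864203000a462070006ca839000c6801300280c60700480620700862a007000a6801300ca68007002a680070006a800300080a60d000a6c807000c8620300620c80700ac8600700860ca0700000003e00860a2070008a620300620a8070000000420000a261100a64203b0000a2609006a0423b0004a260900000004000a4206330026a40270000000380000000cd0000000060000000cf0000000080000000040000000c30000000810000000360000000c70000000d100000008b0000000020000000bd0000000c50000000c900000000a00000001a0000000320000000af00000001000000001c0000000240000000260ceb001206d5004e03,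
0xc86420790002c041100040c60d0a864c079000ca0411002c64007000a2400f00640c20700640a207000c2461b000a2461b000a8c61b000a8261b00008c611000000044006a0423b00a64203b0004a26090000a2609006c0a80700860a2070008a620300620a80700860c2070008c620300620c80700ac8600700000004200860ca0700000003e00000008100000009d0000000380000000080000000040000000c300000003600000000a00000008b0000000060000000020000000bd0000000cd0000000c50000000c700000002c0000000240000000320000000af00000001c0000000340ceb0012003302,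
0xc86420790002c041100040c60d0a864c079000ca0411000a6400f00240a607002c64007000a6420300640c20700820a607002a04633000a4620d000c2461b00a6240290006a8003002a4063300a406223000c8261b000a0860d00826a02f000ca860d00c608a3900008c611000ca8619000a8620300620a80700860c2070008c620300620c80700ac8600700000004200860ca0700000003e00000004600000008100000009d0000000380000000080000000040000000c30000000360000000bd00000000a0000000060000000c50000000cd00000008b0000000cf0000000c10000000c70000000d100000002c00000002400000003200000001c0ceb000d003802,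
0xc608a3d000a8600f000c4620d00c8462050062a803d00c40622300084620d00260a83b0086c2039008406223000068211000a6820900000001800000004800000004600620c80700ac8600700000004200860ca0700000003e0000000360000000bd0000000c10000000080000000060000000cd0000000d10000000810000000cb00000009d0000000380000000120000000c50000000c70000000240000000320ceb002401,
0xca861100000004a0012000201,
0xac861100000004a0018000201,
0xca861300000004a0ce8000201,
0x862ca070000000280000000500cd0000301,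
0x860ca070000000320000000500ccc000301,
0xc806205000c8620d000c0620d00080620d0006c28390086c20390000000180000000cd0000000cb00000004e00000000400000000200000001200000009d0000000380000000c50000000bd0000000c70000000c100000004c06d5001401,
0x280609000000056085a000201,
0x28a611000000056034b000201,
0x8c611000000056054b000201,
0x86c203d00000003800000009d0000000560af2000401,
0x68a203b0000000580000000d10000000560972000401,
0x86ac03d00000003600000005c0000000560c26000401,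
0x6802a3d0000000560000000d100000005a0323000401,
0x862c03d00000003800000005600000005c0bee000401,
0xc8642079024a6c079000c2a40d000ca0411000a6400f00240a607000a6c00f000a64203006a4c207002a046330064ca233002a406330002a6c39000a6c20700ca6200700ac462070004c620300ca4622300ca0622300a62c00500062c0130002c60030006c2003000c4620d000ca620d000c0620d00c40622300a62402900006c21100000008100000009d0000000560000000380000000c50000000060000000c90000000bd00000000800000000400000006200000004e00000002000000001e00000005200000005e0000000d30000000cd00000004c00000000200000008b0007003201,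
0xc46023d0002c0411000000081047f0017000302,
0xe0004c627f00620c407000c4200100000000c000c6400d00000006a00ac4620700420c607000a4620700ca620070006a2003000a62017000c2600f00ca26007006c2400700000004e0000000cd0000000c300000006800000000800000000400000000600000000200000005e00000005200000000a00000001e0000000c50000000bd00000004c000000064000000060000000066000000054052e052c047c002303,
0x2608c39000c0860d00086c21300286c00700860c2070002c60030000000560000000380000000c10000000040000000cf00000004e00000002e00000002c0b44000e01,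
0xc2600f00000006600000005e00000004e0000000020000000680000000c300000006e0b47000801,
0x6a0000000700017000201,
0xc46023900c40627f000c24013002c6400700000008100000007000000004e0000000720000000cd0000000c300000000800000006800000000400000000600000000200000005e00000000a0bf4001101,
0x6c2400700000000a0000000740b38000301,
0x6c00000006e000000074052e000301,
0x160a864c0790a864c0650000000c50000000bd00000004c00000006800000007800000005600000005c0000000360cc3000b01,
0xca041100000007a0011000201,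
0xca401300000007a0cc0000201,
0x1600000006800000004c0000000bd0000000c500000007c06cb000601,
0xca2400700000007600000007e0964000301,
0xa2400d00000001000000007c0000000bd000000002000000006000000082000000080000800]

def cb10_pf : List Nat := cb10_p0

theorem cb10_ref {V : Type} {S : SRel V} {p : Nat → V} (hp : ∀ i j, i < 7 → j < 7 → p i = p j → i = j)
    (hts : PHs S p 7 ((tO ++ (tB ++ (tR ++ (tF ++ tK)))) ++ cb10_x)) : False :=
  refuteS (k := 7) (n2 := 1) (n3 := 1) (n4 := 4) (o3 := 28) (o4 := 112) (M := 1736) ((tO ++ (tB ++ (tR ++ (tF ++ tK)))) ++ cb10_x) cb10_pf (by decide +kernel)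
    (by decide +kernel) (by decide +kernel) (by decide +kernel) hp hts

theorem cb10 {V : Type} {G : SimpleGraph V} {X W : V → V → V → V → Prop} (h : WF G X W) {a b x y x2 y2 t : V}
    (nd : [a, b, x, y, x2, y2, t].Nodup) (a1 : Pr G X W a x b y) (a2 : IF G X W a x b y2) (a3 : IF G X W a x2 b y) (nx : ¬ X a x2 b y2)
    (hk : K5F G [a, b, x, y, x2, y2]) (e : K5 G a y2 b x2 t) (hw : W a y2 b x2) (g1 : X t a y2 b) (g2 : X t x2 y2 b)
    (m1 : ¬ W a y2 t x2) (m2 : ¬ W b x2 a t) : False :=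
  cb10_ref (S := (syW h).rel) (pt_inj (o := a) nd rfl) (PHs.app (UHs.phs ((tO_h h).app ((tB_h h).app ((tR_h h).app ((tF_h h).app (tK_h h))))) _ _) (
  .cons (fun d hd h0 => h0 a1.1) (
  .cons (fun d hd m0 m1 m2 m3 h0 h1 h2 h3 h4 h5 h6 h7 h8 h9 h10 h11 h12 h13 => ((a1.2).1 (d 0) ⟨h0, h1, h2, h3, h4, h5, h6, h7, h8, h9⟩ h10 h11).elim h12 h13) (
  .cons (fun d hd m0 m1 m2 m3 h0 h1 h2 h3 h4 h5 h6 h7 h8 h9 h10 h11 h12 h13 => ((a1.2).2.1 (d 0) ⟨h0, h1, h2, h3, h4, h5, h6, h7, h8, h9⟩ h10 h11).elim h12 h13) (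
  .cons (fun d hd m0 m1 m2 m3 h0 h1 h2 h3 h4 h5 h6 h7 h8 h9 h10 h11 h12 h13 => ((a1.2).2.2.1 (d 0) ⟨h0, h1, h2, h3, h4, h5, h6, h7, h8, h9⟩ h10 h11).elim h12 h13) (
  .cons (fun d hd m0 m1 m2 m3 h0 h1 h2 h3 h4 h5 h6 h7 h8 h9 h10 h11 h12 h13 => ((a1.2).2.2.2 (d 0) ⟨h0, h1, h2, h3, h4, h5, h6, h7, h8, h9⟩ h10 h11).elim h12 h13) (
  .cons (fun d hd h0 => h0 a2.1) (
  .cons (fun d hd m0 m1 m2 m3 h0 h1 h2 h3 h4 h5 h6 h7 h8 h9 h10 h11 h12 h13 h14 h15 => ((a2.2.1 h14 h15).1 (d 0) ⟨h0, h1, h2, h3, h4, h5, h6, h7, h8, h9⟩ h10 h11).elim h12 h13) (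
  .cons (fun d hd m0 m1 m2 m3 h0 h1 h2 h3 h4 h5 h6 h7 h8 h9 h10 h11 h12 h13 h14 h15 => ((a2.2.1 h14 h15).2.1 (d 0) ⟨h0, h1, h2, h3, h4, h5, h6, h7, h8, h9⟩ h10 h11).elim h12 h13) (
  .cons (fun d hd m0 m1 m2 m3 h0 h1 h2 h3 h4 h5 h6 h7 h8 h9 h10 h11 h12 h13 h14 h15 => ((a2.2.1 h14 h15).2.2.1 (d 0) ⟨h0, h1, h2, h3, h4, h5, h6, h7, h8, h9⟩ h10 h11).elim h12 h13) (
  .cons (fun d hd m0 m1 m2 m3 h0 h1 h2 h3 h4 h5 h6 h7 h8 h9 h10 h11 h12 h13 h14 h15 => ((a2.2.1 h14 h15).2.2.2 (d 0) ⟨h0, h1, h2, h3, h4, h5, h6, h7, h8, h9⟩ h10 h11).elim h12 h13) (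
  .cons (fun d hd m0 m1 m2 m3 h0 h1 h2 h3 h4 h5 h6 h7 h8 h9 h10 h11 h12 h13 h14 h15 => ((a2.2.2 h14 h15).1 (d 0) ⟨h0, h1, h2, h3, h4, h5, h6, h7, h8, h9⟩ h10 h11).elim h12 h13) (
  .cons (fun d hd m0 m1 m2 m3 h0 h1 h2 h3 h4 h5 h6 h7 h8 h9 h10 h11 h12 h13 h14 h15 => ((a2.2.2 h14 h15).2.1 (d 0) ⟨h0, h1, h2, h3, h4, h5, h6, h7, h8, h9⟩ h10 h11).elim h12 h13) (
  .cons (fun d hd m0 m1 m2 m3 h0 h1 h2 h3 h4 h5 h6 h7 h8 h9 h10 h11 h12 h13 h14 h15 => ((a2.2.2 h14 h15).2.2.1 (d 0) ⟨h0, h1, h2, h3, h4, h5, h6, h7, h8, h9⟩ h10 h11).elim h12 h13) (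
  .cons (fun d hd m0 m1 m2 m3 h0 h1 h2 h3 h4 h5 h6 h7 h8 h9 h10 h11 h12 h13 h14 h15 => ((a2.2.2 h14 h15).2.2.2 (d 0) ⟨h0, h1, h2, h3, h4, h5, h6, h7, h8, h9⟩ h10 h11).elim h12 h13) (
  .cons (fun d hd h0 => h0 a3.1) (
  .cons (fun d hd m0 m1 m2 m3 h0 h1 h2 h3 h4 h5 h6 h7 h8 h9 h10 h11 h12 h13 h14 h15 => ((a3.2.1 h14 h15).1 (d 0) ⟨h0, h1, h2, h3, h4, h5, h6, h7, h8, h9⟩ h10 h11).elim h12 h13) (
  .cons (fun d hd m0 m1 m2 m3 h0 h1 h2 h3 h4 h5 h6 h7 h8 h9 h10 h11 h12 h13 h14 h15 => ((a3.2.1 h14 h15).2.1 (d 0) ⟨h0, h1, h2, h3, h4, h5, h6, h7, h8, h9⟩ h10 h11).elim h12 h13) (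
  .cons (fun d hd m0 m1 m2 m3 h0 h1 h2 h3 h4 h5 h6 h7 h8 h9 h10 h11 h12 h13 h14 h15 => ((a3.2.1 h14 h15).2.2.1 (d 0) ⟨h0, h1, h2, h3, h4, h5, h6, h7, h8, h9⟩ h10 h11).elim h12 h13) (
  .cons (fun d hd m0 m1 m2 m3 h0 h1 h2 h3 h4 h5 h6 h7 h8 h9 h10 h11 h12 h13 h14 h15 => ((a3.2.1 h14 h15).2.2.2 (d 0) ⟨h0, h1, h2, h3, h4, h5, h6, h7, h8, h9⟩ h10 h11).elim h12 h13) (
  .cons (fun d hd m0 m1 m2 m3 h0 h1 h2 h3 h4 h5 h6 h7 h8 h9 h10 h11 h12 h13 h14 h15 => ((a3.2.2 h14 h15).1 (d 0) ⟨h0, h1, h2, h3, h4, h5, h6, h7, h8, h9⟩ h10 h11).elim h12 h13) (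
  .cons (fun d hd m0 m1 m2 m3 h0 h1 h2 h3 h4 h5 h6 h7 h8 h9 h10 h11 h12 h13 h14 h15 => ((a3.2.2 h14 h15).2.1 (d 0) ⟨h0, h1, h2, h3, h4, h5, h6, h7, h8, h9⟩ h10 h11).elim h12 h13) (
  .cons (fun d hd m0 m1 m2 m3 h0 h1 h2 h3 h4 h5 h6 h7 h8 h9 h10 h11 h12 h13 h14 h15 => ((a3.2.2 h14 h15).2.2.1 (d 0) ⟨h0, h1, h2, h3, h4, h5, h6, h7, h8, h9⟩ h10 h11).elim h12 h13) (
  .cons (fun d hd m0 m1 m2 m3 h0 h1 h2 h3 h4 h5 h6 h7 h8 h9 h10 h11 h12 h13 h14 h15 => ((a3.2.2 h14 h15).2.2.2 (d 0) ⟨h0, h1, h2, h3, h4, h5, h6, h7, h8, h9⟩ h10 h11).elim h12 h13) (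
  .cons (fun d hd h0 => nx h0) (
  .cons (fun d hd h0 h1 h2 h3 h4 h5 h6 h7 h8 h9 => hk a (by simp) b (by simp) x (by simp) y (by simp) x2 (by simp) ⟨h0, h1, h2, h3, h4, h5, h6, h7, h8, h9⟩) (
  .cons (fun d hd h0 h1 h2 h3 h4 h5 h6 h7 h8 h9 => hk a (by simp) b (by simp) x (by simp) y (by simp) y2 (by simp) ⟨h0, h1, h2, h3, h4, h5, h6, h7, h8, h9⟩) (
  .cons (fun d hd h0 h1 h2 h3 h4 h5 h6 h7 h8 h9 => hk a (by simp) b (by simp) x (by simp) x2 (by simp) y2 (by simp) ⟨h0, h1, h2, h3, h4, h5, h6, h7, h8, h9⟩) (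
  .cons (fun d hd h0 h1 h2 h3 h4 h5 h6 h7 h8 h9 => hk a (by simp) b (by simp) y (by simp) x2 (by simp) y2 (by simp) ⟨h0, h1, h2, h3, h4, h5, h6, h7, h8, h9⟩) (
  .cons (fun d hd h0 h1 h2 h3 h4 h5 h6 h7 h8 h9 => hk a (by simp) x (by simp) y (by simp) x2 (by simp) y2 (by simp) ⟨h0, h1, h2, h3, h4, h5, h6, h7, h8, h9⟩) (
  .cons (fun d hd h0 h1 h2 h3 h4 h5 h6 h7 h8 h9 => hk b (by simp) x (by simp) y (by simp) x2 (by simp) y2 (by simp) ⟨h0, h1, h2, h3, h4, h5, h6, h7, h8, h9⟩) (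
  .cons (fun d hd h0 => h0 e.1) (
  .cons (fun d hd h0 => h0 e.2.1) (
  .cons (fun d hd h0 => h0 e.2.2.1) (
  .cons (fun d hd h0 => h0 e.2.2.2.1) (
  .cons (fun d hd h0 => h0 e.2.2.2.2.1) (
  .cons (fun d hd h0 => h0 e.2.2.2.2.2.1) (
  .cons (fun d hd h0 => h0 e.2.2.2.2.2.2.1) (
  .cons (fun d hd h0 => h0 e.2.2.2.2.2.2.2.1) (
  .cons (fun d hd h0 => h0 e.2.2.2.2.2.2.2.2.1) (
  .cons (fun d hd h0 => h0 e.2.2.2.2.2.2.2.2.2) (
  .cons (fun d hd h0 => h0 hw) (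
  .cons (fun d hd h0 => h0 g1) (
  .cons (fun d hd h0 => h0 g2) (
  .cons (fun d hd h0 => m1 h0) (
  .cons (fun d hd h0 => m2 h0) (
  .nil)))))))))))))))))))))))))))))))))))))))))))))))

/-- templates -/
def cb11_x : List Tm := [
  ⟨0, [], [], [.q true 2 8 10 9 11]⟩,
  ⟨1, [], [(0, 8), (0, 10), (0, 9), (0, 11)], [.b false 0 8 10, .b false 0 8 9, .b false 0 8 11, .b false 0 8 0, .b false 0 10 9, .b false 0 10 11, .b false 0 10 0, .b false 0 9 11, .b false 0 9 0, .b false 0 11 0, .q false 0 0 8 10 9, .q false 0 0 11 10 9, .q true 2 8 10 0 11, .q true 2 9 11 8 0]⟩,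
  ⟨1, [], [(0, 8), (0, 10), (0, 9), (0, 11)], [.b false 0 8 10, .b false 0 8 11, .b false 0 8 9, .b false 0 8 0, .b false 0 10 11, .b false 0 10 9, .b false 0 10 0, .b false 0 11 9, .b false 0 11 0, .b false 0 9 0, .q false 0 0 8 10 11, .q false 0 0 9 10 11, .q true 2 8 10 0 9, .q true 2 11 9 8 0]⟩,
  ⟨1, [], [(0, 8), (0, 10), (0, 9), (0, 11)], [.b false 0 10 8, .b false 0 10 9, .b false 0 10 11, .b false 0 10 0, .b false 0 8 9, .b false 0 8 11, .b false 0 8 0, .b false 0 9 11, .b false 0 9 0, .b false 0 11 0, .q false 0 0 10 8 9, .q false 0 0 11 8 9, .q true 2 10 8 0 11, .q true 2 9 11 10 0]⟩,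
  ⟨1, [], [(0, 8), (0, 10), (0, 9), (0, 11)], [.b false 0 10 8, .b false 0 10 11, .b false 0 10 9, .b false 0 10 0, .b false 0 8 11, .b false 0 8 9, .b false 0 8 0, .b false 0 11 9, .b false 0 11 0, .b false 0 9 0, .q false 0 0 10 8 11, .q false 0 0 9 8 11, .q true 2 10 8 0 9, .q true 2 11 9 10 0]⟩,
  ⟨0, [], [], [.q true 3 8 10 9 13]⟩,
  ⟨1, [], [(0, 8), (0, 9), (0, 10), (0, 13)], [.b false 0 8 9, .b false 0 8 10, .b false 0 8 13, .b false 0 8 0, .b false 0 9 10, .b false 0 9 13, .b false 0 9 0, .b false 0 10 13, .b false 0 10 0, .b false 0 13 0, .q false 0 0 8 9 10, .q false 0 0 13 9 10, .q true 2 8 9 0 13, .q true 2 10 13 8 0, .q false 2 8 9 10 13, .q true 0 8 10 9 13]⟩,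
  ⟨1, [], [(0, 8), (0, 9), (0, 10), (0, 13)], [.b false 0 8 9, .b false 0 8 13, .b false 0 8 10, .b false 0 8 0, .b false 0 9 13, .b false 0 9 10, .b false 0 9 0, .b false 0 13 10, .b false 0 13 0, .b false 0 10 0, .q false 0 0 8 9 13, .q false 0 0 10 9 13, .q true 2 8 9 0 10, .q true 2 13 10 8 0, .q false 2 8 9 10 13, .q true 0 8 10 9 13]⟩,
  ⟨1, [], [(0, 8), (0, 9), (0, 10), (0, 13)], [.b false 0 9 8, .b false 0 9 10, .b false 0 9 13, .b false 0 9 0, .b false 0 8 10, .b false 0 8 13, .b false 0 8 0, .b false 0 10 13, .b false 0 10 0, .b false 0 13 0, .q false 0 0 9 8 10, .q false 0 0 13 8 10, .q true 2 9 8 0 13, .q true 2 10 13 9 0, .q false 2 8 9 10 13, .q true 0 8 10 9 13]⟩,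
  ⟨1, [], [(0, 8), (0, 9), (0, 10), (0, 13)], [.b false 0 9 8, .b false 0 9 13, .b false 0 9 10, .b false 0 9 0, .b false 0 8 13, .b false 0 8 10, .b false 0 8 0, .b false 0 13 10, .b false 0 13 0, .b false 0 10 0, .q false 0 0 9 8 13, .q false 0 0 10 8 13, .q true 2 9 8 0 10, .q true 2 13 10 9 0, .q false 2 8 9 10 13, .q true 0 8 10 9 13]⟩,
  ⟨1, [], [(0, 8), (0, 13), (0, 10), (0, 9)], [.b false 0 8 13, .b false 0 8 10, .b false 0 8 9, .b false 0 8 0, .b false 0 13 10, .b false 0 13 9, .b false 0 13 0, .b false 0 10 9, .b false 0 10 0, .b false 0 9 0, .q false 0 0 8 13 10, .q false 0 0 9 13 10, .q true 2 8 13 0 9, .q true 2 10 9 8 0, .q false 2 8 13 10 9, .q true 0 8 10 9 13]⟩,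
  ⟨1, [], [(0, 8), (0, 13), (0, 10), (0, 9)], [.b false 0 8 13, .b false 0 8 9, .b false 0 8 10, .b false 0 8 0, .b false 0 13 9, .b false 0 13 10, .b false 0 13 0, .b false 0 9 10, .b false 0 9 0, .b false 0 10 0, .q false 0 0 8 13 9, .q false 0 0 10 13 9, .q true 2 8 13 0 10, .q true 2 9 10 8 0, .q false 2 8 13 10 9, .q true 0 8 10 9 13]⟩,
  ⟨1, [], [(0, 8), (0, 13), (0, 10), (0, 9)], [.b false 0 13 8, .b false 0 13 10, .b false 0 13 9, .b false 0 13 0, .b false 0 8 10, .b false 0 8 9, .b false 0 8 0, .b false 0 10 9, .b false 0 10 0, .b false 0 9 0, .q false 0 0 13 8 10, .q false 0 0 9 8 10, .q true 2 13 8 0 9, .q true 2 10 9 13 0, .q false 2 8 13 10 9, .q true 0 8 10 9 13]⟩,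
  ⟨1, [], [(0, 8), (0, 13), (0, 10), (0, 9)], [.b false 0 13 8, .b false 0 13 9, .b false 0 13 10, .b false 0 13 0, .b false 0 8 9, .b false 0 8 10, .b false 0 8 0, .b false 0 9 10, .b false 0 9 0, .b false 0 10 0, .q false 0 0 13 8 9, .q false 0 0 10 8 9, .q true 2 13 8 0 10, .q true 2 9 10 13 0, .q false 2 8 13 10 9, .q true 0 8 10 9 13]⟩,
  ⟨0, [], [], [.q true 3 8 12 9 11]⟩,
  ⟨1, [], [(0, 8), (0, 9), (0, 12), (0, 11)], [.b false 0 8 9, .b false 0 8 12, .b false 0 8 11, .b false 0 8 0, .b false 0 9 12, .b false 0 9 11, .b false 0 9 0, .b false 0 12 11, .b false 0 12 0, .b false 0 11 0, .q false 0 0 8 9 12, .q false 0 0 11 9 12, .q true 2 8 9 0 11, .q true 2 12 11 8 0, .q false 2 8 9 12 11, .q true 0 8 12 9 11]⟩,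
  ⟨1, [], [(0, 8), (0, 9), (0, 12), (0, 11)], [.b false 0 8 9, .b false 0 8 11, .b false 0 8 12, .b false 0 8 0, .b false 0 9 11, .b false 0 9 12, .b false 0 9 0, .b false 0 11 12, .b false 0 11 0, .b false 0 12 0, .q false 0 0 8 9 11, .q false 0 0 12 9 11, .q true 2 8 9 0 12, .q true 2 11 12 8 0, .q false 2 8 9 12 11, .q true 0 8 12 9 11]⟩,
  ⟨1, [], [(0, 8), (0, 9), (0, 12), (0, 11)], [.b false 0 9 8, .b false 0 9 12, .b false 0 9 11, .b false 0 9 0, .b false 0 8 12, .b false 0 8 11, .b false 0 8 0, .b false 0 12 11, .b false 0 12 0, .b false 0 11 0, .q false 0 0 9 8 12, .q false 0 0 11 8 12, .q true 2 9 8 0 11, .q true 2 12 11 9 0, .q false 2 8 9 12 11, .q true 0 8 12 9 11]⟩,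
  ⟨1, [], [(0, 8), (0, 9), (0, 12), (0, 11)], [.b false 0 9 8, .b false 0 9 11, .b false 0 9 12, .b false 0 9 0, .b false 0 8 11, .b false 0 8 12, .b false 0 8 0, .b false 0 11 12, .b false 0 11 0, .b false 0 12 0, .q false 0 0 9 8 11, .q false 0 0 12 8 11, .q true 2 9 8 0 12, .q true 2 11 12 9 0, .q false 2 8 9 12 11, .q true 0 8 12 9 11]⟩,
  ⟨1, [], [(0, 8), (0, 11), (0, 12), (0, 9)], [.b false 0 8 11, .b false 0 8 12, .b false 0 8 9, .b false 0 8 0, .b false 0 11 12, .b false 0 11 9, .b false 0 11 0, .b false 0 12 9, .b false 0 12 0, .b false 0 9 0, .q false 0 0 8 11 12, .q false 0 0 9 11 12, .q true 2 8 11 0 9, .q true 2 12 9 8 0, .q false 2 8 11 12 9, .q true 0 8 12 9 11]⟩,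
  ⟨1, [], [(0, 8), (0, 11), (0, 12), (0, 9)], [.b false 0 8 11, .b false 0 8 9, .b false 0 8 12, .b false 0 8 0, .b false 0 11 9, .b false 0 11 12, .b false 0 11 0, .b false 0 9 12, .b false 0 9 0, .b false 0 12 0, .q false 0 0 8 11 9, .q false 0 0 12 11 9, .q true 2 8 11 0 12, .q true 2 9 12 8 0, .q false 2 8 11 12 9, .q true 0 8 12 9 11]⟩,
  ⟨1, [], [(0, 8), (0, 11), (0, 12), (0, 9)], [.b false 0 11 8, .b false 0 11 12, .b false 0 11 9, .b false 0 11 0, .b false 0 8 12, .b false 0 8 9, .b false 0 8 0, .b false 0 12 9, .b false 0 12 0, .b false 0 9 0, .q false 0 0 11 8 12, .q false 0 0 9 8 12, .q true 2 11 8 0 9, .q true 2 12 9 11 0, .q false 2 8 11 12 9, .q true 0 8 12 9 11]⟩,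
  ⟨1, [], [(0, 8), (0, 11), (0, 12), (0, 9)], [.b false 0 11 8, .b false 0 11 9, .b false 0 11 12, .b false 0 11 0, .b false 0 8 9, .b false 0 8 12, .b false 0 8 0, .b false 0 9 12, .b false 0 9 0, .b false 0 12 0, .q false 0 0 11 8 9, .q false 0 0 12 8 9, .q true 2 11 8 0 12, .q true 2 9 12 11 0, .q false 2 8 11 12 9, .q true 0 8 12 9 11]⟩,
  ⟨0, [], [], [.q false 0 8 12 9 13]⟩,
  ⟨0, [], [], [.b false 0 8 9, .b false 0 8 10, .b false 0 8 11, .b false 0 8 12, .b false 0 9 10, .b false 0 9 11, .b false 0 9 12, .b false 0 10 11, .b false 0 10 12, .b false 0 11 12]⟩,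
  ⟨0, [], [], [.b false 0 8 9, .b false 0 8 10, .b false 0 8 11, .b false 0 8 13, .b false 0 9 10, .b false 0 9 11, .b false 0 9 13, .b false 0 10 11, .b false 0 10 13, .b false 0 11 13]⟩,
  ⟨0, [], [], [.b false 0 8 9, .b false 0 8 10, .b false 0 8 12, .b false 0 8 13, .b false 0 9 10, .b false 0 9 12, .b false 0 9 13, .b false 0 10 12, .b false 0 10 13, .b false 0 12 13]⟩,
  ⟨0, [], [], [.b false 0 8 9, .b false 0 8 11, .b false 0 8 12, .b false 0 8 13, .b false 0 9 11, .b false 0 9 12, .b false 0 9 13, .b false 0 11 12, .b false 0 11 13, .b false 0 12 13]⟩,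
  ⟨0, [], [], [.b false 0 8 10, .b false 0 8 11, .b false 0 8 12, .b false 0 8 13, .b false 0 10 11, .b false 0 10 12, .b false 0 10 13, .b false 0 11 12, .b false 0 11 13, .b false 0 12 13]⟩,
  ⟨0, [], [], [.b false 0 9 10, .b false 0 9 11, .b false 0 9 12, .b false 0 9 13, .b false 0 10 11, .b false 0 10 12, .b false 0 10 13, .b false 0 11 12, .b false 0 11 13, .b false 0 12 13]⟩,
  ⟨0, [], [], [.b true 0 8 13]⟩,
  ⟨0, [], [], [.b true 0 8 9]⟩,
  ⟨0, [], [], [.b true 0 8 12]⟩,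
  ⟨0, [], [], [.b true 0 8 14]⟩,
  ⟨0, [], [], [.b true 0 13 9]⟩,
  ⟨0, [], [], [.b true 0 13 12]⟩,
  ⟨0, [], [], [.b true 0 13 14]⟩,
  ⟨0, [], [], [.b true 0 9 12]⟩,
  ⟨0, [], [], [.b true 0 9 14]⟩,
  ⟨0, [], [], [.b true 0 12 14]⟩,
  ⟨0, [], [], [.q true 2 8 13 9 12]⟩,
  ⟨0, [], [], [.q true 0 14 8 13 12]⟩,
  ⟨0, [], [], [.q true 0 14 9 13 12]⟩,
  ⟨0, [], [], [.q false 2 8 13 14 9]⟩,
  ⟨0, [], [], [.q false 2 12 9 8 14]⟩]

def cb11_p0 : List Nat := [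
0x82a00b0000000d10944000201,
0xa820010000000af000000002036c000301,
0xc20a8050000000040000000d30b78000301,
0xd5000000006000200]

def cb11_pf : List Nat := cb11_p0

theorem cb11_ref {V : Type} {S : SRel V} {p : Nat → V} (hp : ∀ i j, i < 7 → j < 7 → p i = p j → i = j)
    (hts : PHs S p 7 ((tO ++ (tB ++ (tR ++ (tF ++ tK)))) ++ cb11_x)) : False :=
  refuteS (k := 7) (n2 := 1) (n3 := 1) (n4 := 4) (o3 := 28) (o4 := 112) (M := 1736) ((tO ++ (tB ++ (tR ++ (tF ++ tK)))) ++ cb11_x) cb11_pf (by decide +kernel)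
    (by decide +kernel) (by decide +kernel) (by decide +kernel) hp hts

theorem cb11 {V : Type} {G : SimpleGraph V} {X W : V → V → V → V → Prop} (h : WF G X W) {a b x y x2 y2 t : V}
    (nd : [a, b, x, y, x2, y2, t].Nodup) (a1 : Pr G X W a x b y) (a2 : IF G X W a x b y2) (a3 : IF G X W a x2 b y) (nx : ¬ X a x2 b y2)
    (hk : K5F G [a, b, x, y, x2, y2]) (e : K5 G a y2 b x2 t) (hw : W a y2 b x2) (g1 : X t a y2 x2) (g2 : X t b y2 x2)
    (m1 : ¬ W a y2 t b) (m2 : ¬ W x2 b a t) : False :=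
  cb11_ref (S := (syW h).rel) (pt_inj (o := a) nd rfl) (PHs.app (UHs.phs ((tO_h h).app ((tB_h h).app ((tR_h h).app ((tF_h h).app (tK_h h))))) _ _) (
  .cons (fun d hd h0 => h0 a1.1) (
  .cons (fun d hd m0 m1 m2 m3 h0 h1 h2 h3 h4 h5 h6 h7 h8 h9 h10 h11 h12 h13 => ((a1.2).1 (d 0) ⟨h0, h1, h2, h3, h4, h5, h6, h7, h8, h9⟩ h10 h11).elim h12 h13) (
  .cons (fun d hd m0 m1 m2 m3 h0 h1 h2 h3 h4 h5 h6 h7 h8 h9 h10 h11 h12 h13 => ((a1.2).2.1 (d 0) ⟨h0, h1, h2, h3, h4, h5, h6, h7, h8, h9⟩ h10 h11).elim h12 h13) (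
  .cons (fun d hd m0 m1 m2 m3 h0 h1 h2 h3 h4 h5 h6 h7 h8 h9 h10 h11 h12 h13 => ((a1.2).2.2.1 (d 0) ⟨h0, h1, h2, h3, h4, h5, h6, h7, h8, h9⟩ h10 h11).elim h12 h13) (
  .cons (fun d hd m0 m1 m2 m3 h0 h1 h2 h3 h4 h5 h6 h7 h8 h9 h10 h11 h12 h13 => ((a1.2).2.2.2 (d 0) ⟨h0, h1, h2, h3, h4, h5, h6, h7, h8, h9⟩ h10 h11).elim h12 h13) (
  .cons (fun d hd h0 => h0 a2.1) (
  .cons (fun d hd m0 m1 m2 m3 h0 h1 h2 h3 h4 h5 h6 h7 h8 h9 h10 h11 h12 h13 h14 h15 => ((a2.2.1 h14 h15).1 (d 0) ⟨h0, h1, h2, h3, h4, h5, h6, h7, h8, h9⟩ h10 h11).elim h12 h13) (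
  .cons (fun d hd m0 m1 m2 m3 h0 h1 h2 h3 h4 h5 h6 h7 h8 h9 h10 h11 h12 h13 h14 h15 => ((a2.2.1 h14 h15).2.1 (d 0) ⟨h0, h1, h2, h3, h4, h5, h6, h7, h8, h9⟩ h10 h11).elim h12 h13) (
  .cons (fun d hd m0 m1 m2 m3 h0 h1 h2 h3 h4 h5 h6 h7 h8 h9 h10 h11 h12 h13 h14 h15 => ((a2.2.1 h14 h15).2.2.1 (d 0) ⟨h0, h1, h2, h3, h4, h5, h6, h7, h8, h9⟩ h10 h11).elim h12 h13) (
  .cons (fun d hd m0 m1 m2 m3 h0 h1 h2 h3 h4 h5 h6 h7 h8 h9 h10 h11 h12 h13 h14 h15 => ((a2.2.1 h14 h15).2.2.2 (d 0) ⟨h0, h1, h2, h3, h4, h5, h6, h7, h8, h9⟩ h10 h11).elim h12 h13) (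
  .cons (fun d hd m0 m1 m2 m3 h0 h1 h2 h3 h4 h5 h6 h7 h8 h9 h10 h11 h12 h13 h14 h15 => ((a2.2.2 h14 h15).1 (d 0) ⟨h0, h1, h2, h3, h4, h5, h6, h7, h8, h9⟩ h10 h11).elim h12 h13) (
  .cons (fun d hd m0 m1 m2 m3 h0 h1 h2 h3 h4 h5 h6 h7 h8 h9 h10 h11 h12 h13 h14 h15 => ((a2.2.2 h14 h15).2.1 (d 0) ⟨h0, h1, h2, h3, h4, h5, h6, h7, h8, h9⟩ h10 h11).elim h12 h13) (
  .cons (fun d hd m0 m1 m2 m3 h0 h1 h2 h3 h4 h5 h6 h7 h8 h9 h10 h11 h12 h13 h14 h15 => ((a2.2.2 h14 h15).2.2.1 (d 0) ⟨h0, h1, h2, h3, h4, h5, h6, h7, h8, h9⟩ h10 h11).elim h12 h13) (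
  .cons (fun d hd m0 m1 m2 m3 h0 h1 h2 h3 h4 h5 h6 h7 h8 h9 h10 h11 h12 h13 h14 h15 => ((a2.2.2 h14 h15).2.2.2 (d 0) ⟨h0, h1, h2, h3, h4, h5, h6, h7, h8, h9⟩ h10 h11).elim h12 h13) (
  .cons (fun d hd h0 => h0 a3.1) (
  .cons (fun d hd m0 m1 m2 m3 h0 h1 h2 h3 h4 h5 h6 h7 h8 h9 h10 h11 h12 h13 h14 h15 => ((a3.2.1 h14 h15).1 (d 0) ⟨h0, h1, h2, h3, h4, h5, h6, h7, h8, h9⟩ h10 h11).elim h12 h13) (
  .cons (fun d hd m0 m1 m2 m3 h0 h1 h2 h3 h4 h5 h6 h7 h8 h9 h10 h11 h12 h13 h14 h15 => ((a3.2.1 h14 h15).2.1 (d 0) ⟨h0, h1, h2, h3, h4, h5, h6, h7, h8, h9⟩ h10 h11).elim h12 h13) (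
  .cons (fun d hd m0 m1 m2 m3 h0 h1 h2 h3 h4 h5 h6 h7 h8 h9 h10 h11 h12 h13 h14 h15 => ((a3.2.1 h14 h15).2.2.1 (d 0) ⟨h0, h1, h2, h3, h4, h5, h6, h7, h8, h9⟩ h10 h11).elim h12 h13) (
  .cons (fun d hd m0 m1 m2 m3 h0 h1 h2 h3 h4 h5 h6 h7 h8 h9 h10 h11 h12 h13 h14 h15 => ((a3.2.1 h14 h15).2.2.2 (d 0) ⟨h0, h1, h2, h3, h4, h5, h6, h7, h8, h9⟩ h10 h11).elim h12 h13) (
  .cons (fun d hd m0 m1 m2 m3 h0 h1 h2 h3 h4 h5 h6 h7 h8 h9 h10 h11 h12 h13 h14 h15 => ((a3.2.2 h14 h15).1 (d 0) ⟨h0, h1, h2, h3, h4, h5, h6, h7, h8, h9⟩ h10 h11).elim h12 h13) (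
  .cons (fun d hd m0 m1 m2 m3 h0 h1 h2 h3 h4 h5 h6 h7 h8 h9 h10 h11 h12 h13 h14 h15 => ((a3.2.2 h14 h15).2.1 (d 0) ⟨h0, h1, h2, h3, h4, h5, h6, h7, h8, h9⟩ h10 h11).elim h12 h13) (
  .cons (fun d hd m0 m1 m2 m3 h0 h1 h2 h3 h4 h5 h6 h7 h8 h9 h10 h11 h12 h13 h14 h15 => ((a3.2.2 h14 h15).2.2.1 (d 0) ⟨h0, h1, h2, h3, h4, h5, h6, h7, h8, h9⟩ h10 h11).elim h12 h13) (
  .cons (fun d hd m0 m1 m2 m3 h0 h1 h2 h3 h4 h5 h6 h7 h8 h9 h10 h11 h12 h13 h14 h15 => ((a3.2.2 h14 h15).2.2.2 (d 0) ⟨h0, h1, h2, h3, h4, h5, h6, h7, h8, h9⟩ h10 h11).elim h12 h13) (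
  .cons (fun d hd h0 => nx h0) (
  .cons (fun d hd h0 h1 h2 h3 h4 h5 h6 h7 h8 h9 => hk a (by simp) b (by simp) x (by simp) y (by simp) x2 (by simp) ⟨h0, h1, h2, h3, h4, h5, h6, h7, h8, h9⟩) (
  .cons (fun d hd h0 h1 h2 h3 h4 h5 h6 h7 h8 h9 => hk a (by simp) b (by simp) x (by simp) y (by simp) y2 (by simp) ⟨h0, h1, h2, h3, h4, h5, h6, h7, h8, h9⟩) (
  .cons (fun d hd h0 h1 h2 h3 h4 h5 h6 h7 h8 h9 => hk a (by simp) b (by simp) x (by simp) x2 (by simp) y2 (by simp) ⟨h0, h1, h2, h3, h4, h5, h6, h7, h8, h9⟩) (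
  .cons (fun d hd h0 h1 h2 h3 h4 h5 h6 h7 h8 h9 => hk a (by simp) b (by simp) y (by simp) x2 (by simp) y2 (by simp) ⟨h0, h1, h2, h3, h4, h5, h6, h7, h8, h9⟩) (
  .cons (fun d hd h0 h1 h2 h3 h4 h5 h6 h7 h8 h9 => hk a (by simp) x (by simp) y (by simp) x2 (by simp) y2 (by simp) ⟨h0, h1, h2, h3, h4, h5, h6, h7, h8, h9⟩) (
  .cons (fun d hd h0 h1 h2 h3 h4 h5 h6 h7 h8 h9 => hk b (by simp) x (by simp) y (by simp) x2 (by simp) y2 (by simp) ⟨h0, h1, h2, h3, h4, h5, h6, h7, h8, h9⟩) (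
  .cons (fun d hd h0 => h0 e.1) (
  .cons (fun d hd h0 => h0 e.2.1) (
  .cons (fun d hd h0 => h0 e.2.2.1) (
  .cons (fun d hd h0 => h0 e.2.2.2.1) (
  .cons (fun d hd h0 => h0 e.2.2.2.2.1) (
  .cons (fun d hd h0 => h0 e.2.2.2.2.2.1) (
  .cons (fun d hd h0 => h0 e.2.2.2.2.2.2.1) (
  .cons (fun d hd h0 => h0 e.2.2.2.2.2.2.2.1) (
  .cons (fun d hd h0 => h0 e.2.2.2.2.2.2.2.2.1) (
  .cons (fun d hd h0 => h0 e.2.2.2.2.2.2.2.2.2) (
  .cons (fun d hd h0 => h0 hw) (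
  .cons (fun d hd h0 => h0 g1) (
  .cons (fun d hd h0 => h0 g2) (
  .cons (fun d hd h0 => m1 h0) (
  .cons (fun d hd h0 => m2 h0) (
  .nil)))))))))))))))))))))))))))))))))))))))))))))))

/-- templates -/
def cb12_x : List Tm := [
  ⟨0, [], [], [.q true 2 8 10 9 11]⟩,
  ⟨1, [], [(0, 8), (0, 10), (0, 9), (0, 11)], [.b false 0 8 10, .b false 0 8 9, .b false 0 8 11, .b false 0 8 0, .b false 0 10 9, .b false 0 10 11, .b false 0 10 0, .b false 0 9 11, .b false 0 9 0, .b false 0 11 0, .q false 0 0 8 10 9, .q false 0 0 11 10 9, .q true 2 8 10 0 11, .q true 2 9 11 8 0]⟩,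
  ⟨1, [], [(0, 8), (0, 10), (0, 9), (0, 11)], [.b false 0 8 10, .b false 0 8 11, .b false 0 8 9, .b false 0 8 0, .b false 0 10 11, .b false 0 10 9, .b false 0 10 0, .b false 0 11 9, .b false 0 11 0, .b false 0 9 0, .q false 0 0 8 10 11, .q false 0 0 9 10 11, .q true 2 8 10 0 9, .q true 2 11 9 8 0]⟩,
  ⟨1, [], [(0, 8), (0, 10), (0, 9), (0, 11)], [.b false 0 10 8, .b false 0 10 9, .b false 0 10 11, .b false 0 10 0, .b false 0 8 9, .b false 0 8 11, .b false 0 8 0, .b false 0 9 11, .b false 0 9 0, .b false 0 11 0, .q false 0 0 10 8 9, .q false 0 0 11 8 9, .q true 2 10 8 0 11, .q true 2 9 11 10 0]⟩,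
  ⟨1, [], [(0, 8), (0, 10), (0, 9), (0, 11)], [.b false 0 10 8, .b false 0 10 11, .b false 0 10 9, .b false 0 10 0, .b false 0 8 11, .b false 0 8 9, .b false 0 8 0, .b false 0 11 9, .b false 0 11 0, .b false 0 9 0, .q false 0 0 10 8 11, .q false 0 0 9 8 11, .q true 2 10 8 0 9, .q true 2 11 9 10 0]⟩,
  ⟨0, [], [], [.q true 3 8 10 9 13]⟩,
  ⟨1, [], [(0, 8), (0, 9), (0, 10), (0, 13)], [.b false 0 8 9, .b false 0 8 10, .b false 0 8 13, .b false 0 8 0, .b false 0 9 10, .b false 0 9 13, .b false 0 9 0, .b false 0 10 13, .b false 0 10 0, .b false 0 13 0, .q false 0 0 8 9 10, .q false 0 0 13 9 10, .q true 2 8 9 0 13, .q true 2 10 13 8 0, .q false 2 8 9 10 13, .q true 0 8 10 9 13]⟩,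
  ⟨1, [], [(0, 8), (0, 9), (0, 10), (0, 13)], [.b false 0 8 9, .b false 0 8 13, .b false 0 8 10, .b false 0 8 0, .b false 0 9 13, .b false 0 9 10, .b false 0 9 0, .b false 0 13 10, .b false 0 13 0, .b false 0 10 0, .q false 0 0 8 9 13, .q false 0 0 10 9 13, .q true 2 8 9 0 10, .q true 2 13 10 8 0, .q false 2 8 9 10 13, .q true 0 8 10 9 13]⟩,
  ⟨1, [], [(0, 8), (0, 9), (0, 10), (0, 13)], [.b false 0 9 8, .b false 0 9 10, .b false 0 9 13, .b false 0 9 0, .b false 0 8 10, .b false 0 8 13, .b false 0 8 0, .b false 0 10 13, .b false 0 10 0, .b false 0 13 0, .q false 0 0 9 8 10, .q false 0 0 13 8 10, .q true 2 9 8 0 13, .q true 2 10 13 9 0, .q false 2 8 9 10 13, .q true 0 8 10 9 13]⟩,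
  ⟨1, [], [(0, 8), (0, 9), (0, 10), (0, 13)], [.b false 0 9 8, .b false 0 9 13, .b false 0 9 10, .b false 0 9 0, .b false 0 8 13, .b false 0 8 10, .b false 0 8 0, .b false 0 13 10, .b false 0 13 0, .b false 0 10 0, .q false 0 0 9 8 13, .q false 0 0 10 8 13, .q true 2 9 8 0 10, .q true 2 13 10 9 0, .q false 2 8 9 10 13, .q true 0 8 10 9 13]⟩,
  ⟨1, [], [(0, 8), (0, 13), (0, 10), (0, 9)], [.b false 0 8 13, .b false 0 8 10, .b false 0 8 9, .b false 0 8 0, .b false 0 13 10, .b false 0 13 9, .b false 0 13 0, .b false 0 10 9, .b false 0 10 0, .b false 0 9 0, .q false 0 0 8 13 10, .q false 0 0 9 13 10, .q true 2 8 13 0 9, .q true 2 10 9 8 0, .q false 2 8 13 10 9, .q true 0 8 10 9 13]⟩,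
  ⟨1, [], [(0, 8), (0, 13), (0, 10), (0, 9)], [.b false 0 8 13, .b false 0 8 9, .b false 0 8 10, .b false 0 8 0, .b false 0 13 9, .b false 0 13 10, .b false 0 13 0, .b false 0 9 10, .b false 0 9 0, .b false 0 10 0, .q false 0 0 8 13 9, .q false 0 0 10 13 9, .q true 2 8 13 0 10, .q true 2 9 10 8 0, .q false 2 8 13 10 9, .q true 0 8 10 9 13]⟩,
  ⟨1, [], [(0, 8), (0, 13), (0, 10), (0, 9)], [.b false 0 13 8, .b false 0 13 10, .b false 0 13 9, .b false 0 13 0, .b false 0 8 10, .b false 0 8 9, .b false 0 8 0, .b false 0 10 9, .b false 0 10 0, .b false 0 9 0, .q false 0 0 13 8 10, .q false 0 0 9 8 10, .q true 2 13 8 0 9, .q true 2 10 9 13 0, .q false 2 8 13 10 9, .q true 0 8 10 9 13]⟩,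
  ⟨1, [], [(0, 8), (0, 13), (0, 10), (0, 9)], [.b false 0 13 8, .b false 0 13 9, .b false 0 13 10, .b false 0 13 0, .b false 0 8 9, .b false 0 8 10, .b false 0 8 0, .b false 0 9 10, .b false 0 9 0, .b false 0 10 0, .q false 0 0 13 8 9, .q false 0 0 10 8 9, .q true 2 13 8 0 10, .q true 2 9 10 13 0, .q false 2 8 13 10 9, .q true 0 8 10 9 13]⟩,
  ⟨0, [], [], [.q true 3 8 12 9 11]⟩,
  ⟨1, [], [(0, 8), (0, 9), (0, 12), (0, 11)], [.b false 0 8 9, .b false 0 8 12, .b false 0 8 11, .b false 0 8 0, .b false 0 9 12, .b false 0 9 11, .b false 0 9 0, .b false 0 12 11, .b false 0 12 0, .b false 0 11 0, .q false 0 0 8 9 12, .q false 0 0 11 9 12, .q true 2 8 9 0 11, .q true 2 12 11 8 0, .q false 2 8 9 12 11, .q true 0 8 12 9 11]⟩,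
  ⟨1, [], [(0, 8), (0, 9), (0, 12), (0, 11)], [.b false 0 8 9, .b false 0 8 11, .b false 0 8 12, .b false 0 8 0, .b false 0 9 11, .b false 0 9 12, .b false 0 9 0, .b false 0 11 12, .b false 0 11 0, .b false 0 12 0, .q false 0 0 8 9 11, .q false 0 0 12 9 11, .q true 2 8 9 0 12, .q true 2 11 12 8 0, .q false 2 8 9 12 11, .q true 0 8 12 9 11]⟩,
  ⟨1, [], [(0, 8), (0, 9), (0, 12), (0, 11)], [.b false 0 9 8, .b false 0 9 12, .b false 0 9 11, .b false 0 9 0, .b false 0 8 12, .b false 0 8 11, .b false 0 8 0, .b false 0 12 11, .b false 0 12 0, .b false 0 11 0, .q false 0 0 9 8 12, .q false 0 0 11 8 12, .q true 2 9 8 0 11, .q true 2 12 11 9 0, .q false 2 8 9 12 11, .q true 0 8 12 9 11]⟩,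
  ⟨1, [], [(0, 8), (0, 9), (0, 12), (0, 11)], [.b false 0 9 8, .b false 0 9 11, .b false 0 9 12, .b false 0 9 0, .b false 0 8 11, .b false 0 8 12, .b false 0 8 0, .b false 0 11 12, .b false 0 11 0, .b false 0 12 0, .q false 0 0 9 8 11, .q false 0 0 12 8 11, .q true 2 9 8 0 12, .q true 2 11 12 9 0, .q false 2 8 9 12 11, .q true 0 8 12 9 11]⟩,
  ⟨1, [], [(0, 8), (0, 11), (0, 12), (0, 9)], [.b false 0 8 11, .b false 0 8 12, .b false 0 8 9, .b false 0 8 0, .b false 0 11 12, .b false 0 11 9, .b false 0 11 0, .b false 0 12 9, .b false 0 12 0, .b false 0 9 0, .q false 0 0 8 11 12, .q false 0 0 9 11 12, .q true 2 8 11 0 9, .q true 2 12 9 8 0, .q false 2 8 11 12 9, .q true 0 8 12 9 11]⟩,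
  ⟨1, [], [(0, 8), (0, 11), (0, 12), (0, 9)], [.b false 0 8 11, .b false 0 8 9, .b false 0 8 12, .b false 0 8 0, .b false 0 11 9, .b false 0 11 12, .b false 0 11 0, .b false 0 9 12, .b false 0 9 0, .b false 0 12 0, .q false 0 0 8 11 9, .q false 0 0 12 11 9, .q true 2 8 11 0 12, .q true 2 9 12 8 0, .q false 2 8 11 12 9, .q true 0 8 12 9 11]⟩,
  ⟨1, [], [(0, 8), (0, 11), (0, 12), (0, 9)], [.b false 0 11 8, .b false 0 11 12, .b false 0 11 9, .b false 0 11 0, .b false 0 8 12, .b false 0 8 9, .b false 0 8 0, .b false 0 12 9, .b false 0 12 0, .b false 0 9 0, .q false 0 0 11 8 12, .q false 0 0 9 8 12, .q true 2 11 8 0 9, .q true 2 12 9 11 0, .q false 2 8 11 12 9, .q true 0 8 12 9 11]⟩,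
  ⟨1, [], [(0, 8), (0, 11), (0, 12), (0, 9)], [.b false 0 11 8, .b false 0 11 9, .b false 0 11 12, .b false 0 11 0, .b false 0 8 9, .b false 0 8 12, .b false 0 8 0, .b false 0 9 12, .b false 0 9 0, .b false 0 12 0, .q false 0 0 11 8 9, .q false 0 0 12 8 9, .q true 2 11 8 0 12, .q true 2 9 12 11 0, .q false 2 8 11 12 9, .q true 0 8 12 9 11]⟩,
  ⟨0, [], [], [.q false 0 8 12 9 13]⟩,
  ⟨0, [], [], [.b false 0 8 9, .b false 0 8 10, .b false 0 8 11, .b false 0 8 12, .b false 0 9 10, .b false 0 9 11, .b false 0 9 12, .b false 0 10 11, .b false 0 10 12, .b false 0 11 12]⟩,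
  ⟨0, [], [], [.b false 0 8 9, .b false 0 8 10, .b false 0 8 11, .b false 0 8 13, .b false 0 9 10, .b false 0 9 11, .b false 0 9 13, .b false 0 10 11, .b false 0 10 13, .b false 0 11 13]⟩,
  ⟨0, [], [], [.b false 0 8 9, .b false 0 8 10, .b false 0 8 12, .b false 0 8 13, .b false 0 9 10, .b false 0 9 12, .b false 0 9 13, .b false 0 10 12, .b false 0 10 13, .b false 0 12 13]⟩,
  ⟨0, [], [], [.b false 0 8 9, .b false 0 8 11, .b false 0 8 12, .b false 0 8 13, .b false 0 9 11, .b false 0 9 12, .b false 0 9 13, .b false 0 11 12, .b false 0 11 13, .b false 0 12 13]⟩,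
  ⟨0, [], [], [.b false 0 8 10, .b false 0 8 11, .b false 0 8 12, .b false 0 8 13, .b false 0 10 11, .b false 0 10 12, .b false 0 10 13, .b false 0 11 12, .b false 0 11 13, .b false 0 12 13]⟩,
  ⟨0, [], [], [.b false 0 9 10, .b false 0 9 11, .b false 0 9 12, .b false 0 9 13, .b false 0 10 11, .b false 0 10 12, .b false 0 10 13, .b false 0 11 12, .b false 0 11 13, .b false 0 12 13]⟩,
  ⟨0, [], [], [.b true 0 8 13]⟩,
  ⟨0, [], [], [.b true 0 8 9]⟩,
  ⟨0, [], [], [.b true 0 8 12]⟩,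
  ⟨0, [], [], [.b true 0 8 14]⟩,
  ⟨0, [], [], [.b true 0 13 9]⟩,
  ⟨0, [], [], [.b true 0 13 12]⟩,
  ⟨0, [], [], [.b true 0 13 14]⟩,
  ⟨0, [], [], [.b true 0 9 12]⟩,
  ⟨0, [], [], [.b true 0 9 14]⟩,
  ⟨0, [], [], [.b true 0 12 14]⟩,
  ⟨0, [], [], [.q true 2 8 13 9 12]⟩,
  ⟨0, [], [], [.q true 0 14 13 8 9]⟩,
  ⟨0, [], [], [.q true 0 14 12 8 9]⟩,
  ⟨0, [], [], [.q false 2 13 8 14 12]⟩,
  ⟨0, [], [], [.q false 2 9 12 13 14]⟩]

def cb12_p0 : List Nat := [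
0x82a00b0000000d10944000201,
0xa820010000000af000000002036c000301,
0xca820050000000040000000d30c50000301,
0xd5000000006000200]

def cb12_pf : List Nat := cb12_p0

theorem cb12_ref {V : Type} {S : SRel V} {p : Nat → V} (hp : ∀ i j, i < 7 → j < 7 → p i = p j → i = j)
    (hts : PHs S p 7 ((tO ++ (tB ++ (tR ++ (tF ++ tK)))) ++ cb12_x)) : False :=
  refuteS (k := 7) (n2 := 1) (n3 := 1) (n4 := 4) (o3 := 28) (o4 := 112) (M := 1736) ((tO ++ (tB ++ (tR ++ (tF ++ tK)))) ++ cb12_x) cb12_pf (by decide +kernel)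
    (by decide +kernel) (by decide +kernel) (by decide +kernel) hp hts

theorem cb12 {V : Type} {G : SimpleGraph V} {X W : V → V → V → V → Prop} (h : WF G X W) {a b x y x2 y2 t : V}
    (nd : [a, b, x, y, x2, y2, t].Nodup) (a1 : Pr G X W a x b y) (a2 : IF G X W a x b y2) (a3 : IF G X W a x2 b y) (nx : ¬ X a x2 b y2)
    (hk : K5F G [a, b, x, y, x2, y2]) (e : K5 G a y2 b x2 t) (hw : W a y2 b x2) (g1 : X t y2 a b) (g2 : X t x2 a b)
    (m1 : ¬ W y2 a t x2) (m2 : ¬ W b x2 y2 t) : False :=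
  cb12_ref (S := (syW h).rel) (pt_inj (o := a) nd rfl) (PHs.app (UHs.phs ((tO_h h).app ((tB_h h).app ((tR_h h).app ((tF_h h).app (tK_h h))))) _ _) (
  .cons (fun d hd h0 => h0 a1.1) (
  .cons (fun d hd m0 m1 m2 m3 h0 h1 h2 h3 h4 h5 h6 h7 h8 h9 h10 h11 h12 h13 => ((a1.2).1 (d 0) ⟨h0, h1, h2, h3, h4, h5, h6, h7, h8, h9⟩ h10 h11).elim h12 h13) (
  .cons (fun d hd m0 m1 m2 m3 h0 h1 h2 h3 h4 h5 h6 h7 h8 h9 h10 h11 h12 h13 => ((a1.2).2.1 (d 0) ⟨h0, h1, h2, h3, h4, h5, h6, h7, h8, h9⟩ h10 h11).elim h12 h13) (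
  .cons (fun d hd m0 m1 m2 m3 h0 h1 h2 h3 h4 h5 h6 h7 h8 h9 h10 h11 h12 h13 => ((a1.2).2.2.1 (d 0) ⟨h0, h1, h2, h3, h4, h5, h6, h7, h8, h9⟩ h10 h11).elim h12 h13) (
  .cons (fun d hd m0 m1 m2 m3 h0 h1 h2 h3 h4 h5 h6 h7 h8 h9 h10 h11 h12 h13 => ((a1.2).2.2.2 (d 0) ⟨h0, h1, h2, h3, h4, h5, h6, h7, h8, h9⟩ h10 h11).elim h12 h13) (
  .cons (fun d hd h0 => h0 a2.1) (
  .cons (fun d hd m0 m1 m2 m3 h0 h1 h2 h3 h4 h5 h6 h7 h8 h9 h10 h11 h12 h13 h14 h15 => ((a2.2.1 h14 h15).1 (d 0) ⟨h0, h1, h2, h3, h4, h5, h6, h7, h8, h9⟩ h10 h11).elim h12 h13) (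
  .cons (fun d hd m0 m1 m2 m3 h0 h1 h2 h3 h4 h5 h6 h7 h8 h9 h10 h11 h12 h13 h14 h15 => ((a2.2.1 h14 h15).2.1 (d 0) ⟨h0, h1, h2, h3, h4, h5, h6, h7, h8, h9⟩ h10 h11).elim h12 h13) (
  .cons (fun d hd m0 m1 m2 m3 h0 h1 h2 h3 h4 h5 h6 h7 h8 h9 h10 h11 h12 h13 h14 h15 => ((a2.2.1 h14 h15).2.2.1 (d 0) ⟨h0, h1, h2, h3, h4, h5, h6, h7, h8, h9⟩ h10 h11).elim h12 h13) (
  .cons (fun d hd m0 m1 m2 m3 h0 h1 h2 h3 h4 h5 h6 h7 h8 h9 h10 h11 h12 h13 h14 h15 => ((a2.2.1 h14 h15).2.2.2 (d 0) ⟨h0, h1, h2, h3, h4, h5, h6, h7, h8, h9⟩ h10 h11).elim h12 h13) (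
  .cons (fun d hd m0 m1 m2 m3 h0 h1 h2 h3 h4 h5 h6 h7 h8 h9 h10 h11 h12 h13 h14 h15 => ((a2.2.2 h14 h15).1 (d 0) ⟨h0, h1, h2, h3, h4, h5, h6, h7, h8, h9⟩ h10 h11).elim h12 h13) (
  .cons (fun d hd m0 m1 m2 m3 h0 h1 h2 h3 h4 h5 h6 h7 h8 h9 h10 h11 h12 h13 h14 h15 => ((a2.2.2 h14 h15).2.1 (d 0) ⟨h0, h1, h2, h3, h4, h5, h6, h7, h8, h9⟩ h10 h11).elim h12 h13) (
  .cons (fun d hd m0 m1 m2 m3 h0 h1 h2 h3 h4 h5 h6 h7 h8 h9 h10 h11 h12 h13 h14 h15 => ((a2.2.2 h14 h15).2.2.1 (d 0) ⟨h0, h1, h2, h3, h4, h5, h6, h7, h8, h9⟩ h10 h11).elim h12 h13) (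
  .cons (fun d hd m0 m1 m2 m3 h0 h1 h2 h3 h4 h5 h6 h7 h8 h9 h10 h11 h12 h13 h14 h15 => ((a2.2.2 h14 h15).2.2.2 (d 0) ⟨h0, h1, h2, h3, h4, h5, h6, h7, h8, h9⟩ h10 h11).elim h12 h13) (
  .cons (fun d hd h0 => h0 a3.1) (
  .cons (fun d hd m0 m1 m2 m3 h0 h1 h2 h3 h4 h5 h6 h7 h8 h9 h10 h11 h12 h13 h14 h15 => ((a3.2.1 h14 h15).1 (d 0) ⟨h0, h1, h2, h3, h4, h5, h6, h7, h8, h9⟩ h10 h11).elim h12 h13) (
  .cons (fun d hd m0 m1 m2 m3 h0 h1 h2 h3 h4 h5 h6 h7 h8 h9 h10 h11 h12 h13 h14 h15 => ((a3.2.1 h14 h15).2.1 (d 0) ⟨h0, h1, h2, h3, h4, h5, h6, h7, h8, h9⟩ h10 h11).elim h12 h13) (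
  .cons (fun d hd m0 m1 m2 m3 h0 h1 h2 h3 h4 h5 h6 h7 h8 h9 h10 h11 h12 h13 h14 h15 => ((a3.2.1 h14 h15).2.2.1 (d 0) ⟨h0, h1, h2, h3, h4, h5, h6, h7, h8, h9⟩ h10 h11).elim h12 h13) (
  .cons (fun d hd m0 m1 m2 m3 h0 h1 h2 h3 h4 h5 h6 h7 h8 h9 h10 h11 h12 h13 h14 h15 => ((a3.2.1 h14 h15).2.2.2 (d 0) ⟨h0, h1, h2, h3, h4, h5, h6, h7, h8, h9⟩ h10 h11).elim h12 h13) (
  .cons (fun d hd m0 m1 m2 m3 h0 h1 h2 h3 h4 h5 h6 h7 h8 h9 h10 h11 h12 h13 h14 h15 => ((a3.2.2 h14 h15).1 (d 0) ⟨h0, h1, h2, h3, h4, h5, h6, h7, h8, h9⟩ h10 h11).elim h12 h13) (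
  .cons (fun d hd m0 m1 m2 m3 h0 h1 h2 h3 h4 h5 h6 h7 h8 h9 h10 h11 h12 h13 h14 h15 => ((a3.2.2 h14 h15).2.1 (d 0) ⟨h0, h1, h2, h3, h4, h5, h6, h7, h8, h9⟩ h10 h11).elim h12 h13) (
  .cons (fun d hd m0 m1 m2 m3 h0 h1 h2 h3 h4 h5 h6 h7 h8 h9 h10 h11 h12 h13 h14 h15 => ((a3.2.2 h14 h15).2.2.1 (d 0) ⟨h0, h1, h2, h3, h4, h5, h6, h7, h8, h9⟩ h10 h11).elim h12 h13) (
  .cons (fun d hd m0 m1 m2 m3 h0 h1 h2 h3 h4 h5 h6 h7 h8 h9 h10 h11 h12 h13 h14 h15 => ((a3.2.2 h14 h15).2.2.2 (d 0) ⟨h0, h1, h2, h3, h4, h5, h6, h7, h8, h9⟩ h10 h11).elim h12 h13) (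
  .cons (fun d hd h0 => nx h0) (
  .cons (fun d hd h0 h1 h2 h3 h4 h5 h6 h7 h8 h9 => hk a (by simp) b (by simp) x (by simp) y (by simp) x2 (by simp) ⟨h0, h1, h2, h3, h4, h5, h6, h7, h8, h9⟩) (
  .cons (fun d hd h0 h1 h2 h3 h4 h5 h6 h7 h8 h9 => hk a (by simp) b (by simp) x (by simp) y (by simp) y2 (by simp) ⟨h0, h1, h2, h3, h4, h5, h6, h7, h8, h9⟩) (
  .cons (fun d hd h0 h1 h2 h3 h4 h5 h6 h7 h8 h9 => hk a (by simp) b (by simp) x (by simp) x2 (by simp) y2 (by simp) ⟨h0, h1, h2, h3, h4, h5, h6, h7, h8, h9⟩) (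
  .cons (fun d hd h0 h1 h2 h3 h4 h5 h6 h7 h8 h9 => hk a (by simp) b (by simp) y (by simp) x2 (by simp) y2 (by simp) ⟨h0, h1, h2, h3, h4, h5, h6, h7, h8, h9⟩) (
  .cons (fun d hd h0 h1 h2 h3 h4 h5 h6 h7 h8 h9 => hk a (by simp) x (by simp) y (by simp) x2 (by simp) y2 (by simp) ⟨h0, h1, h2, h3, h4, h5, h6, h7, h8, h9⟩) (
  .cons (fun d hd h0 h1 h2 h3 h4 h5 h6 h7 h8 h9 => hk b (by simp) x (by simp) y (by simp) x2 (by simp) y2 (by simp) ⟨h0, h1, h2, h3, h4, h5, h6, h7, h8, h9⟩) (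
  .cons (fun d hd h0 => h0 e.1) (
  .cons (fun d hd h0 => h0 e.2.1) (
  .cons (fun d hd h0 => h0 e.2.2.1) (
  .cons (fun d hd h0 => h0 e.2.2.2.1) (
  .cons (fun d hd h0 => h0 e.2.2.2.2.1) (
  .cons (fun d hd h0 => h0 e.2.2.2.2.2.1) (
  .cons (fun d hd h0 => h0 e.2.2.2.2.2.2.1) (
  .cons (fun d hd h0 => h0 e.2.2.2.2.2.2.2.1) (
  .cons (fun d hd h0 => h0 e.2.2.2.2.2.2.2.2.1) (
  .cons (fun d hd h0 => h0 e.2.2.2.2.2.2.2.2.2) (
  .cons (fun d hd h0 => h0 hw) (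
  .cons (fun d hd h0 => h0 g1) (
  .cons (fun d hd h0 => h0 g2) (
  .cons (fun d hd h0 => m1 h0) (
  .cons (fun d hd h0 => m2 h0) (
  .nil)))))))))))))))))))))))))))))))))))))))))))))))

/-- templates -/
def cb13_x : List Tm := [
  ⟨0, [], [], [.q true 2 8 10 9 11]⟩,
  ⟨1, [], [(0, 8), (0, 10), (0, 9), (0, 11)], [.b false 0 8 10, .b false 0 8 9, .b false 0 8 11, .b false 0 8 0, .b false 0 10 9, .b false 0 10 11, .b false 0 10 0, .b false 0 9 11, .b false 0 9 0, .b false 0 11 0, .q false 0 0 8 10 9, .q false 0 0 11 10 9, .q true 2 8 10 0 11, .q true 2 9 11 8 0]⟩,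
  ⟨1, [], [(0, 8), (0, 10), (0, 9), (0, 11)], [.b false 0 8 10, .b false 0 8 11, .b false 0 8 9, .b false 0 8 0, .b false 0 10 11, .b false 0 10 9, .b false 0 10 0, .b false 0 11 9, .b false 0 11 0, .b false 0 9 0, .q false 0 0 8 10 11, .q false 0 0 9 10 11, .q true 2 8 10 0 9, .q true 2 11 9 8 0]⟩,
  ⟨1, [], [(0, 8), (0, 10), (0, 9), (0, 11)], [.b false 0 10 8, .b false 0 10 9, .b false 0 10 11, .b false 0 10 0, .b false 0 8 9, .b false 0 8 11, .b false 0 8 0, .b false 0 9 11, .b false 0 9 0, .b false 0 11 0, .q false 0 0 10 8 9, .q false 0 0 11 8 9, .q true 2 10 8 0 11, .q true 2 9 11 10 0]⟩,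
  ⟨1, [], [(0, 8), (0, 10), (0, 9), (0, 11)], [.b false 0 10 8, .b false 0 10 11, .b false 0 10 9, .b false 0 10 0, .b false 0 8 11, .b false 0 8 9, .b false 0 8 0, .b false 0 11 9, .b false 0 11 0, .b false 0 9 0, .q false 0 0 10 8 11, .q false 0 0 9 8 11, .q true 2 10 8 0 9, .q true 2 11 9 10 0]⟩,
  ⟨0, [], [], [.q true 3 8 10 9 13]⟩,
  ⟨1, [], [(0, 8), (0, 9), (0, 10), (0, 13)], [.b false 0 8 9, .b false 0 8 10, .b false 0 8 13, .b false 0 8 0, .b false 0 9 10, .b false 0 9 13, .b false 0 9 0, .b false 0 10 13, .b false 0 10 0, .b false 0 13 0, .q false 0 0 8 9 10, .q false 0 0 13 9 10, .q true 2 8 9 0 13, .q true 2 10 13 8 0, .q false 2 8 9 10 13, .q true 0 8 10 9 13]⟩,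
  ⟨1, [], [(0, 8), (0, 9), (0, 10), (0, 13)], [.b false 0 8 9, .b false 0 8 13, .b false 0 8 10, .b false 0 8 0, .b false 0 9 13, .b false 0 9 10, .b false 0 9 0, .b false 0 13 10, .b false 0 13 0, .b false 0 10 0, .q false 0 0 8 9 13, .q false 0 0 10 9 13, .q true 2 8 9 0 10, .q true 2 13 10 8 0, .q false 2 8 9 10 13, .q true 0 8 10 9 13]⟩,
  ⟨1, [], [(0, 8), (0, 9), (0, 10), (0, 13)], [.b false 0 9 8, .b false 0 9 10, .b false 0 9 13, .b false 0 9 0, .b false 0 8 10, .b false 0 8 13, .b false 0 8 0, .b false 0 10 13, .b false 0 10 0, .b false 0 13 0, .q false 0 0 9 8 10, .q false 0 0 13 8 10, .q true 2 9 8 0 13, .q true 2 10 13 9 0, .q false 2 8 9 10 13, .q true 0 8 10 9 13]⟩,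
  ⟨1, [], [(0, 8), (0, 9), (0, 10), (0, 13)], [.b false 0 9 8, .b false 0 9 13, .b false 0 9 10, .b false 0 9 0, .b false 0 8 13, .b false 0 8 10, .b false 0 8 0, .b false 0 13 10, .b false 0 13 0, .b false 0 10 0, .q false 0 0 9 8 13, .q false 0 0 10 8 13, .q true 2 9 8 0 10, .q true 2 13 10 9 0, .q false 2 8 9 10 13, .q true 0 8 10 9 13]⟩,
  ⟨1, [], [(0, 8), (0, 13), (0, 10), (0, 9)], [.b false 0 8 13, .b false 0 8 10, .b false 0 8 9, .b false 0 8 0, .b false 0 13 10, .b false 0 13 9, .b false 0 13 0, .b false 0 10 9, .b false 0 10 0, .b false 0 9 0, .q false 0 0 8 13 10, .q false 0 0 9 13 10, .q true 2 8 13 0 9, .q true 2 10 9 8 0, .q false 2 8 13 10 9, .q true 0 8 10 9 13]⟩,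
  ⟨1, [], [(0, 8), (0, 13), (0, 10), (0, 9)], [.b false 0 8 13, .b false 0 8 9, .b false 0 8 10, .b false 0 8 0, .b false 0 13 9, .b false 0 13 10, .b false 0 13 0, .b false 0 9 10, .b false 0 9 0, .b false 0 10 0, .q false 0 0 8 13 9, .q false 0 0 10 13 9, .q true 2 8 13 0 10, .q true 2 9 10 8 0, .q false 2 8 13 10 9, .q true 0 8 10 9 13]⟩,
  ⟨1, [], [(0, 8), (0, 13), (0, 10), (0, 9)], [.b false 0 13 8, .b false 0 13 10, .b false 0 13 9, .b false 0 13 0, .b false 0 8 10, .b false 0 8 9, .b false 0 8 0, .b false 0 10 9, .b false 0 10 0, .b false 0 9 0, .q false 0 0 13 8 10, .q false 0 0 9 8 10, .q true 2 13 8 0 9, .q true 2 10 9 13 0, .q false 2 8 13 10 9, .q true 0 8 10 9 13]⟩,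
  ⟨1, [], [(0, 8), (0, 13), (0, 10), (0, 9)], [.b false 0 13 8, .b false 0 13 9, .b false 0 13 10, .b false 0 13 0, .b false 0 8 9, .b false 0 8 10, .b false 0 8 0, .b false 0 9 10, .b false 0 9 0, .b false 0 10 0, .q false 0 0 13 8 9, .q false 0 0 10 8 9, .q true 2 13 8 0 10, .q true 2 9 10 13 0, .q false 2 8 13 10 9, .q true 0 8 10 9 13]⟩,
  ⟨0, [], [], [.q true 3 8 12 9 11]⟩,
  ⟨1, [], [(0, 8), (0, 9), (0, 12), (0, 11)], [.b false 0 8 9, .b false 0 8 12, .b false 0 8 11, .b false 0 8 0, .b false 0 9 12, .b false 0 9 11, .b false 0 9 0, .b false 0 12 11, .b false 0 12 0, .b false 0 11 0, .q false 0 0 8 9 12, .q false 0 0 11 9 12, .q true 2 8 9 0 11, .q true 2 12 11 8 0, .q false 2 8 9 12 11, .q true 0 8 12 9 11]⟩,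
  ⟨1, [], [(0, 8), (0, 9), (0, 12), (0, 11)], [.b false 0 8 9, .b false 0 8 11, .b false 0 8 12, .b false 0 8 0, .b false 0 9 11, .b false 0 9 12, .b false 0 9 0, .b false 0 11 12, .b false 0 11 0, .b false 0 12 0, .q false 0 0 8 9 11, .q false 0 0 12 9 11, .q true 2 8 9 0 12, .q true 2 11 12 8 0, .q false 2 8 9 12 11, .q true 0 8 12 9 11]⟩,
  ⟨1, [], [(0, 8), (0, 9), (0, 12), (0, 11)], [.b false 0 9 8, .b false 0 9 12, .b false 0 9 11, .b false 0 9 0, .b false 0 8 12, .b false 0 8 11, .b false 0 8 0, .b false 0 12 11, .b false 0 12 0, .b false 0 11 0, .q false 0 0 9 8 12, .q false 0 0 11 8 12, .q true 2 9 8 0 11, .q true 2 12 11 9 0, .q false 2 8 9 12 11, .q true 0 8 12 9 11]⟩,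
  ⟨1, [], [(0, 8), (0, 9), (0, 12), (0, 11)], [.b false 0 9 8, .b false 0 9 11, .b false 0 9 12, .b false 0 9 0, .b false 0 8 11, .b false 0 8 12, .b false 0 8 0, .b false 0 11 12, .b false 0 11 0, .b false 0 12 0, .q false 0 0 9 8 11, .q false 0 0 12 8 11, .q true 2 9 8 0 12, .q true 2 11 12 9 0, .q false 2 8 9 12 11, .q true 0 8 12 9 11]⟩,
  ⟨1, [], [(0, 8), (0, 11), (0, 12), (0, 9)], [.b false 0 8 11, .b false 0 8 12, .b false 0 8 9, .b false 0 8 0, .b false 0 11 12, .b false 0 11 9, .b false 0 11 0, .b false 0 12 9, .b false 0 12 0, .b false 0 9 0, .q false 0 0 8 11 12, .q false 0 0 9 11 12, .q true 2 8 11 0 9, .q true 2 12 9 8 0, .q false 2 8 11 12 9, .q true 0 8 12 9 11]⟩,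
  ⟨1, [], [(0, 8), (0, 11), (0, 12), (0, 9)], [.b false 0 8 11, .b false 0 8 9, .b false 0 8 12, .b false 0 8 0, .b false 0 11 9, .b false 0 11 12, .b false 0 11 0, .b false 0 9 12, .b false 0 9 0, .b false 0 12 0, .q false 0 0 8 11 9, .q false 0 0 12 11 9, .q true 2 8 11 0 12, .q true 2 9 12 8 0, .q false 2 8 11 12 9, .q true 0 8 12 9 11]⟩,
  ⟨1, [], [(0, 8), (0, 11), (0, 12), (0, 9)], [.b false 0 11 8, .b false 0 11 12, .b false 0 11 9, .b false 0 11 0, .b false 0 8 12, .b false 0 8 9, .b false 0 8 0, .b false 0 12 9, .b false 0 12 0, .b false 0 9 0, .q false 0 0 11 8 12, .q false 0 0 9 8 12, .q true 2 11 8 0 9, .q true 2 12 9 11 0, .q false 2 8 11 12 9, .q true 0 8 12 9 11]⟩,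
  ⟨1, [], [(0, 8), (0, 11), (0, 12), (0, 9)], [.b false 0 11 8, .b false 0 11 9, .b false 0 11 12, .b false 0 11 0, .b false 0 8 9, .b false 0 8 12, .b false 0 8 0, .b false 0 9 12, .b false 0 9 0, .b false 0 12 0, .q false 0 0 11 8 9, .q false 0 0 12 8 9, .q true 2 11 8 0 12, .q true 2 9 12 11 0, .q false 2 8 11 12 9, .q true 0 8 12 9 11]⟩,
  ⟨0, [], [], [.q false 0 8 12 9 13]⟩,
  ⟨0, [], [], [.b false 0 8 9, .b false 0 8 10, .b false 0 8 11, .b false 0 8 12, .b false 0 9 10, .b false 0 9 11, .b false 0 9 12, .b false 0 10 11, .b false 0 10 12, .b false 0 11 12]⟩,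
  ⟨0, [], [], [.b false 0 8 9, .b false 0 8 10, .b false 0 8 11, .b false 0 8 13, .b false 0 9 10, .b false 0 9 11, .b false 0 9 13, .b false 0 10 11, .b false 0 10 13, .b false 0 11 13]⟩,
  ⟨0, [], [], [.b false 0 8 9, .b false 0 8 10, .b false 0 8 12, .b false 0 8 13, .b false 0 9 10, .b false 0 9 12, .b false 0 9 13, .b false 0 10 12, .b false 0 10 13, .b false 0 12 13]⟩,
  ⟨0, [], [], [.b false 0 8 9, .b false 0 8 11, .b false 0 8 12, .b false 0 8 13, .b false 0 9 11, .b false 0 9 12, .b false 0 9 13, .b false 0 11 12, .b false 0 11 13, .b false 0 12 13]⟩,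
  ⟨0, [], [], [.b false 0 8 10, .b false 0 8 11, .b false 0 8 12, .b false 0 8 13, .b false 0 10 11, .b false 0 10 12, .b false 0 10 13, .b false 0 11 12, .b false 0 11 13, .b false 0 12 13]⟩,
  ⟨0, [], [], [.b false 0 9 10, .b false 0 9 11, .b false 0 9 12, .b false 0 9 13, .b false 0 10 11, .b false 0 10 12, .b false 0 10 13, .b false 0 11 12, .b false 0 11 13, .b false 0 12 13]⟩,
  ⟨0, [], [], [.b true 0 8 13]⟩,
  ⟨0, [], [], [.b true 0 8 9]⟩,
  ⟨0, [], [], [.b true 0 8 12]⟩,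
  ⟨0, [], [], [.b true 0 8 14]⟩,
  ⟨0, [], [], [.b true 0 13 9]⟩,
  ⟨0, [], [], [.b true 0 13 12]⟩,
  ⟨0, [], [], [.b true 0 13 14]⟩,
  ⟨0, [], [], [.b true 0 9 12]⟩,
  ⟨0, [], [], [.b true 0 9 14]⟩,
  ⟨0, [], [], [.b true 0 12 14]⟩,
  ⟨0, [], [], [.q true 2 8 13 9 12]⟩,
  ⟨0, [], [], [.q true 0 14 13 8 12]⟩,
  ⟨0, [], [], [.q true 0 14 9 8 12]⟩,
  ⟨0, [], [], [.q false 2 13 8 14 9]⟩,
  ⟨0, [], [], [.q false 2 12 9 13 14]⟩]

def cb13_p0 : List Nat := [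
0x6240090000000810001000201,
0x2640090000000810006000201,
0x462090000000810004000201,
0x2604090000000810008000201,
0x62400b00000008107b4000201,
0xc850000000020000000060000000040000000080472042a06cb06cf06dd06de06df06e00af40b4c00050a,
0xc8900000000200000000600000000400000000804de047206cb06cf06dd06de06df06e00b440ba000050a,
0xa2401900000008b0966000201,
0xb300000000200000000600000000400000000806cb06cf06d706d806d906da000506,
0xb500000000200000000606cb06d206d306d406d706d806d906db000308,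
0xb700000000200000000406cf06d206d306d506d706d806da06db000308,
0x82a00b0000000d10944000201,
0xa820010000000af000000018036c000301,
0xca80030000000d30c88000201,
0xac80030000000d30b20000201,
0x2ca80070000000af0000000d3048c000301,
0x8c2a00700000001800000001c0b68000301,
0xc20a80700000001a00000001e04b0000301,
0xc820030000000200c50000201,
0x2c80030000000200b00000201,
0xac82030000000240ce0000201,
0x8ca2030000000240c8c000201,
0xca8200700000001a00000002605f0000301,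
0x8a2c00700000001e0000000280b14000301,
0xca200b00000002e0cba000201,
0xa2c00f0000000320000000300000000cd0000000020000000bd0000000c90000000d70b17000801,
0xc8a21700000002c00000002a0000000cf0000000cb0000000c50000000c70000000cd0000000c90000000d90c8f000a01,
0x84a20f00402a835000a8241b00028a4090008a4203000a8420b0000000c70000000cb0000000060000000d10a40094b000c000a03,
0xa2840d000a28425000000038000a8241b00860243500840622d0008a42030000000c70000000060000000cb00000008100000009d0a40000c000c02,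
0x14000a2400d00c40a207000ca420300284ca0700000003a004c2a807000ac84030000000c50000000bd0000000c70000000cb0000000c100000000600000000200000001000000002400000003000000002a0ce406d9001302,
0xc62407f00c64203d00c64203900062c013000ca6207004ca6207004a06207000a4621300024c01700a60243500a42c007000c2a425000a4c01300042ac39000c2a40d000c2400d000ca241b00a4c023d00000003c00a40c207000ac420300284ca070000000810000000cd0000000c300000000800000000400000000600000000200000000a0000000300000000340000000c50000000c900000008b00000002200000002a0cd00ce4002502,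
0xc62407f00c64203d00c64203900062c013000ca6207004ca6207004a06207000a4620b00a20643300060a40d00042c00f00a42c00700c60a407000ca6403000ac400300480ca0700a4c023d00a40c23d0002ac411000ca641b00064ca1b00486ca0700000003e00286ca070000000810000000cd0000000c300000000800000000400000000600000000200000000a0000000bd00000002a0000000c900000003400000008b0000000d30000000300ce8001106cb002703,
0xa0c60d000ca60170000000bd0000000c90000000040000000c3055c06da06040ccf055e000605,
0x42004c6a0070004ca639004a0c62f00c624023000a0641b000a46011000000040000c6a40d00064ca1b000ca641b00a4c023d00860ca05000ca400300480ca07000ca640300486ca0700000003e00286ca070000000810000000080000000bd0000000c900000008b00000003400000002a0000000d30ce80011001b02,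
0x6a40233000000012000a2400f000a2400d000a4200b006a2400700a64200700062a00b00c40a60700c20a607002c6a0070006ca00300064200100a60420700c42a007000ca400300480ca0700c42a607000ac640300486ca0700000003e000ac620300286ca070000000440000000810000000c50000000bd00000008b00000000600000000200000001000000000a00000002200000002a0000000d30ce806da0c24002303,
0x60840d00064a81b00820643300000001400a60840700c84a00700c84a607000ca860300000004400084620b008a26407000486203004a86207000a4620700c62a007006c2a807000ac860300a20640700c64a00700064200100a60420700c42a007000ca400300480ca0700c42a607000ac640300486ca0700000003e000ac620300286ca070000000080000000c10000000c70000000810000000c50000000bd0000000cb00000000a00000002a0000000220000000d300000002400000001c0ce8055c06cb002b03,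
0xc0641b000c2400d00a4c0239000000048006c24007000ca640700a40c60700c64a007000ca400300480ca07000ca640300486ca0700000003e00286ca070000000080000000c300000000600000000200000008b00000003400000000a00000002a0000000d30ce8055c001702,
0x40a60d0026a402700c40a6070000000460006ca00300000004a000000044000ac640300486ca070000000100000000810000000bd0000000040000000080ce8061c000e02,
0x4c00000003e00286ca0700000002a0ce8000401,
0x680ca070000000d300000004e0604000301,
0x862ca0700000002a00000004e0cd0000301,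
0xca60030000000500c24000201,
0xac60030000000500b1c000201,
0xca600b0000000500cce000201,
0xc86a00700000001c000000054094c000301,
0xc62a0070000000220000000540934000301,
0xa86c00700000001e0000000560b08000301,
0xa62c0070000000300000000560af0000301,
0xa4620700000000a00000005c09b8000301,
0xc4620700000000a0000000600ba4000301,
0xc4a60d00064ca1b000ac6403000c4a625000a6c00f000ca061b0000ac60900a62402d0000000c900000000800000008b0000000810000000580000000560000000040000000bd00000005000120cd4001102,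
0xa04822700c42a83d0008ca4110a846024b000c2400d00a4c023900ca2400500042a00f000a2400f00a64203b0000a2609006a0423b0004a260900a64203d0000a261100c42a007000ca400300460ca070000000660000000d10000000360000000810000000060000000020000000c300000008b0000000340000000c50000000100000000bd000000022000000050001206d9002002,
0xc42a8390ca60846500c82402500a0482270082640230a846024b0000a26110004a8611004ac203d000000068000c2a00f00260ac39002c0a62500a42063500a62402d000c0a60d000ca061b0000000360000000d10000000810000000320000000220000000c90000000020000000c50000000c30000000560000000040000000bd00000005000000008b00120003001f02,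
0x42c80700c80420700c04827f00084200f00042801700020840d002ca400700a842005000a4200300020a40d000ca041b00000006a004a2083d00a48c23d004a8023d00a42803b00a48203b0002ac4110000a84110000a840900000006800a42c007000ac400300460ca0700000006600a64203d006a0423b00a64203b0000a26110004a26090000a26090000000260000000cf0000000cd0000000c30000000cb0000000c100000000600000000200000001a0000000bd0000000c50000000c90000000d10000000360000000300000000500000000810012003001,
0x8c0622508a46c265000c4620d000c0620d000000016000ca860d0002ac41100000009d0000000360000000080000000060000000cd0000000640000000040000000020000000600000000c50000000bd0000000c70000000cb0000000c100000006c0000000cf00000004e0622001106e0001803,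
0xac6420790000c261100000006e00000003400000008b00000008106220011000602,
0xc6a21100000001200260ca390ac642065000a0c60d0000c26110000000c50000000bd00000006c00000003400000008100000008b0000000c30000000040000000c900000005406d90018001002,
0x86a2c39008c06225000c0620d000ca620d00000006c0000000520000000c50000000600000000cd00000000200000000400000009d00000003606e00007000d02,
0x74000000016000ca860d00000004e0000000cf00000006c0000000c10000000cb0000000c70000000bd0000000c5062206e0000b02,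
0x760000000720000000700622000301,
0xac86090000000780018000201,
0x7400000007a0007000201,
0x1600000006c0000000c10000000cb0000000c70000000bd0000000c500000007c06d5000801,
0xc8261100000007e05a3000201,
0x26c8a3900000003600000007800000007e098f000401,
0xc0860d00000007a00000005e0000000cf0000000040000000c100000007e0442000701,
0xa0860d00000006c00000005a0000000c70000000040000000c100000007e0286000701,
0x2a0862500000008200000008600000007e08ab000401,
0x2ac862500000008200000007800000007e0b63000401,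
0x268ca270000000d900000007800000007e0cd2000401,
0x86a213000000082098c000201,
0x286a02700000007e0000000d1000000086026e000401,
0x86201300000008808a8000201,
0x842063500000007e00000008100000008808b3000401,
0x86c21300000008a0b60000201,
0x8c6a20700000002c00000008e0c28000301,
0x20860d00000007e00000007c0000000cb0000000040000000c100000009201e2000701,
0x680411000000094000c000201,
0x86401300000009408b0000201,
0x6a8c20700000002400000009604ac000301,
0x680c207000000020000000096047c000301,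
0xc6a21700000005200000007a00000008c00000007c0000000c500000006c0000000cd0000000c90000000980c2b000a01,
0x842063300000007e00000008100000009a01ea000401,
0x682400700000000a00000009e084c000301,
0x268402700000007e0000000810000000a60186000401,
0xc482070000000280000000a80bb4000301,
0xca84005000c8400d00a4c6227000a8400f00a82402500c86402300a04622700c04622700c62402300a4c023900084a009000a4800900480ca0700000001200000003c0000000c30000000c100000009c00000008c0000000bd00000008b0000000aa0000000a60000000810000000900000000340000000d30000000c500000007c00000006c0af206d9001e02,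
0x40c627f00c604207000c6400100a42c60700a40c607004c26007000c6a41300000000e00c42a63900c04822700082c40d08a46c27900062a40d00a48c23d00a4c023d0002ac4110000000ae00268c02700000007a0000000cd0000000c300000000800000007c0000000040000000060000000020000000980000000540000000a20000000a40000000aa0000000cf0000000ac00000009c00000007e0000000800000000360000000c500000006200000006c00000008b0000000340000000840af2002b01,
0xc6400100000000e00000000c000c2400d004a6c207006c24007006c2a40700a40c607000c6a41300c42a63900082c40d08a46c27900062a40d00a48c23d00a4c023d0002ac41100000007a0000000cd0000000c300000007c0000000a20000000b00000000060000000020000000a000000000a0000000620000000540000000a40000000cf0000000ac00000009c00000007e0000000800000000360000000080000000c500000006c00000008b0000000340011002801,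
0x3c0000000b20ce4000201,
0x1200000006c00000007c0000000bd0000000c50000000b206cb000601,
0x480ca070000000d30000000b405f8000301,
0xa4c023900000003400000008b0000000b60b3a000401,
0xa2400d0000000100000000b20000000bd0000000020000000060000000b6029c000701,
0xc4062270000000b00000000810000000b60ba6000401,
0xca240050000000b80000000bc0b38000301,
0x62c40d00000006400000007a0000000cd0000000060000000080000000be0017000701,
0xc2400d0000000ba0000000b60000000c30000000020000000060000000c20000000c0000800]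

def cb13_pf : List Nat := cb13_p0

theorem cb13_ref {V : Type} {S : SRel V} {p : Nat → V} (hp : ∀ i j, i < 7 → j < 7 → p i = p j → i = j)
    (hts : PHs S p 7 ((tO ++ (tB ++ (tR ++ (tF ++ tK)))) ++ cb13_x)) : False :=
  refuteS (k := 7) (n2 := 1) (n3 := 1) (n4 := 4) (o3 := 28) (o4 := 112) (M := 1736) ((tO ++ (tB ++ (tR ++ (tF ++ tK)))) ++ cb13_x) cb13_pf (by decide +kernel)
    (by decide +kernel) (by decide +kernel) (by decide +kernel) hp hts

theorem cb13 {V : Type} {G : SimpleGraph V} {X W : V → V → V → V → Prop} (h : WF G X W) {a b x y x2 y2 t : V}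
    (nd : [a, b, x, y, x2, y2, t].Nodup) (a1 : Pr G X W a x b y) (a2 : IF G X W a x b y2) (a3 : IF G X W a x2 b y) (nx : ¬ X a x2 b y2)
    (hk : K5F G [a, b, x, y, x2, y2]) (e : K5 G a y2 b x2 t) (hw : W a y2 b x2) (g1 : X t y2 a x2) (g2 : X t b a x2)
    (m1 : ¬ W y2 a t b) (m2 : ¬ W x2 b y2 t) : False :=
  cb13_ref (S := (syW h).rel) (pt_inj (o := a) nd rfl) (PHs.app (UHs.phs ((tO_h h).app ((tB_h h).app ((tR_h h).app ((tF_h h).app (tK_h h))))) _ _) (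
  .cons (fun d hd h0 => h0 a1.1) (
  .cons (fun d hd m0 m1 m2 m3 h0 h1 h2 h3 h4 h5 h6 h7 h8 h9 h10 h11 h12 h13 => ((a1.2).1 (d 0) ⟨h0, h1, h2, h3, h4, h5, h6, h7, h8, h9⟩ h10 h11).elim h12 h13) (
  .cons (fun d hd m0 m1 m2 m3 h0 h1 h2 h3 h4 h5 h6 h7 h8 h9 h10 h11 h12 h13 => ((a1.2).2.1 (d 0) ⟨h0, h1, h2, h3, h4, h5, h6, h7, h8, h9⟩ h10 h11).elim h12 h13) (
  .cons (fun d hd m0 m1 m2 m3 h0 h1 h2 h3 h4 h5 h6 h7 h8 h9 h10 h11 h12 h13 => ((a1.2).2.2.1 (d 0) ⟨h0, h1, h2, h3, h4, h5, h6, h7, h8, h9⟩ h10 h11).elim h12 h13) (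
  .cons (fun d hd m0 m1 m2 m3 h0 h1 h2 h3 h4 h5 h6 h7 h8 h9 h10 h11 h12 h13 => ((a1.2).2.2.2 (d 0) ⟨h0, h1, h2, h3, h4, h5, h6, h7, h8, h9⟩ h10 h11).elim h12 h13) (
  .cons (fun d hd h0 => h0 a2.1) (
  .cons (fun d hd m0 m1 m2 m3 h0 h1 h2 h3 h4 h5 h6 h7 h8 h9 h10 h11 h12 h13 h14 h15 => ((a2.2.1 h14 h15).1 (d 0) ⟨h0, h1, h2, h3, h4, h5, h6, h7, h8, h9⟩ h10 h11).elim h12 h13) (
  .cons (fun d hd m0 m1 m2 m3 h0 h1 h2 h3 h4 h5 h6 h7 h8 h9 h10 h11 h12 h13 h14 h15 => ((a2.2.1 h14 h15).2.1 (d 0) ⟨h0, h1, h2, h3, h4, h5, h6, h7, h8, h9⟩ h10 h11).elim h12 h13) (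
  .cons (fun d hd m0 m1 m2 m3 h0 h1 h2 h3 h4 h5 h6 h7 h8 h9 h10 h11 h12 h13 h14 h15 => ((a2.2.1 h14 h15).2.2.1 (d 0) ⟨h0, h1, h2, h3, h4, h5, h6, h7, h8, h9⟩ h10 h11).elim h12 h13) (
  .cons (fun d hd m0 m1 m2 m3 h0 h1 h2 h3 h4 h5 h6 h7 h8 h9 h10 h11 h12 h13 h14 h15 => ((a2.2.1 h14 h15).2.2.2 (d 0) ⟨h0, h1, h2, h3, h4, h5, h6, h7, h8, h9⟩ h10 h11).elim h12 h13) (
  .cons (fun d hd m0 m1 m2 m3 h0 h1 h2 h3 h4 h5 h6 h7 h8 h9 h10 h11 h12 h13 h14 h15 => ((a2.2.2 h14 h15).1 (d 0) ⟨h0, h1, h2, h3, h4, h5, h6, h7, h8, h9⟩ h10 h11).elim h12 h13) (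
  .cons (fun d hd m0 m1 m2 m3 h0 h1 h2 h3 h4 h5 h6 h7 h8 h9 h10 h11 h12 h13 h14 h15 => ((a2.2.2 h14 h15).2.1 (d 0) ⟨h0, h1, h2, h3, h4, h5, h6, h7, h8, h9⟩ h10 h11).elim h12 h13) (
  .cons (fun d hd m0 m1 m2 m3 h0 h1 h2 h3 h4 h5 h6 h7 h8 h9 h10 h11 h12 h13 h14 h15 => ((a2.2.2 h14 h15).2.2.1 (d 0) ⟨h0, h1, h2, h3, h4, h5, h6, h7, h8, h9⟩ h10 h11).elim h12 h13) (
  .cons (fun d hd m0 m1 m2 m3 h0 h1 h2 h3 h4 h5 h6 h7 h8 h9 h10 h11 h12 h13 h14 h15 => ((a2.2.2 h14 h15).2.2.2 (d 0) ⟨h0, h1, h2, h3, h4, h5, h6, h7, h8, h9⟩ h10 h11).elim h12 h13) (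
  .cons (fun d hd h0 => h0 a3.1) (
  .cons (fun d hd m0 m1 m2 m3 h0 h1 h2 h3 h4 h5 h6 h7 h8 h9 h10 h11 h12 h13 h14 h15 => ((a3.2.1 h14 h15).1 (d 0) ⟨h0, h1, h2, h3, h4, h5, h6, h7, h8, h9⟩ h10 h11).elim h12 h13) (
  .cons (fun d hd m0 m1 m2 m3 h0 h1 h2 h3 h4 h5 h6 h7 h8 h9 h10 h11 h12 h13 h14 h15 => ((a3.2.1 h14 h15).2.1 (d 0) ⟨h0, h1, h2, h3, h4, h5, h6, h7, h8, h9⟩ h10 h11).elim h12 h13) (
  .cons (fun d hd m0 m1 m2 m3 h0 h1 h2 h3 h4 h5 h6 h7 h8 h9 h10 h11 h12 h13 h14 h15 => ((a3.2.1 h14 h15).2.2.1 (d 0) ⟨h0, h1, h2, h3, h4, h5, h6, h7, h8, h9⟩ h10 h11).elim h12 h13) (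
  .cons (fun d hd m0 m1 m2 m3 h0 h1 h2 h3 h4 h5 h6 h7 h8 h9 h10 h11 h12 h13 h14 h15 => ((a3.2.1 h14 h15).2.2.2 (d 0) ⟨h0, h1, h2, h3, h4, h5, h6, h7, h8, h9⟩ h10 h11).elim h12 h13) (
  .cons (fun d hd m0 m1 m2 m3 h0 h1 h2 h3 h4 h5 h6 h7 h8 h9 h10 h11 h12 h13 h14 h15 => ((a3.2.2 h14 h15).1 (d 0) ⟨h0, h1, h2, h3, h4, h5, h6, h7, h8, h9⟩ h10 h11).elim h12 h13) (
  .cons (fun d hd m0 m1 m2 m3 h0 h1 h2 h3 h4 h5 h6 h7 h8 h9 h10 h11 h12 h13 h14 h15 => ((a3.2.2 h14 h15).2.1 (d 0) ⟨h0, h1, h2, h3, h4, h5, h6, h7, h8, h9⟩ h10 h11).elim h12 h13) (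
  .cons (fun d hd m0 m1 m2 m3 h0 h1 h2 h3 h4 h5 h6 h7 h8 h9 h10 h11 h12 h13 h14 h15 => ((a3.2.2 h14 h15).2.2.1 (d 0) ⟨h0, h1, h2, h3, h4, h5, h6, h7, h8, h9⟩ h10 h11).elim h12 h13) (
  .cons (fun d hd m0 m1 m2 m3 h0 h1 h2 h3 h4 h5 h6 h7 h8 h9 h10 h11 h12 h13 h14 h15 => ((a3.2.2 h14 h15).2.2.2 (d 0) ⟨h0, h1, h2, h3, h4, h5, h6, h7, h8, h9⟩ h10 h11).elim h12 h13) (
  .cons (fun d hd h0 => nx h0) (
  .cons (fun d hd h0 h1 h2 h3 h4 h5 h6 h7 h8 h9 => hk a (by simp) b (by simp) x (by simp) y (by simp) x2 (by simp) ⟨h0, h1, h2, h3, h4, h5, h6, h7, h8, h9⟩) (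
  .cons (fun d hd h0 h1 h2 h3 h4 h5 h6 h7 h8 h9 => hk a (by simp) b (by simp) x (by simp) y (by simp) y2 (by simp) ⟨h0, h1, h2, h3, h4, h5, h6, h7, h8, h9⟩) (
  .cons (fun d hd h0 h1 h2 h3 h4 h5 h6 h7 h8 h9 => hk a (by simp) b (by simp) x (by simp) x2 (by simp) y2 (by simp) ⟨h0, h1, h2, h3, h4, h5, h6, h7, h8, h9⟩) (
  .cons (fun d hd h0 h1 h2 h3 h4 h5 h6 h7 h8 h9 => hk a (by simp) b (by simp) y (by simp) x2 (by simp) y2 (by simp) ⟨h0, h1, h2, h3, h4, h5, h6, h7, h8, h9⟩) (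
  .cons (fun d hd h0 h1 h2 h3 h4 h5 h6 h7 h8 h9 => hk a (by simp) x (by simp) y (by simp) x2 (by simp) y2 (by simp) ⟨h0, h1, h2, h3, h4, h5, h6, h7, h8, h9⟩) (
  .cons (fun d hd h0 h1 h2 h3 h4 h5 h6 h7 h8 h9 => hk b (by simp) x (by simp) y (by simp) x2 (by simp) y2 (by simp) ⟨h0, h1, h2, h3, h4, h5, h6, h7, h8, h9⟩) (
  .cons (fun d hd h0 => h0 e.1) (
  .cons (fun d hd h0 => h0 e.2.1) (
  .cons (fun d hd h0 => h0 e.2.2.1) (
  .cons (fun d hd h0 => h0 e.2.2.2.1) (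
  .cons (fun d hd h0 => h0 e.2.2.2.2.1) (
  .cons (fun d hd h0 => h0 e.2.2.2.2.2.1) (
  .cons (fun d hd h0 => h0 e.2.2.2.2.2.2.1) (
  .cons (fun d hd h0 => h0 e.2.2.2.2.2.2.2.1) (
  .cons (fun d hd h0 => h0 e.2.2.2.2.2.2.2.2.1) (
  .cons (fun d hd h0 => h0 e.2.2.2.2.2.2.2.2.2) (
  .cons (fun d hd h0 => h0 hw) (
  .cons (fun d hd h0 => h0 g1) (
  .cons (fun d hd h0 => h0 g2) (
  .cons (fun d hd h0 => m1 h0) (
  .cons (fun d hd h0 => m2 h0) (
  .nil)))))))))))))))))))))))))))))))))))))))))))))))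

end Pool.Agent.SOF
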