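import Pool.Agent.SOF.I2

/-! Project SOF: refutations (generated). -/

set_option autoImplicit false
set_option maxRecDepth 100000
set_option linter.unusedVariables false

namespace Pool.Agent.SOF

open Pool.Agent.SOC Pool.Agent.SOD Pool.Agent.RUP

/-- templates -/
def cf0_x : List Tm := [
  ⟨0, [], [], [.q true 2 8 10 9 11]⟩,
  ⟨1, [], [(0, 8), (0, 10), (0, 9), (0, 11)], [.b false 0 8 10, .b false 0 8 9, .b false 0 8 11, .b false 0 8 0, .b false 0 10 9, .b false 0 10 11, .b false 0 10 0, .b false 0 9 11, .b false 0 9 0, .b false 0 11 0, .q false 0 0 8 10 9, .q false 0 0 11 10 9, .q true 2 8 10 0 11, .q true 2 9 11 8 0]⟩,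
  ⟨1, [], [(0, 8), (0, 10), (0, 9), (0, 11)], [.b false 0 8 10, .b false 0 8 11, .b false 0 8 9, .b false 0 8 0, .b false 0 10 11, .b false 0 10 9, .b false 0 10 0, .b false 0 11 9, .b false 0 11 0, .b false 0 9 0, .q false 0 0 8 10 11, .q false 0 0 9 10 11, .q true 2 8 10 0 9, .q true 2 11 9 8 0]⟩,
  ⟨1, [], [(0, 8), (0, 10), (0, 9), (0, 11)], [.b false 0 10 8, .b false 0 10 9, .b false 0 10 11, .b false 0 10 0, .b false 0 8 9, .b false 0 8 11, .b false 0 8 0, .b false 0 9 11, .b false 0 9 0, .b false 0 11 0, .q false 0 0 10 8 9, .q false 0 0 11 8 9, .q true 2 10 8 0 11, .q true 2 9 11 10 0]⟩,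
  ⟨1, [], [(0, 8), (0, 10), (0, 9), (0, 11)], [.b false 0 10 8, .b false 0 10 11, .b false 0 10 9, .b false 0 10 0, .b false 0 8 11, .b false 0 8 9, .b false 0 8 0, .b false 0 11 9, .b false 0 11 0, .b false 0 9 0, .q false 0 0 10 8 11, .q false 0 0 9 8 11, .q true 2 10 8 0 9, .q true 2 11 9 10 0]⟩,
  ⟨0, [], [], [.q true 2 8 12 9 13]⟩,
  ⟨1, [], [(0, 8), (0, 12), (0, 9), (0, 13)], [.b false 0 8 12, .b false 0 8 9, .b false 0 8 13, .b false 0 8 0, .b false 0 12 9, .b false 0 12 13, .b false 0 12 0, .b false 0 9 13, .b false 0 9 0, .b false 0 13 0, .q false 0 0 8 12 9, .q false 0 0 13 12 9, .q true 2 8 12 0 13, .q true 2 9 13 8 0]⟩,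
  ⟨1, [], [(0, 8), (0, 12), (0, 9), (0, 13)], [.b false 0 8 12, .b false 0 8 13, .b false 0 8 9, .b false 0 8 0, .b false 0 12 13, .b false 0 12 9, .b false 0 12 0, .b false 0 13 9, .b false 0 13 0, .b false 0 9 0, .q false 0 0 8 12 13, .q false 0 0 9 12 13, .q true 2 8 12 0 9, .q true 2 13 9 8 0]⟩,
  ⟨1, [], [(0, 8), (0, 12), (0, 9), (0, 13)], [.b false 0 12 8, .b false 0 12 9, .b false 0 12 13, .b false 0 12 0, .b false 0 8 9, .b false 0 8 13, .b false 0 8 0, .b false 0 9 13, .b false 0 9 0, .b false 0 13 0, .q false 0 0 12 8 9, .q false 0 0 13 8 9, .q true 2 12 8 0 13, .q true 2 9 13 12 0]⟩,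
  ⟨1, [], [(0, 8), (0, 12), (0, 9), (0, 13)], [.b false 0 12 8, .b false 0 12 13, .b false 0 12 9, .b false 0 12 0, .b false 0 8 13, .b false 0 8 9, .b false 0 8 0, .b false 0 13 9, .b false 0 13 0, .b false 0 9 0, .q false 0 0 12 8 13, .q false 0 0 9 8 13, .q true 2 12 8 0 9, .q true 2 13 9 12 0]⟩,
  ⟨0, [], [], [.q true 3 8 10 9 13]⟩,
  ⟨1, [], [(0, 8), (0, 9), (0, 10), (0, 13)], [.b false 0 8 9, .b false 0 8 10, .b false 0 8 13, .b false 0 8 0, .b false 0 9 10, .b false 0 9 13, .b false 0 9 0, .b false 0 10 13, .b false 0 10 0, .b false 0 13 0, .q false 0 0 8 9 10, .q false 0 0 13 9 10, .q true 2 8 9 0 13, .q true 2 10 13 8 0, .q false 2 8 9 10 13, .q true 0 8 10 9 13]⟩,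
  ⟨1, [], [(0, 8), (0, 9), (0, 10), (0, 13)], [.b false 0 8 9, .b false 0 8 13, .b false 0 8 10, .b false 0 8 0, .b false 0 9 13, .b false 0 9 10, .b false 0 9 0, .b false 0 13 10, .b false 0 13 0, .b false 0 10 0, .q false 0 0 8 9 13, .q false 0 0 10 9 13, .q true 2 8 9 0 10, .q true 2 13 10 8 0, .q false 2 8 9 10 13, .q true 0 8 10 9 13]⟩,
  ⟨1, [], [(0, 8), (0, 9), (0, 10), (0, 13)], [.b false 0 9 8, .b false 0 9 10, .b false 0 9 13, .b false 0 9 0, .b false 0 8 10, .b false 0 8 13, .b false 0 8 0, .b false 0 10 13, .b false 0 10 0, .b false 0 13 0, .q false 0 0 9 8 10, .q false 0 0 13 8 10, .q true 2 9 8 0 13, .q true 2 10 13 9 0, .q false 2 8 9 10 13, .q true 0 8 10 9 13]⟩,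
  ⟨1, [], [(0, 8), (0, 9), (0, 10), (0, 13)], [.b false 0 9 8, .b false 0 9 13, .b false 0 9 10, .b false 0 9 0, .b false 0 8 13, .b false 0 8 10, .b false 0 8 0, .b false 0 13 10, .b false 0 13 0, .b false 0 10 0, .q false 0 0 9 8 13, .q false 0 0 10 8 13, .q true 2 9 8 0 10, .q true 2 13 10 9 0, .q false 2 8 9 10 13, .q true 0 8 10 9 13]⟩,
  ⟨1, [], [(0, 8), (0, 13), (0, 10), (0, 9)], [.b false 0 8 13, .b false 0 8 10, .b false 0 8 9, .b false 0 8 0, .b false 0 13 10, .b false 0 13 9, .b false 0 13 0, .b false 0 10 9, .b false 0 10 0, .b false 0 9 0, .q false 0 0 8 13 10, .q false 0 0 9 13 10, .q true 2 8 13 0 9, .q true 2 10 9 8 0, .q false 2 8 13 10 9, .q true 0 8 10 9 13]⟩,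
  ⟨1, [], [(0, 8), (0, 13), (0, 10), (0, 9)], [.b false 0 8 13, .b false 0 8 9, .b false 0 8 10, .b false 0 8 0, .b false 0 13 9, .b false 0 13 10, .b false 0 13 0, .b false 0 9 10, .b false 0 9 0, .b false 0 10 0, .q false 0 0 8 13 9, .q false 0 0 10 13 9, .q true 2 8 13 0 10, .q true 2 9 10 8 0, .q false 2 8 13 10 9, .q true 0 8 10 9 13]⟩,
  ⟨1, [], [(0, 8), (0, 13), (0, 10), (0, 9)], [.b false 0 13 8, .b false 0 13 10, .b false 0 13 9, .b false 0 13 0, .b false 0 8 10, .b false 0 8 9, .b false 0 8 0, .b false 0 10 9, .b false 0 10 0, .b false 0 9 0, .q false 0 0 13 8 10, .q false 0 0 9 8 10, .q true 2 13 8 0 9, .q true 2 10 9 13 0, .q false 2 8 13 10 9, .q true 0 8 10 9 13]⟩,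
  ⟨1, [], [(0, 8), (0, 13), (0, 10), (0, 9)], [.b false 0 13 8, .b false 0 13 9, .b false 0 13 10, .b false 0 13 0, .b false 0 8 9, .b false 0 8 10, .b false 0 8 0, .b false 0 9 10, .b false 0 9 0, .b false 0 10 0, .q false 0 0 13 8 9, .q false 0 0 10 8 9, .q true 2 13 8 0 10, .q true 2 9 10 13 0, .q false 2 8 13 10 9, .q true 0 8 10 9 13]⟩,
  ⟨0, [], [], [.b false 0 8 9, .b false 0 8 10, .b false 0 8 11, .b false 0 8 12, .b false 0 9 10, .b false 0 9 11, .b false 0 9 12, .b false 0 10 11, .b false 0 10 12, .b false 0 11 12]⟩,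
  ⟨0, [], [], [.b false 0 8 9, .b false 0 8 10, .b false 0 8 11, .b false 0 8 13, .b false 0 9 10, .b false 0 9 11, .b false 0 9 13, .b false 0 10 11, .b false 0 10 13, .b false 0 11 13]⟩,
  ⟨0, [], [], [.b false 0 8 9, .b false 0 8 10, .b false 0 8 12, .b false 0 8 13, .b false 0 9 10, .b false 0 9 12, .b false 0 9 13, .b false 0 10 12, .b false 0 10 13, .b false 0 12 13]⟩,
  ⟨0, [], [], [.b false 0 8 9, .b false 0 8 11, .b false 0 8 12, .b false 0 8 13, .b false 0 9 11, .b false 0 9 12, .b false 0 9 13, .b false 0 11 12, .b false 0 11 13, .b false 0 12 13]⟩,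
  ⟨0, [], [], [.b false 0 8 10, .b false 0 8 11, .b false 0 8 12, .b false 0 8 13, .b false 0 10 11, .b false 0 10 12, .b false 0 10 13, .b false 0 11 12, .b false 0 11 13, .b false 0 12 13]⟩,
  ⟨0, [], [], [.b false 0 9 10, .b false 0 9 11, .b false 0 9 12, .b false 0 9 13, .b false 0 10 11, .b false 0 10 12, .b false 0 10 13, .b false 0 11 12, .b false 0 11 13, .b false 0 12 13]⟩,
  ⟨0, [], [], [.b true 0 8 12]⟩,
  ⟨0, [], [], [.b true 0 8 9]⟩,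
  ⟨0, [], [], [.b true 0 8 11]⟩,
  ⟨0, [], [], [.b true 0 8 14]⟩,
  ⟨0, [], [], [.b true 0 12 9]⟩,
  ⟨0, [], [], [.b true 0 12 11]⟩,
  ⟨0, [], [], [.b true 0 12 14]⟩,
  ⟨0, [], [], [.b true 0 9 11]⟩,
  ⟨0, [], [], [.b true 0 9 14]⟩,
  ⟨0, [], [], [.b true 0 11 14]⟩,
  ⟨0, [], [], [.q true 2 8 12 9 11]⟩,
  ⟨0, [], [], [.q true 0 14 8 12 9]⟩,
  ⟨0, [], [], [.q true 0 14 11 12 9]⟩,
  ⟨0, [], [], [.q false 2 8 12 14 11]⟩,
  ⟨0, [], [], [.q false 2 9 11 8 14]⟩]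

def cf0_p0 : List Nat := [
0x6240090000000810001000201,
0x2640090000000810006000201,
0x2a800900000008b000f000201,
0x8a20900000008b000b000201,
0x2a080900000008b0013000201,
0xa2800b00000008b0980000201,
0xa240190000000950966000201,
0xad00000000200000000400000000800000000600000000a06cf06d206d506d806da000605,
0x62800b0000000c70830000201,
0x2a6800700000000c0000000120a0c000301,
0x8c20030000000c90c50000201,
0x2c80030000000c90b54000201,
0x2ca800700000000c0000000180cdc000301,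
0x2c680070000000120000000180c10000301,
0xc862030000000cb0c68000201,
0x6c82030000000cb0b60000201,
0x82c60700000001c0000000cb0524000301,
0x8c0620700000001200000001e0af0000301,
0x260c80700000001600000001e0c64000301,
0x860c2070000000180000000200b44000301,
0xc6200b0000000220bee000201,
0xc8601700000002600000001c0000000c50000000040000000b30000000bd0000000b90000000bf0000000cd0c67000a01,
0xc2600f00000002a0000000280000000c50000000020000000c10000000b90000000cf0b47000801,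
0x6ac2039000c0a20d006a2c007008c0a607000ca8603000a2601300086a207002ca860700000002e0000000060000000020000000c300000000c0000000200000000240000000140ce806e20010001003,
0x20a60d00a4206330026a40270000000100000000060000000040000000c100000008100000000e0000000bd0000000b3032006d8000b02,
0x8c6a1100ca0683d00000002c001a0a0e000302,
0x340000000300062a802700000003200820a6070006a8203002ca860700000008b0000000c70000000140000000200ce8000b01,
0x860ca0700000001a0000000360ccc000301,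
0xca260070000000280000000380970000301,
0x60a20d00a4602330000000100000000060000000020000000c100000003a00000008100000000e0000000bd0000000b306da000b01,
0xa62402d00000009500000008100000003c032b000401,
0xa42063500000003e00000008100000003c0323000401,
0xa26802f0000000c700000008b00000003c0346000401,
0xca0683900000002c00000004200000003c0c97000401,
0x280a62500000003c000000040000000042034b000401,
0xc8a6130000000440c94000201,
0xca8601000000036000000048056c000301,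
0x8c0a6070000000140000000480b1c000301,
0xa8c60700000001c00000004a055c000301,
0x2a06c39002c8a625000c0a60d000c8a60d00000003c00000002e00000004600000004c0000000060000000040000000c500000004800000000a0000000bd06e2000e01,
0xc60a1b0000000500000000c500000000600000003c00000004e000600]

def cf0_pf : List Nat := cf0_p0

theorem cf0_ref {V : Type} {S : SRel V} {p : Nat → V} (hp : ∀ i j, i < 7 → j < 7 → p i = p j → i = j)
    (hts : PHs S p 7 ((tO ++ (tB ++ (tR ++ (tF ++ tK)))) ++ cf0_x)) : False :=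
  refuteS (k := 7) (n2 := 1) (n3 := 1) (n4 := 4) (o3 := 28) (o4 := 112) (M := 1736) ((tO ++ (tB ++ (tR ++ (tF ++ tK)))) ++ cf0_x) cf0_pf (by decide +kernel)
    (by decide +kernel) (by decide +kernel) (by decide +kernel) hp hts

theorem cf0 {V : Type} {G : SimpleGraph V} {X W : V → V → V → V → Prop} (h : WF G X W) {a b x y x2 y2 t : V}
    (nd : [a, b, x, y, x2, y2, t].Nodup) (a1 : Pr G X W a x b y) (a2 : Pr G X W a x2 b y2) (a3 : IF G X W a x b y2) (hk : K5F G [a, b, x, y, x2, y2])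
    (e : K5 G a x2 b y t) (hw : W a x2 b y) (g1 : X t a x2 b) (g2 : X t y x2 b)
    (m1 : ¬ W a x2 t y) (m2 : ¬ W b y a t) : False :=
  cf0_ref (S := (syW h).rel) (pt_inj (o := a) nd rfl) (PHs.app (UHs.phs ((tO_h h).app ((tB_h h).app ((tR_h h).app ((tF_h h).app (tK_h h))))) _ _) (
  .cons (fun d hd h0 => h0 a1.1) (
  .cons (fun d hd m0 m1 m2 m3 h0 h1 h2 h3 h4 h5 h6 h7 h8 h9 h10 h11 h12 h13 => ((a1.2).1 (d 0) ⟨h0, h1, h2, h3, h4, h5, h6, h7, h8, h9⟩ h10 h11).elim h12 h13) (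
  .cons (fun d hd m0 m1 m2 m3 h0 h1 h2 h3 h4 h5 h6 h7 h8 h9 h10 h11 h12 h13 => ((a1.2).2.1 (d 0) ⟨h0, h1, h2, h3, h4, h5, h6, h7, h8, h9⟩ h10 h11).elim h12 h13) (
  .cons (fun d hd m0 m1 m2 m3 h0 h1 h2 h3 h4 h5 h6 h7 h8 h9 h10 h11 h12 h13 => ((a1.2).2.2.1 (d 0) ⟨h0, h1, h2, h3, h4, h5, h6, h7, h8, h9⟩ h10 h11).elim h12 h13) (
  .cons (fun d hd m0 m1 m2 m3 h0 h1 h2 h3 h4 h5 h6 h7 h8 h9 h10 h11 h12 h13 => ((a1.2).2.2.2 (d 0) ⟨h0, h1, h2, h3, h4, h5, h6, h7, h8, h9⟩ h10 h11).elim h12 h13) (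
  .cons (fun d hd h0 => h0 a2.1) (
  .cons (fun d hd m0 m1 m2 m3 h0 h1 h2 h3 h4 h5 h6 h7 h8 h9 h10 h11 h12 h13 => ((a2.2).1 (d 0) ⟨h0, h1, h2, h3, h4, h5, h6, h7, h8, h9⟩ h10 h11).elim h12 h13) (
  .cons (fun d hd m0 m1 m2 m3 h0 h1 h2 h3 h4 h5 h6 h7 h8 h9 h10 h11 h12 h13 => ((a2.2).2.1 (d 0) ⟨h0, h1, h2, h3, h4, h5, h6, h7, h8, h9⟩ h10 h11).elim h12 h13) (
  .cons (fun d hd m0 m1 m2 m3 h0 h1 h2 h3 h4 h5 h6 h7 h8 h9 h10 h11 h12 h13 => ((a2.2).2.2.1 (d 0) ⟨h0, h1, h2, h3, h4, h5, h6, h7, h8, h9⟩ h10 h11).elim h12 h13) (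
  .cons (fun d hd m0 m1 m2 m3 h0 h1 h2 h3 h4 h5 h6 h7 h8 h9 h10 h11 h12 h13 => ((a2.2).2.2.2 (d 0) ⟨h0, h1, h2, h3, h4, h5, h6, h7, h8, h9⟩ h10 h11).elim h12 h13) (
  .cons (fun d hd h0 => h0 a3.1) (
  .cons (fun d hd m0 m1 m2 m3 h0 h1 h2 h3 h4 h5 h6 h7 h8 h9 h10 h11 h12 h13 h14 h15 => ((a3.2.1 h14 h15).1 (d 0) ⟨h0, h1, h2, h3, h4, h5, h6, h7, h8, h9⟩ h10 h11).elim h12 h13) (
  .cons (fun d hd m0 m1 m2 m3 h0 h1 h2 h3 h4 h5 h6 h7 h8 h9 h10 h11 h12 h13 h14 h15 => ((a3.2.1 h14 h15).2.1 (d 0) ⟨h0, h1, h2, h3, h4, h5, h6, h7, h8, h9⟩ h10 h11).elim h12 h13) (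
  .cons (fun d hd m0 m1 m2 m3 h0 h1 h2 h3 h4 h5 h6 h7 h8 h9 h10 h11 h12 h13 h14 h15 => ((a3.2.1 h14 h15).2.2.1 (d 0) ⟨h0, h1, h2, h3, h4, h5, h6, h7, h8, h9⟩ h10 h11).elim h12 h13) (
  .cons (fun d hd m0 m1 m2 m3 h0 h1 h2 h3 h4 h5 h6 h7 h8 h9 h10 h11 h12 h13 h14 h15 => ((a3.2.1 h14 h15).2.2.2 (d 0) ⟨h0, h1, h2, h3, h4, h5, h6, h7, h8, h9⟩ h10 h11).elim h12 h13) (
  .cons (fun d hd m0 m1 m2 m3 h0 h1 h2 h3 h4 h5 h6 h7 h8 h9 h10 h11 h12 h13 h14 h15 => ((a3.2.2 h14 h15).1 (d 0) ⟨h0, h1, h2, h3, h4, h5, h6, h7, h8, h9⟩ h10 h11).elim h12 h13) (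
  .cons (fun d hd m0 m1 m2 m3 h0 h1 h2 h3 h4 h5 h6 h7 h8 h9 h10 h11 h12 h13 h14 h15 => ((a3.2.2 h14 h15).2.1 (d 0) ⟨h0, h1, h2, h3, h4, h5, h6, h7, h8, h9⟩ h10 h11).elim h12 h13) (
  .cons (fun d hd m0 m1 m2 m3 h0 h1 h2 h3 h4 h5 h6 h7 h8 h9 h10 h11 h12 h13 h14 h15 => ((a3.2.2 h14 h15).2.2.1 (d 0) ⟨h0, h1, h2, h3, h4, h5, h6, h7, h8, h9⟩ h10 h11).elim h12 h13) (
  .cons (fun d hd m0 m1 m2 m3 h0 h1 h2 h3 h4 h5 h6 h7 h8 h9 h10 h11 h12 h13 h14 h15 => ((a3.2.2 h14 h15).2.2.2 (d 0) ⟨h0, h1, h2, h3, h4, h5, h6, h7, h8, h9⟩ h10 h11).elim h12 h13) (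
  .cons (fun d hd h0 h1 h2 h3 h4 h5 h6 h7 h8 h9 => hk a (by simp) b (by simp) x (by simp) y (by simp) x2 (by simp) ⟨h0, h1, h2, h3, h4, h5, h6, h7, h8, h9⟩) (
  .cons (fun d hd h0 h1 h2 h3 h4 h5 h6 h7 h8 h9 => hk a (by simp) b (by simp) x (by simp) y (by simp) y2 (by simp) ⟨h0, h1, h2, h3, h4, h5, h6, h7, h8, h9⟩) (
  .cons (fun d hd h0 h1 h2 h3 h4 h5 h6 h7 h8 h9 => hk a (by simp) b (by simp) x (by simp) x2 (by simp) y2 (by simp) ⟨h0, h1, h2, h3, h4, h5, h6, h7, h8, h9⟩) (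
  .cons (fun d hd h0 h1 h2 h3 h4 h5 h6 h7 h8 h9 => hk a (by simp) b (by simp) y (by simp) x2 (by simp) y2 (by simp) ⟨h0, h1, h2, h3, h4, h5, h6, h7, h8, h9⟩) (
  .cons (fun d hd h0 h1 h2 h3 h4 h5 h6 h7 h8 h9 => hk a (by simp) x (by simp) y (by simp) x2 (by simp) y2 (by simp) ⟨h0, h1, h2, h3, h4, h5, h6, h7, h8, h9⟩) (
  .cons (fun d hd h0 h1 h2 h3 h4 h5 h6 h7 h8 h9 => hk b (by simp) x (by simp) y (by simp) x2 (by simp) y2 (by simp) ⟨h0, h1, h2, h3, h4, h5, h6, h7, h8, h9⟩) (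
  .cons (fun d hd h0 => h0 e.1) (
  .cons (fun d hd h0 => h0 e.2.1) (
  .cons (fun d hd h0 => h0 e.2.2.1) (
  .cons (fun d hd h0 => h0 e.2.2.2.1) (
  .cons (fun d hd h0 => h0 e.2.2.2.2.1) (
  .cons (fun d hd h0 => h0 e.2.2.2.2.2.1) (
  .cons (fun d hd h0 => h0 e.2.2.2.2.2.2.1) (
  .cons (fun d hd h0 => h0 e.2.2.2.2.2.2.2.1) (
  .cons (fun d hd h0 => h0 e.2.2.2.2.2.2.2.2.1) (
  .cons (fun d hd h0 => h0 e.2.2.2.2.2.2.2.2.2) (
  .cons (fun d hd h0 => h0 hw) (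
  .cons (fun d hd h0 => h0 g1) (
  .cons (fun d hd h0 => h0 g2) (
  .cons (fun d hd h0 => m1 h0) (
  .cons (fun d hd h0 => m2 h0) (
  .nil))))))))))))))))))))))))))))))))))))))))))

/-- templates -/
def cf1_x : List Tm := [
  ⟨0, [], [], [.q true 2 8 10 9 11]⟩,
  ⟨1, [], [(0, 8), (0, 10), (0, 9), (0, 11)], [.b false 0 8 10, .b false 0 8 9, .b false 0 8 11, .b false 0 8 0, .b false 0 10 9, .b false 0 10 11, .b false 0 10 0, .b false 0 9 11, .b false 0 9 0, .b false 0 11 0, .q false 0 0 8 10 9, .q false 0 0 11 10 9, .q true 2 8 10 0 11, .q true 2 9 11 8 0]⟩,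
  ⟨1, [], [(0, 8), (0, 10), (0, 9), (0, 11)], [.b false 0 8 10, .b false 0 8 11, .b false 0 8 9, .b false 0 8 0, .b false 0 10 11, .b false 0 10 9, .b false 0 10 0, .b false 0 11 9, .b false 0 11 0, .b false 0 9 0, .q false 0 0 8 10 11, .q false 0 0 9 10 11, .q true 2 8 10 0 9, .q true 2 11 9 8 0]⟩,
  ⟨1, [], [(0, 8), (0, 10), (0, 9), (0, 11)], [.b false 0 10 8, .b false 0 10 9, .b false 0 10 11, .b false 0 10 0, .b false 0 8 9, .b false 0 8 11, .b false 0 8 0, .b false 0 9 11, .b false 0 9 0, .b false 0 11 0, .q false 0 0 10 8 9, .q false 0 0 11 8 9, .q true 2 10 8 0 11, .q true 2 9 11 10 0]⟩,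
  ⟨1, [], [(0, 8), (0, 10), (0, 9), (0, 11)], [.b false 0 10 8, .b false 0 10 11, .b false 0 10 9, .b false 0 10 0, .b false 0 8 11, .b false 0 8 9, .b false 0 8 0, .b false 0 11 9, .b false 0 11 0, .b false 0 9 0, .q false 0 0 10 8 11, .q false 0 0 9 8 11, .q true 2 10 8 0 9, .q true 2 11 9 10 0]⟩,
  ⟨0, [], [], [.q true 2 8 12 9 13]⟩,
  ⟨1, [], [(0, 8), (0, 12), (0, 9), (0, 13)], [.b false 0 8 12, .b false 0 8 9, .b false 0 8 13, .b false 0 8 0, .b false 0 12 9, .b false 0 12 13, .b false 0 12 0, .b false 0 9 13, .b false 0 9 0, .b false 0 13 0, .q false 0 0 8 12 9, .q false 0 0 13 12 9, .q true 2 8 12 0 13, .q true 2 9 13 8 0]⟩,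
  ⟨1, [], [(0, 8), (0, 12), (0, 9), (0, 13)], [.b false 0 8 12, .b false 0 8 13, .b false 0 8 9, .b false 0 8 0, .b false 0 12 13, .b false 0 12 9, .b false 0 12 0, .b false 0 13 9, .b false 0 13 0, .b false 0 9 0, .q false 0 0 8 12 13, .q false 0 0 9 12 13, .q true 2 8 12 0 9, .q true 2 13 9 8 0]⟩,
  ⟨1, [], [(0, 8), (0, 12), (0, 9), (0, 13)], [.b false 0 12 8, .b false 0 12 9, .b false 0 12 13, .b false 0 12 0, .b false 0 8 9, .b false 0 8 13, .b false 0 8 0, .b false 0 9 13, .b false 0 9 0, .b false 0 13 0, .q false 0 0 12 8 9, .q false 0 0 13 8 9, .q true 2 12 8 0 13, .q true 2 9 13 12 0]⟩,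
  ⟨1, [], [(0, 8), (0, 12), (0, 9), (0, 13)], [.b false 0 12 8, .b false 0 12 13, .b false 0 12 9, .b false 0 12 0, .b false 0 8 13, .b false 0 8 9, .b false 0 8 0, .b false 0 13 9, .b false 0 13 0, .b false 0 9 0, .q false 0 0 12 8 13, .q false 0 0 9 8 13, .q true 2 12 8 0 9, .q true 2 13 9 12 0]⟩,
  ⟨0, [], [], [.q true 3 8 10 9 13]⟩,
  ⟨1, [], [(0, 8), (0, 9), (0, 10), (0, 13)], [.b false 0 8 9, .b false 0 8 10, .b false 0 8 13, .b false 0 8 0, .b false 0 9 10, .b false 0 9 13, .b false 0 9 0, .b false 0 10 13, .b false 0 10 0, .b false 0 13 0, .q false 0 0 8 9 10, .q false 0 0 13 9 10, .q true 2 8 9 0 13, .q true 2 10 13 8 0, .q false 2 8 9 10 13, .q true 0 8 10 9 13]⟩,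
  ⟨1, [], [(0, 8), (0, 9), (0, 10), (0, 13)], [.b false 0 8 9, .b false 0 8 13, .b false 0 8 10, .b false 0 8 0, .b false 0 9 13, .b false 0 9 10, .b false 0 9 0, .b false 0 13 10, .b false 0 13 0, .b false 0 10 0, .q false 0 0 8 9 13, .q false 0 0 10 9 13, .q true 2 8 9 0 10, .q true 2 13 10 8 0, .q false 2 8 9 10 13, .q true 0 8 10 9 13]⟩,
  ⟨1, [], [(0, 8), (0, 9), (0, 10), (0, 13)], [.b false 0 9 8, .b false 0 9 10, .b false 0 9 13, .b false 0 9 0, .b false 0 8 10, .b false 0 8 13, .b false 0 8 0, .b false 0 10 13, .b false 0 10 0, .b false 0 13 0, .q false 0 0 9 8 10, .q false 0 0 13 8 10, .q true 2 9 8 0 13, .q true 2 10 13 9 0, .q false 2 8 9 10 13, .q true 0 8 10 9 13]⟩,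
  ⟨1, [], [(0, 8), (0, 9), (0, 10), (0, 13)], [.b false 0 9 8, .b false 0 9 13, .b false 0 9 10, .b false 0 9 0, .b false 0 8 13, .b false 0 8 10, .b false 0 8 0, .b false 0 13 10, .b false 0 13 0, .b false 0 10 0, .q false 0 0 9 8 13, .q false 0 0 10 8 13, .q true 2 9 8 0 10, .q true 2 13 10 9 0, .q false 2 8 9 10 13, .q true 0 8 10 9 13]⟩,
  ⟨1, [], [(0, 8), (0, 13), (0, 10), (0, 9)], [.b false 0 8 13, .b false 0 8 10, .b false 0 8 9, .b false 0 8 0, .b false 0 13 10, .b false 0 13 9, .b false 0 13 0, .b false 0 10 9, .b false 0 10 0, .b false 0 9 0, .q false 0 0 8 13 10, .q false 0 0 9 13 10, .q true 2 8 13 0 9, .q true 2 10 9 8 0, .q false 2 8 13 10 9, .q true 0 8 10 9 13]⟩,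
  ⟨1, [], [(0, 8), (0, 13), (0, 10), (0, 9)], [.b false 0 8 13, .b false 0 8 9, .b false 0 8 10, .b false 0 8 0, .b false 0 13 9, .b false 0 13 10, .b false 0 13 0, .b false 0 9 10, .b false 0 9 0, .b false 0 10 0, .q false 0 0 8 13 9, .q false 0 0 10 13 9, .q true 2 8 13 0 10, .q true 2 9 10 8 0, .q false 2 8 13 10 9, .q true 0 8 10 9 13]⟩,
  ⟨1, [], [(0, 8), (0, 13), (0, 10), (0, 9)], [.b false 0 13 8, .b false 0 13 10, .b false 0 13 9, .b false 0 13 0, .b false 0 8 10, .b false 0 8 9, .b false 0 8 0, .b false 0 10 9, .b false 0 10 0, .b false 0 9 0, .q false 0 0 13 8 10, .q false 0 0 9 8 10, .q true 2 13 8 0 9, .q true 2 10 9 13 0, .q false 2 8 13 10 9, .q true 0 8 10 9 13]⟩,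
  ⟨1, [], [(0, 8), (0, 13), (0, 10), (0, 9)], [.b false 0 13 8, .b false 0 13 9, .b false 0 13 10, .b false 0 13 0, .b false 0 8 9, .b false 0 8 10, .b false 0 8 0, .b false 0 9 10, .b false 0 9 0, .b false 0 10 0, .q false 0 0 13 8 9, .q false 0 0 10 8 9, .q true 2 13 8 0 10, .q true 2 9 10 13 0, .q false 2 8 13 10 9, .q true 0 8 10 9 13]⟩,
  ⟨0, [], [], [.b false 0 8 9, .b false 0 8 10, .b false 0 8 11, .b false 0 8 12, .b false 0 9 10, .b false 0 9 11, .b false 0 9 12, .b false 0 10 11, .b false 0 10 12, .b false 0 11 12]⟩,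
  ⟨0, [], [], [.b false 0 8 9, .b false 0 8 10, .b false 0 8 11, .b false 0 8 13, .b false 0 9 10, .b false 0 9 11, .b false 0 9 13, .b false 0 10 11, .b false 0 10 13, .b false 0 11 13]⟩,
  ⟨0, [], [], [.b false 0 8 9, .b false 0 8 10, .b false 0 8 12, .b false 0 8 13, .b false 0 9 10, .b false 0 9 12, .b false 0 9 13, .b false 0 10 12, .b false 0 10 13, .b false 0 12 13]⟩,
  ⟨0, [], [], [.b false 0 8 9, .b false 0 8 11, .b false 0 8 12, .b false 0 8 13, .b false 0 9 11, .b false 0 9 12, .b false 0 9 13, .b false 0 11 12, .b false 0 11 13, .b false 0 12 13]⟩,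
  ⟨0, [], [], [.b false 0 8 10, .b false 0 8 11, .b false 0 8 12, .b false 0 8 13, .b false 0 10 11, .b false 0 10 12, .b false 0 10 13, .b false 0 11 12, .b false 0 11 13, .b false 0 12 13]⟩,
  ⟨0, [], [], [.b false 0 9 10, .b false 0 9 11, .b false 0 9 12, .b false 0 9 13, .b false 0 10 11, .b false 0 10 12, .b false 0 10 13, .b false 0 11 12, .b false 0 11 13, .b false 0 12 13]⟩,
  ⟨0, [], [], [.b true 0 8 12]⟩,
  ⟨0, [], [], [.b true 0 8 9]⟩,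
  ⟨0, [], [], [.b true 0 8 11]⟩,
  ⟨0, [], [], [.b true 0 8 14]⟩,
  ⟨0, [], [], [.b true 0 12 9]⟩,
  ⟨0, [], [], [.b true 0 12 11]⟩,
  ⟨0, [], [], [.b true 0 12 14]⟩,
  ⟨0, [], [], [.b true 0 9 11]⟩,
  ⟨0, [], [], [.b true 0 9 14]⟩,
  ⟨0, [], [], [.b true 0 11 14]⟩,
  ⟨0, [], [], [.q true 2 8 12 9 11]⟩,
  ⟨0, [], [], [.q true 0 14 8 12 11]⟩,
  ⟨0, [], [], [.q true 0 14 9 12 11]⟩,
  ⟨0, [], [], [.q false 2 8 12 14 9]⟩,
  ⟨0, [], [], [.q false 2 11 9 8 14]⟩]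

def cf1_p0 : List Nat := [
0x6240090000000810001000201,
0x2640090000000810006000201,
0x2a800900000008b000f000201,
0x8a20900000008b000b000201,
0x2a080900000008b0013000201,
0xa2800b00000008b0980000201,
0xa240190000000950966000201,
0xad00000000200000000400000000800000000600000000a06cf06d206d506d806da000605,
0x62800b0000000c70830000201,
0x6280190000000c70833000201,
0x2a6800700000000c0000000120a0c000301,
0x8c60030000000c90c64000201,
0x6c80030000000c90c10000201,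
0x6c2800700000001200000001a0b54000301,
0x6ca800700000001600000001a0cdc000301,
0x8c62030000000cb0c68000201,
0x6c82030000000cb0c14000201,
0x86c20700000001c0000000cb047c000301,
0x620c8070000000180000000200c50000301,
0x820c60700000001a0000000220bec000301,
0xc2600b0000000240b46000201,
0xc8201700000002600000001c0000000c30000000020000000b30000000080000000b90000000bf0000000cd0c53000a01,
0xc6200f00000002800000002a0000000c30000000040000000c10000000b90000000cf0bef000801,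
0x60a20d00a4602330000000100000000060000000020000000c100000008100000000e0000000bd0000000b302a806da000a02,
0xca0283d0008c2a1100000008b00000002c001a000401,
0x2ac6039000c0a60d00a42063500a62402d00000003000860a207008c0a60700ca28605000ca860300000002e0000000320000000060000000040000000c500000008100000009500000000c0000000160000000cb0ce8001301,
0x860ca0700000001e0000000340ccc000301,
0xac286070000000cb00000003402c4000301,
0xac2600700000002400000003602a8000301,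
0x6a82030000000380a10000201,
0x86a21300000003802c7000201,
0xc8a20d000c8a21300c80a22300ca02839006a02c3d00082a60d00082a6250062a803100a42063500a62402d0002ac61100000000a0000000080000000c300000003200000008b00000002c00000002e0000000bd0000000c100000003c0000000140000000810000000950012001801,
0x100000000c10000000b30000000bd00000004006d8000501,
0xca0283900000002c00000008b0000000420c8f000401,
0x8c6a22500000004400000003e0000000420c2a000401,
0x6a02c39000c0a20d000c6a21300c60a20500000004200000002e0000000060000000020000000c300000003200000003a0c28000b01,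
0xc6a20d0000000320000000400000000420000000c10000000c3000000048000000046000800]

def cf1_pf : List Nat := cf1_p0

theorem cf1_ref {V : Type} {S : SRel V} {p : Nat → V} (hp : ∀ i j, i < 7 → j < 7 → p i = p j → i = j)
    (hts : PHs S p 7 ((tO ++ (tB ++ (tR ++ (tF ++ tK)))) ++ cf1_x)) : False :=
  refuteS (k := 7) (n2 := 1) (n3 := 1) (n4 := 4) (o3 := 28) (o4 := 112) (M := 1736) ((tO ++ (tB ++ (tR ++ (tF ++ tK)))) ++ cf1_x) cf1_pf (by decide +kernel)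
    (by decide +kernel) (by decide +kernel) (by decide +kernel) hp hts

theorem cf1 {V : Type} {G : SimpleGraph V} {X W : V → V → V → V → Prop} (h : WF G X W) {a b x y x2 y2 t : V}
    (nd : [a, b, x, y, x2, y2, t].Nodup) (a1 : Pr G X W a x b y) (a2 : Pr G X W a x2 b y2) (a3 : IF G X W a x b y2) (hk : K5F G [a, b, x, y, x2, y2])
    (e : K5 G a x2 b y t) (hw : W a x2 b y) (g1 : X t a x2 y) (g2 : X t b x2 y)
    (m1 : ¬ W a x2 t b) (m2 : ¬ W y b a t) : False :=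
  cf1_ref (S := (syW h).rel) (pt_inj (o := a) nd rfl) (PHs.app (UHs.phs ((tO_h h).app ((tB_h h).app ((tR_h h).app ((tF_h h).app (tK_h h))))) _ _) (
  .cons (fun d hd h0 => h0 a1.1) (
  .cons (fun d hd m0 m1 m2 m3 h0 h1 h2 h3 h4 h5 h6 h7 h8 h9 h10 h11 h12 h13 => ((a1.2).1 (d 0) ⟨h0, h1, h2, h3, h4, h5, h6, h7, h8, h9⟩ h10 h11).elim h12 h13) (
  .cons (fun d hd m0 m1 m2 m3 h0 h1 h2 h3 h4 h5 h6 h7 h8 h9 h10 h11 h12 h13 => ((a1.2).2.1 (d 0) ⟨h0, h1, h2, h3, h4, h5, h6, h7, h8, h9⟩ h10 h11).elim h12 h13) (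
  .cons (fun d hd m0 m1 m2 m3 h0 h1 h2 h3 h4 h5 h6 h7 h8 h9 h10 h11 h12 h13 => ((a1.2).2.2.1 (d 0) ⟨h0, h1, h2, h3, h4, h5, h6, h7, h8, h9⟩ h10 h11).elim h12 h13) (
  .cons (fun d hd m0 m1 m2 m3 h0 h1 h2 h3 h4 h5 h6 h7 h8 h9 h10 h11 h12 h13 => ((a1.2).2.2.2 (d 0) ⟨h0, h1, h2, h3, h4, h5, h6, h7, h8, h9⟩ h10 h11).elim h12 h13) (
  .cons (fun d hd h0 => h0 a2.1) (
  .cons (fun d hd m0 m1 m2 m3 h0 h1 h2 h3 h4 h5 h6 h7 h8 h9 h10 h11 h12 h13 => ((a2.2).1 (d 0) ⟨h0, h1, h2, h3, h4, h5, h6, h7, h8, h9⟩ h10 h11).elim h12 h13) (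
  .cons (fun d hd m0 m1 m2 m3 h0 h1 h2 h3 h4 h5 h6 h7 h8 h9 h10 h11 h12 h13 => ((a2.2).2.1 (d 0) ⟨h0, h1, h2, h3, h4, h5, h6, h7, h8, h9⟩ h10 h11).elim h12 h13) (
  .cons (fun d hd m0 m1 m2 m3 h0 h1 h2 h3 h4 h5 h6 h7 h8 h9 h10 h11 h12 h13 => ((a2.2).2.2.1 (d 0) ⟨h0, h1, h2, h3, h4, h5, h6, h7, h8, h9⟩ h10 h11).elim h12 h13) (
  .cons (fun d hd m0 m1 m2 m3 h0 h1 h2 h3 h4 h5 h6 h7 h8 h9 h10 h11 h12 h13 => ((a2.2).2.2.2 (d 0) ⟨h0, h1, h2, h3, h4, h5, h6, h7, h8, h9⟩ h10 h11).elim h12 h13) (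
  .cons (fun d hd h0 => h0 a3.1) (
  .cons (fun d hd m0 m1 m2 m3 h0 h1 h2 h3 h4 h5 h6 h7 h8 h9 h10 h11 h12 h13 h14 h15 => ((a3.2.1 h14 h15).1 (d 0) ⟨h0, h1, h2, h3, h4, h5, h6, h7, h8, h9⟩ h10 h11).elim h12 h13) (
  .cons (fun d hd m0 m1 m2 m3 h0 h1 h2 h3 h4 h5 h6 h7 h8 h9 h10 h11 h12 h13 h14 h15 => ((a3.2.1 h14 h15).2.1 (d 0) ⟨h0, h1, h2, h3, h4, h5, h6, h7, h8, h9⟩ h10 h11).elim h12 h13) (
  .cons (fun d hd m0 m1 m2 m3 h0 h1 h2 h3 h4 h5 h6 h7 h8 h9 h10 h11 h12 h13 h14 h15 => ((a3.2.1 h14 h15).2.2.1 (d 0) ⟨h0, h1, h2, h3, h4, h5, h6, h7, h8, h9⟩ h10 h11).elim h12 h13) (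
  .cons (fun d hd m0 m1 m2 m3 h0 h1 h2 h3 h4 h5 h6 h7 h8 h9 h10 h11 h12 h13 h14 h15 => ((a3.2.1 h14 h15).2.2.2 (d 0) ⟨h0, h1, h2, h3, h4, h5, h6, h7, h8, h9⟩ h10 h11).elim h12 h13) (
  .cons (fun d hd m0 m1 m2 m3 h0 h1 h2 h3 h4 h5 h6 h7 h8 h9 h10 h11 h12 h13 h14 h15 => ((a3.2.2 h14 h15).1 (d 0) ⟨h0, h1, h2, h3, h4, h5, h6, h7, h8, h9⟩ h10 h11).elim h12 h13) (
  .cons (fun d hd m0 m1 m2 m3 h0 h1 h2 h3 h4 h5 h6 h7 h8 h9 h10 h11 h12 h13 h14 h15 => ((a3.2.2 h14 h15).2.1 (d 0) ⟨h0, h1, h2, h3, h4, h5, h6, h7, h8, h9⟩ h10 h11).elim h12 h13) (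
  .cons (fun d hd m0 m1 m2 m3 h0 h1 h2 h3 h4 h5 h6 h7 h8 h9 h10 h11 h12 h13 h14 h15 => ((a3.2.2 h14 h15).2.2.1 (d 0) ⟨h0, h1, h2, h3, h4, h5, h6, h7, h8, h9⟩ h10 h11).elim h12 h13) (
  .cons (fun d hd m0 m1 m2 m3 h0 h1 h2 h3 h4 h5 h6 h7 h8 h9 h10 h11 h12 h13 h14 h15 => ((a3.2.2 h14 h15).2.2.2 (d 0) ⟨h0, h1, h2, h3, h4, h5, h6, h7, h8, h9⟩ h10 h11).elim h12 h13) (
  .cons (fun d hd h0 h1 h2 h3 h4 h5 h6 h7 h8 h9 => hk a (by simp) b (by simp) x (by simp) y (by simp) x2 (by simp) ⟨h0, h1, h2, h3, h4, h5, h6, h7, h8, h9⟩) (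
  .cons (fun d hd h0 h1 h2 h3 h4 h5 h6 h7 h8 h9 => hk a (by simp) b (by simp) x (by simp) y (by simp) y2 (by simp) ⟨h0, h1, h2, h3, h4, h5, h6, h7, h8, h9⟩) (
  .cons (fun d hd h0 h1 h2 h3 h4 h5 h6 h7 h8 h9 => hk a (by simp) b (by simp) x (by simp) x2 (by simp) y2 (by simp) ⟨h0, h1, h2, h3, h4, h5, h6, h7, h8, h9⟩) (
  .cons (fun d hd h0 h1 h2 h3 h4 h5 h6 h7 h8 h9 => hk a (by simp) b (by simp) y (by simp) x2 (by simp) y2 (by simp) ⟨h0, h1, h2, h3, h4, h5, h6, h7, h8, h9⟩) (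
  .cons (fun d hd h0 h1 h2 h3 h4 h5 h6 h7 h8 h9 => hk a (by simp) x (by simp) y (by simp) x2 (by simp) y2 (by simp) ⟨h0, h1, h2, h3, h4, h5, h6, h7, h8, h9⟩) (
  .cons (fun d hd h0 h1 h2 h3 h4 h5 h6 h7 h8 h9 => hk b (by simp) x (by simp) y (by simp) x2 (by simp) y2 (by simp) ⟨h0, h1, h2, h3, h4, h5, h6, h7, h8, h9⟩) (
  .cons (fun d hd h0 => h0 e.1) (
  .cons (fun d hd h0 => h0 e.2.1) (
  .cons (fun d hd h0 => h0 e.2.2.1) (
  .cons (fun d hd h0 => h0 e.2.2.2.1) (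
  .cons (fun d hd h0 => h0 e.2.2.2.2.1) (
  .cons (fun d hd h0 => h0 e.2.2.2.2.2.1) (
  .cons (fun d hd h0 => h0 e.2.2.2.2.2.2.1) (
  .cons (fun d hd h0 => h0 e.2.2.2.2.2.2.2.1) (
  .cons (fun d hd h0 => h0 e.2.2.2.2.2.2.2.2.1) (
  .cons (fun d hd h0 => h0 e.2.2.2.2.2.2.2.2.2) (
  .cons (fun d hd h0 => h0 hw) (
  .cons (fun d hd h0 => h0 g1) (
  .cons (fun d hd h0 => h0 g2) (
  .cons (fun d hd h0 => m1 h0) (
  .cons (fun d hd h0 => m2 h0) (
  .nil))))))))))))))))))))))))))))))))))))))))))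

/-- templates -/
def cf2_x : List Tm := [
  ⟨0, [], [], [.q true 2 8 10 9 11]⟩,
  ⟨1, [], [(0, 8), (0, 10), (0, 9), (0, 11)], [.b false 0 8 10, .b false 0 8 9, .b false 0 8 11, .b false 0 8 0, .b false 0 10 9, .b false 0 10 11, .b false 0 10 0, .b false 0 9 11, .b false 0 9 0, .b false 0 11 0, .q false 0 0 8 10 9, .q false 0 0 11 10 9, .q true 2 8 10 0 11, .q true 2 9 11 8 0]⟩,
  ⟨1, [], [(0, 8), (0, 10), (0, 9), (0, 11)], [.b false 0 8 10, .b false 0 8 11, .b false 0 8 9, .b false 0 8 0, .b false 0 10 11, .b false 0 10 9, .b false 0 10 0, .b false 0 11 9, .b false 0 11 0, .b false 0 9 0, .q false 0 0 8 10 11, .q false 0 0 9 10 11, .q true 2 8 10 0 9, .q true 2 11 9 8 0]⟩,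
  ⟨1, [], [(0, 8), (0, 10), (0, 9), (0, 11)], [.b false 0 10 8, .b false 0 10 9, .b false 0 10 11, .b false 0 10 0, .b false 0 8 9, .b false 0 8 11, .b false 0 8 0, .b false 0 9 11, .b false 0 9 0, .b false 0 11 0, .q false 0 0 10 8 9, .q false 0 0 11 8 9, .q true 2 10 8 0 11, .q true 2 9 11 10 0]⟩,
  ⟨1, [], [(0, 8), (0, 10), (0, 9), (0, 11)], [.b false 0 10 8, .b false 0 10 11, .b false 0 10 9, .b false 0 10 0, .b false 0 8 11, .b false 0 8 9, .b false 0 8 0, .b false 0 11 9, .b false 0 11 0, .b false 0 9 0, .q false 0 0 10 8 11, .q false 0 0 9 8 11, .q true 2 10 8 0 9, .q true 2 11 9 10 0]⟩,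
  ⟨0, [], [], [.q true 2 8 12 9 13]⟩,
  ⟨1, [], [(0, 8), (0, 12), (0, 9), (0, 13)], [.b false 0 8 12, .b false 0 8 9, .b false 0 8 13, .b false 0 8 0, .b false 0 12 9, .b false 0 12 13, .b false 0 12 0, .b false 0 9 13, .b false 0 9 0, .b false 0 13 0, .q false 0 0 8 12 9, .q false 0 0 13 12 9, .q true 2 8 12 0 13, .q true 2 9 13 8 0]⟩,
  ⟨1, [], [(0, 8), (0, 12), (0, 9), (0, 13)], [.b false 0 8 12, .b false 0 8 13, .b false 0 8 9, .b false 0 8 0, .b false 0 12 13, .b false 0 12 9, .b false 0 12 0, .b false 0 13 9, .b false 0 13 0, .b false 0 9 0, .q false 0 0 8 12 13, .q false 0 0 9 12 13, .q true 2 8 12 0 9, .q true 2 13 9 8 0]⟩,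
  ⟨1, [], [(0, 8), (0, 12), (0, 9), (0, 13)], [.b false 0 12 8, .b false 0 12 9, .b false 0 12 13, .b false 0 12 0, .b false 0 8 9, .b false 0 8 13, .b false 0 8 0, .b false 0 9 13, .b false 0 9 0, .b false 0 13 0, .q false 0 0 12 8 9, .q false 0 0 13 8 9, .q true 2 12 8 0 13, .q true 2 9 13 12 0]⟩,
  ⟨1, [], [(0, 8), (0, 12), (0, 9), (0, 13)], [.b false 0 12 8, .b false 0 12 13, .b false 0 12 9, .b false 0 12 0, .b false 0 8 13, .b false 0 8 9, .b false 0 8 0, .b false 0 13 9, .b false 0 13 0, .b false 0 9 0, .q false 0 0 12 8 13, .q false 0 0 9 8 13, .q true 2 12 8 0 9, .q true 2 13 9 12 0]⟩,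
  ⟨0, [], [], [.q true 3 8 10 9 13]⟩,
  ⟨1, [], [(0, 8), (0, 9), (0, 10), (0, 13)], [.b false 0 8 9, .b false 0 8 10, .b false 0 8 13, .b false 0 8 0, .b false 0 9 10, .b false 0 9 13, .b false 0 9 0, .b false 0 10 13, .b false 0 10 0, .b false 0 13 0, .q false 0 0 8 9 10, .q false 0 0 13 9 10, .q true 2 8 9 0 13, .q true 2 10 13 8 0, .q false 2 8 9 10 13, .q true 0 8 10 9 13]⟩,
  ⟨1, [], [(0, 8), (0, 9), (0, 10), (0, 13)], [.b false 0 8 9, .b false 0 8 13, .b false 0 8 10, .b false 0 8 0, .b false 0 9 13, .b false 0 9 10, .b false 0 9 0, .b false 0 13 10, .b false 0 13 0, .b false 0 10 0, .q false 0 0 8 9 13, .q false 0 0 10 9 13, .q true 2 8 9 0 10, .q true 2 13 10 8 0, .q false 2 8 9 10 13, .q true 0 8 10 9 13]⟩,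
  ⟨1, [], [(0, 8), (0, 9), (0, 10), (0, 13)], [.b false 0 9 8, .b false 0 9 10, .b false 0 9 13, .b false 0 9 0, .b false 0 8 10, .b false 0 8 13, .b false 0 8 0, .b false 0 10 13, .b false 0 10 0, .b false 0 13 0, .q false 0 0 9 8 10, .q false 0 0 13 8 10, .q true 2 9 8 0 13, .q true 2 10 13 9 0, .q false 2 8 9 10 13, .q true 0 8 10 9 13]⟩,
  ⟨1, [], [(0, 8), (0, 9), (0, 10), (0, 13)], [.b false 0 9 8, .b false 0 9 13, .b false 0 9 10, .b false 0 9 0, .b false 0 8 13, .b false 0 8 10, .b false 0 8 0, .b false 0 13 10, .b false 0 13 0, .b false 0 10 0, .q false 0 0 9 8 13, .q false 0 0 10 8 13, .q true 2 9 8 0 10, .q true 2 13 10 9 0, .q false 2 8 9 10 13, .q true 0 8 10 9 13]⟩,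
  ⟨1, [], [(0, 8), (0, 13), (0, 10), (0, 9)], [.b false 0 8 13, .b false 0 8 10, .b false 0 8 9, .b false 0 8 0, .b false 0 13 10, .b false 0 13 9, .b false 0 13 0, .b false 0 10 9, .b false 0 10 0, .b false 0 9 0, .q false 0 0 8 13 10, .q false 0 0 9 13 10, .q true 2 8 13 0 9, .q true 2 10 9 8 0, .q false 2 8 13 10 9, .q true 0 8 10 9 13]⟩,
  ⟨1, [], [(0, 8), (0, 13), (0, 10), (0, 9)], [.b false 0 8 13, .b false 0 8 9, .b false 0 8 10, .b false 0 8 0, .b false 0 13 9, .b false 0 13 10, .b false 0 13 0, .b false 0 9 10, .b false 0 9 0, .b false 0 10 0, .q false 0 0 8 13 9, .q false 0 0 10 13 9, .q true 2 8 13 0 10, .q true 2 9 10 8 0, .q false 2 8 13 10 9, .q true 0 8 10 9 13]⟩,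
  ⟨1, [], [(0, 8), (0, 13), (0, 10), (0, 9)], [.b false 0 13 8, .b false 0 13 10, .b false 0 13 9, .b false 0 13 0, .b false 0 8 10, .b false 0 8 9, .b false 0 8 0, .b false 0 10 9, .b false 0 10 0, .b false 0 9 0, .q false 0 0 13 8 10, .q false 0 0 9 8 10, .q true 2 13 8 0 9, .q true 2 10 9 13 0, .q false 2 8 13 10 9, .q true 0 8 10 9 13]⟩,
  ⟨1, [], [(0, 8), (0, 13), (0, 10), (0, 9)], [.b false 0 13 8, .b false 0 13 9, .b false 0 13 10, .b false 0 13 0, .b false 0 8 9, .b false 0 8 10, .b false 0 8 0, .b false 0 9 10, .b false 0 9 0, .b false 0 10 0, .q false 0 0 13 8 9, .q false 0 0 10 8 9, .q true 2 13 8 0 10, .q true 2 9 10 13 0, .q false 2 8 13 10 9, .q true 0 8 10 9 13]⟩,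
  ⟨0, [], [], [.b false 0 8 9, .b false 0 8 10, .b false 0 8 11, .b false 0 8 12, .b false 0 9 10, .b false 0 9 11, .b false 0 9 12, .b false 0 10 11, .b false 0 10 12, .b false 0 11 12]⟩,
  ⟨0, [], [], [.b false 0 8 9, .b false 0 8 10, .b false 0 8 11, .b false 0 8 13, .b false 0 9 10, .b false 0 9 11, .b false 0 9 13, .b false 0 10 11, .b false 0 10 13, .b false 0 11 13]⟩,
  ⟨0, [], [], [.b false 0 8 9, .b false 0 8 10, .b false 0 8 12, .b false 0 8 13, .b false 0 9 10, .b false 0 9 12, .b false 0 9 13, .b false 0 10 12, .b false 0 10 13, .b false 0 12 13]⟩,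
  ⟨0, [], [], [.b false 0 8 9, .b false 0 8 11, .b false 0 8 12, .b false 0 8 13, .b false 0 9 11, .b false 0 9 12, .b false 0 9 13, .b false 0 11 12, .b false 0 11 13, .b false 0 12 13]⟩,
  ⟨0, [], [], [.b false 0 8 10, .b false 0 8 11, .b false 0 8 12, .b false 0 8 13, .b false 0 10 11, .b false 0 10 12, .b false 0 10 13, .b false 0 11 12, .b false 0 11 13, .b false 0 12 13]⟩,
  ⟨0, [], [], [.b false 0 9 10, .b false 0 9 11, .b false 0 9 12, .b false 0 9 13, .b false 0 10 11, .b false 0 10 12, .b false 0 10 13, .b false 0 11 12, .b false 0 11 13, .b false 0 12 13]⟩,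
  ⟨0, [], [], [.b true 0 8 12]⟩,
  ⟨0, [], [], [.b true 0 8 9]⟩,
  ⟨0, [], [], [.b true 0 8 11]⟩,
  ⟨0, [], [], [.b true 0 8 14]⟩,
  ⟨0, [], [], [.b true 0 12 9]⟩,
  ⟨0, [], [], [.b true 0 12 11]⟩,
  ⟨0, [], [], [.b true 0 12 14]⟩,
  ⟨0, [], [], [.b true 0 9 11]⟩,
  ⟨0, [], [], [.b true 0 9 14]⟩,
  ⟨0, [], [], [.b true 0 11 14]⟩,
  ⟨0, [], [], [.q true 2 8 12 9 11]⟩,
  ⟨0, [], [], [.q true 0 14 12 8 9]⟩,
  ⟨0, [], [], [.q true 0 14 11 8 9]⟩,
  ⟨0, [], [], [.q false 2 12 8 14 11]⟩,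
  ⟨0, [], [], [.q false 2 9 11 12 14]⟩]

def cf2_p0 : List Nat := [
0x6240090000000810001000201,
0x2640090000000810006000201,
0x2a800900000008b000f000201,
0x8a20900000008b000b000201,
0x2a080900000008b0013000201,
0xa2800b00000008b0980000201,
0xa240190000000950966000201,
0xad00000000200000000400000000800000000600000000a06cf06d206d506d806da000605,
0x62800b0000000c70830000201,
0x2a6800700000000c0000000120a0c000301,
0xc820030000000c90b54000201,
0x8c20030000000c90b00000201,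
0x2ca800700000000c0000000160cdc000301,
0x2c680070000000120000000160c10000301,
0xc620030000000cb0b44000201,
0x6c20030000000cb0af0000201,
0x820c60700000001c0000000cb054c000301,
0x86c20700000001600000001e0b60000301,
0x286c0070000000180000000200b08000301,
0xc862070000000120000000200c68000301,
0xc6820b0000000220c16000201,
0xc8600100000001c000000026059c000301,
0xc8600b00000002c0c66000201,
0x86c00f00000002e0000000260000000c50000000040000000b30000000bf0000000cd0b0b000801,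
0x86c20f00000002400000002a0000000c50000000c10000000080000000bf0000000cf0b63000801,
0x6ac2839000c8a20d006a2c807000ca860300086a213002ca860700000003200000000a0000000080000000c30000000240000000280ce806e20010000c03,
0x20a60d00a4206330026a40270000000100000000060000000040000000c100000008100000000e0000000bd0000000b3032006d8000b02,
0xc6a1100ca8603d000000030001a0a0e000302,
0x380000000340062a802700000003600820a6070006a8203002ca860700000008b0000000c70000000140000000240ce8000b01,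
0x860ca0700000001a00000003a0ccc000301,
0xca2600700000001e00000003c0970000301,
0x60a20d00a4602330000000100000000060000000020000000c100000003e00000008100000000e0000000bd0000000b306da000b01,
0xa62402d000000095000000081000000040032b000401,
0xa4206350000000420000000810000000400323000401,
0xa26802f0000000c700000008b0000000400346000401,
0xca860390000000300000000460000000400b1f000401,
0xa6c0130000000480b1c000201,
0xca600100000003c00000004a055c000301,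
0xc8a60700000001400000004a0c94000301,
0x2a86c39002c0a625000c8a60d000c0a60d00000004000000003200000004400000004e00000000a0000000bd0000000c500000004a00000000600000000406e2000e01,
0xc60a1b0000000500000000c500000000600000004000000004c000600]

def cf2_pf : List Nat := cf2_p0

theorem cf2_ref {V : Type} {S : SRel V} {p : Nat → V} (hp : ∀ i j, i < 7 → j < 7 → p i = p j → i = j)
    (hts : PHs S p 7 ((tO ++ (tB ++ (tR ++ (tF ++ tK)))) ++ cf2_x)) : False :=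
  refuteS (k := 7) (n2 := 1) (n3 := 1) (n4 := 4) (o3 := 28) (o4 := 112) (M := 1736) ((tO ++ (tB ++ (tR ++ (tF ++ tK)))) ++ cf2_x) cf2_pf (by decide +kernel)
    (by decide +kernel) (by decide +kernel) (by decide +kernel) hp hts

theorem cf2 {V : Type} {G : SimpleGraph V} {X W : V → V → V → V → Prop} (h : WF G X W) {a b x y x2 y2 t : V}
    (nd : [a, b, x, y, x2, y2, t].Nodup) (a1 : Pr G X W a x b y) (a2 : Pr G X W a x2 b y2) (a3 : IF G X W a x b y2) (hk : K5F G [a, b, x, y, x2, y2])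
    (e : K5 G a x2 b y t) (hw : W a x2 b y) (g1 : X t x2 a b) (g2 : X t y a b)
    (m1 : ¬ W x2 a t y) (m2 : ¬ W b y x2 t) : False :=
  cf2_ref (S := (syW h).rel) (pt_inj (o := a) nd rfl) (PHs.app (UHs.phs ((tO_h h).app ((tB_h h).app ((tR_h h).app ((tF_h h).app (tK_h h))))) _ _) (
  .cons (fun d hd h0 => h0 a1.1) (
  .cons (fun d hd m0 m1 m2 m3 h0 h1 h2 h3 h4 h5 h6 h7 h8 h9 h10 h11 h12 h13 => ((a1.2).1 (d 0) ⟨h0, h1, h2, h3, h4, h5, h6, h7, h8, h9⟩ h10 h11).elim h12 h13) (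
  .cons (fun d hd m0 m1 m2 m3 h0 h1 h2 h3 h4 h5 h6 h7 h8 h9 h10 h11 h12 h13 => ((a1.2).2.1 (d 0) ⟨h0, h1, h2, h3, h4, h5, h6, h7, h8, h9⟩ h10 h11).elim h12 h13) (
  .cons (fun d hd m0 m1 m2 m3 h0 h1 h2 h3 h4 h5 h6 h7 h8 h9 h10 h11 h12 h13 => ((a1.2).2.2.1 (d 0) ⟨h0, h1, h2, h3, h4, h5, h6, h7, h8, h9⟩ h10 h11).elim h12 h13) (
  .cons (fun d hd m0 m1 m2 m3 h0 h1 h2 h3 h4 h5 h6 h7 h8 h9 h10 h11 h12 h13 => ((a1.2).2.2.2 (d 0) ⟨h0, h1, h2, h3, h4, h5, h6, h7, h8, h9⟩ h10 h11).elim h12 h13) (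
  .cons (fun d hd h0 => h0 a2.1) (
  .cons (fun d hd m0 m1 m2 m3 h0 h1 h2 h3 h4 h5 h6 h7 h8 h9 h10 h11 h12 h13 => ((a2.2).1 (d 0) ⟨h0, h1, h2, h3, h4, h5, h6, h7, h8, h9⟩ h10 h11).elim h12 h13) (
  .cons (fun d hd m0 m1 m2 m3 h0 h1 h2 h3 h4 h5 h6 h7 h8 h9 h10 h11 h12 h13 => ((a2.2).2.1 (d 0) ⟨h0, h1, h2, h3, h4, h5, h6, h7, h8, h9⟩ h10 h11).elim h12 h13) (
  .cons (fun d hd m0 m1 m2 m3 h0 h1 h2 h3 h4 h5 h6 h7 h8 h9 h10 h11 h12 h13 => ((a2.2).2.2.1 (d 0) ⟨h0, h1, h2, h3, h4, h5, h6, h7, h8, h9⟩ h10 h11).elim h12 h13) (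
  .cons (fun d hd m0 m1 m2 m3 h0 h1 h2 h3 h4 h5 h6 h7 h8 h9 h10 h11 h12 h13 => ((a2.2).2.2.2 (d 0) ⟨h0, h1, h2, h3, h4, h5, h6, h7, h8, h9⟩ h10 h11).elim h12 h13) (
  .cons (fun d hd h0 => h0 a3.1) (
  .cons (fun d hd m0 m1 m2 m3 h0 h1 h2 h3 h4 h5 h6 h7 h8 h9 h10 h11 h12 h13 h14 h15 => ((a3.2.1 h14 h15).1 (d 0) ⟨h0, h1, h2, h3, h4, h5, h6, h7, h8, h9⟩ h10 h11).elim h12 h13) (
  .cons (fun d hd m0 m1 m2 m3 h0 h1 h2 h3 h4 h5 h6 h7 h8 h9 h10 h11 h12 h13 h14 h15 => ((a3.2.1 h14 h15).2.1 (d 0) ⟨h0, h1, h2, h3, h4, h5, h6, h7, h8, h9⟩ h10 h11).elim h12 h13) (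
  .cons (fun d hd m0 m1 m2 m3 h0 h1 h2 h3 h4 h5 h6 h7 h8 h9 h10 h11 h12 h13 h14 h15 => ((a3.2.1 h14 h15).2.2.1 (d 0) ⟨h0, h1, h2, h3, h4, h5, h6, h7, h8, h9⟩ h10 h11).elim h12 h13) (
  .cons (fun d hd m0 m1 m2 m3 h0 h1 h2 h3 h4 h5 h6 h7 h8 h9 h10 h11 h12 h13 h14 h15 => ((a3.2.1 h14 h15).2.2.2 (d 0) ⟨h0, h1, h2, h3, h4, h5, h6, h7, h8, h9⟩ h10 h11).elim h12 h13) (
  .cons (fun d hd m0 m1 m2 m3 h0 h1 h2 h3 h4 h5 h6 h7 h8 h9 h10 h11 h12 h13 h14 h15 => ((a3.2.2 h14 h15).1 (d 0) ⟨h0, h1, h2, h3, h4, h5, h6, h7, h8, h9⟩ h10 h11).elim h12 h13) (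
  .cons (fun d hd m0 m1 m2 m3 h0 h1 h2 h3 h4 h5 h6 h7 h8 h9 h10 h11 h12 h13 h14 h15 => ((a3.2.2 h14 h15).2.1 (d 0) ⟨h0, h1, h2, h3, h4, h5, h6, h7, h8, h9⟩ h10 h11).elim h12 h13) (
  .cons (fun d hd m0 m1 m2 m3 h0 h1 h2 h3 h4 h5 h6 h7 h8 h9 h10 h11 h12 h13 h14 h15 => ((a3.2.2 h14 h15).2.2.1 (d 0) ⟨h0, h1, h2, h3, h4, h5, h6, h7, h8, h9⟩ h10 h11).elim h12 h13) (
  .cons (fun d hd m0 m1 m2 m3 h0 h1 h2 h3 h4 h5 h6 h7 h8 h9 h10 h11 h12 h13 h14 h15 => ((a3.2.2 h14 h15).2.2.2 (d 0) ⟨h0, h1, h2, h3, h4, h5, h6, h7, h8, h9⟩ h10 h11).elim h12 h13) (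
  .cons (fun d hd h0 h1 h2 h3 h4 h5 h6 h7 h8 h9 => hk a (by simp) b (by simp) x (by simp) y (by simp) x2 (by simp) ⟨h0, h1, h2, h3, h4, h5, h6, h7, h8, h9⟩) (
  .cons (fun d hd h0 h1 h2 h3 h4 h5 h6 h7 h8 h9 => hk a (by simp) b (by simp) x (by simp) y (by simp) y2 (by simp) ⟨h0, h1, h2, h3, h4, h5, h6, h7, h8, h9⟩) (
  .cons (fun d hd h0 h1 h2 h3 h4 h5 h6 h7 h8 h9 => hk a (by simp) b (by simp) x (by simp) x2 (by simp) y2 (by simp) ⟨h0, h1, h2, h3, h4, h5, h6, h7, h8, h9⟩) (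
  .cons (fun d hd h0 h1 h2 h3 h4 h5 h6 h7 h8 h9 => hk a (by simp) b (by simp) y (by simp) x2 (by simp) y2 (by simp) ⟨h0, h1, h2, h3, h4, h5, h6, h7, h8, h9⟩) (
  .cons (fun d hd h0 h1 h2 h3 h4 h5 h6 h7 h8 h9 => hk a (by simp) x (by simp) y (by simp) x2 (by simp) y2 (by simp) ⟨h0, h1, h2, h3, h4, h5, h6, h7, h8, h9⟩) (
  .cons (fun d hd h0 h1 h2 h3 h4 h5 h6 h7 h8 h9 => hk b (by simp) x (by simp) y (by simp) x2 (by simp) y2 (by simp) ⟨h0, h1, h2, h3, h4, h5, h6, h7, h8, h9⟩) (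
  .cons (fun d hd h0 => h0 e.1) (
  .cons (fun d hd h0 => h0 e.2.1) (
  .cons (fun d hd h0 => h0 e.2.2.1) (
  .cons (fun d hd h0 => h0 e.2.2.2.1) (
  .cons (fun d hd h0 => h0 e.2.2.2.2.1) (
  .cons (fun d hd h0 => h0 e.2.2.2.2.2.1) (
  .cons (fun d hd h0 => h0 e.2.2.2.2.2.2.1) (
  .cons (fun d hd h0 => h0 e.2.2.2.2.2.2.2.1) (
  .cons (fun d hd h0 => h0 e.2.2.2.2.2.2.2.2.1) (
  .cons (fun d hd h0 => h0 e.2.2.2.2.2.2.2.2.2) (
  .cons (fun d hd h0 => h0 hw) (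
  .cons (fun d hd h0 => h0 g1) (
  .cons (fun d hd h0 => h0 g2) (
  .cons (fun d hd h0 => m1 h0) (
  .cons (fun d hd h0 => m2 h0) (
  .nil))))))))))))))))))))))))))))))))))))))))))

/-- templates -/
def cf3_x : List Tm := [
  ⟨0, [], [], [.q true 2 8 10 9 11]⟩,
  ⟨1, [], [(0, 8), (0, 10), (0, 9), (0, 11)], [.b false 0 8 10, .b false 0 8 9, .b false 0 8 11, .b false 0 8 0, .b false 0 10 9, .b false 0 10 11, .b false 0 10 0, .b false 0 9 11, .b false 0 9 0, .b false 0 11 0, .q false 0 0 8 10 9, .q false 0 0 11 10 9, .q true 2 8 10 0 11, .q true 2 9 11 8 0]⟩,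
  ⟨1, [], [(0, 8), (0, 10), (0, 9), (0, 11)], [.b false 0 8 10, .b false 0 8 11, .b false 0 8 9, .b false 0 8 0, .b false 0 10 11, .b false 0 10 9, .b false 0 10 0, .b false 0 11 9, .b false 0 11 0, .b false 0 9 0, .q false 0 0 8 10 11, .q false 0 0 9 10 11, .q true 2 8 10 0 9, .q true 2 11 9 8 0]⟩,
  ⟨1, [], [(0, 8), (0, 10), (0, 9), (0, 11)], [.b false 0 10 8, .b false 0 10 9, .b false 0 10 11, .b false 0 10 0, .b false 0 8 9, .b false 0 8 11, .b false 0 8 0, .b false 0 9 11, .b false 0 9 0, .b false 0 11 0, .q false 0 0 10 8 9, .q false 0 0 11 8 9, .q true 2 10 8 0 11, .q true 2 9 11 10 0]⟩,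
  ⟨1, [], [(0, 8), (0, 10), (0, 9), (0, 11)], [.b false 0 10 8, .b false 0 10 11, .b false 0 10 9, .b false 0 10 0, .b false 0 8 11, .b false 0 8 9, .b false 0 8 0, .b false 0 11 9, .b false 0 11 0, .b false 0 9 0, .q false 0 0 10 8 11, .q false 0 0 9 8 11, .q true 2 10 8 0 9, .q true 2 11 9 10 0]⟩,
  ⟨0, [], [], [.q true 2 8 12 9 13]⟩,
  ⟨1, [], [(0, 8), (0, 12), (0, 9), (0, 13)], [.b false 0 8 12, .b false 0 8 9, .b false 0 8 13, .b false 0 8 0, .b false 0 12 9, .b false 0 12 13, .b false 0 12 0, .b false 0 9 13, .b false 0 9 0, .b false 0 13 0, .q false 0 0 8 12 9, .q false 0 0 13 12 9, .q true 2 8 12 0 13, .q true 2 9 13 8 0]⟩,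
  ⟨1, [], [(0, 8), (0, 12), (0, 9), (0, 13)], [.b false 0 8 12, .b false 0 8 13, .b false 0 8 9, .b false 0 8 0, .b false 0 12 13, .b false 0 12 9, .b false 0 12 0, .b false 0 13 9, .b false 0 13 0, .b false 0 9 0, .q false 0 0 8 12 13, .q false 0 0 9 12 13, .q true 2 8 12 0 9, .q true 2 13 9 8 0]⟩,
  ⟨1, [], [(0, 8), (0, 12), (0, 9), (0, 13)], [.b false 0 12 8, .b false 0 12 9, .b false 0 12 13, .b false 0 12 0, .b false 0 8 9, .b false 0 8 13, .b false 0 8 0, .b false 0 9 13, .b false 0 9 0, .b false 0 13 0, .q false 0 0 12 8 9, .q false 0 0 13 8 9, .q true 2 12 8 0 13, .q true 2 9 13 12 0]⟩,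
  ⟨1, [], [(0, 8), (0, 12), (0, 9), (0, 13)], [.b false 0 12 8, .b false 0 12 13, .b false 0 12 9, .b false 0 12 0, .b false 0 8 13, .b false 0 8 9, .b false 0 8 0, .b false 0 13 9, .b false 0 13 0, .b false 0 9 0, .q false 0 0 12 8 13, .q false 0 0 9 8 13, .q true 2 12 8 0 9, .q true 2 13 9 12 0]⟩,
  ⟨0, [], [], [.q true 3 8 10 9 13]⟩,
  ⟨1, [], [(0, 8), (0, 9), (0, 10), (0, 13)], [.b false 0 8 9, .b false 0 8 10, .b false 0 8 13, .b false 0 8 0, .b false 0 9 10, .b false 0 9 13, .b false 0 9 0, .b false 0 10 13, .b false 0 10 0, .b false 0 13 0, .q false 0 0 8 9 10, .q false 0 0 13 9 10, .q true 2 8 9 0 13, .q true 2 10 13 8 0, .q false 2 8 9 10 13, .q true 0 8 10 9 13]⟩,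
  ⟨1, [], [(0, 8), (0, 9), (0, 10), (0, 13)], [.b false 0 8 9, .b false 0 8 13, .b false 0 8 10, .b false 0 8 0, .b false 0 9 13, .b false 0 9 10, .b false 0 9 0, .b false 0 13 10, .b false 0 13 0, .b false 0 10 0, .q false 0 0 8 9 13, .q false 0 0 10 9 13, .q true 2 8 9 0 10, .q true 2 13 10 8 0, .q false 2 8 9 10 13, .q true 0 8 10 9 13]⟩,
  ⟨1, [], [(0, 8), (0, 9), (0, 10), (0, 13)], [.b false 0 9 8, .b false 0 9 10, .b false 0 9 13, .b false 0 9 0, .b false 0 8 10, .b false 0 8 13, .b false 0 8 0, .b false 0 10 13, .b false 0 10 0, .b false 0 13 0, .q false 0 0 9 8 10, .q false 0 0 13 8 10, .q true 2 9 8 0 13, .q true 2 10 13 9 0, .q false 2 8 9 10 13, .q true 0 8 10 9 13]⟩,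
  ⟨1, [], [(0, 8), (0, 9), (0, 10), (0, 13)], [.b false 0 9 8, .b false 0 9 13, .b false 0 9 10, .b false 0 9 0, .b false 0 8 13, .b false 0 8 10, .b false 0 8 0, .b false 0 13 10, .b false 0 13 0, .b false 0 10 0, .q false 0 0 9 8 13, .q false 0 0 10 8 13, .q true 2 9 8 0 10, .q true 2 13 10 9 0, .q false 2 8 9 10 13, .q true 0 8 10 9 13]⟩,
  ⟨1, [], [(0, 8), (0, 13), (0, 10), (0, 9)], [.b false 0 8 13, .b false 0 8 10, .b false 0 8 9, .b false 0 8 0, .b false 0 13 10, .b false 0 13 9, .b false 0 13 0, .b false 0 10 9, .b false 0 10 0, .b false 0 9 0, .q false 0 0 8 13 10, .q false 0 0 9 13 10, .q true 2 8 13 0 9, .q true 2 10 9 8 0, .q false 2 8 13 10 9, .q true 0 8 10 9 13]⟩,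
  ⟨1, [], [(0, 8), (0, 13), (0, 10), (0, 9)], [.b false 0 8 13, .b false 0 8 9, .b false 0 8 10, .b false 0 8 0, .b false 0 13 9, .b false 0 13 10, .b false 0 13 0, .b false 0 9 10, .b false 0 9 0, .b false 0 10 0, .q false 0 0 8 13 9, .q false 0 0 10 13 9, .q true 2 8 13 0 10, .q true 2 9 10 8 0, .q false 2 8 13 10 9, .q true 0 8 10 9 13]⟩,
  ⟨1, [], [(0, 8), (0, 13), (0, 10), (0, 9)], [.b false 0 13 8, .b false 0 13 10, .b false 0 13 9, .b false 0 13 0, .b false 0 8 10, .b false 0 8 9, .b false 0 8 0, .b false 0 10 9, .b false 0 10 0, .b false 0 9 0, .q false 0 0 13 8 10, .q false 0 0 9 8 10, .q true 2 13 8 0 9, .q true 2 10 9 13 0, .q false 2 8 13 10 9, .q true 0 8 10 9 13]⟩,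
  ⟨1, [], [(0, 8), (0, 13), (0, 10), (0, 9)], [.b false 0 13 8, .b false 0 13 9, .b false 0 13 10, .b false 0 13 0, .b false 0 8 9, .b false 0 8 10, .b false 0 8 0, .b false 0 9 10, .b false 0 9 0, .b false 0 10 0, .q false 0 0 13 8 9, .q false 0 0 10 8 9, .q true 2 13 8 0 10, .q true 2 9 10 13 0, .q false 2 8 13 10 9, .q true 0 8 10 9 13]⟩,
  ⟨0, [], [], [.b false 0 8 9, .b false 0 8 10, .b false 0 8 11, .b false 0 8 12, .b false 0 9 10, .b false 0 9 11, .b false 0 9 12, .b false 0 10 11, .b false 0 10 12, .b false 0 11 12]⟩,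
  ⟨0, [], [], [.b false 0 8 9, .b false 0 8 10, .b false 0 8 11, .b false 0 8 13, .b false 0 9 10, .b false 0 9 11, .b false 0 9 13, .b false 0 10 11, .b false 0 10 13, .b false 0 11 13]⟩,
  ⟨0, [], [], [.b false 0 8 9, .b false 0 8 10, .b false 0 8 12, .b false 0 8 13, .b false 0 9 10, .b false 0 9 12, .b false 0 9 13, .b false 0 10 12, .b false 0 10 13, .b false 0 12 13]⟩,
  ⟨0, [], [], [.b false 0 8 9, .b false 0 8 11, .b false 0 8 12, .b false 0 8 13, .b false 0 9 11, .b false 0 9 12, .b false 0 9 13, .b false 0 11 12, .b false 0 11 13, .b false 0 12 13]⟩,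
  ⟨0, [], [], [.b false 0 8 10, .b false 0 8 11, .b false 0 8 12, .b false 0 8 13, .b false 0 10 11, .b false 0 10 12, .b false 0 10 13, .b false 0 11 12, .b false 0 11 13, .b false 0 12 13]⟩,
  ⟨0, [], [], [.b false 0 9 10, .b false 0 9 11, .b false 0 9 12, .b false 0 9 13, .b false 0 10 11, .b false 0 10 12, .b false 0 10 13, .b false 0 11 12, .b false 0 11 13, .b false 0 12 13]⟩,
  ⟨0, [], [], [.b true 0 8 12]⟩,
  ⟨0, [], [], [.b true 0 8 9]⟩,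
  ⟨0, [], [], [.b true 0 8 11]⟩,
  ⟨0, [], [], [.b true 0 8 14]⟩,
  ⟨0, [], [], [.b true 0 12 9]⟩,
  ⟨0, [], [], [.b true 0 12 11]⟩,
  ⟨0, [], [], [.b true 0 12 14]⟩,
  ⟨0, [], [], [.b true 0 9 11]⟩,
  ⟨0, [], [], [.b true 0 9 14]⟩,
  ⟨0, [], [], [.b true 0 11 14]⟩,
  ⟨0, [], [], [.q true 2 8 12 9 11]⟩,
  ⟨0, [], [], [.q true 0 14 12 8 11]⟩,
  ⟨0, [], [], [.q true 0 14 9 8 11]⟩,
  ⟨0, [], [], [.q false 2 12 8 14 9]⟩,
  ⟨0, [], [], [.q false 2 11 9 12 14]⟩]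

def cf3_p0 : List Nat := [
0x6240090000000810001000201,
0x2640090000000810006000201,
0x2a800900000008b000f000201,
0x8a20900000008b000b000201,
0x2a080900000008b0013000201,
0xa2800b00000008b0980000201,
0xa240190000000950966000201,
0xad00000000200000000400000000800000000600000000a06cf06d206d506d806da000605,
0x62800b0000000c70830000201,
0x6280190000000c70833000201,
0x2a6800700000000c0000000120a0c000301,
0xc860030000000c90c10000201,
0x8c60030000000c90b08000201,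
0x6c280070000000120000000180b54000301,
0x6ca80070000000160000000180cdc000301,
0xc620030000000cb0bec000201,
0x2c60030000000cb0af0000201,
0x860c20700000001c0000000cb0498000301,
0x82c6070000000180000000200c14000301,
0x682c00700000001a0000000220b00000301,
0xc862070000000120000000220c68000301,
0xc8200100000001c0000000280588000301,
0xc8200b00000002c0c52000201,
0x82c00f00000002e0000000280000000c30000000020000000b30000000bf0000000cd0b03000801,
0xc6821700000002600000002a0000000c50000000c10000000080000000bd0000000c30000000bf0000000cf0c17000a01,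
0x60a20d00a4602330000000100000000060000000020000000c100000008100000000e0000000bd0000000b302a806da000a02,
0xca8203d0000c2a1100000008b000000030001a000401,
0x2ac6839000c8a60d00280a62500a42063500a26802f00a62402d00000003400860a20700ca28605000ca860300000003200000003600000000a0000000bd0000000c500000008100000008b0000000c700000009500000000c0000000240ce8001501,
0x860ca0700000001e0000000380ccc000301,
0xac2860700000002400000003802c4000301,
0xac260070000000cb00000003a02a8000301,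
0x6a820300000003c0a10000201,
0xa2601300000003e02ab000201,
0xc8a207000a2c013000c8a20d00ca8203900082a60d006a82c3d00082a6250062a803100a42063500a62402d0002ac61100000000c00000000a0000000080000000c300000003600000008b0000000300000000bd0000000c10000000400000000320000000140000000810000000950012001901,
0x100000000c10000000b30000000bd00000004406d8000501,
0xca8203900000003000000008b0000000460b17000401,
0xc6a2250000000480000000420000000460c2a000401,
0xa2c0130000000480b14000201,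
0xc6a20d0000000360000000440000000460000000c10000000c300000004a0560000701,
0xc8a20700000000c00000004c0c8c000301,
0xc6a21300000004e0563000201,
0xc8a20d0000000360000000460000000c300000000800000000a00000005005c6000701,
0x6a82c39000000032000000046000000052000000054000500]

def cf3_pf : List Nat := cf3_p0

theorem cf3_ref {V : Type} {S : SRel V} {p : Nat → V} (hp : ∀ i j, i < 7 → j < 7 → p i = p j → i = j)
    (hts : PHs S p 7 ((tO ++ (tB ++ (tR ++ (tF ++ tK)))) ++ cf3_x)) : False :=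
  refuteS (k := 7) (n2 := 1) (n3 := 1) (n4 := 4) (o3 := 28) (o4 := 112) (M := 1736) ((tO ++ (tB ++ (tR ++ (tF ++ tK)))) ++ cf3_x) cf3_pf (by decide +kernel)
    (by decide +kernel) (by decide +kernel) (by decide +kernel) hp hts

theorem cf3 {V : Type} {G : SimpleGraph V} {X W : V → V → V → V → Prop} (h : WF G X W) {a b x y x2 y2 t : V}
    (nd : [a, b, x, y, x2, y2, t].Nodup) (a1 : Pr G X W a x b y) (a2 : Pr G X W a x2 b y2) (a3 : IF G X W a x b y2) (hk : K5F G [a, b, x, y, x2, y2])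
    (e : K5 G a x2 b y t) (hw : W a x2 b y) (g1 : X t x2 a y) (g2 : X t b a y)
    (m1 : ¬ W x2 a t b) (m2 : ¬ W y b x2 t) : False :=
  cf3_ref (S := (syW h).rel) (pt_inj (o := a) nd rfl) (PHs.app (UHs.phs ((tO_h h).app ((tB_h h).app ((tR_h h).app ((tF_h h).app (tK_h h))))) _ _) (
  .cons (fun d hd h0 => h0 a1.1) (
  .cons (fun d hd m0 m1 m2 m3 h0 h1 h2 h3 h4 h5 h6 h7 h8 h9 h10 h11 h12 h13 => ((a1.2).1 (d 0) ⟨h0, h1, h2, h3, h4, h5, h6, h7, h8, h9⟩ h10 h11).elim h12 h13) (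
  .cons (fun d hd m0 m1 m2 m3 h0 h1 h2 h3 h4 h5 h6 h7 h8 h9 h10 h11 h12 h13 => ((a1.2).2.1 (d 0) ⟨h0, h1, h2, h3, h4, h5, h6, h7, h8, h9⟩ h10 h11).elim h12 h13) (
  .cons (fun d hd m0 m1 m2 m3 h0 h1 h2 h3 h4 h5 h6 h7 h8 h9 h10 h11 h12 h13 => ((a1.2).2.2.1 (d 0) ⟨h0, h1, h2, h3, h4, h5, h6, h7, h8, h9⟩ h10 h11).elim h12 h13) (
  .cons (fun d hd m0 m1 m2 m3 h0 h1 h2 h3 h4 h5 h6 h7 h8 h9 h10 h11 h12 h13 => ((a1.2).2.2.2 (d 0) ⟨h0, h1, h2, h3, h4, h5, h6, h7, h8, h9⟩ h10 h11).elim h12 h13) (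
  .cons (fun d hd h0 => h0 a2.1) (
  .cons (fun d hd m0 m1 m2 m3 h0 h1 h2 h3 h4 h5 h6 h7 h8 h9 h10 h11 h12 h13 => ((a2.2).1 (d 0) ⟨h0, h1, h2, h3, h4, h5, h6, h7, h8, h9⟩ h10 h11).elim h12 h13) (
  .cons (fun d hd m0 m1 m2 m3 h0 h1 h2 h3 h4 h5 h6 h7 h8 h9 h10 h11 h12 h13 => ((a2.2).2.1 (d 0) ⟨h0, h1, h2, h3, h4, h5, h6, h7, h8, h9⟩ h10 h11).elim h12 h13) (
  .cons (fun d hd m0 m1 m2 m3 h0 h1 h2 h3 h4 h5 h6 h7 h8 h9 h10 h11 h12 h13 => ((a2.2).2.2.1 (d 0) ⟨h0, h1, h2, h3, h4, h5, h6, h7, h8, h9⟩ h10 h11).elim h12 h13) (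
  .cons (fun d hd m0 m1 m2 m3 h0 h1 h2 h3 h4 h5 h6 h7 h8 h9 h10 h11 h12 h13 => ((a2.2).2.2.2 (d 0) ⟨h0, h1, h2, h3, h4, h5, h6, h7, h8, h9⟩ h10 h11).elim h12 h13) (
  .cons (fun d hd h0 => h0 a3.1) (
  .cons (fun d hd m0 m1 m2 m3 h0 h1 h2 h3 h4 h5 h6 h7 h8 h9 h10 h11 h12 h13 h14 h15 => ((a3.2.1 h14 h15).1 (d 0) ⟨h0, h1, h2, h3, h4, h5, h6, h7, h8, h9⟩ h10 h11).elim h12 h13) (
  .cons (fun d hd m0 m1 m2 m3 h0 h1 h2 h3 h4 h5 h6 h7 h8 h9 h10 h11 h12 h13 h14 h15 => ((a3.2.1 h14 h15).2.1 (d 0) ⟨h0, h1, h2, h3, h4, h5, h6, h7, h8, h9⟩ h10 h11).elim h12 h13) (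
  .cons (fun d hd m0 m1 m2 m3 h0 h1 h2 h3 h4 h5 h6 h7 h8 h9 h10 h11 h12 h13 h14 h15 => ((a3.2.1 h14 h15).2.2.1 (d 0) ⟨h0, h1, h2, h3, h4, h5, h6, h7, h8, h9⟩ h10 h11).elim h12 h13) (
  .cons (fun d hd m0 m1 m2 m3 h0 h1 h2 h3 h4 h5 h6 h7 h8 h9 h10 h11 h12 h13 h14 h15 => ((a3.2.1 h14 h15).2.2.2 (d 0) ⟨h0, h1, h2, h3, h4, h5, h6, h7, h8, h9⟩ h10 h11).elim h12 h13) (
  .cons (fun d hd m0 m1 m2 m3 h0 h1 h2 h3 h4 h5 h6 h7 h8 h9 h10 h11 h12 h13 h14 h15 => ((a3.2.2 h14 h15).1 (d 0) ⟨h0, h1, h2, h3, h4, h5, h6, h7, h8, h9⟩ h10 h11).elim h12 h13) (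
  .cons (fun d hd m0 m1 m2 m3 h0 h1 h2 h3 h4 h5 h6 h7 h8 h9 h10 h11 h12 h13 h14 h15 => ((a3.2.2 h14 h15).2.1 (d 0) ⟨h0, h1, h2, h3, h4, h5, h6, h7, h8, h9⟩ h10 h11).elim h12 h13) (
  .cons (fun d hd m0 m1 m2 m3 h0 h1 h2 h3 h4 h5 h6 h7 h8 h9 h10 h11 h12 h13 h14 h15 => ((a3.2.2 h14 h15).2.2.1 (d 0) ⟨h0, h1, h2, h3, h4, h5, h6, h7, h8, h9⟩ h10 h11).elim h12 h13) (
  .cons (fun d hd m0 m1 m2 m3 h0 h1 h2 h3 h4 h5 h6 h7 h8 h9 h10 h11 h12 h13 h14 h15 => ((a3.2.2 h14 h15).2.2.2 (d 0) ⟨h0, h1, h2, h3, h4, h5, h6, h7, h8, h9⟩ h10 h11).elim h12 h13) (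
  .cons (fun d hd h0 h1 h2 h3 h4 h5 h6 h7 h8 h9 => hk a (by simp) b (by simp) x (by simp) y (by simp) x2 (by simp) ⟨h0, h1, h2, h3, h4, h5, h6, h7, h8, h9⟩) (
  .cons (fun d hd h0 h1 h2 h3 h4 h5 h6 h7 h8 h9 => hk a (by simp) b (by simp) x (by simp) y (by simp) y2 (by simp) ⟨h0, h1, h2, h3, h4, h5, h6, h7, h8, h9⟩) (
  .cons (fun d hd h0 h1 h2 h3 h4 h5 h6 h7 h8 h9 => hk a (by simp) b (by simp) x (by simp) x2 (by simp) y2 (by simp) ⟨h0, h1, h2, h3, h4, h5, h6, h7, h8, h9⟩) (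
  .cons (fun d hd h0 h1 h2 h3 h4 h5 h6 h7 h8 h9 => hk a (by simp) b (by simp) y (by simp) x2 (by simp) y2 (by simp) ⟨h0, h1, h2, h3, h4, h5, h6, h7, h8, h9⟩) (
  .cons (fun d hd h0 h1 h2 h3 h4 h5 h6 h7 h8 h9 => hk a (by simp) x (by simp) y (by simp) x2 (by simp) y2 (by simp) ⟨h0, h1, h2, h3, h4, h5, h6, h7, h8, h9⟩) (
  .cons (fun d hd h0 h1 h2 h3 h4 h5 h6 h7 h8 h9 => hk b (by simp) x (by simp) y (by simp) x2 (by simp) y2 (by simp) ⟨h0, h1, h2, h3, h4, h5, h6, h7, h8, h9⟩) (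
  .cons (fun d hd h0 => h0 e.1) (
  .cons (fun d hd h0 => h0 e.2.1) (
  .cons (fun d hd h0 => h0 e.2.2.1) (
  .cons (fun d hd h0 => h0 e.2.2.2.1) (
  .cons (fun d hd h0 => h0 e.2.2.2.2.1) (
  .cons (fun d hd h0 => h0 e.2.2.2.2.2.1) (
  .cons (fun d hd h0 => h0 e.2.2.2.2.2.2.1) (
  .cons (fun d hd h0 => h0 e.2.2.2.2.2.2.2.1) (
  .cons (fun d hd h0 => h0 e.2.2.2.2.2.2.2.2.1) (
  .cons (fun d hd h0 => h0 e.2.2.2.2.2.2.2.2.2) (
  .cons (fun d hd h0 => h0 hw) (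
  .cons (fun d hd h0 => h0 g1) (
  .cons (fun d hd h0 => h0 g2) (
  .cons (fun d hd h0 => m1 h0) (
  .cons (fun d hd h0 => m2 h0) (
  .nil))))))))))))))))))))))))))))))))))))))))))

end Pool.Agent.SOF
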