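import Pool.Agent.SOF.I2

/-! Project SOF: refutations (generated). -/

set_option autoImplicit false
set_option maxRecDepth 100000
set_option linter.unusedVariables false

namespace Pool.Agent.SOF

open Pool.Agent.SOC Pool.Agent.SOD Pool.Agent.RUP

/-- templates -/
def df0_x : List Tm := [
  ⟨0, [], [], [.q true 2 8 10 9 11]⟩,
  ⟨1, [], [(0, 8), (0, 10), (0, 9), (0, 11)], [.b false 0 8 10, .b false 0 8 9, .b false 0 8 11, .b false 0 8 0, .b false 0 10 9, .b false 0 10 11, .b false 0 10 0, .b false 0 9 11, .b false 0 9 0, .b false 0 11 0, .q false 0 0 8 10 9, .q false 0 0 11 10 9, .q true 2 8 10 0 11, .q true 2 9 11 8 0]⟩,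
  ⟨1, [], [(0, 8), (0, 10), (0, 9), (0, 11)], [.b false 0 8 10, .b false 0 8 11, .b false 0 8 9, .b false 0 8 0, .b false 0 10 11, .b false 0 10 9, .b false 0 10 0, .b false 0 11 9, .b false 0 11 0, .b false 0 9 0, .q false 0 0 8 10 11, .q false 0 0 9 10 11, .q true 2 8 10 0 9, .q true 2 11 9 8 0]⟩,
  ⟨1, [], [(0, 8), (0, 10), (0, 9), (0, 11)], [.b false 0 10 8, .b false 0 10 9, .b false 0 10 11, .b false 0 10 0, .b false 0 8 9, .b false 0 8 11, .b false 0 8 0, .b false 0 9 11, .b false 0 9 0, .b false 0 11 0, .q false 0 0 10 8 9, .q false 0 0 11 8 9, .q true 2 10 8 0 11, .q true 2 9 11 10 0]⟩,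
  ⟨1, [], [(0, 8), (0, 10), (0, 9), (0, 11)], [.b false 0 10 8, .b false 0 10 11, .b false 0 10 9, .b false 0 10 0, .b false 0 8 11, .b false 0 8 9, .b false 0 8 0, .b false 0 11 9, .b false 0 11 0, .b false 0 9 0, .q false 0 0 10 8 11, .q false 0 0 9 8 11, .q true 2 10 8 0 9, .q true 2 11 9 10 0]⟩,
  ⟨0, [], [], [.q true 2 8 12 9 10]⟩,
  ⟨1, [], [(0, 8), (0, 12), (0, 9), (0, 10)], [.b false 0 8 12, .b false 0 8 9, .b false 0 8 10, .b false 0 8 0, .b false 0 12 9, .b false 0 12 10, .b false 0 12 0, .b false 0 9 10, .b false 0 9 0, .b false 0 10 0, .q false 0 0 8 12 9, .q false 0 0 10 12 9, .q true 2 8 12 0 10, .q true 2 9 10 8 0]⟩,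
  ⟨1, [], [(0, 8), (0, 12), (0, 9), (0, 10)], [.b false 0 8 12, .b false 0 8 10, .b false 0 8 9, .b false 0 8 0, .b false 0 12 10, .b false 0 12 9, .b false 0 12 0, .b false 0 10 9, .b false 0 10 0, .b false 0 9 0, .q false 0 0 8 12 10, .q false 0 0 9 12 10, .q true 2 8 12 0 9, .q true 2 10 9 8 0]⟩,
  ⟨1, [], [(0, 8), (0, 12), (0, 9), (0, 10)], [.b false 0 12 8, .b false 0 12 9, .b false 0 12 10, .b false 0 12 0, .b false 0 8 9, .b false 0 8 10, .b false 0 8 0, .b false 0 9 10, .b false 0 9 0, .b false 0 10 0, .q false 0 0 12 8 9, .q false 0 0 10 8 9, .q true 2 12 8 0 10, .q true 2 9 10 12 0]⟩,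
  ⟨1, [], [(0, 8), (0, 12), (0, 9), (0, 10)], [.b false 0 12 8, .b false 0 12 10, .b false 0 12 9, .b false 0 12 0, .b false 0 8 10, .b false 0 8 9, .b false 0 8 0, .b false 0 10 9, .b false 0 10 0, .b false 0 9 0, .q false 0 0 12 8 10, .q false 0 0 9 8 10, .q true 2 12 8 0 9, .q true 2 10 9 12 0]⟩,
  ⟨0, [], [], [.b false 0 8 9, .b false 0 8 10, .b false 0 8 11, .b false 0 8 12, .b false 0 9 10, .b false 0 9 11, .b false 0 9 12, .b false 0 10 11, .b false 0 10 12, .b false 0 11 12]⟩,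
  ⟨0, [], [], [.b true 0 8 12]⟩,
  ⟨0, [], [], [.b true 0 8 9]⟩,
  ⟨0, [], [], [.b true 0 8 11]⟩,
  ⟨0, [], [], [.b true 0 8 13]⟩,
  ⟨0, [], [], [.b true 0 12 9]⟩,
  ⟨0, [], [], [.b true 0 12 11]⟩,
  ⟨0, [], [], [.b true 0 12 13]⟩,
  ⟨0, [], [], [.b true 0 9 11]⟩,
  ⟨0, [], [], [.b true 0 9 13]⟩,
  ⟨0, [], [], [.b true 0 11 13]⟩,
  ⟨0, [], [], [.q true 2 8 12 9 11]⟩,
  ⟨0, [], [], [.q true 0 13 8 12 9]⟩,
  ⟨0, [], [], [.q true 0 13 11 12 9]⟩,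
  ⟨0, [], [], [.q false 2 8 12 13 11]⟩,
  ⟨0, [], [], [.q false 2 9 11 8 13]⟩]

def df0_p0 : List Nat := [
0x6240090000000810001000201,
0x2640090000000810006000201,
0x462090000000810004000201,
0x2604090000000810008000201,
0x24800900000008b0003000201,
0x8420900000008b000b000201,
0x8240900000008b000c000201,
0x9500000000200000000a00000000600000000400000000800000000c00000000e03f003f303f6000803,
0x100000000970000000a103f0000301,
0xa5000000012000200]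

def df0_pf : List Nat := df0_p0

theorem df0_ref {V : Type} {S : SRel V} {p : Nat → V} (hp : ∀ i j, i < 6 → j < 6 → p i = p j → i = j)
    (hts : PHs S p 6 ((tO ++ (tB ++ (tR ++ (tF ++ tK)))) ++ df0_x)) : False :=
  refuteS (k := 6) (n2 := 1) (n3 := 1) (n4 := 4) (o3 := 21) (o4 := 77) (M := 1001) ((tO ++ (tB ++ (tR ++ (tF ++ tK)))) ++ df0_x) df0_pf (by decide +kernel)
    (by decide +kernel) (by decide +kernel) (by decide +kernel) hp hts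

theorem df0 {V : Type} {G : SimpleGraph V} {X W : V → V → V → V → Prop} (h : WF G X W) {a b x y x2 t : V}
    (nd : [a, b, x, y, x2, t].Nodup) (a1 : Pr G X W a x b y) (a2 : Pr G X W a x2 b x) (hk : K5F G [a, b, x, y, x2])
    (e : K5 G a x2 b y t) (hw : W a x2 b y) (g1 : X t a x2 b) (g2 : X t y x2 b)
    (m1 : ¬ W a x2 t y) (m2 : ¬ W b y a t) : False :=
  df0_ref (S := (syW h).rel) (pt_inj (o := a) nd rfl) (PHs.app (UHs.phs ((tO_h h).app ((tB_h h).app ((tR_h h).app ((tF_h h).app (tK_h h))))) _ _) (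
  .cons (fun d hd h0 => h0 a1.1) (
  .cons (fun d hd m0 m1 m2 m3 h0 h1 h2 h3 h4 h5 h6 h7 h8 h9 h10 h11 h12 h13 => ((a1.2).1 (d 0) ⟨h0, h1, h2, h3, h4, h5, h6, h7, h8, h9⟩ h10 h11).elim h12 h13) (
  .cons (fun d hd m0 m1 m2 m3 h0 h1 h2 h3 h4 h5 h6 h7 h8 h9 h10 h11 h12 h13 => ((a1.2).2.1 (d 0) ⟨h0, h1, h2, h3, h4, h5, h6, h7, h8, h9⟩ h10 h11).elim h12 h13) (
  .cons (fun d hd m0 m1 m2 m3 h0 h1 h2 h3 h4 h5 h6 h7 h8 h9 h10 h11 h12 h13 => ((a1.2).2.2.1 (d 0) ⟨h0, h1, h2, h3, h4, h5, h6, h7, h8, h9⟩ h10 h11).elim h12 h13) (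
  .cons (fun d hd m0 m1 m2 m3 h0 h1 h2 h3 h4 h5 h6 h7 h8 h9 h10 h11 h12 h13 => ((a1.2).2.2.2 (d 0) ⟨h0, h1, h2, h3, h4, h5, h6, h7, h8, h9⟩ h10 h11).elim h12 h13) (
  .cons (fun d hd h0 => h0 a2.1) (
  .cons (fun d hd m0 m1 m2 m3 h0 h1 h2 h3 h4 h5 h6 h7 h8 h9 h10 h11 h12 h13 => ((a2.2).1 (d 0) ⟨h0, h1, h2, h3, h4, h5, h6, h7, h8, h9⟩ h10 h11).elim h12 h13) (
  .cons (fun d hd m0 m1 m2 m3 h0 h1 h2 h3 h4 h5 h6 h7 h8 h9 h10 h11 h12 h13 => ((a2.2).2.1 (d 0) ⟨h0, h1, h2, h3, h4, h5, h6, h7, h8, h9⟩ h10 h11).elim h12 h13) (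
  .cons (fun d hd m0 m1 m2 m3 h0 h1 h2 h3 h4 h5 h6 h7 h8 h9 h10 h11 h12 h13 => ((a2.2).2.2.1 (d 0) ⟨h0, h1, h2, h3, h4, h5, h6, h7, h8, h9⟩ h10 h11).elim h12 h13) (
  .cons (fun d hd m0 m1 m2 m3 h0 h1 h2 h3 h4 h5 h6 h7 h8 h9 h10 h11 h12 h13 => ((a2.2).2.2.2 (d 0) ⟨h0, h1, h2, h3, h4, h5, h6, h7, h8, h9⟩ h10 h11).elim h12 h13) (
  .cons (fun d hd h0 h1 h2 h3 h4 h5 h6 h7 h8 h9 => hk a (by simp) b (by simp) x (by simp) y (by simp) x2 (by simp) ⟨h0, h1, h2, h3, h4, h5, h6, h7, h8, h9⟩) (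
  .cons (fun d hd h0 => h0 e.1) (
  .cons (fun d hd h0 => h0 e.2.1) (
  .cons (fun d hd h0 => h0 e.2.2.1) (
  .cons (fun d hd h0 => h0 e.2.2.2.1) (
  .cons (fun d hd h0 => h0 e.2.2.2.2.1) (
  .cons (fun d hd h0 => h0 e.2.2.2.2.2.1) (
  .cons (fun d hd h0 => h0 e.2.2.2.2.2.2.1) (
  .cons (fun d hd h0 => h0 e.2.2.2.2.2.2.2.1) (
  .cons (fun d hd h0 => h0 e.2.2.2.2.2.2.2.2.1) (
  .cons (fun d hd h0 => h0 e.2.2.2.2.2.2.2.2.2) (
  .cons (fun d hd h0 => h0 hw) (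
  .cons (fun d hd h0 => h0 g1) (
  .cons (fun d hd h0 => h0 g2) (
  .cons (fun d hd h0 => m1 h0) (
  .cons (fun d hd h0 => m2 h0) (
  .nil))))))))))))))))))))))))))))

/-- templates -/
def df1_x : List Tm := [
  ⟨0, [], [], [.q true 2 8 10 9 11]⟩,
  ⟨1, [], [(0, 8), (0, 10), (0, 9), (0, 11)], [.b false 0 8 10, .b false 0 8 9, .b false 0 8 11, .b false 0 8 0, .b false 0 10 9, .b false 0 10 11, .b false 0 10 0, .b false 0 9 11, .b false 0 9 0, .b false 0 11 0, .q false 0 0 8 10 9, .q false 0 0 11 10 9, .q true 2 8 10 0 11, .q true 2 9 11 8 0]⟩,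
  ⟨1, [], [(0, 8), (0, 10), (0, 9), (0, 11)], [.b false 0 8 10, .b false 0 8 11, .b false 0 8 9, .b false 0 8 0, .b false 0 10 11, .b false 0 10 9, .b false 0 10 0, .b false 0 11 9, .b false 0 11 0, .b false 0 9 0, .q false 0 0 8 10 11, .q false 0 0 9 10 11, .q true 2 8 10 0 9, .q true 2 11 9 8 0]⟩,
  ⟨1, [], [(0, 8), (0, 10), (0, 9), (0, 11)], [.b false 0 10 8, .b false 0 10 9, .b false 0 10 11, .b false 0 10 0, .b false 0 8 9, .b false 0 8 11, .b false 0 8 0, .b false 0 9 11, .b false 0 9 0, .b false 0 11 0, .q false 0 0 10 8 9, .q false 0 0 11 8 9, .q true 2 10 8 0 11, .q true 2 9 11 10 0]⟩,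
  ⟨1, [], [(0, 8), (0, 10), (0, 9), (0, 11)], [.b false 0 10 8, .b false 0 10 11, .b false 0 10 9, .b false 0 10 0, .b false 0 8 11, .b false 0 8 9, .b false 0 8 0, .b false 0 11 9, .b false 0 11 0, .b false 0 9 0, .q false 0 0 10 8 11, .q false 0 0 9 8 11, .q true 2 10 8 0 9, .q true 2 11 9 10 0]⟩,
  ⟨0, [], [], [.q true 2 8 12 9 10]⟩,
  ⟨1, [], [(0, 8), (0, 12), (0, 9), (0, 10)], [.b false 0 8 12, .b false 0 8 9, .b false 0 8 10, .b false 0 8 0, .b false 0 12 9, .b false 0 12 10, .b false 0 12 0, .b false 0 9 10, .b false 0 9 0, .b false 0 10 0, .q false 0 0 8 12 9, .q false 0 0 10 12 9, .q true 2 8 12 0 10, .q true 2 9 10 8 0]⟩,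
  ⟨1, [], [(0, 8), (0, 12), (0, 9), (0, 10)], [.b false 0 8 12, .b false 0 8 10, .b false 0 8 9, .b false 0 8 0, .b false 0 12 10, .b false 0 12 9, .b false 0 12 0, .b false 0 10 9, .b false 0 10 0, .b false 0 9 0, .q false 0 0 8 12 10, .q false 0 0 9 12 10, .q true 2 8 12 0 9, .q true 2 10 9 8 0]⟩,
  ⟨1, [], [(0, 8), (0, 12), (0, 9), (0, 10)], [.b false 0 12 8, .b false 0 12 9, .b false 0 12 10, .b false 0 12 0, .b false 0 8 9, .b false 0 8 10, .b false 0 8 0, .b false 0 9 10, .b false 0 9 0, .b false 0 10 0, .q false 0 0 12 8 9, .q false 0 0 10 8 9, .q true 2 12 8 0 10, .q true 2 9 10 12 0]⟩,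
  ⟨1, [], [(0, 8), (0, 12), (0, 9), (0, 10)], [.b false 0 12 8, .b false 0 12 10, .b false 0 12 9, .b false 0 12 0, .b false 0 8 10, .b false 0 8 9, .b false 0 8 0, .b false 0 10 9, .b false 0 10 0, .b false 0 9 0, .q false 0 0 12 8 10, .q false 0 0 9 8 10, .q true 2 12 8 0 9, .q true 2 10 9 12 0]⟩,
  ⟨0, [], [], [.b false 0 8 9, .b false 0 8 10, .b false 0 8 11, .b false 0 8 12, .b false 0 9 10, .b false 0 9 11, .b false 0 9 12, .b false 0 10 11, .b false 0 10 12, .b false 0 11 12]⟩,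
  ⟨0, [], [], [.b true 0 8 12]⟩,
  ⟨0, [], [], [.b true 0 8 9]⟩,
  ⟨0, [], [], [.b true 0 8 11]⟩,
  ⟨0, [], [], [.b true 0 8 13]⟩,
  ⟨0, [], [], [.b true 0 12 9]⟩,
  ⟨0, [], [], [.b true 0 12 11]⟩,
  ⟨0, [], [], [.b true 0 12 13]⟩,
  ⟨0, [], [], [.b true 0 9 11]⟩,
  ⟨0, [], [], [.b true 0 9 13]⟩,
  ⟨0, [], [], [.b true 0 11 13]⟩,
  ⟨0, [], [], [.q true 2 8 12 9 11]⟩,
  ⟨0, [], [], [.q true 0 13 8 12 11]⟩,
  ⟨0, [], [], [.q true 0 13 9 12 11]⟩,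
  ⟨0, [], [], [.q false 2 8 12 13 9]⟩,
  ⟨0, [], [], [.q false 2 11 9 8 13]⟩]

def df1_p0 : List Nat := [
0x6240090000000810001000201,
0x2640090000000810006000201,
0x462090000000810004000201,
0x2604090000000810008000201,
0x24800900000008b0003000201,
0x8420900000008b000b000201,
0x8240900000008b000c000201,
0x9500000000200000000a00000000600000000400000000800000000c00000000e03f003f303f6000803,
0x100000000970000000a103f0000301,
0xa5000000012000200]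

def df1_pf : List Nat := df1_p0

theorem df1_ref {V : Type} {S : SRel V} {p : Nat → V} (hp : ∀ i j, i < 6 → j < 6 → p i = p j → i = j)
    (hts : PHs S p 6 ((tO ++ (tB ++ (tR ++ (tF ++ tK)))) ++ df1_x)) : False :=
  refuteS (k := 6) (n2 := 1) (n3 := 1) (n4 := 4) (o3 := 21) (o4 := 77) (M := 1001) ((tO ++ (tB ++ (tR ++ (tF ++ tK)))) ++ df1_x) df1_pf (by decide +kernel)
    (by decide +kernel) (by decide +kernel) (by decide +kernel) hp hts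

theorem df1 {V : Type} {G : SimpleGraph V} {X W : V → V → V → V → Prop} (h : WF G X W) {a b x y x2 t : V}
    (nd : [a, b, x, y, x2, t].Nodup) (a1 : Pr G X W a x b y) (a2 : Pr G X W a x2 b x) (hk : K5F G [a, b, x, y, x2])
    (e : K5 G a x2 b y t) (hw : W a x2 b y) (g1 : X t a x2 y) (g2 : X t b x2 y)
    (m1 : ¬ W a x2 t b) (m2 : ¬ W y b a t) : False :=
  df1_ref (S := (syW h).rel) (pt_inj (o := a) nd rfl) (PHs.app (UHs.phs ((tO_h h).app ((tB_h h).app ((tR_h h).app ((tF_h h).app (tK_h h))))) _ _) (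
  .cons (fun d hd h0 => h0 a1.1) (
  .cons (fun d hd m0 m1 m2 m3 h0 h1 h2 h3 h4 h5 h6 h7 h8 h9 h10 h11 h12 h13 => ((a1.2).1 (d 0) ⟨h0, h1, h2, h3, h4, h5, h6, h7, h8, h9⟩ h10 h11).elim h12 h13) (
  .cons (fun d hd m0 m1 m2 m3 h0 h1 h2 h3 h4 h5 h6 h7 h8 h9 h10 h11 h12 h13 => ((a1.2).2.1 (d 0) ⟨h0, h1, h2, h3, h4, h5, h6, h7, h8, h9⟩ h10 h11).elim h12 h13) (
  .cons (fun d hd m0 m1 m2 m3 h0 h1 h2 h3 h4 h5 h6 h7 h8 h9 h10 h11 h12 h13 => ((a1.2).2.2.1 (d 0) ⟨h0, h1, h2, h3, h4, h5, h6, h7, h8, h9⟩ h10 h11).elim h12 h13) (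
  .cons (fun d hd m0 m1 m2 m3 h0 h1 h2 h3 h4 h5 h6 h7 h8 h9 h10 h11 h12 h13 => ((a1.2).2.2.2 (d 0) ⟨h0, h1, h2, h3, h4, h5, h6, h7, h8, h9⟩ h10 h11).elim h12 h13) (
  .cons (fun d hd h0 => h0 a2.1) (
  .cons (fun d hd m0 m1 m2 m3 h0 h1 h2 h3 h4 h5 h6 h7 h8 h9 h10 h11 h12 h13 => ((a2.2).1 (d 0) ⟨h0, h1, h2, h3, h4, h5, h6, h7, h8, h9⟩ h10 h11).elim h12 h13) (
  .cons (fun d hd m0 m1 m2 m3 h0 h1 h2 h3 h4 h5 h6 h7 h8 h9 h10 h11 h12 h13 => ((a2.2).2.1 (d 0) ⟨h0, h1, h2, h3, h4, h5, h6, h7, h8, h9⟩ h10 h11).elim h12 h13) (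
  .cons (fun d hd m0 m1 m2 m3 h0 h1 h2 h3 h4 h5 h6 h7 h8 h9 h10 h11 h12 h13 => ((a2.2).2.2.1 (d 0) ⟨h0, h1, h2, h3, h4, h5, h6, h7, h8, h9⟩ h10 h11).elim h12 h13) (
  .cons (fun d hd m0 m1 m2 m3 h0 h1 h2 h3 h4 h5 h6 h7 h8 h9 h10 h11 h12 h13 => ((a2.2).2.2.2 (d 0) ⟨h0, h1, h2, h3, h4, h5, h6, h7, h8, h9⟩ h10 h11).elim h12 h13) (
  .cons (fun d hd h0 h1 h2 h3 h4 h5 h6 h7 h8 h9 => hk a (by simp) b (by simp) x (by simp) y (by simp) x2 (by simp) ⟨h0, h1, h2, h3, h4, h5, h6, h7, h8, h9⟩) (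
  .cons (fun d hd h0 => h0 e.1) (
  .cons (fun d hd h0 => h0 e.2.1) (
  .cons (fun d hd h0 => h0 e.2.2.1) (
  .cons (fun d hd h0 => h0 e.2.2.2.1) (
  .cons (fun d hd h0 => h0 e.2.2.2.2.1) (
  .cons (fun d hd h0 => h0 e.2.2.2.2.2.1) (
  .cons (fun d hd h0 => h0 e.2.2.2.2.2.2.1) (
  .cons (fun d hd h0 => h0 e.2.2.2.2.2.2.2.1) (
  .cons (fun d hd h0 => h0 e.2.2.2.2.2.2.2.2.1) (
  .cons (fun d hd h0 => h0 e.2.2.2.2.2.2.2.2.2) (
  .cons (fun d hd h0 => h0 hw) (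
  .cons (fun d hd h0 => h0 g1) (
  .cons (fun d hd h0 => h0 g2) (
  .cons (fun d hd h0 => m1 h0) (
  .cons (fun d hd h0 => m2 h0) (
  .nil))))))))))))))))))))))))))))

/-- templates -/
def df2_x : List Tm := [
  ⟨0, [], [], [.q true 2 8 10 9 11]⟩,
  ⟨1, [], [(0, 8), (0, 10), (0, 9), (0, 11)], [.b false 0 8 10, .b false 0 8 9, .b false 0 8 11, .b false 0 8 0, .b false 0 10 9, .b false 0 10 11, .b false 0 10 0, .b false 0 9 11, .b false 0 9 0, .b false 0 11 0, .q false 0 0 8 10 9, .q false 0 0 11 10 9, .q true 2 8 10 0 11, .q true 2 9 11 8 0]⟩,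
  ⟨1, [], [(0, 8), (0, 10), (0, 9), (0, 11)], [.b false 0 8 10, .b false 0 8 11, .b false 0 8 9, .b false 0 8 0, .b false 0 10 11, .b false 0 10 9, .b false 0 10 0, .b false 0 11 9, .b false 0 11 0, .b false 0 9 0, .q false 0 0 8 10 11, .q false 0 0 9 10 11, .q true 2 8 10 0 9, .q true 2 11 9 8 0]⟩,
  ⟨1, [], [(0, 8), (0, 10), (0, 9), (0, 11)], [.b false 0 10 8, .b false 0 10 9, .b false 0 10 11, .b false 0 10 0, .b false 0 8 9, .b false 0 8 11, .b false 0 8 0, .b false 0 9 11, .b false 0 9 0, .b false 0 11 0, .q false 0 0 10 8 9, .q false 0 0 11 8 9, .q true 2 10 8 0 11, .q true 2 9 11 10 0]⟩,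
  ⟨1, [], [(0, 8), (0, 10), (0, 9), (0, 11)], [.b false 0 10 8, .b false 0 10 11, .b false 0 10 9, .b false 0 10 0, .b false 0 8 11, .b false 0 8 9, .b false 0 8 0, .b false 0 11 9, .b false 0 11 0, .b false 0 9 0, .q false 0 0 10 8 11, .q false 0 0 9 8 11, .q true 2 10 8 0 9, .q true 2 11 9 10 0]⟩,
  ⟨0, [], [], [.q true 2 8 12 9 10]⟩,
  ⟨1, [], [(0, 8), (0, 12), (0, 9), (0, 10)], [.b false 0 8 12, .b false 0 8 9, .b false 0 8 10, .b false 0 8 0, .b false 0 12 9, .b false 0 12 10, .b false 0 12 0, .b false 0 9 10, .b false 0 9 0, .b false 0 10 0, .q false 0 0 8 12 9, .q false 0 0 10 12 9, .q true 2 8 12 0 10, .q true 2 9 10 8 0]⟩,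
  ⟨1, [], [(0, 8), (0, 12), (0, 9), (0, 10)], [.b false 0 8 12, .b false 0 8 10, .b false 0 8 9, .b false 0 8 0, .b false 0 12 10, .b false 0 12 9, .b false 0 12 0, .b false 0 10 9, .b false 0 10 0, .b false 0 9 0, .q false 0 0 8 12 10, .q false 0 0 9 12 10, .q true 2 8 12 0 9, .q true 2 10 9 8 0]⟩,
  ⟨1, [], [(0, 8), (0, 12), (0, 9), (0, 10)], [.b false 0 12 8, .b false 0 12 9, .b false 0 12 10, .b false 0 12 0, .b false 0 8 9, .b false 0 8 10, .b false 0 8 0, .b false 0 9 10, .b false 0 9 0, .b false 0 10 0, .q false 0 0 12 8 9, .q false 0 0 10 8 9, .q true 2 12 8 0 10, .q true 2 9 10 12 0]⟩,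
  ⟨1, [], [(0, 8), (0, 12), (0, 9), (0, 10)], [.b false 0 12 8, .b false 0 12 10, .b false 0 12 9, .b false 0 12 0, .b false 0 8 10, .b false 0 8 9, .b false 0 8 0, .b false 0 10 9, .b false 0 10 0, .b false 0 9 0, .q false 0 0 12 8 10, .q false 0 0 9 8 10, .q true 2 12 8 0 9, .q true 2 10 9 12 0]⟩,
  ⟨0, [], [], [.b false 0 8 9, .b false 0 8 10, .b false 0 8 11, .b false 0 8 12, .b false 0 9 10, .b false 0 9 11, .b false 0 9 12, .b false 0 10 11, .b false 0 10 12, .b false 0 11 12]⟩,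
  ⟨0, [], [], [.b true 0 8 12]⟩,
  ⟨0, [], [], [.b true 0 8 9]⟩,
  ⟨0, [], [], [.b true 0 8 11]⟩,
  ⟨0, [], [], [.b true 0 8 13]⟩,
  ⟨0, [], [], [.b true 0 12 9]⟩,
  ⟨0, [], [], [.b true 0 12 11]⟩,
  ⟨0, [], [], [.b true 0 12 13]⟩,
  ⟨0, [], [], [.b true 0 9 11]⟩,
  ⟨0, [], [], [.b true 0 9 13]⟩,
  ⟨0, [], [], [.b true 0 11 13]⟩,
  ⟨0, [], [], [.q true 2 8 12 9 11]⟩,
  ⟨0, [], [], [.q true 0 13 12 8 9]⟩,
  ⟨0, [], [], [.q true 0 13 11 8 9]⟩,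
  ⟨0, [], [], [.q false 2 12 8 13 11]⟩,
  ⟨0, [], [], [.q false 2 9 11 12 13]⟩]

def df2_p0 : List Nat := [
0x6240090000000810001000201,
0x2640090000000810006000201,
0x462090000000810004000201,
0x2604090000000810008000201,
0x24800900000008b0003000201,
0x8420900000008b000b000201,
0x8240900000008b000c000201,
0x9500000000200000000a00000000600000000400000000800000000c00000000e03f003f303f6000803,
0x100000000970000000a103f0000301,
0xa5000000012000200]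

def df2_pf : List Nat := df2_p0

theorem df2_ref {V : Type} {S : SRel V} {p : Nat → V} (hp : ∀ i j, i < 6 → j < 6 → p i = p j → i = j)
    (hts : PHs S p 6 ((tO ++ (tB ++ (tR ++ (tF ++ tK)))) ++ df2_x)) : False :=
  refuteS (k := 6) (n2 := 1) (n3 := 1) (n4 := 4) (o3 := 21) (o4 := 77) (M := 1001) ((tO ++ (tB ++ (tR ++ (tF ++ tK)))) ++ df2_x) df2_pf (by decide +kernel)
    (by decide +kernel) (by decide +kernel) (by decide +kernel) hp hts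

theorem df2 {V : Type} {G : SimpleGraph V} {X W : V → V → V → V → Prop} (h : WF G X W) {a b x y x2 t : V}
    (nd : [a, b, x, y, x2, t].Nodup) (a1 : Pr G X W a x b y) (a2 : Pr G X W a x2 b x) (hk : K5F G [a, b, x, y, x2])
    (e : K5 G a x2 b y t) (hw : W a x2 b y) (g1 : X t x2 a b) (g2 : X t y a b)
    (m1 : ¬ W x2 a t y) (m2 : ¬ W b y x2 t) : False :=
  df2_ref (S := (syW h).rel) (pt_inj (o := a) nd rfl) (PHs.app (UHs.phs ((tO_h h).app ((tB_h h).app ((tR_h h).app ((tF_h h).app (tK_h h))))) _ _) (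
  .cons (fun d hd h0 => h0 a1.1) (
  .cons (fun d hd m0 m1 m2 m3 h0 h1 h2 h3 h4 h5 h6 h7 h8 h9 h10 h11 h12 h13 => ((a1.2).1 (d 0) ⟨h0, h1, h2, h3, h4, h5, h6, h7, h8, h9⟩ h10 h11).elim h12 h13) (
  .cons (fun d hd m0 m1 m2 m3 h0 h1 h2 h3 h4 h5 h6 h7 h8 h9 h10 h11 h12 h13 => ((a1.2).2.1 (d 0) ⟨h0, h1, h2, h3, h4, h5, h6, h7, h8, h9⟩ h10 h11).elim h12 h13) (
  .cons (fun d hd m0 m1 m2 m3 h0 h1 h2 h3 h4 h5 h6 h7 h8 h9 h10 h11 h12 h13 => ((a1.2).2.2.1 (d 0) ⟨h0, h1, h2, h3, h4, h5, h6, h7, h8, h9⟩ h10 h11).elim h12 h13) (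
  .cons (fun d hd m0 m1 m2 m3 h0 h1 h2 h3 h4 h5 h6 h7 h8 h9 h10 h11 h12 h13 => ((a1.2).2.2.2 (d 0) ⟨h0, h1, h2, h3, h4, h5, h6, h7, h8, h9⟩ h10 h11).elim h12 h13) (
  .cons (fun d hd h0 => h0 a2.1) (
  .cons (fun d hd m0 m1 m2 m3 h0 h1 h2 h3 h4 h5 h6 h7 h8 h9 h10 h11 h12 h13 => ((a2.2).1 (d 0) ⟨h0, h1, h2, h3, h4, h5, h6, h7, h8, h9⟩ h10 h11).elim h12 h13) (
  .cons (fun d hd m0 m1 m2 m3 h0 h1 h2 h3 h4 h5 h6 h7 h8 h9 h10 h11 h12 h13 => ((a2.2).2.1 (d 0) ⟨h0, h1, h2, h3, h4, h5, h6, h7, h8, h9⟩ h10 h11).elim h12 h13) (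
  .cons (fun d hd m0 m1 m2 m3 h0 h1 h2 h3 h4 h5 h6 h7 h8 h9 h10 h11 h12 h13 => ((a2.2).2.2.1 (d 0) ⟨h0, h1, h2, h3, h4, h5, h6, h7, h8, h9⟩ h10 h11).elim h12 h13) (
  .cons (fun d hd m0 m1 m2 m3 h0 h1 h2 h3 h4 h5 h6 h7 h8 h9 h10 h11 h12 h13 => ((a2.2).2.2.2 (d 0) ⟨h0, h1, h2, h3, h4, h5, h6, h7, h8, h9⟩ h10 h11).elim h12 h13) (
  .cons (fun d hd h0 h1 h2 h3 h4 h5 h6 h7 h8 h9 => hk a (by simp) b (by simp) x (by simp) y (by simp) x2 (by simp) ⟨h0, h1, h2, h3, h4, h5, h6, h7, h8, h9⟩) (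
  .cons (fun d hd h0 => h0 e.1) (
  .cons (fun d hd h0 => h0 e.2.1) (
  .cons (fun d hd h0 => h0 e.2.2.1) (
  .cons (fun d hd h0 => h0 e.2.2.2.1) (
  .cons (fun d hd h0 => h0 e.2.2.2.2.1) (
  .cons (fun d hd h0 => h0 e.2.2.2.2.2.1) (
  .cons (fun d hd h0 => h0 e.2.2.2.2.2.2.1) (
  .cons (fun d hd h0 => h0 e.2.2.2.2.2.2.2.1) (
  .cons (fun d hd h0 => h0 e.2.2.2.2.2.2.2.2.1) (
  .cons (fun d hd h0 => h0 e.2.2.2.2.2.2.2.2.2) (
  .cons (fun d hd h0 => h0 hw) (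
  .cons (fun d hd h0 => h0 g1) (
  .cons (fun d hd h0 => h0 g2) (
  .cons (fun d hd h0 => m1 h0) (
  .cons (fun d hd h0 => m2 h0) (
  .nil))))))))))))))))))))))))))))

/-- templates -/
def df3_x : List Tm := [
  ⟨0, [], [], [.q true 2 8 10 9 11]⟩,
  ⟨1, [], [(0, 8), (0, 10), (0, 9), (0, 11)], [.b false 0 8 10, .b false 0 8 9, .b false 0 8 11, .b false 0 8 0, .b false 0 10 9, .b false 0 10 11, .b false 0 10 0, .b false 0 9 11, .b false 0 9 0, .b false 0 11 0, .q false 0 0 8 10 9, .q false 0 0 11 10 9, .q true 2 8 10 0 11, .q true 2 9 11 8 0]⟩,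
  ⟨1, [], [(0, 8), (0, 10), (0, 9), (0, 11)], [.b false 0 8 10, .b false 0 8 11, .b false 0 8 9, .b false 0 8 0, .b false 0 10 11, .b false 0 10 9, .b false 0 10 0, .b false 0 11 9, .b false 0 11 0, .b false 0 9 0, .q false 0 0 8 10 11, .q false 0 0 9 10 11, .q true 2 8 10 0 9, .q true 2 11 9 8 0]⟩,
  ⟨1, [], [(0, 8), (0, 10), (0, 9), (0, 11)], [.b false 0 10 8, .b false 0 10 9, .b false 0 10 11, .b false 0 10 0, .b false 0 8 9, .b false 0 8 11, .b false 0 8 0, .b false 0 9 11, .b false 0 9 0, .b false 0 11 0, .q false 0 0 10 8 9, .q false 0 0 11 8 9, .q true 2 10 8 0 11, .q true 2 9 11 10 0]⟩,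
  ⟨1, [], [(0, 8), (0, 10), (0, 9), (0, 11)], [.b false 0 10 8, .b false 0 10 11, .b false 0 10 9, .b false 0 10 0, .b false 0 8 11, .b false 0 8 9, .b false 0 8 0, .b false 0 11 9, .b false 0 11 0, .b false 0 9 0, .q false 0 0 10 8 11, .q false 0 0 9 8 11, .q true 2 10 8 0 9, .q true 2 11 9 10 0]⟩,
  ⟨0, [], [], [.q true 2 8 12 9 10]⟩,
  ⟨1, [], [(0, 8), (0, 12), (0, 9), (0, 10)], [.b false 0 8 12, .b false 0 8 9, .b false 0 8 10, .b false 0 8 0, .b false 0 12 9, .b false 0 12 10, .b false 0 12 0, .b false 0 9 10, .b false 0 9 0, .b false 0 10 0, .q false 0 0 8 12 9, .q false 0 0 10 12 9, .q true 2 8 12 0 10, .q true 2 9 10 8 0]⟩,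
  ⟨1, [], [(0, 8), (0, 12), (0, 9), (0, 10)], [.b false 0 8 12, .b false 0 8 10, .b false 0 8 9, .b false 0 8 0, .b false 0 12 10, .b false 0 12 9, .b false 0 12 0, .b false 0 10 9, .b false 0 10 0, .b false 0 9 0, .q false 0 0 8 12 10, .q false 0 0 9 12 10, .q true 2 8 12 0 9, .q true 2 10 9 8 0]⟩,
  ⟨1, [], [(0, 8), (0, 12), (0, 9), (0, 10)], [.b false 0 12 8, .b false 0 12 9, .b false 0 12 10, .b false 0 12 0, .b false 0 8 9, .b false 0 8 10, .b false 0 8 0, .b false 0 9 10, .b false 0 9 0, .b false 0 10 0, .q false 0 0 12 8 9, .q false 0 0 10 8 9, .q true 2 12 8 0 10, .q true 2 9 10 12 0]⟩,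
  ⟨1, [], [(0, 8), (0, 12), (0, 9), (0, 10)], [.b false 0 12 8, .b false 0 12 10, .b false 0 12 9, .b false 0 12 0, .b false 0 8 10, .b false 0 8 9, .b false 0 8 0, .b false 0 10 9, .b false 0 10 0, .b false 0 9 0, .q false 0 0 12 8 10, .q false 0 0 9 8 10, .q true 2 12 8 0 9, .q true 2 10 9 12 0]⟩,
  ⟨0, [], [], [.b false 0 8 9, .b false 0 8 10, .b false 0 8 11, .b false 0 8 12, .b false 0 9 10, .b false 0 9 11, .b false 0 9 12, .b false 0 10 11, .b false 0 10 12, .b false 0 11 12]⟩,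
  ⟨0, [], [], [.b true 0 8 12]⟩,
  ⟨0, [], [], [.b true 0 8 9]⟩,
  ⟨0, [], [], [.b true 0 8 11]⟩,
  ⟨0, [], [], [.b true 0 8 13]⟩,
  ⟨0, [], [], [.b true 0 12 9]⟩,
  ⟨0, [], [], [.b true 0 12 11]⟩,
  ⟨0, [], [], [.b true 0 12 13]⟩,
  ⟨0, [], [], [.b true 0 9 11]⟩,
  ⟨0, [], [], [.b true 0 9 13]⟩,
  ⟨0, [], [], [.b true 0 11 13]⟩,
  ⟨0, [], [], [.q true 2 8 12 9 11]⟩,
  ⟨0, [], [], [.q true 0 13 12 8 11]⟩,
  ⟨0, [], [], [.q true 0 13 9 8 11]⟩,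
  ⟨0, [], [], [.q false 2 12 8 13 9]⟩,
  ⟨0, [], [], [.q false 2 11 9 12 13]⟩]

def df3_p0 : List Nat := [
0x6240090000000810001000201,
0x2640090000000810006000201,
0x462090000000810004000201,
0x2604090000000810008000201,
0x24800900000008b0003000201,
0x8420900000008b000b000201,
0x8240900000008b000c000201,
0x9500000000200000000a00000000600000000400000000800000000c00000000e03f003f303f6000803,
0x100000000970000000a103f0000301,
0xa5000000012000200]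

def df3_pf : List Nat := df3_p0

theorem df3_ref {V : Type} {S : SRel V} {p : Nat → V} (hp : ∀ i j, i < 6 → j < 6 → p i = p j → i = j)
    (hts : PHs S p 6 ((tO ++ (tB ++ (tR ++ (tF ++ tK)))) ++ df3_x)) : False :=
  refuteS (k := 6) (n2 := 1) (n3 := 1) (n4 := 4) (o3 := 21) (o4 := 77) (M := 1001) ((tO ++ (tB ++ (tR ++ (tF ++ tK)))) ++ df3_x) df3_pf (by decide +kernel)
    (by decide +kernel) (by decide +kernel) (by decide +kernel) hp hts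

theorem df3 {V : Type} {G : SimpleGraph V} {X W : V → V → V → V → Prop} (h : WF G X W) {a b x y x2 t : V}
    (nd : [a, b, x, y, x2, t].Nodup) (a1 : Pr G X W a x b y) (a2 : Pr G X W a x2 b x) (hk : K5F G [a, b, x, y, x2])
    (e : K5 G a x2 b y t) (hw : W a x2 b y) (g1 : X t x2 a y) (g2 : X t b a y)
    (m1 : ¬ W x2 a t b) (m2 : ¬ W y b x2 t) : False :=
  df3_ref (S := (syW h).rel) (pt_inj (o := a) nd rfl) (PHs.app (UHs.phs ((tO_h h).app ((tB_h h).app ((tR_h h).app ((tF_h h).app (tK_h h))))) _ _) (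
  .cons (fun d hd h0 => h0 a1.1) (
  .cons (fun d hd m0 m1 m2 m3 h0 h1 h2 h3 h4 h5 h6 h7 h8 h9 h10 h11 h12 h13 => ((a1.2).1 (d 0) ⟨h0, h1, h2, h3, h4, h5, h6, h7, h8, h9⟩ h10 h11).elim h12 h13) (
  .cons (fun d hd m0 m1 m2 m3 h0 h1 h2 h3 h4 h5 h6 h7 h8 h9 h10 h11 h12 h13 => ((a1.2).2.1 (d 0) ⟨h0, h1, h2, h3, h4, h5, h6, h7, h8, h9⟩ h10 h11).elim h12 h13) (
  .cons (fun d hd m0 m1 m2 m3 h0 h1 h2 h3 h4 h5 h6 h7 h8 h9 h10 h11 h12 h13 => ((a1.2).2.2.1 (d 0) ⟨h0, h1, h2, h3, h4, h5, h6, h7, h8, h9⟩ h10 h11).elim h12 h13) (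
  .cons (fun d hd m0 m1 m2 m3 h0 h1 h2 h3 h4 h5 h6 h7 h8 h9 h10 h11 h12 h13 => ((a1.2).2.2.2 (d 0) ⟨h0, h1, h2, h3, h4, h5, h6, h7, h8, h9⟩ h10 h11).elim h12 h13) (
  .cons (fun d hd h0 => h0 a2.1) (
  .cons (fun d hd m0 m1 m2 m3 h0 h1 h2 h3 h4 h5 h6 h7 h8 h9 h10 h11 h12 h13 => ((a2.2).1 (d 0) ⟨h0, h1, h2, h3, h4, h5, h6, h7, h8, h9⟩ h10 h11).elim h12 h13) (
  .cons (fun d hd m0 m1 m2 m3 h0 h1 h2 h3 h4 h5 h6 h7 h8 h9 h10 h11 h12 h13 => ((a2.2).2.1 (d 0) ⟨h0, h1, h2, h3, h4, h5, h6, h7, h8, h9⟩ h10 h11).elim h12 h13) (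
  .cons (fun d hd m0 m1 m2 m3 h0 h1 h2 h3 h4 h5 h6 h7 h8 h9 h10 h11 h12 h13 => ((a2.2).2.2.1 (d 0) ⟨h0, h1, h2, h3, h4, h5, h6, h7, h8, h9⟩ h10 h11).elim h12 h13) (
  .cons (fun d hd m0 m1 m2 m3 h0 h1 h2 h3 h4 h5 h6 h7 h8 h9 h10 h11 h12 h13 => ((a2.2).2.2.2 (d 0) ⟨h0, h1, h2, h3, h4, h5, h6, h7, h8, h9⟩ h10 h11).elim h12 h13) (
  .cons (fun d hd h0 h1 h2 h3 h4 h5 h6 h7 h8 h9 => hk a (by simp) b (by simp) x (by simp) y (by simp) x2 (by simp) ⟨h0, h1, h2, h3, h4, h5, h6, h7, h8, h9⟩) (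
  .cons (fun d hd h0 => h0 e.1) (
  .cons (fun d hd h0 => h0 e.2.1) (
  .cons (fun d hd h0 => h0 e.2.2.1) (
  .cons (fun d hd h0 => h0 e.2.2.2.1) (
  .cons (fun d hd h0 => h0 e.2.2.2.2.1) (
  .cons (fun d hd h0 => h0 e.2.2.2.2.2.1) (
  .cons (fun d hd h0 => h0 e.2.2.2.2.2.2.1) (
  .cons (fun d hd h0 => h0 e.2.2.2.2.2.2.2.1) (
  .cons (fun d hd h0 => h0 e.2.2.2.2.2.2.2.2.1) (
  .cons (fun d hd h0 => h0 e.2.2.2.2.2.2.2.2.2) (
  .cons (fun d hd h0 => h0 hw) (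
  .cons (fun d hd h0 => h0 g1) (
  .cons (fun d hd h0 => h0 g2) (
  .cons (fun d hd h0 => m1 h0) (
  .cons (fun d hd h0 => m2 h0) (
  .nil))))))))))))))))))))))))))))

/-- templates -/
def db00_x : List Tm := [
  ⟨0, [], [], [.q true 2 8 10 9 11]⟩,
  ⟨1, [], [(0, 8), (0, 10), (0, 9), (0, 11)], [.b false 0 8 10, .b false 0 8 9, .b false 0 8 11, .b false 0 8 0, .b false 0 10 9, .b false 0 10 11, .b false 0 10 0, .b false 0 9 11, .b false 0 9 0, .b false 0 11 0, .q false 0 0 8 10 9, .q false 0 0 11 10 9, .q true 2 8 10 0 11, .q true 2 9 11 8 0]⟩,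
  ⟨1, [], [(0, 8), (0, 10), (0, 9), (0, 11)], [.b false 0 8 10, .b false 0 8 11, .b false 0 8 9, .b false 0 8 0, .b false 0 10 11, .b false 0 10 9, .b false 0 10 0, .b false 0 11 9, .b false 0 11 0, .b false 0 9 0, .q false 0 0 8 10 11, .q false 0 0 9 10 11, .q true 2 8 10 0 9, .q true 2 11 9 8 0]⟩,
  ⟨1, [], [(0, 8), (0, 10), (0, 9), (0, 11)], [.b false 0 10 8, .b false 0 10 9, .b false 0 10 11, .b false 0 10 0, .b false 0 8 9, .b false 0 8 11, .b false 0 8 0, .b false 0 9 11, .b false 0 9 0, .b false 0 11 0, .q false 0 0 10 8 9, .q false 0 0 11 8 9, .q true 2 10 8 0 11, .q true 2 9 11 10 0]⟩,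
  ⟨1, [], [(0, 8), (0, 10), (0, 9), (0, 11)], [.b false 0 10 8, .b false 0 10 11, .b false 0 10 9, .b false 0 10 0, .b false 0 8 11, .b false 0 8 9, .b false 0 8 0, .b false 0 11 9, .b false 0 11 0, .b false 0 9 0, .q false 0 0 10 8 11, .q false 0 0 9 8 11, .q true 2 10 8 0 9, .q true 2 11 9 10 0]⟩,
  ⟨0, [], [], [.q true 3 8 12 9 11]⟩,
  ⟨1, [], [(0, 8), (0, 9), (0, 12), (0, 11)], [.b false 0 8 9, .b false 0 8 12, .b false 0 8 11, .b false 0 8 0, .b false 0 9 12, .b false 0 9 11, .b false 0 9 0, .b false 0 12 11, .b false 0 12 0, .b false 0 11 0, .q false 0 0 8 9 12, .q false 0 0 11 9 12, .q true 2 8 9 0 11, .q true 2 12 11 8 0, .q false 2 8 9 12 11, .q true 0 8 12 9 11]⟩,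
  ⟨1, [], [(0, 8), (0, 9), (0, 12), (0, 11)], [.b false 0 8 9, .b false 0 8 11, .b false 0 8 12, .b false 0 8 0, .b false 0 9 11, .b false 0 9 12, .b false 0 9 0, .b false 0 11 12, .b false 0 11 0, .b false 0 12 0, .q false 0 0 8 9 11, .q false 0 0 12 9 11, .q true 2 8 9 0 12, .q true 2 11 12 8 0, .q false 2 8 9 12 11, .q true 0 8 12 9 11]⟩,
  ⟨1, [], [(0, 8), (0, 9), (0, 12), (0, 11)], [.b false 0 9 8, .b false 0 9 12, .b false 0 9 11, .b false 0 9 0, .b false 0 8 12, .b false 0 8 11, .b false 0 8 0, .b false 0 12 11, .b false 0 12 0, .b false 0 11 0, .q false 0 0 9 8 12, .q false 0 0 11 8 12, .q true 2 9 8 0 11, .q true 2 12 11 9 0, .q false 2 8 9 12 11, .q true 0 8 12 9 11]⟩,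
  ⟨1, [], [(0, 8), (0, 9), (0, 12), (0, 11)], [.b false 0 9 8, .b false 0 9 11, .b false 0 9 12, .b false 0 9 0, .b false 0 8 11, .b false 0 8 12, .b false 0 8 0, .b false 0 11 12, .b false 0 11 0, .b false 0 12 0, .q false 0 0 9 8 11, .q false 0 0 12 8 11, .q true 2 9 8 0 12, .q true 2 11 12 9 0, .q false 2 8 9 12 11, .q true 0 8 12 9 11]⟩,
  ⟨1, [], [(0, 8), (0, 11), (0, 12), (0, 9)], [.b false 0 8 11, .b false 0 8 12, .b false 0 8 9, .b false 0 8 0, .b false 0 11 12, .b false 0 11 9, .b false 0 11 0, .b false 0 12 9, .b false 0 12 0, .b false 0 9 0, .q false 0 0 8 11 12, .q false 0 0 9 11 12, .q true 2 8 11 0 9, .q true 2 12 9 8 0, .q false 2 8 11 12 9, .q true 0 8 12 9 11]⟩,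
  ⟨1, [], [(0, 8), (0, 11), (0, 12), (0, 9)], [.b false 0 8 11, .b false 0 8 9, .b false 0 8 12, .b false 0 8 0, .b false 0 11 9, .b false 0 11 12, .b false 0 11 0, .b false 0 9 12, .b false 0 9 0, .b false 0 12 0, .q false 0 0 8 11 9, .q false 0 0 12 11 9, .q true 2 8 11 0 12, .q true 2 9 12 8 0, .q false 2 8 11 12 9, .q true 0 8 12 9 11]⟩,
  ⟨1, [], [(0, 8), (0, 11), (0, 12), (0, 9)], [.b false 0 11 8, .b false 0 11 12, .b false 0 11 9, .b false 0 11 0, .b false 0 8 12, .b false 0 8 9, .b false 0 8 0, .b false 0 12 9, .b false 0 12 0, .b false 0 9 0, .q false 0 0 11 8 12, .q false 0 0 9 8 12, .q true 2 11 8 0 9, .q true 2 12 9 11 0, .q false 2 8 11 12 9, .q true 0 8 12 9 11]⟩,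
  ⟨1, [], [(0, 8), (0, 11), (0, 12), (0, 9)], [.b false 0 11 8, .b false 0 11 9, .b false 0 11 12, .b false 0 11 0, .b false 0 8 9, .b false 0 8 12, .b false 0 8 0, .b false 0 9 12, .b false 0 9 0, .b false 0 12 0, .q false 0 0 11 8 9, .q false 0 0 12 8 9, .q true 2 11 8 0 12, .q true 2 9 12 11 0, .q false 2 8 11 12 9, .q true 0 8 12 9 11]⟩,
  ⟨0, [], [], [.q false 0 8 12 9 10]⟩,
  ⟨0, [], [], [.b false 0 8 9, .b false 0 8 10, .b false 0 8 11, .b false 0 8 12, .b false 0 9 10, .b false 0 9 11, .b false 0 9 12, .b false 0 10 11, .b false 0 10 12, .b false 0 11 12]⟩,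
  ⟨0, [], [], [.b true 0 8 9]⟩,
  ⟨0, [], [], [.b true 0 8 12]⟩,
  ⟨0, [], [], [.b true 0 8 10]⟩,
  ⟨0, [], [], [.b true 0 8 13]⟩,
  ⟨0, [], [], [.b true 0 9 12]⟩,
  ⟨0, [], [], [.b true 0 9 10]⟩,
  ⟨0, [], [], [.b true 0 9 13]⟩,
  ⟨0, [], [], [.b true 0 12 10]⟩,
  ⟨0, [], [], [.b true 0 12 13]⟩,
  ⟨0, [], [], [.b true 0 10 13]⟩,
  ⟨0, [], [], [.q true 2 8 9 12 10]⟩,
  ⟨0, [], [], [.q true 0 13 8 9 12]⟩,
  ⟨0, [], [], [.q true 0 13 10 9 12]⟩,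
  ⟨0, [], [], [.q false 2 8 9 13 10]⟩,
  ⟨0, [], [], [.q false 2 12 10 8 13]⟩]

def db00_p0 : List Nat := [
0x84200b0000000b50572000201,
0x84200100000009d0000000020161000301,
0xa4082050000000040000000b706c6000301,
0xb9000000006000200]

def db00_pf : List Nat := db00_p0

theorem db00_ref {V : Type} {S : SRel V} {p : Nat → V} (hp : ∀ i j, i < 6 → j < 6 → p i = p j → i = j)
    (hts : PHs S p 6 ((tO ++ (tB ++ (tR ++ (tF ++ tK)))) ++ db00_x)) : False :=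
  refuteS (k := 6) (n2 := 1) (n3 := 1) (n4 := 4) (o3 := 21) (o4 := 77) (M := 1001) ((tO ++ (tB ++ (tR ++ (tF ++ tK)))) ++ db00_x) db00_pf (by decide +kernel)
    (by decide +kernel) (by decide +kernel) (by decide +kernel) hp hts

theorem db00 {V : Type} {G : SimpleGraph V} {X W : V → V → V → V → Prop} (h : WF G X W) {a b x y x2 t : V}
    (nd : [a, b, x, y, x2, t].Nodup) (a1 : Pr G X W a x b y) (a2 : IF G X W a x2 b y) (nx : ¬ X a x2 b x) (hk : K5F G [a, b, x, y, x2])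
    (e : K5 G a b x2 x t) (hw : W a b x2 x) (g1 : X t a b x2) (g2 : X t x b x2)
    (m1 : ¬ W a b t x) (m2 : ¬ W x2 x a t) : False :=
  db00_ref (S := (syW h).rel) (pt_inj (o := a) nd rfl) (PHs.app (UHs.phs ((tO_h h).app ((tB_h h).app ((tR_h h).app ((tF_h h).app (tK_h h))))) _ _) (
  .cons (fun d hd h0 => h0 a1.1) (
  .cons (fun d hd m0 m1 m2 m3 h0 h1 h2 h3 h4 h5 h6 h7 h8 h9 h10 h11 h12 h13 => ((a1.2).1 (d 0) ⟨h0, h1, h2, h3, h4, h5, h6, h7, h8, h9⟩ h10 h11).elim h12 h13) (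
  .cons (fun d hd m0 m1 m2 m3 h0 h1 h2 h3 h4 h5 h6 h7 h8 h9 h10 h11 h12 h13 => ((a1.2).2.1 (d 0) ⟨h0, h1, h2, h3, h4, h5, h6, h7, h8, h9⟩ h10 h11).elim h12 h13) (
  .cons (fun d hd m0 m1 m2 m3 h0 h1 h2 h3 h4 h5 h6 h7 h8 h9 h10 h11 h12 h13 => ((a1.2).2.2.1 (d 0) ⟨h0, h1, h2, h3, h4, h5, h6, h7, h8, h9⟩ h10 h11).elim h12 h13) (
  .cons (fun d hd m0 m1 m2 m3 h0 h1 h2 h3 h4 h5 h6 h7 h8 h9 h10 h11 h12 h13 => ((a1.2).2.2.2 (d 0) ⟨h0, h1, h2, h3, h4, h5, h6, h7, h8, h9⟩ h10 h11).elim h12 h13) (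
  .cons (fun d hd h0 => h0 a2.1) (
  .cons (fun d hd m0 m1 m2 m3 h0 h1 h2 h3 h4 h5 h6 h7 h8 h9 h10 h11 h12 h13 h14 h15 => ((a2.2.1 h14 h15).1 (d 0) ⟨h0, h1, h2, h3, h4, h5, h6, h7, h8, h9⟩ h10 h11).elim h12 h13) (
  .cons (fun d hd m0 m1 m2 m3 h0 h1 h2 h3 h4 h5 h6 h7 h8 h9 h10 h11 h12 h13 h14 h15 => ((a2.2.1 h14 h15).2.1 (d 0) ⟨h0, h1, h2, h3, h4, h5, h6, h7, h8, h9⟩ h10 h11).elim h12 h13) (
  .cons (fun d hd m0 m1 m2 m3 h0 h1 h2 h3 h4 h5 h6 h7 h8 h9 h10 h11 h12 h13 h14 h15 => ((a2.2.1 h14 h15).2.2.1 (d 0) ⟨h0, h1, h2, h3, h4, h5, h6, h7, h8, h9⟩ h10 h11).elim h12 h13) (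
  .cons (fun d hd m0 m1 m2 m3 h0 h1 h2 h3 h4 h5 h6 h7 h8 h9 h10 h11 h12 h13 h14 h15 => ((a2.2.1 h14 h15).2.2.2 (d 0) ⟨h0, h1, h2, h3, h4, h5, h6, h7, h8, h9⟩ h10 h11).elim h12 h13) (
  .cons (fun d hd m0 m1 m2 m3 h0 h1 h2 h3 h4 h5 h6 h7 h8 h9 h10 h11 h12 h13 h14 h15 => ((a2.2.2 h14 h15).1 (d 0) ⟨h0, h1, h2, h3, h4, h5, h6, h7, h8, h9⟩ h10 h11).elim h12 h13) (
  .cons (fun d hd m0 m1 m2 m3 h0 h1 h2 h3 h4 h5 h6 h7 h8 h9 h10 h11 h12 h13 h14 h15 => ((a2.2.2 h14 h15).2.1 (d 0) ⟨h0, h1, h2, h3, h4, h5, h6, h7, h8, h9⟩ h10 h11).elim h12 h13) (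
  .cons (fun d hd m0 m1 m2 m3 h0 h1 h2 h3 h4 h5 h6 h7 h8 h9 h10 h11 h12 h13 h14 h15 => ((a2.2.2 h14 h15).2.2.1 (d 0) ⟨h0, h1, h2, h3, h4, h5, h6, h7, h8, h9⟩ h10 h11).elim h12 h13) (
  .cons (fun d hd m0 m1 m2 m3 h0 h1 h2 h3 h4 h5 h6 h7 h8 h9 h10 h11 h12 h13 h14 h15 => ((a2.2.2 h14 h15).2.2.2 (d 0) ⟨h0, h1, h2, h3, h4, h5, h6, h7, h8, h9⟩ h10 h11).elim h12 h13) (
  .cons (fun d hd h0 => nx h0) (
  .cons (fun d hd h0 h1 h2 h3 h4 h5 h6 h7 h8 h9 => hk a (by simp) b (by simp) x (by simp) y (by simp) x2 (by simp) ⟨h0, h1, h2, h3, h4, h5, h6, h7, h8, h9⟩) (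
  .cons (fun d hd h0 => h0 e.1) (
  .cons (fun d hd h0 => h0 e.2.1) (
  .cons (fun d hd h0 => h0 e.2.2.1) (
  .cons (fun d hd h0 => h0 e.2.2.2.1) (
  .cons (fun d hd h0 => h0 e.2.2.2.2.1) (
  .cons (fun d hd h0 => h0 e.2.2.2.2.2.1) (
  .cons (fun d hd h0 => h0 e.2.2.2.2.2.2.1) (
  .cons (fun d hd h0 => h0 e.2.2.2.2.2.2.2.1) (
  .cons (fun d hd h0 => h0 e.2.2.2.2.2.2.2.2.1) (
  .cons (fun d hd h0 => h0 e.2.2.2.2.2.2.2.2.2) (
  .cons (fun d hd h0 => h0 hw) (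
  .cons (fun d hd h0 => h0 g1) (
  .cons (fun d hd h0 => h0 g2) (
  .cons (fun d hd h0 => m1 h0) (
  .cons (fun d hd h0 => m2 h0) (
  .nil)))))))))))))))))))))))))))))))))

/-- templates -/
def db01_x : List Tm := [
  ⟨0, [], [], [.q true 2 8 10 9 11]⟩,
  ⟨1, [], [(0, 8), (0, 10), (0, 9), (0, 11)], [.b false 0 8 10, .b false 0 8 9, .b false 0 8 11, .b false 0 8 0, .b false 0 10 9, .b false 0 10 11, .b false 0 10 0, .b false 0 9 11, .b false 0 9 0, .b false 0 11 0, .q false 0 0 8 10 9, .q false 0 0 11 10 9, .q true 2 8 10 0 11, .q true 2 9 11 8 0]⟩,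
  ⟨1, [], [(0, 8), (0, 10), (0, 9), (0, 11)], [.b false 0 8 10, .b false 0 8 11, .b false 0 8 9, .b false 0 8 0, .b false 0 10 11, .b false 0 10 9, .b false 0 10 0, .b false 0 11 9, .b false 0 11 0, .b false 0 9 0, .q false 0 0 8 10 11, .q false 0 0 9 10 11, .q true 2 8 10 0 9, .q true 2 11 9 8 0]⟩,
  ⟨1, [], [(0, 8), (0, 10), (0, 9), (0, 11)], [.b false 0 10 8, .b false 0 10 9, .b false 0 10 11, .b false 0 10 0, .b false 0 8 9, .b false 0 8 11, .b false 0 8 0, .b false 0 9 11, .b false 0 9 0, .b false 0 11 0, .q false 0 0 10 8 9, .q false 0 0 11 8 9, .q true 2 10 8 0 11, .q true 2 9 11 10 0]⟩,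
  ⟨1, [], [(0, 8), (0, 10), (0, 9), (0, 11)], [.b false 0 10 8, .b false 0 10 11, .b false 0 10 9, .b false 0 10 0, .b false 0 8 11, .b false 0 8 9, .b false 0 8 0, .b false 0 11 9, .b false 0 11 0, .b false 0 9 0, .q false 0 0 10 8 11, .q false 0 0 9 8 11, .q true 2 10 8 0 9, .q true 2 11 9 10 0]⟩,
  ⟨0, [], [], [.q true 3 8 12 9 11]⟩,
  ⟨1, [], [(0, 8), (0, 9), (0, 12), (0, 11)], [.b false 0 8 9, .b false 0 8 12, .b false 0 8 11, .b false 0 8 0, .b false 0 9 12, .b false 0 9 11, .b false 0 9 0, .b false 0 12 11, .b false 0 12 0, .b false 0 11 0, .q false 0 0 8 9 12, .q false 0 0 11 9 12, .q true 2 8 9 0 11, .q true 2 12 11 8 0, .q false 2 8 9 12 11, .q true 0 8 12 9 11]⟩,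
  ⟨1, [], [(0, 8), (0, 9), (0, 12), (0, 11)], [.b false 0 8 9, .b false 0 8 11, .b false 0 8 12, .b false 0 8 0, .b false 0 9 11, .b false 0 9 12, .b false 0 9 0, .b false 0 11 12, .b false 0 11 0, .b false 0 12 0, .q false 0 0 8 9 11, .q false 0 0 12 9 11, .q true 2 8 9 0 12, .q true 2 11 12 8 0, .q false 2 8 9 12 11, .q true 0 8 12 9 11]⟩,
  ⟨1, [], [(0, 8), (0, 9), (0, 12), (0, 11)], [.b false 0 9 8, .b false 0 9 12, .b false 0 9 11, .b false 0 9 0, .b false 0 8 12, .b false 0 8 11, .b false 0 8 0, .b false 0 12 11, .b false 0 12 0, .b false 0 11 0, .q false 0 0 9 8 12, .q false 0 0 11 8 12, .q true 2 9 8 0 11, .q true 2 12 11 9 0, .q false 2 8 9 12 11, .q true 0 8 12 9 11]⟩,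
  ⟨1, [], [(0, 8), (0, 9), (0, 12), (0, 11)], [.b false 0 9 8, .b false 0 9 11, .b false 0 9 12, .b false 0 9 0, .b false 0 8 11, .b false 0 8 12, .b false 0 8 0, .b false 0 11 12, .b false 0 11 0, .b false 0 12 0, .q false 0 0 9 8 11, .q false 0 0 12 8 11, .q true 2 9 8 0 12, .q true 2 11 12 9 0, .q false 2 8 9 12 11, .q true 0 8 12 9 11]⟩,
  ⟨1, [], [(0, 8), (0, 11), (0, 12), (0, 9)], [.b false 0 8 11, .b false 0 8 12, .b false 0 8 9, .b false 0 8 0, .b false 0 11 12, .b false 0 11 9, .b false 0 11 0, .b false 0 12 9, .b false 0 12 0, .b false 0 9 0, .q false 0 0 8 11 12, .q false 0 0 9 11 12, .q true 2 8 11 0 9, .q true 2 12 9 8 0, .q false 2 8 11 12 9, .q true 0 8 12 9 11]⟩,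
  ⟨1, [], [(0, 8), (0, 11), (0, 12), (0, 9)], [.b false 0 8 11, .b false 0 8 9, .b false 0 8 12, .b false 0 8 0, .b false 0 11 9, .b false 0 11 12, .b false 0 11 0, .b false 0 9 12, .b false 0 9 0, .b false 0 12 0, .q false 0 0 8 11 9, .q false 0 0 12 11 9, .q true 2 8 11 0 12, .q true 2 9 12 8 0, .q false 2 8 11 12 9, .q true 0 8 12 9 11]⟩,
  ⟨1, [], [(0, 8), (0, 11), (0, 12), (0, 9)], [.b false 0 11 8, .b false 0 11 12, .b false 0 11 9, .b false 0 11 0, .b false 0 8 12, .b false 0 8 9, .b false 0 8 0, .b false 0 12 9, .b false 0 12 0, .b false 0 9 0, .q false 0 0 11 8 12, .q false 0 0 9 8 12, .q true 2 11 8 0 9, .q true 2 12 9 11 0, .q false 2 8 11 12 9, .q true 0 8 12 9 11]⟩,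
  ⟨1, [], [(0, 8), (0, 11), (0, 12), (0, 9)], [.b false 0 11 8, .b false 0 11 9, .b false 0 11 12, .b false 0 11 0, .b false 0 8 9, .b false 0 8 12, .b false 0 8 0, .b false 0 9 12, .b false 0 9 0, .b false 0 12 0, .q false 0 0 11 8 9, .q false 0 0 12 8 9, .q true 2 11 8 0 12, .q true 2 9 12 11 0, .q false 2 8 11 12 9, .q true 0 8 12 9 11]⟩,
  ⟨0, [], [], [.q false 0 8 12 9 10]⟩,
  ⟨0, [], [], [.b false 0 8 9, .b false 0 8 10, .b false 0 8 11, .b false 0 8 12, .b false 0 9 10, .b false 0 9 11, .b false 0 9 12, .b false 0 10 11, .b false 0 10 12, .b false 0 11 12]⟩,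
  ⟨0, [], [], [.b true 0 8 9]⟩,
  ⟨0, [], [], [.b true 0 8 12]⟩,
  ⟨0, [], [], [.b true 0 8 10]⟩,
  ⟨0, [], [], [.b true 0 8 13]⟩,
  ⟨0, [], [], [.b true 0 9 12]⟩,
  ⟨0, [], [], [.b true 0 9 10]⟩,
  ⟨0, [], [], [.b true 0 9 13]⟩,
  ⟨0, [], [], [.b true 0 12 10]⟩,
  ⟨0, [], [], [.b true 0 12 13]⟩,
  ⟨0, [], [], [.b true 0 10 13]⟩,
  ⟨0, [], [], [.q true 2 8 9 12 10]⟩,
  ⟨0, [], [], [.q true 0 13 8 9 10]⟩,
  ⟨0, [], [], [.q true 0 13 12 9 10]⟩,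
  ⟨0, [], [], [.q false 2 8 9 13 12]⟩,
  ⟨0, [], [], [.q false 2 10 12 8 13]⟩]

def db01_p0 : List Nat := [
0x6240090000000810001000201,
0x2640090000000810006000201,
0x462090000000810004000201,
0x2604090000000810008000201,
0x62400b00000008104b2000201,
0x62801900000008b0530000201,
0x9f00000000200000000600000000400000000803ec03f003f303f403f503f6000506,
0x84200b0000000b50572000201,
0x84200100000009d0000000100161000301,
0x682400700000000a00000001201c5000301,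
0x6840030000000140532000201,
0x462800700000009d000000016052e000301,
0x680423b0004826090000000810000000b5000d000401,
0x80620d00000000c0000000180000000a900000000200000000400000001a0007000701,
0xe0000000a50000000af0000000a30000000a900000001c00000001a000700]

def db01_pf : List Nat := db01_p0

theorem db01_ref {V : Type} {S : SRel V} {p : Nat → V} (hp : ∀ i j, i < 6 → j < 6 → p i = p j → i = j)
    (hts : PHs S p 6 ((tO ++ (tB ++ (tR ++ (tF ++ tK)))) ++ db01_x)) : False :=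
  refuteS (k := 6) (n2 := 1) (n3 := 1) (n4 := 4) (o3 := 21) (o4 := 77) (M := 1001) ((tO ++ (tB ++ (tR ++ (tF ++ tK)))) ++ db01_x) db01_pf (by decide +kernel)
    (by decide +kernel) (by decide +kernel) (by decide +kernel) hp hts

theorem db01 {V : Type} {G : SimpleGraph V} {X W : V → V → V → V → Prop} (h : WF G X W) {a b x y x2 t : V}
    (nd : [a, b, x, y, x2, t].Nodup) (a1 : Pr G X W a x b y) (a2 : IF G X W a x2 b y) (nx : ¬ X a x2 b x) (hk : K5F G [a, b, x, y, x2])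
    (e : K5 G a b x2 x t) (hw : W a b x2 x) (g1 : X t a b x) (g2 : X t x2 b x)
    (m1 : ¬ W a b t x2) (m2 : ¬ W x x2 a t) : False :=
  db01_ref (S := (syW h).rel) (pt_inj (o := a) nd rfl) (PHs.app (UHs.phs ((tO_h h).app ((tB_h h).app ((tR_h h).app ((tF_h h).app (tK_h h))))) _ _) (
  .cons (fun d hd h0 => h0 a1.1) (
  .cons (fun d hd m0 m1 m2 m3 h0 h1 h2 h3 h4 h5 h6 h7 h8 h9 h10 h11 h12 h13 => ((a1.2).1 (d 0) ⟨h0, h1, h2, h3, h4, h5, h6, h7, h8, h9⟩ h10 h11).elim h12 h13) (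
  .cons (fun d hd m0 m1 m2 m3 h0 h1 h2 h3 h4 h5 h6 h7 h8 h9 h10 h11 h12 h13 => ((a1.2).2.1 (d 0) ⟨h0, h1, h2, h3, h4, h5, h6, h7, h8, h9⟩ h10 h11).elim h12 h13) (
  .cons (fun d hd m0 m1 m2 m3 h0 h1 h2 h3 h4 h5 h6 h7 h8 h9 h10 h11 h12 h13 => ((a1.2).2.2.1 (d 0) ⟨h0, h1, h2, h3, h4, h5, h6, h7, h8, h9⟩ h10 h11).elim h12 h13) (
  .cons (fun d hd m0 m1 m2 m3 h0 h1 h2 h3 h4 h5 h6 h7 h8 h9 h10 h11 h12 h13 => ((a1.2).2.2.2 (d 0) ⟨h0, h1, h2, h3, h4, h5, h6, h7, h8, h9⟩ h10 h11).elim h12 h13) (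
  .cons (fun d hd h0 => h0 a2.1) (
  .cons (fun d hd m0 m1 m2 m3 h0 h1 h2 h3 h4 h5 h6 h7 h8 h9 h10 h11 h12 h13 h14 h15 => ((a2.2.1 h14 h15).1 (d 0) ⟨h0, h1, h2, h3, h4, h5, h6, h7, h8, h9⟩ h10 h11).elim h12 h13) (
  .cons (fun d hd m0 m1 m2 m3 h0 h1 h2 h3 h4 h5 h6 h7 h8 h9 h10 h11 h12 h13 h14 h15 => ((a2.2.1 h14 h15).2.1 (d 0) ⟨h0, h1, h2, h3, h4, h5, h6, h7, h8, h9⟩ h10 h11).elim h12 h13) (
  .cons (fun d hd m0 m1 m2 m3 h0 h1 h2 h3 h4 h5 h6 h7 h8 h9 h10 h11 h12 h13 h14 h15 => ((a2.2.1 h14 h15).2.2.1 (d 0) ⟨h0, h1, h2, h3, h4, h5, h6, h7, h8, h9⟩ h10 h11).elim h12 h13) (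
  .cons (fun d hd m0 m1 m2 m3 h0 h1 h2 h3 h4 h5 h6 h7 h8 h9 h10 h11 h12 h13 h14 h15 => ((a2.2.1 h14 h15).2.2.2 (d 0) ⟨h0, h1, h2, h3, h4, h5, h6, h7, h8, h9⟩ h10 h11).elim h12 h13) (
  .cons (fun d hd m0 m1 m2 m3 h0 h1 h2 h3 h4 h5 h6 h7 h8 h9 h10 h11 h12 h13 h14 h15 => ((a2.2.2 h14 h15).1 (d 0) ⟨h0, h1, h2, h3, h4, h5, h6, h7, h8, h9⟩ h10 h11).elim h12 h13) (
  .cons (fun d hd m0 m1 m2 m3 h0 h1 h2 h3 h4 h5 h6 h7 h8 h9 h10 h11 h12 h13 h14 h15 => ((a2.2.2 h14 h15).2.1 (d 0) ⟨h0, h1, h2, h3, h4, h5, h6, h7, h8, h9⟩ h10 h11).elim h12 h13) (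
  .cons (fun d hd m0 m1 m2 m3 h0 h1 h2 h3 h4 h5 h6 h7 h8 h9 h10 h11 h12 h13 h14 h15 => ((a2.2.2 h14 h15).2.2.1 (d 0) ⟨h0, h1, h2, h3, h4, h5, h6, h7, h8, h9⟩ h10 h11).elim h12 h13) (
  .cons (fun d hd m0 m1 m2 m3 h0 h1 h2 h3 h4 h5 h6 h7 h8 h9 h10 h11 h12 h13 h14 h15 => ((a2.2.2 h14 h15).2.2.2 (d 0) ⟨h0, h1, h2, h3, h4, h5, h6, h7, h8, h9⟩ h10 h11).elim h12 h13) (
  .cons (fun d hd h0 => nx h0) (
  .cons (fun d hd h0 h1 h2 h3 h4 h5 h6 h7 h8 h9 => hk a (by simp) b (by simp) x (by simp) y (by simp) x2 (by simp) ⟨h0, h1, h2, h3, h4, h5, h6, h7, h8, h9⟩) (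
  .cons (fun d hd h0 => h0 e.1) (
  .cons (fun d hd h0 => h0 e.2.1) (
  .cons (fun d hd h0 => h0 e.2.2.1) (
  .cons (fun d hd h0 => h0 e.2.2.2.1) (
  .cons (fun d hd h0 => h0 e.2.2.2.2.1) (
  .cons (fun d hd h0 => h0 e.2.2.2.2.2.1) (
  .cons (fun d hd h0 => h0 e.2.2.2.2.2.2.1) (
  .cons (fun d hd h0 => h0 e.2.2.2.2.2.2.2.1) (
  .cons (fun d hd h0 => h0 e.2.2.2.2.2.2.2.2.1) (
  .cons (fun d hd h0 => h0 e.2.2.2.2.2.2.2.2.2) (
  .cons (fun d hd h0 => h0 hw) (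
  .cons (fun d hd h0 => h0 g1) (
  .cons (fun d hd h0 => h0 g2) (
  .cons (fun d hd h0 => m1 h0) (
  .cons (fun d hd h0 => m2 h0) (
  .nil)))))))))))))))))))))))))))))))))

/-- templates -/
def db02_x : List Tm := [
  ⟨0, [], [], [.q true 2 8 10 9 11]⟩,
  ⟨1, [], [(0, 8), (0, 10), (0, 9), (0, 11)], [.b false 0 8 10, .b false 0 8 9, .b false 0 8 11, .b false 0 8 0, .b false 0 10 9, .b false 0 10 11, .b false 0 10 0, .b false 0 9 11, .b false 0 9 0, .b false 0 11 0, .q false 0 0 8 10 9, .q false 0 0 11 10 9, .q true 2 8 10 0 11, .q true 2 9 11 8 0]⟩,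
  ⟨1, [], [(0, 8), (0, 10), (0, 9), (0, 11)], [.b false 0 8 10, .b false 0 8 11, .b false 0 8 9, .b false 0 8 0, .b false 0 10 11, .b false 0 10 9, .b false 0 10 0, .b false 0 11 9, .b false 0 11 0, .b false 0 9 0, .q false 0 0 8 10 11, .q false 0 0 9 10 11, .q true 2 8 10 0 9, .q true 2 11 9 8 0]⟩,
  ⟨1, [], [(0, 8), (0, 10), (0, 9), (0, 11)], [.b false 0 10 8, .b false 0 10 9, .b false 0 10 11, .b false 0 10 0, .b false 0 8 9, .b false 0 8 11, .b false 0 8 0, .b false 0 9 11, .b false 0 9 0, .b false 0 11 0, .q false 0 0 10 8 9, .q false 0 0 11 8 9, .q true 2 10 8 0 11, .q true 2 9 11 10 0]⟩,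
  ⟨1, [], [(0, 8), (0, 10), (0, 9), (0, 11)], [.b false 0 10 8, .b false 0 10 11, .b false 0 10 9, .b false 0 10 0, .b false 0 8 11, .b false 0 8 9, .b false 0 8 0, .b false 0 11 9, .b false 0 11 0, .b false 0 9 0, .q false 0 0 10 8 11, .q false 0 0 9 8 11, .q true 2 10 8 0 9, .q true 2 11 9 10 0]⟩,
  ⟨0, [], [], [.q true 3 8 12 9 11]⟩,
  ⟨1, [], [(0, 8), (0, 9), (0, 12), (0, 11)], [.b false 0 8 9, .b false 0 8 12, .b false 0 8 11, .b false 0 8 0, .b false 0 9 12, .b false 0 9 11, .b false 0 9 0, .b false 0 12 11, .b false 0 12 0, .b false 0 11 0, .q false 0 0 8 9 12, .q false 0 0 11 9 12, .q true 2 8 9 0 11, .q true 2 12 11 8 0, .q false 2 8 9 12 11, .q true 0 8 12 9 11]⟩,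
  ⟨1, [], [(0, 8), (0, 9), (0, 12), (0, 11)], [.b false 0 8 9, .b false 0 8 11, .b false 0 8 12, .b false 0 8 0, .b false 0 9 11, .b false 0 9 12, .b false 0 9 0, .b false 0 11 12, .b false 0 11 0, .b false 0 12 0, .q false 0 0 8 9 11, .q false 0 0 12 9 11, .q true 2 8 9 0 12, .q true 2 11 12 8 0, .q false 2 8 9 12 11, .q true 0 8 12 9 11]⟩,
  ⟨1, [], [(0, 8), (0, 9), (0, 12), (0, 11)], [.b false 0 9 8, .b false 0 9 12, .b false 0 9 11, .b false 0 9 0, .b false 0 8 12, .b false 0 8 11, .b false 0 8 0, .b false 0 12 11, .b false 0 12 0, .b false 0 11 0, .q false 0 0 9 8 12, .q false 0 0 11 8 12, .q true 2 9 8 0 11, .q true 2 12 11 9 0, .q false 2 8 9 12 11, .q true 0 8 12 9 11]⟩,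
  ⟨1, [], [(0, 8), (0, 9), (0, 12), (0, 11)], [.b false 0 9 8, .b false 0 9 11, .b false 0 9 12, .b false 0 9 0, .b false 0 8 11, .b false 0 8 12, .b false 0 8 0, .b false 0 11 12, .b false 0 11 0, .b false 0 12 0, .q false 0 0 9 8 11, .q false 0 0 12 8 11, .q true 2 9 8 0 12, .q true 2 11 12 9 0, .q false 2 8 9 12 11, .q true 0 8 12 9 11]⟩,
  ⟨1, [], [(0, 8), (0, 11), (0, 12), (0, 9)], [.b false 0 8 11, .b false 0 8 12, .b false 0 8 9, .b false 0 8 0, .b false 0 11 12, .b false 0 11 9, .b false 0 11 0, .b false 0 12 9, .b false 0 12 0, .b false 0 9 0, .q false 0 0 8 11 12, .q false 0 0 9 11 12, .q true 2 8 11 0 9, .q true 2 12 9 8 0, .q false 2 8 11 12 9, .q true 0 8 12 9 11]⟩,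
  ⟨1, [], [(0, 8), (0, 11), (0, 12), (0, 9)], [.b false 0 8 11, .b false 0 8 9, .b false 0 8 12, .b false 0 8 0, .b false 0 11 9, .b false 0 11 12, .b false 0 11 0, .b false 0 9 12, .b false 0 9 0, .b false 0 12 0, .q false 0 0 8 11 9, .q false 0 0 12 11 9, .q true 2 8 11 0 12, .q true 2 9 12 8 0, .q false 2 8 11 12 9, .q true 0 8 12 9 11]⟩,
  ⟨1, [], [(0, 8), (0, 11), (0, 12), (0, 9)], [.b false 0 11 8, .b false 0 11 12, .b false 0 11 9, .b false 0 11 0, .b false 0 8 12, .b false 0 8 9, .b false 0 8 0, .b false 0 12 9, .b false 0 12 0, .b false 0 9 0, .q false 0 0 11 8 12, .q false 0 0 9 8 12, .q true 2 11 8 0 9, .q true 2 12 9 11 0, .q false 2 8 11 12 9, .q true 0 8 12 9 11]⟩,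
  ⟨1, [], [(0, 8), (0, 11), (0, 12), (0, 9)], [.b false 0 11 8, .b false 0 11 9, .b false 0 11 12, .b false 0 11 0, .b false 0 8 9, .b false 0 8 12, .b false 0 8 0, .b false 0 9 12, .b false 0 9 0, .b false 0 12 0, .q false 0 0 11 8 9, .q false 0 0 12 8 9, .q true 2 11 8 0 12, .q true 2 9 12 11 0, .q false 2 8 11 12 9, .q true 0 8 12 9 11]⟩,
  ⟨0, [], [], [.q false 0 8 12 9 10]⟩,
  ⟨0, [], [], [.b false 0 8 9, .b false 0 8 10, .b false 0 8 11, .b false 0 8 12, .b false 0 9 10, .b false 0 9 11, .b false 0 9 12, .b false 0 10 11, .b false 0 10 12, .b false 0 11 12]⟩,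
  ⟨0, [], [], [.b true 0 8 9]⟩,
  ⟨0, [], [], [.b true 0 8 12]⟩,
  ⟨0, [], [], [.b true 0 8 10]⟩,
  ⟨0, [], [], [.b true 0 8 13]⟩,
  ⟨0, [], [], [.b true 0 9 12]⟩,
  ⟨0, [], [], [.b true 0 9 10]⟩,
  ⟨0, [], [], [.b true 0 9 13]⟩,
  ⟨0, [], [], [.b true 0 12 10]⟩,
  ⟨0, [], [], [.b true 0 12 13]⟩,
  ⟨0, [], [], [.b true 0 10 13]⟩,
  ⟨0, [], [], [.q true 2 8 9 12 10]⟩,
  ⟨0, [], [], [.q true 0 13 9 8 12]⟩,
  ⟨0, [], [], [.q true 0 13 10 8 12]⟩,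
  ⟨0, [], [], [.q false 2 9 8 13 10]⟩,
  ⟨0, [], [], [.q false 2 12 10 9 13]⟩]

def db02_p0 : List Nat := [
0x6240090000000810001000201,
0x2640090000000810006000201,
0x462090000000810004000201,
0x2604090000000810008000201,
0x62400b00000008104b2000201,
0x62801900000008b0530000201,
0x9f00000000200000000600000000400000000803ec03f003f303f403f503f6000506,
0x84200b0000000b50572000201,
0x84200100000009d0000000100161000301,
0x682400700000000a00000001201c5000301,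
0x6840030000000140532000201,
0x462800700000009d000000016052e000301,
0x680423b0004826090000000810000000b5000d000401,
0x80620d00000000c0000000180000000a900000000200000000400000001a0007000701,
0xe0000000a50000000af0000000a30000000a900000001c00000001a000700]

def db02_pf : List Nat := db02_p0

theorem db02_ref {V : Type} {S : SRel V} {p : Nat → V} (hp : ∀ i j, i < 6 → j < 6 → p i = p j → i = j)
    (hts : PHs S p 6 ((tO ++ (tB ++ (tR ++ (tF ++ tK)))) ++ db02_x)) : False :=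
  refuteS (k := 6) (n2 := 1) (n3 := 1) (n4 := 4) (o3 := 21) (o4 := 77) (M := 1001) ((tO ++ (tB ++ (tR ++ (tF ++ tK)))) ++ db02_x) db02_pf (by decide +kernel)
    (by decide +kernel) (by decide +kernel) (by decide +kernel) hp hts

theorem db02 {V : Type} {G : SimpleGraph V} {X W : V → V → V → V → Prop} (h : WF G X W) {a b x y x2 t : V}
    (nd : [a, b, x, y, x2, t].Nodup) (a1 : Pr G X W a x b y) (a2 : IF G X W a x2 b y) (nx : ¬ X a x2 b x) (hk : K5F G [a, b, x, y, x2])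
    (e : K5 G a b x2 x t) (hw : W a b x2 x) (g1 : X t b a x2) (g2 : X t x a x2)
    (m1 : ¬ W b a t x) (m2 : ¬ W x2 x b t) : False :=
  db02_ref (S := (syW h).rel) (pt_inj (o := a) nd rfl) (PHs.app (UHs.phs ((tO_h h).app ((tB_h h).app ((tR_h h).app ((tF_h h).app (tK_h h))))) _ _) (
  .cons (fun d hd h0 => h0 a1.1) (
  .cons (fun d hd m0 m1 m2 m3 h0 h1 h2 h3 h4 h5 h6 h7 h8 h9 h10 h11 h12 h13 => ((a1.2).1 (d 0) ⟨h0, h1, h2, h3, h4, h5, h6, h7, h8, h9⟩ h10 h11).elim h12 h13) (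
  .cons (fun d hd m0 m1 m2 m3 h0 h1 h2 h3 h4 h5 h6 h7 h8 h9 h10 h11 h12 h13 => ((a1.2).2.1 (d 0) ⟨h0, h1, h2, h3, h4, h5, h6, h7, h8, h9⟩ h10 h11).elim h12 h13) (
  .cons (fun d hd m0 m1 m2 m3 h0 h1 h2 h3 h4 h5 h6 h7 h8 h9 h10 h11 h12 h13 => ((a1.2).2.2.1 (d 0) ⟨h0, h1, h2, h3, h4, h5, h6, h7, h8, h9⟩ h10 h11).elim h12 h13) (
  .cons (fun d hd m0 m1 m2 m3 h0 h1 h2 h3 h4 h5 h6 h7 h8 h9 h10 h11 h12 h13 => ((a1.2).2.2.2 (d 0) ⟨h0, h1, h2, h3, h4, h5, h6, h7, h8, h9⟩ h10 h11).elim h12 h13) (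
  .cons (fun d hd h0 => h0 a2.1) (
  .cons (fun d hd m0 m1 m2 m3 h0 h1 h2 h3 h4 h5 h6 h7 h8 h9 h10 h11 h12 h13 h14 h15 => ((a2.2.1 h14 h15).1 (d 0) ⟨h0, h1, h2, h3, h4, h5, h6, h7, h8, h9⟩ h10 h11).elim h12 h13) (
  .cons (fun d hd m0 m1 m2 m3 h0 h1 h2 h3 h4 h5 h6 h7 h8 h9 h10 h11 h12 h13 h14 h15 => ((a2.2.1 h14 h15).2.1 (d 0) ⟨h0, h1, h2, h3, h4, h5, h6, h7, h8, h9⟩ h10 h11).elim h12 h13) (
  .cons (fun d hd m0 m1 m2 m3 h0 h1 h2 h3 h4 h5 h6 h7 h8 h9 h10 h11 h12 h13 h14 h15 => ((a2.2.1 h14 h15).2.2.1 (d 0) ⟨h0, h1, h2, h3, h4, h5, h6, h7, h8, h9⟩ h10 h11).elim h12 h13) (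
  .cons (fun d hd m0 m1 m2 m3 h0 h1 h2 h3 h4 h5 h6 h7 h8 h9 h10 h11 h12 h13 h14 h15 => ((a2.2.1 h14 h15).2.2.2 (d 0) ⟨h0, h1, h2, h3, h4, h5, h6, h7, h8, h9⟩ h10 h11).elim h12 h13) (
  .cons (fun d hd m0 m1 m2 m3 h0 h1 h2 h3 h4 h5 h6 h7 h8 h9 h10 h11 h12 h13 h14 h15 => ((a2.2.2 h14 h15).1 (d 0) ⟨h0, h1, h2, h3, h4, h5, h6, h7, h8, h9⟩ h10 h11).elim h12 h13) (
  .cons (fun d hd m0 m1 m2 m3 h0 h1 h2 h3 h4 h5 h6 h7 h8 h9 h10 h11 h12 h13 h14 h15 => ((a2.2.2 h14 h15).2.1 (d 0) ⟨h0, h1, h2, h3, h4, h5, h6, h7, h8, h9⟩ h10 h11).elim h12 h13) (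
  .cons (fun d hd m0 m1 m2 m3 h0 h1 h2 h3 h4 h5 h6 h7 h8 h9 h10 h11 h12 h13 h14 h15 => ((a2.2.2 h14 h15).2.2.1 (d 0) ⟨h0, h1, h2, h3, h4, h5, h6, h7, h8, h9⟩ h10 h11).elim h12 h13) (
  .cons (fun d hd m0 m1 m2 m3 h0 h1 h2 h3 h4 h5 h6 h7 h8 h9 h10 h11 h12 h13 h14 h15 => ((a2.2.2 h14 h15).2.2.2 (d 0) ⟨h0, h1, h2, h3, h4, h5, h6, h7, h8, h9⟩ h10 h11).elim h12 h13) (
  .cons (fun d hd h0 => nx h0) (
  .cons (fun d hd h0 h1 h2 h3 h4 h5 h6 h7 h8 h9 => hk a (by simp) b (by simp) x (by simp) y (by simp) x2 (by simp) ⟨h0, h1, h2, h3, h4, h5, h6, h7, h8, h9⟩) (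
  .cons (fun d hd h0 => h0 e.1) (
  .cons (fun d hd h0 => h0 e.2.1) (
  .cons (fun d hd h0 => h0 e.2.2.1) (
  .cons (fun d hd h0 => h0 e.2.2.2.1) (
  .cons (fun d hd h0 => h0 e.2.2.2.2.1) (
  .cons (fun d hd h0 => h0 e.2.2.2.2.2.1) (
  .cons (fun d hd h0 => h0 e.2.2.2.2.2.2.1) (
  .cons (fun d hd h0 => h0 e.2.2.2.2.2.2.2.1) (
  .cons (fun d hd h0 => h0 e.2.2.2.2.2.2.2.2.1) (
  .cons (fun d hd h0 => h0 e.2.2.2.2.2.2.2.2.2) (
  .cons (fun d hd h0 => h0 hw) (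
  .cons (fun d hd h0 => h0 g1) (
  .cons (fun d hd h0 => h0 g2) (
  .cons (fun d hd h0 => m1 h0) (
  .cons (fun d hd h0 => m2 h0) (
  .nil)))))))))))))))))))))))))))))))))

/-- templates -/
def db03_x : List Tm := [
  ⟨0, [], [], [.q true 2 8 10 9 11]⟩,
  ⟨1, [], [(0, 8), (0, 10), (0, 9), (0, 11)], [.b false 0 8 10, .b false 0 8 9, .b false 0 8 11, .b false 0 8 0, .b false 0 10 9, .b false 0 10 11, .b false 0 10 0, .b false 0 9 11, .b false 0 9 0, .b false 0 11 0, .q false 0 0 8 10 9, .q false 0 0 11 10 9, .q true 2 8 10 0 11, .q true 2 9 11 8 0]⟩,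
  ⟨1, [], [(0, 8), (0, 10), (0, 9), (0, 11)], [.b false 0 8 10, .b false 0 8 11, .b false 0 8 9, .b false 0 8 0, .b false 0 10 11, .b false 0 10 9, .b false 0 10 0, .b false 0 11 9, .b false 0 11 0, .b false 0 9 0, .q false 0 0 8 10 11, .q false 0 0 9 10 11, .q true 2 8 10 0 9, .q true 2 11 9 8 0]⟩,
  ⟨1, [], [(0, 8), (0, 10), (0, 9), (0, 11)], [.b false 0 10 8, .b false 0 10 9, .b false 0 10 11, .b false 0 10 0, .b false 0 8 9, .b false 0 8 11, .b false 0 8 0, .b false 0 9 11, .b false 0 9 0, .b false 0 11 0, .q false 0 0 10 8 9, .q false 0 0 11 8 9, .q true 2 10 8 0 11, .q true 2 9 11 10 0]⟩,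
  ⟨1, [], [(0, 8), (0, 10), (0, 9), (0, 11)], [.b false 0 10 8, .b false 0 10 11, .b false 0 10 9, .b false 0 10 0, .b false 0 8 11, .b false 0 8 9, .b false 0 8 0, .b false 0 11 9, .b false 0 11 0, .b false 0 9 0, .q false 0 0 10 8 11, .q false 0 0 9 8 11, .q true 2 10 8 0 9, .q true 2 11 9 10 0]⟩,
  ⟨0, [], [], [.q true 3 8 12 9 11]⟩,
  ⟨1, [], [(0, 8), (0, 9), (0, 12), (0, 11)], [.b false 0 8 9, .b false 0 8 12, .b false 0 8 11, .b false 0 8 0, .b false 0 9 12, .b false 0 9 11, .b false 0 9 0, .b false 0 12 11, .b false 0 12 0, .b false 0 11 0, .q false 0 0 8 9 12, .q false 0 0 11 9 12, .q true 2 8 9 0 11, .q true 2 12 11 8 0, .q false 2 8 9 12 11, .q true 0 8 12 9 11]⟩,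
  ⟨1, [], [(0, 8), (0, 9), (0, 12), (0, 11)], [.b false 0 8 9, .b false 0 8 11, .b false 0 8 12, .b false 0 8 0, .b false 0 9 11, .b false 0 9 12, .b false 0 9 0, .b false 0 11 12, .b false 0 11 0, .b false 0 12 0, .q false 0 0 8 9 11, .q false 0 0 12 9 11, .q true 2 8 9 0 12, .q true 2 11 12 8 0, .q false 2 8 9 12 11, .q true 0 8 12 9 11]⟩,
  ⟨1, [], [(0, 8), (0, 9), (0, 12), (0, 11)], [.b false 0 9 8, .b false 0 9 12, .b false 0 9 11, .b false 0 9 0, .b false 0 8 12, .b false 0 8 11, .b false 0 8 0, .b false 0 12 11, .b false 0 12 0, .b false 0 11 0, .q false 0 0 9 8 12, .q false 0 0 11 8 12, .q true 2 9 8 0 11, .q true 2 12 11 9 0, .q false 2 8 9 12 11, .q true 0 8 12 9 11]⟩,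
  ⟨1, [], [(0, 8), (0, 9), (0, 12), (0, 11)], [.b false 0 9 8, .b false 0 9 11, .b false 0 9 12, .b false 0 9 0, .b false 0 8 11, .b false 0 8 12, .b false 0 8 0, .b false 0 11 12, .b false 0 11 0, .b false 0 12 0, .q false 0 0 9 8 11, .q false 0 0 12 8 11, .q true 2 9 8 0 12, .q true 2 11 12 9 0, .q false 2 8 9 12 11, .q true 0 8 12 9 11]⟩,
  ⟨1, [], [(0, 8), (0, 11), (0, 12), (0, 9)], [.b false 0 8 11, .b false 0 8 12, .b false 0 8 9, .b false 0 8 0, .b false 0 11 12, .b false 0 11 9, .b false 0 11 0, .b false 0 12 9, .b false 0 12 0, .b false 0 9 0, .q false 0 0 8 11 12, .q false 0 0 9 11 12, .q true 2 8 11 0 9, .q true 2 12 9 8 0, .q false 2 8 11 12 9, .q true 0 8 12 9 11]⟩,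
  ⟨1, [], [(0, 8), (0, 11), (0, 12), (0, 9)], [.b false 0 8 11, .b false 0 8 9, .b false 0 8 12, .b false 0 8 0, .b false 0 11 9, .b false 0 11 12, .b false 0 11 0, .b false 0 9 12, .b false 0 9 0, .b false 0 12 0, .q false 0 0 8 11 9, .q false 0 0 12 11 9, .q true 2 8 11 0 12, .q true 2 9 12 8 0, .q false 2 8 11 12 9, .q true 0 8 12 9 11]⟩,
  ⟨1, [], [(0, 8), (0, 11), (0, 12), (0, 9)], [.b false 0 11 8, .b false 0 11 12, .b false 0 11 9, .b false 0 11 0, .b false 0 8 12, .b false 0 8 9, .b false 0 8 0, .b false 0 12 9, .b false 0 12 0, .b false 0 9 0, .q false 0 0 11 8 12, .q false 0 0 9 8 12, .q true 2 11 8 0 9, .q true 2 12 9 11 0, .q false 2 8 11 12 9, .q true 0 8 12 9 11]⟩,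
  ⟨1, [], [(0, 8), (0, 11), (0, 12), (0, 9)], [.b false 0 11 8, .b false 0 11 9, .b false 0 11 12, .b false 0 11 0, .b false 0 8 9, .b false 0 8 12, .b false 0 8 0, .b false 0 9 12, .b false 0 9 0, .b false 0 12 0, .q false 0 0 11 8 9, .q false 0 0 12 8 9, .q true 2 11 8 0 12, .q true 2 9 12 11 0, .q false 2 8 11 12 9, .q true 0 8 12 9 11]⟩,
  ⟨0, [], [], [.q false 0 8 12 9 10]⟩,
  ⟨0, [], [], [.b false 0 8 9, .b false 0 8 10, .b false 0 8 11, .b false 0 8 12, .b false 0 9 10, .b false 0 9 11, .b false 0 9 12, .b false 0 10 11, .b false 0 10 12, .b false 0 11 12]⟩,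
  ⟨0, [], [], [.b true 0 8 9]⟩,
  ⟨0, [], [], [.b true 0 8 12]⟩,
  ⟨0, [], [], [.b true 0 8 10]⟩,
  ⟨0, [], [], [.b true 0 8 13]⟩,
  ⟨0, [], [], [.b true 0 9 12]⟩,
  ⟨0, [], [], [.b true 0 9 10]⟩,
  ⟨0, [], [], [.b true 0 9 13]⟩,
  ⟨0, [], [], [.b true 0 12 10]⟩,
  ⟨0, [], [], [.b true 0 12 13]⟩,
  ⟨0, [], [], [.b true 0 10 13]⟩,
  ⟨0, [], [], [.q true 2 8 9 12 10]⟩,
  ⟨0, [], [], [.q true 0 13 9 8 10]⟩,
  ⟨0, [], [], [.q true 0 13 12 8 10]⟩,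
  ⟨0, [], [], [.q false 2 9 8 13 12]⟩,
  ⟨0, [], [], [.q false 2 10 12 9 13]⟩]

def db03_p0 : List Nat := [
0x84200b0000000b50572000201,
0x84200100000009d0000000020161000301,
0xa8240050000000040000000b7073a000301,
0xb9000000006000200]

def db03_pf : List Nat := db03_p0

theorem db03_ref {V : Type} {S : SRel V} {p : Nat → V} (hp : ∀ i j, i < 6 → j < 6 → p i = p j → i = j)
    (hts : PHs S p 6 ((tO ++ (tB ++ (tR ++ (tF ++ tK)))) ++ db03_x)) : False :=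
  refuteS (k := 6) (n2 := 1) (n3 := 1) (n4 := 4) (o3 := 21) (o4 := 77) (M := 1001) ((tO ++ (tB ++ (tR ++ (tF ++ tK)))) ++ db03_x) db03_pf (by decide +kernel)
    (by decide +kernel) (by decide +kernel) (by decide +kernel) hp hts

theorem db03 {V : Type} {G : SimpleGraph V} {X W : V → V → V → V → Prop} (h : WF G X W) {a b x y x2 t : V}
    (nd : [a, b, x, y, x2, t].Nodup) (a1 : Pr G X W a x b y) (a2 : IF G X W a x2 b y) (nx : ¬ X a x2 b x) (hk : K5F G [a, b, x, y, x2])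
    (e : K5 G a b x2 x t) (hw : W a b x2 x) (g1 : X t b a x) (g2 : X t x2 a x)
    (m1 : ¬ W b a t x2) (m2 : ¬ W x x2 b t) : False :=
  db03_ref (S := (syW h).rel) (pt_inj (o := a) nd rfl) (PHs.app (UHs.phs ((tO_h h).app ((tB_h h).app ((tR_h h).app ((tF_h h).app (tK_h h))))) _ _) (
  .cons (fun d hd h0 => h0 a1.1) (
  .cons (fun d hd m0 m1 m2 m3 h0 h1 h2 h3 h4 h5 h6 h7 h8 h9 h10 h11 h12 h13 => ((a1.2).1 (d 0) ⟨h0, h1, h2, h3, h4, h5, h6, h7, h8, h9⟩ h10 h11).elim h12 h13) (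
  .cons (fun d hd m0 m1 m2 m3 h0 h1 h2 h3 h4 h5 h6 h7 h8 h9 h10 h11 h12 h13 => ((a1.2).2.1 (d 0) ⟨h0, h1, h2, h3, h4, h5, h6, h7, h8, h9⟩ h10 h11).elim h12 h13) (
  .cons (fun d hd m0 m1 m2 m3 h0 h1 h2 h3 h4 h5 h6 h7 h8 h9 h10 h11 h12 h13 => ((a1.2).2.2.1 (d 0) ⟨h0, h1, h2, h3, h4, h5, h6, h7, h8, h9⟩ h10 h11).elim h12 h13) (
  .cons (fun d hd m0 m1 m2 m3 h0 h1 h2 h3 h4 h5 h6 h7 h8 h9 h10 h11 h12 h13 => ((a1.2).2.2.2 (d 0) ⟨h0, h1, h2, h3, h4, h5, h6, h7, h8, h9⟩ h10 h11).elim h12 h13) (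
  .cons (fun d hd h0 => h0 a2.1) (
  .cons (fun d hd m0 m1 m2 m3 h0 h1 h2 h3 h4 h5 h6 h7 h8 h9 h10 h11 h12 h13 h14 h15 => ((a2.2.1 h14 h15).1 (d 0) ⟨h0, h1, h2, h3, h4, h5, h6, h7, h8, h9⟩ h10 h11).elim h12 h13) (
  .cons (fun d hd m0 m1 m2 m3 h0 h1 h2 h3 h4 h5 h6 h7 h8 h9 h10 h11 h12 h13 h14 h15 => ((a2.2.1 h14 h15).2.1 (d 0) ⟨h0, h1, h2, h3, h4, h5, h6, h7, h8, h9⟩ h10 h11).elim h12 h13) (
  .cons (fun d hd m0 m1 m2 m3 h0 h1 h2 h3 h4 h5 h6 h7 h8 h9 h10 h11 h12 h13 h14 h15 => ((a2.2.1 h14 h15).2.2.1 (d 0) ⟨h0, h1, h2, h3, h4, h5, h6, h7, h8, h9⟩ h10 h11).elim h12 h13) (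
  .cons (fun d hd m0 m1 m2 m3 h0 h1 h2 h3 h4 h5 h6 h7 h8 h9 h10 h11 h12 h13 h14 h15 => ((a2.2.1 h14 h15).2.2.2 (d 0) ⟨h0, h1, h2, h3, h4, h5, h6, h7, h8, h9⟩ h10 h11).elim h12 h13) (
  .cons (fun d hd m0 m1 m2 m3 h0 h1 h2 h3 h4 h5 h6 h7 h8 h9 h10 h11 h12 h13 h14 h15 => ((a2.2.2 h14 h15).1 (d 0) ⟨h0, h1, h2, h3, h4, h5, h6, h7, h8, h9⟩ h10 h11).elim h12 h13) (
  .cons (fun d hd m0 m1 m2 m3 h0 h1 h2 h3 h4 h5 h6 h7 h8 h9 h10 h11 h12 h13 h14 h15 => ((a2.2.2 h14 h15).2.1 (d 0) ⟨h0, h1, h2, h3, h4, h5, h6, h7, h8, h9⟩ h10 h11).elim h12 h13) (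
  .cons (fun d hd m0 m1 m2 m3 h0 h1 h2 h3 h4 h5 h6 h7 h8 h9 h10 h11 h12 h13 h14 h15 => ((a2.2.2 h14 h15).2.2.1 (d 0) ⟨h0, h1, h2, h3, h4, h5, h6, h7, h8, h9⟩ h10 h11).elim h12 h13) (
  .cons (fun d hd m0 m1 m2 m3 h0 h1 h2 h3 h4 h5 h6 h7 h8 h9 h10 h11 h12 h13 h14 h15 => ((a2.2.2 h14 h15).2.2.2 (d 0) ⟨h0, h1, h2, h3, h4, h5, h6, h7, h8, h9⟩ h10 h11).elim h12 h13) (
  .cons (fun d hd h0 => nx h0) (
  .cons (fun d hd h0 h1 h2 h3 h4 h5 h6 h7 h8 h9 => hk a (by simp) b (by simp) x (by simp) y (by simp) x2 (by simp) ⟨h0, h1, h2, h3, h4, h5, h6, h7, h8, h9⟩) (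
  .cons (fun d hd h0 => h0 e.1) (
  .cons (fun d hd h0 => h0 e.2.1) (
  .cons (fun d hd h0 => h0 e.2.2.1) (
  .cons (fun d hd h0 => h0 e.2.2.2.1) (
  .cons (fun d hd h0 => h0 e.2.2.2.2.1) (
  .cons (fun d hd h0 => h0 e.2.2.2.2.2.1) (
  .cons (fun d hd h0 => h0 e.2.2.2.2.2.2.1) (
  .cons (fun d hd h0 => h0 e.2.2.2.2.2.2.2.1) (
  .cons (fun d hd h0 => h0 e.2.2.2.2.2.2.2.2.1) (
  .cons (fun d hd h0 => h0 e.2.2.2.2.2.2.2.2.2) (
  .cons (fun d hd h0 => h0 hw) (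
  .cons (fun d hd h0 => h0 g1) (
  .cons (fun d hd h0 => h0 g2) (
  .cons (fun d hd h0 => m1 h0) (
  .cons (fun d hd h0 => m2 h0) (
  .nil)))))))))))))))))))))))))))))))))

/-- templates -/
def db10_x : List Tm := [
  ⟨0, [], [], [.q true 2 8 10 9 11]⟩,
  ⟨1, [], [(0, 8), (0, 10), (0, 9), (0, 11)], [.b false 0 8 10, .b false 0 8 9, .b false 0 8 11, .b false 0 8 0, .b false 0 10 9, .b false 0 10 11, .b false 0 10 0, .b false 0 9 11, .b false 0 9 0, .b false 0 11 0, .q false 0 0 8 10 9, .q false 0 0 11 10 9, .q true 2 8 10 0 11, .q true 2 9 11 8 0]⟩,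
  ⟨1, [], [(0, 8), (0, 10), (0, 9), (0, 11)], [.b false 0 8 10, .b false 0 8 11, .b false 0 8 9, .b false 0 8 0, .b false 0 10 11, .b false 0 10 9, .b false 0 10 0, .b false 0 11 9, .b false 0 11 0, .b false 0 9 0, .q false 0 0 8 10 11, .q false 0 0 9 10 11, .q true 2 8 10 0 9, .q true 2 11 9 8 0]⟩,
  ⟨1, [], [(0, 8), (0, 10), (0, 9), (0, 11)], [.b false 0 10 8, .b false 0 10 9, .b false 0 10 11, .b false 0 10 0, .b false 0 8 9, .b false 0 8 11, .b false 0 8 0, .b false 0 9 11, .b false 0 9 0, .b false 0 11 0, .q false 0 0 10 8 9, .q false 0 0 11 8 9, .q true 2 10 8 0 11, .q true 2 9 11 10 0]⟩,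
  ⟨1, [], [(0, 8), (0, 10), (0, 9), (0, 11)], [.b false 0 10 8, .b false 0 10 11, .b false 0 10 9, .b false 0 10 0, .b false 0 8 11, .b false 0 8 9, .b false 0 8 0, .b false 0 11 9, .b false 0 11 0, .b false 0 9 0, .q false 0 0 10 8 11, .q false 0 0 9 8 11, .q true 2 10 8 0 9, .q true 2 11 9 10 0]⟩,
  ⟨0, [], [], [.q true 3 8 12 9 11]⟩,
  ⟨1, [], [(0, 8), (0, 9), (0, 12), (0, 11)], [.b false 0 8 9, .b false 0 8 12, .b false 0 8 11, .b false 0 8 0, .b false 0 9 12, .b false 0 9 11, .b false 0 9 0, .b false 0 12 11, .b false 0 12 0, .b false 0 11 0, .q false 0 0 8 9 12, .q false 0 0 11 9 12, .q true 2 8 9 0 11, .q true 2 12 11 8 0, .q false 2 8 9 12 11, .q true 0 8 12 9 11]⟩,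
  ⟨1, [], [(0, 8), (0, 9), (0, 12), (0, 11)], [.b false 0 8 9, .b false 0 8 11, .b false 0 8 12, .b false 0 8 0, .b false 0 9 11, .b false 0 9 12, .b false 0 9 0, .b false 0 11 12, .b false 0 11 0, .b false 0 12 0, .q false 0 0 8 9 11, .q false 0 0 12 9 11, .q true 2 8 9 0 12, .q true 2 11 12 8 0, .q false 2 8 9 12 11, .q true 0 8 12 9 11]⟩,
  ⟨1, [], [(0, 8), (0, 9), (0, 12), (0, 11)], [.b false 0 9 8, .b false 0 9 12, .b false 0 9 11, .b false 0 9 0, .b false 0 8 12, .b false 0 8 11, .b false 0 8 0, .b false 0 12 11, .b false 0 12 0, .b false 0 11 0, .q false 0 0 9 8 12, .q false 0 0 11 8 12, .q true 2 9 8 0 11, .q true 2 12 11 9 0, .q false 2 8 9 12 11, .q true 0 8 12 9 11]⟩,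
  ⟨1, [], [(0, 8), (0, 9), (0, 12), (0, 11)], [.b false 0 9 8, .b false 0 9 11, .b false 0 9 12, .b false 0 9 0, .b false 0 8 11, .b false 0 8 12, .b false 0 8 0, .b false 0 11 12, .b false 0 11 0, .b false 0 12 0, .q false 0 0 9 8 11, .q false 0 0 12 8 11, .q true 2 9 8 0 12, .q true 2 11 12 9 0, .q false 2 8 9 12 11, .q true 0 8 12 9 11]⟩,
  ⟨1, [], [(0, 8), (0, 11), (0, 12), (0, 9)], [.b false 0 8 11, .b false 0 8 12, .b false 0 8 9, .b false 0 8 0, .b false 0 11 12, .b false 0 11 9, .b false 0 11 0, .b false 0 12 9, .b false 0 12 0, .b false 0 9 0, .q false 0 0 8 11 12, .q false 0 0 9 11 12, .q true 2 8 11 0 9, .q true 2 12 9 8 0, .q false 2 8 11 12 9, .q true 0 8 12 9 11]⟩,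
  ⟨1, [], [(0, 8), (0, 11), (0, 12), (0, 9)], [.b false 0 8 11, .b false 0 8 9, .b false 0 8 12, .b false 0 8 0, .b false 0 11 9, .b false 0 11 12, .b false 0 11 0, .b false 0 9 12, .b false 0 9 0, .b false 0 12 0, .q false 0 0 8 11 9, .q false 0 0 12 11 9, .q true 2 8 11 0 12, .q true 2 9 12 8 0, .q false 2 8 11 12 9, .q true 0 8 12 9 11]⟩,
  ⟨1, [], [(0, 8), (0, 11), (0, 12), (0, 9)], [.b false 0 11 8, .b false 0 11 12, .b false 0 11 9, .b false 0 11 0, .b false 0 8 12, .b false 0 8 9, .b false 0 8 0, .b false 0 12 9, .b false 0 12 0, .b false 0 9 0, .q false 0 0 11 8 12, .q false 0 0 9 8 12, .q true 2 11 8 0 9, .q true 2 12 9 11 0, .q false 2 8 11 12 9, .q true 0 8 12 9 11]⟩,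
  ⟨1, [], [(0, 8), (0, 11), (0, 12), (0, 9)], [.b false 0 11 8, .b false 0 11 9, .b false 0 11 12, .b false 0 11 0, .b false 0 8 9, .b false 0 8 12, .b false 0 8 0, .b false 0 9 12, .b false 0 9 0, .b false 0 12 0, .q false 0 0 11 8 9, .q false 0 0 12 8 9, .q true 2 11 8 0 12, .q true 2 9 12 11 0, .q false 2 8 11 12 9, .q true 0 8 12 9 11]⟩,
  ⟨0, [], [], [.q false 0 8 12 9 10]⟩,
  ⟨0, [], [], [.b false 0 8 9, .b false 0 8 10, .b false 0 8 11, .b false 0 8 12, .b false 0 9 10, .b false 0 9 11, .b false 0 9 12, .b false 0 10 11, .b false 0 10 12, .b false 0 11 12]⟩,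
  ⟨0, [], [], [.b true 0 8 10]⟩,
  ⟨0, [], [], [.b true 0 8 9]⟩,
  ⟨0, [], [], [.b true 0 8 12]⟩,
  ⟨0, [], [], [.b true 0 8 13]⟩,
  ⟨0, [], [], [.b true 0 10 9]⟩,
  ⟨0, [], [], [.b true 0 10 12]⟩,
  ⟨0, [], [], [.b true 0 10 13]⟩,
  ⟨0, [], [], [.b true 0 9 12]⟩,
  ⟨0, [], [], [.b true 0 9 13]⟩,
  ⟨0, [], [], [.b true 0 12 13]⟩,
  ⟨0, [], [], [.q true 2 8 10 9 12]⟩,
  ⟨0, [], [], [.q true 0 13 8 10 9]⟩,
  ⟨0, [], [], [.q true 0 13 12 10 9]⟩,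
  ⟨0, [], [], [.q false 2 8 10 13 12]⟩,
  ⟨0, [], [], [.q false 2 9 12 8 13]⟩]

def db10_p0 : List Nat := [
0x6240090000000810001000201,
0x2640090000000810006000201,
0x462090000000810004000201,
0x2604090000000810008000201,
0x62400b00000008104b2000201,
0xa830000000020000000060000000040000000080307024b03ec03f003f803f903fa03fb062606f200050a,
0x62801900000008b0530000201,
0x9f00000000200000000600000000400000000803ec03f003f303f403f503f6000506,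
0x82400b0000000b5054a000201,
0x84200100000009d0000000120189000301,
0x286400700000000a00000001205ae000301,
0x4a20030000000b7069e000201,
0x2a40030000000b70662000201,
0x8a0420700000009d0000000b70355000301,
0xa8420070000000140000000180349000301,
0x2a6400700000000a00000001a06ee000301,
0x2a8400700000001200000001a073a000301,
0xa8420300000001c06c6000201,
0x8a420300000001c0686000201,
0xa8200300000001e067e000201,
0x8a200300000001e0642000201,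
0xa8200b00000001e0734000201,
0x280a40700000001800000002406c2000301,
0xa4801700000002e0000000220000000b30000000a10000000a50000000ab0000000a70000000ad0000000bb06c5000a01,
0xa2800f00000002c0000000280000000b30000000020000000af0000000a70000000bd0681000801,
0x86a203d00000000c00000001000000008b0000000320000000b70000000ad0000000b10000000a70000000a10000000ab0000000a50000000af06f2030703fb03f0000d04,
0x82061b00080620d0000000040000000af00000000200000000e014505560007000603,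
0xc000a8461b00a6840270086a203d00826402f00000001000000003600482a607000a6820700a62800700480a607000a864030000000b70000000ad0000000b10000000a70000000a10000000080000000b30000000bb00000008b0000000320000000810000000b50000000ab0000000a50000000af00000002a000000028000000020074e070e001e02,
0x2608a39000a0860d000a8620f004a086070008a640300086a20b00086a213000a8620100000003800642a8050000000320000000a50000000040000000b30000000b10000000af00000001c000000016074e074d032703fb001204,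
0xa8061b00080a60d002a6802900064a80700480a607000a864030000000040000000b30000000a700000008b000000032000000020000000022074e0012000d02,
0x1000028a609000a682090000000ab0000000a50000000af0000000a10710000701,
0x80620d000000010000a8261100000003a00000003c00a62800700480a607000a864030000000040000000020000000af00000000e0000000ab0000000a50000000a100000003e000000028000000020074e001201,
0x642a80700000001c0000000400361000301,
0x8a6203000000042068a000201,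
0x864a2070000000260000000440676000301,
0xa806205000a0620d00080620d0086a20390000000100000000420000000040000000020000000b10000000af00000000e00000008b0000000320000000ab0000000a50000000a103fb03f6001002,
0x34000a0620d000a6420100862a00700862a407004a0860700086a41300a60843900a6840270086a203d00826402f0000000480000000040000000020000000b100000004600000002a0000000240000000160000000300000000bb00000008b0000000320000000810000000b503fb001901,
0x4a861100000004a02e8000201,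
0xa60843d00000003000000004a00000004c05b0000401,
0x82640270000000b500000008100000004e0007000401,
0x826402f0000000b500000008100000004e000d000401,
0x100000000a10000000af0000000a50000000ab000000050000000052000700]

def db10_pf : List Nat := db10_p0

theorem db10_ref {V : Type} {S : SRel V} {p : Nat → V} (hp : ∀ i j, i < 6 → j < 6 → p i = p j → i = j)
    (hts : PHs S p 6 ((tO ++ (tB ++ (tR ++ (tF ++ tK)))) ++ db10_x)) : False :=
  refuteS (k := 6) (n2 := 1) (n3 := 1) (n4 := 4) (o3 := 21) (o4 := 77) (M := 1001) ((tO ++ (tB ++ (tR ++ (tF ++ tK)))) ++ db10_x) db10_pf (by decide +kernel)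
    (by decide +kernel) (by decide +kernel) (by decide +kernel) hp hts

theorem db10 {V : Type} {G : SimpleGraph V} {X W : V → V → V → V → Prop} (h : WF G X W) {a b x y x2 t : V}
    (nd : [a, b, x, y, x2, t].Nodup) (a1 : Pr G X W a x b y) (a2 : IF G X W a x2 b y) (nx : ¬ X a x2 b x) (hk : K5F G [a, b, x, y, x2])
    (e : K5 G a x b x2 t) (hw : W a x b x2) (g1 : X t a x b) (g2 : X t x2 x b)
    (m1 : ¬ W a x t x2) (m2 : ¬ W b x2 a t) : False :=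
  db10_ref (S := (syW h).rel) (pt_inj (o := a) nd rfl) (PHs.app (UHs.phs ((tO_h h).app ((tB_h h).app ((tR_h h).app ((tF_h h).app (tK_h h))))) _ _) (
  .cons (fun d hd h0 => h0 a1.1) (
  .cons (fun d hd m0 m1 m2 m3 h0 h1 h2 h3 h4 h5 h6 h7 h8 h9 h10 h11 h12 h13 => ((a1.2).1 (d 0) ⟨h0, h1, h2, h3, h4, h5, h6, h7, h8, h9⟩ h10 h11).elim h12 h13) (
  .cons (fun d hd m0 m1 m2 m3 h0 h1 h2 h3 h4 h5 h6 h7 h8 h9 h10 h11 h12 h13 => ((a1.2).2.1 (d 0) ⟨h0, h1, h2, h3, h4, h5, h6, h7, h8, h9⟩ h10 h11).elim h12 h13) (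
  .cons (fun d hd m0 m1 m2 m3 h0 h1 h2 h3 h4 h5 h6 h7 h8 h9 h10 h11 h12 h13 => ((a1.2).2.2.1 (d 0) ⟨h0, h1, h2, h3, h4, h5, h6, h7, h8, h9⟩ h10 h11).elim h12 h13) (
  .cons (fun d hd m0 m1 m2 m3 h0 h1 h2 h3 h4 h5 h6 h7 h8 h9 h10 h11 h12 h13 => ((a1.2).2.2.2 (d 0) ⟨h0, h1, h2, h3, h4, h5, h6, h7, h8, h9⟩ h10 h11).elim h12 h13) (
  .cons (fun d hd h0 => h0 a2.1) (
  .cons (fun d hd m0 m1 m2 m3 h0 h1 h2 h3 h4 h5 h6 h7 h8 h9 h10 h11 h12 h13 h14 h15 => ((a2.2.1 h14 h15).1 (d 0) ⟨h0, h1, h2, h3, h4, h5, h6, h7, h8, h9⟩ h10 h11).elim h12 h13) (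
  .cons (fun d hd m0 m1 m2 m3 h0 h1 h2 h3 h4 h5 h6 h7 h8 h9 h10 h11 h12 h13 h14 h15 => ((a2.2.1 h14 h15).2.1 (d 0) ⟨h0, h1, h2, h3, h4, h5, h6, h7, h8, h9⟩ h10 h11).elim h12 h13) (
  .cons (fun d hd m0 m1 m2 m3 h0 h1 h2 h3 h4 h5 h6 h7 h8 h9 h10 h11 h12 h13 h14 h15 => ((a2.2.1 h14 h15).2.2.1 (d 0) ⟨h0, h1, h2, h3, h4, h5, h6, h7, h8, h9⟩ h10 h11).elim h12 h13) (
  .cons (fun d hd m0 m1 m2 m3 h0 h1 h2 h3 h4 h5 h6 h7 h8 h9 h10 h11 h12 h13 h14 h15 => ((a2.2.1 h14 h15).2.2.2 (d 0) ⟨h0, h1, h2, h3, h4, h5, h6, h7, h8, h9⟩ h10 h11).elim h12 h13) (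
  .cons (fun d hd m0 m1 m2 m3 h0 h1 h2 h3 h4 h5 h6 h7 h8 h9 h10 h11 h12 h13 h14 h15 => ((a2.2.2 h14 h15).1 (d 0) ⟨h0, h1, h2, h3, h4, h5, h6, h7, h8, h9⟩ h10 h11).elim h12 h13) (
  .cons (fun d hd m0 m1 m2 m3 h0 h1 h2 h3 h4 h5 h6 h7 h8 h9 h10 h11 h12 h13 h14 h15 => ((a2.2.2 h14 h15).2.1 (d 0) ⟨h0, h1, h2, h3, h4, h5, h6, h7, h8, h9⟩ h10 h11).elim h12 h13) (
  .cons (fun d hd m0 m1 m2 m3 h0 h1 h2 h3 h4 h5 h6 h7 h8 h9 h10 h11 h12 h13 h14 h15 => ((a2.2.2 h14 h15).2.2.1 (d 0) ⟨h0, h1, h2, h3, h4, h5, h6, h7, h8, h9⟩ h10 h11).elim h12 h13) (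
  .cons (fun d hd m0 m1 m2 m3 h0 h1 h2 h3 h4 h5 h6 h7 h8 h9 h10 h11 h12 h13 h14 h15 => ((a2.2.2 h14 h15).2.2.2 (d 0) ⟨h0, h1, h2, h3, h4, h5, h6, h7, h8, h9⟩ h10 h11).elim h12 h13) (
  .cons (fun d hd h0 => nx h0) (
  .cons (fun d hd h0 h1 h2 h3 h4 h5 h6 h7 h8 h9 => hk a (by simp) b (by simp) x (by simp) y (by simp) x2 (by simp) ⟨h0, h1, h2, h3, h4, h5, h6, h7, h8, h9⟩) (
  .cons (fun d hd h0 => h0 e.1) (
  .cons (fun d hd h0 => h0 e.2.1) (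
  .cons (fun d hd h0 => h0 e.2.2.1) (
  .cons (fun d hd h0 => h0 e.2.2.2.1) (
  .cons (fun d hd h0 => h0 e.2.2.2.2.1) (
  .cons (fun d hd h0 => h0 e.2.2.2.2.2.1) (
  .cons (fun d hd h0 => h0 e.2.2.2.2.2.2.1) (
  .cons (fun d hd h0 => h0 e.2.2.2.2.2.2.2.1) (
  .cons (fun d hd h0 => h0 e.2.2.2.2.2.2.2.2.1) (
  .cons (fun d hd h0 => h0 e.2.2.2.2.2.2.2.2.2) (
  .cons (fun d hd h0 => h0 hw) (
  .cons (fun d hd h0 => h0 g1) (
  .cons (fun d hd h0 => h0 g2) (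
  .cons (fun d hd h0 => m1 h0) (
  .cons (fun d hd h0 => m2 h0) (
  .nil)))))))))))))))))))))))))))))))))

/-- templates -/
def db11_x : List Tm := [
  ⟨0, [], [], [.q true 2 8 10 9 11]⟩,
  ⟨1, [], [(0, 8), (0, 10), (0, 9), (0, 11)], [.b false 0 8 10, .b false 0 8 9, .b false 0 8 11, .b false 0 8 0, .b false 0 10 9, .b false 0 10 11, .b false 0 10 0, .b false 0 9 11, .b false 0 9 0, .b false 0 11 0, .q false 0 0 8 10 9, .q false 0 0 11 10 9, .q true 2 8 10 0 11, .q true 2 9 11 8 0]⟩,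
  ⟨1, [], [(0, 8), (0, 10), (0, 9), (0, 11)], [.b false 0 8 10, .b false 0 8 11, .b false 0 8 9, .b false 0 8 0, .b false 0 10 11, .b false 0 10 9, .b false 0 10 0, .b false 0 11 9, .b false 0 11 0, .b false 0 9 0, .q false 0 0 8 10 11, .q false 0 0 9 10 11, .q true 2 8 10 0 9, .q true 2 11 9 8 0]⟩,
  ⟨1, [], [(0, 8), (0, 10), (0, 9), (0, 11)], [.b false 0 10 8, .b false 0 10 9, .b false 0 10 11, .b false 0 10 0, .b false 0 8 9, .b false 0 8 11, .b false 0 8 0, .b false 0 9 11, .b false 0 9 0, .b false 0 11 0, .q false 0 0 10 8 9, .q false 0 0 11 8 9, .q true 2 10 8 0 11, .q true 2 9 11 10 0]⟩,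
  ⟨1, [], [(0, 8), (0, 10), (0, 9), (0, 11)], [.b false 0 10 8, .b false 0 10 11, .b false 0 10 9, .b false 0 10 0, .b false 0 8 11, .b false 0 8 9, .b false 0 8 0, .b false 0 11 9, .b false 0 11 0, .b false 0 9 0, .q false 0 0 10 8 11, .q false 0 0 9 8 11, .q true 2 10 8 0 9, .q true 2 11 9 10 0]⟩,
  ⟨0, [], [], [.q true 3 8 12 9 11]⟩,
  ⟨1, [], [(0, 8), (0, 9), (0, 12), (0, 11)], [.b false 0 8 9, .b false 0 8 12, .b false 0 8 11, .b false 0 8 0, .b false 0 9 12, .b false 0 9 11, .b false 0 9 0, .b false 0 12 11, .b false 0 12 0, .b false 0 11 0, .q false 0 0 8 9 12, .q false 0 0 11 9 12, .q true 2 8 9 0 11, .q true 2 12 11 8 0, .q false 2 8 9 12 11, .q true 0 8 12 9 11]⟩,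
  ⟨1, [], [(0, 8), (0, 9), (0, 12), (0, 11)], [.b false 0 8 9, .b false 0 8 11, .b false 0 8 12, .b false 0 8 0, .b false 0 9 11, .b false 0 9 12, .b false 0 9 0, .b false 0 11 12, .b false 0 11 0, .b false 0 12 0, .q false 0 0 8 9 11, .q false 0 0 12 9 11, .q true 2 8 9 0 12, .q true 2 11 12 8 0, .q false 2 8 9 12 11, .q true 0 8 12 9 11]⟩,
  ⟨1, [], [(0, 8), (0, 9), (0, 12), (0, 11)], [.b false 0 9 8, .b false 0 9 12, .b false 0 9 11, .b false 0 9 0, .b false 0 8 12, .b false 0 8 11, .b false 0 8 0, .b false 0 12 11, .b false 0 12 0, .b false 0 11 0, .q false 0 0 9 8 12, .q false 0 0 11 8 12, .q true 2 9 8 0 11, .q true 2 12 11 9 0, .q false 2 8 9 12 11, .q true 0 8 12 9 11]⟩,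
  ⟨1, [], [(0, 8), (0, 9), (0, 12), (0, 11)], [.b false 0 9 8, .b false 0 9 11, .b false 0 9 12, .b false 0 9 0, .b false 0 8 11, .b false 0 8 12, .b false 0 8 0, .b false 0 11 12, .b false 0 11 0, .b false 0 12 0, .q false 0 0 9 8 11, .q false 0 0 12 8 11, .q true 2 9 8 0 12, .q true 2 11 12 9 0, .q false 2 8 9 12 11, .q true 0 8 12 9 11]⟩,
  ⟨1, [], [(0, 8), (0, 11), (0, 12), (0, 9)], [.b false 0 8 11, .b false 0 8 12, .b false 0 8 9, .b false 0 8 0, .b false 0 11 12, .b false 0 11 9, .b false 0 11 0, .b false 0 12 9, .b false 0 12 0, .b false 0 9 0, .q false 0 0 8 11 12, .q false 0 0 9 11 12, .q true 2 8 11 0 9, .q true 2 12 9 8 0, .q false 2 8 11 12 9, .q true 0 8 12 9 11]⟩,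
  ⟨1, [], [(0, 8), (0, 11), (0, 12), (0, 9)], [.b false 0 8 11, .b false 0 8 9, .b false 0 8 12, .b false 0 8 0, .b false 0 11 9, .b false 0 11 12, .b false 0 11 0, .b false 0 9 12, .b false 0 9 0, .b false 0 12 0, .q false 0 0 8 11 9, .q false 0 0 12 11 9, .q true 2 8 11 0 12, .q true 2 9 12 8 0, .q false 2 8 11 12 9, .q true 0 8 12 9 11]⟩,
  ⟨1, [], [(0, 8), (0, 11), (0, 12), (0, 9)], [.b false 0 11 8, .b false 0 11 12, .b false 0 11 9, .b false 0 11 0, .b false 0 8 12, .b false 0 8 9, .b false 0 8 0, .b false 0 12 9, .b false 0 12 0, .b false 0 9 0, .q false 0 0 11 8 12, .q false 0 0 9 8 12, .q true 2 11 8 0 9, .q true 2 12 9 11 0, .q false 2 8 11 12 9, .q true 0 8 12 9 11]⟩,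
  ⟨1, [], [(0, 8), (0, 11), (0, 12), (0, 9)], [.b false 0 11 8, .b false 0 11 9, .b false 0 11 12, .b false 0 11 0, .b false 0 8 9, .b false 0 8 12, .b false 0 8 0, .b false 0 9 12, .b false 0 9 0, .b false 0 12 0, .q false 0 0 11 8 9, .q false 0 0 12 8 9, .q true 2 11 8 0 12, .q true 2 9 12 11 0, .q false 2 8 11 12 9, .q true 0 8 12 9 11]⟩,
  ⟨0, [], [], [.q false 0 8 12 9 10]⟩,
  ⟨0, [], [], [.b false 0 8 9, .b false 0 8 10, .b false 0 8 11, .b false 0 8 12, .b false 0 9 10, .b false 0 9 11, .b false 0 9 12, .b false 0 10 11, .b false 0 10 12, .b false 0 11 12]⟩,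
  ⟨0, [], [], [.b true 0 8 10]⟩,
  ⟨0, [], [], [.b true 0 8 9]⟩,
  ⟨0, [], [], [.b true 0 8 12]⟩,
  ⟨0, [], [], [.b true 0 8 13]⟩,
  ⟨0, [], [], [.b true 0 10 9]⟩,
  ⟨0, [], [], [.b true 0 10 12]⟩,
  ⟨0, [], [], [.b true 0 10 13]⟩,
  ⟨0, [], [], [.b true 0 9 12]⟩,
  ⟨0, [], [], [.b true 0 9 13]⟩,
  ⟨0, [], [], [.b true 0 12 13]⟩,
  ⟨0, [], [], [.q true 2 8 10 9 12]⟩,
  ⟨0, [], [], [.q true 0 13 8 10 12]⟩,
  ⟨0, [], [], [.q true 0 13 9 10 12]⟩,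
  ⟨0, [], [], [.q false 2 8 10 13 9]⟩,
  ⟨0, [], [], [.q false 2 12 9 8 13]⟩]

def db11_p0 : List Nat := [
0x82400b0000000b5054a000201,
0x84200100000009d0000000020189000301,
0xa2084050000000040000000b70686000301,
0xb9000000006000200]

def db11_pf : List Nat := db11_p0

theorem db11_ref {V : Type} {S : SRel V} {p : Nat → V} (hp : ∀ i j, i < 6 → j < 6 → p i = p j → i = j)
    (hts : PHs S p 6 ((tO ++ (tB ++ (tR ++ (tF ++ tK)))) ++ db11_x)) : False :=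
  refuteS (k := 6) (n2 := 1) (n3 := 1) (n4 := 4) (o3 := 21) (o4 := 77) (M := 1001) ((tO ++ (tB ++ (tR ++ (tF ++ tK)))) ++ db11_x) db11_pf (by decide +kernel)
    (by decide +kernel) (by decide +kernel) (by decide +kernel) hp hts

theorem db11 {V : Type} {G : SimpleGraph V} {X W : V → V → V → V → Prop} (h : WF G X W) {a b x y x2 t : V}
    (nd : [a, b, x, y, x2, t].Nodup) (a1 : Pr G X W a x b y) (a2 : IF G X W a x2 b y) (nx : ¬ X a x2 b x) (hk : K5F G [a, b, x, y, x2])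
    (e : K5 G a x b x2 t) (hw : W a x b x2) (g1 : X t a x x2) (g2 : X t b x x2)
    (m1 : ¬ W a x t b) (m2 : ¬ W x2 b a t) : False :=
  db11_ref (S := (syW h).rel) (pt_inj (o := a) nd rfl) (PHs.app (UHs.phs ((tO_h h).app ((tB_h h).app ((tR_h h).app ((tF_h h).app (tK_h h))))) _ _) (
  .cons (fun d hd h0 => h0 a1.1) (
  .cons (fun d hd m0 m1 m2 m3 h0 h1 h2 h3 h4 h5 h6 h7 h8 h9 h10 h11 h12 h13 => ((a1.2).1 (d 0) ⟨h0, h1, h2, h3, h4, h5, h6, h7, h8, h9⟩ h10 h11).elim h12 h13) (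
  .cons (fun d hd m0 m1 m2 m3 h0 h1 h2 h3 h4 h5 h6 h7 h8 h9 h10 h11 h12 h13 => ((a1.2).2.1 (d 0) ⟨h0, h1, h2, h3, h4, h5, h6, h7, h8, h9⟩ h10 h11).elim h12 h13) (
  .cons (fun d hd m0 m1 m2 m3 h0 h1 h2 h3 h4 h5 h6 h7 h8 h9 h10 h11 h12 h13 => ((a1.2).2.2.1 (d 0) ⟨h0, h1, h2, h3, h4, h5, h6, h7, h8, h9⟩ h10 h11).elim h12 h13) (
  .cons (fun d hd m0 m1 m2 m3 h0 h1 h2 h3 h4 h5 h6 h7 h8 h9 h10 h11 h12 h13 => ((a1.2).2.2.2 (d 0) ⟨h0, h1, h2, h3, h4, h5, h6, h7, h8, h9⟩ h10 h11).elim h12 h13) (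
  .cons (fun d hd h0 => h0 a2.1) (
  .cons (fun d hd m0 m1 m2 m3 h0 h1 h2 h3 h4 h5 h6 h7 h8 h9 h10 h11 h12 h13 h14 h15 => ((a2.2.1 h14 h15).1 (d 0) ⟨h0, h1, h2, h3, h4, h5, h6, h7, h8, h9⟩ h10 h11).elim h12 h13) (
  .cons (fun d hd m0 m1 m2 m3 h0 h1 h2 h3 h4 h5 h6 h7 h8 h9 h10 h11 h12 h13 h14 h15 => ((a2.2.1 h14 h15).2.1 (d 0) ⟨h0, h1, h2, h3, h4, h5, h6, h7, h8, h9⟩ h10 h11).elim h12 h13) (
  .cons (fun d hd m0 m1 m2 m3 h0 h1 h2 h3 h4 h5 h6 h7 h8 h9 h10 h11 h12 h13 h14 h15 => ((a2.2.1 h14 h15).2.2.1 (d 0) ⟨h0, h1, h2, h3, h4, h5, h6, h7, h8, h9⟩ h10 h11).elim h12 h13) (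
  .cons (fun d hd m0 m1 m2 m3 h0 h1 h2 h3 h4 h5 h6 h7 h8 h9 h10 h11 h12 h13 h14 h15 => ((a2.2.1 h14 h15).2.2.2 (d 0) ⟨h0, h1, h2, h3, h4, h5, h6, h7, h8, h9⟩ h10 h11).elim h12 h13) (
  .cons (fun d hd m0 m1 m2 m3 h0 h1 h2 h3 h4 h5 h6 h7 h8 h9 h10 h11 h12 h13 h14 h15 => ((a2.2.2 h14 h15).1 (d 0) ⟨h0, h1, h2, h3, h4, h5, h6, h7, h8, h9⟩ h10 h11).elim h12 h13) (
  .cons (fun d hd m0 m1 m2 m3 h0 h1 h2 h3 h4 h5 h6 h7 h8 h9 h10 h11 h12 h13 h14 h15 => ((a2.2.2 h14 h15).2.1 (d 0) ⟨h0, h1, h2, h3, h4, h5, h6, h7, h8, h9⟩ h10 h11).elim h12 h13) (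
  .cons (fun d hd m0 m1 m2 m3 h0 h1 h2 h3 h4 h5 h6 h7 h8 h9 h10 h11 h12 h13 h14 h15 => ((a2.2.2 h14 h15).2.2.1 (d 0) ⟨h0, h1, h2, h3, h4, h5, h6, h7, h8, h9⟩ h10 h11).elim h12 h13) (
  .cons (fun d hd m0 m1 m2 m3 h0 h1 h2 h3 h4 h5 h6 h7 h8 h9 h10 h11 h12 h13 h14 h15 => ((a2.2.2 h14 h15).2.2.2 (d 0) ⟨h0, h1, h2, h3, h4, h5, h6, h7, h8, h9⟩ h10 h11).elim h12 h13) (
  .cons (fun d hd h0 => nx h0) (
  .cons (fun d hd h0 h1 h2 h3 h4 h5 h6 h7 h8 h9 => hk a (by simp) b (by simp) x (by simp) y (by simp) x2 (by simp) ⟨h0, h1, h2, h3, h4, h5, h6, h7, h8, h9⟩) (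
  .cons (fun d hd h0 => h0 e.1) (
  .cons (fun d hd h0 => h0 e.2.1) (
  .cons (fun d hd h0 => h0 e.2.2.1) (
  .cons (fun d hd h0 => h0 e.2.2.2.1) (
  .cons (fun d hd h0 => h0 e.2.2.2.2.1) (
  .cons (fun d hd h0 => h0 e.2.2.2.2.2.1) (
  .cons (fun d hd h0 => h0 e.2.2.2.2.2.2.1) (
  .cons (fun d hd h0 => h0 e.2.2.2.2.2.2.2.1) (
  .cons (fun d hd h0 => h0 e.2.2.2.2.2.2.2.2.1) (
  .cons (fun d hd h0 => h0 e.2.2.2.2.2.2.2.2.2) (
  .cons (fun d hd h0 => h0 hw) (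
  .cons (fun d hd h0 => h0 g1) (
  .cons (fun d hd h0 => h0 g2) (
  .cons (fun d hd h0 => m1 h0) (
  .cons (fun d hd h0 => m2 h0) (
  .nil)))))))))))))))))))))))))))))))))

/-- templates -/
def db12_x : List Tm := [
  ⟨0, [], [], [.q true 2 8 10 9 11]⟩,
  ⟨1, [], [(0, 8), (0, 10), (0, 9), (0, 11)], [.b false 0 8 10, .b false 0 8 9, .b false 0 8 11, .b false 0 8 0, .b false 0 10 9, .b false 0 10 11, .b false 0 10 0, .b false 0 9 11, .b false 0 9 0, .b false 0 11 0, .q false 0 0 8 10 9, .q false 0 0 11 10 9, .q true 2 8 10 0 11, .q true 2 9 11 8 0]⟩,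
  ⟨1, [], [(0, 8), (0, 10), (0, 9), (0, 11)], [.b false 0 8 10, .b false 0 8 11, .b false 0 8 9, .b false 0 8 0, .b false 0 10 11, .b false 0 10 9, .b false 0 10 0, .b false 0 11 9, .b false 0 11 0, .b false 0 9 0, .q false 0 0 8 10 11, .q false 0 0 9 10 11, .q true 2 8 10 0 9, .q true 2 11 9 8 0]⟩,
  ⟨1, [], [(0, 8), (0, 10), (0, 9), (0, 11)], [.b false 0 10 8, .b false 0 10 9, .b false 0 10 11, .b false 0 10 0, .b false 0 8 9, .b false 0 8 11, .b false 0 8 0, .b false 0 9 11, .b false 0 9 0, .b false 0 11 0, .q false 0 0 10 8 9, .q false 0 0 11 8 9, .q true 2 10 8 0 11, .q true 2 9 11 10 0]⟩,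
  ⟨1, [], [(0, 8), (0, 10), (0, 9), (0, 11)], [.b false 0 10 8, .b false 0 10 11, .b false 0 10 9, .b false 0 10 0, .b false 0 8 11, .b false 0 8 9, .b false 0 8 0, .b false 0 11 9, .b false 0 11 0, .b false 0 9 0, .q false 0 0 10 8 11, .q false 0 0 9 8 11, .q true 2 10 8 0 9, .q true 2 11 9 10 0]⟩,
  ⟨0, [], [], [.q true 3 8 12 9 11]⟩,
  ⟨1, [], [(0, 8), (0, 9), (0, 12), (0, 11)], [.b false 0 8 9, .b false 0 8 12, .b false 0 8 11, .b false 0 8 0, .b false 0 9 12, .b false 0 9 11, .b false 0 9 0, .b false 0 12 11, .b false 0 12 0, .b false 0 11 0, .q false 0 0 8 9 12, .q false 0 0 11 9 12, .q true 2 8 9 0 11, .q true 2 12 11 8 0, .q false 2 8 9 12 11, .q true 0 8 12 9 11]⟩,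
  ⟨1, [], [(0, 8), (0, 9), (0, 12), (0, 11)], [.b false 0 8 9, .b false 0 8 11, .b false 0 8 12, .b false 0 8 0, .b false 0 9 11, .b false 0 9 12, .b false 0 9 0, .b false 0 11 12, .b false 0 11 0, .b false 0 12 0, .q false 0 0 8 9 11, .q false 0 0 12 9 11, .q true 2 8 9 0 12, .q true 2 11 12 8 0, .q false 2 8 9 12 11, .q true 0 8 12 9 11]⟩,
  ⟨1, [], [(0, 8), (0, 9), (0, 12), (0, 11)], [.b false 0 9 8, .b false 0 9 12, .b false 0 9 11, .b false 0 9 0, .b false 0 8 12, .b false 0 8 11, .b false 0 8 0, .b false 0 12 11, .b false 0 12 0, .b false 0 11 0, .q false 0 0 9 8 12, .q false 0 0 11 8 12, .q true 2 9 8 0 11, .q true 2 12 11 9 0, .q false 2 8 9 12 11, .q true 0 8 12 9 11]⟩,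
  ⟨1, [], [(0, 8), (0, 9), (0, 12), (0, 11)], [.b false 0 9 8, .b false 0 9 11, .b false 0 9 12, .b false 0 9 0, .b false 0 8 11, .b false 0 8 12, .b false 0 8 0, .b false 0 11 12, .b false 0 11 0, .b false 0 12 0, .q false 0 0 9 8 11, .q false 0 0 12 8 11, .q true 2 9 8 0 12, .q true 2 11 12 9 0, .q false 2 8 9 12 11, .q true 0 8 12 9 11]⟩,
  ⟨1, [], [(0, 8), (0, 11), (0, 12), (0, 9)], [.b false 0 8 11, .b false 0 8 12, .b false 0 8 9, .b false 0 8 0, .b false 0 11 12, .b false 0 11 9, .b false 0 11 0, .b false 0 12 9, .b false 0 12 0, .b false 0 9 0, .q false 0 0 8 11 12, .q false 0 0 9 11 12, .q true 2 8 11 0 9, .q true 2 12 9 8 0, .q false 2 8 11 12 9, .q true 0 8 12 9 11]⟩,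
  ⟨1, [], [(0, 8), (0, 11), (0, 12), (0, 9)], [.b false 0 8 11, .b false 0 8 9, .b false 0 8 12, .b false 0 8 0, .b false 0 11 9, .b false 0 11 12, .b false 0 11 0, .b false 0 9 12, .b false 0 9 0, .b false 0 12 0, .q false 0 0 8 11 9, .q false 0 0 12 11 9, .q true 2 8 11 0 12, .q true 2 9 12 8 0, .q false 2 8 11 12 9, .q true 0 8 12 9 11]⟩,
  ⟨1, [], [(0, 8), (0, 11), (0, 12), (0, 9)], [.b false 0 11 8, .b false 0 11 12, .b false 0 11 9, .b false 0 11 0, .b false 0 8 12, .b false 0 8 9, .b false 0 8 0, .b false 0 12 9, .b false 0 12 0, .b false 0 9 0, .q false 0 0 11 8 12, .q false 0 0 9 8 12, .q true 2 11 8 0 9, .q true 2 12 9 11 0, .q false 2 8 11 12 9, .q true 0 8 12 9 11]⟩,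
  ⟨1, [], [(0, 8), (0, 11), (0, 12), (0, 9)], [.b false 0 11 8, .b false 0 11 9, .b false 0 11 12, .b false 0 11 0, .b false 0 8 9, .b false 0 8 12, .b false 0 8 0, .b false 0 9 12, .b false 0 9 0, .b false 0 12 0, .q false 0 0 11 8 9, .q false 0 0 12 8 9, .q true 2 11 8 0 12, .q true 2 9 12 11 0, .q false 2 8 11 12 9, .q true 0 8 12 9 11]⟩,
  ⟨0, [], [], [.q false 0 8 12 9 10]⟩,
  ⟨0, [], [], [.b false 0 8 9, .b false 0 8 10, .b false 0 8 11, .b false 0 8 12, .b false 0 9 10, .b false 0 9 11, .b false 0 9 12, .b false 0 10 11, .b false 0 10 12, .b false 0 11 12]⟩,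
  ⟨0, [], [], [.b true 0 8 10]⟩,
  ⟨0, [], [], [.b true 0 8 9]⟩,
  ⟨0, [], [], [.b true 0 8 12]⟩,
  ⟨0, [], [], [.b true 0 8 13]⟩,
  ⟨0, [], [], [.b true 0 10 9]⟩,
  ⟨0, [], [], [.b true 0 10 12]⟩,
  ⟨0, [], [], [.b true 0 10 13]⟩,
  ⟨0, [], [], [.b true 0 9 12]⟩,
  ⟨0, [], [], [.b true 0 9 13]⟩,
  ⟨0, [], [], [.b true 0 12 13]⟩,
  ⟨0, [], [], [.q true 2 8 10 9 12]⟩,
  ⟨0, [], [], [.q true 0 13 10 8 9]⟩,
  ⟨0, [], [], [.q true 0 13 12 8 9]⟩,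
  ⟨0, [], [], [.q false 2 10 8 13 12]⟩,
  ⟨0, [], [], [.q false 2 9 12 10 13]⟩]

def db12_p0 : List Nat := [
0x82400b0000000b5054a000201,
0x84200100000009d0000000020189000301,
0xa8420050000000040000000b70732000301,
0xb9000000006000200]

def db12_pf : List Nat := db12_p0

theorem db12_ref {V : Type} {S : SRel V} {p : Nat → V} (hp : ∀ i j, i < 6 → j < 6 → p i = p j → i = j)
    (hts : PHs S p 6 ((tO ++ (tB ++ (tR ++ (tF ++ tK)))) ++ db12_x)) : False :=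
  refuteS (k := 6) (n2 := 1) (n3 := 1) (n4 := 4) (o3 := 21) (o4 := 77) (M := 1001) ((tO ++ (tB ++ (tR ++ (tF ++ tK)))) ++ db12_x) db12_pf (by decide +kernel)
    (by decide +kernel) (by decide +kernel) (by decide +kernel) hp hts

theorem db12 {V : Type} {G : SimpleGraph V} {X W : V → V → V → V → Prop} (h : WF G X W) {a b x y x2 t : V}
    (nd : [a, b, x, y, x2, t].Nodup) (a1 : Pr G X W a x b y) (a2 : IF G X W a x2 b y) (nx : ¬ X a x2 b x) (hk : K5F G [a, b, x, y, x2])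
    (e : K5 G a x b x2 t) (hw : W a x b x2) (g1 : X t x a b) (g2 : X t x2 a b)
    (m1 : ¬ W x a t x2) (m2 : ¬ W b x2 x t) : False :=
  db12_ref (S := (syW h).rel) (pt_inj (o := a) nd rfl) (PHs.app (UHs.phs ((tO_h h).app ((tB_h h).app ((tR_h h).app ((tF_h h).app (tK_h h))))) _ _) (
  .cons (fun d hd h0 => h0 a1.1) (
  .cons (fun d hd m0 m1 m2 m3 h0 h1 h2 h3 h4 h5 h6 h7 h8 h9 h10 h11 h12 h13 => ((a1.2).1 (d 0) ⟨h0, h1, h2, h3, h4, h5, h6, h7, h8, h9⟩ h10 h11).elim h12 h13) (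
  .cons (fun d hd m0 m1 m2 m3 h0 h1 h2 h3 h4 h5 h6 h7 h8 h9 h10 h11 h12 h13 => ((a1.2).2.1 (d 0) ⟨h0, h1, h2, h3, h4, h5, h6, h7, h8, h9⟩ h10 h11).elim h12 h13) (
  .cons (fun d hd m0 m1 m2 m3 h0 h1 h2 h3 h4 h5 h6 h7 h8 h9 h10 h11 h12 h13 => ((a1.2).2.2.1 (d 0) ⟨h0, h1, h2, h3, h4, h5, h6, h7, h8, h9⟩ h10 h11).elim h12 h13) (
  .cons (fun d hd m0 m1 m2 m3 h0 h1 h2 h3 h4 h5 h6 h7 h8 h9 h10 h11 h12 h13 => ((a1.2).2.2.2 (d 0) ⟨h0, h1, h2, h3, h4, h5, h6, h7, h8, h9⟩ h10 h11).elim h12 h13) (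
  .cons (fun d hd h0 => h0 a2.1) (
  .cons (fun d hd m0 m1 m2 m3 h0 h1 h2 h3 h4 h5 h6 h7 h8 h9 h10 h11 h12 h13 h14 h15 => ((a2.2.1 h14 h15).1 (d 0) ⟨h0, h1, h2, h3, h4, h5, h6, h7, h8, h9⟩ h10 h11).elim h12 h13) (
  .cons (fun d hd m0 m1 m2 m3 h0 h1 h2 h3 h4 h5 h6 h7 h8 h9 h10 h11 h12 h13 h14 h15 => ((a2.2.1 h14 h15).2.1 (d 0) ⟨h0, h1, h2, h3, h4, h5, h6, h7, h8, h9⟩ h10 h11).elim h12 h13) (
  .cons (fun d hd m0 m1 m2 m3 h0 h1 h2 h3 h4 h5 h6 h7 h8 h9 h10 h11 h12 h13 h14 h15 => ((a2.2.1 h14 h15).2.2.1 (d 0) ⟨h0, h1, h2, h3, h4, h5, h6, h7, h8, h9⟩ h10 h11).elim h12 h13) (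
  .cons (fun d hd m0 m1 m2 m3 h0 h1 h2 h3 h4 h5 h6 h7 h8 h9 h10 h11 h12 h13 h14 h15 => ((a2.2.1 h14 h15).2.2.2 (d 0) ⟨h0, h1, h2, h3, h4, h5, h6, h7, h8, h9⟩ h10 h11).elim h12 h13) (
  .cons (fun d hd m0 m1 m2 m3 h0 h1 h2 h3 h4 h5 h6 h7 h8 h9 h10 h11 h12 h13 h14 h15 => ((a2.2.2 h14 h15).1 (d 0) ⟨h0, h1, h2, h3, h4, h5, h6, h7, h8, h9⟩ h10 h11).elim h12 h13) (
  .cons (fun d hd m0 m1 m2 m3 h0 h1 h2 h3 h4 h5 h6 h7 h8 h9 h10 h11 h12 h13 h14 h15 => ((a2.2.2 h14 h15).2.1 (d 0) ⟨h0, h1, h2, h3, h4, h5, h6, h7, h8, h9⟩ h10 h11).elim h12 h13) (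
  .cons (fun d hd m0 m1 m2 m3 h0 h1 h2 h3 h4 h5 h6 h7 h8 h9 h10 h11 h12 h13 h14 h15 => ((a2.2.2 h14 h15).2.2.1 (d 0) ⟨h0, h1, h2, h3, h4, h5, h6, h7, h8, h9⟩ h10 h11).elim h12 h13) (
  .cons (fun d hd m0 m1 m2 m3 h0 h1 h2 h3 h4 h5 h6 h7 h8 h9 h10 h11 h12 h13 h14 h15 => ((a2.2.2 h14 h15).2.2.2 (d 0) ⟨h0, h1, h2, h3, h4, h5, h6, h7, h8, h9⟩ h10 h11).elim h12 h13) (
  .cons (fun d hd h0 => nx h0) (
  .cons (fun d hd h0 h1 h2 h3 h4 h5 h6 h7 h8 h9 => hk a (by simp) b (by simp) x (by simp) y (by simp) x2 (by simp) ⟨h0, h1, h2, h3, h4, h5, h6, h7, h8, h9⟩) (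
  .cons (fun d hd h0 => h0 e.1) (
  .cons (fun d hd h0 => h0 e.2.1) (
  .cons (fun d hd h0 => h0 e.2.2.1) (
  .cons (fun d hd h0 => h0 e.2.2.2.1) (
  .cons (fun d hd h0 => h0 e.2.2.2.2.1) (
  .cons (fun d hd h0 => h0 e.2.2.2.2.2.1) (
  .cons (fun d hd h0 => h0 e.2.2.2.2.2.2.1) (
  .cons (fun d hd h0 => h0 e.2.2.2.2.2.2.2.1) (
  .cons (fun d hd h0 => h0 e.2.2.2.2.2.2.2.2.1) (
  .cons (fun d hd h0 => h0 e.2.2.2.2.2.2.2.2.2) (
  .cons (fun d hd h0 => h0 hw) (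
  .cons (fun d hd h0 => h0 g1) (
  .cons (fun d hd h0 => h0 g2) (
  .cons (fun d hd h0 => m1 h0) (
  .cons (fun d hd h0 => m2 h0) (
  .nil)))))))))))))))))))))))))))))))))

/-- templates -/
def db13_x : List Tm := [
  ⟨0, [], [], [.q true 2 8 10 9 11]⟩,
  ⟨1, [], [(0, 8), (0, 10), (0, 9), (0, 11)], [.b false 0 8 10, .b false 0 8 9, .b false 0 8 11, .b false 0 8 0, .b false 0 10 9, .b false 0 10 11, .b false 0 10 0, .b false 0 9 11, .b false 0 9 0, .b false 0 11 0, .q false 0 0 8 10 9, .q false 0 0 11 10 9, .q true 2 8 10 0 11, .q true 2 9 11 8 0]⟩,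
  ⟨1, [], [(0, 8), (0, 10), (0, 9), (0, 11)], [.b false 0 8 10, .b false 0 8 11, .b false 0 8 9, .b false 0 8 0, .b false 0 10 11, .b false 0 10 9, .b false 0 10 0, .b false 0 11 9, .b false 0 11 0, .b false 0 9 0, .q false 0 0 8 10 11, .q false 0 0 9 10 11, .q true 2 8 10 0 9, .q true 2 11 9 8 0]⟩,
  ⟨1, [], [(0, 8), (0, 10), (0, 9), (0, 11)], [.b false 0 10 8, .b false 0 10 9, .b false 0 10 11, .b false 0 10 0, .b false 0 8 9, .b false 0 8 11, .b false 0 8 0, .b false 0 9 11, .b false 0 9 0, .b false 0 11 0, .q false 0 0 10 8 9, .q false 0 0 11 8 9, .q true 2 10 8 0 11, .q true 2 9 11 10 0]⟩,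
  ⟨1, [], [(0, 8), (0, 10), (0, 9), (0, 11)], [.b false 0 10 8, .b false 0 10 11, .b false 0 10 9, .b false 0 10 0, .b false 0 8 11, .b false 0 8 9, .b false 0 8 0, .b false 0 11 9, .b false 0 11 0, .b false 0 9 0, .q false 0 0 10 8 11, .q false 0 0 9 8 11, .q true 2 10 8 0 9, .q true 2 11 9 10 0]⟩,
  ⟨0, [], [], [.q true 3 8 12 9 11]⟩,
  ⟨1, [], [(0, 8), (0, 9), (0, 12), (0, 11)], [.b false 0 8 9, .b false 0 8 12, .b false 0 8 11, .b false 0 8 0, .b false 0 9 12, .b false 0 9 11, .b false 0 9 0, .b false 0 12 11, .b false 0 12 0, .b false 0 11 0, .q false 0 0 8 9 12, .q false 0 0 11 9 12, .q true 2 8 9 0 11, .q true 2 12 11 8 0, .q false 2 8 9 12 11, .q true 0 8 12 9 11]⟩,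
  ⟨1, [], [(0, 8), (0, 9), (0, 12), (0, 11)], [.b false 0 8 9, .b false 0 8 11, .b false 0 8 12, .b false 0 8 0, .b false 0 9 11, .b false 0 9 12, .b false 0 9 0, .b false 0 11 12, .b false 0 11 0, .b false 0 12 0, .q false 0 0 8 9 11, .q false 0 0 12 9 11, .q true 2 8 9 0 12, .q true 2 11 12 8 0, .q false 2 8 9 12 11, .q true 0 8 12 9 11]⟩,
  ⟨1, [], [(0, 8), (0, 9), (0, 12), (0, 11)], [.b false 0 9 8, .b false 0 9 12, .b false 0 9 11, .b false 0 9 0, .b false 0 8 12, .b false 0 8 11, .b false 0 8 0, .b false 0 12 11, .b false 0 12 0, .b false 0 11 0, .q false 0 0 9 8 12, .q false 0 0 11 8 12, .q true 2 9 8 0 11, .q true 2 12 11 9 0, .q false 2 8 9 12 11, .q true 0 8 12 9 11]⟩,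
  ⟨1, [], [(0, 8), (0, 9), (0, 12), (0, 11)], [.b false 0 9 8, .b false 0 9 11, .b false 0 9 12, .b false 0 9 0, .b false 0 8 11, .b false 0 8 12, .b false 0 8 0, .b false 0 11 12, .b false 0 11 0, .b false 0 12 0, .q false 0 0 9 8 11, .q false 0 0 12 8 11, .q true 2 9 8 0 12, .q true 2 11 12 9 0, .q false 2 8 9 12 11, .q true 0 8 12 9 11]⟩,
  ⟨1, [], [(0, 8), (0, 11), (0, 12), (0, 9)], [.b false 0 8 11, .b false 0 8 12, .b false 0 8 9, .b false 0 8 0, .b false 0 11 12, .b false 0 11 9, .b false 0 11 0, .b false 0 12 9, .b false 0 12 0, .b false 0 9 0, .q false 0 0 8 11 12, .q false 0 0 9 11 12, .q true 2 8 11 0 9, .q true 2 12 9 8 0, .q false 2 8 11 12 9, .q true 0 8 12 9 11]⟩,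
  ⟨1, [], [(0, 8), (0, 11), (0, 12), (0, 9)], [.b false 0 8 11, .b false 0 8 9, .b false 0 8 12, .b false 0 8 0, .b false 0 11 9, .b false 0 11 12, .b false 0 11 0, .b false 0 9 12, .b false 0 9 0, .b false 0 12 0, .q false 0 0 8 11 9, .q false 0 0 12 11 9, .q true 2 8 11 0 12, .q true 2 9 12 8 0, .q false 2 8 11 12 9, .q true 0 8 12 9 11]⟩,
  ⟨1, [], [(0, 8), (0, 11), (0, 12), (0, 9)], [.b false 0 11 8, .b false 0 11 12, .b false 0 11 9, .b false 0 11 0, .b false 0 8 12, .b false 0 8 9, .b false 0 8 0, .b false 0 12 9, .b false 0 12 0, .b false 0 9 0, .q false 0 0 11 8 12, .q false 0 0 9 8 12, .q true 2 11 8 0 9, .q true 2 12 9 11 0, .q false 2 8 11 12 9, .q true 0 8 12 9 11]⟩,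
  ⟨1, [], [(0, 8), (0, 11), (0, 12), (0, 9)], [.b false 0 11 8, .b false 0 11 9, .b false 0 11 12, .b false 0 11 0, .b false 0 8 9, .b false 0 8 12, .b false 0 8 0, .b false 0 9 12, .b false 0 9 0, .b false 0 12 0, .q false 0 0 11 8 9, .q false 0 0 12 8 9, .q true 2 11 8 0 12, .q true 2 9 12 11 0, .q false 2 8 11 12 9, .q true 0 8 12 9 11]⟩,
  ⟨0, [], [], [.q false 0 8 12 9 10]⟩,
  ⟨0, [], [], [.b false 0 8 9, .b false 0 8 10, .b false 0 8 11, .b false 0 8 12, .b false 0 9 10, .b false 0 9 11, .b false 0 9 12, .b false 0 10 11, .b false 0 10 12, .b false 0 11 12]⟩,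
  ⟨0, [], [], [.b true 0 8 10]⟩,
  ⟨0, [], [], [.b true 0 8 9]⟩,
  ⟨0, [], [], [.b true 0 8 12]⟩,
  ⟨0, [], [], [.b true 0 8 13]⟩,
  ⟨0, [], [], [.b true 0 10 9]⟩,
  ⟨0, [], [], [.b true 0 10 12]⟩,
  ⟨0, [], [], [.b true 0 10 13]⟩,
  ⟨0, [], [], [.b true 0 9 12]⟩,
  ⟨0, [], [], [.b true 0 9 13]⟩,
  ⟨0, [], [], [.b true 0 12 13]⟩,
  ⟨0, [], [], [.q true 2 8 10 9 12]⟩,
  ⟨0, [], [], [.q true 0 13 10 8 12]⟩,
  ⟨0, [], [], [.q true 0 13 9 8 12]⟩,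
  ⟨0, [], [], [.q false 2 10 8 13 9]⟩,
  ⟨0, [], [], [.q false 2 12 9 10 13]⟩]

def db13_p0 : List Nat := [
0x6240090000000810001000201,
0x2640090000000810006000201,
0x462090000000810004000201,
0x2604090000000810008000201,
0x62400b00000008104b2000201,
0xa8900000000200000000600000000400000000802cf027b03ec03f003f803f903fa03fb066e06b200050a,
0x9f00000000200000000600000000400000000803ec03f003f303f403f503f6000506,
0x82400b0000000b5054a000201,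
0x84200100000009d0000000100189000301,
0x4a80030000000b70646000201,
0x2a4800700000009d0000000b70295000301,
0xa208407000000012000000014029d000301,
0xa820030000000160732000201,
0x2a80030000000160642000201,
0x8a4203000000018073e000201,
0x4a820300000001806c6000201,
0xa84200700000001200000001a02b5000301,
0x842a00700000001400000001c0626000301,
0xa4200b00000002206a0000201,
0x42a00f0000000260000000240000000b10000000020000000a10000000ad0000000bb0629000801,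
0xa8421700000001e0000000200000000b30000000060000000af0000000ab0000000b10000000ad0000000bd0741000a01,
0xa64203d0000a26110000000810000000280012000401,
0x8642a3d00000000c00000000e00680a4070008a6403000a8621300680a2070008a620300264a80700000002a00000002c0000000ad0000000b10000000a70000000a10000000bb0000000ab0000000a50000000af00000001600000001e0000000b7074e03f0001602,
0xa4620d008642a3900000002e000a8621300862a40700264a8070008a64030000000080000000060000000b100000002c00000002a00000002000000001e074e000e01,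
0x462a80700000001e000000030074a000301,
0xa46207000a4620d00062a013008642a3900a64203900000000a0000000080000000060000000b100000002c00000002a000000081000000028074d0007000d02,
0xa62407f000a4620700000008100000002c0000000ad0000000b10000000a70000000080000000040000000060000000a10000000020000000bb00000000a03f006b6000e02,
0x4a2860700086421300680a2070026a843900000000c000a4860d00620a40700286a407000000036008642a3d00000000e00000003400000001600000002a00000002c0000000ad0000000b10000000a70000000a10000000bb0000000ab0000000080000000b30000000220000000200000000a50000000af074d001b01,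
0xa82611000000038000d000201,
0xe0000000a10000000af0000000a50000000ab00000003a03f0000601,
0xa64203900000002800000008100000003c0635000401,
0xa8622500000003e00000008b00000003c074c000401,
0xa8620d00000003200000002c00000003a0000000af0000000b100000004000000003c000800]

def db13_pf : List Nat := db13_p0

theorem db13_ref {V : Type} {S : SRel V} {p : Nat → V} (hp : ∀ i j, i < 6 → j < 6 → p i = p j → i = j)
    (hts : PHs S p 6 ((tO ++ (tB ++ (tR ++ (tF ++ tK)))) ++ db13_x)) : False :=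
  refuteS (k := 6) (n2 := 1) (n3 := 1) (n4 := 4) (o3 := 21) (o4 := 77) (M := 1001) ((tO ++ (tB ++ (tR ++ (tF ++ tK)))) ++ db13_x) db13_pf (by decide +kernel)
    (by decide +kernel) (by decide +kernel) (by decide +kernel) hp hts

theorem db13 {V : Type} {G : SimpleGraph V} {X W : V → V → V → V → Prop} (h : WF G X W) {a b x y x2 t : V}
    (nd : [a, b, x, y, x2, t].Nodup) (a1 : Pr G X W a x b y) (a2 : IF G X W a x2 b y) (nx : ¬ X a x2 b x) (hk : K5F G [a, b, x, y, x2])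
    (e : K5 G a x b x2 t) (hw : W a x b x2) (g1 : X t x a x2) (g2 : X t b a x2)
    (m1 : ¬ W x a t b) (m2 : ¬ W x2 b x t) : False :=
  db13_ref (S := (syW h).rel) (pt_inj (o := a) nd rfl) (PHs.app (UHs.phs ((tO_h h).app ((tB_h h).app ((tR_h h).app ((tF_h h).app (tK_h h))))) _ _) (
  .cons (fun d hd h0 => h0 a1.1) (
  .cons (fun d hd m0 m1 m2 m3 h0 h1 h2 h3 h4 h5 h6 h7 h8 h9 h10 h11 h12 h13 => ((a1.2).1 (d 0) ⟨h0, h1, h2, h3, h4, h5, h6, h7, h8, h9⟩ h10 h11).elim h12 h13) (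
  .cons (fun d hd m0 m1 m2 m3 h0 h1 h2 h3 h4 h5 h6 h7 h8 h9 h10 h11 h12 h13 => ((a1.2).2.1 (d 0) ⟨h0, h1, h2, h3, h4, h5, h6, h7, h8, h9⟩ h10 h11).elim h12 h13) (
  .cons (fun d hd m0 m1 m2 m3 h0 h1 h2 h3 h4 h5 h6 h7 h8 h9 h10 h11 h12 h13 => ((a1.2).2.2.1 (d 0) ⟨h0, h1, h2, h3, h4, h5, h6, h7, h8, h9⟩ h10 h11).elim h12 h13) (
  .cons (fun d hd m0 m1 m2 m3 h0 h1 h2 h3 h4 h5 h6 h7 h8 h9 h10 h11 h12 h13 => ((a1.2).2.2.2 (d 0) ⟨h0, h1, h2, h3, h4, h5, h6, h7, h8, h9⟩ h10 h11).elim h12 h13) (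
  .cons (fun d hd h0 => h0 a2.1) (
  .cons (fun d hd m0 m1 m2 m3 h0 h1 h2 h3 h4 h5 h6 h7 h8 h9 h10 h11 h12 h13 h14 h15 => ((a2.2.1 h14 h15).1 (d 0) ⟨h0, h1, h2, h3, h4, h5, h6, h7, h8, h9⟩ h10 h11).elim h12 h13) (
  .cons (fun d hd m0 m1 m2 m3 h0 h1 h2 h3 h4 h5 h6 h7 h8 h9 h10 h11 h12 h13 h14 h15 => ((a2.2.1 h14 h15).2.1 (d 0) ⟨h0, h1, h2, h3, h4, h5, h6, h7, h8, h9⟩ h10 h11).elim h12 h13) (
  .cons (fun d hd m0 m1 m2 m3 h0 h1 h2 h3 h4 h5 h6 h7 h8 h9 h10 h11 h12 h13 h14 h15 => ((a2.2.1 h14 h15).2.2.1 (d 0) ⟨h0, h1, h2, h3, h4, h5, h6, h7, h8, h9⟩ h10 h11).elim h12 h13) (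
  .cons (fun d hd m0 m1 m2 m3 h0 h1 h2 h3 h4 h5 h6 h7 h8 h9 h10 h11 h12 h13 h14 h15 => ((a2.2.1 h14 h15).2.2.2 (d 0) ⟨h0, h1, h2, h3, h4, h5, h6, h7, h8, h9⟩ h10 h11).elim h12 h13) (
  .cons (fun d hd m0 m1 m2 m3 h0 h1 h2 h3 h4 h5 h6 h7 h8 h9 h10 h11 h12 h13 h14 h15 => ((a2.2.2 h14 h15).1 (d 0) ⟨h0, h1, h2, h3, h4, h5, h6, h7, h8, h9⟩ h10 h11).elim h12 h13) (
  .cons (fun d hd m0 m1 m2 m3 h0 h1 h2 h3 h4 h5 h6 h7 h8 h9 h10 h11 h12 h13 h14 h15 => ((a2.2.2 h14 h15).2.1 (d 0) ⟨h0, h1, h2, h3, h4, h5, h6, h7, h8, h9⟩ h10 h11).elim h12 h13) (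
  .cons (fun d hd m0 m1 m2 m3 h0 h1 h2 h3 h4 h5 h6 h7 h8 h9 h10 h11 h12 h13 h14 h15 => ((a2.2.2 h14 h15).2.2.1 (d 0) ⟨h0, h1, h2, h3, h4, h5, h6, h7, h8, h9⟩ h10 h11).elim h12 h13) (
  .cons (fun d hd m0 m1 m2 m3 h0 h1 h2 h3 h4 h5 h6 h7 h8 h9 h10 h11 h12 h13 h14 h15 => ((a2.2.2 h14 h15).2.2.2 (d 0) ⟨h0, h1, h2, h3, h4, h5, h6, h7, h8, h9⟩ h10 h11).elim h12 h13) (
  .cons (fun d hd h0 => nx h0) (
  .cons (fun d hd h0 h1 h2 h3 h4 h5 h6 h7 h8 h9 => hk a (by simp) b (by simp) x (by simp) y (by simp) x2 (by simp) ⟨h0, h1, h2, h3, h4, h5, h6, h7, h8, h9⟩) (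
  .cons (fun d hd h0 => h0 e.1) (
  .cons (fun d hd h0 => h0 e.2.1) (
  .cons (fun d hd h0 => h0 e.2.2.1) (
  .cons (fun d hd h0 => h0 e.2.2.2.1) (
  .cons (fun d hd h0 => h0 e.2.2.2.2.1) (
  .cons (fun d hd h0 => h0 e.2.2.2.2.2.1) (
  .cons (fun d hd h0 => h0 e.2.2.2.2.2.2.1) (
  .cons (fun d hd h0 => h0 e.2.2.2.2.2.2.2.1) (
  .cons (fun d hd h0 => h0 e.2.2.2.2.2.2.2.2.1) (
  .cons (fun d hd h0 => h0 e.2.2.2.2.2.2.2.2.2) (
  .cons (fun d hd h0 => h0 hw) (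
  .cons (fun d hd h0 => h0 g1) (
  .cons (fun d hd h0 => h0 g2) (
  .cons (fun d hd h0 => m1 h0) (
  .cons (fun d hd h0 => m2 h0) (
  .nil)))))))))))))))))))))))))))))))))

end Pool.Agent.SOF
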