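import Pool.Agent.SOF.I2

/-! Project SOF: refutations (generated). -/

set_option autoImplicit false
set_option maxRecDepth 100000
set_option linter.unusedVariables false

namespace Pool.Agent.SOF

open Pool.Agent.SOC Pool.Agent.SOD Pool.Agent.RUP

/-- templates -/
def kk0_x : List Tm := [
  ⟨0, [], [], [.b true 0 8 9]⟩,
  ⟨0, [], [], [.b true 0 8 10]⟩,
  ⟨0, [], [], [.b true 0 8 11]⟩,
  ⟨0, [], [], [.b true 0 8 12]⟩,
  ⟨0, [], [], [.b true 0 9 10]⟩,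
  ⟨0, [], [], [.b true 0 9 11]⟩,
  ⟨0, [], [], [.b true 0 9 12]⟩,
  ⟨0, [], [], [.b true 0 10 11]⟩,
  ⟨0, [], [], [.b true 0 10 12]⟩,
  ⟨0, [], [], [.b true 0 11 12]⟩,
  ⟨0, [], [], [.q true 0 12 8 10 11]⟩,
  ⟨0, [], [], [.q true 0 12 9 10 11]⟩,
  ⟨0, [], [], [.q true 2 8 9 10 11]⟩,
  ⟨1, [], [(0, 8), (0, 9), (0, 10), (0, 11)], [.b false 0 8 9, .b false 0 8 10, .b false 0 8 11, .b false 0 8 0, .b false 0 9 10, .b false 0 9 11, .b false 0 9 0, .b false 0 10 11, .b false 0 10 0, .b false 0 11 0, .q false 0 0 8 9 10, .q false 0 0 11 9 10, .q true 2 8 9 0 11, .q true 2 10 11 8 0]⟩,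
  ⟨1, [], [(0, 8), (0, 9), (0, 10), (0, 11)], [.b false 0 8 9, .b false 0 8 11, .b false 0 8 10, .b false 0 8 0, .b false 0 9 11, .b false 0 9 10, .b false 0 9 0, .b false 0 11 10, .b false 0 11 0, .b false 0 10 0, .q false 0 0 8 9 11, .q false 0 0 10 9 11, .q true 2 8 9 0 10, .q true 2 11 10 8 0]⟩,
  ⟨1, [], [(0, 8), (0, 9), (0, 10), (0, 11)], [.b false 0 9 8, .b false 0 9 10, .b false 0 9 11, .b false 0 9 0, .b false 0 8 10, .b false 0 8 11, .b false 0 8 0, .b false 0 10 11, .b false 0 10 0, .b false 0 11 0, .q false 0 0 9 8 10, .q false 0 0 11 8 10, .q true 2 9 8 0 11, .q true 2 10 11 9 0]⟩,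
  ⟨1, [], [(0, 8), (0, 9), (0, 10), (0, 11)], [.b false 0 9 8, .b false 0 9 11, .b false 0 9 10, .b false 0 9 0, .b false 0 8 11, .b false 0 8 10, .b false 0 8 0, .b false 0 11 10, .b false 0 11 0, .b false 0 10 0, .q false 0 0 9 8 11, .q false 0 0 10 8 11, .q true 2 9 8 0 10, .q true 2 11 10 9 0]⟩,
  ⟨0, [], [], [.b true 0 8 9]⟩,
  ⟨0, [], [], [.b true 0 8 10]⟩,
  ⟨0, [], [], [.b true 0 8 12]⟩,
  ⟨0, [], [], [.b true 0 8 13]⟩,
  ⟨0, [], [], [.b true 0 9 10]⟩,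
  ⟨0, [], [], [.b true 0 9 12]⟩,
  ⟨0, [], [], [.b true 0 9 13]⟩,
  ⟨0, [], [], [.b true 0 10 12]⟩,
  ⟨0, [], [], [.b true 0 10 13]⟩,
  ⟨0, [], [], [.b true 0 12 13]⟩,
  ⟨0, [], [], [.q true 2 8 9 10 12]⟩,
  ⟨0, [], [], [.q true 0 13 8 9 10]⟩,
  ⟨0, [], [], [.q true 0 13 12 9 10]⟩,
  ⟨0, [], [], [.q false 2 8 9 13 12]⟩,
  ⟨0, [], [], [.q false 2 10 12 8 13]⟩]

def kk0_p0 : List Nat := [
0x4860030000000950586000201,
0x68420300000009705b2000201,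
0x486203000000097058a000201,
0x820640500000009500000009704ca000301,
0x62084070000000020000000060572000301,
0x846207f00000009700000008100000008300000008900000008500000008b00000008f00000008700000008d00000009100000009300000009500000009901bf000e01,
0xa9b00000008100000008300000008900000008500000008b00000008f02ff024f03f803f903fa03fb062606f2000708,
0x4a20030000000b9069e000201,
0x2a40030000000b90662000201,
0x4a6200700000000800000001006e6000301,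
0x4a8200700000000a0000000100732000301,
0xa842030000000bb06c6000201,
0x8a42030000000bb0686000201,
0x6a842070000000040000000bb0309000301,
0xa6482070000000970000000180325000301,
0x480a20700000001200000001a067e000301,
0x6a420300000001c0676000201,
0x82a60700000001400000001e0321000301,
0xa8264070000000970000000220365000301,
0xa280170000000200000000160000000b500000008100000008700000008d0000000a90000000af0000000bd0681000a01,
0xe00864a07f0086a207f0000000b90000000b30000000af0000000a900000001c0000000950000000b500000002600000009300000009100000008700000008f0000000850000000830000000bf00000001e00000002400000008d00000008b0000000810000000bd03fb001801,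
0x2a861100000002a02a4000201,
0xa60823d00000002800000000c00000002a00000002c000500]

def kk0_pf : List Nat := kk0_p0

theorem kk0_ref {V : Type} {S : SRel V} {p : Nat → V} (hp : ∀ i j, i < 6 → j < 6 → p i = p j → i = j)
    (hts : PHs S p 6 ((tO ++ (tB ++ (tR ++ (tF ++ tK)))) ++ kk0_x)) : False :=
  refuteS (k := 6) (n2 := 1) (n3 := 1) (n4 := 4) (o3 := 21) (o4 := 77) (M := 1001) ((tO ++ (tB ++ (tR ++ (tF ++ tK)))) ++ kk0_x) kk0_pf (by decide +kernel)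
    (by decide +kernel) (by decide +kernel) (by decide +kernel) hp hts

theorem kk0 {V : Type} {G : SimpleGraph V} {X W : V → V → V → V → Prop} (h : WF G X W) {a b c d x t : V}
    (nd : [a, b, c, d, x, t].Nodup) (hk : K5 G a b c d x) (y1 : X x a c d) (y2 : X x b c d) (a1 : Pr G X W a b c d)
    (e : K5 G a b c x t) (hw : W a b c x) (g1 : X t a b c) (g2 : X t x b c)
    (m1 : ¬ W a b t x) (m2 : ¬ W c x a t) : False :=
  kk0_ref (S := (syW h).rel) (pt_inj (o := a) nd rfl) (PHs.app (UHs.phs ((tO_h h).app ((tB_h h).app ((tR_h h).app ((tF_h h).app (tK_h h))))) _ _) (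
  .cons (fun d hd h0 => h0 hk.1) (
  .cons (fun d hd h0 => h0 hk.2.1) (
  .cons (fun d hd h0 => h0 hk.2.2.1) (
  .cons (fun d hd h0 => h0 hk.2.2.2.1) (
  .cons (fun d hd h0 => h0 hk.2.2.2.2.1) (
  .cons (fun d hd h0 => h0 hk.2.2.2.2.2.1) (
  .cons (fun d hd h0 => h0 hk.2.2.2.2.2.2.1) (
  .cons (fun d hd h0 => h0 hk.2.2.2.2.2.2.2.1) (
  .cons (fun d hd h0 => h0 hk.2.2.2.2.2.2.2.2.1) (
  .cons (fun d hd h0 => h0 hk.2.2.2.2.2.2.2.2.2) (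
  .cons (fun d hd h0 => h0 y1) (
  .cons (fun d hd h0 => h0 y2) (
  .cons (fun d hd h0 => h0 a1.1) (
  .cons (fun d hd m0 m1 m2 m3 h0 h1 h2 h3 h4 h5 h6 h7 h8 h9 h10 h11 h12 h13 => ((a1.2).1 (d 0) ⟨h0, h1, h2, h3, h4, h5, h6, h7, h8, h9⟩ h10 h11).elim h12 h13) (
  .cons (fun d hd m0 m1 m2 m3 h0 h1 h2 h3 h4 h5 h6 h7 h8 h9 h10 h11 h12 h13 => ((a1.2).2.1 (d 0) ⟨h0, h1, h2, h3, h4, h5, h6, h7, h8, h9⟩ h10 h11).elim h12 h13) (
  .cons (fun d hd m0 m1 m2 m3 h0 h1 h2 h3 h4 h5 h6 h7 h8 h9 h10 h11 h12 h13 => ((a1.2).2.2.1 (d 0) ⟨h0, h1, h2, h3, h4, h5, h6, h7, h8, h9⟩ h10 h11).elim h12 h13) (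
  .cons (fun d hd m0 m1 m2 m3 h0 h1 h2 h3 h4 h5 h6 h7 h8 h9 h10 h11 h12 h13 => ((a1.2).2.2.2 (d 0) ⟨h0, h1, h2, h3, h4, h5, h6, h7, h8, h9⟩ h10 h11).elim h12 h13) (
  .cons (fun d hd h0 => h0 e.1) (
  .cons (fun d hd h0 => h0 e.2.1) (
  .cons (fun d hd h0 => h0 e.2.2.1) (
  .cons (fun d hd h0 => h0 e.2.2.2.1) (
  .cons (fun d hd h0 => h0 e.2.2.2.2.1) (
  .cons (fun d hd h0 => h0 e.2.2.2.2.2.1) (
  .cons (fun d hd h0 => h0 e.2.2.2.2.2.2.1) (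
  .cons (fun d hd h0 => h0 e.2.2.2.2.2.2.2.1) (
  .cons (fun d hd h0 => h0 e.2.2.2.2.2.2.2.2.1) (
  .cons (fun d hd h0 => h0 e.2.2.2.2.2.2.2.2.2) (
  .cons (fun d hd h0 => h0 hw) (
  .cons (fun d hd h0 => h0 g1) (
  .cons (fun d hd h0 => h0 g2) (
  .cons (fun d hd h0 => m1 h0) (
  .cons (fun d hd h0 => m2 h0) (
  .nil))))))))))))))))))))))))))))))))))

/-- templates -/
def kk1_x : List Tm := [
  ⟨0, [], [], [.b true 0 8 9]⟩,
  ⟨0, [], [], [.b true 0 8 10]⟩,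
  ⟨0, [], [], [.b true 0 8 11]⟩,
  ⟨0, [], [], [.b true 0 8 12]⟩,
  ⟨0, [], [], [.b true 0 9 10]⟩,
  ⟨0, [], [], [.b true 0 9 11]⟩,
  ⟨0, [], [], [.b true 0 9 12]⟩,
  ⟨0, [], [], [.b true 0 10 11]⟩,
  ⟨0, [], [], [.b true 0 10 12]⟩,
  ⟨0, [], [], [.b true 0 11 12]⟩,
  ⟨0, [], [], [.q true 0 12 8 10 11]⟩,
  ⟨0, [], [], [.q true 0 12 9 10 11]⟩,
  ⟨0, [], [], [.q true 2 8 9 10 11]⟩,
  ⟨1, [], [(0, 8), (0, 9), (0, 10), (0, 11)], [.b false 0 8 9, .b false 0 8 10, .b false 0 8 11, .b false 0 8 0, .b false 0 9 10, .b false 0 9 11, .b false 0 9 0, .b false 0 10 11, .b false 0 10 0, .b false 0 11 0, .q false 0 0 8 9 10, .q false 0 0 11 9 10, .q true 2 8 9 0 11, .q true 2 10 11 8 0]⟩,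
  ⟨1, [], [(0, 8), (0, 9), (0, 10), (0, 11)], [.b false 0 8 9, .b false 0 8 11, .b false 0 8 10, .b false 0 8 0, .b false 0 9 11, .b false 0 9 10, .b false 0 9 0, .b false 0 11 10, .b false 0 11 0, .b false 0 10 0, .q false 0 0 8 9 11, .q false 0 0 10 9 11, .q true 2 8 9 0 10, .q true 2 11 10 8 0]⟩,
  ⟨1, [], [(0, 8), (0, 9), (0, 10), (0, 11)], [.b false 0 9 8, .b false 0 9 10, .b false 0 9 11, .b false 0 9 0, .b false 0 8 10, .b false 0 8 11, .b false 0 8 0, .b false 0 10 11, .b false 0 10 0, .b false 0 11 0, .q false 0 0 9 8 10, .q false 0 0 11 8 10, .q true 2 9 8 0 11, .q true 2 10 11 9 0]⟩,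
  ⟨1, [], [(0, 8), (0, 9), (0, 10), (0, 11)], [.b false 0 9 8, .b false 0 9 11, .b false 0 9 10, .b false 0 9 0, .b false 0 8 11, .b false 0 8 10, .b false 0 8 0, .b false 0 11 10, .b false 0 11 0, .b false 0 10 0, .q false 0 0 9 8 11, .q false 0 0 10 8 11, .q true 2 9 8 0 10, .q true 2 11 10 9 0]⟩,
  ⟨0, [], [], [.b true 0 8 9]⟩,
  ⟨0, [], [], [.b true 0 8 10]⟩,
  ⟨0, [], [], [.b true 0 8 12]⟩,
  ⟨0, [], [], [.b true 0 8 13]⟩,
  ⟨0, [], [], [.b true 0 9 10]⟩,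
  ⟨0, [], [], [.b true 0 9 12]⟩,
  ⟨0, [], [], [.b true 0 9 13]⟩,
  ⟨0, [], [], [.b true 0 10 12]⟩,
  ⟨0, [], [], [.b true 0 10 13]⟩,
  ⟨0, [], [], [.b true 0 12 13]⟩,
  ⟨0, [], [], [.q true 2 8 9 10 12]⟩,
  ⟨0, [], [], [.q true 0 13 8 9 12]⟩,
  ⟨0, [], [], [.q true 0 13 10 9 12]⟩,
  ⟨0, [], [], [.q false 2 8 9 13 10]⟩,
  ⟨0, [], [], [.q false 2 12 10 8 13]⟩]

def kk1_p0 : List Nat := [
0x4860030000000950586000201,
0x486203000000097058a000201,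
0x62084070000000020000000040572000301,
0xa9d00000008100000008300000008900000008500000008b00000008f02b7024f03f803f903fa03fb063206b6000708,
0x8a20030000000b90732000201,
0x2a80030000000b9067e000201,
0x8a4200700000000600000000a069e000301,
0x4a82030000000bb0686000201,
0x2a084070000000060000000100646000301,
0x840a20700000000c0000000100662000301,
0x482a0070000000b9000000012023d000301,
0xa2401700000001400000000e0000000b30000000810000000830000000890000000a90000000af0000000bd0665000a01,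
0x800864a07f00682a4070008a640300642a00700a8064050000000b30000000af0000000a90000000bd0000000950000000b500000009300000009100000008700000008f0000000850000000830000000bf0000000160000000bb074e03fb001502,
0xa60423d0002a46110000000990000000180012000401,
0x1a00000001c074e000201,
0xa80640700000009500000001e024d000301,
0xa82640700000009700000001e028d000301,
0xa64207f0000000bd00000008100000008300000008900000008500000008b00000008f0000000a90000000af0000000b300000001c000000099000000020000000022000f00]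

def kk1_pf : List Nat := kk1_p0

theorem kk1_ref {V : Type} {S : SRel V} {p : Nat → V} (hp : ∀ i j, i < 6 → j < 6 → p i = p j → i = j)
    (hts : PHs S p 6 ((tO ++ (tB ++ (tR ++ (tF ++ tK)))) ++ kk1_x)) : False :=
  refuteS (k := 6) (n2 := 1) (n3 := 1) (n4 := 4) (o3 := 21) (o4 := 77) (M := 1001) ((tO ++ (tB ++ (tR ++ (tF ++ tK)))) ++ kk1_x) kk1_pf (by decide +kernel)
    (by decide +kernel) (by decide +kernel) (by decide +kernel) hp hts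

theorem kk1 {V : Type} {G : SimpleGraph V} {X W : V → V → V → V → Prop} (h : WF G X W) {a b c d x t : V}
    (nd : [a, b, c, d, x, t].Nodup) (hk : K5 G a b c d x) (y1 : X x a c d) (y2 : X x b c d) (a1 : Pr G X W a b c d)
    (e : K5 G a b c x t) (hw : W a b c x) (g1 : X t a b x) (g2 : X t c b x)
    (m1 : ¬ W a b t c) (m2 : ¬ W x c a t) : False :=
  kk1_ref (S := (syW h).rel) (pt_inj (o := a) nd rfl) (PHs.app (UHs.phs ((tO_h h).app ((tB_h h).app ((tR_h h).app ((tF_h h).app (tK_h h))))) _ _) (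
  .cons (fun d hd h0 => h0 hk.1) (
  .cons (fun d hd h0 => h0 hk.2.1) (
  .cons (fun d hd h0 => h0 hk.2.2.1) (
  .cons (fun d hd h0 => h0 hk.2.2.2.1) (
  .cons (fun d hd h0 => h0 hk.2.2.2.2.1) (
  .cons (fun d hd h0 => h0 hk.2.2.2.2.2.1) (
  .cons (fun d hd h0 => h0 hk.2.2.2.2.2.2.1) (
  .cons (fun d hd h0 => h0 hk.2.2.2.2.2.2.2.1) (
  .cons (fun d hd h0 => h0 hk.2.2.2.2.2.2.2.2.1) (
  .cons (fun d hd h0 => h0 hk.2.2.2.2.2.2.2.2.2) (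
  .cons (fun d hd h0 => h0 y1) (
  .cons (fun d hd h0 => h0 y2) (
  .cons (fun d hd h0 => h0 a1.1) (
  .cons (fun d hd m0 m1 m2 m3 h0 h1 h2 h3 h4 h5 h6 h7 h8 h9 h10 h11 h12 h13 => ((a1.2).1 (d 0) ⟨h0, h1, h2, h3, h4, h5, h6, h7, h8, h9⟩ h10 h11).elim h12 h13) (
  .cons (fun d hd m0 m1 m2 m3 h0 h1 h2 h3 h4 h5 h6 h7 h8 h9 h10 h11 h12 h13 => ((a1.2).2.1 (d 0) ⟨h0, h1, h2, h3, h4, h5, h6, h7, h8, h9⟩ h10 h11).elim h12 h13) (
  .cons (fun d hd m0 m1 m2 m3 h0 h1 h2 h3 h4 h5 h6 h7 h8 h9 h10 h11 h12 h13 => ((a1.2).2.2.1 (d 0) ⟨h0, h1, h2, h3, h4, h5, h6, h7, h8, h9⟩ h10 h11).elim h12 h13) (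
  .cons (fun d hd m0 m1 m2 m3 h0 h1 h2 h3 h4 h5 h6 h7 h8 h9 h10 h11 h12 h13 => ((a1.2).2.2.2 (d 0) ⟨h0, h1, h2, h3, h4, h5, h6, h7, h8, h9⟩ h10 h11).elim h12 h13) (
  .cons (fun d hd h0 => h0 e.1) (
  .cons (fun d hd h0 => h0 e.2.1) (
  .cons (fun d hd h0 => h0 e.2.2.1) (
  .cons (fun d hd h0 => h0 e.2.2.2.1) (
  .cons (fun d hd h0 => h0 e.2.2.2.2.1) (
  .cons (fun d hd h0 => h0 e.2.2.2.2.2.1) (
  .cons (fun d hd h0 => h0 e.2.2.2.2.2.2.1) (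
  .cons (fun d hd h0 => h0 e.2.2.2.2.2.2.2.1) (
  .cons (fun d hd h0 => h0 e.2.2.2.2.2.2.2.2.1) (
  .cons (fun d hd h0 => h0 e.2.2.2.2.2.2.2.2.2) (
  .cons (fun d hd h0 => h0 hw) (
  .cons (fun d hd h0 => h0 g1) (
  .cons (fun d hd h0 => h0 g2) (
  .cons (fun d hd h0 => m1 h0) (
  .cons (fun d hd h0 => m2 h0) (
  .nil))))))))))))))))))))))))))))))))))

/-- templates -/
def kk2_x : List Tm := [
  ⟨0, [], [], [.b true 0 8 9]⟩,
  ⟨0, [], [], [.b true 0 8 10]⟩,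
  ⟨0, [], [], [.b true 0 8 11]⟩,
  ⟨0, [], [], [.b true 0 8 12]⟩,
  ⟨0, [], [], [.b true 0 9 10]⟩,
  ⟨0, [], [], [.b true 0 9 11]⟩,
  ⟨0, [], [], [.b true 0 9 12]⟩,
  ⟨0, [], [], [.b true 0 10 11]⟩,
  ⟨0, [], [], [.b true 0 10 12]⟩,
  ⟨0, [], [], [.b true 0 11 12]⟩,
  ⟨0, [], [], [.q true 0 12 8 10 11]⟩,
  ⟨0, [], [], [.q true 0 12 9 10 11]⟩,
  ⟨0, [], [], [.q true 2 8 9 10 11]⟩,
  ⟨1, [], [(0, 8), (0, 9), (0, 10), (0, 11)], [.b false 0 8 9, .b false 0 8 10, .b false 0 8 11, .b false 0 8 0, .b false 0 9 10, .b false 0 9 11, .b false 0 9 0, .b false 0 10 11, .b false 0 10 0, .b false 0 11 0, .q false 0 0 8 9 10, .q false 0 0 11 9 10, .q true 2 8 9 0 11, .q true 2 10 11 8 0]⟩,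
  ⟨1, [], [(0, 8), (0, 9), (0, 10), (0, 11)], [.b false 0 8 9, .b false 0 8 11, .b false 0 8 10, .b false 0 8 0, .b false 0 9 11, .b false 0 9 10, .b false 0 9 0, .b false 0 11 10, .b false 0 11 0, .b false 0 10 0, .q false 0 0 8 9 11, .q false 0 0 10 9 11, .q true 2 8 9 0 10, .q true 2 11 10 8 0]⟩,
  ⟨1, [], [(0, 8), (0, 9), (0, 10), (0, 11)], [.b false 0 9 8, .b false 0 9 10, .b false 0 9 11, .b false 0 9 0, .b false 0 8 10, .b false 0 8 11, .b false 0 8 0, .b false 0 10 11, .b false 0 10 0, .b false 0 11 0, .q false 0 0 9 8 10, .q false 0 0 11 8 10, .q true 2 9 8 0 11, .q true 2 10 11 9 0]⟩,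
  ⟨1, [], [(0, 8), (0, 9), (0, 10), (0, 11)], [.b false 0 9 8, .b false 0 9 11, .b false 0 9 10, .b false 0 9 0, .b false 0 8 11, .b false 0 8 10, .b false 0 8 0, .b false 0 11 10, .b false 0 11 0, .b false 0 10 0, .q false 0 0 9 8 11, .q false 0 0 10 8 11, .q true 2 9 8 0 10, .q true 2 11 10 9 0]⟩,
  ⟨0, [], [], [.b true 0 8 9]⟩,
  ⟨0, [], [], [.b true 0 8 10]⟩,
  ⟨0, [], [], [.b true 0 8 12]⟩,
  ⟨0, [], [], [.b true 0 8 13]⟩,
  ⟨0, [], [], [.b true 0 9 10]⟩,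
  ⟨0, [], [], [.b true 0 9 12]⟩,
  ⟨0, [], [], [.b true 0 9 13]⟩,
  ⟨0, [], [], [.b true 0 10 12]⟩,
  ⟨0, [], [], [.b true 0 10 13]⟩,
  ⟨0, [], [], [.b true 0 12 13]⟩,
  ⟨0, [], [], [.q true 2 8 9 10 12]⟩,
  ⟨0, [], [], [.q true 0 13 9 8 10]⟩,
  ⟨0, [], [], [.q true 0 13 12 8 10]⟩,
  ⟨0, [], [], [.q false 2 9 8 13 12]⟩,
  ⟨0, [], [], [.q false 2 10 12 9 13]⟩]

def kk2_p0 : List Nat := [
0x68400300000009505ae000201,
0x4860030000000950586000201,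
0x486203000000097058a000201,
0x820640500000009500000009704ca000301,
0x62084070000000040000000060572000301,
0x846207f00000009700000008100000008300000008900000008500000008b00000008f00000008700000008d00000009100000009300000009500000009901bf000e01,
0xa9f00000008100000008300000008900000008500000008b00000008f02ff028f03f803f903fa03fb066206ee000708,
0xa420030000000b9069e000201,
0x2a40030000000b90626000201,
0x4a6200700000000800000001006e6000301,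
0x4a8200700000000a0000000100732000301,
0xa840030000000bb06c2000201,
0x8a40030000000bb0646000201,
0x6a840070000000020000000bb0305000301,
0xa6480070000000950000000180321000301,
0x482a00700000001200000001a0642000301,
0x6a400300000001c0636000201,
0x280a60700000001400000001e0325000301,
0xa8064070000000950000000220365000301,
0x82a0170000000200000000160000000b500000008100000008700000008d0000000a90000000af0000000bd0645000a01,
0xe00864a27f0086a207f0000000b90000000b30000000af0000000a900000001c0000000970000000b500000002600000009300000009100000008d00000008f00000008b0000000890000000bf00000001e0000000240000000870000000850000000810000000bd03fb001801,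
0xa861100000002a0264000201,
0xa62803d00000002800000000c00000002a00000002c000500]

def kk2_pf : List Nat := kk2_p0

theorem kk2_ref {V : Type} {S : SRel V} {p : Nat → V} (hp : ∀ i j, i < 6 → j < 6 → p i = p j → i = j)
    (hts : PHs S p 6 ((tO ++ (tB ++ (tR ++ (tF ++ tK)))) ++ kk2_x)) : False :=
  refuteS (k := 6) (n2 := 1) (n3 := 1) (n4 := 4) (o3 := 21) (o4 := 77) (M := 1001) ((tO ++ (tB ++ (tR ++ (tF ++ tK)))) ++ kk2_x) kk2_pf (by decide +kernel)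
    (by decide +kernel) (by decide +kernel) (by decide +kernel) hp hts

theorem kk2 {V : Type} {G : SimpleGraph V} {X W : V → V → V → V → Prop} (h : WF G X W) {a b c d x t : V}
    (nd : [a, b, c, d, x, t].Nodup) (hk : K5 G a b c d x) (y1 : X x a c d) (y2 : X x b c d) (a1 : Pr G X W a b c d)
    (e : K5 G a b c x t) (hw : W a b c x) (g1 : X t b a c) (g2 : X t x a c)
    (m1 : ¬ W b a t x) (m2 : ¬ W c x b t) : False :=
  kk2_ref (S := (syW h).rel) (pt_inj (o := a) nd rfl) (PHs.app (UHs.phs ((tO_h h).app ((tB_h h).app ((tR_h h).app ((tF_h h).app (tK_h h))))) _ _) (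
  .cons (fun d hd h0 => h0 hk.1) (
  .cons (fun d hd h0 => h0 hk.2.1) (
  .cons (fun d hd h0 => h0 hk.2.2.1) (
  .cons (fun d hd h0 => h0 hk.2.2.2.1) (
  .cons (fun d hd h0 => h0 hk.2.2.2.2.1) (
  .cons (fun d hd h0 => h0 hk.2.2.2.2.2.1) (
  .cons (fun d hd h0 => h0 hk.2.2.2.2.2.2.1) (
  .cons (fun d hd h0 => h0 hk.2.2.2.2.2.2.2.1) (
  .cons (fun d hd h0 => h0 hk.2.2.2.2.2.2.2.2.1) (
  .cons (fun d hd h0 => h0 hk.2.2.2.2.2.2.2.2.2) (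
  .cons (fun d hd h0 => h0 y1) (
  .cons (fun d hd h0 => h0 y2) (
  .cons (fun d hd h0 => h0 a1.1) (
  .cons (fun d hd m0 m1 m2 m3 h0 h1 h2 h3 h4 h5 h6 h7 h8 h9 h10 h11 h12 h13 => ((a1.2).1 (d 0) ⟨h0, h1, h2, h3, h4, h5, h6, h7, h8, h9⟩ h10 h11).elim h12 h13) (
  .cons (fun d hd m0 m1 m2 m3 h0 h1 h2 h3 h4 h5 h6 h7 h8 h9 h10 h11 h12 h13 => ((a1.2).2.1 (d 0) ⟨h0, h1, h2, h3, h4, h5, h6, h7, h8, h9⟩ h10 h11).elim h12 h13) (
  .cons (fun d hd m0 m1 m2 m3 h0 h1 h2 h3 h4 h5 h6 h7 h8 h9 h10 h11 h12 h13 => ((a1.2).2.2.1 (d 0) ⟨h0, h1, h2, h3, h4, h5, h6, h7, h8, h9⟩ h10 h11).elim h12 h13) (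
  .cons (fun d hd m0 m1 m2 m3 h0 h1 h2 h3 h4 h5 h6 h7 h8 h9 h10 h11 h12 h13 => ((a1.2).2.2.2 (d 0) ⟨h0, h1, h2, h3, h4, h5, h6, h7, h8, h9⟩ h10 h11).elim h12 h13) (
  .cons (fun d hd h0 => h0 e.1) (
  .cons (fun d hd h0 => h0 e.2.1) (
  .cons (fun d hd h0 => h0 e.2.2.1) (
  .cons (fun d hd h0 => h0 e.2.2.2.1) (
  .cons (fun d hd h0 => h0 e.2.2.2.2.1) (
  .cons (fun d hd h0 => h0 e.2.2.2.2.2.1) (
  .cons (fun d hd h0 => h0 e.2.2.2.2.2.2.1) (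
  .cons (fun d hd h0 => h0 e.2.2.2.2.2.2.2.1) (
  .cons (fun d hd h0 => h0 e.2.2.2.2.2.2.2.2.1) (
  .cons (fun d hd h0 => h0 e.2.2.2.2.2.2.2.2.2) (
  .cons (fun d hd h0 => h0 hw) (
  .cons (fun d hd h0 => h0 g1) (
  .cons (fun d hd h0 => h0 g2) (
  .cons (fun d hd h0 => m1 h0) (
  .cons (fun d hd h0 => m2 h0) (
  .nil))))))))))))))))))))))))))))))))))

/-- templates -/
def kk3_x : List Tm := [
  ⟨0, [], [], [.b true 0 8 9]⟩,
  ⟨0, [], [], [.b true 0 8 10]⟩,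
  ⟨0, [], [], [.b true 0 8 11]⟩,
  ⟨0, [], [], [.b true 0 8 12]⟩,
  ⟨0, [], [], [.b true 0 9 10]⟩,
  ⟨0, [], [], [.b true 0 9 11]⟩,
  ⟨0, [], [], [.b true 0 9 12]⟩,
  ⟨0, [], [], [.b true 0 10 11]⟩,
  ⟨0, [], [], [.b true 0 10 12]⟩,
  ⟨0, [], [], [.b true 0 11 12]⟩,
  ⟨0, [], [], [.q true 0 12 8 10 11]⟩,
  ⟨0, [], [], [.q true 0 12 9 10 11]⟩,
  ⟨0, [], [], [.q true 2 8 9 10 11]⟩,
  ⟨1, [], [(0, 8), (0, 9), (0, 10), (0, 11)], [.b false 0 8 9, .b false 0 8 10, .b false 0 8 11, .b false 0 8 0, .b false 0 9 10, .b false 0 9 11, .b false 0 9 0, .b false 0 10 11, .b false 0 10 0, .b false 0 11 0, .q false 0 0 8 9 10, .q false 0 0 11 9 10, .q true 2 8 9 0 11, .q true 2 10 11 8 0]⟩,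
  ⟨1, [], [(0, 8), (0, 9), (0, 10), (0, 11)], [.b false 0 8 9, .b false 0 8 11, .b false 0 8 10, .b false 0 8 0, .b false 0 9 11, .b false 0 9 10, .b false 0 9 0, .b false 0 11 10, .b false 0 11 0, .b false 0 10 0, .q false 0 0 8 9 11, .q false 0 0 10 9 11, .q true 2 8 9 0 10, .q true 2 11 10 8 0]⟩,
  ⟨1, [], [(0, 8), (0, 9), (0, 10), (0, 11)], [.b false 0 9 8, .b false 0 9 10, .b false 0 9 11, .b false 0 9 0, .b false 0 8 10, .b false 0 8 11, .b false 0 8 0, .b false 0 10 11, .b false 0 10 0, .b false 0 11 0, .q false 0 0 9 8 10, .q false 0 0 11 8 10, .q true 2 9 8 0 11, .q true 2 10 11 9 0]⟩,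
  ⟨1, [], [(0, 8), (0, 9), (0, 10), (0, 11)], [.b false 0 9 8, .b false 0 9 11, .b false 0 9 10, .b false 0 9 0, .b false 0 8 11, .b false 0 8 10, .b false 0 8 0, .b false 0 11 10, .b false 0 11 0, .b false 0 10 0, .q false 0 0 9 8 11, .q false 0 0 10 8 11, .q true 2 9 8 0 10, .q true 2 11 10 9 0]⟩,
  ⟨0, [], [], [.b true 0 8 9]⟩,
  ⟨0, [], [], [.b true 0 8 10]⟩,
  ⟨0, [], [], [.b true 0 8 12]⟩,
  ⟨0, [], [], [.b true 0 8 13]⟩,
  ⟨0, [], [], [.b true 0 9 10]⟩,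
  ⟨0, [], [], [.b true 0 9 12]⟩,
  ⟨0, [], [], [.b true 0 9 13]⟩,
  ⟨0, [], [], [.b true 0 10 12]⟩,
  ⟨0, [], [], [.b true 0 10 13]⟩,
  ⟨0, [], [], [.b true 0 12 13]⟩,
  ⟨0, [], [], [.q true 2 8 9 10 12]⟩,
  ⟨0, [], [], [.q true 0 13 9 8 12]⟩,
  ⟨0, [], [], [.q true 0 13 10 8 12]⟩,
  ⟨0, [], [], [.q false 2 9 8 13 10]⟩,
  ⟨0, [], [], [.q false 2 12 10 9 13]⟩]

def kk3_p0 : List Nat := [
0x4860030000000950586000201,
0x486203000000097058a000201,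
0x62084070000000020000000040572000301,
0xaa100000008100000008300000008900000008500000008b00000008f02b7028f03f803f903fa03fb066e06b2000708,
0xa820030000000b90732000201,
0x2a80030000000b90642000201,
0x8a4200700000000600000000a069e000301,
0x4a80030000000bb0646000201,
0xa284070000000060000000100686000301,
0x842a00700000000c0000000100626000301,
0x480a2070000000b90000000120279000301,
0x42a01700000001400000000e0000000b30000000810000000830000000890000000a90000000af0000000bd0629000a01,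
0x800864a27f00680a4070008a640300640a20700a8264050000000b30000000af0000000a90000000bd0000000970000000b500000009300000009100000008d00000008f00000008b0000000890000000bf0000000160000000bb074e03fb001502,
0xa62403d0000a46110000000990000000180012000401,
0x1a00000001c074e000201,
0xa80640700000009500000001e024d000301,
0xa82640700000009700000001e028d000301,
0xa64207f0000000bd00000008100000008300000008900000008500000008b00000008f0000000a90000000af0000000b300000001c000000099000000020000000022000f00]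

def kk3_pf : List Nat := kk3_p0

theorem kk3_ref {V : Type} {S : SRel V} {p : Nat → V} (hp : ∀ i j, i < 6 → j < 6 → p i = p j → i = j)
    (hts : PHs S p 6 ((tO ++ (tB ++ (tR ++ (tF ++ tK)))) ++ kk3_x)) : False :=
  refuteS (k := 6) (n2 := 1) (n3 := 1) (n4 := 4) (o3 := 21) (o4 := 77) (M := 1001) ((tO ++ (tB ++ (tR ++ (tF ++ tK)))) ++ kk3_x) kk3_pf (by decide +kernel)
    (by decide +kernel) (by decide +kernel) (by decide +kernel) hp hts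

theorem kk3 {V : Type} {G : SimpleGraph V} {X W : V → V → V → V → Prop} (h : WF G X W) {a b c d x t : V}
    (nd : [a, b, c, d, x, t].Nodup) (hk : K5 G a b c d x) (y1 : X x a c d) (y2 : X x b c d) (a1 : Pr G X W a b c d)
    (e : K5 G a b c x t) (hw : W a b c x) (g1 : X t b a x) (g2 : X t c a x)
    (m1 : ¬ W b a t c) (m2 : ¬ W x c b t) : False :=
  kk3_ref (S := (syW h).rel) (pt_inj (o := a) nd rfl) (PHs.app (UHs.phs ((tO_h h).app ((tB_h h).app ((tR_h h).app ((tF_h h).app (tK_h h))))) _ _) (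
  .cons (fun d hd h0 => h0 hk.1) (
  .cons (fun d hd h0 => h0 hk.2.1) (
  .cons (fun d hd h0 => h0 hk.2.2.1) (
  .cons (fun d hd h0 => h0 hk.2.2.2.1) (
  .cons (fun d hd h0 => h0 hk.2.2.2.2.1) (
  .cons (fun d hd h0 => h0 hk.2.2.2.2.2.1) (
  .cons (fun d hd h0 => h0 hk.2.2.2.2.2.2.1) (
  .cons (fun d hd h0 => h0 hk.2.2.2.2.2.2.2.1) (
  .cons (fun d hd h0 => h0 hk.2.2.2.2.2.2.2.2.1) (
  .cons (fun d hd h0 => h0 hk.2.2.2.2.2.2.2.2.2) (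
  .cons (fun d hd h0 => h0 y1) (
  .cons (fun d hd h0 => h0 y2) (
  .cons (fun d hd h0 => h0 a1.1) (
  .cons (fun d hd m0 m1 m2 m3 h0 h1 h2 h3 h4 h5 h6 h7 h8 h9 h10 h11 h12 h13 => ((a1.2).1 (d 0) ⟨h0, h1, h2, h3, h4, h5, h6, h7, h8, h9⟩ h10 h11).elim h12 h13) (
  .cons (fun d hd m0 m1 m2 m3 h0 h1 h2 h3 h4 h5 h6 h7 h8 h9 h10 h11 h12 h13 => ((a1.2).2.1 (d 0) ⟨h0, h1, h2, h3, h4, h5, h6, h7, h8, h9⟩ h10 h11).elim h12 h13) (
  .cons (fun d hd m0 m1 m2 m3 h0 h1 h2 h3 h4 h5 h6 h7 h8 h9 h10 h11 h12 h13 => ((a1.2).2.2.1 (d 0) ⟨h0, h1, h2, h3, h4, h5, h6, h7, h8, h9⟩ h10 h11).elim h12 h13) (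
  .cons (fun d hd m0 m1 m2 m3 h0 h1 h2 h3 h4 h5 h6 h7 h8 h9 h10 h11 h12 h13 => ((a1.2).2.2.2 (d 0) ⟨h0, h1, h2, h3, h4, h5, h6, h7, h8, h9⟩ h10 h11).elim h12 h13) (
  .cons (fun d hd h0 => h0 e.1) (
  .cons (fun d hd h0 => h0 e.2.1) (
  .cons (fun d hd h0 => h0 e.2.2.1) (
  .cons (fun d hd h0 => h0 e.2.2.2.1) (
  .cons (fun d hd h0 => h0 e.2.2.2.2.1) (
  .cons (fun d hd h0 => h0 e.2.2.2.2.2.1) (
  .cons (fun d hd h0 => h0 e.2.2.2.2.2.2.1) (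
  .cons (fun d hd h0 => h0 e.2.2.2.2.2.2.2.1) (
  .cons (fun d hd h0 => h0 e.2.2.2.2.2.2.2.2.1) (
  .cons (fun d hd h0 => h0 e.2.2.2.2.2.2.2.2.2) (
  .cons (fun d hd h0 => h0 hw) (
  .cons (fun d hd h0 => h0 g1) (
  .cons (fun d hd h0 => h0 g2) (
  .cons (fun d hd h0 => m1 h0) (
  .cons (fun d hd h0 => m2 h0) (
  .nil))))))))))))))))))))))))))))))))))

/-- templates -/
def kd0_x : List Tm := [
  ⟨0, [], [], [.b true 0 8 9]⟩,
  ⟨0, [], [], [.b true 0 8 10]⟩,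
  ⟨0, [], [], [.b true 0 8 11]⟩,
  ⟨0, [], [], [.b true 0 8 12]⟩,
  ⟨0, [], [], [.b true 0 9 10]⟩,
  ⟨0, [], [], [.b true 0 9 11]⟩,
  ⟨0, [], [], [.b true 0 9 12]⟩,
  ⟨0, [], [], [.b true 0 10 11]⟩,
  ⟨0, [], [], [.b true 0 10 12]⟩,
  ⟨0, [], [], [.b true 0 11 12]⟩,
  ⟨0, [], [], [.q true 0 12 8 10 11]⟩,
  ⟨0, [], [], [.q true 0 12 9 10 11]⟩,
  ⟨0, [], [], [.q true 2 8 9 10 11]⟩,
  ⟨1, [], [(0, 8), (0, 9), (0, 10), (0, 11)], [.b false 0 8 9, .b false 0 8 10, .b false 0 8 11, .b false 0 8 0, .b false 0 9 10, .b false 0 9 11, .b false 0 9 0, .b false 0 10 11, .b false 0 10 0, .b false 0 11 0, .q false 0 0 8 9 10, .q false 0 0 11 9 10, .q true 2 8 9 0 11, .q true 2 10 11 8 0]⟩,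
  ⟨1, [], [(0, 8), (0, 9), (0, 10), (0, 11)], [.b false 0 8 9, .b false 0 8 11, .b false 0 8 10, .b false 0 8 0, .b false 0 9 11, .b false 0 9 10, .b false 0 9 0, .b false 0 11 10, .b false 0 11 0, .b false 0 10 0, .q false 0 0 8 9 11, .q false 0 0 10 9 11, .q true 2 8 9 0 10, .q true 2 11 10 8 0]⟩,
  ⟨1, [], [(0, 8), (0, 9), (0, 10), (0, 11)], [.b false 0 9 8, .b false 0 9 10, .b false 0 9 11, .b false 0 9 0, .b false 0 8 10, .b false 0 8 11, .b false 0 8 0, .b false 0 10 11, .b false 0 10 0, .b false 0 11 0, .q false 0 0 9 8 10, .q false 0 0 11 8 10, .q true 2 9 8 0 11, .q true 2 10 11 9 0]⟩,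
  ⟨1, [], [(0, 8), (0, 9), (0, 10), (0, 11)], [.b false 0 9 8, .b false 0 9 11, .b false 0 9 10, .b false 0 9 0, .b false 0 8 11, .b false 0 8 10, .b false 0 8 0, .b false 0 11 10, .b false 0 11 0, .b false 0 10 0, .q false 0 0 9 8 11, .q false 0 0 10 8 11, .q true 2 9 8 0 10, .q true 2 11 10 9 0]⟩,
  ⟨0, [], [], [.b true 0 8 9]⟩,
  ⟨0, [], [], [.b true 0 8 10]⟩,
  ⟨0, [], [], [.b true 0 8 12]⟩,
  ⟨0, [], [], [.b true 0 8 11]⟩,
  ⟨0, [], [], [.b true 0 9 10]⟩,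
  ⟨0, [], [], [.b true 0 9 12]⟩,
  ⟨0, [], [], [.b true 0 9 11]⟩,
  ⟨0, [], [], [.b true 0 10 12]⟩,
  ⟨0, [], [], [.b true 0 10 11]⟩,
  ⟨0, [], [], [.b true 0 12 11]⟩,
  ⟨0, [], [], [.q true 2 8 9 10 12]⟩,
  ⟨0, [], [], [.q true 0 11 8 9 10]⟩,
  ⟨0, [], [], [.q true 0 11 12 9 10]⟩,
  ⟨0, [], [], [.q false 2 8 9 11 12]⟩,
  ⟨0, [], [], [.q false 2 10 12 8 11]⟩]

def kd0_p0 : List Nat := [
0x68420300000009703c0000201,
0xbb000000002000200]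

def kd0_pf : List Nat := kd0_p0

theorem kd0_ref {V : Type} {S : SRel V} {p : Nat → V} (hp : ∀ i j, i < 5 → j < 5 → p i = p j → i = j)
    (hts : PHs S p 5 ((tO ++ (tB ++ (tR ++ (tF ++ tK)))) ++ kd0_x)) : False :=
  refuteS (k := 5) (n2 := 1) (n3 := 1) (n4 := 4) (o3 := 15) (o4 := 50) (M := 530) ((tO ++ (tB ++ (tR ++ (tF ++ tK)))) ++ kd0_x) kd0_pf (by decide +kernel)
    (by decide +kernel) (by decide +kernel) (by decide +kernel) hp hts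

theorem kd0 {V : Type} {G : SimpleGraph V} {X W : V → V → V → V → Prop} (h : WF G X W) {a b c d x : V}
    (nd : [a, b, c, d, x].Nodup) (hk : K5 G a b c d x) (y1 : X x a c d) (y2 : X x b c d) (a1 : Pr G X W a b c d)
    (e : K5 G a b c x d) (hw : W a b c x) (g1 : X d a b c) (g2 : X d x b c)
    (m1 : ¬ W a b d x) (m2 : ¬ W c x a d) : False :=
  kd0_ref (S := (syW h).rel) (pt_inj (o := a) nd rfl) (PHs.app (UHs.phs ((tO_h h).app ((tB_h h).app ((tR_h h).app ((tF_h h).app (tK_h h))))) _ _) (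
  .cons (fun d hd h0 => h0 hk.1) (
  .cons (fun d hd h0 => h0 hk.2.1) (
  .cons (fun d hd h0 => h0 hk.2.2.1) (
  .cons (fun d hd h0 => h0 hk.2.2.2.1) (
  .cons (fun d hd h0 => h0 hk.2.2.2.2.1) (
  .cons (fun d hd h0 => h0 hk.2.2.2.2.2.1) (
  .cons (fun d hd h0 => h0 hk.2.2.2.2.2.2.1) (
  .cons (fun d hd h0 => h0 hk.2.2.2.2.2.2.2.1) (
  .cons (fun d hd h0 => h0 hk.2.2.2.2.2.2.2.2.1) (
  .cons (fun d hd h0 => h0 hk.2.2.2.2.2.2.2.2.2) (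
  .cons (fun d hd h0 => h0 y1) (
  .cons (fun d hd h0 => h0 y2) (
  .cons (fun d hd h0 => h0 a1.1) (
  .cons (fun d hd m0 m1 m2 m3 h0 h1 h2 h3 h4 h5 h6 h7 h8 h9 h10 h11 h12 h13 => ((a1.2).1 (d 0) ⟨h0, h1, h2, h3, h4, h5, h6, h7, h8, h9⟩ h10 h11).elim h12 h13) (
  .cons (fun d hd m0 m1 m2 m3 h0 h1 h2 h3 h4 h5 h6 h7 h8 h9 h10 h11 h12 h13 => ((a1.2).2.1 (d 0) ⟨h0, h1, h2, h3, h4, h5, h6, h7, h8, h9⟩ h10 h11).elim h12 h13) (
  .cons (fun d hd m0 m1 m2 m3 h0 h1 h2 h3 h4 h5 h6 h7 h8 h9 h10 h11 h12 h13 => ((a1.2).2.2.1 (d 0) ⟨h0, h1, h2, h3, h4, h5, h6, h7, h8, h9⟩ h10 h11).elim h12 h13) (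
  .cons (fun d hd m0 m1 m2 m3 h0 h1 h2 h3 h4 h5 h6 h7 h8 h9 h10 h11 h12 h13 => ((a1.2).2.2.2 (d 0) ⟨h0, h1, h2, h3, h4, h5, h6, h7, h8, h9⟩ h10 h11).elim h12 h13) (
  .cons (fun d hd h0 => h0 e.1) (
  .cons (fun d hd h0 => h0 e.2.1) (
  .cons (fun d hd h0 => h0 e.2.2.1) (
  .cons (fun d hd h0 => h0 e.2.2.2.1) (
  .cons (fun d hd h0 => h0 e.2.2.2.2.1) (
  .cons (fun d hd h0 => h0 e.2.2.2.2.2.1) (
  .cons (fun d hd h0 => h0 e.2.2.2.2.2.2.1) (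
  .cons (fun d hd h0 => h0 e.2.2.2.2.2.2.2.1) (
  .cons (fun d hd h0 => h0 e.2.2.2.2.2.2.2.2.1) (
  .cons (fun d hd h0 => h0 e.2.2.2.2.2.2.2.2.2) (
  .cons (fun d hd h0 => h0 hw) (
  .cons (fun d hd h0 => h0 g1) (
  .cons (fun d hd h0 => h0 g2) (
  .cons (fun d hd h0 => m1 h0) (
  .cons (fun d hd h0 => m2 h0) (
  .nil))))))))))))))))))))))))))))))))))

/-- templates -/
def kd1_x : List Tm := [
  ⟨0, [], [], [.b true 0 8 9]⟩,
  ⟨0, [], [], [.b true 0 8 10]⟩,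
  ⟨0, [], [], [.b true 0 8 11]⟩,
  ⟨0, [], [], [.b true 0 8 12]⟩,
  ⟨0, [], [], [.b true 0 9 10]⟩,
  ⟨0, [], [], [.b true 0 9 11]⟩,
  ⟨0, [], [], [.b true 0 9 12]⟩,
  ⟨0, [], [], [.b true 0 10 11]⟩,
  ⟨0, [], [], [.b true 0 10 12]⟩,
  ⟨0, [], [], [.b true 0 11 12]⟩,
  ⟨0, [], [], [.q true 0 12 8 10 11]⟩,
  ⟨0, [], [], [.q true 0 12 9 10 11]⟩,
  ⟨0, [], [], [.q true 2 8 9 10 11]⟩,
  ⟨1, [], [(0, 8), (0, 9), (0, 10), (0, 11)], [.b false 0 8 9, .b false 0 8 10, .b false 0 8 11, .b false 0 8 0, .b false 0 9 10, .b false 0 9 11, .b false 0 9 0, .b false 0 10 11, .b false 0 10 0, .b false 0 11 0, .q false 0 0 8 9 10, .q false 0 0 11 9 10, .q true 2 8 9 0 11, .q true 2 10 11 8 0]⟩,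
  ⟨1, [], [(0, 8), (0, 9), (0, 10), (0, 11)], [.b false 0 8 9, .b false 0 8 11, .b false 0 8 10, .b false 0 8 0, .b false 0 9 11, .b false 0 9 10, .b false 0 9 0, .b false 0 11 10, .b false 0 11 0, .b false 0 10 0, .q false 0 0 8 9 11, .q false 0 0 10 9 11, .q true 2 8 9 0 10, .q true 2 11 10 8 0]⟩,
  ⟨1, [], [(0, 8), (0, 9), (0, 10), (0, 11)], [.b false 0 9 8, .b false 0 9 10, .b false 0 9 11, .b false 0 9 0, .b false 0 8 10, .b false 0 8 11, .b false 0 8 0, .b false 0 10 11, .b false 0 10 0, .b false 0 11 0, .q false 0 0 9 8 10, .q false 0 0 11 8 10, .q true 2 9 8 0 11, .q true 2 10 11 9 0]⟩,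
  ⟨1, [], [(0, 8), (0, 9), (0, 10), (0, 11)], [.b false 0 9 8, .b false 0 9 11, .b false 0 9 10, .b false 0 9 0, .b false 0 8 11, .b false 0 8 10, .b false 0 8 0, .b false 0 11 10, .b false 0 11 0, .b false 0 10 0, .q false 0 0 9 8 11, .q false 0 0 10 8 11, .q true 2 9 8 0 10, .q true 2 11 10 9 0]⟩,
  ⟨0, [], [], [.b true 0 8 9]⟩,
  ⟨0, [], [], [.b true 0 8 10]⟩,
  ⟨0, [], [], [.b true 0 8 12]⟩,
  ⟨0, [], [], [.b true 0 8 11]⟩,
  ⟨0, [], [], [.b true 0 9 10]⟩,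
  ⟨0, [], [], [.b true 0 9 12]⟩,
  ⟨0, [], [], [.b true 0 9 11]⟩,
  ⟨0, [], [], [.b true 0 10 12]⟩,
  ⟨0, [], [], [.b true 0 10 11]⟩,
  ⟨0, [], [], [.b true 0 12 11]⟩,
  ⟨0, [], [], [.q true 2 8 9 10 12]⟩,
  ⟨0, [], [], [.q true 0 11 8 9 12]⟩,
  ⟨0, [], [], [.q true 0 11 10 9 12]⟩,
  ⟨0, [], [], [.q false 2 8 9 11 10]⟩,
  ⟨0, [], [], [.q false 2 12 10 8 11]⟩]

def kd1_p0 : List Nat := [
0xbd000000099000200]

def kd1_pf : List Nat := kd1_p0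

theorem kd1_ref {V : Type} {S : SRel V} {p : Nat → V} (hp : ∀ i j, i < 5 → j < 5 → p i = p j → i = j)
    (hts : PHs S p 5 ((tO ++ (tB ++ (tR ++ (tF ++ tK)))) ++ kd1_x)) : False :=
  refuteS (k := 5) (n2 := 1) (n3 := 1) (n4 := 4) (o3 := 15) (o4 := 50) (M := 530) ((tO ++ (tB ++ (tR ++ (tF ++ tK)))) ++ kd1_x) kd1_pf (by decide +kernel)
    (by decide +kernel) (by decide +kernel) (by decide +kernel) hp hts

theorem kd1 {V : Type} {G : SimpleGraph V} {X W : V → V → V → V → Prop} (h : WF G X W) {a b c d x : V}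
    (nd : [a, b, c, d, x].Nodup) (hk : K5 G a b c d x) (y1 : X x a c d) (y2 : X x b c d) (a1 : Pr G X W a b c d)
    (e : K5 G a b c x d) (hw : W a b c x) (g1 : X d a b x) (g2 : X d c b x)
    (m1 : ¬ W a b d c) (m2 : ¬ W x c a d) : False :=
  kd1_ref (S := (syW h).rel) (pt_inj (o := a) nd rfl) (PHs.app (UHs.phs ((tO_h h).app ((tB_h h).app ((tR_h h).app ((tF_h h).app (tK_h h))))) _ _) (
  .cons (fun d hd h0 => h0 hk.1) (
  .cons (fun d hd h0 => h0 hk.2.1) (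
  .cons (fun d hd h0 => h0 hk.2.2.1) (
  .cons (fun d hd h0 => h0 hk.2.2.2.1) (
  .cons (fun d hd h0 => h0 hk.2.2.2.2.1) (
  .cons (fun d hd h0 => h0 hk.2.2.2.2.2.1) (
  .cons (fun d hd h0 => h0 hk.2.2.2.2.2.2.1) (
  .cons (fun d hd h0 => h0 hk.2.2.2.2.2.2.2.1) (
  .cons (fun d hd h0 => h0 hk.2.2.2.2.2.2.2.2.1) (
  .cons (fun d hd h0 => h0 hk.2.2.2.2.2.2.2.2.2) (
  .cons (fun d hd h0 => h0 y1) (
  .cons (fun d hd h0 => h0 y2) (
  .cons (fun d hd h0 => h0 a1.1) (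
  .cons (fun d hd m0 m1 m2 m3 h0 h1 h2 h3 h4 h5 h6 h7 h8 h9 h10 h11 h12 h13 => ((a1.2).1 (d 0) ⟨h0, h1, h2, h3, h4, h5, h6, h7, h8, h9⟩ h10 h11).elim h12 h13) (
  .cons (fun d hd m0 m1 m2 m3 h0 h1 h2 h3 h4 h5 h6 h7 h8 h9 h10 h11 h12 h13 => ((a1.2).2.1 (d 0) ⟨h0, h1, h2, h3, h4, h5, h6, h7, h8, h9⟩ h10 h11).elim h12 h13) (
  .cons (fun d hd m0 m1 m2 m3 h0 h1 h2 h3 h4 h5 h6 h7 h8 h9 h10 h11 h12 h13 => ((a1.2).2.2.1 (d 0) ⟨h0, h1, h2, h3, h4, h5, h6, h7, h8, h9⟩ h10 h11).elim h12 h13) (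
  .cons (fun d hd m0 m1 m2 m3 h0 h1 h2 h3 h4 h5 h6 h7 h8 h9 h10 h11 h12 h13 => ((a1.2).2.2.2 (d 0) ⟨h0, h1, h2, h3, h4, h5, h6, h7, h8, h9⟩ h10 h11).elim h12 h13) (
  .cons (fun d hd h0 => h0 e.1) (
  .cons (fun d hd h0 => h0 e.2.1) (
  .cons (fun d hd h0 => h0 e.2.2.1) (
  .cons (fun d hd h0 => h0 e.2.2.2.1) (
  .cons (fun d hd h0 => h0 e.2.2.2.2.1) (
  .cons (fun d hd h0 => h0 e.2.2.2.2.2.1) (
  .cons (fun d hd h0 => h0 e.2.2.2.2.2.2.1) (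
  .cons (fun d hd h0 => h0 e.2.2.2.2.2.2.2.1) (
  .cons (fun d hd h0 => h0 e.2.2.2.2.2.2.2.2.1) (
  .cons (fun d hd h0 => h0 e.2.2.2.2.2.2.2.2.2) (
  .cons (fun d hd h0 => h0 hw) (
  .cons (fun d hd h0 => h0 g1) (
  .cons (fun d hd h0 => h0 g2) (
  .cons (fun d hd h0 => m1 h0) (
  .cons (fun d hd h0 => m2 h0) (
  .nil))))))))))))))))))))))))))))))))))

/-- templates -/
def kd2_x : List Tm := [
  ⟨0, [], [], [.b true 0 8 9]⟩,
  ⟨0, [], [], [.b true 0 8 10]⟩,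
  ⟨0, [], [], [.b true 0 8 11]⟩,
  ⟨0, [], [], [.b true 0 8 12]⟩,
  ⟨0, [], [], [.b true 0 9 10]⟩,
  ⟨0, [], [], [.b true 0 9 11]⟩,
  ⟨0, [], [], [.b true 0 9 12]⟩,
  ⟨0, [], [], [.b true 0 10 11]⟩,
  ⟨0, [], [], [.b true 0 10 12]⟩,
  ⟨0, [], [], [.b true 0 11 12]⟩,
  ⟨0, [], [], [.q true 0 12 8 10 11]⟩,
  ⟨0, [], [], [.q true 0 12 9 10 11]⟩,
  ⟨0, [], [], [.q true 2 8 9 10 11]⟩,
  ⟨1, [], [(0, 8), (0, 9), (0, 10), (0, 11)], [.b false 0 8 9, .b false 0 8 10, .b false 0 8 11, .b false 0 8 0, .b false 0 9 10, .b false 0 9 11, .b false 0 9 0, .b false 0 10 11, .b false 0 10 0, .b false 0 11 0, .q false 0 0 8 9 10, .q false 0 0 11 9 10, .q true 2 8 9 0 11, .q true 2 10 11 8 0]⟩,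
  ⟨1, [], [(0, 8), (0, 9), (0, 10), (0, 11)], [.b false 0 8 9, .b false 0 8 11, .b false 0 8 10, .b false 0 8 0, .b false 0 9 11, .b false 0 9 10, .b false 0 9 0, .b false 0 11 10, .b false 0 11 0, .b false 0 10 0, .q false 0 0 8 9 11, .q false 0 0 10 9 11, .q true 2 8 9 0 10, .q true 2 11 10 8 0]⟩,
  ⟨1, [], [(0, 8), (0, 9), (0, 10), (0, 11)], [.b false 0 9 8, .b false 0 9 10, .b false 0 9 11, .b false 0 9 0, .b false 0 8 10, .b false 0 8 11, .b false 0 8 0, .b false 0 10 11, .b false 0 10 0, .b false 0 11 0, .q false 0 0 9 8 10, .q false 0 0 11 8 10, .q true 2 9 8 0 11, .q true 2 10 11 9 0]⟩,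
  ⟨1, [], [(0, 8), (0, 9), (0, 10), (0, 11)], [.b false 0 9 8, .b false 0 9 11, .b false 0 9 10, .b false 0 9 0, .b false 0 8 11, .b false 0 8 10, .b false 0 8 0, .b false 0 11 10, .b false 0 11 0, .b false 0 10 0, .q false 0 0 9 8 11, .q false 0 0 10 8 11, .q true 2 9 8 0 10, .q true 2 11 10 9 0]⟩,
  ⟨0, [], [], [.b true 0 8 9]⟩,
  ⟨0, [], [], [.b true 0 8 10]⟩,
  ⟨0, [], [], [.b true 0 8 12]⟩,
  ⟨0, [], [], [.b true 0 8 11]⟩,
  ⟨0, [], [], [.b true 0 9 10]⟩,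
  ⟨0, [], [], [.b true 0 9 12]⟩,
  ⟨0, [], [], [.b true 0 9 11]⟩,
  ⟨0, [], [], [.b true 0 10 12]⟩,
  ⟨0, [], [], [.b true 0 10 11]⟩,
  ⟨0, [], [], [.b true 0 12 11]⟩,
  ⟨0, [], [], [.q true 2 8 9 10 12]⟩,
  ⟨0, [], [], [.q true 0 11 9 8 10]⟩,
  ⟨0, [], [], [.q true 0 11 12 8 10]⟩,
  ⟨0, [], [], [.q false 2 9 8 11 12]⟩,
  ⟨0, [], [], [.q false 2 10 12 9 11]⟩]

def kd2_p0 : List Nat := [
0x68400300000009503bc000201,
0xbb000000002000200]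

def kd2_pf : List Nat := kd2_p0

theorem kd2_ref {V : Type} {S : SRel V} {p : Nat → V} (hp : ∀ i j, i < 5 → j < 5 → p i = p j → i = j)
    (hts : PHs S p 5 ((tO ++ (tB ++ (tR ++ (tF ++ tK)))) ++ kd2_x)) : False :=
  refuteS (k := 5) (n2 := 1) (n3 := 1) (n4 := 4) (o3 := 15) (o4 := 50) (M := 530) ((tO ++ (tB ++ (tR ++ (tF ++ tK)))) ++ kd2_x) kd2_pf (by decide +kernel)
    (by decide +kernel) (by decide +kernel) (by decide +kernel) hp hts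

theorem kd2 {V : Type} {G : SimpleGraph V} {X W : V → V → V → V → Prop} (h : WF G X W) {a b c d x : V}
    (nd : [a, b, c, d, x].Nodup) (hk : K5 G a b c d x) (y1 : X x a c d) (y2 : X x b c d) (a1 : Pr G X W a b c d)
    (e : K5 G a b c x d) (hw : W a b c x) (g1 : X d b a c) (g2 : X d x a c)
    (m1 : ¬ W b a d x) (m2 : ¬ W c x b d) : False :=
  kd2_ref (S := (syW h).rel) (pt_inj (o := a) nd rfl) (PHs.app (UHs.phs ((tO_h h).app ((tB_h h).app ((tR_h h).app ((tF_h h).app (tK_h h))))) _ _) (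
  .cons (fun d hd h0 => h0 hk.1) (
  .cons (fun d hd h0 => h0 hk.2.1) (
  .cons (fun d hd h0 => h0 hk.2.2.1) (
  .cons (fun d hd h0 => h0 hk.2.2.2.1) (
  .cons (fun d hd h0 => h0 hk.2.2.2.2.1) (
  .cons (fun d hd h0 => h0 hk.2.2.2.2.2.1) (
  .cons (fun d hd h0 => h0 hk.2.2.2.2.2.2.1) (
  .cons (fun d hd h0 => h0 hk.2.2.2.2.2.2.2.1) (
  .cons (fun d hd h0 => h0 hk.2.2.2.2.2.2.2.2.1) (
  .cons (fun d hd h0 => h0 hk.2.2.2.2.2.2.2.2.2) (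
  .cons (fun d hd h0 => h0 y1) (
  .cons (fun d hd h0 => h0 y2) (
  .cons (fun d hd h0 => h0 a1.1) (
  .cons (fun d hd m0 m1 m2 m3 h0 h1 h2 h3 h4 h5 h6 h7 h8 h9 h10 h11 h12 h13 => ((a1.2).1 (d 0) ⟨h0, h1, h2, h3, h4, h5, h6, h7, h8, h9⟩ h10 h11).elim h12 h13) (
  .cons (fun d hd m0 m1 m2 m3 h0 h1 h2 h3 h4 h5 h6 h7 h8 h9 h10 h11 h12 h13 => ((a1.2).2.1 (d 0) ⟨h0, h1, h2, h3, h4, h5, h6, h7, h8, h9⟩ h10 h11).elim h12 h13) (
  .cons (fun d hd m0 m1 m2 m3 h0 h1 h2 h3 h4 h5 h6 h7 h8 h9 h10 h11 h12 h13 => ((a1.2).2.2.1 (d 0) ⟨h0, h1, h2, h3, h4, h5, h6, h7, h8, h9⟩ h10 h11).elim h12 h13) (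
  .cons (fun d hd m0 m1 m2 m3 h0 h1 h2 h3 h4 h5 h6 h7 h8 h9 h10 h11 h12 h13 => ((a1.2).2.2.2 (d 0) ⟨h0, h1, h2, h3, h4, h5, h6, h7, h8, h9⟩ h10 h11).elim h12 h13) (
  .cons (fun d hd h0 => h0 e.1) (
  .cons (fun d hd h0 => h0 e.2.1) (
  .cons (fun d hd h0 => h0 e.2.2.1) (
  .cons (fun d hd h0 => h0 e.2.2.2.1) (
  .cons (fun d hd h0 => h0 e.2.2.2.2.1) (
  .cons (fun d hd h0 => h0 e.2.2.2.2.2.1) (
  .cons (fun d hd h0 => h0 e.2.2.2.2.2.2.1) (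
  .cons (fun d hd h0 => h0 e.2.2.2.2.2.2.2.1) (
  .cons (fun d hd h0 => h0 e.2.2.2.2.2.2.2.2.1) (
  .cons (fun d hd h0 => h0 e.2.2.2.2.2.2.2.2.2) (
  .cons (fun d hd h0 => h0 hw) (
  .cons (fun d hd h0 => h0 g1) (
  .cons (fun d hd h0 => h0 g2) (
  .cons (fun d hd h0 => m1 h0) (
  .cons (fun d hd h0 => m2 h0) (
  .nil))))))))))))))))))))))))))))))))))

/-- templates -/
def kd3_x : List Tm := [
  ⟨0, [], [], [.b true 0 8 9]⟩,
  ⟨0, [], [], [.b true 0 8 10]⟩,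
  ⟨0, [], [], [.b true 0 8 11]⟩,
  ⟨0, [], [], [.b true 0 8 12]⟩,
  ⟨0, [], [], [.b true 0 9 10]⟩,
  ⟨0, [], [], [.b true 0 9 11]⟩,
  ⟨0, [], [], [.b true 0 9 12]⟩,
  ⟨0, [], [], [.b true 0 10 11]⟩,
  ⟨0, [], [], [.b true 0 10 12]⟩,
  ⟨0, [], [], [.b true 0 11 12]⟩,
  ⟨0, [], [], [.q true 0 12 8 10 11]⟩,
  ⟨0, [], [], [.q true 0 12 9 10 11]⟩,
  ⟨0, [], [], [.q true 2 8 9 10 11]⟩,
  ⟨1, [], [(0, 8), (0, 9), (0, 10), (0, 11)], [.b false 0 8 9, .b false 0 8 10, .b false 0 8 11, .b false 0 8 0, .b false 0 9 10, .b false 0 9 11, .b false 0 9 0, .b false 0 10 11, .b false 0 10 0, .b false 0 11 0, .q false 0 0 8 9 10, .q false 0 0 11 9 10, .q true 2 8 9 0 11, .q true 2 10 11 8 0]⟩,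
  ⟨1, [], [(0, 8), (0, 9), (0, 10), (0, 11)], [.b false 0 8 9, .b false 0 8 11, .b false 0 8 10, .b false 0 8 0, .b false 0 9 11, .b false 0 9 10, .b false 0 9 0, .b false 0 11 10, .b false 0 11 0, .b false 0 10 0, .q false 0 0 8 9 11, .q false 0 0 10 9 11, .q true 2 8 9 0 10, .q true 2 11 10 8 0]⟩,
  ⟨1, [], [(0, 8), (0, 9), (0, 10), (0, 11)], [.b false 0 9 8, .b false 0 9 10, .b false 0 9 11, .b false 0 9 0, .b false 0 8 10, .b false 0 8 11, .b false 0 8 0, .b false 0 10 11, .b false 0 10 0, .b false 0 11 0, .q false 0 0 9 8 10, .q false 0 0 11 8 10, .q true 2 9 8 0 11, .q true 2 10 11 9 0]⟩,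
  ⟨1, [], [(0, 8), (0, 9), (0, 10), (0, 11)], [.b false 0 9 8, .b false 0 9 11, .b false 0 9 10, .b false 0 9 0, .b false 0 8 11, .b false 0 8 10, .b false 0 8 0, .b false 0 11 10, .b false 0 11 0, .b false 0 10 0, .q false 0 0 9 8 11, .q false 0 0 10 8 11, .q true 2 9 8 0 10, .q true 2 11 10 9 0]⟩,
  ⟨0, [], [], [.b true 0 8 9]⟩,
  ⟨0, [], [], [.b true 0 8 10]⟩,
  ⟨0, [], [], [.b true 0 8 12]⟩,
  ⟨0, [], [], [.b true 0 8 11]⟩,
  ⟨0, [], [], [.b true 0 9 10]⟩,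
  ⟨0, [], [], [.b true 0 9 12]⟩,
  ⟨0, [], [], [.b true 0 9 11]⟩,
  ⟨0, [], [], [.b true 0 10 12]⟩,
  ⟨0, [], [], [.b true 0 10 11]⟩,
  ⟨0, [], [], [.b true 0 12 11]⟩,
  ⟨0, [], [], [.q true 2 8 9 10 12]⟩,
  ⟨0, [], [], [.q true 0 11 9 8 12]⟩,
  ⟨0, [], [], [.q true 0 11 10 8 12]⟩,
  ⟨0, [], [], [.q false 2 9 8 11 10]⟩,
  ⟨0, [], [], [.q false 2 12 10 9 11]⟩]

def kd3_p0 : List Nat := [
0xbd000000099000200]

def kd3_pf : List Nat := kd3_p0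

theorem kd3_ref {V : Type} {S : SRel V} {p : Nat → V} (hp : ∀ i j, i < 5 → j < 5 → p i = p j → i = j)
    (hts : PHs S p 5 ((tO ++ (tB ++ (tR ++ (tF ++ tK)))) ++ kd3_x)) : False :=
  refuteS (k := 5) (n2 := 1) (n3 := 1) (n4 := 4) (o3 := 15) (o4 := 50) (M := 530) ((tO ++ (tB ++ (tR ++ (tF ++ tK)))) ++ kd3_x) kd3_pf (by decide +kernel)
    (by decide +kernel) (by decide +kernel) (by decide +kernel) hp hts

theorem kd3 {V : Type} {G : SimpleGraph V} {X W : V → V → V → V → Prop} (h : WF G X W) {a b c d x : V}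
    (nd : [a, b, c, d, x].Nodup) (hk : K5 G a b c d x) (y1 : X x a c d) (y2 : X x b c d) (a1 : Pr G X W a b c d)
    (e : K5 G a b c x d) (hw : W a b c x) (g1 : X d b a x) (g2 : X d c a x)
    (m1 : ¬ W b a d c) (m2 : ¬ W x c b d) : False :=
  kd3_ref (S := (syW h).rel) (pt_inj (o := a) nd rfl) (PHs.app (UHs.phs ((tO_h h).app ((tB_h h).app ((tR_h h).app ((tF_h h).app (tK_h h))))) _ _) (
  .cons (fun d hd h0 => h0 hk.1) (
  .cons (fun d hd h0 => h0 hk.2.1) (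
  .cons (fun d hd h0 => h0 hk.2.2.1) (
  .cons (fun d hd h0 => h0 hk.2.2.2.1) (
  .cons (fun d hd h0 => h0 hk.2.2.2.2.1) (
  .cons (fun d hd h0 => h0 hk.2.2.2.2.2.1) (
  .cons (fun d hd h0 => h0 hk.2.2.2.2.2.2.1) (
  .cons (fun d hd h0 => h0 hk.2.2.2.2.2.2.2.1) (
  .cons (fun d hd h0 => h0 hk.2.2.2.2.2.2.2.2.1) (
  .cons (fun d hd h0 => h0 hk.2.2.2.2.2.2.2.2.2) (
  .cons (fun d hd h0 => h0 y1) (
  .cons (fun d hd h0 => h0 y2) (
  .cons (fun d hd h0 => h0 a1.1) (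
  .cons (fun d hd m0 m1 m2 m3 h0 h1 h2 h3 h4 h5 h6 h7 h8 h9 h10 h11 h12 h13 => ((a1.2).1 (d 0) ⟨h0, h1, h2, h3, h4, h5, h6, h7, h8, h9⟩ h10 h11).elim h12 h13) (
  .cons (fun d hd m0 m1 m2 m3 h0 h1 h2 h3 h4 h5 h6 h7 h8 h9 h10 h11 h12 h13 => ((a1.2).2.1 (d 0) ⟨h0, h1, h2, h3, h4, h5, h6, h7, h8, h9⟩ h10 h11).elim h12 h13) (
  .cons (fun d hd m0 m1 m2 m3 h0 h1 h2 h3 h4 h5 h6 h7 h8 h9 h10 h11 h12 h13 => ((a1.2).2.2.1 (d 0) ⟨h0, h1, h2, h3, h4, h5, h6, h7, h8, h9⟩ h10 h11).elim h12 h13) (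
  .cons (fun d hd m0 m1 m2 m3 h0 h1 h2 h3 h4 h5 h6 h7 h8 h9 h10 h11 h12 h13 => ((a1.2).2.2.2 (d 0) ⟨h0, h1, h2, h3, h4, h5, h6, h7, h8, h9⟩ h10 h11).elim h12 h13) (
  .cons (fun d hd h0 => h0 e.1) (
  .cons (fun d hd h0 => h0 e.2.1) (
  .cons (fun d hd h0 => h0 e.2.2.1) (
  .cons (fun d hd h0 => h0 e.2.2.2.1) (
  .cons (fun d hd h0 => h0 e.2.2.2.2.1) (
  .cons (fun d hd h0 => h0 e.2.2.2.2.2.1) (
  .cons (fun d hd h0 => h0 e.2.2.2.2.2.2.1) (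
  .cons (fun d hd h0 => h0 e.2.2.2.2.2.2.2.1) (
  .cons (fun d hd h0 => h0 e.2.2.2.2.2.2.2.2.1) (
  .cons (fun d hd h0 => h0 e.2.2.2.2.2.2.2.2.2) (
  .cons (fun d hd h0 => h0 hw) (
  .cons (fun d hd h0 => h0 g1) (
  .cons (fun d hd h0 => h0 g2) (
  .cons (fun d hd h0 => m1 h0) (
  .cons (fun d hd h0 => m2 h0) (
  .nil))))))))))))))))))))))))))))))))))

end Pool.Agent.SOF
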