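import Pool.Agent.SOF.Rbf
import Pool.Agent.SOF.Rbb
import Pool.Agent.SOF.Rd
import Pool.Agent.SOF.Rk
import Pool.Agent.SOF.Rcf
import Pool.Agent.SOF.Rcb

/-! Project SOF, module Inv: the invariant holds for all elements of the smallest closed relation. -/

set_option autoImplicit false

namespace Pool.Agent.SOF

open Pool.Agent.SOC Pool.Agent.SOD Pool.Agent.RUP

section
variable {V : Type} {G : SimpleGraph V} {X W : V → V → V → V → Prop}

theorem I2.ex (h : WF G X W) {a b c d : V} (hi : I2 G X W a b c d) : I2 G X W d c b a := by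
  intro t hk g1 g2
  obtain ⟨e1, e2, e3, e4, e5, e6, e7, e8, e9, e10⟩ := hk
  rcases hi t ⟨e8.symm, e6.symm, e3.symm, e10, e5.symm, e2.symm, e9, e1.symm, e7, e4⟩ (h.sx3 g2) (h.sx3 g1) with h1 | h1
  · exact Or.inr (h.sw3 (h.cl.sw1 h1))
  · exact Or.inl (h.sw3 (h.cl.sw1 h1))

theorem I4.sw1 {a b c d : V} (hi : I4 G X W a b c d) : I4 G X W b a c d := ⟨hi.2.2.1, hi.2.2.2, hi.1, hi.2.1⟩

theorem I4.sw2 (h : WF G X W) {a b c d : V} (hi : I4 G X W a b c d) : I4 G X W c d a b :=
  ⟨hi.2.2.2.ex h, hi.2.1.ex h, hi.2.2.1.ex h, hi.1.ex h⟩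

theorem I4.mk {p q r s : V}
    (H1 : ∀ t, K5 G p q r s t → X t p q r → X t s q r → ¬ W p q t s → ¬ W r s p t → False)
    (H2 : ∀ t, K5 G p q r s t → X t p q s → X t r q s → ¬ W p q t r → ¬ W s r p t → False)
    (H3 : ∀ t, K5 G p q r s t → X t q p r → X t s p r → ¬ W q p t s → ¬ W r s q t → False)
    (H4 : ∀ t, K5 G p q r s t → X t q p s → X t r p s → ¬ W q p t r → ¬ W s r q t → False) :
    I4 G X W p q r s := by
  refine ⟨fun t hk g1 g2 => ?_, fun t hk g1 g2 => ?_, fun t hk g1 g2 => ?_, fun t hk g1 g2 => ?_⟩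
  · by_contra hc
    rw [not_or] at hc
    exact H1 t hk g1 g2 hc.1 hc.2
  · obtain ⟨e1, e2, e3, e4, e5, e6, e7, e8, e9, e10⟩ := hk
    by_contra hc
    rw [not_or] at hc
    exact H2 t ⟨e1, e3, e2, e4, e6, e5, e7, e8.symm, e10, e9⟩ g1 g2 hc.1 hc.2
  · obtain ⟨e1, e2, e3, e4, e5, e6, e7, e8, e9, e10⟩ := hk
    by_contra hc
    rw [not_or] at hc
    exact H3 t ⟨e1.symm, e5, e6, e7, e2, e3, e4, e8, e9, e10⟩ g1 g2 hc.1 hc.2
  · obtain ⟨e1, e2, e3, e4, e5, e6, e7, e8, e9, e10⟩ := hk
    by_contra hc
    rw [not_or] at hc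
    exact H4 t ⟨e1.symm, e6, e5, e7, e3, e2, e4, e8.symm, e10, e9⟩ g1 g2 hc.1 hc.2

/-- the invariant is void for sets which are not complete -/
theorem I4.void {p q r s : V} (hn : ∀ t, ¬ K5 G p q r s t) : I4 G X W p q r s :=
  I4.mk (fun t e _ _ _ _ => hn t e) (fun t e _ _ _ _ => hn t e) (fun t e _ _ _ _ => hn t e) (fun t e _ _ _ _ => hn t e)

theorem IF.of (h : WF G X W) {a b c d : V} (hr : RF G X (Pr G X W) a b c d) : IF G X W a b c d := by
  have conf : W a c b d → W a d b c → False := fun h1 h2 => h.ex (h.sw3 h2) (h.sw3 h1)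
  refine ⟨hr.mono fun k => k.1, fun hw nx => ?_, fun hw nx => ?_⟩
  · rcases hr with h1 | h1 | h1 | h1
    · refine I4.void fun t e => ?_
      obtain ⟨e1, e2, e3, e4, e5, e6, e7, e8, e9, e10⟩ := e
      exact h1 ⟨e1, e3, e5.symm, e8⟩
    · exact absurd h1 nx
    · exact h1.2
    · exact (conf hw h1.1).elim
  · rcases hr with h1 | h1 | h1 | h1
    · refine I4.void fun t e => ?_
      obtain ⟨e1, e2, e3, e4, e5, e6, e7, e8, e9, e10⟩ := e
      exact h1 ⟨e3, e1, e8, e5.symm⟩
    · exact absurd h1 nx
    · exact (conf h1.1 hw).elim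
    · exact h1.2

theorem cl_Pr (h : WF G X W) : Cl G X (Pr G X W) where
  sw1 := fun h1 => ⟨h.cl.sw1 h1.1, h1.2.sw1⟩
  sw2 := fun h1 => ⟨h.cl.sw2 h1.1, h1.2.sw2 h⟩
  const := by
    intro p q r s h1 h2 h3 h4 h5
    refine ⟨h.cl.const h1 h2 h3 h4 h5, I4.void fun t e => h5 e.1⟩
  bf := by
    intro u w x y z hk xz a1 a2
    have hw := h.cl.bf hk xz a1.1 a2.1
    have nd : ∀ t, K5 G u w x z t → [u, w, x, y, z, t].Nodup := by
      intro t e
      have yt : y ≠ t := by
        rintro rfl
        exact hk u (by simp) w (by simp) x (by simp) z (by simp) y (by simp) e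
      obtain ⟨e1, e2, e3, e4, e5, e6, e7, e8, e9, e10⟩ := e
      obtain ⟨s1, s2, s3, s4⟩ := h.sq a1.1
      have n1 := h.ne' a1.1
      have n2 := h.ne' a2.1
      ((simp only [List.nodup_cons, List.mem_cons, List.not_mem_nil, or_false, not_or, not_false_eq_true,
        List.nodup_nil, and_true]; repeat' apply And.intro) <;>
        first
          | assumption
          | (apply Ne.symm; assumption)
          | (apply SimpleGraph.Adj.ne; assumption)
          | (apply Ne.symm; apply SimpleGraph.Adj.ne; assumption))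
    exact ⟨hw, I4.mk (fun t e => bf0 h (nd t e) a1 a2 hk e hw) (fun t e => bf1 h (nd t e) a1 a2 hk e hw)
      (fun t e => bf2 h (nd t e) a1 a2 hk e hw) (fun t e => bf3 h (nd t e) a1 a2 hk e hw)⟩
  bb := by
    intro u w x y z hk xz a1 a2 k4 x1 x2
    have hw := h.cl.bb hk xz a1.1 (a2.mono fun k => k.1) k4 x1 x2
    have i2 := IF.of h a2
    have nd : ∀ t, K5 G u y w z t → [u, w, x, y, z, t].Nodup := by
      intro t e
      have xt : x ≠ t := by
        rintro rfl
        exact hk u (by simp) y (by simp) w (by simp) z (by simp) x (by simp) e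
      obtain ⟨e1, e2, e3, e4, e5, e6, e7, e8, e9, e10⟩ := e
      obtain ⟨s1, s2, s3, s4⟩ := h.sq a1.1
      have n1 := h.ne' a1.1
      ((simp only [List.nodup_cons, List.mem_cons, List.not_mem_nil, or_false, not_or, not_false_eq_true,
        List.nodup_nil, and_true]; repeat' apply And.intro) <;>
        first
          | assumption
          | (apply Ne.symm; assumption)
          | (apply SimpleGraph.Adj.ne; assumption)
          | (apply Ne.symm; apply SimpleGraph.Adj.ne; assumption))
    exact ⟨hw, I4.mk (fun t e => bb0 h (nd t e) a1 i2 x1 hk e hw) (fun t e => bb1 h (nd t e) a1 i2 x1 hk e hw)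
      (fun t e => bb2 h (nd t e) a1 i2 x1 hk e hw) (fun t e => bb3 h (nd t e) a1 i2 x1 hk e hw)⟩
  df := by
    intro a b x y x2 hk xn a1 a2
    have hw := h.cl.df hk xn a1.1 a2.1
    have nd : ∀ t, K5 G a x2 b y t → [a, b, x, y, x2, t].Nodup := by
      intro t e
      have xt : x ≠ t := by
        rintro rfl
        exact hk a (by simp) x2 (by simp) b (by simp) y (by simp) x (by simp) e
      obtain ⟨e1, e2, e3, e4, e5, e6, e7, e8, e9, e10⟩ := e
      obtain ⟨s1, s2, s3, s4⟩ := h.sq a1.1
      obtain ⟨r1, r2, r3, r4⟩ := h.sq a2.1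
      have n1 := h.ne a1.1
      ((simp only [List.nodup_cons, List.mem_cons, List.not_mem_nil, or_false, not_or, not_false_eq_true,
        List.nodup_nil, and_true]; repeat' apply And.intro) <;>
        first
          | assumption
          | (apply Ne.symm; assumption)
          | (apply SimpleGraph.Adj.ne; assumption)
          | (apply Ne.symm; apply SimpleGraph.Adj.ne; assumption))
    exact ⟨hw, I4.mk (fun t e => df0 h (nd t e) a1 a2 hk e hw) (fun t e => df1 h (nd t e) a1 a2 hk e hw)
      (fun t e => df2 h (nd t e) a1 a2 hk e hw) (fun t e => df3 h (nd t e) a1 a2 hk e hw)⟩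
  db1 := by
    intro a b x y x2 hk xn a1 a2 k4 g1 g2
    have hw := h.cl.db1 hk xn a1.1 (a2.mono fun k => k.1) k4 g1 g2
    have i2 := IF.of h a2
    have nd : ∀ t, K5 G a b x2 x t → [a, b, x, y, x2, t].Nodup := by
      intro t e
      have yt : y ≠ t := by
        rintro rfl
        exact hk a (by simp) b (by simp) x2 (by simp) x (by simp) y (by simp) e
      obtain ⟨e1, e2, e3, e4, e5, e6, e7, e8, e9, e10⟩ := e
      obtain ⟨s1, s2, s3, s4⟩ := h.sq a1.1
      have n1 := h.ne' a1.1
      ((simp only [List.nodup_cons, List.mem_cons, List.not_mem_nil, or_false, not_or, not_false_eq_true,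
        List.nodup_nil, and_true]; repeat' apply And.intro) <;>
        first
          | assumption
          | (apply Ne.symm; assumption)
          | (apply SimpleGraph.Adj.ne; assumption)
          | (apply Ne.symm; apply SimpleGraph.Adj.ne; assumption))
    exact ⟨hw, I4.mk (fun t e => db00 h (nd t e) a1 i2 g1 hk e hw) (fun t e => db01 h (nd t e) a1 i2 g1 hk e hw)
      (fun t e => db02 h (nd t e) a1 i2 g1 hk e hw) (fun t e => db03 h (nd t e) a1 i2 g1 hk e hw)⟩
  db2 := by
    intro a b x y x2 hk xn a1 a2 k4 g1 g2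
    have hw := h.cl.db2 hk xn a1.1 (a2.mono fun k => k.1) k4 g1 g2
    have i2 := IF.of h a2
    have nd : ∀ t, K5 G a x b x2 t → [a, b, x, y, x2, t].Nodup := by
      intro t e
      have yt : y ≠ t := by
        rintro rfl
        exact hk a (by simp) x (by simp) b (by simp) x2 (by simp) y (by simp) e
      obtain ⟨e1, e2, e3, e4, e5, e6, e7, e8, e9, e10⟩ := e
      obtain ⟨s1, s2, s3, s4⟩ := h.sq a1.1
      have n1 := h.ne' a1.1
      ((simp only [List.nodup_cons, List.mem_cons, List.not_mem_nil, or_false, not_or, not_false_eq_true,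
        List.nodup_nil, and_true]; repeat' apply And.intro) <;>
        first
          | assumption
          | (apply Ne.symm; assumption)
          | (apply SimpleGraph.Adj.ne; assumption)
          | (apply Ne.symm; apply SimpleGraph.Adj.ne; assumption))
    exact ⟨hw, I4.mk (fun t e => db10 h (nd t e) a1 i2 g1 hk e hw) (fun t e => db11 h (nd t e) a1 i2 g1 hk e hw)
      (fun t e => db12 h (nd t e) a1 i2 g1 hk e hw) (fun t e => db13 h (nd t e) a1 i2 g1 hk e hw)⟩
  cf := by
    intro a b x y x2 y2 hk q1 q2 q3 q4 a1 a2 a3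
    have hw := h.cl.cf hk q1 q2 q3 q4 a1.1 a2.1 (a3.mono fun k => k.1)
    have i3 := IF.of h a3
    have nd : ∀ t, K5 G a x2 b y t → [a, b, x, y, x2, y2, t].Nodup := by
      intro t e
      have xt : x ≠ t := by
        rintro rfl
        exact hk a (by simp) x2 (by simp) b (by simp) y (by simp) x (by simp) e
      have yt : y2 ≠ t := by
        rintro rfl
        exact hk a (by simp) x2 (by simp) b (by simp) y (by simp) y2 (by simp) e
      obtain ⟨e1, e2, e3, e4, e5, e6, e7, e8, e9, e10⟩ := e
      obtain ⟨s1, s2, s3, s4⟩ := h.sq a1.1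
      obtain ⟨r1, r2, r3, r4⟩ := h.sq a2.1
      have n1 := h.ne a1.1
      have n2 := h.ne' a2.1
      ((simp only [List.nodup_cons, List.mem_cons, List.not_mem_nil, or_false, not_or, not_false_eq_true,
        List.nodup_nil, and_true]; repeat' apply And.intro) <;>
        first
          | assumption
          | (apply Ne.symm; assumption)
          | (apply SimpleGraph.Adj.ne; assumption)
          | (apply Ne.symm; apply SimpleGraph.Adj.ne; assumption))
    exact ⟨hw, I4.mk (fun t e => cf0 h (nd t e) a1 a2 i3 hk e hw) (fun t e => cf1 h (nd t e) a1 a2 i3 hk e hw)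
      (fun t e => cf2 h (nd t e) a1 a2 i3 hk e hw) (fun t e => cf3 h (nd t e) a1 a2 i3 hk e hw)⟩
  cb1 := by
    intro a b x y x2 y2 hk q1 q2 q3 q4 a1 a2 a3 k4 g1 g2
    have hw := h.cl.cb1 hk q1 q2 q3 q4 a1.1 (a2.mono fun k => k.1) (a3.mono fun k => k.1) k4 g1 g2
    have i2 := IF.of h a2
    have i3 := IF.of h a3
    have nd : ∀ t, K5 G a b x2 y2 t → [a, b, x, y, x2, y2, t].Nodup := by
      intro t e
      have xt : x ≠ t := by
        rintro rfl
        exact hk a (by simp) b (by simp) x2 (by simp) y2 (by simp) x (by simp) e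
      have yt : y ≠ t := by
        rintro rfl
        exact hk a (by simp) b (by simp) x2 (by simp) y2 (by simp) y (by simp) e
      obtain ⟨e1, e2, e3, e4, e5, e6, e7, e8, e9, e10⟩ := e
      obtain ⟨s1, s2, s3, s4⟩ := h.sq a1.1
      have n1 := h.ne a1.1
      have n2 := h.ne' a1.1
      ((simp only [List.nodup_cons, List.mem_cons, List.not_mem_nil, or_false, not_or, not_false_eq_true,
        List.nodup_nil, and_true]; repeat' apply And.intro) <;>
        first
          | assumption
          | (apply Ne.symm; assumption)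
          | (apply SimpleGraph.Adj.ne; assumption)
          | (apply Ne.symm; apply SimpleGraph.Adj.ne; assumption))
    exact ⟨hw, I4.mk (fun t e => cb00 h (nd t e) a1 i2 i3 g1 hk e hw) (fun t e => cb01 h (nd t e) a1 i2 i3 g1 hk e hw)
      (fun t e => cb02 h (nd t e) a1 i2 i3 g1 hk e hw) (fun t e => cb03 h (nd t e) a1 i2 i3 g1 hk e hw)⟩
  cb2 := by
    intro a b x y x2 y2 hk q1 q2 q3 q4 a1 a2 a3 k4 g1 g2
    have hw := h.cl.cb2 hk q1 q2 q3 q4 a1.1 (a2.mono fun k => k.1) (a3.mono fun k => k.1) k4 g1 g2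
    have i2 := IF.of h a2
    have i3 := IF.of h a3
    have nd : ∀ t, K5 G a y2 b x2 t → [a, b, x, y, x2, y2, t].Nodup := by
      intro t e
      have xt : x ≠ t := by
        rintro rfl
        exact hk a (by simp) y2 (by simp) b (by simp) x2 (by simp) x (by simp) e
      have yt : y ≠ t := by
        rintro rfl
        exact hk a (by simp) y2 (by simp) b (by simp) x2 (by simp) y (by simp) e
      obtain ⟨e1, e2, e3, e4, e5, e6, e7, e8, e9, e10⟩ := e
      obtain ⟨s1, s2, s3, s4⟩ := h.sq a1.1
      have n1 := h.ne a1.1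
      have n2 := h.ne' a1.1
      ((simp only [List.nodup_cons, List.mem_cons, List.not_mem_nil, or_false, not_or, not_false_eq_true,
        List.nodup_nil, and_true]; repeat' apply And.intro) <;>
        first
          | assumption
          | (apply Ne.symm; assumption)
          | (apply SimpleGraph.Adj.ne; assumption)
          | (apply Ne.symm; apply SimpleGraph.Adj.ne; assumption))
    exact ⟨hw, I4.mk (fun t e => cb10 h (nd t e) a1 i2 i3 g1 hk e hw) (fun t e => cb11 h (nd t e) a1 i2 i3 g1 hk e hw)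
      (fun t e => cb12 h (nd t e) a1 i2 i3 g1 hk e hw) (fun t e => cb13 h (nd t e) a1 i2 i3 g1 hk e hw)⟩
  k5 := by
    intro a b c d x hk y1 y2 a1
    have hw := h.cl.k5 hk y1 y2 a1.1
    have nd : [a, b, c, d, x].Nodup := by
      obtain ⟨e1, e2, e3, e4, e5, e6, e7, e8, e9, e10⟩ := hk
      ((simp only [List.nodup_cons, List.mem_cons, List.not_mem_nil, or_false, not_or, not_false_eq_true,
        List.nodup_nil, and_true]; repeat' apply And.intro) <;>
        first
          | assumption
          | (apply Ne.symm; assumption)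
          | (apply SimpleGraph.Adj.ne; assumption)
          | (apply Ne.symm; apply SimpleGraph.Adj.ne; assumption))
    have nd' : ∀ t, K5 G a b c x t → t ≠ d → [a, b, c, d, x, t].Nodup := by
      intro t e td
      obtain ⟨e1, e2, e3, e4, e5, e6, e7, e8, e9, e10⟩ := e
      obtain ⟨f1, f2, f3, f4, f5, f6, f7, f8, f9, f10⟩ := hk
      ((simp only [List.nodup_cons, List.mem_cons, List.not_mem_nil, or_false, not_or, not_false_eq_true,
        List.nodup_nil, and_true]; repeat' apply And.intro) <;>
        first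
          | assumption
          | (apply Ne.symm; assumption)
          | (apply SimpleGraph.Adj.ne; assumption)
          | (apply Ne.symm; apply SimpleGraph.Adj.ne; assumption))
    refine ⟨hw, I4.mk (fun t e => ?_) (fun t e => ?_) (fun t e => ?_) (fun t e => ?_)⟩
    · by_cases hd : t = d
      · subst hd
        exact kd0 h nd hk y1 y2 a1 e hw
      · exact kk0 h (nd' t e hd) hk y1 y2 a1 e hw
    · by_cases hd : t = d
      · subst hd
        exact kd1 h nd hk y1 y2 a1 e hw
      · exact kk1 h (nd' t e hd) hk y1 y2 a1 e hw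
    · by_cases hd : t = d
      · subst hd
        exact kd2 h nd hk y1 y2 a1 e hw
      · exact kk2 h (nd' t e hd) hk y1 y2 a1 e hw
    · by_cases hd : t = d
      · subst hd
        exact kd3 h nd hk y1 y2 a1 e hw
      · exact kk3 h (nd' t e hd) hk y1 y2 a1 e hw

/-- THE INVARIANT: it holds for the smallest closed relation -/
theorem inv (h : WF G X (Wc G X)) {a b c d : V} (hw : Wc G X a b c d) : I2 G X (Wc G X) a b c d :=
  (hw _ (cl_Pr h)).2.1

end

end Pool.Agent.SOF
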