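import Pool.Agent.SOF.TQ
import Pool.Agent.SOF.Ghost

/-! Project SOF, module Main: the fixed order theorem. -/

set_option autoImplicit false

namespace Pool.Agent.SOF

open Pool.Agent.SOC Pool.Agent.SOD Pool.Agent.RUP

/-- THE FIXED ORDER THEOREM: if some relation satisfies the axioms with the axioms on five and six vertices only for
sets without a complete graph on five vertices, together with one condition for complete graphs on five vertices, then
some relation satisfies all axioms. -/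
theorem exists_qt {V : Type} [DecidableEq V] {G : SimpleGraph V} {s : List V} (hs : IsEnum s)
    {T0 : V → V → V → V → Prop} (h : QF G (Cross s) T0) : ∃ T, QT G (Cross s) T := by
  have H := gWA hs h
  have hg : Gh (fun j => (GV.r (Fin.ofNat 16 j) : GV V)) (GV.r 14) (GV.r 15) := by
    refine ⟨?_, rfl, rfl⟩
    intro i j hi hj he
    have h1 := congrArg Fin.val (GV.r_inj he)
    simp only [Fin.val_ofNat] at h1
    omega
  have hq := qt_TP H hg
  refine ⟨fun a b c d => TP (gG G) (Wc (gG G) (CrD (gS s))) (gS s).idxOf (GV.l a) (GV.l b) (GV.l c) (GV.l d),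
    hq.swap₁, hq.swap₂, fun h1 h2 => hq.ne h1 (congrArg _ h2), fun h1 => hq.adj h1, ?_, ?_, hq.notboth,
    fun h1 h2 h3 => hq.trans h1 h2 (fun e => h3 (GV.l_inj e)), hq.ferrers⟩
  · intro a b c d h1 h2
    obtain ⟨⟨e1, e2, e3, e4⟩, _, n1, n2⟩ := TP.basic H h1
    exact hq.nocross h1 ⟨⟨n1, e1.ne, e2.ne, e3.ne, e4.ne, n2⟩, (cross_gS hs _ _ _ _).2 h2⟩
  · intro a b c d ac bd ab ad bc cd hx
    have nl : ∀ {x y : V}, x ≠ y → (GV.l x : GV V) ≠ GV.l y := fun h1 h2 => h1 (GV.l_inj h2)
    exact hq.some (a := GV.l a) (b := GV.l b) (c := GV.l c) (d := GV.l d) ac bd (nl ab) (nl ad) (nl bc) (nl cd)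
      ⟨⟨nl ac.ne, nl ab, nl ad, nl bc.symm, nl cd, nl bd.ne⟩, (cross_gS hs _ _ _ _).2 hx⟩

end Pool.Agent.SOF
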