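import Pool.Agent.SOF.I2

/-! Project SOF: refutations (generated). -/

set_option autoImplicit false
set_option maxRecDepth 100000
set_option linter.unusedVariables false

namespace Pool.Agent.SOF

open Pool.Agent.SOC Pool.Agent.SOD Pool.Agent.RUP

/-- templates -/
def bf0_x : List Tm := [
  ⟨0, [], [], [.q true 2 8 9 10 11]⟩,
  ⟨1, [], [(0, 8), (0, 9), (0, 10), (0, 11)], [.b false 0 8 9, .b false 0 8 10, .b false 0 8 11, .b false 0 8 0, .b false 0 9 10, .b false 0 9 11, .b false 0 9 0, .b false 0 10 11, .b false 0 10 0, .b false 0 11 0, .q false 0 0 8 9 10, .q false 0 0 11 9 10, .q true 2 8 9 0 11, .q true 2 10 11 8 0]⟩,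
  ⟨1, [], [(0, 8), (0, 9), (0, 10), (0, 11)], [.b false 0 8 9, .b false 0 8 11, .b false 0 8 10, .b false 0 8 0, .b false 0 9 11, .b false 0 9 10, .b false 0 9 0, .b false 0 11 10, .b false 0 11 0, .b false 0 10 0, .q false 0 0 8 9 11, .q false 0 0 10 9 11, .q true 2 8 9 0 10, .q true 2 11 10 8 0]⟩,
  ⟨1, [], [(0, 8), (0, 9), (0, 10), (0, 11)], [.b false 0 9 8, .b false 0 9 10, .b false 0 9 11, .b false 0 9 0, .b false 0 8 10, .b false 0 8 11, .b false 0 8 0, .b false 0 10 11, .b false 0 10 0, .b false 0 11 0, .q false 0 0 9 8 10, .q false 0 0 11 8 10, .q true 2 9 8 0 11, .q true 2 10 11 9 0]⟩,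
  ⟨1, [], [(0, 8), (0, 9), (0, 10), (0, 11)], [.b false 0 9 8, .b false 0 9 11, .b false 0 9 10, .b false 0 9 0, .b false 0 8 11, .b false 0 8 10, .b false 0 8 0, .b false 0 11 10, .b false 0 11 0, .b false 0 10 0, .q false 0 0 9 8 11, .q false 0 0 10 8 11, .q true 2 9 8 0 10, .q true 2 11 10 9 0]⟩,
  ⟨0, [], [], [.q true 2 8 9 11 12]⟩,
  ⟨1, [], [(0, 8), (0, 9), (0, 11), (0, 12)], [.b false 0 8 9, .b false 0 8 11, .b false 0 8 12, .b false 0 8 0, .b false 0 9 11, .b false 0 9 12, .b false 0 9 0, .b false 0 11 12, .b false 0 11 0, .b false 0 12 0, .q false 0 0 8 9 11, .q false 0 0 12 9 11, .q true 2 8 9 0 12, .q true 2 11 12 8 0]⟩,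
  ⟨1, [], [(0, 8), (0, 9), (0, 11), (0, 12)], [.b false 0 8 9, .b false 0 8 12, .b false 0 8 11, .b false 0 8 0, .b false 0 9 12, .b false 0 9 11, .b false 0 9 0, .b false 0 12 11, .b false 0 12 0, .b false 0 11 0, .q false 0 0 8 9 12, .q false 0 0 11 9 12, .q true 2 8 9 0 11, .q true 2 12 11 8 0]⟩,
  ⟨1, [], [(0, 8), (0, 9), (0, 11), (0, 12)], [.b false 0 9 8, .b false 0 9 11, .b false 0 9 12, .b false 0 9 0, .b false 0 8 11, .b false 0 8 12, .b false 0 8 0, .b false 0 11 12, .b false 0 11 0, .b false 0 12 0, .q false 0 0 9 8 11, .q false 0 0 12 8 11, .q true 2 9 8 0 12, .q true 2 11 12 9 0]⟩,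
  ⟨1, [], [(0, 8), (0, 9), (0, 11), (0, 12)], [.b false 0 9 8, .b false 0 9 12, .b false 0 9 11, .b false 0 9 0, .b false 0 8 12, .b false 0 8 11, .b false 0 8 0, .b false 0 12 11, .b false 0 12 0, .b false 0 11 0, .q false 0 0 9 8 12, .q false 0 0 11 8 12, .q true 2 9 8 0 11, .q true 2 12 11 9 0]⟩,
  ⟨0, [], [], [.b false 0 8 9, .b false 0 8 10, .b false 0 8 11, .b false 0 8 12, .b false 0 9 10, .b false 0 9 11, .b false 0 9 12, .b false 0 10 11, .b false 0 10 12, .b false 0 11 12]⟩,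
  ⟨0, [], [], [.b true 0 8 9]⟩,
  ⟨0, [], [], [.b true 0 8 10]⟩,
  ⟨0, [], [], [.b true 0 8 12]⟩,
  ⟨0, [], [], [.b true 0 8 13]⟩,
  ⟨0, [], [], [.b true 0 9 10]⟩,
  ⟨0, [], [], [.b true 0 9 12]⟩,
  ⟨0, [], [], [.b true 0 9 13]⟩,
  ⟨0, [], [], [.b true 0 10 12]⟩,
  ⟨0, [], [], [.b true 0 10 13]⟩,
  ⟨0, [], [], [.b true 0 12 13]⟩,
  ⟨0, [], [], [.q true 2 8 9 10 12]⟩,
  ⟨0, [], [], [.q true 0 13 8 9 10]⟩,
  ⟨0, [], [], [.q true 0 13 12 9 10]⟩,
  ⟨0, [], [], [.q false 2 8 9 13 12]⟩,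
  ⟨0, [], [], [.q false 2 10 12 8 13]⟩]

def bf0_p0 : List Nat := [
0x6420090000000810003000201,
0x4620090000000810006000201,
0x6402090000000810004000201,
0x4602090000000810007000201,
0x64200b00000008104ca000201,
0xa8300000000200000000600000000400000000802ff024f03ea03f103f803f903fa03fb062606f200050a,
0x68200900000008b000a000201,
0x68020900000008b000b000201,
0x86200b00000008b05a6000201,
0x684200700000000a0000000120572000301,
0xa8d00000000400000000800000000e000000010034b026303ea03f603f803f903fb03fc0632074a00050a,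
0x9500000000200000000600000000400000000800000000e00000001003ea03f103f503f6000704,
0x4a20030000000ad069e000201,
0x2a40030000000ad0662000201,
0x4a6200700000000a00000001a06e6000301,
0x4a8200700000001400000001a0732000301,
0xa842030000000af06c6000201,
0x8a42030000000af0686000201,
0x42a8070000000200000000af0351000301,
0x280a40700000001a00000002206c2000301,
0x2a084070000000140000000240646000301,
0x480a20700000001c000000024067e000301,
0xa8400b000000026073c000201,
0x842a0070000000ad00000002a0259000301,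
0xa2801700000002c0000000200000000a900000009700000000e00000001000000009d0000000a30000000b10681000a01,
0xa4800f00000002e0000000280000000a90000000020000000a500000009d0000000b306c5000801,
0xa0640d0086a403900864a007002a086070006a8203000648013000826407004a682070000000040000000020000000a700000003400000000a00000002200000002a000000012070e03fb0008001003,
0xa68207f00a60823d00a60823900086a213000a86001000a8620100280a60700640a80500642a80500000008b0000000a90000000a300000009d00000001000000000e0000000080000000040000000970000000b100000003200000001e0000000af000000026074e0325001702,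
0xc0086a403d00a68202700000001800000003600482a607000a86403000648013000826407004a682070000000380000000ad0000000a70000000a300000009d00000009700000003400000008b0000000b10000000a500000000a000000022074e03fb001602,
0xa60823d0002a861100000008b0000000320012000401,
0x3a00000003c074e000201,
0x642a8070000000af00000003e0361000301,
0x640a80700000002600000003e035d000301,
0xa86203000000040070e000201,
0x8a6003000000042064a000201,
0x864a00700000002a0000000460636000301,
0x682a0070000000300000000460249000301,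
0xa8640100284a60700086a41300000000c004608a39000a0640d000a0860d0086a403d00a68202700008461100000003e0000000440000000ad0000000a70000000a300000009d00000009700000003c00000003400000000400000000200000004800000000e0000000a900000004600000008b0000000b1000d001b01,
0x180000000970000000a500000004c03f1000401,
0x160000000b100000004a00000009700000004000000009d0000000a300000003c0000000a900000004c0263000a01,
0x86a41100000004e02e8000201,
0x4608a3d00000003400000005200000004e000000050000500]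

def bf0_pf : List Nat := bf0_p0

theorem bf0_ref {V : Type} {S : SRel V} {p : Nat → V} (hp : ∀ i j, i < 6 → j < 6 → p i = p j → i = j)
    (hts : PHs S p 6 ((tO ++ (tB ++ (tR ++ (tF ++ tK)))) ++ bf0_x)) : False :=
  refuteS (k := 6) (n2 := 1) (n3 := 1) (n4 := 4) (o3 := 21) (o4 := 77) (M := 1001) ((tO ++ (tB ++ (tR ++ (tF ++ tK)))) ++ bf0_x) bf0_pf (by decide +kernel)
    (by decide +kernel) (by decide +kernel) (by decide +kernel) hp hts

theorem bf0 {V : Type} {G : SimpleGraph V} {X W : V → V → V → V → Prop} (h : WF G X W) {u w x y z t : V}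
    (nd : [u, w, x, y, z, t].Nodup) (a1 : Pr G X W u w x y) (a2 : Pr G X W u w y z) (hk : K5F G [u, w, x, y, z])
    (e : K5 G u w x z t) (hw : W u w x z) (g1 : X t u w x) (g2 : X t z w x)
    (m1 : ¬ W u w t z) (m2 : ¬ W x z u t) : False :=
  bf0_ref (S := (syW h).rel) (pt_inj (o := u) nd rfl) (PHs.app (UHs.phs ((tO_h h).app ((tB_h h).app ((tR_h h).app ((tF_h h).app (tK_h h))))) _ _) (
  .cons (fun d hd h0 => h0 a1.1) (
  .cons (fun d hd m0 m1 m2 m3 h0 h1 h2 h3 h4 h5 h6 h7 h8 h9 h10 h11 h12 h13 => ((a1.2).1 (d 0) ⟨h0, h1, h2, h3, h4, h5, h6, h7, h8, h9⟩ h10 h11).elim h12 h13) (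
  .cons (fun d hd m0 m1 m2 m3 h0 h1 h2 h3 h4 h5 h6 h7 h8 h9 h10 h11 h12 h13 => ((a1.2).2.1 (d 0) ⟨h0, h1, h2, h3, h4, h5, h6, h7, h8, h9⟩ h10 h11).elim h12 h13) (
  .cons (fun d hd m0 m1 m2 m3 h0 h1 h2 h3 h4 h5 h6 h7 h8 h9 h10 h11 h12 h13 => ((a1.2).2.2.1 (d 0) ⟨h0, h1, h2, h3, h4, h5, h6, h7, h8, h9⟩ h10 h11).elim h12 h13) (
  .cons (fun d hd m0 m1 m2 m3 h0 h1 h2 h3 h4 h5 h6 h7 h8 h9 h10 h11 h12 h13 => ((a1.2).2.2.2 (d 0) ⟨h0, h1, h2, h3, h4, h5, h6, h7, h8, h9⟩ h10 h11).elim h12 h13) (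
  .cons (fun d hd h0 => h0 a2.1) (
  .cons (fun d hd m0 m1 m2 m3 h0 h1 h2 h3 h4 h5 h6 h7 h8 h9 h10 h11 h12 h13 => ((a2.2).1 (d 0) ⟨h0, h1, h2, h3, h4, h5, h6, h7, h8, h9⟩ h10 h11).elim h12 h13) (
  .cons (fun d hd m0 m1 m2 m3 h0 h1 h2 h3 h4 h5 h6 h7 h8 h9 h10 h11 h12 h13 => ((a2.2).2.1 (d 0) ⟨h0, h1, h2, h3, h4, h5, h6, h7, h8, h9⟩ h10 h11).elim h12 h13) (
  .cons (fun d hd m0 m1 m2 m3 h0 h1 h2 h3 h4 h5 h6 h7 h8 h9 h10 h11 h12 h13 => ((a2.2).2.2.1 (d 0) ⟨h0, h1, h2, h3, h4, h5, h6, h7, h8, h9⟩ h10 h11).elim h12 h13) (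
  .cons (fun d hd m0 m1 m2 m3 h0 h1 h2 h3 h4 h5 h6 h7 h8 h9 h10 h11 h12 h13 => ((a2.2).2.2.2 (d 0) ⟨h0, h1, h2, h3, h4, h5, h6, h7, h8, h9⟩ h10 h11).elim h12 h13) (
  .cons (fun d hd h0 h1 h2 h3 h4 h5 h6 h7 h8 h9 => hk u (by simp) w (by simp) x (by simp) y (by simp) z (by simp) ⟨h0, h1, h2, h3, h4, h5, h6, h7, h8, h9⟩) (
  .cons (fun d hd h0 => h0 e.1) (
  .cons (fun d hd h0 => h0 e.2.1) (
  .cons (fun d hd h0 => h0 e.2.2.1) (
  .cons (fun d hd h0 => h0 e.2.2.2.1) (
  .cons (fun d hd h0 => h0 e.2.2.2.2.1) (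
  .cons (fun d hd h0 => h0 e.2.2.2.2.2.1) (
  .cons (fun d hd h0 => h0 e.2.2.2.2.2.2.1) (
  .cons (fun d hd h0 => h0 e.2.2.2.2.2.2.2.1) (
  .cons (fun d hd h0 => h0 e.2.2.2.2.2.2.2.2.1) (
  .cons (fun d hd h0 => h0 e.2.2.2.2.2.2.2.2.2) (
  .cons (fun d hd h0 => h0 hw) (
  .cons (fun d hd h0 => h0 g1) (
  .cons (fun d hd h0 => h0 g2) (
  .cons (fun d hd h0 => m1 h0) (
  .cons (fun d hd h0 => m2 h0) (
  .nil))))))))))))))))))))))))))))

/-- templates -/
def bf1_x : List Tm := [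
  ⟨0, [], [], [.q true 2 8 9 10 11]⟩,
  ⟨1, [], [(0, 8), (0, 9), (0, 10), (0, 11)], [.b false 0 8 9, .b false 0 8 10, .b false 0 8 11, .b false 0 8 0, .b false 0 9 10, .b false 0 9 11, .b false 0 9 0, .b false 0 10 11, .b false 0 10 0, .b false 0 11 0, .q false 0 0 8 9 10, .q false 0 0 11 9 10, .q true 2 8 9 0 11, .q true 2 10 11 8 0]⟩,
  ⟨1, [], [(0, 8), (0, 9), (0, 10), (0, 11)], [.b false 0 8 9, .b false 0 8 11, .b false 0 8 10, .b false 0 8 0, .b false 0 9 11, .b false 0 9 10, .b false 0 9 0, .b false 0 11 10, .b false 0 11 0, .b false 0 10 0, .q false 0 0 8 9 11, .q false 0 0 10 9 11, .q true 2 8 9 0 10, .q true 2 11 10 8 0]⟩,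
  ⟨1, [], [(0, 8), (0, 9), (0, 10), (0, 11)], [.b false 0 9 8, .b false 0 9 10, .b false 0 9 11, .b false 0 9 0, .b false 0 8 10, .b false 0 8 11, .b false 0 8 0, .b false 0 10 11, .b false 0 10 0, .b false 0 11 0, .q false 0 0 9 8 10, .q false 0 0 11 8 10, .q true 2 9 8 0 11, .q true 2 10 11 9 0]⟩,
  ⟨1, [], [(0, 8), (0, 9), (0, 10), (0, 11)], [.b false 0 9 8, .b false 0 9 11, .b false 0 9 10, .b false 0 9 0, .b false 0 8 11, .b false 0 8 10, .b false 0 8 0, .b false 0 11 10, .b false 0 11 0, .b false 0 10 0, .q false 0 0 9 8 11, .q false 0 0 10 8 11, .q true 2 9 8 0 10, .q true 2 11 10 9 0]⟩,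
  ⟨0, [], [], [.q true 2 8 9 11 12]⟩,
  ⟨1, [], [(0, 8), (0, 9), (0, 11), (0, 12)], [.b false 0 8 9, .b false 0 8 11, .b false 0 8 12, .b false 0 8 0, .b false 0 9 11, .b false 0 9 12, .b false 0 9 0, .b false 0 11 12, .b false 0 11 0, .b false 0 12 0, .q false 0 0 8 9 11, .q false 0 0 12 9 11, .q true 2 8 9 0 12, .q true 2 11 12 8 0]⟩,
  ⟨1, [], [(0, 8), (0, 9), (0, 11), (0, 12)], [.b false 0 8 9, .b false 0 8 12, .b false 0 8 11, .b false 0 8 0, .b false 0 9 12, .b false 0 9 11, .b false 0 9 0, .b false 0 12 11, .b false 0 12 0, .b false 0 11 0, .q false 0 0 8 9 12, .q false 0 0 11 9 12, .q true 2 8 9 0 11, .q true 2 12 11 8 0]⟩,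
  ⟨1, [], [(0, 8), (0, 9), (0, 11), (0, 12)], [.b false 0 9 8, .b false 0 9 11, .b false 0 9 12, .b false 0 9 0, .b false 0 8 11, .b false 0 8 12, .b false 0 8 0, .b false 0 11 12, .b false 0 11 0, .b false 0 12 0, .q false 0 0 9 8 11, .q false 0 0 12 8 11, .q true 2 9 8 0 12, .q true 2 11 12 9 0]⟩,
  ⟨1, [], [(0, 8), (0, 9), (0, 11), (0, 12)], [.b false 0 9 8, .b false 0 9 12, .b false 0 9 11, .b false 0 9 0, .b false 0 8 12, .b false 0 8 11, .b false 0 8 0, .b false 0 12 11, .b false 0 12 0, .b false 0 11 0, .q false 0 0 9 8 12, .q false 0 0 11 8 12, .q true 2 9 8 0 11, .q true 2 12 11 9 0]⟩,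
  ⟨0, [], [], [.b false 0 8 9, .b false 0 8 10, .b false 0 8 11, .b false 0 8 12, .b false 0 9 10, .b false 0 9 11, .b false 0 9 12, .b false 0 10 11, .b false 0 10 12, .b false 0 11 12]⟩,
  ⟨0, [], [], [.b true 0 8 9]⟩,
  ⟨0, [], [], [.b true 0 8 10]⟩,
  ⟨0, [], [], [.b true 0 8 12]⟩,
  ⟨0, [], [], [.b true 0 8 13]⟩,
  ⟨0, [], [], [.b true 0 9 10]⟩,
  ⟨0, [], [], [.b true 0 9 12]⟩,
  ⟨0, [], [], [.b true 0 9 13]⟩,
  ⟨0, [], [], [.b true 0 10 12]⟩,
  ⟨0, [], [], [.b true 0 10 13]⟩,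
  ⟨0, [], [], [.b true 0 12 13]⟩,
  ⟨0, [], [], [.q true 2 8 9 10 12]⟩,
  ⟨0, [], [], [.q true 0 13 8 9 12]⟩,
  ⟨0, [], [], [.q true 0 13 10 9 12]⟩,
  ⟨0, [], [], [.q false 2 8 9 13 10]⟩,
  ⟨0, [], [], [.q false 2 12 10 8 13]⟩]

def bf1_p0 : List Nat := [
0x6420090000000810003000201,
0x4620090000000810006000201,
0x6402090000000810004000201,
0x4602090000000810007000201,
0x64200b00000008104ca000201,
0xa8500000000200000000600000000400000000802b7024f03ea03f103f803f903fa03fb063206b600050a,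
0x68200900000008b000a000201,
0x68020900000008b000b000201,
0x86200b00000008b05a6000201,
0x684200700000000a0000000120572000301,
0xa8f00000000400000000800000000e00000001002ff026303ea03f603f803f903fb03fc0642070e00050a,
0x9500000000200000000600000000400000000800000000e00000001003ea03f103f503f6000704,
0x8a20030000000ad0732000201,
0x2a80030000000ad067e000201,
0x8a4200700000001400000001a069e000301,
0xa842030000000af073e000201,
0x4a82030000000af0686000201,
0xa4082050000000ad0000000af054a000301,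
0x82a40700000001e0000000af02d9000301,
0x240a80700000001a000000020073a000301,
0x2a084070000000140000000220646000301,
0x840a20700000001c0000000220662000301,
0xa4800b00000002606c4000201,
0x482a0070000000ad00000002a023d000301,
0xa2401700000002c00000001e0000000a700000009700000000200000000600000009d0000000a30000000b10665000a01,
0xa8400f00000002800000002e0000000a700000000e0000000a500000009d0000000b3073d000801,
0x1800680a43500680a43d0000000970000000a50751073c0250000503,
0xa60423d0002a46110000000810000000320012000401,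
0xa20642500a60423900000008100000003206390008000402,
0x260a40700000000c00046a01700642a00700064a01900000003a00000001e0000000380000000a70000000a300000009d0000000970000000b1000000004000000002000000030063902cb024d001003,
0xa64207f002a0640700000003c00684a03b000a8060900000001800000003a0000000360000000a500000000a0000000b100000009700000000200000000600000000400000000800000009d0000000a30000000a70000000380000000810751073c001502,
0xa64207f002a0640700000003c0086a043d00048061100000001800000003a0000000810000000380000000a70000000a300000009d0000000080000000040000000060000000020000000970000000b100000000a0000000a502600639001402,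
0x8624007004a0620700086401300000000c0046a8039000a0640d000a0860d008604a3d00486a00700642a00700064a01300000004000084a00f00000003e0000000240000000380000000a70000000a300000009d0000000970000000b100000003400000000400000000200000000e0000000a900000003000000002a00000002e0751000d001d02,
0xa0640d008604a3900000001800000004200064a01300000004000084a00f00000003e0000000040000000020000000a70000000380000000340000000a500000009700000000e0000000a900000002e00000002a0751001301,
0xa84611000000044000d000201,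
0xa86413000000044074e000201,
0x180000000970000000a500000004603f1000401,
0xa8640d00000004600000003800000004a0000000a50000000a70000000480367000701,
0x86041100000004a01c8000201,
0xa6420270000000b100000008100000004a06e8000401,
0xa60423900000003200000008100000004a0679000401,
0x2a8642500000005200000004a00000004c0561000401,
0x46a803d00000003400000004a00000004e064c000401,
0x648213000000054055e000201,
0x1600000005000000004600000009700000003800000009d0000000a30000000ad0000000a9000000056070e000a01,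
0x6a482070000000af00000005a000000058000400]

def bf1_pf : List Nat := bf1_p0

theorem bf1_ref {V : Type} {S : SRel V} {p : Nat → V} (hp : ∀ i j, i < 6 → j < 6 → p i = p j → i = j)
    (hts : PHs S p 6 ((tO ++ (tB ++ (tR ++ (tF ++ tK)))) ++ bf1_x)) : False :=
  refuteS (k := 6) (n2 := 1) (n3 := 1) (n4 := 4) (o3 := 21) (o4 := 77) (M := 1001) ((tO ++ (tB ++ (tR ++ (tF ++ tK)))) ++ bf1_x) bf1_pf (by decide +kernel)
    (by decide +kernel) (by decide +kernel) (by decide +kernel) hp hts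

theorem bf1 {V : Type} {G : SimpleGraph V} {X W : V → V → V → V → Prop} (h : WF G X W) {u w x y z t : V}
    (nd : [u, w, x, y, z, t].Nodup) (a1 : Pr G X W u w x y) (a2 : Pr G X W u w y z) (hk : K5F G [u, w, x, y, z])
    (e : K5 G u w x z t) (hw : W u w x z) (g1 : X t u w z) (g2 : X t x w z)
    (m1 : ¬ W u w t x) (m2 : ¬ W z x u t) : False :=
  bf1_ref (S := (syW h).rel) (pt_inj (o := u) nd rfl) (PHs.app (UHs.phs ((tO_h h).app ((tB_h h).app ((tR_h h).app ((tF_h h).app (tK_h h))))) _ _) (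
  .cons (fun d hd h0 => h0 a1.1) (
  .cons (fun d hd m0 m1 m2 m3 h0 h1 h2 h3 h4 h5 h6 h7 h8 h9 h10 h11 h12 h13 => ((a1.2).1 (d 0) ⟨h0, h1, h2, h3, h4, h5, h6, h7, h8, h9⟩ h10 h11).elim h12 h13) (
  .cons (fun d hd m0 m1 m2 m3 h0 h1 h2 h3 h4 h5 h6 h7 h8 h9 h10 h11 h12 h13 => ((a1.2).2.1 (d 0) ⟨h0, h1, h2, h3, h4, h5, h6, h7, h8, h9⟩ h10 h11).elim h12 h13) (
  .cons (fun d hd m0 m1 m2 m3 h0 h1 h2 h3 h4 h5 h6 h7 h8 h9 h10 h11 h12 h13 => ((a1.2).2.2.1 (d 0) ⟨h0, h1, h2, h3, h4, h5, h6, h7, h8, h9⟩ h10 h11).elim h12 h13) (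
  .cons (fun d hd m0 m1 m2 m3 h0 h1 h2 h3 h4 h5 h6 h7 h8 h9 h10 h11 h12 h13 => ((a1.2).2.2.2 (d 0) ⟨h0, h1, h2, h3, h4, h5, h6, h7, h8, h9⟩ h10 h11).elim h12 h13) (
  .cons (fun d hd h0 => h0 a2.1) (
  .cons (fun d hd m0 m1 m2 m3 h0 h1 h2 h3 h4 h5 h6 h7 h8 h9 h10 h11 h12 h13 => ((a2.2).1 (d 0) ⟨h0, h1, h2, h3, h4, h5, h6, h7, h8, h9⟩ h10 h11).elim h12 h13) (
  .cons (fun d hd m0 m1 m2 m3 h0 h1 h2 h3 h4 h5 h6 h7 h8 h9 h10 h11 h12 h13 => ((a2.2).2.1 (d 0) ⟨h0, h1, h2, h3, h4, h5, h6, h7, h8, h9⟩ h10 h11).elim h12 h13) (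
  .cons (fun d hd m0 m1 m2 m3 h0 h1 h2 h3 h4 h5 h6 h7 h8 h9 h10 h11 h12 h13 => ((a2.2).2.2.1 (d 0) ⟨h0, h1, h2, h3, h4, h5, h6, h7, h8, h9⟩ h10 h11).elim h12 h13) (
  .cons (fun d hd m0 m1 m2 m3 h0 h1 h2 h3 h4 h5 h6 h7 h8 h9 h10 h11 h12 h13 => ((a2.2).2.2.2 (d 0) ⟨h0, h1, h2, h3, h4, h5, h6, h7, h8, h9⟩ h10 h11).elim h12 h13) (
  .cons (fun d hd h0 h1 h2 h3 h4 h5 h6 h7 h8 h9 => hk u (by simp) w (by simp) x (by simp) y (by simp) z (by simp) ⟨h0, h1, h2, h3, h4, h5, h6, h7, h8, h9⟩) (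
  .cons (fun d hd h0 => h0 e.1) (
  .cons (fun d hd h0 => h0 e.2.1) (
  .cons (fun d hd h0 => h0 e.2.2.1) (
  .cons (fun d hd h0 => h0 e.2.2.2.1) (
  .cons (fun d hd h0 => h0 e.2.2.2.2.1) (
  .cons (fun d hd h0 => h0 e.2.2.2.2.2.1) (
  .cons (fun d hd h0 => h0 e.2.2.2.2.2.2.1) (
  .cons (fun d hd h0 => h0 e.2.2.2.2.2.2.2.1) (
  .cons (fun d hd h0 => h0 e.2.2.2.2.2.2.2.2.1) (
  .cons (fun d hd h0 => h0 e.2.2.2.2.2.2.2.2.2) (
  .cons (fun d hd h0 => h0 hw) (
  .cons (fun d hd h0 => h0 g1) (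
  .cons (fun d hd h0 => h0 g2) (
  .cons (fun d hd h0 => m1 h0) (
  .cons (fun d hd h0 => m2 h0) (
  .nil))))))))))))))))))))))))))))

/-- templates -/
def bf2_x : List Tm := [
  ⟨0, [], [], [.q true 2 8 9 10 11]⟩,
  ⟨1, [], [(0, 8), (0, 9), (0, 10), (0, 11)], [.b false 0 8 9, .b false 0 8 10, .b false 0 8 11, .b false 0 8 0, .b false 0 9 10, .b false 0 9 11, .b false 0 9 0, .b false 0 10 11, .b false 0 10 0, .b false 0 11 0, .q false 0 0 8 9 10, .q false 0 0 11 9 10, .q true 2 8 9 0 11, .q true 2 10 11 8 0]⟩,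
  ⟨1, [], [(0, 8), (0, 9), (0, 10), (0, 11)], [.b false 0 8 9, .b false 0 8 11, .b false 0 8 10, .b false 0 8 0, .b false 0 9 11, .b false 0 9 10, .b false 0 9 0, .b false 0 11 10, .b false 0 11 0, .b false 0 10 0, .q false 0 0 8 9 11, .q false 0 0 10 9 11, .q true 2 8 9 0 10, .q true 2 11 10 8 0]⟩,
  ⟨1, [], [(0, 8), (0, 9), (0, 10), (0, 11)], [.b false 0 9 8, .b false 0 9 10, .b false 0 9 11, .b false 0 9 0, .b false 0 8 10, .b false 0 8 11, .b false 0 8 0, .b false 0 10 11, .b false 0 10 0, .b false 0 11 0, .q false 0 0 9 8 10, .q false 0 0 11 8 10, .q true 2 9 8 0 11, .q true 2 10 11 9 0]⟩,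
  ⟨1, [], [(0, 8), (0, 9), (0, 10), (0, 11)], [.b false 0 9 8, .b false 0 9 11, .b false 0 9 10, .b false 0 9 0, .b false 0 8 11, .b false 0 8 10, .b false 0 8 0, .b false 0 11 10, .b false 0 11 0, .b false 0 10 0, .q false 0 0 9 8 11, .q false 0 0 10 8 11, .q true 2 9 8 0 10, .q true 2 11 10 9 0]⟩,
  ⟨0, [], [], [.q true 2 8 9 11 12]⟩,
  ⟨1, [], [(0, 8), (0, 9), (0, 11), (0, 12)], [.b false 0 8 9, .b false 0 8 11, .b false 0 8 12, .b false 0 8 0, .b false 0 9 11, .b false 0 9 12, .b false 0 9 0, .b false 0 11 12, .b false 0 11 0, .b false 0 12 0, .q false 0 0 8 9 11, .q false 0 0 12 9 11, .q true 2 8 9 0 12, .q true 2 11 12 8 0]⟩,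
  ⟨1, [], [(0, 8), (0, 9), (0, 11), (0, 12)], [.b false 0 8 9, .b false 0 8 12, .b false 0 8 11, .b false 0 8 0, .b false 0 9 12, .b false 0 9 11, .b false 0 9 0, .b false 0 12 11, .b false 0 12 0, .b false 0 11 0, .q false 0 0 8 9 12, .q false 0 0 11 9 12, .q true 2 8 9 0 11, .q true 2 12 11 8 0]⟩,
  ⟨1, [], [(0, 8), (0, 9), (0, 11), (0, 12)], [.b false 0 9 8, .b false 0 9 11, .b false 0 9 12, .b false 0 9 0, .b false 0 8 11, .b false 0 8 12, .b false 0 8 0, .b false 0 11 12, .b false 0 11 0, .b false 0 12 0, .q false 0 0 9 8 11, .q false 0 0 12 8 11, .q true 2 9 8 0 12, .q true 2 11 12 9 0]⟩,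
  ⟨1, [], [(0, 8), (0, 9), (0, 11), (0, 12)], [.b false 0 9 8, .b false 0 9 12, .b false 0 9 11, .b false 0 9 0, .b false 0 8 12, .b false 0 8 11, .b false 0 8 0, .b false 0 12 11, .b false 0 12 0, .b false 0 11 0, .q false 0 0 9 8 12, .q false 0 0 11 8 12, .q true 2 9 8 0 11, .q true 2 12 11 9 0]⟩,
  ⟨0, [], [], [.b false 0 8 9, .b false 0 8 10, .b false 0 8 11, .b false 0 8 12, .b false 0 9 10, .b false 0 9 11, .b false 0 9 12, .b false 0 10 11, .b false 0 10 12, .b false 0 11 12]⟩,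
  ⟨0, [], [], [.b true 0 8 9]⟩,
  ⟨0, [], [], [.b true 0 8 10]⟩,
  ⟨0, [], [], [.b true 0 8 12]⟩,
  ⟨0, [], [], [.b true 0 8 13]⟩,
  ⟨0, [], [], [.b true 0 9 10]⟩,
  ⟨0, [], [], [.b true 0 9 12]⟩,
  ⟨0, [], [], [.b true 0 9 13]⟩,
  ⟨0, [], [], [.b true 0 10 12]⟩,
  ⟨0, [], [], [.b true 0 10 13]⟩,
  ⟨0, [], [], [.b true 0 12 13]⟩,
  ⟨0, [], [], [.q true 2 8 9 10 12]⟩,
  ⟨0, [], [], [.q true 0 13 9 8 10]⟩,
  ⟨0, [], [], [.q true 0 13 12 8 10]⟩,
  ⟨0, [], [], [.q false 2 9 8 13 12]⟩,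
  ⟨0, [], [], [.q false 2 10 12 9 13]⟩]

def bf2_p0 : List Nat := [
0x6420090000000810003000201,
0x4620090000000810006000201,
0x6402090000000810004000201,
0x4602090000000810007000201,
0x64200b00000008104ca000201,
0xa8700000000200000000600000000400000000802ff028f03ea03f103f803f903fa03fb066206ee00050a,
0x68200900000008b000a000201,
0x68020900000008b000b000201,
0x86200b00000008b05a6000201,
0x684200700000000a0000000120572000301,
0xa9100000000400000000800000000e000000010034b02a303ea03f603f803f903fb03fc066e074600050a,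
0x9500000000200000000600000000400000000800000000e00000001003ea03f103f503f6000704,
0xa420030000000ad069e000201,
0x2a40030000000ad0626000201,
0x4a8200700000001400000001a0732000301,
0xa840030000000af06c2000201,
0x8a40030000000af0646000201,
0x240a80700000001e0000000af0355000301,
0x82a40700000001a00000002006c6000301,
0xa284070000000140000000220686000301,
0x482a00700000001c0000000220642000301,
0xa8420b0000000240740000201,
0x840a2070000000ad0000000280295000301,
0x82a01700000002a00000001e0000000a900000009700000000e00000001000000009d0000000a30000000b10645000a01,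
0xa4820f00000002c0000000260000000a90000000060000000a50000000a30000000b306c9000801,
0xa2640d0086a423900864a2070006a8203000648213004a682070000000080000000060000000a7000000032000000026000000028070e03fb0008000c03,
0xa68207f00a62803d00a62803900086a013000a2860700000008b0000000a90000000a300000009d00000001000000000e0000000080000000040000000970000000b1000000030000000012068a001101,
0x2a08607000000012000000036064a000301,
0x864a2070000000280000000360676000301,
0x680a20700000002e0000000360285000301,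
0x864a0070000000220000000380636000301,
0xc0086a423d00a682027000000018000000034000a8620100642a805000a6400100860a4070008a6403000648213002a864070000000ad0000000a70000000a300000009d00000009700000003200000008b0000000b10000000a500000003a00000002000000003e000000024000000036074e03fb001a02,
0xa62803d0000a861100000008b0000000300012000401,
0x40000000042074e000201,
0x640a8070000000af000000044035d000301,
0x860a407000a6400100086a41300000000c004628a39000a2640d000a2860d0086a423d00a68202700028461100000002000000003e0000000ad0000000a70000000a300000009d00000009700000004200000003200000000800000000600000003a0000000100000000a900000003600000008b0000000b1000d001b01,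
0x180000000970000000a500000004803f1000401,
0x160000000b100000003c00000009700000004600000009d0000000a30000000420000000a900000004802a3000a01,
0x86a41100000004a02e8000201,
0x4628a3d00000003200000004e00000004a00000004c000500]

def bf2_pf : List Nat := bf2_p0

theorem bf2_ref {V : Type} {S : SRel V} {p : Nat → V} (hp : ∀ i j, i < 6 → j < 6 → p i = p j → i = j)
    (hts : PHs S p 6 ((tO ++ (tB ++ (tR ++ (tF ++ tK)))) ++ bf2_x)) : False :=
  refuteS (k := 6) (n2 := 1) (n3 := 1) (n4 := 4) (o3 := 21) (o4 := 77) (M := 1001) ((tO ++ (tB ++ (tR ++ (tF ++ tK)))) ++ bf2_x) bf2_pf (by decide +kernel)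
    (by decide +kernel) (by decide +kernel) (by decide +kernel) hp hts

theorem bf2 {V : Type} {G : SimpleGraph V} {X W : V → V → V → V → Prop} (h : WF G X W) {u w x y z t : V}
    (nd : [u, w, x, y, z, t].Nodup) (a1 : Pr G X W u w x y) (a2 : Pr G X W u w y z) (hk : K5F G [u, w, x, y, z])
    (e : K5 G u w x z t) (hw : W u w x z) (g1 : X t w u x) (g2 : X t z u x)
    (m1 : ¬ W w u t z) (m2 : ¬ W x z w t) : False :=
  bf2_ref (S := (syW h).rel) (pt_inj (o := u) nd rfl) (PHs.app (UHs.phs ((tO_h h).app ((tB_h h).app ((tR_h h).app ((tF_h h).app (tK_h h))))) _ _) (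
  .cons (fun d hd h0 => h0 a1.1) (
  .cons (fun d hd m0 m1 m2 m3 h0 h1 h2 h3 h4 h5 h6 h7 h8 h9 h10 h11 h12 h13 => ((a1.2).1 (d 0) ⟨h0, h1, h2, h3, h4, h5, h6, h7, h8, h9⟩ h10 h11).elim h12 h13) (
  .cons (fun d hd m0 m1 m2 m3 h0 h1 h2 h3 h4 h5 h6 h7 h8 h9 h10 h11 h12 h13 => ((a1.2).2.1 (d 0) ⟨h0, h1, h2, h3, h4, h5, h6, h7, h8, h9⟩ h10 h11).elim h12 h13) (
  .cons (fun d hd m0 m1 m2 m3 h0 h1 h2 h3 h4 h5 h6 h7 h8 h9 h10 h11 h12 h13 => ((a1.2).2.2.1 (d 0) ⟨h0, h1, h2, h3, h4, h5, h6, h7, h8, h9⟩ h10 h11).elim h12 h13) (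
  .cons (fun d hd m0 m1 m2 m3 h0 h1 h2 h3 h4 h5 h6 h7 h8 h9 h10 h11 h12 h13 => ((a1.2).2.2.2 (d 0) ⟨h0, h1, h2, h3, h4, h5, h6, h7, h8, h9⟩ h10 h11).elim h12 h13) (
  .cons (fun d hd h0 => h0 a2.1) (
  .cons (fun d hd m0 m1 m2 m3 h0 h1 h2 h3 h4 h5 h6 h7 h8 h9 h10 h11 h12 h13 => ((a2.2).1 (d 0) ⟨h0, h1, h2, h3, h4, h5, h6, h7, h8, h9⟩ h10 h11).elim h12 h13) (
  .cons (fun d hd m0 m1 m2 m3 h0 h1 h2 h3 h4 h5 h6 h7 h8 h9 h10 h11 h12 h13 => ((a2.2).2.1 (d 0) ⟨h0, h1, h2, h3, h4, h5, h6, h7, h8, h9⟩ h10 h11).elim h12 h13) (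
  .cons (fun d hd m0 m1 m2 m3 h0 h1 h2 h3 h4 h5 h6 h7 h8 h9 h10 h11 h12 h13 => ((a2.2).2.2.1 (d 0) ⟨h0, h1, h2, h3, h4, h5, h6, h7, h8, h9⟩ h10 h11).elim h12 h13) (
  .cons (fun d hd m0 m1 m2 m3 h0 h1 h2 h3 h4 h5 h6 h7 h8 h9 h10 h11 h12 h13 => ((a2.2).2.2.2 (d 0) ⟨h0, h1, h2, h3, h4, h5, h6, h7, h8, h9⟩ h10 h11).elim h12 h13) (
  .cons (fun d hd h0 h1 h2 h3 h4 h5 h6 h7 h8 h9 => hk u (by simp) w (by simp) x (by simp) y (by simp) z (by simp) ⟨h0, h1, h2, h3, h4, h5, h6, h7, h8, h9⟩) (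
  .cons (fun d hd h0 => h0 e.1) (
  .cons (fun d hd h0 => h0 e.2.1) (
  .cons (fun d hd h0 => h0 e.2.2.1) (
  .cons (fun d hd h0 => h0 e.2.2.2.1) (
  .cons (fun d hd h0 => h0 e.2.2.2.2.1) (
  .cons (fun d hd h0 => h0 e.2.2.2.2.2.1) (
  .cons (fun d hd h0 => h0 e.2.2.2.2.2.2.1) (
  .cons (fun d hd h0 => h0 e.2.2.2.2.2.2.2.1) (
  .cons (fun d hd h0 => h0 e.2.2.2.2.2.2.2.2.1) (
  .cons (fun d hd h0 => h0 e.2.2.2.2.2.2.2.2.2) (
  .cons (fun d hd h0 => h0 hw) (
  .cons (fun d hd h0 => h0 g1) (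
  .cons (fun d hd h0 => h0 g2) (
  .cons (fun d hd h0 => m1 h0) (
  .cons (fun d hd h0 => m2 h0) (
  .nil))))))))))))))))))))))))))))

/-- templates -/
def bf3_x : List Tm := [
  ⟨0, [], [], [.q true 2 8 9 10 11]⟩,
  ⟨1, [], [(0, 8), (0, 9), (0, 10), (0, 11)], [.b false 0 8 9, .b false 0 8 10, .b false 0 8 11, .b false 0 8 0, .b false 0 9 10, .b false 0 9 11, .b false 0 9 0, .b false 0 10 11, .b false 0 10 0, .b false 0 11 0, .q false 0 0 8 9 10, .q false 0 0 11 9 10, .q true 2 8 9 0 11, .q true 2 10 11 8 0]⟩,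
  ⟨1, [], [(0, 8), (0, 9), (0, 10), (0, 11)], [.b false 0 8 9, .b false 0 8 11, .b false 0 8 10, .b false 0 8 0, .b false 0 9 11, .b false 0 9 10, .b false 0 9 0, .b false 0 11 10, .b false 0 11 0, .b false 0 10 0, .q false 0 0 8 9 11, .q false 0 0 10 9 11, .q true 2 8 9 0 10, .q true 2 11 10 8 0]⟩,
  ⟨1, [], [(0, 8), (0, 9), (0, 10), (0, 11)], [.b false 0 9 8, .b false 0 9 10, .b false 0 9 11, .b false 0 9 0, .b false 0 8 10, .b false 0 8 11, .b false 0 8 0, .b false 0 10 11, .b false 0 10 0, .b false 0 11 0, .q false 0 0 9 8 10, .q false 0 0 11 8 10, .q true 2 9 8 0 11, .q true 2 10 11 9 0]⟩,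
  ⟨1, [], [(0, 8), (0, 9), (0, 10), (0, 11)], [.b false 0 9 8, .b false 0 9 11, .b false 0 9 10, .b false 0 9 0, .b false 0 8 11, .b false 0 8 10, .b false 0 8 0, .b false 0 11 10, .b false 0 11 0, .b false 0 10 0, .q false 0 0 9 8 11, .q false 0 0 10 8 11, .q true 2 9 8 0 10, .q true 2 11 10 9 0]⟩,
  ⟨0, [], [], [.q true 2 8 9 11 12]⟩,
  ⟨1, [], [(0, 8), (0, 9), (0, 11), (0, 12)], [.b false 0 8 9, .b false 0 8 11, .b false 0 8 12, .b false 0 8 0, .b false 0 9 11, .b false 0 9 12, .b false 0 9 0, .b false 0 11 12, .b false 0 11 0, .b false 0 12 0, .q false 0 0 8 9 11, .q false 0 0 12 9 11, .q true 2 8 9 0 12, .q true 2 11 12 8 0]⟩,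
  ⟨1, [], [(0, 8), (0, 9), (0, 11), (0, 12)], [.b false 0 8 9, .b false 0 8 12, .b false 0 8 11, .b false 0 8 0, .b false 0 9 12, .b false 0 9 11, .b false 0 9 0, .b false 0 12 11, .b false 0 12 0, .b false 0 11 0, .q false 0 0 8 9 12, .q false 0 0 11 9 12, .q true 2 8 9 0 11, .q true 2 12 11 8 0]⟩,
  ⟨1, [], [(0, 8), (0, 9), (0, 11), (0, 12)], [.b false 0 9 8, .b false 0 9 11, .b false 0 9 12, .b false 0 9 0, .b false 0 8 11, .b false 0 8 12, .b false 0 8 0, .b false 0 11 12, .b false 0 11 0, .b false 0 12 0, .q false 0 0 9 8 11, .q false 0 0 12 8 11, .q true 2 9 8 0 12, .q true 2 11 12 9 0]⟩,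
  ⟨1, [], [(0, 8), (0, 9), (0, 11), (0, 12)], [.b false 0 9 8, .b false 0 9 12, .b false 0 9 11, .b false 0 9 0, .b false 0 8 12, .b false 0 8 11, .b false 0 8 0, .b false 0 12 11, .b false 0 12 0, .b false 0 11 0, .q false 0 0 9 8 12, .q false 0 0 11 8 12, .q true 2 9 8 0 11, .q true 2 12 11 9 0]⟩,
  ⟨0, [], [], [.b false 0 8 9, .b false 0 8 10, .b false 0 8 11, .b false 0 8 12, .b false 0 9 10, .b false 0 9 11, .b false 0 9 12, .b false 0 10 11, .b false 0 10 12, .b false 0 11 12]⟩,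
  ⟨0, [], [], [.b true 0 8 9]⟩,
  ⟨0, [], [], [.b true 0 8 10]⟩,
  ⟨0, [], [], [.b true 0 8 12]⟩,
  ⟨0, [], [], [.b true 0 8 13]⟩,
  ⟨0, [], [], [.b true 0 9 10]⟩,
  ⟨0, [], [], [.b true 0 9 12]⟩,
  ⟨0, [], [], [.b true 0 9 13]⟩,
  ⟨0, [], [], [.b true 0 10 12]⟩,
  ⟨0, [], [], [.b true 0 10 13]⟩,
  ⟨0, [], [], [.b true 0 12 13]⟩,
  ⟨0, [], [], [.q true 2 8 9 10 12]⟩,
  ⟨0, [], [], [.q true 0 13 9 8 12]⟩,
  ⟨0, [], [], [.q true 0 13 10 8 12]⟩,
  ⟨0, [], [], [.q false 2 9 8 13 10]⟩,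
  ⟨0, [], [], [.q false 2 12 10 9 13]⟩]

def bf3_p0 : List Nat := [
0x6420090000000810003000201,
0x4620090000000810006000201,
0x6402090000000810004000201,
0x4602090000000810007000201,
0x64200b00000008104ca000201,
0xa8900000000200000000600000000400000000802b7028f03ea03f103f803f903fa03fb066e06b200050a,
0x68200900000008b000a000201,
0x68020900000008b000b000201,
0x86200b00000008b05a6000201,
0x684200700000000a0000000120572000301,
0xa9300000000400000000800000000e00000001002ff02a303ea03f603f803f903fb03fc067e070a00050a,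
0x9500000000200000000600000000400000000800000000e00000001003ea03f103f503f6000704,
0xa820030000000ad0732000201,
0x2a80030000000ad0642000201,
0x8a4200700000001400000001a069e000301,
0xa840030000000af073a000201,
0x4a80030000000af0646000201,
0x280a40700000001e0000000af02dd000301,
0x42a80700000001a000000020073e000301,
0xa284070000000140000000220686000301,
0x842a00700000001c0000000220626000301,
0xa4820b00000002406c8000201,
0x480a2070000000ad0000000280279000301,
0x42a01700000002a00000001e0000000a700000009700000000200000000600000009d0000000a30000000b10629000a01,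
0xa8420f00000002600000002c0000000a70000000100000000a50000000a30000000b30741000801,
0x1800682a43500682a43d0000000970000000a5075107400290000503,
0xa62403d0000a46110000000810000000300012000401,
0xa02642500a62403900000008100000003006790008000402,
0x62a40700000000c00046a21700640a20700064a21900000003800000001e0000000360000000a70000000a300000009d0000000970000000b100000000800000000600000002e067902cf028d001003,
0xa64207f000a2640700000003a00684a23b000a826090000000180000000380000000340000000a500000000a0000000b100000009700000000200000000600000000400000000800000009d0000000a30000000a700000003600000008107510740001502,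
0xa64207f000a2640700000003a0086a243d0004826110000000180000000380000000810000000360000000a70000000a300000009d0000000080000000040000000060000000020000000970000000b100000000a0000000a502a00679001402,
0x2a4860700680a40700086421300000000c0046a8239000a2640d000a2860d008624a3d00486a20700640a20700064a21300000003e00084a20f00000003c0000000af0000000360000000a70000000a300000009d0000000970000000b10000000320000000080000000060000000100000000a900000002e00000002800000002c0751000d001d02,
0xa2640d008624a3900000001800000004000064a21300000003e00084a20f00000003c0000000080000000060000000a70000000360000000320000000a50000000970000000100000000a900000002c0000000280751001301,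
0xa84611000000042000d000201,
0xa86413000000042074e000201,
0x180000000970000000a500000004403f1000401,
0x460a8070000000200000000460746000301,
0x86241100000004801cc000201,
0xa6420270000000b100000008100000004806e8000401,
0xa6240390000000300000000810000000480639000401,
0x46a823d00000003200000004c000000048068c000401,
0x64a0130000000500636000201,
0x1600000004e00000004400000009700000003600000009d0000000a30000000ad0000000a9000000052070a000a01,
0x486a007000000022000000054064a000301,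
0xa8600100000004a000000058000000056000400]

def bf3_pf : List Nat := bf3_p0

theorem bf3_ref {V : Type} {S : SRel V} {p : Nat → V} (hp : ∀ i j, i < 6 → j < 6 → p i = p j → i = j)
    (hts : PHs S p 6 ((tO ++ (tB ++ (tR ++ (tF ++ tK)))) ++ bf3_x)) : False :=
  refuteS (k := 6) (n2 := 1) (n3 := 1) (n4 := 4) (o3 := 21) (o4 := 77) (M := 1001) ((tO ++ (tB ++ (tR ++ (tF ++ tK)))) ++ bf3_x) bf3_pf (by decide +kernel)
    (by decide +kernel) (by decide +kernel) (by decide +kernel) hp hts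

theorem bf3 {V : Type} {G : SimpleGraph V} {X W : V → V → V → V → Prop} (h : WF G X W) {u w x y z t : V}
    (nd : [u, w, x, y, z, t].Nodup) (a1 : Pr G X W u w x y) (a2 : Pr G X W u w y z) (hk : K5F G [u, w, x, y, z])
    (e : K5 G u w x z t) (hw : W u w x z) (g1 : X t w u z) (g2 : X t x u z)
    (m1 : ¬ W w u t x) (m2 : ¬ W z x w t) : False :=
  bf3_ref (S := (syW h).rel) (pt_inj (o := u) nd rfl) (PHs.app (UHs.phs ((tO_h h).app ((tB_h h).app ((tR_h h).app ((tF_h h).app (tK_h h))))) _ _) (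
  .cons (fun d hd h0 => h0 a1.1) (
  .cons (fun d hd m0 m1 m2 m3 h0 h1 h2 h3 h4 h5 h6 h7 h8 h9 h10 h11 h12 h13 => ((a1.2).1 (d 0) ⟨h0, h1, h2, h3, h4, h5, h6, h7, h8, h9⟩ h10 h11).elim h12 h13) (
  .cons (fun d hd m0 m1 m2 m3 h0 h1 h2 h3 h4 h5 h6 h7 h8 h9 h10 h11 h12 h13 => ((a1.2).2.1 (d 0) ⟨h0, h1, h2, h3, h4, h5, h6, h7, h8, h9⟩ h10 h11).elim h12 h13) (
  .cons (fun d hd m0 m1 m2 m3 h0 h1 h2 h3 h4 h5 h6 h7 h8 h9 h10 h11 h12 h13 => ((a1.2).2.2.1 (d 0) ⟨h0, h1, h2, h3, h4, h5, h6, h7, h8, h9⟩ h10 h11).elim h12 h13) (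
  .cons (fun d hd m0 m1 m2 m3 h0 h1 h2 h3 h4 h5 h6 h7 h8 h9 h10 h11 h12 h13 => ((a1.2).2.2.2 (d 0) ⟨h0, h1, h2, h3, h4, h5, h6, h7, h8, h9⟩ h10 h11).elim h12 h13) (
  .cons (fun d hd h0 => h0 a2.1) (
  .cons (fun d hd m0 m1 m2 m3 h0 h1 h2 h3 h4 h5 h6 h7 h8 h9 h10 h11 h12 h13 => ((a2.2).1 (d 0) ⟨h0, h1, h2, h3, h4, h5, h6, h7, h8, h9⟩ h10 h11).elim h12 h13) (
  .cons (fun d hd m0 m1 m2 m3 h0 h1 h2 h3 h4 h5 h6 h7 h8 h9 h10 h11 h12 h13 => ((a2.2).2.1 (d 0) ⟨h0, h1, h2, h3, h4, h5, h6, h7, h8, h9⟩ h10 h11).elim h12 h13) (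
  .cons (fun d hd m0 m1 m2 m3 h0 h1 h2 h3 h4 h5 h6 h7 h8 h9 h10 h11 h12 h13 => ((a2.2).2.2.1 (d 0) ⟨h0, h1, h2, h3, h4, h5, h6, h7, h8, h9⟩ h10 h11).elim h12 h13) (
  .cons (fun d hd m0 m1 m2 m3 h0 h1 h2 h3 h4 h5 h6 h7 h8 h9 h10 h11 h12 h13 => ((a2.2).2.2.2 (d 0) ⟨h0, h1, h2, h3, h4, h5, h6, h7, h8, h9⟩ h10 h11).elim h12 h13) (
  .cons (fun d hd h0 h1 h2 h3 h4 h5 h6 h7 h8 h9 => hk u (by simp) w (by simp) x (by simp) y (by simp) z (by simp) ⟨h0, h1, h2, h3, h4, h5, h6, h7, h8, h9⟩) (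
  .cons (fun d hd h0 => h0 e.1) (
  .cons (fun d hd h0 => h0 e.2.1) (
  .cons (fun d hd h0 => h0 e.2.2.1) (
  .cons (fun d hd h0 => h0 e.2.2.2.1) (
  .cons (fun d hd h0 => h0 e.2.2.2.2.1) (
  .cons (fun d hd h0 => h0 e.2.2.2.2.2.1) (
  .cons (fun d hd h0 => h0 e.2.2.2.2.2.2.1) (
  .cons (fun d hd h0 => h0 e.2.2.2.2.2.2.2.1) (
  .cons (fun d hd h0 => h0 e.2.2.2.2.2.2.2.2.1) (
  .cons (fun d hd h0 => h0 e.2.2.2.2.2.2.2.2.2) (
  .cons (fun d hd h0 => h0 hw) (
  .cons (fun d hd h0 => h0 g1) (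
  .cons (fun d hd h0 => h0 g2) (
  .cons (fun d hd h0 => m1 h0) (
  .cons (fun d hd h0 => m2 h0) (
  .nil))))))))))))))))))))))))))))

end Pool.Agent.SOF
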