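import Pool.Agent.SOF.W

/-! Project SOF, module Sem: the families of relations for the refutations; consequences of the closure rules. -/

set_option autoImplicit false

namespace Pool.Agent.SOF

open Pool.Agent.SOC Pool.Agent.SOD Pool.Agent.RUP

/-- the relations used in the refutations -/
structure Sy (V : Type) where
  G : SimpleGraph V
  X : V → V → V → V → Prop
  W : V → V → V → V → Prop
  P : V → V → V → V → Prop
  D : V → V → V → V → Prop
  sel : Nat → V → Prop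
  hX : Sym4 X
  hW : Sym4 W
  hP : Sym4 P
  hD : Sym4 D

variable {V : Type}

/-- quaternary relations: 0 crossing, 2 closure, 3 forced false, 4 the new structure, 5 the default rule -/
def Sy.fam (Y : Sy V) : Nat → V → V → V → V → Prop
  | 0 => Y.X
  | 2 => Y.W
  | 3 => RF Y.G Y.X Y.W
  | 4 => Y.P
  | 5 => Y.D
  | _ => fun _ _ _ _ => False

/-- binary relations: adjacency, selected points -/
def Sy.fam2 (Y : Sy V) : Nat → V → V → Prop
  | 0 => Y.G.Adj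
  | j + 1 => fun a b => a = b ∧ Y.sel j a

theorem rf_sym {G : SimpleGraph V} {X W : V → V → V → V → Prop} (hX : Sym4 X) (hW : Sym4 W) : Sym4 (RF G X W) := by
  refine ⟨fun a b c d h => ?_, fun a b c d h => ?_⟩
  · rcases h with h1 | h1 | h1 | h1
    · exact Or.inl fun h2 => h1 h2.symm1
    · exact Or.inr (Or.inl (hX.1 _ _ _ _ h1))
    · exact Or.inr (Or.inr (Or.inr (hW.2 _ _ _ _ h1)))
    · exact Or.inr (Or.inr (Or.inl (hW.2 _ _ _ _ h1)))
  · rcases h with h1 | h1 | h1 | h1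
    · exact Or.inl fun h2 => h1 h2.symm2
    · exact Or.inr (Or.inl (hX.2 _ _ _ _ h1))
    · exact Or.inr (Or.inr (Or.inl (hW.1 _ _ _ _ (hW.2 _ _ _ _ (hW.1 _ _ _ _ (hW.2 _ _ _ _ h1))))))
    · exact Or.inr (Or.inr (Or.inr (hW.2 _ _ _ _ (hW.1 _ _ _ _ (hW.2 _ _ _ _ (hW.1 _ _ _ _ (hW.2 _ _ _ _ h1)))))))

theorem Sy.fam_sym (Y : Sy V) (r : Nat) : Sym4 (Y.fam r) := by
  unfold Sy.fam
  split
  · exact Y.hX
  · exact Y.hW
  · exact rf_sym Y.hX Y.hW
  · exact Y.hP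
  · exact Y.hD
  · exact ⟨fun _ _ _ _ h => h, fun _ _ _ _ h => h⟩

/-- the relations -/
def Sy.rel (Y : Sy V) : SRel V where
  r2 := Y.fam2
  r3 := fun _ _ _ _ => False
  r4 := Y.fam
  s2 := by
    intro r a b h
    cases r with
    | zero => exact SimpleGraph.Adj.symm h
    | succ j => exact ⟨h.1.symm, h.1 ▸ h.2⟩
  s3 := fun h => h
  s3' := fun h => h
  s4 := fun {r} {_} {_} {_} {_} h => (Y.fam_sym r).1 _ _ _ _ h
  s4' := fun {r} {_} {_} {_} {_} h => (Y.fam_sym r).2 _ _ _ _ h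

section
variable {G : SimpleGraph V} {X W : V → V → V → V → Prop}

theorem WF.symW (h : WF G X W) : Sym4 W := ⟨fun _ _ _ _ => h.cl.sw1, fun _ _ _ _ => h.cl.sw2⟩

theorem WF.symX (h : WF G X W) : Sym4 X := ⟨fun _ _ _ _ => h.sepr.swap, fun _ _ _ _ => h.sepr.comm⟩

theorem WF.sw3 (h : WF G X W) {a b c d : V} (hw : W a b c d) : W a b d c := h.cl.sw2 (h.cl.sw1 (h.cl.sw2 hw))

theorem WF.sx3 (h : WF G X W) {a b c d : V} (hx : X a b c d) : X a b d c :=
  h.sepr.comm (h.sepr.swap (h.sepr.comm hx))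

theorem WF.ne' (h : WF G X W) {a b c d : V} (hw : W a b c d) : c ≠ d := h.ne (h.cl.sw2 hw)

/-- true and forced false is impossible -/
theorem WF.conf (h : WF G X W) {a b c d : V} (hw : W a b c d) : ¬ RF G X W a b c d := by
  intro hf
  rcases hf with h1 | h1 | h1 | h1
  · exact h1 (h.sq hw)
  · exact h.nc hw h1
  · exact h.ex hw h1
  · exact h.ex (h.sw3 hw) h1

/-- not forced false -/
theorem not_rf {a b c d : V} (h : ¬ RF G X W a b c d) :
    Sq G a b c d ∧ ¬ X a b c d ∧ ¬ W a c b d ∧ ¬ W a d b c := by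
  unfold RF at h
  tauto

/-- a square which is not a complete graph and does not cross -/
theorem WF.const' (h : WF G X W) {a b c d : V} (ab : a ≠ b) (cd : c ≠ d) (hs : Sq G a b c d) (hx : ¬ X a b c d)
    (hn : ¬ K4 G a b c d) : W a b c d := by
  by_cases h1 : G.Adj a b
  · have h2 : ¬ G.Adj c d := fun h2 => hn ⟨h1, hs.1, hs.2.1, hs.2.2.1, hs.2.2.2, h2⟩
    exact h.cl.sw2 (h.cl.const cd ab hs.symm2 (fun h3 => hx (h.sepr.comm h3)) h2)
  · exact h.cl.const ab cd hs hx h1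

theorem WF.bbT (h : WF G X W) {u w x y z : V} (hk : K5F G [u, w, x, y, z]) (xz : x ≠ z) (yz : y ≠ z)
    (h1 : W u w x y) (h2 : RF G X W u w x z) : RF G X W u w y z := by
  by_contra hc
  obtain ⟨c1, c2, c3, c4⟩ := not_rf hc
  have uw := h.ne h1
  by_cases h4 : K4 G u w y z
  · by_cases hx : X u y w z
    · refine c4 (h.cl.sw2 (h.cl.bb (x := x) (hk.sub (by simp)) xz (h.cl.sw1 h1)
        ((rf_sym h.symX h.symW).1 _ _ _ _ h2) ?_ ?_ ?_))
      · obtain ⟨e1, e2, e3, e4, e5, e6⟩ := h4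
        exact ⟨e1.symm, e4, e5, e2, e3, e6⟩
      · exact fun h5 => c2 (h.sepr.swap h5)
      · intro h5
        exact h.sepr.amo (h.sx3 hx) (h.sx3 (h.sepr.comm h5))
    · exact c3 (h.cl.bb hk xz h1 h2 h4 c2 hx)
  · exact h.conf (h.cl.bf hk xz h1 (h.const' uw yz c1 c2 h4)) h2

theorem WF.dbT (h : WF G X W) {a b x y x2 : V} (hk : K5F G [a, b, x, y, x2]) (ax2 : a ≠ x2) (bx : b ≠ x)
    (yx2 : y ≠ x2) (h1 : W a x b y) (h2 : RF G X W a x2 b y) : RF G X W a x2 b x := by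
  by_contra hc
  obtain ⟨c1, c2, c3, c4⟩ := not_rf hc
  by_cases h4 : K4 G a x2 b x
  · obtain ⟨e1, e2, e3, e4, e5, e6⟩ := h4
    have k4 : K4 G a b x x2 := ⟨e2, e3, e1, e6, e4.symm, e5.symm⟩
    by_cases hx : X a b x2 x
    · refine c4 (h.sw3 (h.cl.db2 hk yx2.symm h1 h2 k4 c2 ?_))
      intro h5
      exact h.sepr.amo (h.sx3 hx) h5
    · exact c3 (h.cl.db1 hk yx2.symm h1 h2 k4 c2 hx)
  · exact h.conf (h.cl.df hk yx2.symm h1 (h.const' ax2 bx c1 c2 h4)) h2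

theorem WF.cbT (h : WF G X W) {a b x y x2 y2 : V} (hk : K5F G [a, b, x, y, x2, y2]) (ax2 : a ≠ x2) (by2 : b ≠ y2)
    (xx2 : x ≠ x2) (xy2 : x ≠ y2) (yx2 : y ≠ x2) (yy2 : y ≠ y2) (h1 : W a x b y) (h2 : RF G X W a x b y2)
    (h3 : RF G X W a x2 b y) : RF G X W a x2 b y2 := by
  by_contra hc
  obtain ⟨c1, c2, c3, c4⟩ := not_rf hc
  by_cases h4 : K4 G a x2 b y2
  · obtain ⟨e1, e2, e3, e4, e5, e6⟩ := h4
    have k4 : K4 G a b x2 y2 := ⟨e2, e1, e3, e4.symm, e6, e5⟩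
    by_cases hx : X a b x2 y2
    · refine c4 (h.sw3 (h.cl.cb2 hk xx2 xy2 yx2 yy2 h1 h2 h3 k4 c2 ?_))
      intro h5
      exact h.sepr.amo (h.sx3 hx) h5
    · exact c3 (h.cl.cb1 hk xx2 xy2 yx2 yy2 h1 h2 h3 k4 c2 hx)
  · exact h.conf (h.cl.cf hk xx2 xy2 yx2 yy2 h1 (h.const' ax2 by2 c1 c2 h4) h2) h3

theorem WF.alt (h : WF G X W) {a b c d : V} (hk : K4 G a b c d) (h1 : RF G X W a b c d) (h2 : ¬ X a b c d)
    (h3 : ¬ X a c b d) : W a c b d := by
  obtain ⟨e1, e2, e3, e4, e5, e6⟩ := hk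
  rcases h1 with h4 | h4 | h4 | h4
  · exact absurd ⟨e2, e3, e4, e5⟩ h4
  · exact absurd h4 h2
  · exact h4
  · rcases h.sepr.one e1.ne e2.ne e3.ne e4.ne e5.ne e6.ne with h5 | h5 | h5
    · exact absurd h5 h2
    · exact absurd h5 h3
    · exact absurd h5 (h.nc h4)

end

/-- the system of relations for the closure -/
def syW {G : SimpleGraph V} {X W : V → V → V → V → Prop} (h : WF G X W) : Sy V where
  G := G
  X := X
  W := W
  P := fun _ _ _ _ => False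
  D := fun _ _ _ _ => False
  sel := fun _ _ => False
  hX := h.symX
  hW := h.symW
  hP := ⟨fun _ _ _ _ h => h, fun _ _ _ _ h => h⟩
  hD := ⟨fun _ _ _ _ h => h, fun _ _ _ _ h => h⟩

end Pool.Agent.SOF
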