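import Pool.Agent.SOF.Sem

/-! Project SOF: templates of the closure (generated). -/

set_option autoImplicit false
set_option maxRecDepth 100000
set_option linter.unusedVariables false

namespace Pool.Agent.SOF

open Pool.Agent.SOC Pool.Agent.SOD Pool.Agent.RUP

/-- templates -/
def tO : List Tm := [
  ⟨4, [], ad4, [.q true 0 0 1 2 3, .q true 0 0 2 1 3, .q true 0 0 3 1 2]⟩,
  ⟨4, [], ad4, [.q false 0 0 1 2 3, .q false 0 0 2 1 3]⟩,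
  ⟨5, [], ad5, [.q false 0 0 1 2 3, .q false 0 0 1 3 4, .q false 0 0 1 2 4]⟩,
  ⟨5, [], ad5, [.q false 0 0 1 2 3, .q true 0 0 1 3 4, .q true 0 0 1 2 4]⟩]

theorem tO_h {V : Type} {Y : Sy V} (h : WF Y.G Y.X Y.W) : UHs Y.rel tO :=
  .cons (fun v n01 n02 n03 n12 n13 n23 h0 h1 h2 => (h.sepr.one n01 n02 n03 n12 n13 n23).elim h0 (fun k => k.elim h1 h2)) (
  .cons (fun v n01 n02 n03 n12 n13 n23 h0 h1 => h.sepr.amo h0 h1) (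
  .cons (fun v n01 n02 n03 n04 n12 n13 n14 n23 n24 n34 h0 h1 h2 => h.sepr.add h0 h1 h2) (
  .cons (fun v n01 n02 n03 n04 n12 n13 n14 n23 n24 n34 h0 h1 h2 => (h.sepr.add2 h0 n34 n24 n04 n14).elim h1 h2) (
  .nil))))

/-- templates -/
def tB : List Tm := [
  ⟨4, [], ad4, [.q false 2 0 1 2 3, .b true 0 0 2]⟩,
  ⟨4, [], ad4, [.q false 2 0 1 2 3, .q false 0 0 1 2 3]⟩,
  ⟨4, [], ad4, [.b false 0 0 2, .b false 0 0 3, .b false 0 1 2, .b false 0 1 3, .q true 0 0 1 2 3, .b true 0 0 1, .q true 2 0 1 2 3]⟩,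
  ⟨4, [], ad4, [.q false 3 0 1 2 3, .b false 0 0 2, .b false 0 0 3, .b false 0 1 2, .b false 0 1 3, .q true 0 0 1 2 3, .q true 2 0 2 1 3, .q true 2 0 3 1 2]⟩,
  ⟨4, [], ad4, [.q true 3 0 1 2 3, .b true 0 0 2]⟩,
  ⟨4, [], ad4, [.q true 3 0 1 2 3, .q false 0 0 1 2 3]⟩,
  ⟨4, [], ad4, [.q true 3 0 1 2 3, .q false 2 0 2 1 3]⟩,
  ⟨4, [], ad4, [.b false 0 0 2, .b false 0 0 3, .b false 0 1 2, .b false 0 1 3, .b false 0 0 1, .b false 0 2 3, .q false 3 0 1 2 3, .q true 0 0 1 2 3, .q true 0 0 2 1 3, .q true 2 0 2 1 3]⟩,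
  ⟨4, [], ad4, [.q false 2 0 1 2 3, .q false 3 0 1 2 3]⟩]

theorem tB_h {V : Type} {Y : Sy V} (h : WF Y.G Y.X Y.W) : UHs Y.rel tB :=
  .cons (fun v n01 n02 n03 n12 n13 n23 h0 h1 => h1 (h.sq h0).1) (
  .cons (fun v n01 n02 n03 n12 n13 n23 h0 h1 => h.nc h0 h1) (
  .cons (fun v n01 n02 n03 n12 n13 n23 h0 h1 h2 h3 h4 h5 h6 => h6 (h.cl.const n01 n23 ⟨h0, h1, h2, h3⟩ h4 h5)) (
  .cons (fun v n01 n02 n03 n12 n13 n23 h0 h1 h2 h3 h4 h5 h6 h7 => h0.elim (fun k => k ⟨h1, h2, h3, h4⟩) (fun k => k.elim h5 (fun k => k.elim h6 h7))) (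
  .cons (fun v n01 n02 n03 n12 n13 n23 h0 h1 => h0 (Or.inl fun s => h1 s.1)) (
  .cons (fun v n01 n02 n03 n12 n13 n23 h0 h1 => h0 (Or.inr (Or.inl h1))) (
  .cons (fun v n01 n02 n03 n12 n13 n23 h0 h1 => h0 (Or.inr (Or.inr (Or.inl h1)))) (
  .cons (fun v n01 n02 n03 n12 n13 n23 h0 h1 h2 h3 h4 h5 h6 h7 h8 h9 => h9 (h.alt ⟨h4, h0, h1, h2, h3, h5⟩ h6 h7 h8)) (
  .cons (fun v n01 n02 n03 n12 n13 n23 h0 h1 => h.conf h0 h1) (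
  .nil)))))))))

/-- templates -/
def tR : List Tm := [
  ⟨4, [], ad4, [.q false 0 0 1 2 3, .b false 0 0 1, .b false 0 2 3, .b true 0 0 3, .b true 0 0 2]⟩,
  ⟨4, [], ad4, [.q false 0 0 1 2 3, .b false 0 0 1, .b false 0 2 3, .b true 0 0 3, .b true 0 3 1]⟩,
  ⟨4, [], ad4, [.q false 0 0 1 2 3, .b false 0 0 1, .b false 0 2 3, .b true 0 2 1, .b true 0 0 2]⟩,
  ⟨4, [], ad4, [.q false 0 0 1 2 3, .b false 0 0 1, .b false 0 2 3, .b true 0 2 1, .b true 0 3 1]⟩]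

theorem tR_h {V : Type} {Y : Sy V} (h : WF Y.G Y.X Y.W) : UHs Y.rel tR :=
  .cons (fun v n01 n02 n03 n12 n13 n23 h0 h1 h2 h3 h4 => (h.rig h0 h1 h2).elim (fun k => h3 k.1) (fun k => h4 k.1)) (
  .cons (fun v n01 n02 n03 n12 n13 n23 h0 h1 h2 h3 h4 => (h.rig h0 h1 h2).elim (fun k => h3 k.1) (fun k => h4 k.2)) (
  .cons (fun v n01 n02 n03 n12 n13 n23 h0 h1 h2 h3 h4 => (h.rig h0 h1 h2).elim (fun k => h3 k.2) (fun k => h4 k.1)) (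
  .cons (fun v n01 n02 n03 n12 n13 n23 h0 h1 h2 h3 h4 => (h.rig h0 h1 h2).elim (fun k => h3 k.2) (fun k => h4 k.2)) (
  .nil))))

/-- templates -/
def tF : List Tm := [
  ⟨5, [], ad5, [.q false 2 0 1 2 3, .q false 2 0 1 3 4, .q true 2 0 1 2 4, .b true 0 0 1]⟩,
  ⟨5, [], ad5, [.q false 2 0 1 2 3, .q false 3 0 1 2 4, .q true 3 0 1 3 4, .b true 0 0 1]⟩,
  ⟨5, [], ad5, [.q false 2 0 1 2 3, .q false 2 0 1 3 4, .q true 2 0 1 2 4, .b true 0 2 3]⟩,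
  ⟨5, [], ad5, [.q false 2 0 1 2 3, .q false 3 0 1 2 4, .q true 3 0 1 3 4, .b true 0 2 3]⟩,
  ⟨5, [], ad5, [.q false 2 0 1 2 3, .q false 2 0 1 3 4, .q true 2 0 1 2 4, .b true 0 3 4]⟩,
  ⟨5, [], ad5, [.q false 2 0 1 2 3, .q false 3 0 1 2 4, .q true 3 0 1 3 4, .b true 0 3 4]⟩,
  ⟨5, [], ad5, [.q false 2 0 1 2 3, .q false 2 0 1 3 4, .q true 2 0 1 2 4, .b true 0 2 4]⟩,
  ⟨5, [], ad5, [.q false 2 0 1 2 3, .q false 3 0 1 2 4, .q true 3 0 1 3 4, .b true 0 2 4]⟩,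
  ⟨5, [], ad5, [.q false 2 0 2 1 3, .q false 2 0 4 1 2, .q true 2 0 4 1 3, .b true 0 0 4]⟩,
  ⟨5, [], ad5, [.q false 2 0 2 1 3, .q false 3 0 4 1 3, .q true 3 0 4 1 2, .b true 0 0 4]⟩,
  ⟨5, [], ad5, [.q false 2 0 2 1 3, .q false 2 0 4 1 2, .q true 2 0 4 1 3, .b true 0 1 3]⟩,
  ⟨5, [], ad5, [.q false 2 0 2 1 3, .q false 3 0 4 1 3, .q true 3 0 4 1 2, .b true 0 1 3]⟩,
  ⟨5, [], ad5, [.q false 2 0 2 1 3, .q false 2 0 4 1 2, .q true 2 0 4 1 3, .b true 0 3 4]⟩,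
  ⟨5, [], ad5, [.q false 2 0 2 1 3, .q false 3 0 4 1 3, .q true 3 0 4 1 2, .b true 0 3 4]⟩,
  ⟨6, [], ad6, [.q false 2 0 2 1 3, .q false 2 0 4 1 5, .q false 3 0 2 1 5, .q true 2 0 4 1 3, .b true 0 0 2, .b true 0 1 3]⟩,
  ⟨6, [], ad6, [.q false 2 0 2 1 3, .q false 2 0 4 1 5, .q false 3 0 2 1 5, .q true 2 0 4 1 3, .b true 0 0 2, .b true 0 1 5]⟩,
  ⟨6, [], ad6, [.q false 2 0 2 1 3, .q false 2 0 4 1 5, .q false 3 0 2 1 5, .q true 2 0 4 1 3, .b true 0 0 2, .b true 0 3 5]⟩,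
  ⟨6, [], ad6, [.q false 2 0 2 1 3, .q false 2 0 4 1 5, .q false 3 0 2 1 5, .q true 2 0 4 1 3, .b true 0 0 2, .b true 0 3 4]⟩,
  ⟨6, [], ad6, [.q false 2 0 2 1 3, .q false 2 0 4 1 5, .q false 3 0 2 1 5, .q true 2 0 4 1 3, .b true 0 1 3, .b true 0 0 4]⟩,
  ⟨6, [], ad6, [.q false 2 0 2 1 3, .q false 2 0 4 1 5, .q false 3 0 2 1 5, .q true 2 0 4 1 3, .b true 0 1 3, .b true 0 2 4]⟩,
  ⟨6, [], ad6, [.q false 2 0 2 1 3, .q false 2 0 4 1 5, .q false 3 0 2 1 5, .q true 2 0 4 1 3, .b true 0 1 3, .b true 0 2 5]⟩,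
  ⟨6, [], ad6, [.q false 2 0 2 1 3, .q false 2 0 4 1 5, .q false 3 0 2 1 5, .q true 2 0 4 1 3, .b true 0 0 4, .b true 0 1 5]⟩,
  ⟨6, [], ad6, [.q false 2 0 2 1 3, .q false 2 0 4 1 5, .q false 3 0 2 1 5, .q true 2 0 4 1 3, .b true 0 0 4, .b true 0 3 5]⟩,
  ⟨6, [], ad6, [.q false 2 0 2 1 3, .q false 2 0 4 1 5, .q false 3 0 2 1 5, .q true 2 0 4 1 3, .b true 0 0 4, .b true 0 2 5]⟩,
  ⟨6, [], ad6, [.q false 2 0 2 1 3, .q false 2 0 4 1 5, .q false 3 0 2 1 5, .q true 2 0 4 1 3, .b true 0 1 5, .b true 0 2 4]⟩,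
  ⟨6, [], ad6, [.q false 2 0 2 1 3, .q false 2 0 4 1 5, .q false 3 0 2 1 5, .q true 2 0 4 1 3, .b true 0 1 5, .b true 0 3 4]⟩,
  ⟨6, [], ad6, [.q false 2 0 2 1 3, .q false 2 0 4 1 5, .q false 3 0 2 1 5, .q true 2 0 4 1 3, .b true 0 2 4, .b true 0 3 5]⟩,
  ⟨6, [], ad6, [.q false 2 0 2 1 3, .q false 2 0 4 1 5, .q false 3 0 2 1 5, .q true 2 0 4 1 3, .b true 0 2 5, .b true 0 3 4]⟩,
  ⟨6, [], ad6, [.q false 2 0 2 1 3, .q false 2 0 4 1 5, .q false 3 0 2 1 5, .q true 2 0 4 1 3, .b true 0 0 2, .b true 0 0 4, .b true 0 2 4]⟩,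
  ⟨6, [], ad6, [.q false 2 0 2 1 3, .q false 2 0 4 1 5, .q false 3 0 2 1 5, .q true 2 0 4 1 3, .b true 0 1 3, .b true 0 1 5, .b true 0 3 5]⟩,
  ⟨6, [], ad6, [.q false 2 0 2 1 3, .q false 3 0 2 1 5, .q false 3 0 4 1 3, .q true 3 0 4 1 5, .b true 0 0 2, .b true 0 1 3]⟩,
  ⟨6, [], ad6, [.q false 2 0 2 1 3, .q false 3 0 2 1 5, .q false 3 0 4 1 3, .q true 3 0 4 1 5, .b true 0 0 2, .b true 0 1 5]⟩,
  ⟨6, [], ad6, [.q false 2 0 2 1 3, .q false 3 0 2 1 5, .q false 3 0 4 1 3, .q true 3 0 4 1 5, .b true 0 0 2, .b true 0 3 5]⟩,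
  ⟨6, [], ad6, [.q false 2 0 2 1 3, .q false 3 0 2 1 5, .q false 3 0 4 1 3, .q true 3 0 4 1 5, .b true 0 0 2, .b true 0 3 4]⟩,
  ⟨6, [], ad6, [.q false 2 0 2 1 3, .q false 3 0 2 1 5, .q false 3 0 4 1 3, .q true 3 0 4 1 5, .b true 0 1 3, .b true 0 0 4]⟩,
  ⟨6, [], ad6, [.q false 2 0 2 1 3, .q false 3 0 2 1 5, .q false 3 0 4 1 3, .q true 3 0 4 1 5, .b true 0 1 3, .b true 0 2 4]⟩,
  ⟨6, [], ad6, [.q false 2 0 2 1 3, .q false 3 0 2 1 5, .q false 3 0 4 1 3, .q true 3 0 4 1 5, .b true 0 1 3, .b true 0 2 5]⟩,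
  ⟨6, [], ad6, [.q false 2 0 2 1 3, .q false 3 0 2 1 5, .q false 3 0 4 1 3, .q true 3 0 4 1 5, .b true 0 0 4, .b true 0 1 5]⟩,
  ⟨6, [], ad6, [.q false 2 0 2 1 3, .q false 3 0 2 1 5, .q false 3 0 4 1 3, .q true 3 0 4 1 5, .b true 0 0 4, .b true 0 3 5]⟩,
  ⟨6, [], ad6, [.q false 2 0 2 1 3, .q false 3 0 2 1 5, .q false 3 0 4 1 3, .q true 3 0 4 1 5, .b true 0 0 4, .b true 0 2 5]⟩,
  ⟨6, [], ad6, [.q false 2 0 2 1 3, .q false 3 0 2 1 5, .q false 3 0 4 1 3, .q true 3 0 4 1 5, .b true 0 1 5, .b true 0 2 4]⟩,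
  ⟨6, [], ad6, [.q false 2 0 2 1 3, .q false 3 0 2 1 5, .q false 3 0 4 1 3, .q true 3 0 4 1 5, .b true 0 1 5, .b true 0 3 4]⟩,
  ⟨6, [], ad6, [.q false 2 0 2 1 3, .q false 3 0 2 1 5, .q false 3 0 4 1 3, .q true 3 0 4 1 5, .b true 0 2 4, .b true 0 3 5]⟩,
  ⟨6, [], ad6, [.q false 2 0 2 1 3, .q false 3 0 2 1 5, .q false 3 0 4 1 3, .q true 3 0 4 1 5, .b true 0 2 5, .b true 0 3 4]⟩,
  ⟨6, [], ad6, [.q false 2 0 2 1 3, .q false 3 0 2 1 5, .q false 3 0 4 1 3, .q true 3 0 4 1 5, .b true 0 0 2, .b true 0 0 4, .b true 0 2 4]⟩,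
  ⟨6, [], ad6, [.q false 2 0 2 1 3, .q false 3 0 2 1 5, .q false 3 0 4 1 3, .q true 3 0 4 1 5, .b true 0 1 3, .b true 0 1 5, .b true 0 3 5]⟩]

theorem tF_h {V : Type} {Y : Sy V} (h : WF Y.G Y.X Y.W) : UHs Y.rel tF :=
  .cons (fun v n01 n02 n03 n04 n12 n13 n14 n23 n24 n34 h0 h1 h2 h3 => h2 (h.cl.bf (k5f_pair (l := [v 0, v 1, v 2, v 3, v 4]) (p := v 0) (q := v 1) (by simp) (by simp) (by simp) n01 h3) n24 h0 h1)) (
  .cons (fun v n01 n02 n03 n04 n12 n13 n14 n23 n24 n34 h0 h1 h2 h3 => h2 (h.bbT (k5f_pair (l := [v 0, v 1, v 2, v 3, v 4]) (p := v 0) (q := v 1) (by simp) (by simp) (by simp) n01 h3) n24 n34 h0 h1)) (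
  .cons (fun v n01 n02 n03 n04 n12 n13 n14 n23 n24 n34 h0 h1 h2 h3 => h2 (h.cl.bf (k5f_pair (l := [v 0, v 1, v 2, v 3, v 4]) (p := v 2) (q := v 3) (by simp) (by simp) (by simp) n23 h3) n24 h0 h1)) (
  .cons (fun v n01 n02 n03 n04 n12 n13 n14 n23 n24 n34 h0 h1 h2 h3 => h2 (h.bbT (k5f_pair (l := [v 0, v 1, v 2, v 3, v 4]) (p := v 2) (q := v 3) (by simp) (by simp) (by simp) n23 h3) n24 n34 h0 h1)) (
  .cons (fun v n01 n02 n03 n04 n12 n13 n14 n23 n24 n34 h0 h1 h2 h3 => h2 (h.cl.bf (k5f_pair (l := [v 0, v 1, v 2, v 3, v 4]) (p := v 3) (q := v 4) (by simp) (by simp) (by simp) n34 h3) n24 h0 h1)) (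
  .cons (fun v n01 n02 n03 n04 n12 n13 n14 n23 n24 n34 h0 h1 h2 h3 => h2 (h.bbT (k5f_pair (l := [v 0, v 1, v 2, v 3, v 4]) (p := v 3) (q := v 4) (by simp) (by simp) (by simp) n34 h3) n24 n34 h0 h1)) (
  .cons (fun v n01 n02 n03 n04 n12 n13 n14 n23 n24 n34 h0 h1 h2 h3 => h2 (h.cl.bf (k5f_pair (l := [v 0, v 1, v 2, v 3, v 4]) (p := v 2) (q := v 4) (by simp) (by simp) (by simp) n24 h3) n24 h0 h1)) (
  .cons (fun v n01 n02 n03 n04 n12 n13 n14 n23 n24 n34 h0 h1 h2 h3 => h2 (h.bbT (k5f_pair (l := [v 0, v 1, v 2, v 3, v 4]) (p := v 2) (q := v 4) (by simp) (by simp) (by simp) n24 h3) n24 n34 h0 h1)) (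
  .cons (fun v n01 n02 n03 n04 n12 n13 n14 n23 n24 n34 h0 h1 h2 h3 => h2 (h.cl.df (k5f_pair (l := [v 0, v 1, v 2, v 3, v 4]) (p := v 0) (q := v 4) (by simp) (by simp) (by simp) n04 h3) n34.symm h0 h1)) (
  .cons (fun v n01 n02 n03 n04 n12 n13 n14 n23 n24 n34 h0 h1 h2 h3 => h2 (h.dbT (k5f_pair (l := [v 0, v 1, v 2, v 3, v 4]) (p := v 0) (q := v 4) (by simp) (by simp) (by simp) n04 h3) n04 n12 n34 h0 h1)) (
  .cons (fun v n01 n02 n03 n04 n12 n13 n14 n23 n24 n34 h0 h1 h2 h3 => h2 (h.cl.df (k5f_pair (l := [v 0, v 1, v 2, v 3, v 4]) (p := v 1) (q := v 3) (by simp) (by simp) (by simp) n13 h3) n34.symm h0 h1)) (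
  .cons (fun v n01 n02 n03 n04 n12 n13 n14 n23 n24 n34 h0 h1 h2 h3 => h2 (h.dbT (k5f_pair (l := [v 0, v 1, v 2, v 3, v 4]) (p := v 1) (q := v 3) (by simp) (by simp) (by simp) n13 h3) n04 n12 n34 h0 h1)) (
  .cons (fun v n01 n02 n03 n04 n12 n13 n14 n23 n24 n34 h0 h1 h2 h3 => h2 (h.cl.df (k5f_pair (l := [v 0, v 1, v 2, v 3, v 4]) (p := v 3) (q := v 4) (by simp) (by simp) (by simp) n34 h3) n34.symm h0 h1)) (
  .cons (fun v n01 n02 n03 n04 n12 n13 n14 n23 n24 n34 h0 h1 h2 h3 => h2 (h.dbT (k5f_pair (l := [v 0, v 1, v 2, v 3, v 4]) (p := v 3) (q := v 4) (by simp) (by simp) (by simp) n34 h3) n04 n12 n34 h0 h1)) (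
  .cons (fun v n01 n02 n03 n04 n05 n12 n13 n14 n15 n23 n24 n25 n34 n35 n45 h0 h1 h2 h3 h4 h5 => h3 (h.cl.cf (k5f_pairs (l := [v 0, v 1, v 2, v 3, v 4, v 5]) (p := v 0) (q := v 2) (r := v 1) (s := v 3) (by simp) (by simp) (by simp) (by simp) (by simp) n02 n13 n01 n03 n12.symm n23 h4 h5) n24 n25 n34 n35 h0 h1 h2)) (
  .cons (fun v n01 n02 n03 n04 n05 n12 n13 n14 n15 n23 n24 n25 n34 n35 n45 h0 h1 h2 h3 h4 h5 => h3 (h.cl.cf (k5f_pairs (l := [v 0, v 1, v 2, v 3, v 4, v 5]) (p := v 0) (q := v 2) (r := v 1) (s := v 5) (by simp) (by simp) (by simp) (by simp) (by simp) n02 n15 n01 n05 n12.symm n25 h4 h5) n24 n25 n34 n35 h0 h1 h2)) (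
  .cons (fun v n01 n02 n03 n04 n05 n12 n13 n14 n15 n23 n24 n25 n34 n35 n45 h0 h1 h2 h3 h4 h5 => h3 (h.cl.cf (k5f_pairs (l := [v 0, v 1, v 2, v 3, v 4, v 5]) (p := v 0) (q := v 2) (r := v 3) (s := v 5) (by simp) (by simp) (by simp) (by simp) (by simp) n02 n35 n03 n05 n23 n25 h4 h5) n24 n25 n34 n35 h0 h1 h2)) (
  .cons (fun v n01 n02 n03 n04 n05 n12 n13 n14 n15 n23 n24 n25 n34 n35 n45 h0 h1 h2 h3 h4 h5 => h3 (h.cl.cf (k5f_pairs (l := [v 0, v 1, v 2, v 3, v 4, v 5]) (p := v 0) (q := v 2) (r := v 3) (s := v 4) (by simp) (by simp) (by simp) (by simp) (by simp) n02 n34 n03 n04 n23 n24 h4 h5) n24 n25 n34 n35 h0 h1 h2)) (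
  .cons (fun v n01 n02 n03 n04 n05 n12 n13 n14 n15 n23 n24 n25 n34 n35 n45 h0 h1 h2 h3 h4 h5 => h3 (h.cl.cf (k5f_pairs (l := [v 0, v 1, v 2, v 3, v 4, v 5]) (p := v 1) (q := v 3) (r := v 0) (s := v 4) (by simp) (by simp) (by simp) (by simp) (by simp) n13 n04 n01.symm n14 n03.symm n34 h4 h5) n24 n25 n34 n35 h0 h1 h2)) (
  .cons (fun v n01 n02 n03 n04 n05 n12 n13 n14 n15 n23 n24 n25 n34 n35 n45 h0 h1 h2 h3 h4 h5 => h3 (h.cl.cf (k5f_pairs (l := [v 0, v 1, v 2, v 3, v 4, v 5]) (p := v 1) (q := v 3) (r := v 2) (s := v 4) (by simp) (by simp) (by simp) (by simp) (by simp) n13 n24 n12 n14 n23.symm n34 h4 h5) n24 n25 n34 n35 h0 h1 h2)) (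
  .cons (fun v n01 n02 n03 n04 n05 n12 n13 n14 n15 n23 n24 n25 n34 n35 n45 h0 h1 h2 h3 h4 h5 => h3 (h.cl.cf (k5f_pairs (l := [v 0, v 1, v 2, v 3, v 4, v 5]) (p := v 1) (q := v 3) (r := v 2) (s := v 5) (by simp) (by simp) (by simp) (by simp) (by simp) n13 n25 n12 n15 n23.symm n35 h4 h5) n24 n25 n34 n35 h0 h1 h2)) (
  .cons (fun v n01 n02 n03 n04 n05 n12 n13 n14 n15 n23 n24 n25 n34 n35 n45 h0 h1 h2 h3 h4 h5 => h3 (h.cl.cf (k5f_pairs (l := [v 0, v 1, v 2, v 3, v 4, v 5]) (p := v 0) (q := v 4) (r := v 1) (s := v 5) (by simp) (by simp) (by simp) (by simp) (by simp) n04 n15 n01 n05 n14.symm n45 h4 h5) n24 n25 n34 n35 h0 h1 h2)) (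
  .cons (fun v n01 n02 n03 n04 n05 n12 n13 n14 n15 n23 n24 n25 n34 n35 n45 h0 h1 h2 h3 h4 h5 => h3 (h.cl.cf (k5f_pairs (l := [v 0, v 1, v 2, v 3, v 4, v 5]) (p := v 0) (q := v 4) (r := v 3) (s := v 5) (by simp) (by simp) (by simp) (by simp) (by simp) n04 n35 n03 n05 n34.symm n45 h4 h5) n24 n25 n34 n35 h0 h1 h2)) (
  .cons (fun v n01 n02 n03 n04 n05 n12 n13 n14 n15 n23 n24 n25 n34 n35 n45 h0 h1 h2 h3 h4 h5 => h3 (h.cl.cf (k5f_pairs (l := [v 0, v 1, v 2, v 3, v 4, v 5]) (p := v 0) (q := v 4) (r := v 2) (s := v 5) (by simp) (by simp) (by simp) (by simp) (by simp) n04 n25 n02 n05 n24.symm n45 h4 h5) n24 n25 n34 n35 h0 h1 h2)) (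
  .cons (fun v n01 n02 n03 n04 n05 n12 n13 n14 n15 n23 n24 n25 n34 n35 n45 h0 h1 h2 h3 h4 h5 => h3 (h.cl.cf (k5f_pairs (l := [v 0, v 1, v 2, v 3, v 4, v 5]) (p := v 1) (q := v 5) (r := v 2) (s := v 4) (by simp) (by simp) (by simp) (by simp) (by simp) n15 n24 n12 n14 n25.symm n45.symm h4 h5) n24 n25 n34 n35 h0 h1 h2)) (
  .cons (fun v n01 n02 n03 n04 n05 n12 n13 n14 n15 n23 n24 n25 n34 n35 n45 h0 h1 h2 h3 h4 h5 => h3 (h.cl.cf (k5f_pairs (l := [v 0, v 1, v 2, v 3, v 4, v 5]) (p := v 1) (q := v 5) (r := v 3) (s := v 4) (by simp) (by simp) (by simp) (by simp) (by simp) n15 n34 n13 n14 n35.symm n45.symm h4 h5) n24 n25 n34 n35 h0 h1 h2)) (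
  .cons (fun v n01 n02 n03 n04 n05 n12 n13 n14 n15 n23 n24 n25 n34 n35 n45 h0 h1 h2 h3 h4 h5 => h3 (h.cl.cf (k5f_pairs (l := [v 0, v 1, v 2, v 3, v 4, v 5]) (p := v 2) (q := v 4) (r := v 3) (s := v 5) (by simp) (by simp) (by simp) (by simp) (by simp) n24 n35 n23 n25 n34.symm n45 h4 h5) n24 n25 n34 n35 h0 h1 h2)) (
  .cons (fun v n01 n02 n03 n04 n05 n12 n13 n14 n15 n23 n24 n25 n34 n35 n45 h0 h1 h2 h3 h4 h5 => h3 (h.cl.cf (k5f_pairs (l := [v 0, v 1, v 2, v 3, v 4, v 5]) (p := v 2) (q := v 5) (r := v 3) (s := v 4) (by simp) (by simp) (by simp) (by simp) (by simp) n25 n34 n23 n24 n35.symm n45.symm h4 h5) n24 n25 n34 n35 h0 h1 h2)) (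
  .cons (fun v n01 n02 n03 n04 n05 n12 n13 n14 n15 n23 n24 n25 n34 n35 n45 h0 h1 h2 h3 h4 h5 h6 => h3 (h.cl.cf (k5f_tri (l := [v 0, v 1, v 2, v 3, v 4, v 5]) (p := v 0) (q := v 2) (r := v 4) (by simp) (by simp) (by simp) (by simp) n02 n04 n24 h4 h5 h6) n24 n25 n34 n35 h0 h1 h2)) (
  .cons (fun v n01 n02 n03 n04 n05 n12 n13 n14 n15 n23 n24 n25 n34 n35 n45 h0 h1 h2 h3 h4 h5 h6 => h3 (h.cl.cf (k5f_tri (l := [v 0, v 1, v 2, v 3, v 4, v 5]) (p := v 1) (q := v 3) (r := v 5) (by simp) (by simp) (by simp) (by simp) n13 n15 n35 h4 h5 h6) n24 n25 n34 n35 h0 h1 h2)) (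
  .cons (fun v n01 n02 n03 n04 n05 n12 n13 n14 n15 n23 n24 n25 n34 n35 n45 h0 h1 h2 h3 h4 h5 => h3 (h.cbT (k5f_pairs (l := [v 0, v 1, v 2, v 3, v 4, v 5]) (p := v 0) (q := v 2) (r := v 1) (s := v 3) (by simp) (by simp) (by simp) (by simp) (by simp) n02 n13 n01 n03 n12.symm n23 h4 h5) n04 n15 n24 n25 n34 n35 h0 h1 h2)) (
  .cons (fun v n01 n02 n03 n04 n05 n12 n13 n14 n15 n23 n24 n25 n34 n35 n45 h0 h1 h2 h3 h4 h5 => h3 (h.cbT (k5f_pairs (l := [v 0, v 1, v 2, v 3, v 4, v 5]) (p := v 0) (q := v 2) (r := v 1) (s := v 5) (by simp) (by simp) (by simp) (by simp) (by simp) n02 n15 n01 n05 n12.symm n25 h4 h5) n04 n15 n24 n25 n34 n35 h0 h1 h2)) (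
  .cons (fun v n01 n02 n03 n04 n05 n12 n13 n14 n15 n23 n24 n25 n34 n35 n45 h0 h1 h2 h3 h4 h5 => h3 (h.cbT (k5f_pairs (l := [v 0, v 1, v 2, v 3, v 4, v 5]) (p := v 0) (q := v 2) (r := v 3) (s := v 5) (by simp) (by simp) (by simp) (by simp) (by simp) n02 n35 n03 n05 n23 n25 h4 h5) n04 n15 n24 n25 n34 n35 h0 h1 h2)) (
  .cons (fun v n01 n02 n03 n04 n05 n12 n13 n14 n15 n23 n24 n25 n34 n35 n45 h0 h1 h2 h3 h4 h5 => h3 (h.cbT (k5f_pairs (l := [v 0, v 1, v 2, v 3, v 4, v 5]) (p := v 0) (q := v 2) (r := v 3) (s := v 4) (by simp) (by simp) (by simp) (by simp) (by simp) n02 n34 n03 n04 n23 n24 h4 h5) n04 n15 n24 n25 n34 n35 h0 h1 h2)) (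
  .cons (fun v n01 n02 n03 n04 n05 n12 n13 n14 n15 n23 n24 n25 n34 n35 n45 h0 h1 h2 h3 h4 h5 => h3 (h.cbT (k5f_pairs (l := [v 0, v 1, v 2, v 3, v 4, v 5]) (p := v 1) (q := v 3) (r := v 0) (s := v 4) (by simp) (by simp) (by simp) (by simp) (by simp) n13 n04 n01.symm n14 n03.symm n34 h4 h5) n04 n15 n24 n25 n34 n35 h0 h1 h2)) (
  .cons (fun v n01 n02 n03 n04 n05 n12 n13 n14 n15 n23 n24 n25 n34 n35 n45 h0 h1 h2 h3 h4 h5 => h3 (h.cbT (k5f_pairs (l := [v 0, v 1, v 2, v 3, v 4, v 5]) (p := v 1) (q := v 3) (r := v 2) (s := v 4) (by simp) (by simp) (by simp) (by simp) (by simp) n13 n24 n12 n14 n23.symm n34 h4 h5) n04 n15 n24 n25 n34 n35 h0 h1 h2)) (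
  .cons (fun v n01 n02 n03 n04 n05 n12 n13 n14 n15 n23 n24 n25 n34 n35 n45 h0 h1 h2 h3 h4 h5 => h3 (h.cbT (k5f_pairs (l := [v 0, v 1, v 2, v 3, v 4, v 5]) (p := v 1) (q := v 3) (r := v 2) (s := v 5) (by simp) (by simp) (by simp) (by simp) (by simp) n13 n25 n12 n15 n23.symm n35 h4 h5) n04 n15 n24 n25 n34 n35 h0 h1 h2)) (
  .cons (fun v n01 n02 n03 n04 n05 n12 n13 n14 n15 n23 n24 n25 n34 n35 n45 h0 h1 h2 h3 h4 h5 => h3 (h.cbT (k5f_pairs (l := [v 0, v 1, v 2, v 3, v 4, v 5]) (p := v 0) (q := v 4) (r := v 1) (s := v 5) (by simp) (by simp) (by simp) (by simp) (by simp) n04 n15 n01 n05 n14.symm n45 h4 h5) n04 n15 n24 n25 n34 n35 h0 h1 h2)) (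
  .cons (fun v n01 n02 n03 n04 n05 n12 n13 n14 n15 n23 n24 n25 n34 n35 n45 h0 h1 h2 h3 h4 h5 => h3 (h.cbT (k5f_pairs (l := [v 0, v 1, v 2, v 3, v 4, v 5]) (p := v 0) (q := v 4) (r := v 3) (s := v 5) (by simp) (by simp) (by simp) (by simp) (by simp) n04 n35 n03 n05 n34.symm n45 h4 h5) n04 n15 n24 n25 n34 n35 h0 h1 h2)) (
  .cons (fun v n01 n02 n03 n04 n05 n12 n13 n14 n15 n23 n24 n25 n34 n35 n45 h0 h1 h2 h3 h4 h5 => h3 (h.cbT (k5f_pairs (l := [v 0, v 1, v 2, v 3, v 4, v 5]) (p := v 0) (q := v 4) (r := v 2) (s := v 5) (by simp) (by simp) (by simp) (by simp) (by simp) n04 n25 n02 n05 n24.symm n45 h4 h5) n04 n15 n24 n25 n34 n35 h0 h1 h2)) (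
  .cons (fun v n01 n02 n03 n04 n05 n12 n13 n14 n15 n23 n24 n25 n34 n35 n45 h0 h1 h2 h3 h4 h5 => h3 (h.cbT (k5f_pairs (l := [v 0, v 1, v 2, v 3, v 4, v 5]) (p := v 1) (q := v 5) (r := v 2) (s := v 4) (by simp) (by simp) (by simp) (by simp) (by simp) n15 n24 n12 n14 n25.symm n45.symm h4 h5) n04 n15 n24 n25 n34 n35 h0 h1 h2)) (
  .cons (fun v n01 n02 n03 n04 n05 n12 n13 n14 n15 n23 n24 n25 n34 n35 n45 h0 h1 h2 h3 h4 h5 => h3 (h.cbT (k5f_pairs (l := [v 0, v 1, v 2, v 3, v 4, v 5]) (p := v 1) (q := v 5) (r := v 3) (s := v 4) (by simp) (by simp) (by simp) (by simp) (by simp) n15 n34 n13 n14 n35.symm n45.symm h4 h5) n04 n15 n24 n25 n34 n35 h0 h1 h2)) (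
  .cons (fun v n01 n02 n03 n04 n05 n12 n13 n14 n15 n23 n24 n25 n34 n35 n45 h0 h1 h2 h3 h4 h5 => h3 (h.cbT (k5f_pairs (l := [v 0, v 1, v 2, v 3, v 4, v 5]) (p := v 2) (q := v 4) (r := v 3) (s := v 5) (by simp) (by simp) (by simp) (by simp) (by simp) n24 n35 n23 n25 n34.symm n45 h4 h5) n04 n15 n24 n25 n34 n35 h0 h1 h2)) (
  .cons (fun v n01 n02 n03 n04 n05 n12 n13 n14 n15 n23 n24 n25 n34 n35 n45 h0 h1 h2 h3 h4 h5 => h3 (h.cbT (k5f_pairs (l := [v 0, v 1, v 2, v 3, v 4, v 5]) (p := v 2) (q := v 5) (r := v 3) (s := v 4) (by simp) (by simp) (by simp) (by simp) (by simp) n25 n34 n23 n24 n35.symm n45.symm h4 h5) n04 n15 n24 n25 n34 n35 h0 h1 h2)) (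
  .cons (fun v n01 n02 n03 n04 n05 n12 n13 n14 n15 n23 n24 n25 n34 n35 n45 h0 h1 h2 h3 h4 h5 h6 => h3 (h.cbT (k5f_tri (l := [v 0, v 1, v 2, v 3, v 4, v 5]) (p := v 0) (q := v 2) (r := v 4) (by simp) (by simp) (by simp) (by simp) n02 n04 n24 h4 h5 h6) n04 n15 n24 n25 n34 n35 h0 h1 h2)) (
  .cons (fun v n01 n02 n03 n04 n05 n12 n13 n14 n15 n23 n24 n25 n34 n35 n45 h0 h1 h2 h3 h4 h5 h6 => h3 (h.cbT (k5f_tri (l := [v 0, v 1, v 2, v 3, v 4, v 5]) (p := v 1) (q := v 3) (r := v 5) (by simp) (by simp) (by simp) (by simp) n13 n15 n35 h4 h5 h6) n04 n15 n24 n25 n34 n35 h0 h1 h2)) (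
  .nil))))))))))))))))))))))))))))))))))))))))))))))

/-- templates -/
def tK : List Tm := [
  ⟨5, [], ad5, [.b false 0 0 1, .b false 0 0 2, .b false 0 0 3, .b false 0 0 4, .b false 0 1 2, .b false 0 1 3, .b false 0 1 4, .b false 0 2 3, .b false 0 2 4, .b false 0 3 4, .q false 0 4 0 2 3, .q false 0 4 1 2 3, .q false 2 0 1 2 3, .q true 2 0 1 2 4]⟩]

theorem tK_h {V : Type} {Y : Sy V} (h : WF Y.G Y.X Y.W) : UHs Y.rel tK :=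
  .cons (fun v n01 n02 n03 n04 n12 n13 n14 n23 n24 n34 h0 h1 h2 h3 h4 h5 h6 h7 h8 h9 h10 h11 h12 h13 => h13 (h.cl.k5 ⟨h0, h1, h2, h3, h4, h5, h6, h7, h8, h9⟩ h10 h11 h12)) (
  .nil)

end Pool.Agent.SOF
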