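import Pool.Agent.SOF.Inv
import Pool.Agent.SOF.Ra

/-! Project SOF, module TPd: the new structure. -/

set_option autoImplicit false

namespace Pool.Agent.SOF

open Pool.Agent.SOC Pool.Agent.SOD Pool.Agent.RUP

/-- the assumptions: `i`, `o` are two isolated points at the end of the order -/
structure WA {V : Type} (G : SimpleGraph V) (X W : V → V → V → V → Prop) (pos : V → Nat) (i o : V) : Prop where
  wf : WF G X W
  inv : ∀ {a b c d}, W a b c d → I2 G X W a b c d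
  pinj : ∀ {a b}, pos a = pos b → a = b
  isoi : ∀ v, ¬ G.Adj i v
  isoo : ∀ v, ¬ G.Adj o v
  lt : ∀ {a b}, X i a o b ↔ (a ≠ i ∧ a ≠ o ∧ b ≠ i ∧ b ≠ o ∧ pos a < pos b)
  gg : ∀ {a b}, ¬ X i o a b
  srt : ∀ {a b c d}, pos a < pos b → pos b < pos c → pos c < pos d → X a c b d

section
variable {V : Type}

theorem nd5 {a b c d e : V} (h1 : a ≠ b) (h2 : a ≠ c) (h3 : a ≠ d) (h4 : a ≠ e) (h5 : b ≠ c) (h6 : b ≠ d)
    (h7 : b ≠ e) (h8 : c ≠ d) (h9 : c ≠ e) (h10 : d ≠ e) : [a, b, c, d, e].Nodup := by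
  simp only [List.nodup_cons, List.mem_cons, List.not_mem_nil, or_false, not_or, not_false_eq_true, List.nodup_nil,
    and_true]
  exact ⟨⟨h1, h2, h3, h4⟩, ⟨h5, h6, h7⟩, ⟨h8, h9⟩, h10⟩

theorem nd6 {a b c d e f : V} (h1 : a ≠ b) (h2 : a ≠ c) (h3 : a ≠ d) (h4 : a ≠ e) (h5 : a ≠ f) (h6 : b ≠ c)
    (h7 : b ≠ d) (h8 : b ≠ e) (h9 : b ≠ f) (h10 : c ≠ d) (h11 : c ≠ e) (h12 : c ≠ f) (h13 : d ≠ e) (h14 : d ≠ f)
    (h15 : e ≠ f) : [a, b, c, d, e, f].Nodup := by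
  simp only [List.nodup_cons, List.mem_cons, List.not_mem_nil, or_false, not_or, not_false_eq_true, List.nodup_nil,
    and_true]
  exact ⟨⟨h1, h2, h3, h4, h5⟩, ⟨h6, h7, h8, h9⟩, ⟨h10, h11, h12⟩, ⟨h13, h14⟩, h15⟩

/-- sorted -/
def Srt (pos : V → Nat) (a b c d : V) : Prop := pos a < pos b ∧ pos b < pos c ∧ pos c < pos d

/-- sorting four points -/
theorem sort4 (pos : V → Nat) {S : V → V → V → V → Prop} (s1 : ∀ p q r s, S q p r s → S p q r s)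
    (s2 : ∀ p q r s, S p r q s → S p q r s) (s3 : ∀ p q r s, S p q s r → S p q r s)
    (base : ∀ p q r s, Srt pos p q r s → S p q r s) {p q r s : V} (pq : pos p ≠ pos q) (pr : pos p ≠ pos r)
    (ps : pos p ≠ pos s) (qr : pos q ≠ pos r) (qs : pos q ≠ pos s) (rs : pos r ≠ pos s) : S p q r s := by
  have A : ∀ p q r s, pos p < pos q → pos q < pos r → pos p ≠ pos s → pos q ≠ pos s → pos r ≠ pos s →
      S p q r s := by
    intro p q r s h1 h2 h3 h4 h5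
    rcases lt_or_gt_of_ne h5 with h6 | h6
    · exact base _ _ _ _ ⟨h1, h2, h6⟩
    · apply s3
      rcases lt_or_gt_of_ne h4 with h7 | h7
      · exact base _ _ _ _ ⟨h1, h7, h6⟩
      · apply s2
        rcases lt_or_gt_of_ne h3 with h8 | h8
        · exact base _ _ _ _ ⟨h8, h7, h2⟩
        · apply s1
          exact base _ _ _ _ ⟨h8, h1, h2⟩
  have B : ∀ p q r s, pos p < pos q → pos p ≠ pos r → pos q ≠ pos r → pos p ≠ pos s → pos q ≠ pos s →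
      pos r ≠ pos s → S p q r s := by
    intro p q r s h1 h2 h3 h4 h5 h6
    rcases lt_or_gt_of_ne h3 with h7 | h7
    · exact A _ _ _ _ h1 h7 h4 h5 h6
    · apply s2
      rcases lt_or_gt_of_ne h2 with h8 | h8
      · exact A _ _ _ _ h8 h7 h4 h6 h5
      · apply s1
        exact A _ _ _ _ h8 h1 h6 h4 h5
  rcases lt_or_gt_of_ne pq with h1 | h1
  · exact B _ _ _ _ h1 pr qr ps qs rs
  · apply s1
    exact B _ _ _ _ h1 qr pr qs ps rs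

/-- the symmetric closure -/
def Sym8 (R : V → V → V → V → Prop) (p q r s : V) : Prop :=
  (R p q r s ∨ R q p r s) ∨ (R p q s r ∨ R q p s r) ∨ (R r s p q ∨ R s r p q) ∨ (R r s q p ∨ R s r q p)

theorem Sym8.sym (R : V → V → V → V → Prop) : Sym4 (Sym8 R) := by
  constructor
  · intro a b c d h
    unfold Sym8 at h ⊢
    tauto
  · intro a b c d h
    unfold Sym8 at h ⊢
    tauto

theorem Sym8.elim {R Q : V → V → V → V → Prop} (hQ : Sym4 Q) (h : ∀ {a b c d}, R a b c d → Q a b c d) {a b c d : V}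
    (hs : Sym8 R a b c d) : Q a b c d := by
  have s1 := hQ.1
  have s2 := hQ.2
  have s3 : ∀ a b c d, Q a b c d → Q a b d c := fun a b c d h => s2 _ _ _ _ (s1 _ _ _ _ (s2 _ _ _ _ h))
  rcases hs with (h1 | h1) | (h1 | h1) | (h1 | h1) | (h1 | h1)
  · exact h h1
  · exact s1 _ _ _ _ (h h1)
  · exact s3 _ _ _ _ (h h1)
  · exact s3 _ _ _ _ (s1 _ _ _ _ (h h1))
  · exact s2 _ _ _ _ (h h1)
  · exact s2 _ _ _ _ (s1 _ _ _ _ (h h1))
  · exact s1 _ _ _ _ (s2 _ _ _ _ (h h1))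
  · exact s1 _ _ _ _ (s2 _ _ _ _ (s1 _ _ _ _ (h h1)))

variable (G : SimpleGraph V) (X W : V → V → V → V → Prop) (pos : V → Nat)

/-- `z` is a witness for the default rule -/
def Wit (a b c d z : V) : Prop :=
  pos d < pos z ∧ G.Adj z b ∧ G.Adj z c ∧ G.Adj z d ∧ (¬ G.Adj z a → ¬ W d z b c) ∧
    (G.Adj z a → ¬ (W d z a b ∧ W d z b c ∧ W d z a c))

/-- the default rule -/
def D0 (a b c d : V) : Prop := ∃ z, Wit G W pos a b c d z

/-- unforced -/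
def UF (a b c d : V) : Prop := ¬ W a b c d ∧ ¬ W a c b d ∧ ¬ W a d b c

/-- default, first case -/
def F1 (a b c d : V) : Prop := Srt pos a b c d ∧ K4 G a b c d ∧ UF W a b c d ∧ D0 G W pos a b c d

/-- default, second case -/
def F2 (a d b c : V) : Prop := Srt pos a b c d ∧ K4 G a b c d ∧ UF W a b c d ∧ ¬ D0 G W pos a b c d

/-- the new structure -/
def TP (p q r s : V) : Prop := W p q r s ∨ Sym8 (F1 G W pos) p q r s ∨ Sym8 (F2 G W pos) p q r s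

/-- the default rule as a symmetric relation -/
def DD (p q r s : V) : Prop := Sym8 (fun a b c d => Srt pos a b c d ∧ D0 G W pos a b c d) p q r s

end

section
variable {V : Type} {G : SimpleGraph V} {X W : V → V → V → V → Prop} {pos : V → Nat} {i o : V}

theorem DD.d0 {a b c d : V} (hs : Srt pos a b c d) (h : DD G W pos a b c d) : D0 G W pos a b c d := by
  obtain ⟨h1, h2, h3⟩ := hs
  rcases h with (⟨⟨g1, g2, g3⟩, h⟩ | ⟨⟨g1, g2, g3⟩, h⟩) | (⟨⟨g1, g2, g3⟩, h⟩ | ⟨⟨g1, g2, g3⟩, h⟩) |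
    (⟨⟨g1, g2, g3⟩, h⟩ | ⟨⟨g1, g2, g3⟩, h⟩) | (⟨⟨g1, g2, g3⟩, h⟩ | ⟨⟨g1, g2, g3⟩, h⟩) <;>
    first
      | exact h
      | omega

/-- sorted points, first pairing -/
theorem tp1 {a b c d : V} (hs : Srt pos a b c d) (h : TP G W pos a b c d) :
    W a b c d ∨ (K4 G a b c d ∧ UF W a b c d ∧ D0 G W pos a b c d) := by
  obtain ⟨h1, h2, h3⟩ := hs
  rcases h with h | h | h
  · exact Or.inl h
  · rcases h with (⟨⟨g1, g2, g3⟩, h⟩ | ⟨⟨g1, g2, g3⟩, h⟩) | (⟨⟨g1, g2, g3⟩, h⟩ | ⟨⟨g1, g2, g3⟩, h⟩) |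
      (⟨⟨g1, g2, g3⟩, h⟩ | ⟨⟨g1, g2, g3⟩, h⟩) | (⟨⟨g1, g2, g3⟩, h⟩ | ⟨⟨g1, g2, g3⟩, h⟩) <;>
      first
        | exact Or.inr h
        | (exfalso; omega)
  · rcases h with (⟨⟨g1, g2, g3⟩, h⟩ | ⟨⟨g1, g2, g3⟩, h⟩) | (⟨⟨g1, g2, g3⟩, h⟩ | ⟨⟨g1, g2, g3⟩, h⟩) |
      (⟨⟨g1, g2, g3⟩, h⟩ | ⟨⟨g1, g2, g3⟩, h⟩) | (⟨⟨g1, g2, g3⟩, h⟩ | ⟨⟨g1, g2, g3⟩, h⟩) <;>
      (exfalso; omega)

/-- sorted points, second pairing -/
theorem tp2 {a b c d : V} (hs : Srt pos a b c d) (h : TP G W pos a d b c) :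
    W a d b c ∨ (K4 G a b c d ∧ UF W a b c d ∧ ¬ D0 G W pos a b c d) := by
  obtain ⟨h1, h2, h3⟩ := hs
  rcases h with h | h | h
  · exact Or.inl h
  · rcases h with (⟨⟨g1, g2, g3⟩, h⟩ | ⟨⟨g1, g2, g3⟩, h⟩) | (⟨⟨g1, g2, g3⟩, h⟩ | ⟨⟨g1, g2, g3⟩, h⟩) |
      (⟨⟨g1, g2, g3⟩, h⟩ | ⟨⟨g1, g2, g3⟩, h⟩) | (⟨⟨g1, g2, g3⟩, h⟩ | ⟨⟨g1, g2, g3⟩, h⟩) <;>
      (exfalso; omega)
  · rcases h with (⟨⟨g1, g2, g3⟩, h⟩ | ⟨⟨g1, g2, g3⟩, h⟩) | (⟨⟨g1, g2, g3⟩, h⟩ | ⟨⟨g1, g2, g3⟩, h⟩) |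
      (⟨⟨g1, g2, g3⟩, h⟩ | ⟨⟨g1, g2, g3⟩, h⟩) | (⟨⟨g1, g2, g3⟩, h⟩ | ⟨⟨g1, g2, g3⟩, h⟩) <;>
      first
        | exact Or.inr h
        | (exfalso; omega)

/-- sorted points, the crossing pairing -/
theorem tp3 (H : WA G X W pos i o) {a b c d : V} (hs : Srt pos a b c d) : ¬ TP G W pos a c b d := by
  obtain ⟨h1, h2, h3⟩ := hs
  rintro (h | h | h)
  · exact H.wf.nc h (H.srt h1 h2 h3)
  · rcases h with (⟨⟨g1, g2, g3⟩, h⟩ | ⟨⟨g1, g2, g3⟩, h⟩) | (⟨⟨g1, g2, g3⟩, h⟩ | ⟨⟨g1, g2, g3⟩, h⟩) |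
      (⟨⟨g1, g2, g3⟩, h⟩ | ⟨⟨g1, g2, g3⟩, h⟩) | (⟨⟨g1, g2, g3⟩, h⟩ | ⟨⟨g1, g2, g3⟩, h⟩) <;>
      omega
  · rcases h with (⟨⟨g1, g2, g3⟩, h⟩ | ⟨⟨g1, g2, g3⟩, h⟩) | (⟨⟨g1, g2, g3⟩, h⟩ | ⟨⟨g1, g2, g3⟩, h⟩) |
      (⟨⟨g1, g2, g3⟩, h⟩ | ⟨⟨g1, g2, g3⟩, h⟩) | (⟨⟨g1, g2, g3⟩, h⟩ | ⟨⟨g1, g2, g3⟩, h⟩) <;>
      omega

theorem TP.sym (h : WF G X W) : Sym4 (TP G W pos) := by
  have a1 := Sym8.sym (F1 G W pos)
  have a2 := Sym8.sym (F2 G W pos)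
  refine ⟨fun a b c d hp => ?_, fun a b c d hp => ?_⟩
  · rcases hp with h1 | h1 | h1
    · exact Or.inl (h.cl.sw1 h1)
    · exact Or.inr (Or.inl (a1.1 _ _ _ _ h1))
    · exact Or.inr (Or.inr (a2.1 _ _ _ _ h1))
  · rcases hp with h1 | h1 | h1
    · exact Or.inl (h.cl.sw2 h1)
    · exact Or.inr (Or.inl (a1.2 _ _ _ _ h1))
    · exact Or.inr (Or.inr (a2.2 _ _ _ _ h1))

theorem TP.sw3 (h : WF G X W) {a b c d : V} (ht : TP G W pos a b c d) : TP G W pos a b d c :=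
  (TP.sym h).2 _ _ _ _ ((TP.sym h).1 _ _ _ _ ((TP.sym h).2 _ _ _ _ ht))

/-- squares, no crossing, different points -/
theorem TP.basic (H : WA G X W pos i o) {a b c d : V} (h : TP G W pos a b c d) :
    Sq G a b c d ∧ ¬ X a b c d ∧ a ≠ b ∧ c ≠ d := by
  have hq : Sym4 (fun a b c d : V => Sq G a b c d ∧ ¬ X a b c d ∧ a ≠ b ∧ c ≠ d) := by
    constructor
    · rintro a b c d ⟨h1, h2, h3, h4⟩
      exact ⟨h1.symm1, fun h5 => h2 (H.wf.sepr.swap h5), h3.symm, h4⟩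
    · rintro a b c d ⟨h1, h2, h3, h4⟩
      exact ⟨h1.symm2, fun h5 => h2 (H.wf.sepr.comm h5), h4, h3⟩
  rcases h with h1 | h1 | h1
  · exact ⟨H.wf.sq h1, H.wf.nc h1, H.wf.ne h1, H.wf.ne' h1⟩
  · refine Sym8.elim hq ?_ h1
    rintro a b c d ⟨⟨g1, g2, g3⟩, ⟨e1, e2, e3, e4, e5, e6⟩, _⟩
    exact ⟨⟨e2, e3, e4, e5⟩, fun h2 => H.wf.sepr.amo h2 (H.srt g1 g2 g3), e1.ne, e6.ne⟩
  · refine Sym8.elim hq ?_ h1
    rintro a d b c ⟨⟨g1, g2, g3⟩, ⟨e1, e2, e3, e4, e5, e6⟩, _⟩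
    refine ⟨⟨e1, e2, e5.symm, e6.symm⟩, fun h2 => H.wf.sepr.amo (H.wf.sx3 h2) (H.wf.sx3 (H.srt g1 g2 g3)), e3.ne, e4.ne⟩

theorem WA.pne (H : WA G X W pos i o) {a b : V} (h : a ≠ b) : pos a ≠ pos b := fun h1 => h (H.pinj h1)

/-- at most one pairing of four points -/
theorem TP.nb (H : WA G X W pos i o) {a b c d : V} (h : TP G W pos a b c d) : ¬ TP G W pos a c b d := by
  obtain ⟨⟨e1, e2, e3, e4⟩, _, n1, n2⟩ := h.basic H
  have T := TP.sym (pos := pos) H.wf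
  have T3 : ∀ {a b c d : V}, TP G W pos a b c d → TP G W pos a b d c := fun h => TP.sw3 H.wf h
  have key : (TP G W pos a b c d → TP G W pos a c b d → False) ∧ (TP G W pos a b c d → TP G W pos a d b c → False) ∧
      (TP G W pos a c b d → TP G W pos a d b c → False) := by
    refine sort4 pos (S := fun a b c d => (TP G W pos a b c d → TP G W pos a c b d → False) ∧
      (TP G W pos a b c d → TP G W pos a d b c → False) ∧ (TP G W pos a c b d → TP G W pos a d b c → False))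
      ?_ ?_ ?_ ?_ (H.pne n1) (H.pne e1.ne) (H.pne e2.ne) (H.pne e3.ne) (H.pne e4.ne) (H.pne n2)
    · rintro p q r s ⟨k1, k2, k3⟩
      exact ⟨fun a1 a2 => k2 (T.1 _ _ _ _ a1) (T.2 _ _ _ _ a2), fun a1 a2 => k1 (T.1 _ _ _ _ a1) (T.2 _ _ _ _ a2),
        fun a1 a2 => k3 (T.2 _ _ _ _ a2) (T.2 _ _ _ _ a1)⟩
    · rintro p q r s ⟨k1, k2, k3⟩
      exact ⟨fun a1 a2 => k1 a2 a1, fun a1 a2 => k3 a1 (T3 a2), fun a1 a2 => k2 a1 (T3 a2)⟩
    · rintro p q r s ⟨k1, k2, k3⟩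
      exact ⟨fun a1 a2 => k2 (T3 a1) a2, fun a1 a2 => k1 (T3 a1) a2, fun a1 a2 => k3 a2 a1⟩
    · intro p q r s hs
      have h3 := tp3 H hs
      refine ⟨fun _ a2 => h3 a2, fun a1 a2 => ?_, fun a1 _ => h3 a1⟩
      rcases tp1 hs a1 with b1 | b1
      · rcases tp2 hs a2 with b2 | b2
        · exact H.wf.ex (H.wf.sw3 b1) b2
        · exact b2.2.1.1 b1
      · rcases tp2 hs a2 with b2 | b2
        · exact b1.2.1.2.2 b2
        · exact b2.2.2 b1.2.2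
  exact key.1 h

/-- every complete graph on four vertices has a pairing -/
theorem TP.ex (H : WA G X W pos i o) {a b c d : V} (hk : K4 G a b c d) :
    TP G W pos a b c d ∨ TP G W pos a c b d ∨ TP G W pos a d b c := by
  have T := TP.sym (pos := pos) H.wf
  have T3 : ∀ {a b c d : V}, TP G W pos a b c d → TP G W pos a b d c := fun h => TP.sw3 H.wf h
  have key : K4 G a b c d → TP G W pos a b c d ∨ TP G W pos a c b d ∨ TP G W pos a d b c := by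
    obtain ⟨e1, e2, e3, e4, e5, e6⟩ := hk
    refine sort4 pos (S := fun a b c d => K4 G a b c d → TP G W pos a b c d ∨ TP G W pos a c b d ∨ TP G W pos a d b c)
      ?_ ?_ ?_ ?_ (H.pne e1.ne) (H.pne e2.ne) (H.pne e3.ne) (H.pne e4.ne) (H.pne e5.ne) (H.pne e6.ne)
    · rintro p q r s h ⟨e1, e2, e3, e4, e5, e6⟩
      rcases h ⟨e1.symm, e4, e5, e2, e3, e6⟩ with h1 | h1 | h1
      · exact Or.inl (T.1 _ _ _ _ h1)
      · exact Or.inr (Or.inr (T.2 _ _ _ _ h1))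
      · exact Or.inr (Or.inl (T.2 _ _ _ _ h1))
    · rintro p q r s h ⟨e1, e2, e3, e4, e5, e6⟩
      rcases h ⟨e2, e1, e3, e4.symm, e6, e5⟩ with h1 | h1 | h1
      · exact Or.inr (Or.inl h1)
      · exact Or.inl h1
      · exact Or.inr (Or.inr (T3 h1))
    · rintro p q r s h ⟨e1, e2, e3, e4, e5, e6⟩
      rcases h ⟨e1, e3, e2, e5, e4, e6.symm⟩ with h1 | h1 | h1
      · exact Or.inl (T3 h1)
      · exact Or.inr (Or.inr h1)
      · exact Or.inr (Or.inl h1)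
    · intro p q r s hs hk
      by_cases w1 : W p q r s
      · exact Or.inl (Or.inl w1)
      · by_cases w2 : W p r q s
        · exact Or.inr (Or.inl (Or.inl w2))
        · by_cases w3 : W p s q r
          · exact Or.inr (Or.inr (Or.inl w3))
          · by_cases hd : D0 G W pos p q r s
            · exact Or.inl (Or.inr (Or.inl (Or.inl (Or.inl ⟨hs, hk, ⟨w1, w2, w3⟩, hd⟩))))
            · exact Or.inr (Or.inr (Or.inr (Or.inr (Or.inl (Or.inl ⟨hs, hk, ⟨w1, w2, w3⟩, hd⟩)))))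
  exact key hk

/-- the order from the two points -/
theorem WA.lt3 (H : WA G X W pos i o) {a b c d : V} (h1 : X i a o b) (h2 : X i b o c) (h3 : X i c o d) :
    Srt pos a b c d := ⟨(H.lt.1 h1).2.2.2.2, (H.lt.1 h2).2.2.2.2, (H.lt.1 h3).2.2.2.2⟩

theorem TP.d1 (H : WA G X W pos i o) {a b c d : V} (h1 : X i a o b) (h2 : X i b o c) (h3 : X i c o d)
    (hk : K4 G a b c d) (w1 : ¬ W a b c d) (w2 : ¬ W a d b c) (hd : DD G W pos a b c d) : TP G W pos a b c d := by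
  have hs := H.lt3 h1 h2 h3
  refine Or.inr (Or.inl (Or.inl (Or.inl ⟨hs, hk, ⟨w1, fun w3 => ?_, w2⟩, hd.d0 hs⟩)))
  exact H.wf.nc w3 (H.srt hs.1 hs.2.1 hs.2.2)

theorem TP.d2 (H : WA G X W pos i o) {a b c d : V} (h1 : X i a o b) (h2 : X i b o c) (h3 : X i c o d)
    (hk : K4 G a b c d) (w1 : ¬ W a b c d) (w2 : ¬ W a d b c) (hd : ¬ DD G W pos a b c d) : TP G W pos a d b c := by
  have hs := H.lt3 h1 h2 h3
  refine Or.inr (Or.inr (Or.inl (Or.inl ⟨hs, hk, ⟨w1, fun w3 => ?_, w2⟩, fun h4 => hd (Or.inl (Or.inl ⟨hs, h4⟩))⟩)))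
  exact H.wf.nc w3 (H.srt hs.1 hs.2.1 hs.2.2)

theorem DD.mk (H : WA G X W pos i o) {a b c d z : V} (h1 : X i a o b) (h2 : X i b o c) (h3 : X i c o d)
    (h4 : X i d o z) (e1 : G.Adj z b) (e2 : G.Adj z c) (e3 : G.Adj z d) (k1 : ¬ G.Adj z a → ¬ W d z b c)
    (k2 : G.Adj z a → ¬ (W d z a b ∧ W d z b c ∧ W d z a c)) : DD G W pos a b c d :=
  Or.inl (Or.inl ⟨H.lt3 h1 h2 h3, z, (H.lt.1 h4).2.2.2.2, e1, e2, e3, k1, k2⟩)

/-- `m` is a witness for the sorted quadruple of the list `Q`, and an element of the list `Z` -/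
def SelOk (G : SimpleGraph V) (W : V → V → V → V → Prop) (pos : V → Nat) (Q : List V) (m : V) (Z : Prop) : Prop :=
  ∀ a b c d, a ∈ Q → b ∈ Q → c ∈ Q → d ∈ Q → Srt pos a b c d → D0 G W pos a b c d → Wit G W pos a b c d m ∧ Z

/-- the witness, from the premises of the templates -/
theorem SelOk.use (H : WA G X W pos i o) {Q : List V} {m : V} {Z : Prop} (hs : SelOk G W pos Q m Z) {a b c d : V}
    (ha : a ∈ Q) (hb : b ∈ Q) (hc : c ∈ Q) (hd : d ∈ Q) (h1 : X i a o b) (h2 : X i b o c) (h3 : X i c o d)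
    (hD : DD G W pos a b c d) : Z := (hs a b c d ha hb hc hd (H.lt3 h1 h2 h3) (hD.d0 (H.lt3 h1 h2 h3))).2

theorem SelOk.wit (H : WA G X W pos i o) {Q : List V} {m : V} {Z : Prop} (hs : SelOk G W pos Q m Z) {a b c d : V}
    (ha : a ∈ Q) (hb : b ∈ Q) (hc : c ∈ Q) (hd : d ∈ Q) (h1 : X i a o b) (h2 : X i b o c) (h3 : X i c o d)
    (hD : DD G W pos a b c d) {z : V} (hz : z = m) : Wit G W pos a b c d z :=
  hz ▸ (hs a b c d ha hb hc hd (H.lt3 h1 h2 h3) (hD.d0 (H.lt3 h1 h2 h3))).1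

theorem SelOk.lt (H : WA G X W pos i o) {Q : List V} {m : V} {Z : Prop} (hs : SelOk G W pos Q m Z) {a b c d : V}
    (ha : a ∈ Q) (hb : b ∈ Q) (hc : c ∈ Q) (hd : d ∈ Q) (h1 : X i a o b) (h2 : X i b o c) (h3 : X i c o d)
    (hD : DD G W pos a b c d) {z : V} (hz : z = m) : X i d o z := by
  have hw := SelOk.wit H hs ha hb hc hd h1 h2 h3 hD hz
  have h4 := H.lt.1 h3
  refine H.lt.2 ⟨h4.2.2.1, h4.2.2.2.1, ?_, ?_, hw.1⟩
  · rintro rfl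
    exact H.isoi _ hw.2.1
  · rintro rfl
    exact H.isoo _ hw.2.1

/-- the system of relations -/
def syP (H : WA G X W pos i o) (sel : Nat → V → Prop) : Sy V where
  G := G
  X := X
  W := W
  P := TP G W pos
  D := DD G W pos
  sel := sel
  hX := H.wf.symX
  hW := H.wf.symW
  hP := TP.sym H.wf
  hD := Sym8.sym _

end

end Pool.Agent.SOF
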