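import Pool.Agent.SOF.Fill
import Pool.Agent.SOF.Rtb
import Pool.Agent.SOF.Rtc
import Pool.Agent.SOF.Rtd

/-! Project SOF, module TQ: the new structure satisfies all axioms. -/

set_option autoImplicit false

namespace Pool.Agent.SOF

open Pool.Agent.SOC Pool.Agent.SOD Pool.Agent.RUP

variable {V : Type} {G : SimpleGraph V} {X W : V → V → V → V → Prop} {pos : V → Nat} {i o : V}

/-- ghosts -/
structure Gh (g : Nat → V) (i o : V) : Prop where
  inj : ∀ {i j}, i < 16 → j < 16 → g i = g j → i = j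
  i : g 14 = i
  o : g 15 = o

theorem Gh.g0 {g : Nat → V} (hg : Gh g i o) : g 0 ≠ i ∧ g 0 ≠ o := by
  constructor
  · intro h
    exact absurd (hg.inj (by omega) (by omega) (h.trans hg.i.symm)) (by omega)
  · intro h
    exact absurd (hg.inj (by omega) (by omega) (h.trans hg.o.symm)) (by omega)

theorem Gh.io {g : Nat → V} (hg : Gh g i o) : i ≠ o := by
  intro h
  exact absurd (hg.inj (by omega) (by omega) (hg.i.trans (h.trans hg.o.symm))) (by omega)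

theorem WA.ni (H : WA G X W pos i o) {a b : V} (h : G.Adj a b) : a ≠ i ∧ a ≠ o := by
  constructor
  · rintro rfl
    exact H.isoi _ h
  · rintro rfl
    exact H.isoo _ h

theorem TP.trans (H : WA G X W pos i o) {g : Nat → V} (hg : Gh g i o) {u w x y z : V} (h1 : TP G W pos u w x y)
    (h2 : TP G W pos u w y z) (xz : x ≠ z) : TP G W pos u w x z := by
  by_contra h3
  obtain ⟨⟨e1, e2, e3, e4⟩, _, uw, xy⟩ := h1.basic H
  obtain ⟨⟨_, f2, _, f4⟩, _, _, yz⟩ := h2.basic H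
  have ux := e1.ne
  have uy := e2.ne
  have uz := f2.ne
  have wx := e3.ne
  have wy := e4.ne
  have wz := f4.ne
  have io := hg.io
  obtain ⟨ui, uo⟩ := H.ni e1
  obtain ⟨wi, wo⟩ := H.ni e3
  obtain ⟨xi, xo⟩ := H.ni e1.symm
  obtain ⟨yi, yo⟩ := H.ni e2.symm
  obtain ⟨zi, zo⟩ := H.ni f2.symm
  have nd0 : [i, o, u, w, x, y, z].Nodup := by
    simp only [List.nodup_cons, List.mem_cons, List.not_mem_nil, or_false, not_or, not_false_eq_true, List.nodup_nil,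
      and_true]
    exact ⟨⟨io, ui.symm, wi.symm, xi.symm, yi.symm, zi.symm⟩, ⟨uo.symm, wo.symm, xo.symm, yo.symm, zo.symm⟩,
      ⟨uw, ux, uy, uz⟩, ⟨wx, wy, wz⟩, ⟨xy, xz⟩, yz⟩
  obtain ⟨m0, a0, b0, c0⟩ := sel_ex H hg.g0.1 hg.g0.2 uw ux uy wx wy xy
  obtain ⟨m1, a1, b1, c1⟩ := sel_ex H hg.g0.1 hg.g0.2 uw uy uz wy wz yz
  obtain ⟨m2, a2, b2, c2⟩ := sel_ex H hg.g0.1 hg.g0.2 uw ux uz wx wz xz
  obtain ⟨y1, n1, l1⟩ := fill hg.inj [i, o, u, w, x, y, z] (by simp) m0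
  obtain ⟨y2, n2, l2⟩ := fill hg.inj [i, o, u, w, x, y, z, y1] (by simp) m1
  obtain ⟨y3, n3, l3⟩ := fill hg.inj [i, o, u, w, x, y, z, y1, y2] (by simp) m2
  have nd1 : [i, o, u, w, x, y, z, y1].Nodup := nodup_snoc nd0 n1
  have nd2 : [i, o, u, w, x, y, z, y1, y2].Nodup := nodup_snoc nd1 n2
  have nd3 : [i, o, u, w, x, y, z, y1, y2, y3].Nodup := nodup_snoc nd2 n3
  refine tpb H nd3 (m0 := m0) (m1 := m1) (m2 := m2) ?_ ?_ ?_ h1 h2 h3
  · intro a b c d ha hb hc hd hs hD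
    obtain ⟨k1, k2⟩ := c0 a b c d ha hb hc hd hs hD
    refine ⟨k1, ?_⟩
    simp only [List.cons_append, List.nil_append, List.mem_cons, List.not_mem_nil, or_false] at l1 k2
    tauto
  · intro a b c d ha hb hc hd hs hD
    obtain ⟨k1, k2⟩ := c1 a b c d ha hb hc hd hs hD
    refine ⟨k1, ?_⟩
    simp only [List.cons_append, List.nil_append, List.mem_cons, List.not_mem_nil, or_false] at l2 k2
    tauto
  · intro a b c d ha hb hc hd hs hD
    obtain ⟨k1, k2⟩ := c2 a b c d ha hb hc hd hs hD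
    refine ⟨k1, ?_⟩
    simp only [List.cons_append, List.nil_append, List.mem_cons, List.not_mem_nil, or_false] at l3 k2
    tauto

/-- the Ferrers condition with a coincidence -/
theorem TP.ferr5 (H : WA G X W pos i o) {g : Nat → V} (hg : Gh g i o) {a b x y x2 : V} (h1 : TP G W pos a x b y)
    (h2 : TP G W pos a x2 b x) (yx2 : y ≠ x2) : TP G W pos a x2 b y := by
  by_contra h3
  obtain ⟨⟨ab, ay, e3, e4⟩, _, ax, by'⟩ := h1.basic H
  obtain ⟨⟨_, _, f3, f4⟩, _, ax2, bx⟩ := h2.basic H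
  have io := hg.io
  obtain ⟨ai, ao⟩ := H.ni ab
  obtain ⟨bi, bo⟩ := H.ni ab.symm
  obtain ⟨xi, xo⟩ := H.ni e3
  obtain ⟨yi, yo⟩ := H.ni ay.symm
  obtain ⟨zi, zo⟩ := H.ni f3
  have nd0 : [i, o, a, b, x, y, x2].Nodup := by
    simp only [List.nodup_cons, List.mem_cons, List.not_mem_nil, or_false, not_or, not_false_eq_true, List.nodup_nil,
      and_true]
    exact ⟨⟨io, ai.symm, bi.symm, xi.symm, yi.symm, zi.symm⟩, ⟨ao.symm, bo.symm, xo.symm, yo.symm, zo.symm⟩,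
      ⟨ab.ne, ax, ay.ne, ax2⟩, ⟨bx, by', f3.ne.symm⟩, ⟨e4.ne, f4.ne.symm⟩, yx2⟩
  obtain ⟨m0, a0, b0, c0⟩ := sel_ex H hg.g0.1 hg.g0.2 ab.ne ax ay.ne bx by' e4.ne
  obtain ⟨m1, a1, b1, c1⟩ := sel_ex H hg.g0.1 hg.g0.2 ab.ne ax ax2 bx f3.ne.symm f4.ne.symm
  obtain ⟨m2, a2, b2, c2⟩ := sel_ex H hg.g0.1 hg.g0.2 ab.ne ax2 ay.ne f3.ne.symm by' yx2.symm
  obtain ⟨y1, n1, l1⟩ := fill hg.inj [i, o, a, b, x, y, x2] (by simp) m0
  obtain ⟨y2, n2, l2⟩ := fill hg.inj [i, o, a, b, x, y, x2, y1] (by simp) m1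
  obtain ⟨y3, n3, l3⟩ := fill hg.inj [i, o, a, b, x, y, x2, y1, y2] (by simp) m2
  have nd1 : [i, o, a, b, x, y, x2, y1].Nodup := nodup_snoc nd0 n1
  have nd2 : [i, o, a, b, x, y, x2, y1, y2].Nodup := nodup_snoc nd1 n2
  have nd3 : [i, o, a, b, x, y, x2, y1, y2, y3].Nodup := nodup_snoc nd2 n3
  refine tpd H nd3 (m0 := m0) (m1 := m1) (m2 := m2) ?_ ?_ ?_ h1 h2 h3
  · intro a b c d ha hb hc hd hs hD
    obtain ⟨k1, k2⟩ := c0 a b c d ha hb hc hd hs hD
    refine ⟨k1, ?_⟩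
    simp only [List.cons_append, List.nil_append, List.mem_cons, List.not_mem_nil, or_false] at l1 k2
    tauto
  · intro a b c d ha hb hc hd hs hD
    obtain ⟨k1, k2⟩ := c1 a b c d ha hb hc hd hs hD
    refine ⟨k1, ?_⟩
    simp only [List.cons_append, List.nil_append, List.mem_cons, List.not_mem_nil, or_false] at l2 k2
    tauto
  · intro a b c d ha hb hc hd hs hD
    obtain ⟨k1, k2⟩ := c2 a b c d ha hb hc hd hs hD
    refine ⟨k1, ?_⟩
    simp only [List.cons_append, List.nil_append, List.mem_cons, List.not_mem_nil, or_false] at l3 k2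
    tauto

/-- the Ferrers condition for six points -/
theorem TP.ferr6 (H : WA G X W pos i o) {g : Nat → V} (hg : Gh g i o) {a b x y x2 y2 : V}
    (h1 : TP G W pos a x b y) (h2 : TP G W pos a x2 b y2) (xx2 : x ≠ x2) (xy2 : x ≠ y2) (yx2 : y ≠ x2)
    (yy2 : y ≠ y2) : TP G W pos a x b y2 ∨ TP G W pos a x2 b y := by
  by_contra hc
  rw [not_or] at hc
  obtain ⟨h3, h4⟩ := hc
  obtain ⟨⟨ab, ay, e3, e4⟩, _, ax, by'⟩ := h1.basic H
  obtain ⟨⟨_, ay2, f3, f4⟩, _, ax2, by2⟩ := h2.basic H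
  have io := hg.io
  obtain ⟨ai, ao⟩ := H.ni ab
  obtain ⟨bi, bo⟩ := H.ni ab.symm
  obtain ⟨xi, xo⟩ := H.ni e3
  obtain ⟨yi, yo⟩ := H.ni ay.symm
  obtain ⟨zi, zo⟩ := H.ni f3
  obtain ⟨ti, tt⟩ := H.ni ay2.symm
  have nd0 : [i, o, a, b, x, y, x2, y2].Nodup := by
    simp only [List.nodup_cons, List.mem_cons, List.not_mem_nil, or_false, not_or, not_false_eq_true, List.nodup_nil,
      and_true]
    exact ⟨⟨io, ai.symm, bi.symm, xi.symm, yi.symm, zi.symm, ti.symm⟩,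
      ⟨ao.symm, bo.symm, xo.symm, yo.symm, zo.symm, tt.symm⟩,
      ⟨ab.ne, ax, ay.ne, ax2, ay2.ne⟩, ⟨e3.ne.symm, by', f3.ne.symm, by2⟩, ⟨e4.ne, xx2, xy2⟩, ⟨yx2, yy2⟩, f4.ne⟩
  have bx : b ≠ x := e3.ne.symm
  have bx2 : b ≠ x2 := f3.ne.symm
  obtain ⟨m0, a0, b0, c0⟩ := sel_ex H hg.g0.1 hg.g0.2 ab.ne ax ay.ne bx by' e4.ne
  obtain ⟨m1, a1, b1, c1⟩ := sel_ex H hg.g0.1 hg.g0.2 ab.ne ax2 ay2.ne bx2 by2 f4.ne
  obtain ⟨m2, a2, b2, c2⟩ := sel_ex H hg.g0.1 hg.g0.2 ab.ne ax ay2.ne bx by2 xy2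
  obtain ⟨m3, a3, b3, c3⟩ := sel_ex H hg.g0.1 hg.g0.2 ab.ne ax2 ay.ne bx2 by' yx2.symm
  obtain ⟨z1, n1, l1⟩ := fill hg.inj [i, o, a, b, x, y, x2, y2] (by simp) m0
  obtain ⟨z2, n2, l2⟩ := fill hg.inj [i, o, a, b, x, y, x2, y2, z1] (by simp) m1
  obtain ⟨z3, n3, l3⟩ := fill hg.inj [i, o, a, b, x, y, x2, y2, z1, z2] (by simp) m2
  obtain ⟨z4, n4, l4⟩ := fill hg.inj [i, o, a, b, x, y, x2, y2, z1, z2, z3] (by simp) m3
  have nd1 : [i, o, a, b, x, y, x2, y2, z1].Nodup := nodup_snoc nd0 n1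
  have nd2 : [i, o, a, b, x, y, x2, y2, z1, z2].Nodup := nodup_snoc nd1 n2
  have nd3 : [i, o, a, b, x, y, x2, y2, z1, z2, z3].Nodup := nodup_snoc nd2 n3
  have nd4 : [i, o, a, b, x, y, x2, y2, z1, z2, z3, z4].Nodup := nodup_snoc nd3 n4
  refine tpc H nd4 (m0 := m0) (m1 := m1) (m2 := m2) (m3 := m3) ?_ ?_ ?_ ?_ h1 h2 h3 h4
  · intro a b c d ha hb hc hd hs hD
    obtain ⟨k1, k2⟩ := c0 a b c d ha hb hc hd hs hD
    refine ⟨k1, ?_⟩
    simp only [List.cons_append, List.nil_append, List.mem_cons, List.not_mem_nil, or_false] at l1 k2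
    tauto
  · intro a b c d ha hb hc hd hs hD
    obtain ⟨k1, k2⟩ := c1 a b c d ha hb hc hd hs hD
    refine ⟨k1, ?_⟩
    simp only [List.cons_append, List.nil_append, List.mem_cons, List.not_mem_nil, or_false] at l2 k2
    tauto
  · intro a b c d ha hb hc hd hs hD
    obtain ⟨k1, k2⟩ := c2 a b c d ha hb hc hd hs hD
    refine ⟨k1, ?_⟩
    simp only [List.cons_append, List.nil_append, List.mem_cons, List.not_mem_nil, or_false] at l3 k2
    tauto
  · intro a b c d ha hb hc hd hs hD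
    obtain ⟨k1, k2⟩ := c3 a b c d ha hb hc hd hs hD
    refine ⟨k1, ?_⟩
    simp only [List.cons_append, List.nil_append, List.mem_cons, List.not_mem_nil, or_false] at l4 k2
    tauto

/-- a square which does not cross and is not complete -/
theorem TP.some (H : WA G X W pos i o) {a b c d : V} (hs : Sq G a b c d) (ab : a ≠ b) (cd : c ≠ d)
    (hx : X a c b d) : TP G W pos a b c d ∨ TP G W pos a d b c := by
  have nx : ¬ X a b c d := fun h1 => H.wf.sepr.amo h1 hx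
  by_cases hk : K4 G a b c d
  · rcases TP.ex H hk with h1 | h1 | h1
    · exact Or.inl h1
    · exact absurd hx (h1.basic H).2.1
    · exact Or.inr h1
  · exact Or.inl (Or.inl (H.wf.const' ab cd hs nx hk))

/-- the new structure satisfies all axioms -/
theorem qt_TP (H : WA G X W pos i o) {g : Nat → V} (hg : Gh g i o) : QT G X (TP G W pos) where
  swap₁ := fun h => (TP.sym H.wf).1 _ _ _ _ h
  swap₂ := fun h => (TP.sym H.wf).2 _ _ _ _ h
  ne := fun h => (h.basic H).2.2.1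
  adj := fun h => (h.basic H).1.1
  nocross := fun h => (h.basic H).2.1
  some := by
    intro a b c d ac bd ab ad bc cd hx
    rcases H.wf.rig hx ac bd with ⟨h1, h2⟩ | ⟨h1, h2⟩
    · exact TP.some H ⟨ac, h1, h2, bd⟩ ab cd hx
    · have hx' : X a c d b := H.wf.sx3 hx
      rcases TP.some H (a := a) (b := d) (c := c) (d := b) ⟨ac, h1, h2, bd.symm⟩ ad bc.symm hx' with h3 | h3
      · exact Or.inr (TP.sw3 H.wf h3)
      · exact Or.inl (TP.sw3 H.wf h3)
  notboth := fun h1 h2 => TP.nb H (TP.sw3 H.wf h1) h2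
  trans := fun h1 h2 xz => TP.trans H hg h1 h2 xz
  ferrers := by
    intro a b x y x' y' h1 h2
    by_cases xx : x = x'
    · subst xx
      exact Or.inl h2
    · by_cases yy : y = y'
      · subst yy
        exact Or.inr h2
      · by_cases xy : x = y'
        · subst xy
          by_cases yx : y = x'
          · subst yx
            exact absurd h2 fun h3 => TP.nb H (TP.sw3 H.wf h1) ((TP.sw3 H.wf h3))
          · exact Or.inr (TP.ferr5 H hg h1 h2 yx)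
        · by_cases yx : y = x'
          · subst yx
            exact Or.inl (TP.ferr5 H hg h2 h1 (fun h => xy h.symm))
          · exact TP.ferr6 H hg h1 h2 xx xy yx yy

end Pool.Agent.SOF
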