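import Pool.Agent.SOF.TPd

/-! Project SOF: templates for the new structure (generated). -/

set_option autoImplicit false
set_option maxRecDepth 100000
set_option linter.unusedVariables false

namespace Pool.Agent.SOF

open Pool.Agent.SOC Pool.Agent.SOD Pool.Agent.RUP

/-- selected points and quadruples -/
def selF {V : Type} (m0 m1 m2 m3 : V) (Q0 Q1 Q2 Q3 : List V) : Nat → V → Prop
  | 0 => fun v => v = m0
  | 1 => fun v => v = m1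
  | 2 => fun v => v = m2
  | 3 => fun v => v = m3
  | 4 => fun v => v ∈ Q0
  | 5 => fun v => v ∈ Q1
  | 6 => fun v => v ∈ Q2
  | 7 => fun v => v ∈ Q3
  | _ => fun _ => False

/-- templates -/
def tI2 : List Tm := [
  ⟨5, [], ad5, [.b false 0 0 1, .b false 0 0 2, .b false 0 0 3, .b false 0 0 4, .b false 0 1 2, .b false 0 1 3, .b false 0 1 4, .b false 0 2 3, .b false 0 2 4, .b false 0 3 4, .q false 2 0 1 2 3, .q false 0 4 0 1 2, .q false 0 4 3 1 2, .q true 2 0 1 4 3, .q true 2 2 3 0 4]⟩]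

theorem tI2_h {V : Type} {Y : Sy V} (hI : ∀ {a b c d}, Y.W a b c d → I2 Y.G Y.X Y.W a b c d) : UHs Y.rel tI2 :=
  .cons (fun v n01 n02 n03 n04 n12 n13 n14 n23 n24 n34 h0 h1 h2 h3 h4 h5 h6 h7 h8 h9 h10 h11 h12 h13 h14 => (hI h10 (v 4) ⟨h0, h1, h2, h3, h4, h5, h6, h7, h8, h9⟩ h11 h12).elim h13 h14) (
  .nil)

/-- templates -/
def tA : List Tm := [
  ⟨5, [], ad5, [.q false 2 0 1 2 3, .q false 2 0 1 3 4, .q true 2 0 1 2 4]⟩,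
  ⟨5, [], ad5, [.q false 2 0 1 2 3, .q false 3 0 1 2 4, .q true 3 0 1 3 4]⟩,
  ⟨5, [], ad5, [.q false 2 0 2 1 3, .q false 2 0 4 1 2, .q true 2 0 4 1 3]⟩,
  ⟨5, [], ad5, [.q false 2 0 2 1 3, .q false 3 0 4 1 3, .q true 3 0 4 1 2]⟩,
  ⟨6, [], ad6, [.q false 2 0 2 1 3, .q false 2 0 4 1 5, .q false 3 0 2 1 5, .q true 2 0 4 1 3]⟩,
  ⟨6, [], ad6, [.q false 2 0 2 1 3, .q false 3 0 2 1 5, .q false 3 0 4 1 3, .q true 3 0 4 1 5]⟩]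

theorem tA_h {V : Type} {Y : Sy V} (h : WF Y.G Y.X Y.W) (hI : ∀ {a b c d}, Y.W a b c d → I2 Y.G Y.X Y.W a b c d) :
    UHs Y.rel tA :=
  .cons (fun v n01 n02 n03 n04 n12 n13 n14 n23 n24 n34 h0 h1 h2 => Bf h hI (nd5 n01 n02 n03 n04 n12 n13 n14 n23 n24 n34) h0 h1 h2) (
  .cons (fun v n01 n02 n03 n04 n12 n13 n14 n23 n24 n34 h0 h1 h2 => Bb h hI (nd5 n01 n02 n03 n04 n12 n13 n14 n23 n24 n34) h0 h1 h2) (
  .cons (fun v n01 n02 n03 n04 n12 n13 n14 n23 n24 n34 h0 h1 h2 => Df h hI (nd5 n01 n02 n03 n04 n12 n13 n14 n23 n24 n34) h0 h1 h2) (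
  .cons (fun v n01 n02 n03 n04 n12 n13 n14 n23 n24 n34 h0 h1 h2 => Db h hI (nd5 n01 n02 n03 n04 n12 n13 n14 n23 n24 n34) h0 h1 h2) (
  .cons (fun v n01 n02 n03 n04 n05 n12 n13 n14 n15 n23 n24 n25 n34 n35 n45 h0 h1 h2 h3 => Cf h hI (nd6 n01 n02 n03 n04 n05 n12 n13 n14 n15 n23 n24 n25 n34 n35 n45) h0 h1 h2 h3) (
  .cons (fun v n01 n02 n03 n04 n05 n12 n13 n14 n15 n23 n24 n25 n34 n35 n45 h0 h1 h2 h3 => Cb h hI (nd6 n01 n02 n03 n04 n05 n12 n13 n14 n15 n23 n24 n25 n34 n35 n45) h0 h1 h2 h3) (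
  .nil))))))

/-- templates -/
def tS : List Tm := [
  ⟨5, [], ad5, [.b false 0 0 1, .b false 0 0 2, .b false 0 0 3, .b false 0 0 4, .b false 0 1 2, .b false 0 1 3, .b false 0 1 4, .b false 0 2 3, .b false 0 2 4, .b false 0 3 4, .q false 2 0 1 2 3, .q true 2 0 1 2 4, .q true 2 2 3 0 4]⟩]

theorem tS_h {V : Type} {Y : Sy V} (h : WF Y.G Y.X Y.W) (hI : ∀ {a b c d}, Y.W a b c d → I2 Y.G Y.X Y.W a b c d) :
    UHs Y.rel tS :=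
  .cons (fun v n01 n02 n03 n04 n12 n13 n14 n23 n24 n34 h0 h1 h2 h3 h4 h5 h6 h7 h8 h9 h10 h11 h12 => Sup h hI (nd5 n01 n02 n03 n04 n12 n13 n14 n23 n24 n34) ⟨h0, h1, h2, h3, h4, h5, h6, h7, h8, h9⟩ h10 h11 h12) (
  .nil)

/-- templates -/
def tG : List Tm := [
  ⟨2, [], [(0, 1)], [.q false 0 8 9 0 1]⟩]

theorem tG_h {V : Type} {G : SimpleGraph V} {X W : V → V → V → V → Prop} {pos : V → Nat} {i o : V}
    (H : WA G X W pos i o) (sel : Nat → V → Prop) (l : List V) (k : Nat) :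
    PHs (syP H sel).rel (pt (i :: o :: l) i) k tG :=
  .cons (fun d hd n01 h0 => H.gg h0) (
  .nil)

/-- templates -/
def tP : List Tm := [
  ⟨4, [], ad4, [.q false 2 0 1 2 3, .q true 4 0 1 2 3]⟩,
  ⟨4, [], ad4, [.q false 4 0 1 2 3, .b true 0 0 2]⟩,
  ⟨4, [], ad4, [.q false 4 0 1 2 3, .q false 0 0 1 2 3]⟩,
  ⟨4, [], ad4, [.q false 4 0 1 2 3, .q false 4 0 2 1 3]⟩,
  ⟨4, [], ad4, [.b false 0 0 2, .b false 0 0 3, .b false 0 1 2, .b false 0 1 3, .b false 0 0 1, .b false 0 2 3, .q true 4 0 1 2 3, .q true 4 0 2 1 3, .q true 4 0 3 1 2]⟩,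
  ⟨4, [], ad4, [.q false 0 8 0 9 1, .q false 0 8 1 9 2, .q false 0 8 2 9 3, .b false 0 0 2, .b false 0 0 3, .b false 0 1 2, .b false 0 1 3, .b false 0 0 1, .b false 0 2 3, .q true 2 0 1 2 3, .q true 2 0 3 1 2, .q false 5 0 1 2 3, .q true 4 0 1 2 3]⟩,
  ⟨4, [], ad4, [.q false 0 8 0 9 1, .q false 0 8 1 9 2, .q false 0 8 2 9 3, .b false 0 0 2, .b false 0 0 3, .b false 0 1 2, .b false 0 1 3, .b false 0 0 1, .b false 0 2 3, .q true 2 0 1 2 3, .q true 2 0 3 1 2, .q true 5 0 1 2 3, .q true 4 0 3 1 2]⟩,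
  ⟨5, [], ad5, [.q false 0 8 0 9 1, .q false 0 8 1 9 2, .q false 0 8 2 9 3, .q false 0 8 3 9 4, .b false 0 4 1, .b false 0 4 2, .b false 0 4 3, .q true 2 3 4 1 2, .q true 5 0 1 2 3]⟩,
  ⟨5, [], ad5, [.q false 0 8 0 9 1, .q false 0 8 1 9 2, .q false 0 8 2 9 3, .q false 0 8 3 9 4, .b false 0 4 1, .b false 0 4 2, .b false 0 4 3, .b false 0 4 0, .q true 2 3 4 0 1, .q true 5 0 1 2 3]⟩,
  ⟨5, [], ad5, [.q false 0 8 0 9 1, .q false 0 8 1 9 2, .q false 0 8 2 9 3, .q false 0 8 3 9 4, .b false 0 4 1, .b false 0 4 2, .b false 0 4 3, .b false 0 4 0, .q true 2 3 4 0 2, .q true 5 0 1 2 3]⟩]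

theorem tP_h {V : Type} {G : SimpleGraph V} {X W : V → V → V → V → Prop} {pos : V → Nat} {i o : V}
    (H : WA G X W pos i o) (sel : Nat → V → Prop) (l : List V) (k : Nat) :
    PHs (syP H sel).rel (pt (i :: o :: l) i) k tP :=
  .cons (fun d hd n01 n02 n03 n12 n13 n23 h0 h1 => h1 (Or.inl h0)) (
  .cons (fun d hd n01 n02 n03 n12 n13 n23 h0 h1 => h1 (TP.basic H h0).1.1) (
  .cons (fun d hd n01 n02 n03 n12 n13 n23 h0 h1 => (TP.basic H h0).2.1 h1) (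
  .cons (fun d hd n01 n02 n03 n12 n13 n23 h0 h1 => TP.nb H h0 h1) (
  .cons (fun d hd n01 n02 n03 n12 n13 n23 h0 h1 h2 h3 h4 h5 h6 h7 h8 => (TP.ex H ⟨h4, h0, h1, h2, h3, h5⟩).elim h6 (fun k => k.elim h7 h8)) (
  .cons (fun d hd n01 n02 n03 n12 n13 n23 h0 h1 h2 h3 h4 h5 h6 h7 h8 h9 h10 h11 h12 => h12 (TP.d1 H h0 h1 h2 ⟨h7, h3, h4, h5, h6, h8⟩ h9 h10 h11)) (
  .cons (fun d hd n01 n02 n03 n12 n13 n23 h0 h1 h2 h3 h4 h5 h6 h7 h8 h9 h10 h11 h12 => h12 (TP.d2 H h0 h1 h2 ⟨h7, h3, h4, h5, h6, h8⟩ h9 h10 h11)) (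
  .cons (fun d hd n01 n02 n03 n04 n12 n13 n14 n23 n24 n34 h0 h1 h2 h3 h4 h5 h6 h7 h8 => h8 (DD.mk H h0 h1 h2 h3 h4 h5 h6 (fun _ => h7) (fun _ k => h7 k.2.1))) (
  .cons (fun d hd n01 n02 n03 n04 n12 n13 n14 n23 n24 n34 h0 h1 h2 h3 h4 h5 h6 h7 h8 h9 => h9 (DD.mk H h0 h1 h2 h3 h4 h5 h6 (fun n => absurd h7 n) (fun _ k => h8 k.1))) (
  .cons (fun d hd n01 n02 n03 n04 n12 n13 n14 n23 n24 n34 h0 h1 h2 h3 h4 h5 h6 h7 h8 h9 => h9 (DD.mk H h0 h1 h2 h3 h4 h5 h6 (fun n => absurd h7 n) (fun _ k => h8 k.2.2))) (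
  .nil))))))))))

end Pool.Agent.SOF
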