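import Pool.Agent.SOF.Defs

/-! Project SOF, module W: structures are closed; K5-free sets. -/

set_option autoImplicit false

namespace Pool.Agent.SOF

open Pool.Agent.SOC Pool.Agent.SOD Pool.Agent.RUP

variable {V : Type} {G : SimpleGraph V}

theorem K5F.sub {l l' : List V} (h : K5F G l) (hs : ∀ x ∈ l', x ∈ l) : K5F G l' :=
  fun a ha b hb c hc d hd e he => h a (hs a ha) b (hs b hb) c (hs c hc) d (hs d hd) e (hs e he)

theorem Sq.symm1 {a b c d : V} (h : Sq G a b c d) : Sq G b a c d := ⟨h.2.2.1, h.2.2.2, h.1, h.2.1⟩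

theorem Sq.symm2 {a b c d : V} (h : Sq G a b c d) : Sq G c d a b := ⟨h.1.symm, h.2.2.1.symm, h.2.1.symm, h.2.2.2.symm⟩

/-- two elements of a complete graph on five vertices are adjacent -/
theorem k5_adj {a b c d e : V} (h : K5 G a b c d e) {x y : V} (hx : x = a ∨ x = b ∨ x = c ∨ x = d ∨ x = e)
    (hy : y = a ∨ y = b ∨ y = c ∨ y = d ∨ y = e) (hn : x ≠ y) : G.Adj x y := by
  obtain ⟨h1, h2, h3, h4, h5, h6, h7, h8, h9, h10⟩ := h
  rcases hx with rfl | rfl | rfl | rfl | rfl <;> rcases hy with rfl | rfl | rfl | rfl | rfl <;>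
    first
      | exact absurd rfl hn
      | assumption
      | (apply SimpleGraph.Adj.symm; assumption)

/-- at most one element of a list of length `≤ 6` is outside of a complete graph on five vertices in the list -/
theorem k5_out {l : List V} (hl : l.length ≤ 6) {a b c d e : V} (h : K5 G a b c d e) (ha : a ∈ l) (hb : b ∈ l)
    (hc : c ∈ l) (hd : d ∈ l) (he : e ∈ l) {x y : V} (hx : x ∈ l) (hy : y ∈ l)
    (nx : ¬ (x = a ∨ x = b ∨ x = c ∨ x = d ∨ x = e)) (ny : ¬ (y = a ∨ y = b ∨ y = c ∨ y = d ∨ y = e)) : x = y := by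
  classical
  by_contra hn
  obtain ⟨h1, h2, h3, h4, h5, h6, h7, h8, h9, h10⟩ := h
  have hs : ({a, b, c, d, e, x, y} : Finset V) ⊆ l.toFinset := by
    intro z hz
    simp only [Finset.mem_insert, Finset.mem_singleton] at hz
    rw [List.mem_toFinset]
    rcases hz with rfl | rfl | rfl | rfl | rfl | rfl | rfl <;> assumption
  have hc1 := Finset.card_le_card hs
  have hc2 := l.toFinset_card_le
  have hc3 : ({a, b, c, d, e, x, y} : Finset V).card = 7 := by
    push Not at nx ny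
    rw [Finset.card_insert_of_notMem, Finset.card_insert_of_notMem, Finset.card_insert_of_notMem,
      Finset.card_insert_of_notMem, Finset.card_insert_of_notMem, Finset.card_pair hn]
    all_goals simp only [Finset.mem_insert, Finset.mem_singleton, not_or]
    · exact ⟨nx.2.2.2.2.symm, ny.2.2.2.2.symm⟩
    · exact ⟨h10.ne, nx.2.2.2.1.symm, ny.2.2.2.1.symm⟩
    · exact ⟨h8.ne, h9.ne, nx.2.2.1.symm, ny.2.2.1.symm⟩
    · exact ⟨h5.ne, h6.ne, h7.ne, nx.2.1.symm, ny.2.1.symm⟩
    · exact ⟨h1.ne, h2.ne, h3.ne, h4.ne, nx.1.symm, ny.1.symm⟩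
  omega

/-- all elements of a list of length `≤ 5` are in a complete graph on five vertices in the list -/
theorem k5_out5 {l : List V} (hl : l.length ≤ 5) {a b c d e : V} (h : K5 G a b c d e) (ha : a ∈ l) (hb : b ∈ l)
    (hc : c ∈ l) (hd : d ∈ l) (he : e ∈ l) {x : V} (hx : x ∈ l) : x = a ∨ x = b ∨ x = c ∨ x = d ∨ x = e := by
  classical
  by_contra nx
  obtain ⟨h1, h2, h3, h4, h5, h6, h7, h8, h9, h10⟩ := h
  have hs : ({a, b, c, d, e, x} : Finset V) ⊆ l.toFinset := by
    intro z hz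
    simp only [Finset.mem_insert, Finset.mem_singleton] at hz
    rw [List.mem_toFinset]
    rcases hz with rfl | rfl | rfl | rfl | rfl | rfl <;> assumption
  have hc1 := Finset.card_le_card hs
  have hc2 := l.toFinset_card_le
  have hc3 : ({a, b, c, d, e, x} : Finset V).card = 6 := by
    push Not at nx
    rw [Finset.card_insert_of_notMem, Finset.card_insert_of_notMem, Finset.card_insert_of_notMem,
      Finset.card_insert_of_notMem, Finset.card_pair nx.2.2.2.2.symm]
    all_goals simp only [Finset.mem_insert, Finset.mem_singleton, not_or]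
    · exact ⟨h10.ne, nx.2.2.2.1.symm⟩
    · exact ⟨h8.ne, h9.ne, nx.2.2.1.symm⟩
    · exact ⟨h5.ne, h6.ne, h7.ne, nx.2.1.symm⟩
    · exact ⟨h1.ne, h2.ne, h3.ne, h4.ne, nx.1.symm⟩
  omega

/-- five vertices, two of them not adjacent -/
theorem k5f_pair {l : List V} (hl : l.length ≤ 5) {p q : V} (hp : p ∈ l) (hq : q ∈ l) (hn : p ≠ q)
    (h : ¬ G.Adj p q) : K5F G l := fun _ ha _ hb _ hc _ hd _ he hk =>
  h (k5_adj hk (k5_out5 hl hk ha hb hc hd he hp) (k5_out5 hl hk ha hb hc hd he hq) hn)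

/-- six vertices, two disjoint non-adjacent pairs -/
theorem k5f_pairs {l : List V} (hl : l.length ≤ 6) {p q r s : V} (hp : p ∈ l) (hq : q ∈ l) (hr : r ∈ l) (hs : s ∈ l)
    (pq : p ≠ q) (rs : r ≠ s) (pr : p ≠ r) (ps : p ≠ s) (qr : q ≠ r) (qs : q ≠ s) (h1 : ¬ G.Adj p q)
    (h2 : ¬ G.Adj r s) : K5F G l := by
  intro a ha b hb c hc d hd e he hk
  have key := fun (x y : V) (hx : x ∈ l) (hy : y ∈ l) => k5_out hl hk ha hb hc hd he hx hy
  by_cases ip : p = a ∨ p = b ∨ p = c ∨ p = d ∨ p = e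
  · by_cases iq : q = a ∨ q = b ∨ q = c ∨ q = d ∨ q = e
    · exact h1 (k5_adj hk ip iq pq)
    · by_cases ir : r = a ∨ r = b ∨ r = c ∨ r = d ∨ r = e
      · by_cases is : s = a ∨ s = b ∨ s = c ∨ s = d ∨ s = e
        · exact h2 (k5_adj hk ir is rs)
        · exact qs (key q s hq hs iq is)
      · exact qr (key q r hq hr iq ir)
  · by_cases ir : r = a ∨ r = b ∨ r = c ∨ r = d ∨ r = e
    · by_cases is : s = a ∨ s = b ∨ s = c ∨ s = d ∨ s = e
      · exact h2 (k5_adj hk ir is rs)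
      · exact ps (key p s hp hs ip is)
    · exact pr (key p r hp hr ip ir)

/-- six vertices, three of them pairwise not adjacent -/
theorem k5f_tri {l : List V} (hl : l.length ≤ 6) {p q r : V} (hp : p ∈ l) (hq : q ∈ l) (hr : r ∈ l)
    (pq : p ≠ q) (pr : p ≠ r) (qr : q ≠ r) (h1 : ¬ G.Adj p q) (h2 : ¬ G.Adj p r) (h3 : ¬ G.Adj q r) : K5F G l := by
  intro a ha b hb c hc d hd e he hk
  have key := fun (x y : V) (hx : x ∈ l) (hy : y ∈ l) => k5_out hl hk ha hb hc hd he hx hy
  by_cases ip : p = a ∨ p = b ∨ p = c ∨ p = d ∨ p = e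
  · by_cases iq : q = a ∨ q = b ∨ q = c ∨ q = d ∨ q = e
    · exact h1 (k5_adj hk ip iq pq)
    · by_cases ir : r = a ∨ r = b ∨ r = c ∨ r = d ∨ r = e
      · exact h2 (k5_adj hk ip ir pr)
      · exact qr (key q r hq hr iq ir)
  · by_cases iq : q = a ∨ q = b ∨ q = c ∨ q = d ∨ q = e
    · by_cases ir : r = a ∨ r = b ∨ r = c ∨ r = d ∨ r = e
      · exact h3 (k5_adj hk iq ir qr)
      · exact pr (key p r hp hr ip ir)
    · exact pq (key p q hp hq ip iq)

/-! ### structures are closed -/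

section
variable {X T : V → V → V → V → Prop}

theorem cl_of_qf (hX : Sepr X) (h : QF G X T) : Cl G X T := by
  have sxT : ∀ {a b x : V}, ¬ T a x b x := fun ht => (h.adj4 (h.sw3 (h.swap₁ ht))).1.ne rfl
  have df : ∀ {a b x y x2}, K5F G [a, b, x, y, x2] → T a x b y → T a x2 b x → T a x2 b y := by
    intro a b x y x2 hk h1 h2
    rcases h.ferrers (hk.sub (by simp)) h2 h1 with h3 | h3
    · exact h3
    · exact absurd h3 sxT
  refine ⟨h.swap₁, h.swap₂, ?_, ?_, ?_, ?_, ?_, ?_, ?_, ?_, ?_, h.k5⟩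
  · intro p q r s pq rs hs hx hn
    rcases hX.one pq hs.1.ne hs.2.1.ne hs.2.2.1.ne hs.2.2.2.ne rs with h1 | h1 | h1
    · exact absurd h1 hx
    · rcases h.some hs.1 hs.2.2.2 pq hs.2.1.ne hs.2.2.1.ne rs h1 with h2 | h2
      · exact h2
      · exact absurd (h.adj h2) hn
    · rcases h.some hs.2.1 hs.2.2.1 pq hs.1.ne hs.2.2.2.ne rs.symm h1 with h2 | h2
      · exact h.sw3 h2
      · exact absurd (h.adj h2) hn
  · intro u w x y z hk hn h1 h2
    exact h.trans hk h1 h2 hn
  · intro u w x y z hk hn h1 h2 h4 x1 x2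
    obtain ⟨e1, e2, e3, e4, e5, e6⟩ := h4
    have hc : X u z w y := by
      rcases hX.one e1.ne e2.ne e3.ne e4.ne e5.ne e6.ne with h5 | h5 | h5
      · exact absurd h5 x1
      · exact absurd h5 x2
      · exact h5
    rcases h.some e3 e4 e1.ne e2.ne e5.ne e6.ne.symm hc with h6 | h6
    · exact absurd (h.trans hk h1 (h.sw3 h6) hn) (h.not h2)
    · exact h6
  · intro a b x y x2 hk _ h1 h2
    exact df hk h1 h2
  · intro a b x y x2 hk hn h1 h2 h4 x1 x2'
    obtain ⟨e1, e2, e3, e4, e5, e6⟩ := h4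
    have hc : X a x b x2 := by
      rcases hX.one e1.ne e3.ne e2.ne e5.ne e4.ne e6.ne.symm with h5 | h5 | h5
      · exact absurd h5 x2'
      · exact absurd h5 x1
      · exact h5
    rcases h.some e2 e5 e1.ne e3.ne e4.ne e6.ne hc with h6 | h6
    · exact h.sw3 h6
    · exact absurd (df hk h1 h6) (h.not h2)
  · intro a b x y x2 hk hn h1 h2 h4 x1 x2'
    obtain ⟨e1, e2, e3, e4, e5, e6⟩ := h4
    have hc : X a b x2 x := by
      rcases hX.one e1.ne e3.ne e2.ne e5.ne e4.ne e6.ne.symm with h5 | h5 | h5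
      · exact h5
      · exact absurd h5 x1
      · exact absurd h5 x2'
    rcases h.some e1 e6.symm e3.ne e2.ne e5.ne.symm e4.ne hc with h6 | h6
    · exact absurd (df hk h1 h6) (h.not h2)
    · exact h.sw3 h6
  · intro a b x y x2 y2 hk _ _ _ _ h1 h2 h3
    rcases h.ferrers hk h1 h2 with h4 | h4
    · exact absurd h4 (h.not h3)
    · exact h4
  · intro a b x y x2 y2 hk _ _ _ _ h1 h2 h3 h4 x1 x2'
    obtain ⟨e1, e2, e3, e4, e5, e6⟩ := h4
    have hc : X a y2 b x2 := by
      rcases hX.one e1.ne e2.ne e3.ne e4.ne e5.ne e6.ne with h5 | h5 | h5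
      · exact absurd h5 x2'
      · exact absurd h5 x1
      · exact h5
    rcases h.some e3 e4 e1.ne e2.ne e5.ne e6.ne.symm hc with h6 | h6
    · exact h.sw3 h6
    · rcases h.ferrers hk h1 h6 with h7 | h7
      · exact absurd h7 (h.not h2)
      · exact absurd h7 (h.not h3)
  · intro a b x y x2 y2 hk _ _ _ _ h1 h2 h3 h4 x1 x2'
    obtain ⟨e1, e2, e3, e4, e5, e6⟩ := h4
    have hc : X a b x2 y2 := by
      rcases hX.one e1.ne e2.ne e3.ne e4.ne e5.ne e6.ne with h5 | h5 | h5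
      · exact h5
      · exact absurd h5 x1
      · exact absurd h5 x2'
    rcases h.some e1 e6 e2.ne e3.ne e4.ne.symm e5.ne hc with h6 | h6
    · rcases h.ferrers hk h1 h6 with h7 | h7
      · exact absurd h7 (h.not h2)
      · exact absurd h7 (h.not h3)
    · exact h.sw3 h6

/-! ### properties of the smallest closed relation -/

/-- the properties of the smallest closed relation which are used -/
structure WF (G : SimpleGraph V) (X W : V → V → V → V → Prop) : Prop where
  sepr : Sepr X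
  cl : Cl G X W
  sq : ∀ {a b c d}, W a b c d → Sq G a b c d
  ne : ∀ {a b c d}, W a b c d → a ≠ b
  nc : ∀ {a b c d}, W a b c d → ¬ X a b c d
  ex : ∀ {a b c d}, W a b c d → ¬ W a c b d
  rig : ∀ {a b c d}, X a b c d → G.Adj a b → G.Adj c d → (G.Adj a d ∧ G.Adj c b) ∨ (G.Adj a c ∧ G.Adj d b)

theorem wf_of_qf (hX : Sepr X) (h : QF G X T) : WF G X (Wc G X) := by
  have le : ∀ {a b c d}, Wc G X a b c d → T a b c d := Wc.le (cl_of_qf hX h)
  refine ⟨hX, Wc.cl, fun hw => h.adj4 (le hw), fun hw => h.ne (le hw), fun hw => h.nocross (le hw),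
    fun hw hw' => h.notboth (h.sw3 (le hw)) (le hw'), ?_⟩
  intro a b c d hx ab cd
  have h1 := hX.dist hx
  have h2 := hX.dist (hX.swap hx)
  have h3 := hX.dist (hX.swap (hX.comm hx))
  have h4 := hX.dist (hX.comm (hX.swap (hX.comm hx)))
  rcases h.some ab cd h1.2 h4.2 h2.2.symm ((hX.dist (hX.swap (hX.comm (hX.swap (hX.comm hx))))).2) hx with h5 | h5
  · have := h.adj4 h5
    exact Or.inl ⟨this.2.1, this.2.2.1⟩
  · have := h.adj4 h5
    exact Or.inr ⟨this.1, this.2.2.2⟩

end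

end Pool.Agent.SOF
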